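import Mathlib

/-!
MP_75103d_lc, part (A), arithmetic block (helper92): the recursion `GG` which bounds the number of words
of length `M` which reduce to a given reduced word of length `d`.
-/

set_option autoImplicit false

namespace BorelEq.GapC

/-- upper bound for the number of words of length `M` reducing to a given reduced word of length `d` -/
def GG : ℕ → ℕ → ℕ
  | 0, 0 => 1
  | 0, (_ + 1) => 0
  | (M + 1), 0 => 6 * GG M 1
  | (M + 1), (d + 1) => GG M d + 5 * GG M (d + 2)

/-- induction on `M`: `2 ^ (d+1) * (GG M d + 5 GG M (d+2)) ≤ (2 + 5/2) (9/2)^M`. -/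
theorem GG_geom (M d : ℕ) : (2 : ℝ) ^ d * (GG M d : ℝ) ≤ (9 / 2 : ℝ) ^ M := by
  induction M generalizing d with
  | zero =>
    cases d with
    | zero => simp [GG]
    | succ d => simp [GG]
  | succ M ih =>
    have hp : (0 : ℝ) ≤ (9 / 2 : ℝ) ^ M := by positivity
    cases d with
    | zero =>
      have h1 := ih 1
      simp only [GG, pow_zero, one_mul, Nat.cast_mul, Nat.cast_ofNat, pow_succ] at h1 ⊢
      linarith
    | succ d =>
      have h1 := ih d
      have h2 := ih (d + 2)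
      simp only [GG, Nat.cast_add, Nat.cast_mul, Nat.cast_ofNat]
      have e1 : (2 : ℝ) ^ (d + 2) = 4 * 2 ^ d := by ring
      have e2 : (2 : ℝ) ^ (d + 1) = 2 * 2 ^ d := by ring
      have e3 : (9 / 2 : ℝ) ^ (M + 1) = 9 / 2 * (9 / 2 : ℝ) ^ M := by ring
      rw [e1] at h2
      rw [e2, e3]
      nlinarith

theorem GG_zero_of_lt (M d : ℕ) (h : M < d) : GG M d = 0 := by
  induction M generalizing d with
  | zero =>
    cases d with
    | zero => omega
    | succ d => simp [GG]
  | succ M ih =>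
    cases d with
    | zero => omega
    | succ d =>
      simp only [GG]
      rw [ih d (by omega), ih (d + 2) (by omega)]

/-- the total count over any longer range -/
theorem GG_total_aux (M : ℕ) : ∀ N : ℕ, M ≤ N →
    GG M 0 + ∑ d ∈ Finset.range N, 6 * 5 ^ d * GG M (d + 1) = 6 ^ M := by
  induction M with
  | zero =>
    intro N _
    simp [GG]
  | succ M ih =>
    intro N hN
    obtain ⟨K, rfl⟩ : ∃ K, N = K + 1 := ⟨N - 1, by omega⟩
    have h1 := ih K (by omega)
    have h2 := ih (K + 2) (by omega)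
    have hA : ∑ d ∈ Finset.range (K + 1), 6 * 5 ^ d * GG M d
        = 5 * (∑ d ∈ Finset.range K, 6 * 5 ^ d * GG M (d + 1)) + 6 * GG M 0 := by
      rw [Finset.sum_range_succ', Finset.mul_sum]
      have : ∑ k ∈ Finset.range K, 6 * 5 ^ (k + 1) * GG M (k + 1)
          = ∑ k ∈ Finset.range K, 5 * (6 * 5 ^ k * GG M (k + 1)) := by
        refine Finset.sum_congr rfl fun d _ => ?_
        rw [pow_succ]; ring
      rw [this]
      simp
    have hB : ∑ d ∈ Finset.range (K + 2), 6 * 5 ^ d * GG M (d + 1)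
        = (∑ d ∈ Finset.range (K + 1), 6 * 5 ^ (d + 1) * GG M (d + 2)) + 6 * GG M 1 := by
      rw [Finset.sum_range_succ']
      simp
    have hC : ∑ d ∈ Finset.range (K + 1), 6 * 5 ^ d * GG (M + 1) (d + 1)
        = (∑ d ∈ Finset.range (K + 1), 6 * 5 ^ d * GG M d)
          + ∑ d ∈ Finset.range (K + 1), 6 * 5 ^ (d + 1) * GG M (d + 2) := by
      rw [← Finset.sum_add_distrib]
      refine Finset.sum_congr rfl fun d _ => ?_
      simp only [GG]
      rw [pow_succ]; ring
    have hD : GG (M + 1) 0 = 6 * GG M 1 := by simp [GG]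
    rw [hC, hD, hA, pow_succ]
    rw [hB] at h2
    omega

/-- total number of words; `nn 0 = 1`, `nn (d+1) = 6 * 5 ^ d` is the number of reduced words -/
theorem GG_total (M : ℕ) :
    GG M 0 + ∑ d ∈ Finset.range M, 6 * 5 ^ d * GG M (d + 1) = 6 ^ M :=
  GG_total_aux M M le_rfl

theorem GG_sum (M : ℕ) : ∑ d ∈ Finset.range (M + 1), 5 ^ d * GG M d ≤ 6 ^ M := by
  rw [← GG_total M, Finset.sum_range_succ']
  have : ∑ d ∈ Finset.range M, 5 ^ (d + 1) * GG M (d + 1)
      ≤ ∑ d ∈ Finset.range M, 6 * 5 ^ d * GG M (d + 1) := by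
    refine Finset.sum_le_sum fun d _ => ?_
    refine Nat.mul_le_mul_right _ ?_
    rw [pow_succ]
    omega
  simp only [pow_zero, one_mul]
  omega

/-- only even indices of an even length -/
theorem GG_sum_even (m : ℕ) : ∑ k ∈ Finset.range (m + 1), 25 ^ k * GG (2 * m) (2 * k) ≤ 36 ^ m := by
  have h := GG_sum (2 * m)
  have e : (6 : ℕ) ^ (2 * m) = 36 ^ m := by rw [pow_mul]; norm_num
  rw [e] at h
  refine le_trans ?_ h
  have hinj : Set.InjOn (fun k : ℕ => 2 * k) (Finset.range (m + 1) : Set ℕ) := by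
    intro a _ b _ hab
    simp only at hab
    omega
  have : ∑ k ∈ Finset.range (m + 1), 25 ^ k * GG (2 * m) (2 * k)
      = ∑ d ∈ (Finset.range (m + 1)).image (fun k : ℕ => 2 * k), 5 ^ d * GG (2 * m) d := by
    rw [Finset.sum_image hinj]
    refine Finset.sum_congr rfl fun k _ => ?_
    rw [pow_mul]; norm_num
  rw [this]
  refine Finset.sum_le_sum_of_subset ?_
  intro d hd
  rw [Finset.mem_image] at hd
  obtain ⟨k, hk, rfl⟩ := hd
  rw [Finset.mem_range] at hk ⊢
  omega

theorem GG_geom_even (m : ℕ) :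
    ∑ k ∈ Finset.range (m + 1), (GG (2 * m) (2 * k) : ℝ) ≤ 4 / 3 * (81 / 4 : ℝ) ^ m := by
  have h1 : ∀ k ∈ Finset.range (m + 1), (GG (2 * m) (2 * k) : ℝ)
      ≤ (81 / 4 : ℝ) ^ m * (1 / 4 : ℝ) ^ k := by
    intro k _
    have h := GG_geom (2 * m) (2 * k)
    rw [pow_mul, pow_mul] at h
    have e1 : ((2 : ℝ) ^ 2) ^ k = 4 ^ k := by norm_num
    have e2 : ((9 / 2 : ℝ) ^ 2) ^ m = (81 / 4) ^ m := by norm_num
    rw [e1, e2] at h
    have h4 : (0 : ℝ) < 4 ^ k := by positivity
    have e3 : (1 / 4 : ℝ) ^ k = 1 / 4 ^ k := by rw [div_pow, one_pow]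
    rw [e3, mul_one_div, le_div_iff₀ h4]
    linarith
  refine (Finset.sum_le_sum h1).trans ?_
  rw [← Finset.mul_sum, mul_comm]
  refine mul_le_mul_of_nonneg_right ?_ (by positivity)
  rw [geom_sum_eq (by norm_num)]
  have : (0 : ℝ) ≤ (1 / 4 : ℝ) ^ (m + 1) := by positivity
  rw [div_le_iff_of_neg (by norm_num)]
  nlinarith

end BorelEq.GapC
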