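import Pool.Agent.Lib.MP_75103d_lc.A_CMod
import Pool.Agent.Lib.MP_75103d_lc.A_CG

/-!
MP_75103d_lc, part (A), arithmetic block (helper92): number of words with a given product.
-/

set_option autoImplicit false

open scoped Quaternion

namespace BorelEq.GapC

open BorelEq.GapT

open scoped Classical in
/-- number of words of length `M` with product `α` -/
noncomputable def cnt (M : ℕ) (α : ℍ[ℤ]) : ℕ :=
  (Finset.univ.filter (fun w : Fin M → Fin 6 => wprod w = α)).card

theorem wprod_cons {M : ℕ} (i : Fin 6) (w : Fin M → Fin 6) :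
    wprod (Fin.cons i w : Fin (M + 1) → Fin 6) = bZ i * wprod w := by
  unfold wprod
  rw [List.ofFn_succ, List.prod_cons]
  simp

theorem nq_wprod {M : ℕ} (w : Fin M → Fin 6) : nq (wprod w) = 5 ^ M := by
  induction M with
  | zero => simp [wprod, nq]
  | succ M ih =>
    have h : wprod w = bZ (w 0) * wprod (Fin.tail w) := by
      rw [← wprod_cons, Fin.cons_self_tail]
    rw [h, nq_mul, nq_bZ, ih, pow_succ']

theorem cnt_zero (α : ℍ[ℤ]) : cnt 0 α ≤ 1 := by
  classical
  unfold cnt
  refine (Finset.card_filter_le _ _).trans ?_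
  simp

/-- split off the first letter: `bZ i * β = α` implies `star (bZ i) * α = 5 • β` -/
theorem cnt_succ (M : ℕ) (α : ℍ[ℤ]) (F : Fin 6 → ℕ)
    (hF : ∀ i (β : ℍ[ℤ]), star (bZ i) * α = (5 : ℤ) • β → cnt M β ≤ F i)
    (hF0 : ∀ i, (¬ ∃ β : ℍ[ℤ], star (bZ i) * α = (5 : ℤ) • β) → F i = 0) :
    cnt (M + 1) α ≤ ∑ i, F i := by
  classical
  have hinj : ∀ a b : ℍ[ℤ], (5 : ℤ) • a = (5 : ℤ) • b → a = b := by
    intro a b hab
    rw [Quaternion.ext_iff] at hab
    simp only [Quaternion.re_smul, Quaternion.imI_smul, Quaternion.imJ_smul,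
      Quaternion.imK_smul, smul_eq_mul] at hab
    ext
    · exact (mul_right_inj' (by norm_num)).1 hab.1
    · exact (mul_right_inj' (by norm_num)).1 hab.2.1
    · exact (mul_right_inj' (by norm_num)).1 hab.2.2.1
    · exact (mul_right_inj' (by norm_num)).1 hab.2.2.2
  have h5 : ∀ R : ℍ[ℤ], (5 : ℍ[ℤ]) * R = (5 : ℤ) • R := by
    intro R
    rw [CMod_five]
    ext
    · simp only [Quaternion.re_mul, Quaternion.re_smul, smul_eq_mul]
      ring
    · simp only [Quaternion.imI_mul, Quaternion.imI_smul, smul_eq_mul]
      ring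
    · simp only [Quaternion.imJ_mul, Quaternion.imJ_smul, smul_eq_mul]
      ring
    · simp only [Quaternion.imK_mul, Quaternion.imK_smul, smul_eq_mul]
      ring
  have hw : ∀ w : Fin (M + 1) → Fin 6, wprod w = α →
      star (bZ (w 0)) * α = (5 : ℤ) • wprod (Fin.tail w) := by
    intro w hw
    have h : wprod w = bZ (w 0) * wprod (Fin.tail w) := by
      rw [← wprod_cons, Fin.cons_self_tail]
    rw [← hw, h, ← mul_assoc, (bZ_star_mul _).2, h5]
  unfold cnt
  rw [Finset.card_eq_sum_card_fiberwise (f := fun w : Fin (M + 1) → Fin 6 => w 0)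
    (t := Finset.univ) (fun _ _ => Finset.mem_coe.2 (Finset.mem_univ _))]
  refine Finset.sum_le_sum fun i _ => ?_
  by_cases hex : ∃ β : ℍ[ℤ], star (bZ i) * α = (5 : ℤ) • β
  · obtain ⟨β, hβ⟩ := hex
    refine le_trans ?_ (hF i β hβ)
    unfold cnt
    refine Finset.card_le_card_of_injOn (fun w => Fin.tail w) ?_ ?_
    · intro w hw'
      have hw' := Finset.mem_coe.1 hw'
      rw [Finset.mem_filter, Finset.mem_filter] at hw'
      obtain ⟨⟨_, h1⟩, h2⟩ := hw'
      rw [Finset.mem_coe, Finset.mem_filter]
      refine ⟨Finset.mem_univ _, ?_⟩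
      have h3 := hw w h1
      rw [h2, hβ] at h3
      exact (hinj _ _ h3).symm
    · intro w1 hw1 w2 hw2 h12
      have hw1 := Finset.mem_coe.1 hw1
      have hw2 := Finset.mem_coe.1 hw2
      rw [Finset.mem_filter] at hw1 hw2
      rw [← Fin.cons_self_tail w1, ← Fin.cons_self_tail w2]
      have h3 : Fin.tail w1 = Fin.tail w2 := h12
      have h4 : w1 0 = w2 0 := by rw [hw1.2, hw2.2]
      rw [h3, h4]
  · have h0 : (Finset.filter (fun w : Fin (M + 1) → Fin 6 => w 0 = i)
        (Finset.filter (fun w => wprod w = α) Finset.univ)).card = 0 := by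
      rw [Finset.card_eq_zero, Finset.filter_eq_empty_iff]
      intro w hw' h2
      rw [Finset.mem_filter] at hw'
      have h3 := hw w hw'.2
      rw [h2] at h3
      exact hex ⟨_, h3⟩
    rw [h0]
    exact Nat.zero_le _

/-- induction on `M`.  `α = 5^j • P`, `β` is unique (`smul` by 5 is injective); for `j ≥ 1` it is `5^j • P'` for the
unique `i` of `exists_unique_div` (if `d ≥ 1`), and `5^(j-1) • (star (bZ i) * P)` with `star (bZ i) * P` primitive
of norm `5^(d+1)` for the other `i`; for `j = 0` only the unique `i` contributes. -/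
theorem cnt_le (M d j : ℕ) (P : ℍ[ℤ]) (hP : Prim P) (hn : nq P = 5 ^ d) (hM : M = 2 * j + d) :
    cnt M ((5 ^ j : ℤ) • P) ≤ GG M d := by
  classical
  induction M generalizing d j P with
  | zero =>
    obtain rfl : j = 0 := by omega
    obtain rfl : d = 0 := by omega
    exact cnt_zero _
  | succ M ih =>
    have hinj : ∀ a b : ℍ[ℤ], (5 : ℤ) • a = (5 : ℤ) • b → a = b := by
      intro a b hab
      rw [Quaternion.ext_iff] at hab
      simp only [Quaternion.re_smul, Quaternion.imI_smul, Quaternion.imJ_smul,
        Quaternion.imK_smul, smul_eq_mul] at hab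
      ext
      · exact (mul_right_inj' (by norm_num)).1 hab.1
      · exact (mul_right_inj' (by norm_num)).1 hab.2.1
      · exact (mul_right_inj' (by norm_num)).1 hab.2.2.1
      · exact (mul_right_inj' (by norm_num)).1 hab.2.2.2
    have hnq : ∀ i, nq (star (bZ i) * P) = 5 ^ (d + 1) := by
      intro i
      rw [nq_mul, star_bZ, nq_bZ, hn, pow_succ]
      ring
    rcases Nat.eq_zero_or_pos d with hd | hd
    · subst hd
      obtain ⟨j', rfl⟩ : ∃ j', j = j' + 1 := ⟨j - 1, by omega⟩
      have hnd : ∀ i, Prim (star (bZ i) * P) := by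
        intro i
        exact not_div P (by rw [hn]; norm_num) i
      have hβ : ∀ i, star (bZ i) * ((5 ^ (j' + 1) : ℤ) • P) =
          (5 : ℤ) • ((5 ^ j' : ℤ) • (star (bZ i) * P)) := by
        intro i
        rw [mul_smul_comm, smul_smul, pow_succ']
      calc cnt (M + 1) ((5 ^ (j' + 1) : ℤ) • P) ≤ ∑ _i : Fin 6, GG M 1 := by
            apply cnt_succ
            · intro i β h
              rw [hβ i] at h
              have := hinj _ _ h
              rw [← this]
              exact ih 1 j' _ (hnd i) (hnq i) (by omega)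
            · intro i h
              exact absurd ⟨_, hβ i⟩ h
        _ = GG (M + 1) 0 := by
            simp [GG]
    · obtain ⟨d', rfl⟩ : ∃ d', d = d' + 1 := ⟨d - 1, by omega⟩
      have h5 : (5 : ℤ) ∣ nq P := by
        rw [hn]
        exact dvd_pow_self _ (by omega)
      obtain ⟨i₀, ⟨Q₀, hQ₀⟩, huniq⟩ := exists_unique_div P hP h5
      obtain ⟨hQp, hQn⟩ := prim_div P Q₀ hP i₀ hQ₀
      have hQn' : nq Q₀ = 5 ^ d' := by
        rw [hn, pow_succ] at hQn
        linarith
      have hprim : ∀ i, i ≠ i₀ → Prim (star (bZ i) * P) := by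
        intro i hi hex
        exact hi (huniq i hex)
      have hβ0 : star (bZ i₀) * ((5 ^ j : ℤ) • P) = (5 : ℤ) • ((5 ^ j : ℤ) • Q₀) := by
        rw [mul_smul_comm, hQ₀, smul_smul, smul_smul, mul_comm]
      have hβ : ∀ j' : ℕ, j = j' + 1 → ∀ i, star (bZ i) * ((5 ^ j : ℤ) • P) =
          (5 : ℤ) • ((5 ^ j' : ℤ) • (star (bZ i) * P)) := by
        intro j' hj i
        rw [mul_smul_comm, smul_smul, hj, pow_succ']
      calc cnt (M + 1) ((5 ^ j : ℤ) • P)
          ≤ ∑ i : Fin 6, (if i = i₀ then GG M d' else if j = 0 then 0 else GG M (d' + 2)) := by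
            apply cnt_succ
            · intro i β h
              by_cases hi : i = i₀
              · rw [if_pos hi]
                subst hi
                rw [hβ0] at h
                rw [← hinj _ _ h]
                exact ih d' j _ hQp hQn' (by omega)
              · rw [if_neg hi]
                by_cases hj : j = 0
                · subst hj
                  rw [pow_zero, one_smul] at h
                  exact absurd (huniq i ⟨β, h⟩) hi
                · rw [if_neg hj]
                  obtain ⟨j', hj'⟩ : ∃ j', j = j' + 1 := ⟨j - 1, by omega⟩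
                  rw [hβ j' hj' i] at h
                  rw [← hinj _ _ h]
                  exact ih (d' + 2) j' _ (hprim i hi) (hnq i) (by omega)
            · intro i h
              by_cases hi : i = i₀
              · subst hi
                exact absurd ⟨_, hβ0⟩ h
              · rw [if_neg hi]
                by_cases hj : j = 0
                · rw [if_pos hj]
                · obtain ⟨j', hj'⟩ : ∃ j', j = j' + 1 := ⟨j - 1, by omega⟩
                  exact absurd ⟨_, hβ j' hj' i⟩ h
        _ ≤ ∑ i : Fin 6, (if i = i₀ then GG M d' else GG M (d' + 2)) := by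
            apply Finset.sum_le_sum
            intro i _
            split_ifs <;> simp
        _ = GG (M + 1) (d' + 1) := by
            rw [← Finset.add_sum_erase _ _ (Finset.mem_univ i₀), if_pos rfl,
              Finset.sum_congr rfl (g := fun _ => GG M (d' + 2))
                (fun i hi => if_neg (Finset.ne_of_mem_erase hi)), Finset.sum_const,
              Finset.card_erase_of_mem (Finset.mem_univ _), Finset.card_univ, Fintype.card_fin]
            simp [GG]

end BorelEq.GapC
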