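import Mathlib

/-!
MP_75103d_lc, part (A), arithmetic block (helper92): sums of two squares, `r₂(n) ≤ 4 d(n)`.
-/

set_option autoImplicit false

namespace BorelEq.GapC

/-- Gaussian integers of norm `n` -/
def GS (n : ℕ) : Set GaussianInt := {z | z.norm = (n : ℤ)}

theorem GS_mem (n : ℕ) (z : GaussianInt) : z ∈ GS n ↔ z.re ^ 2 + z.im ^ 2 = (n : ℤ) := by
  unfold GS
  rw [Set.mem_ofPred_eq, Zsqrtd.norm_def]
  constructor
  · intro h; linarith [h, sq z.re, sq z.im]
  · intro h; linarith [h, sq z.re, sq z.im]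

theorem GS_finite (n : ℕ) : (GS n).Finite := by
  have hfin : (((Finset.Icc (-(n : ℤ)) n ×ˢ Finset.Icc (-(n : ℤ)) n).image
      (fun q : ℤ × ℤ => (⟨q.1, q.2⟩ : GaussianInt)) : Finset GaussianInt) :
        Set GaussianInt).Finite := Finset.finite_toSet _
  refine hfin.subset ?_
  intro z hz
  rw [GS_mem] at hz
  have hb : ∀ x y : ℤ, x ^ 2 + y ^ 2 = (n : ℤ) → -(n : ℤ) ≤ x ∧ x ≤ n := by
    intro x y hxy
    constructor
    · nlinarith [sq_nonneg y, sq_nonneg (x + 1), sq_nonneg x]
    · nlinarith [sq_nonneg y, sq_nonneg (x - 1), sq_nonneg x]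
  have h1 := hb z.re z.im hz
  have h2 := hb z.im z.re (by linarith)
  simp only [Finset.coe_image, Set.mem_image, Finset.mem_coe, Finset.mem_product, Finset.mem_Icc]
  exact ⟨(z.re, z.im), ⟨h1, h2⟩, rfl⟩

/-- a covering lemma -/
theorem GS_cover (N e n : ℕ) (f : ℕ → GaussianInt)
    (h : ∀ z ∈ GS N, ∃ a, a < e + 1 ∧ ∃ z' ∈ GS n, z = f a * z') :
    (GS N).ncard ≤ (e + 1) * (GS n).ncard := by
  classical
  have hS : (GS n).ncard = (GS_finite n).toFinset.card := Set.ncard_eq_toFinset_card _ _
  have hsub : GS N ⊆ (((Finset.range (e + 1) ×ˢ (GS_finite n).toFinset).image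
      (fun q : ℕ × GaussianInt => f q.1 * q.2) : Finset GaussianInt) : Set GaussianInt) := by
    intro z hz
    obtain ⟨a, ha, z', hz', rfl⟩ := h z hz
    simp only [Finset.coe_image, Set.mem_image, Finset.mem_coe, Finset.mem_product,
      Finset.mem_range, Set.Finite.mem_toFinset]
    exact ⟨(a, z'), ⟨ha, hz'⟩, rfl⟩
  calc (GS N).ncard ≤ _ := Set.ncard_le_ncard hsub (Finset.finite_toSet _)
    _ = _ := Set.ncard_coe_finset _
    _ ≤ _ := Finset.card_image_le
    _ = (e + 1) * (GS n).ncard := by rw [Finset.card_product, Finset.card_range, hS]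

/-- `p ∣ N z` with `p` a rational prime which is a Gaussian prime: `p ∣ z` -/
theorem GS_inert (p : ℕ) (hp : p.Prime) (hpr : Prime (p : GaussianInt)) (n : ℕ)
    (hpn : ¬ p ∣ n) (e : ℕ) :
    ∀ z ∈ GS (p ^ e * n), ∃ z' ∈ GS n, z = (p : GaussianInt) ^ (e / 2) * z' := by
  induction e using Nat.strong_induction_on with
  | _ e ih =>
    intro z hz
    rcases Nat.eq_zero_or_pos e with he | he
    · subst he
      exact ⟨z, by simpa using hz, by simp⟩
    · have hz' : z.norm = ((p ^ e * n : ℕ) : ℤ) := hz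
      have hdv : (p : GaussianInt) ∣ z * star z := by
        rw [← Zsqrtd.norm_eq_mul_conj, hz']
        refine ⟨((p ^ (e - 1) * n : ℕ) : GaussianInt), ?_⟩
        have : p ^ e * n = p * (p ^ (e - 1) * n) := by
          obtain ⟨k, rfl⟩ : ∃ k, e = k + 1 := ⟨e - 1, by omega⟩
          simp only [Nat.add_sub_cancel]
          ring
        rw [this]
        push_cast
        ring
      have hdz : (p : GaussianInt) ∣ z := by
        rcases hpr.dvd_or_dvd hdv with h | h
        · exact h
        · obtain ⟨w, hw⟩ := h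
          refine ⟨star w, ?_⟩
          have := congrArg star hw
          rw [star_star, star_mul] at this
          rw [this, star_natCast]
          ring
      obtain ⟨w, hw⟩ := hdz
      have hnw : (p : ℤ) * p * w.norm = ((p ^ e * n : ℕ) : ℤ) := by
        rw [← hz', hw, Zsqrtd.norm_mul, Zsqrtd.norm_natCast]
      have hp0 : (p : ℤ) ≠ 0 := by exact_mod_cast hp.ne_zero
      have he2 : 2 ≤ e := by
        by_contra hcon
        have he1 : e = 1 := by omega
        subst he1
        apply hpn
        have h1 : (p : ℤ) * (p * w.norm) = p * n := by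
          rw [← mul_assoc, hnw]; push_cast; ring
        have h2 := mul_left_cancel₀ hp0 h1
        have h3 : (p : ℤ) ∣ (n : ℤ) := ⟨w.norm, h2.symm⟩
        exact_mod_cast h3
      obtain ⟨k, rfl⟩ : ∃ k, e = k + 2 := ⟨e - 2, by omega⟩
      have hw2 : w ∈ GS (p ^ k * n) := by
        show w.norm = ((p ^ k * n : ℕ) : ℤ)
        have h1 : ((p : ℤ) * p) * w.norm = ((p : ℤ) * p) * ((p ^ k * n : ℕ) : ℤ) := by
          rw [hnw]; push_cast; ring
        exact mul_left_cancel₀ (mul_ne_zero hp0 hp0) h1
      obtain ⟨z', hz1, hz2⟩ := ih k (by omega) w hw2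
      refine ⟨z', hz1, ?_⟩
      rw [hw, hz2]
      have : (k + 2) / 2 = k / 2 + 1 := by omega
      rw [this, pow_succ]
      ring

/-- the split (and ramified) case -/
theorem GS_split (p : ℕ) (hp : p.Prime) (π : GaussianInt) (hπ : Prime π)
    (hnπ : π.norm = (p : ℤ)) (n : ℕ) (e : ℕ) :
    ∀ z ∈ GS (p ^ e * n), ∃ a, a < e + 1 ∧ ∃ z' ∈ GS n, z = (π ^ a * (star π) ^ (e - a)) * z' := by
  have hp0 : (p : ℤ) ≠ 0 := by exact_mod_cast hp.ne_zero
  induction e with
  | zero =>
    intro z hz
    exact ⟨0, by omega, z, by simpa using hz, by simp⟩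
  | succ e ih =>
    intro z hz
    have hz' : z.norm = ((p ^ (e + 1) * n : ℕ) : ℤ) := hz
    have hpp : (p : GaussianInt) = π * star π := by
      rw [← Zsqrtd.norm_eq_mul_conj, hnπ]; simp
    have hdv : π ∣ z * star z := by
      rw [← Zsqrtd.norm_eq_mul_conj, hz']
      refine ⟨star π * ((p ^ e * n : ℕ) : GaussianInt), ?_⟩
      rw [← mul_assoc, ← hpp]
      push_cast
      ring
    rcases hπ.dvd_or_dvd hdv with h | h
    · obtain ⟨w, hw⟩ := h
      have hw2 : w ∈ GS (p ^ e * n) := by
        show w.norm = ((p ^ e * n : ℕ) : ℤ)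
        have h1 : (p : ℤ) * w.norm = (p : ℤ) * ((p ^ e * n : ℕ) : ℤ) := by
          rw [← hnπ, ← Zsqrtd.norm_mul, ← hw, hz', hnπ]; push_cast; ring
        exact mul_left_cancel₀ hp0 h1
      obtain ⟨a, ha, z', hz1, hz2⟩ := ih w hw2
      refine ⟨a + 1, by omega, z', hz1, ?_⟩
      rw [hw, hz2]
      have : e + 1 - (a + 1) = e - a := by omega
      rw [this, pow_succ]
      ring
    · obtain ⟨w, hw⟩ := h
      have hzw : z = star π * star w := by
        have := congrArg star hw
        rw [star_star, star_mul] at this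
        rw [this]; ring
      have hnsπ : (star π).norm = (p : ℤ) := by rw [Zsqrtd.norm_conj, hnπ]
      have hw2 : star w ∈ GS (p ^ e * n) := by
        show (star w).norm = ((p ^ e * n : ℕ) : ℤ)
        have h1 : (p : ℤ) * (star w).norm = (p : ℤ) * ((p ^ e * n : ℕ) : ℤ) := by
          rw [← hnsπ, ← Zsqrtd.norm_mul, ← hzw, hz', hnsπ]; push_cast; ring
        exact mul_left_cancel₀ hp0 h1
      obtain ⟨a, ha, z', hz1, hz2⟩ := ih (star w) hw2
      refine ⟨a, by omega, z', hz1, ?_⟩
      rw [hzw, hz2]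
      have : e + 1 - a = (e - a) + 1 := by omega
      rw [this, pow_succ]
      ring

/-- `z ↦ z * π ^ a * π' ^ b`; if `p ∣ N z` then a Gaussian prime `π ∣ p` divides `z` or its conjugate divides `z`. -/
theorem GS_prime_pow (p : ℕ) (hp : p.Prime) (e n : ℕ) (hn : 1 ≤ n) (hpn : ¬ p ∣ n) :
    (GS (p ^ e * n)).ncard ≤ (e + 1) * (GS n).ncard := by
  have : Fact p.Prime := ⟨hp⟩
  by_cases hpr : Prime (p : GaussianInt)
  · refine GS_cover _ e n (fun _ => (p : GaussianInt) ^ (e / 2)) ?_
    intro z hz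
    obtain ⟨z', h1, h2⟩ := GS_inert p hp hpr n hpn e z hz
    exact ⟨0, by omega, z', h1, h2⟩
  · have hirr : ¬ Irreducible (p : GaussianInt) := fun h => hpr h.prime
    obtain ⟨a, b, hab⟩ := GaussianInt.sq_add_sq_of_nat_prime_of_not_irreducible p hirr
    have hnorm : (⟨(a : ℤ), (b : ℤ)⟩ : GaussianInt).norm = (p : ℤ) := by
      rw [Zsqrtd.norm_def, ← hab]; push_cast; ring
    have hirr2 : Irreducible (⟨(a : ℤ), (b : ℤ)⟩ : GaussianInt) := by
      constructor
      · intro hu
        have h1 := Zsqrtd.norm_eq_one_iff.mpr hu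
        rw [hnorm] at h1
        have h2 : p = 1 := by simpa using h1
        exact hp.one_lt.ne' h2
      · intro x y hxy
        have h1 : (x.norm).natAbs * (y.norm).natAbs = p := by
          rw [← Int.natAbs_mul, ← Zsqrtd.norm_mul, ← hxy, hnorm]; simp
        rcases Nat.Prime.eq_one_or_self_of_dvd hp (x.norm).natAbs ⟨_, h1.symm⟩ with h | h
        · left
          exact Zsqrtd.norm_eq_one_iff.mp h
        · right
          have h2 : (y.norm).natAbs = 1 := by
            rw [h] at h1
            have := hp.pos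
            exact Nat.eq_of_mul_eq_mul_left this (by rw [h1, mul_one])
          exact Zsqrtd.norm_eq_one_iff.mp h2
    refine GS_cover _ e n (fun a' => (⟨(a : ℤ), (b : ℤ)⟩ : GaussianInt) ^ a' *
      (star (⟨(a : ℤ), (b : ℤ)⟩ : GaussianInt)) ^ (e - a')) ?_
    exact GS_split p hp _ hirr2.prime hnorm n e

theorem GS_one : (GS 1).ncard = 4 := by
  have h : GS 1 = (({⟨1, 0⟩, ⟨-1, 0⟩, ⟨0, 1⟩, ⟨0, -1⟩} : Finset GaussianInt) :
      Set GaussianInt) := by
    ext z
    rw [GS_mem]
    simp only [Finset.coe_insert, Finset.coe_singleton, Set.mem_insert_iff,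
      Set.mem_singleton_iff, Zsqrtd.ext_iff]
    constructor
    · intro hz
      rw [Nat.cast_one] at hz
      have h1 : z.re ≤ 1 := by nlinarith [sq_nonneg z.im, sq_nonneg z.re]
      have h2 : -1 ≤ z.re := by nlinarith [sq_nonneg z.im, sq_nonneg z.re]
      have h3 : z.im ≤ 1 := by nlinarith [sq_nonneg z.im, sq_nonneg z.re]
      have h4 : -1 ≤ z.im := by nlinarith [sq_nonneg z.im, sq_nonneg z.re]
      generalize z.re = x at *
      generalize z.im = y at *
      interval_cases x <;> interval_cases y <;> simp_all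
    · rintro (⟨h1, h2⟩ | ⟨h1, h2⟩ | ⟨h1, h2⟩ | ⟨h1, h2⟩) <;> rw [h1, h2] <;> norm_num
  rw [h, Set.ncard_coe_finset]
  rfl

/-- induction over the factorisation (`Nat.recOnPosPrimePosCoprime` or strong induction removing one prime) -/
theorem GS_le (n : ℕ) (hn : 1 ≤ n) : (GS n).ncard ≤ 4 * n.divisors.card := by
  induction n using Nat.strong_induction_on with
  | _ n ih =>
    rcases Nat.lt_or_ge 1 n with h1 | h1
    · have hp : (n.minFac).Prime := Nat.minFac_prime (by omega)
      obtain ⟨e, n', hn', hnn⟩ := Nat.exists_eq_pow_mul_and_not_dvd (n := n) (by omega)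
        n.minFac hp.ne_one
      generalize hpp : n.minFac = p at *
      have hn'0 : 1 ≤ n' := by
        rcases Nat.eq_zero_or_pos n' with h | h
        · subst h; simp at hn'
        · exact h
      have he : e ≠ 0 := by
        intro he
        subst he
        apply hn'
        rw [pow_zero, one_mul] at hnn
        rw [← hnn, ← hpp]
        exact Nat.minFac_dvd n
      have hlt : n' < n := by
        rw [hnn]
        have : 1 < p ^ e := Nat.one_lt_pow he hp.one_lt
        nlinarith
      have ih' := ih n' hlt hn'0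
      have hcop : Nat.Coprime (p ^ e) n' :=
        Nat.Coprime.pow_left e ((Nat.Prime.coprime_iff_not_dvd hp).mpr hn')
      have hd : n.divisors.card = (e + 1) * n'.divisors.card := by
        rw [hnn, Nat.Coprime.card_divisors_mul hcop, Nat.divisors_prime_pow hp, Finset.card_map,
          Finset.card_range]
      rw [hd]
      calc (GS n).ncard = (GS (p ^ e * n')).ncard := by rw [← hnn]
        _ ≤ (e + 1) * (GS n').ncard := GS_prime_pow p hp e n' hn'0 hn'
        _ ≤ (e + 1) * (4 * n'.divisors.card) := Nat.mul_le_mul_left _ ih'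
        _ = 4 * ((e + 1) * n'.divisors.card) := by ring
    · have : n = 1 := by omega
      subst this
      rw [GS_one]
      simp

/-- number of representations as a sum of two squares -/
noncomputable def r2 (n : ℤ) : ℕ :=
  ((Finset.Icc (-n) n ×ˢ Finset.Icc (-n) n).filter (fun v : ℤ × ℤ => v.1 ^ 2 + v.2 ^ 2 = n)).card

theorem r2_le (n : ℕ) (hn : 1 ≤ n) : r2 n ≤ 4 * n.divisors.card := by
  refine le_trans ?_ (GS_le n hn)
  unfold r2
  rw [← Set.ncard_coe_finset]
  refine Set.ncard_le_ncard_of_injOn (fun v : ℤ × ℤ => (⟨v.1, v.2⟩ : GaussianInt)) ?_ ?_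
    (GS_finite n)
  · intro v hv
    rw [GS_mem]
    simp only [Finset.coe_filter, Set.mem_ofPred_eq] at hv
    exact hv.2
  · intro v _ w _ hvw
    have h1 := congrArg Zsqrtd.re hvw
    have h2 := congrArg Zsqrtd.im hvw
    exact Prod.ext h1 h2

theorem r2_zero : r2 0 = 1 := by
  unfold r2
  rfl

end BorelEq.GapC
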