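import Mathlib

/-!
MP_75103d_lc, part (A), arithmetic block (helper92): an elementary sum.
-/

set_option autoImplicit false

namespace BorelEq.GapC

private theorem A_CSum_geo (x : ℝ) (Q : ℕ) :
    (1 - x) * ∑ e ∈ Finset.Icc 1 Q, x ^ e = x - x ^ (Q + 1) := by
  induction Q with
  | zero => simp
  | succ Q ih =>
    rw [Finset.sum_Icc_succ_top (by omega), mul_add, ih]
    ring

private theorem A_CSum_geo2 (x : ℝ) (Q : ℕ) :
    (1 - x) ^ 2 * ∑ e ∈ Finset.Icc 1 Q, (e : ℝ) * x ^ e =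
      x - ((Q : ℝ) + 1) * x ^ (Q + 1) + Q * x ^ (Q + 2) := by
  induction Q with
  | zero => simp
  | succ Q ih =>
    rw [Finset.sum_Icc_succ_top (by omega), mul_add, ih]
    push_cast
    ring

/-- Put `t = N / Q`, `x = exp (-t)`.  `(1 - e/Q)^N ≤ x^e`; by Cauchy-Schwarz
`∑ √e x^e ≤ √(∑ e x^e) √(∑ x^e) ≤ √(x/(1-x)^2 * x/(1-x)) = x/(1-x)^(3/2)`, and
`(1 - x) x^(-2/3) = exp (2t/3) - exp (-t/3) ≥ 2t/3`, so `x/(1-x)^(3/2) ≤ (3/2)^(3/2) t^(-3/2) ≤ 2 t^(-3/2)`. -/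
theorem sqrt_sum (Q N : ℕ) (hQ : 1 ≤ Q) (hN : 1 ≤ N) :
    ∑ e ∈ Finset.Icc 1 Q, Real.sqrt (e : ℝ) * (1 - (e : ℝ) / Q) ^ N ≤
      2 * ((Q : ℝ) / N) ^ (3 / 2 : ℝ) := by
  have hQ0 : (0 : ℝ) < Q := by exact_mod_cast hQ
  have hN0 : (0 : ℝ) < N := by exact_mod_cast hN
  obtain ⟨t, ht⟩ : ∃ t : ℝ, t = (N : ℝ) / Q := ⟨_, rfl⟩
  have ht0 : 0 < t := by rw [ht]; positivity
  obtain ⟨y, hy⟩ : ∃ y : ℝ, y = Real.exp (-(t / 3)) := ⟨_, rfl⟩
  have hy0 : 0 < y := by rw [hy]; exact Real.exp_pos _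
  obtain ⟨x, hx⟩ : ∃ x : ℝ, x = y ^ 3 := ⟨_, rfl⟩
  have hxe : x = Real.exp (-t) := by
    rw [hx, hy, ← Real.exp_nat_mul]
    congr 1
    push_cast
    ring
  have hx0 : 0 < x := by rw [hx]; positivity
  have hx1 : x < 1 := by
    rw [hxe, ← Real.exp_zero]
    exact Real.exp_lt_exp.2 (by linarith)
  have h1x : 0 < 1 - x := by linarith
  -- the key estimate
  have hkey : 2 * t / 3 * y ^ 2 ≤ 1 - x := by
    have e1 : y ^ 2 * Real.exp (2 * t / 3) = 1 := by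
      rw [hy, ← Real.exp_nat_mul, ← Real.exp_add, ← Real.exp_zero]
      congr 1
      push_cast
      ring
    have e2 : 1 + 2 * t / 3 ≤ Real.exp (2 * t / 3) := by
      have := Real.add_one_le_exp (2 * t / 3)
      linarith
    have e3 : y ≤ 1 := by
      rw [hy, ← Real.exp_zero]
      exact Real.exp_le_exp.2 (by linarith)
    have e4 := mul_le_mul_of_nonneg_left e2 (sq_nonneg y)
    rw [e1] at e4
    have e5 : y ^ 3 ≤ y ^ 2 := pow_le_pow_of_le_one hy0.le e3 (by norm_num)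
    rw [hx]
    linarith
  have hkey3 : t ^ 3 * x ^ 2 ≤ 4 * (1 - x) ^ 3 := by
    have h2 : (2 * t / 3 * y ^ 2) ^ 3 ≤ (1 - x) ^ 3 :=
      pow_le_pow_left₀ (by positivity) hkey 3
    have h3 : (2 * t / 3 * y ^ 2) ^ 3 = 8 / 27 * (t ^ 3 * x ^ 2) := by
      rw [hx]
      ring
    have h4 : 0 ≤ t ^ 3 * x ^ 2 := by positivity
    rw [h3] at h2
    linarith
  -- comparison with the geometric series
  have hterm : ∀ e ∈ Finset.Icc 1 Q, Real.sqrt (e : ℝ) * (1 - (e : ℝ) / Q) ^ N ≤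
      Real.sqrt (e : ℝ) * x ^ e := by
    intro e he
    rw [Finset.mem_Icc] at he
    have heQ : (e : ℝ) / Q ≤ 1 := by
      rw [div_le_one hQ0]
      exact_mod_cast he.2
    refine mul_le_mul_of_nonneg_left ?_ (Real.sqrt_nonneg _)
    have h2 : 1 - (e : ℝ) / Q ≤ Real.exp (-((e : ℝ) / Q)) := by
      have := Real.add_one_le_exp (-((e : ℝ) / Q))
      linarith
    calc (1 - (e : ℝ) / Q) ^ N ≤ Real.exp (-((e : ℝ) / Q)) ^ N :=
          pow_le_pow_left₀ (by linarith) h2 N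
      _ = x ^ e := by
          rw [hxe, ← Real.exp_nat_mul, ← Real.exp_nat_mul, ht]
          congr 1
          field_simp
  obtain ⟨S, hS⟩ : ∃ S : ℝ, S = ∑ e ∈ Finset.Icc 1 Q, Real.sqrt (e : ℝ) * x ^ e := ⟨_, rfl⟩
  have hS0 : 0 ≤ S := by
    rw [hS]
    exact Finset.sum_nonneg fun e _ => by positivity
  have hle : ∑ e ∈ Finset.Icc 1 Q, Real.sqrt (e : ℝ) * (1 - (e : ℝ) / Q) ^ N ≤ S := by
    rw [hS]
    exact Finset.sum_le_sum hterm
  have hA : ∑ e ∈ Finset.Icc 1 Q, x ^ e ≤ x / (1 - x) := by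
    rw [le_div_iff₀ h1x, mul_comm, A_CSum_geo]
    have : 0 ≤ x ^ (Q + 1) := by positivity
    linarith
  have hB : ∑ e ∈ Finset.Icc 1 Q, (e : ℝ) * x ^ e ≤ x / (1 - x) ^ 2 := by
    rw [le_div_iff₀ (by positivity), mul_comm, A_CSum_geo2]
    have h2 : x ^ (Q + 2) ≤ x ^ (Q + 1) := pow_le_pow_of_le_one hx0.le hx1.le (by omega)
    have h3 : (Q : ℝ) * x ^ (Q + 2) ≤ Q * x ^ (Q + 1) := mul_le_mul_of_nonneg_left h2 hQ0.le
    have h4 : 0 ≤ x ^ (Q + 1) := by positivity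
    linarith
  have hCS : S ^ 2 ≤ (∑ e ∈ Finset.Icc 1 Q, (e : ℝ) * x ^ e) *
      ∑ e ∈ Finset.Icc 1 Q, x ^ e := by
    have h2 := Finset.sum_mul_sq_le_sq_mul_sq (Finset.Icc 1 Q)
      (fun e : ℕ => Real.sqrt ((e : ℝ) * x ^ e)) (fun e : ℕ => Real.sqrt (x ^ e))
    have e1 : ∀ e : ℕ, Real.sqrt ((e : ℝ) * x ^ e) * Real.sqrt (x ^ e) =
        Real.sqrt (e : ℝ) * x ^ e := by
      intro e
      rw [Real.sqrt_mul (Nat.cast_nonneg e), mul_assoc, Real.mul_self_sqrt (by positivity)]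
    have e2 : ∀ e : ℕ, Real.sqrt ((e : ℝ) * x ^ e) ^ 2 = (e : ℝ) * x ^ e := fun e =>
      Real.sq_sqrt (by positivity)
    have e3 : ∀ e : ℕ, Real.sqrt (x ^ e) ^ 2 = x ^ e := fun e =>
      Real.sq_sqrt (by positivity)
    simp only [e1, e2, e3] at h2
    rw [hS]
    exact h2
  have hS2 : S ^ 2 ≤ 4 / t ^ 3 := by
    have hA0 : 0 ≤ ∑ e ∈ Finset.Icc 1 Q, x ^ e := Finset.sum_nonneg fun e _ => by positivity
    calc S ^ 2 ≤ (x / (1 - x) ^ 2) * (x / (1 - x)) :=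
          hCS.trans (mul_le_mul hB hA hA0 (by positivity))
      _ = x ^ 2 / (1 - x) ^ 3 := by
          field_simp
      _ ≤ 4 / t ^ 3 := by
          rw [div_le_div_iff₀ (by positivity) (by positivity)]
          linarith
  refine hle.trans ?_
  have hr0 : (0 : ℝ) ≤ (Q : ℝ) / N := by positivity
  have hR : (2 * ((Q : ℝ) / N) ^ (3 / 2 : ℝ)) ^ 2 = 4 / t ^ 3 := by
    have e1 : (((Q : ℝ) / N) ^ (3 / 2 : ℝ)) ^ 2 = ((Q : ℝ) / N) ^ 3 := by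
      rw [← Real.rpow_natCast, ← Real.rpow_mul hr0, ← Real.rpow_natCast]
      norm_num
    rw [mul_pow, e1, ht]
    field_simp
    norm_num
  have hR0 : 0 ≤ 2 * ((Q : ℝ) / N) ^ (3 / 2 : ℝ) := by positivity
  rw [← hR] at hS2
  exact le_of_sq_le_sq hS2 hR0

end BorelEq.GapC
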