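import Pool.Agent.Lib.MP_75103d_lc.A_CR3
import Pool.Agent.Lib.MP_75103d_lc.A_CSum

/-!
MP_75103d_lc, part (A), arithmetic block (helper92): integer quaternions of norm `25^k` near `± 5^k`.
-/

set_option autoImplicit false

namespace BorelEq.GapC

/-- integer vectors with four coordinates and sum of squares `n` -/
noncomputable def Sph (n : ℕ) : Finset (ℤ × ℤ × ℤ × ℤ) :=
  (Finset.Icc (-(n : ℤ)) n ×ˢ Finset.Icc (-(n : ℤ)) n ×ˢ Finset.Icc (-(n : ℤ)) n ×ˢ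
    Finset.Icc (-(n : ℤ)) n).filter
    (fun v => v.1 ^ 2 + v.2.1 ^ 2 + v.2.2.1 ^ 2 + v.2.2.2 ^ 2 = n)

private theorem sph_abs_le (x m : ℤ) (h : x ^ 2 ≤ m) : -m ≤ x ∧ x ≤ m := by
  have h1 : x ≤ x ^ 2 := by
    rcases le_or_gt x 0 with h0 | h0
    · nlinarith [sq_nonneg x]
    · nlinarith
  have h2 : -x ≤ x ^ 2 := by
    rcases le_or_gt x (-1) with h0 | h0
    · nlinarith
    · have : 0 ≤ x := by omega
      nlinarith [sq_nonneg x]
  constructor <;> linarith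

theorem mem_Sph (n : ℕ) (v : ℤ × ℤ × ℤ × ℤ) :
    v ∈ Sph n ↔ v.1 ^ 2 + v.2.1 ^ 2 + v.2.2.1 ^ 2 + v.2.2.2 ^ 2 = n := by
  unfold Sph
  rw [Finset.mem_filter]
  constructor
  · exact fun h => h.2
  · intro h
    refine ⟨?_, h⟩
    have s1 := sq_nonneg v.1
    have s2 := sq_nonneg v.2.1
    have s3 := sq_nonneg v.2.2.1
    have s4 := sq_nonneg v.2.2.2
    have h1 := sph_abs_le v.1 n (by linarith)
    have h2 := sph_abs_le v.2.1 n (by linarith)
    have h3 := sph_abs_le v.2.2.1 n (by linarith)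
    have h4 := sph_abs_le v.2.2.2 n (by linarith)
    simp only [Finset.mem_product, Finset.mem_Icc]
    exact ⟨h1, h2, h3, h4⟩

private theorem sph_mem_r3 (m : ℤ) (w : ℤ × ℤ × ℤ) :
    w ∈ ((Finset.Icc (-m) m ×ˢ Finset.Icc (-m) m ×ˢ Finset.Icc (-m) m).filter
    (fun v : ℤ × ℤ × ℤ => v.1 ^ 2 + v.2.1 ^ 2 + v.2.2 ^ 2 = m)) ↔
      w.1 ^ 2 + w.2.1 ^ 2 + w.2.2 ^ 2 = m := by
  rw [Finset.mem_filter]
  constructor
  · exact fun h => h.2
  · intro h
    refine ⟨?_, h⟩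
    have s1 := sq_nonneg w.1
    have s2 := sq_nonneg w.2.1
    have s3 := sq_nonneg w.2.2
    have h1 := sph_abs_le w.1 m (by linarith)
    have h2 := sph_abs_le w.2.1 m (by linarith)
    have h3 := sph_abs_le w.2.2 m (by linarith)
    simp only [Finset.mem_product, Finset.mem_Icc]
    exact ⟨h1, h2, h3⟩

/-- summation over the first coordinate -/
theorem Sph_sum (k N : ℕ) :
    ∑ v ∈ Sph (25 ^ k), |(v.1 : ℝ) / 5 ^ k| ^ N =
      ∑ a ∈ Finset.Icc (-(5 ^ k : ℤ)) (5 ^ k), |(a : ℝ) / 5 ^ k| ^ N * (r3 (25 ^ k - a ^ 2) : ℝ) := by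
  have hmap : ∀ v ∈ Sph (25 ^ k), v.1 ∈ Finset.Icc (-(5 ^ k : ℤ)) (5 ^ k) := by
    intro v hv
    rw [mem_Sph] at hv
    have s2 := sq_nonneg v.2.1
    have s3 := sq_nonneg v.2.2.1
    have s4 := sq_nonneg v.2.2.2
    have h25 : ((25 ^ k : ℕ) : ℤ) = (5 ^ k) ^ 2 := by
      push_cast
      rw [← pow_mul, mul_comm, pow_mul]
      norm_num
    rw [h25] at hv
    have h5 : (0 : ℤ) ≤ 5 ^ k := by positivity
    have h1 : v.1 ^ 2 ≤ (5 ^ k) ^ 2 := by linarith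
    have h2 := abs_le_of_sq_le_sq h1 h5
    rw [Finset.mem_Icc]
    exact abs_le.1 h2
  rw [← Finset.sum_fiberwise_of_maps_to hmap]
  apply Finset.sum_congr rfl
  intro a _
  have hcard : ((Sph (25 ^ k)).filter (fun v => v.1 = a)).card = r3 (25 ^ k - a ^ 2) := by
    unfold r3
    refine Finset.card_nbij' (fun v => v.2) (fun w => (a, w)) ?_ ?_ ?_ ?_
    · intro v hv
      simp only [Finset.mem_coe] at hv ⊢
      rw [Finset.mem_filter, mem_Sph] at hv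
      rw [sph_mem_r3]
      obtain ⟨h1, h2⟩ := hv
      rw [h2] at h1
      push_cast at h1
      linarith
    · intro w hw
      simp only [Finset.mem_coe] at hw ⊢
      rw [sph_mem_r3] at hw
      rw [Finset.mem_filter, mem_Sph]
      refine ⟨?_, rfl⟩
      push_cast
      linarith
    · intro v hv
      simp only [Finset.mem_coe] at hv
      rw [Finset.mem_filter] at hv
      obtain ⟨_, h2⟩ := hv
      rw [← h2]
    · intro w _
      rfl
  have h1 : ∑ v ∈ (Sph (25 ^ k)).filter (fun v => v.1 = a), |(v.1 : ℝ) / 5 ^ k| ^ N =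
      ∑ v ∈ (Sph (25 ^ k)).filter (fun v => v.1 = a), |(a : ℝ) / 5 ^ k| ^ N := by
    apply Finset.sum_congr rfl
    intro v hv
    rw [Finset.mem_filter] at hv
    rw [hv.2]
  rw [h1, Finset.sum_const, hcard, nsmul_eq_mul, mul_comm]

private theorem sph_int_sum (f : ℤ → ℝ) (hf : ∀ a, 0 ≤ f a) (Q : ℕ) :
    ∑ a ∈ Finset.Icc (-(Q : ℤ)) Q, f a ≤
      ∑ m ∈ Finset.range (Q + 1), f m + ∑ m ∈ Finset.range (Q + 1), f (-(m : ℤ)) := by
  classical
  have hsub : Finset.Icc (-(Q : ℤ)) Q ⊆ (Finset.range (Q + 1)).image (fun m : ℕ => (m : ℤ)) ∪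
      (Finset.range (Q + 1)).image (fun m : ℕ => -(m : ℤ)) := by
    intro a ha
    rw [Finset.mem_Icc] at ha
    rw [Finset.mem_union, Finset.mem_image, Finset.mem_image]
    rcases le_total 0 a with h | h
    · left
      refine ⟨a.toNat, ?_, ?_⟩
      · rw [Finset.mem_range]; omega
      · omega
    · right
      refine ⟨(-a).toNat, ?_, ?_⟩
      · rw [Finset.mem_range]; omega
      · omega
  have h1 : ∑ a ∈ (Finset.range (Q + 1)).image (fun m : ℕ => (m : ℤ)), f a =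
      ∑ m ∈ Finset.range (Q + 1), f m :=
    Finset.sum_image (fun x _ y _ h => by
      have h' : (x : ℤ) = y := h
      exact_mod_cast h')
  have h2 : ∑ a ∈ (Finset.range (Q + 1)).image (fun m : ℕ => -(m : ℤ)), f a =
      ∑ m ∈ Finset.range (Q + 1), f (-(m : ℤ)) :=
    Finset.sum_image (fun x _ y _ h => by
      have h' : -(x : ℤ) = -y := h
      have h'' : (x : ℤ) = y := neg_injective h'
      exact_mod_cast h'')
  calc ∑ a ∈ Finset.Icc (-(Q : ℤ)) Q, f a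
      ≤ ∑ a ∈ (Finset.range (Q + 1)).image (fun m : ℕ => (m : ℤ)) ∪
          (Finset.range (Q + 1)).image (fun m : ℕ => -(m : ℤ)), f a :=
        Finset.sum_le_sum_of_subset_of_nonneg hsub (fun a _ _ => hf a)
    _ ≤ ∑ a ∈ (Finset.range (Q + 1)).image (fun m : ℕ => (m : ℤ)), f a +
          ∑ a ∈ (Finset.range (Q + 1)).image (fun m : ℕ => -(m : ℤ)), f a := by
        have h3 := Finset.sum_union_inter (s₁ := (Finset.range (Q + 1)).image (fun m : ℕ => (m : ℤ)))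
          (s₂ := (Finset.range (Q + 1)).image (fun m : ℕ => -(m : ℤ))) (f := f)
        have h4 : 0 ≤ ∑ a ∈ (Finset.range (Q + 1)).image (fun m : ℕ => (m : ℤ)) ∩
          (Finset.range (Q + 1)).image (fun m : ℕ => -(m : ℤ)), f a :=
          Finset.sum_nonneg (fun a _ => hf a)
        linarith
    _ = _ := by rw [h1, h2]

private theorem sph_reflect (g : ℕ → ℝ) (Q : ℕ) :
    ∑ m ∈ Finset.range Q, g m = ∑ e ∈ Finset.Icc 1 Q, g (Q - e) := by
  refine Finset.sum_nbij' (fun m => Q - m) (fun e => Q - e) ?_ ?_ ?_ ?_ ?_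
  · intro m hm
    simp only [Finset.mem_range] at hm
    simp only [Finset.mem_Icc]
    omega
  · intro e he
    simp only [Finset.mem_Icc] at he
    simp only [Finset.mem_range]
    omega
  · intro m hm
    simp only [Finset.mem_range] at hm
    omega
  · intro e he
    simp only [Finset.mem_Icc] at he
    omega
  · intro m hm
    simp only [Finset.mem_range] at hm
    congr 1
    omega

private theorem sph_rpow (k : ℕ) : (((25 : ℝ) ^ k) ^ (1 / 40 : ℝ)) ≤ (11 / 10 : ℝ) ^ k := by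
  have h1 : (((25 : ℝ) ^ k) ^ (1 / 40 : ℝ)) = ((25 : ℝ) ^ (1 / 40 : ℝ)) ^ k := by
    rw [← Real.rpow_natCast, ← Real.rpow_natCast, ← Real.rpow_mul (by norm_num),
      ← Real.rpow_mul (by norm_num), mul_comm]
  rw [h1]
  apply pow_le_pow_left₀ (by positivity)
  have h2 : (25 : ℝ) ≤ (11 / 10 : ℝ) ^ (40 : ℕ) := by norm_num
  calc (25 : ℝ) ^ (1 / 40 : ℝ) ≤ ((11 / 10 : ℝ) ^ (40 : ℕ)) ^ (1 / 40 : ℝ) :=
        Real.rpow_le_rpow (by norm_num) h2 (by norm_num)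
    _ = 11 / 10 := by
        rw [← Real.rpow_natCast, ← Real.rpow_mul (by norm_num)]
        norm_num

/-- `a = ± 5^k` give 1 each.  For `|a| < Q = 5^k` put `e = Q - |a| ∈ [1, Q]`; `n = Q² - a² ≤ 2eQ`, `n ≤ Q²`, so
`r₃ n ≤ C √(2eQ) (Q²)^(1/40) ≤ C √2 √e √Q (11/10)^k`; every `e` occurs at most twice; `sqrt_sum`. -/
theorem sphere_sum : ∃ C : ℝ, 0 < C ∧ ∀ k N : ℕ, 1 ≤ N →
    ∑ v ∈ Sph (25 ^ k), |(v.1 : ℝ) / 5 ^ k| ^ N ≤
      2 + C * ((11 / 10 : ℝ) ^ k * 25 ^ k / (N : ℝ) ^ (3 / 2 : ℝ)) := by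
  obtain ⟨C0, hC0, hr3⟩ := r3_bound (1 / 40) (by norm_num)
  refine ⟨4 * Real.sqrt 2 * C0, by positivity, ?_⟩
  intro k N hN
  rw [Sph_sum]
  set Q : ℕ := 5 ^ k with hQdef
  have hQ1 : 1 ≤ Q := Nat.one_le_pow _ _ (by norm_num)
  have hQR : (Q : ℝ) = 5 ^ k := by rw [hQdef]; push_cast; rfl
  have hQZ : (Q : ℤ) = 5 ^ k := by rw [hQdef]; push_cast; rfl
  have h25Z : (25 : ℤ) ^ k = (Q : ℤ) ^ 2 := by
    rw [hQZ, ← pow_mul, mul_comm, pow_mul]; norm_num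
  have h25R : (25 : ℝ) ^ k = (Q : ℝ) ^ 2 := by
    rw [hQR, ← pow_mul, mul_comm, pow_mul]; norm_num
  have hQpos : (0 : ℝ) < Q := by exact_mod_cast hQ1
  set f : ℤ → ℝ := fun a => |(a : ℝ) / 5 ^ k| ^ N * (r3 (25 ^ k - a ^ 2) : ℝ) with hf
  have hf0 : ∀ a, 0 ≤ f a := fun a => by rw [hf]; positivity
  have hfe : ∀ a, f (-a) = f a := by
    intro a
    rw [hf]
    simp only [Int.cast_neg, neg_div, abs_neg, neg_sq]
  rw [← hQZ]
  have h1 := sph_int_sum f hf0 Q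
  have h2 : ∑ m ∈ Finset.range (Q + 1), f (-(m : ℤ)) = ∑ m ∈ Finset.range (Q + 1), f (m : ℤ) :=
    Finset.sum_congr rfl (fun m _ => hfe m)
  rw [h2, Finset.sum_range_succ] at h1
  have hfQ : f (Q : ℤ) = 1 := by
    rw [hf]
    simp only [Int.cast_natCast]
    rw [h25Z, sub_self, r3_zero, ← hQR, div_self hQpos.ne']
    simp
  rw [hfQ, sph_reflect (fun m => f (m : ℤ)) Q] at h1
  -- the termwise bound
  have hterm : ∀ e ∈ Finset.Icc 1 Q, f ((Q - e : ℕ) : ℤ) ≤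
      (C0 * Real.sqrt 2 * Real.sqrt Q * (11 / 10 : ℝ) ^ k) *
        (Real.sqrt (e : ℝ) * (1 - (e : ℝ) / Q) ^ N) := by
    intro e he
    rw [Finset.mem_Icc] at he
    obtain ⟨he1, heQ⟩ := he
    have heR : (1 : ℝ) ≤ e := by exact_mod_cast he1
    have heQR : (e : ℝ) ≤ Q := by exact_mod_cast heQ
    have hcast : ((Q - e : ℕ) : ℤ) = (Q : ℤ) - e := by push_cast [Nat.cast_sub heQ]; ring
    have hn : (25 : ℤ) ^ k - ((Q - e : ℕ) : ℤ) ^ 2 = ((e * (2 * Q - e) : ℕ) : ℤ) := by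
      rw [h25Z, hcast]
      have h3 : ((2 * Q - e : ℕ) : ℤ) = 2 * (Q : ℤ) - e := by
        rw [Nat.cast_sub (by omega)]; push_cast; ring
      rw [Nat.cast_mul, h3]
      ring
    have hn1 : 1 ≤ e * (2 * Q - e) := by
      have h3 : 1 ≤ 2 * Q - e := by omega
      exact Nat.mul_le_mul he1 h3
    have hnR : ((e * (2 * Q - e) : ℕ) : ℝ) = e * (2 * Q - e) := by
      rw [Nat.cast_mul, Nat.cast_sub (by omega)]; push_cast; ring
    have hb := hr3 (e * (2 * Q - e)) hn1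
    have hs : Real.sqrt ((e * (2 * Q - e) : ℕ) : ℝ) ≤
        Real.sqrt 2 * Real.sqrt Q * Real.sqrt e := by
      rw [hnR, ← Real.sqrt_mul (by norm_num), ← Real.sqrt_mul (by positivity)]
      apply Real.sqrt_le_sqrt
      nlinarith
    have hp : (((e * (2 * Q - e) : ℕ) : ℝ)) ^ (1 / 40 : ℝ) ≤ (11 / 10 : ℝ) ^ k := by
      refine le_trans (Real.rpow_le_rpow (by positivity) ?_ (by norm_num)) (sph_rpow k)
      rw [hnR, h25R]
      nlinarith [sq_nonneg ((Q : ℝ) - e)]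
    have hr : (r3 ((e * (2 * Q - e) : ℕ) : ℤ) : ℝ) ≤
        C0 * (Real.sqrt 2 * Real.sqrt Q * Real.sqrt e) * (11 / 10 : ℝ) ^ k := by
      refine le_trans hb ?_
      apply mul_le_mul _ hp (by positivity) (by positivity)
      exact mul_le_mul_of_nonneg_left hs hC0.le
    have habs : |(((Q - e : ℕ) : ℤ) : ℝ) / 5 ^ k| = 1 - (e : ℝ) / Q := by
      rw [hcast, ← hQR]
      push_cast
      rw [sub_div, div_self hQpos.ne', abs_of_nonneg]
      rw [sub_nonneg, div_le_one hQpos]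
      exact heQR
    have hnn : 0 ≤ 1 - (e : ℝ) / Q := by
      rw [sub_nonneg, div_le_one hQpos]
      exact heQR
    show |(((Q - e : ℕ) : ℤ) : ℝ) / 5 ^ k| ^ N * (r3 (25 ^ k - ((Q - e : ℕ) : ℤ) ^ 2) : ℝ) ≤ _
    rw [habs, hn]
    calc (1 - (e : ℝ) / Q) ^ N * (r3 ((e * (2 * Q - e) : ℕ) : ℤ) : ℝ)
        ≤ (1 - (e : ℝ) / Q) ^ N *
          (C0 * (Real.sqrt 2 * Real.sqrt Q * Real.sqrt e) * (11 / 10 : ℝ) ^ k) :=
          mul_le_mul_of_nonneg_left hr (pow_nonneg hnn N)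
      _ = _ := by ring
  have h3 : ∑ e ∈ Finset.Icc 1 Q, f ((Q - e : ℕ) : ℤ) ≤
      (C0 * Real.sqrt 2 * Real.sqrt Q * (11 / 10 : ℝ) ^ k) * (2 * ((Q : ℝ) / N) ^ (3 / 2 : ℝ)) := by
    refine le_trans (Finset.sum_le_sum hterm) ?_
    rw [← Finset.mul_sum]
    exact mul_le_mul_of_nonneg_left (sqrt_sum Q N hQ1 hN) (by positivity)
  have hNpos : (0 : ℝ) < N := by exact_mod_cast hN
  have h4 : Real.sqrt Q * ((Q : ℝ) / N) ^ (3 / 2 : ℝ) = (Q : ℝ) ^ 2 / (N : ℝ) ^ (3 / 2 : ℝ) := by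
    rw [Real.div_rpow hQpos.le hNpos.le, Real.sqrt_eq_rpow, ← mul_div_assoc,
      ← Real.rpow_add hQpos]
    norm_num
  have h5 : (C0 * Real.sqrt 2 * Real.sqrt Q * (11 / 10 : ℝ) ^ k) * (2 * ((Q : ℝ) / N) ^ (3 / 2 : ℝ))
      = 2 * Real.sqrt 2 * C0 * ((11 / 10 : ℝ) ^ k * 25 ^ k / (N : ℝ) ^ (3 / 2 : ℝ)) := by
    rw [h25R]
    calc (C0 * Real.sqrt 2 * Real.sqrt Q * (11 / 10 : ℝ) ^ k) * (2 * ((Q : ℝ) / N) ^ (3 / 2 : ℝ))
        = 2 * Real.sqrt 2 * C0 * (11 / 10 : ℝ) ^ k *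
          (Real.sqrt Q * ((Q : ℝ) / N) ^ (3 / 2 : ℝ)) := by ring
      _ = _ := by rw [h4]; ring
  rw [h5] at h3
  linarith

end BorelEq.GapC
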