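import Pool.Agent.Lib.MP_75103d_lc.A_TTrace
import Pool.Agent.Lib.MP_75103d_lc.A_CCnt
import Pool.Agent.Lib.MP_75103d_lc.A_CSph

/-!
MP_75103d_lc, part (A), arithmetic block (helper92): counting words near ±1.
-/

set_option autoImplicit false

open scoped Quaternion

namespace BorelEq.GapT

open BorelEq.GapC

/-- grouping the words by their product `5^(m-k) • P`, `P` primitive of norm `25^k` -/
theorem words_group (m N : ℕ) :
    ∑ w : Fin (2 * m) → Fin 6, |((wprod w).re : ℝ) / 5 ^ m| ^ N ≤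
      ∑ k ∈ Finset.range (m + 1), (GG (2 * m) (2 * k) : ℝ) *
        ∑ v ∈ Sph (25 ^ k), |(v.1 : ℝ) / 5 ^ k| ^ N := by
  classical
  -- every word
  have hw : ∀ w : Fin (2 * m) → Fin 6, ∃ k ∈ Finset.range (m + 1), ∃ v ∈ Sph (25 ^ k),
      Prim (⟨v.1, v.2.1, v.2.2.1, v.2.2.2⟩ : ℍ[ℤ]) ∧
        wprod w = (5 ^ (m - k) : ℤ) • (⟨v.1, v.2.1, v.2.2.1, v.2.2.2⟩ : ℍ[ℤ]) := by
    intro w
    have hn := nq_wprod w
    have hne : wprod w ≠ 0 := by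
      intro h0
      rw [h0] at hn
      have : nq (0 : ℍ[ℤ]) = 0 := by simp [nq]
      rw [this] at hn
      exact (pow_ne_zero (2 * m) (by norm_num : (5 : ℤ) ≠ 0)) hn.symm
    obtain ⟨j, Q, hQ, hjQ⟩ := exists_prim (wprod w) hne
    rw [hjQ, nq_smul, ← pow_mul] at hn
    have hdvd : (5 : ℤ) ^ (j * 2) ∣ 5 ^ (2 * m) := ⟨nq Q, hn.symm⟩
    have hjm : j * 2 ≤ 2 * m := by
      have h1 : (5 : ℕ) ^ (j * 2) ∣ 5 ^ (2 * m) := by exact_mod_cast hdvd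
      exact (Nat.pow_dvd_pow_iff_le_right (by norm_num)).1 h1
    have hnQ : nq Q = 5 ^ (2 * (m - j)) := by
      have h1 : (5 : ℤ) ^ (2 * m) = 5 ^ (j * 2) * 5 ^ (2 * (m - j)) := by
        rw [← pow_add]
        congr 1
        omega
      rw [h1] at hn
      exact mul_left_cancel₀ (pow_ne_zero _ (by norm_num)) hn
    refine ⟨m - j, Finset.mem_range.2 (by omega), (Q.re, Q.imI, Q.imJ, Q.imK), ?_, hQ, ?_⟩
    · rw [mem_Sph]
      push_cast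
      rw [show (25 : ℤ) = 5 ^ 2 by norm_num, ← pow_mul, ← hnQ]
      rfl
    · rw [hjQ, show m - (m - j) = j by omega]
      exact rfl
  -- the term of a word
  have hterm : ∀ w : Fin (2 * m) → Fin 6, |((wprod w).re : ℝ) / 5 ^ m| ^ N ≤
      ∑ k ∈ Finset.range (m + 1), ∑ v ∈ Sph (25 ^ k),
        if (Prim (⟨v.1, v.2.1, v.2.2.1, v.2.2.2⟩ : ℍ[ℤ]) ∧
          wprod w = (5 ^ (m - k) : ℤ) • (⟨v.1, v.2.1, v.2.2.1, v.2.2.2⟩ : ℍ[ℤ])) then
          |(v.1 : ℝ) / 5 ^ k| ^ N else 0 := by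
    intro w
    obtain ⟨k, hk, v, hv, hp, hwv⟩ := hw w
    have hnn : ∀ k' ∈ Finset.range (m + 1), 0 ≤ ∑ v ∈ Sph (25 ^ k'),
        (if (Prim (⟨v.1, v.2.1, v.2.2.1, v.2.2.2⟩ : ℍ[ℤ]) ∧
          wprod w = (5 ^ (m - k') : ℤ) • (⟨v.1, v.2.1, v.2.2.1, v.2.2.2⟩ : ℍ[ℤ])) then
          |(v.1 : ℝ) / 5 ^ k'| ^ N else 0) := by
      intro k' _
      apply Finset.sum_nonneg
      intro v _
      split_ifs
      · positivity
      · exact le_rfl
    refine le_trans ?_ (Finset.single_le_sum hnn hk)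
    have hnn2 : ∀ v ∈ Sph (25 ^ k), 0 ≤
        (if (Prim (⟨v.1, v.2.1, v.2.2.1, v.2.2.2⟩ : ℍ[ℤ]) ∧
          wprod w = (5 ^ (m - k) : ℤ) • (⟨v.1, v.2.1, v.2.2.1, v.2.2.2⟩ : ℍ[ℤ])) then
          |(v.1 : ℝ) / 5 ^ k| ^ N else 0) := by
      intro v _
      split_ifs
      · positivity
      · exact le_rfl
    refine le_trans ?_ (Finset.single_le_sum hnn2 hv)
    rw [if_pos ⟨hp, hwv⟩, hwv]
    apply le_of_eq
    congr 2
    have hre : ((5 ^ (m - k) : ℤ) • (⟨v.1, v.2.1, v.2.2.1, v.2.2.2⟩ : ℍ[ℤ])).re =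
        5 ^ (m - k) * v.1 := rfl
    rw [hre]
    have hkm : k ≤ m := by
      have := Finset.mem_range.1 hk
      omega
    have h5 : (5 : ℝ) ^ m = 5 ^ (m - k) * 5 ^ k := by
      rw [← pow_add]
      congr 1
      omega
    rw [h5]
    push_cast
    rw [mul_div_mul_left _ _ (by positivity)]
  calc ∑ w : Fin (2 * m) → Fin 6, |((wprod w).re : ℝ) / 5 ^ m| ^ N
      ≤ ∑ w : Fin (2 * m) → Fin 6, ∑ k ∈ Finset.range (m + 1), ∑ v ∈ Sph (25 ^ k),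
        (if (Prim (⟨v.1, v.2.1, v.2.2.1, v.2.2.2⟩ : ℍ[ℤ]) ∧
          wprod w = (5 ^ (m - k) : ℤ) • (⟨v.1, v.2.1, v.2.2.1, v.2.2.2⟩ : ℍ[ℤ])) then
          |(v.1 : ℝ) / 5 ^ k| ^ N else 0) := Finset.sum_le_sum (fun w _ => hterm w)
    _ = ∑ k ∈ Finset.range (m + 1), ∑ v ∈ Sph (25 ^ k), ∑ w : Fin (2 * m) → Fin 6,
        (if (Prim (⟨v.1, v.2.1, v.2.2.1, v.2.2.2⟩ : ℍ[ℤ]) ∧
          wprod w = (5 ^ (m - k) : ℤ) • (⟨v.1, v.2.1, v.2.2.1, v.2.2.2⟩ : ℍ[ℤ])) then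
          |(v.1 : ℝ) / 5 ^ k| ^ N else 0) := by
        rw [Finset.sum_comm]
        apply Finset.sum_congr rfl
        intro k _
        rw [Finset.sum_comm]
    _ ≤ ∑ k ∈ Finset.range (m + 1), ∑ v ∈ Sph (25 ^ k),
          (GG (2 * m) (2 * k) : ℝ) * |(v.1 : ℝ) / 5 ^ k| ^ N := by
        apply Finset.sum_le_sum
        intro k hk
        apply Finset.sum_le_sum
        intro v hv
        rw [← Finset.sum_filter, Finset.sum_const, nsmul_eq_mul]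
        apply mul_le_mul_of_nonneg_right _ (by positivity)
        have hkm : k ≤ m := by
          have := Finset.mem_range.1 hk
          omega
        by_cases hp : Prim (⟨v.1, v.2.1, v.2.2.1, v.2.2.2⟩ : ℍ[ℤ])
        · have hnv : nq (⟨v.1, v.2.1, v.2.2.1, v.2.2.2⟩ : ℍ[ℤ]) = 5 ^ (2 * k) := by
            rw [mem_Sph] at hv
            push_cast at hv
            rw [show (25 : ℤ) = 5 ^ 2 by norm_num, ← pow_mul] at hv
            rw [← hv]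
            rfl
          have h1 := cnt_le (2 * m) (2 * k) (m - k) _ hp hnv (by omega)
          have h2 : (Finset.univ.filter (fun w : Fin (2 * m) → Fin 6 =>
              Prim (⟨v.1, v.2.1, v.2.2.1, v.2.2.2⟩ : ℍ[ℤ]) ∧
              wprod w = (5 ^ (m - k) : ℤ) • (⟨v.1, v.2.1, v.2.2.1, v.2.2.2⟩ : ℍ[ℤ]))).card ≤
              cnt (2 * m) ((5 ^ (m - k) : ℤ) • (⟨v.1, v.2.1, v.2.2.1, v.2.2.2⟩ : ℍ[ℤ])) := by
            unfold cnt
            apply Finset.card_le_card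
            intro w hw
            rw [Finset.mem_filter] at hw ⊢
            exact ⟨hw.1, hw.2.2⟩
          exact_mod_cast h2.trans h1
        · rw [Finset.filter_false_of_mem]
          · simp
          · intro w _ h
            exact hp h.1
    _ = ∑ k ∈ Finset.range (m + 1), (GG (2 * m) (2 * k) : ℝ) *
        ∑ v ∈ Sph (25 ^ k), |(v.1 : ℝ) / 5 ^ k| ^ N := by
        apply Finset.sum_congr rfl
        intro k _
        rw [Finset.mul_sum]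

/-- (M5) -/
theorem words_bound : ∃ C : ℝ, 0 < C ∧ ∀ m N : ℕ, 1 ≤ N →
    ∑ w : Fin (2 * m) → Fin 6, |((wprod w).re : ℝ) / 5 ^ m| ^ N ≤
      C * ((81 / 4 : ℝ) ^ m + 36 ^ m * (11 / 10 : ℝ) ^ m / (N : ℝ) ^ (3 / 2 : ℝ)) := by
  obtain ⟨C, hC, hS⟩ := sphere_sum
  refine ⟨8 / 3 + C, by positivity, ?_⟩
  intro m N hN
  refine (words_group m N).trans ?_
  have hN0 : (0 : ℝ) < (N : ℝ) ^ (3 / 2 : ℝ) := by
    have : (0 : ℝ) < N := by exact_mod_cast hN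
    positivity
  have h1 : ∑ k ∈ Finset.range (m + 1), (GG (2 * m) (2 * k) : ℝ) *
        ∑ v ∈ Sph (25 ^ k), |(v.1 : ℝ) / 5 ^ k| ^ N ≤
      ∑ k ∈ Finset.range (m + 1), (2 * (GG (2 * m) (2 * k) : ℝ) +
        (C * (11 / 10 : ℝ) ^ m / (N : ℝ) ^ (3 / 2 : ℝ)) * (25 ^ k * GG (2 * m) (2 * k) : ℕ)) := by
    refine Finset.sum_le_sum fun k hk => ?_
    have hk' : k ≤ m := by
      have := Finset.mem_range.mp hk
      omega
    have h2 : (11 / 10 : ℝ) ^ k ≤ (11 / 10 : ℝ) ^ m :=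
      pow_le_pow_right₀ (by norm_num) hk'
    have h3 : C * ((11 / 10 : ℝ) ^ k * 25 ^ k / (N : ℝ) ^ (3 / 2 : ℝ)) ≤
        C * ((11 / 10 : ℝ) ^ m * 25 ^ k / (N : ℝ) ^ (3 / 2 : ℝ)) := by
      gcongr
    calc (GG (2 * m) (2 * k) : ℝ) * ∑ v ∈ Sph (25 ^ k), |(v.1 : ℝ) / 5 ^ k| ^ N
        ≤ (GG (2 * m) (2 * k) : ℝ) *
          (2 + C * ((11 / 10 : ℝ) ^ m * 25 ^ k / (N : ℝ) ^ (3 / 2 : ℝ))) := by
          refine mul_le_mul_of_nonneg_left ((hS k N hN).trans ?_) (by positivity)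
          linarith
      _ = _ := by push_cast; ring
  refine h1.trans ?_
  rw [Finset.sum_add_distrib, ← Finset.mul_sum, ← Finset.mul_sum]
  have h4 := GG_geom_even m
  have h5 : (∑ k ∈ Finset.range (m + 1), ((25 ^ k * GG (2 * m) (2 * k) : ℕ) : ℝ)) ≤ 36 ^ m := by
    have := GG_sum_even m
    exact_mod_cast this
  have h6 : (0 : ℝ) ≤ C * (11 / 10 : ℝ) ^ m / (N : ℝ) ^ (3 / 2 : ℝ) := by positivity
  have h7 := mul_le_mul_of_nonneg_left h5 h6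
  have h8 : (0 : ℝ) ≤ (81 / 4 : ℝ) ^ m := by positivity
  have h9 : (0 : ℝ) ≤ 36 ^ m * (11 / 10 : ℝ) ^ m / (N : ℝ) ^ (3 / 2 : ℝ) := by positivity
  have h10 : C * (11 / 10 : ℝ) ^ m / (N : ℝ) ^ (3 / 2 : ℝ) * 36 ^ m =
      C * (36 ^ m * (11 / 10 : ℝ) ^ m / (N : ℝ) ^ (3 / 2 : ℝ)) := by ring
  rw [h10] at h7
  nlinarith [mul_nonneg hC.le h8]

end BorelEq.GapT
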