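import Pool.Agent.Lib.MP_75103d_lc.A_TTrace

/-!
MP_75103d_lc, part (A), arithmetic block (helper92): divisibility by 5 of products of integer quaternions.
-/

set_option autoImplicit false

open scoped Quaternion

namespace BorelEq.GapC

open BorelEq.GapT

/-- not divisible by 5 -/
def Prim (P : ℍ[ℤ]) : Prop := ¬ ∃ Q : ℍ[ℤ], P = (5 : ℤ) • Q

/-- integer norm -/
def nq (P : ℍ[ℤ]) : ℤ := P.re ^ 2 + P.imI ^ 2 + P.imJ ^ 2 + P.imK ^ 2

theorem nq_mul (P Q : ℍ[ℤ]) : nq (P * Q) = nq P * nq Q := by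
  simp only [nq, Quaternion.re_mul, Quaternion.imI_mul, Quaternion.imJ_mul, Quaternion.imK_mul]
  ring

theorem nq_smul (c : ℤ) (P : ℍ[ℤ]) : nq (c • P) = c ^ 2 * nq P := by
  simp only [nq, Quaternion.re_smul, Quaternion.imI_smul, Quaternion.imJ_smul,
    Quaternion.imK_smul, smul_eq_mul]
  ring

theorem nq_bZ (i : Fin 6) : nq (bZ i) = 5 := by
  fin_cases i <;> simp [nq, bZ]

theorem star_bZ (i : Fin 6) : star (bZ i) = bZ (bI i) := by
  fin_cases i <;> (ext <;> simp [bZ, bI])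

theorem CMod_five : (5 : ℍ[ℤ]) = ⟨5, 0, 0, 0⟩ := by
  ext <;> rfl

theorem bZ_star_mul (i : Fin 6) : bZ i * star (bZ i) = 5 ∧ star (bZ i) * bZ i = 5 := by
  rw [CMod_five]
  fin_cases i <;> constructor <;> (ext <;> simp [bZ])

/-- the table of the conjugates modulo 5 -/
def CMod_t : Fin 6 → ZMod 5 × ZMod 5 × ZMod 5 × ZMod 5 :=
  ![(1, -2, 0, 0), (1, 2, 0, 0), (1, 0, -2, 0), (1, 0, 2, 0), (1, 0, 0, -2), (1, 0, 0, 2)]

/-- the product of the table entry with a vector vanishes -/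
def CMod_Z (t : ZMod 5 × ZMod 5 × ZMod 5 × ZMod 5) (a b c d : ZMod 5) : Prop :=
  t.1 * a - t.2.1 * b - t.2.2.1 * c - t.2.2.2 * d = 0 ∧
  t.1 * b + t.2.1 * a + t.2.2.1 * d - t.2.2.2 * c = 0 ∧
  t.1 * c - t.2.1 * d + t.2.2.1 * a + t.2.2.2 * b = 0 ∧
  t.1 * d + t.2.1 * c - t.2.2.1 * b + t.2.2.2 * a = 0

instance (t : ZMod 5 × ZMod 5 × ZMod 5 × ZMod 5) (a b c d : ZMod 5) :
    Decidable (CMod_Z t a b c d) := by
  unfold CMod_Z
  infer_instance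

theorem CMod_check : ∀ a b c d : ZMod 5, a ^ 2 + b ^ 2 + c ^ 2 + d ^ 2 = 0 →
    (a ≠ 0 ∨ b ≠ 0 ∨ c ≠ 0 ∨ d ≠ 0) → ∃ i : Fin 6, CMod_Z (CMod_t i) a b c d ∧
      ∀ j : Fin 6, CMod_Z (CMod_t j) a b c d → j = i := by
  decide +kernel

theorem CMod_tab (i : Fin 6) : CMod_t i = (((bZ i).re : ZMod 5), -((bZ i).imI : ZMod 5),
    -((bZ i).imJ : ZMod 5), -((bZ i).imK : ZMod 5)) := by
  fin_cases i <;> simp [CMod_t, bZ]

/-- the six residue lines (finite check over `ZMod 5`, `decide +kernel`) -/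
theorem residue_line : ∀ a b c d : ZMod 5, a ^ 2 + b ^ 2 + c ^ 2 + d ^ 2 = 0 →
    (a ≠ 0 ∨ b ≠ 0 ∨ c ≠ 0 ∨ d ≠ 0) →
    ∃! i : Fin 6, ((⟨((bZ i).re : ZMod 5), -((bZ i).imI : ZMod 5), -((bZ i).imJ : ZMod 5),
      -((bZ i).imK : ZMod 5)⟩ : ℍ[ZMod 5]) * ⟨a, b, c, d⟩) = 0 := by
  intro a b c d h1 h2
  have key : ∀ i : Fin 6, ((⟨((bZ i).re : ZMod 5), -((bZ i).imI : ZMod 5),
      -((bZ i).imJ : ZMod 5), -((bZ i).imK : ZMod 5)⟩ : ℍ[ZMod 5]) * ⟨a, b, c, d⟩) = 0 ↔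
      CMod_Z (CMod_t i) a b c d := by
    intro i
    have hXY : ∀ X Y : ℍ[ZMod 5], X * Y = 0 ↔
        CMod_Z (X.re, X.imI, X.imJ, X.imK) Y.re Y.imI Y.imJ Y.imK := by
      intro X Y
      rw [Quaternion.ext_iff]
      simp only [CMod_Z, Quaternion.re_mul, Quaternion.imI_mul, Quaternion.imJ_mul,
        Quaternion.imK_mul, Quaternion.re_zero, Quaternion.imI_zero, Quaternion.imJ_zero,
        Quaternion.imK_zero]
    rw [CMod_tab]
    exact hXY _ _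
  obtain ⟨i, hi, hu⟩ := CMod_check a b c d h1 h2
  exact ⟨i, (key i).2 hi, fun j hj => hu j ((key j).1 hj)⟩

/-- exactly one of the six `star (bZ i) * P` is divisible by 5 -/
theorem exists_unique_div (P : ℍ[ℤ]) (hP : Prim P) (h5 : (5 : ℤ) ∣ nq P) :
    ∃! i : Fin 6, ∃ Q : ℍ[ℤ], star (bZ i) * P = (5 : ℤ) • Q := by
  have hdiv : ∀ R : ℍ[ℤ], (∃ Q : ℍ[ℤ], R = (5 : ℤ) • Q) ↔ ((R.re : ZMod 5) = 0 ∧
      (R.imI : ZMod 5) = 0 ∧ (R.imJ : ZMod 5) = 0 ∧ (R.imK : ZMod 5) = 0) := by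
    intro R
    have e : ∀ z : ℤ, (z : ZMod 5) = 0 ↔ (5 : ℤ) ∣ z := fun z => by
      have h := ZMod.intCast_zmod_eq_zero_iff_dvd z 5
      exact_mod_cast h
    rw [e, e, e, e]
    constructor
    · rintro ⟨Q, rfl⟩
      exact ⟨⟨Q.re, rfl⟩, ⟨Q.imI, rfl⟩, ⟨Q.imJ, rfl⟩, ⟨Q.imK, rfl⟩⟩
    · rintro ⟨⟨a, ha⟩, ⟨b, hb⟩, ⟨c, hc⟩, ⟨d, hd⟩⟩
      refine ⟨⟨a, b, c, d⟩, ?_⟩
      ext
      · exact ha
      · exact hb
      · exact hc
      · exact hd
  have h1 : (P.re : ZMod 5) ^ 2 + (P.imI : ZMod 5) ^ 2 + (P.imJ : ZMod 5) ^ 2 +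
      (P.imK : ZMod 5) ^ 2 = 0 := by
    have h := (ZMod.intCast_zmod_eq_zero_iff_dvd (nq P) 5).2 (by exact_mod_cast h5)
    unfold nq at h
    push_cast at h
    exact h
  have h2 : (P.re : ZMod 5) ≠ 0 ∨ (P.imI : ZMod 5) ≠ 0 ∨ (P.imJ : ZMod 5) ≠ 0 ∨
      (P.imK : ZMod 5) ≠ 0 := by
    by_contra hcon
    push Not at hcon
    exact hP ((hdiv P).2 hcon)
  have key : ∀ i : Fin 6, (∃ Q : ℍ[ℤ], star (bZ i) * P = (5 : ℤ) • Q) ↔
      CMod_Z (CMod_t i) (P.re : ZMod 5) (P.imI : ZMod 5) (P.imJ : ZMod 5) (P.imK : ZMod 5) := by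
    intro i
    rw [hdiv, CMod_tab]
    simp only [CMod_Z, Quaternion.re_mul, Quaternion.imI_mul, Quaternion.imJ_mul,
      Quaternion.imK_mul, Quaternion.re_star, Quaternion.imI_star, Quaternion.imJ_star,
      Quaternion.imK_star]
    push_cast
    rfl
  obtain ⟨i, hi, hu⟩ := CMod_check _ _ _ _ h1 h2
  exact ⟨i, (key i).2 hi, fun j hj => hu j ((key j).1 hj)⟩

/-- if `5 ∤ nq P` none is -/
theorem not_div (P : ℍ[ℤ]) (h5 : ¬ (5 : ℤ) ∣ nq P) (i : Fin 6) :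
    ¬ ∃ Q : ℍ[ℤ], star (bZ i) * P = (5 : ℤ) • Q := by
  rintro ⟨Q, hQ⟩
  have h := congrArg nq hQ
  rw [nq_mul, star_bZ, nq_bZ, nq_smul] at h
  exact h5 ⟨nq Q, by linarith⟩

/-- the quotient is again primitive -/
theorem prim_div (P Q : ℍ[ℤ]) (hP : Prim P) (i : Fin 6) (h : star (bZ i) * P = (5 : ℤ) • Q) :
    Prim Q ∧ 5 * nq Q = nq P := by
  constructor
  · rintro ⟨R, hR⟩
    apply hP
    refine ⟨bZ i * R, ?_⟩
    have h1 : bZ i * (star (bZ i) * P) = bZ i * ((5 : ℤ) • Q) := by rw [h]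
    rw [← mul_assoc, (bZ_star_mul i).1, hR, CMod_five] at h1
    rw [Quaternion.ext_iff] at h1
    simp only [Quaternion.re_mul, Quaternion.imI_mul, Quaternion.imJ_mul, Quaternion.imK_mul,
      Quaternion.re_smul, Quaternion.imI_smul, Quaternion.imJ_smul,
      Quaternion.imK_smul, smul_eq_mul] at h1
    obtain ⟨e1, e2, e3, e4⟩ := h1
    ext
    · simp only [Quaternion.re_mul, Quaternion.re_smul, smul_eq_mul]
      linarith
    · simp only [Quaternion.imI_mul, Quaternion.imI_smul, smul_eq_mul]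
      linarith
    · simp only [Quaternion.imJ_mul, Quaternion.imJ_smul, smul_eq_mul]
      linarith
    · simp only [Quaternion.imK_mul, Quaternion.imK_smul, smul_eq_mul]
      linarith
  · have h1 := congrArg nq h
    rw [nq_mul, star_bZ, nq_bZ, nq_smul] at h1
    linarith

theorem CMod_nq_pos (P : ℍ[ℤ]) (hP : P ≠ 0) : 0 < nq P := by
  by_contra hcon
  apply hP
  unfold nq at hcon
  have h1 := sq_nonneg P.re
  have h2 := sq_nonneg P.imI
  have h3 := sq_nonneg P.imJ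
  have h4 := sq_nonneg P.imK
  have e1 : P.re ^ 2 = 0 := by linarith
  have e2 : P.imI ^ 2 = 0 := by linarith
  have e3 : P.imJ ^ 2 = 0 := by linarith
  have e4 : P.imK ^ 2 = 0 := by linarith
  ext
  · simpa using e1
  · simpa using e2
  · simpa using e3
  · simpa using e4

/-- every nonzero integer quaternion is `5 ^ j • P` with `P` primitive -/
theorem exists_prim (P : ℍ[ℤ]) (hP : P ≠ 0) : ∃ (j : ℕ) (Q : ℍ[ℤ]), Prim Q ∧ P = (5 ^ j : ℤ) • Q := by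
  induction hn : (nq P).toNat using Nat.strong_induction_on generalizing P with
  | _ n ih =>
    by_cases h : Prim P
    · exact ⟨0, P, h, by rw [pow_zero, one_smul]⟩
    · unfold Prim at h
      rw [not_not] at h
      obtain ⟨Q, hQ⟩ := h
      have hQ0 : Q ≠ 0 := by
        rintro rfl
        apply hP
        rw [hQ, smul_zero]
      have h1 := CMod_nq_pos Q hQ0
      have h2 : nq P = 25 * nq Q := by
        rw [hQ, nq_smul]
        ring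
      obtain ⟨j, R, hR, hR'⟩ := ih (nq Q).toNat (by omega) Q hQ0 rfl
      refine ⟨j + 1, R, hR, ?_⟩
      rw [hQ, hR', smul_smul, pow_succ']

end BorelEq.GapC
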