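import Pool.Agent.Lib.MP_75103d_lc.A_CGauss
import Pool.Agent.Lib.MP_14ee70_nt.Div

/-!
MP_75103d_lc, part (A), arithmetic block (helper92): sums of three squares, `r₃(n) ≤ C √n n^δ`.
-/

set_option autoImplicit false

namespace BorelEq.GapC

/-- number of representations as a sum of three squares -/
noncomputable def r3 (n : ℤ) : ℕ :=
  ((Finset.Icc (-n) n ×ˢ Finset.Icc (-n) n ×ˢ Finset.Icc (-n) n).filter
    (fun v : ℤ × ℤ × ℤ => v.1 ^ 2 + v.2.1 ^ 2 + v.2.2 ^ 2 = n)).card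

theorem r3_zero : r3 0 = 1 := by
  unfold r3
  decide

theorem A_CR3_abs_le (x m : ℤ) (h : x ^ 2 ≤ m) : -m ≤ x ∧ x ≤ m := by
  constructor
  · nlinarith [sq_nonneg x, sq_nonneg (x + 1), Int.le_self_sq (-x)]
  · exact (Int.le_self_sq x).trans h

/-- the slice with first coordinate `b` -/
theorem A_CR3_slice (n : ℕ) (b : ℤ) (hb : b ^ 2 ≤ n) :
    (Finset.filter (fun v : ℤ × ℤ × ℤ => v.1 = b)
      ((Finset.Icc (-(n : ℤ)) n ×ˢ Finset.Icc (-(n : ℤ)) n ×ˢ Finset.Icc (-(n : ℤ)) n).filter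
      (fun v : ℤ × ℤ × ℤ => v.1 ^ 2 + v.2.1 ^ 2 + v.2.2 ^ 2 = n))).card ≤ r2 ((n : ℤ) - b ^ 2) := by
  unfold r2
  refine Finset.card_le_card_of_injOn (fun v => v.2) ?_ ?_
  · intro v hv
    have hv := Finset.mem_coe.1 hv
    rw [Finset.mem_filter, Finset.mem_filter] at hv
    obtain ⟨⟨_, h1⟩, h2⟩ := hv
    rw [h2] at h1
    rw [Finset.mem_coe, Finset.mem_filter, Finset.mem_product, Finset.mem_Icc, Finset.mem_Icc]
    refine ⟨⟨?_, ?_⟩, ?_⟩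
    · exact A_CR3_abs_le _ _ (by nlinarith [sq_nonneg v.2.2])
    · exact A_CR3_abs_le _ _ (by nlinarith [sq_nonneg v.2.1])
    · show v.2.1 ^ 2 + v.2.2 ^ 2 = (n : ℤ) - b ^ 2
      linarith
  · intro v hv w hw hvw
    have hv := Finset.mem_coe.1 hv
    have hw := Finset.mem_coe.1 hw
    rw [Finset.mem_filter] at hv hw
    exact Prod.ext (by rw [hv.2, hw.2]) hvw

/-- `r₃ n = ∑ b, r₂ (n - b²)`, at most `2√n + 1 ≤ 3√n` terms; `r₂ k ≤ 4 d(k) ≤ 4 K k^δ` for `1 ≤ k ≤ n`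
(`MP14ee70.card_divisors_le`), `r₂ 0 = 1`. -/
theorem r3_bound (δ : ℝ) (hδ : 0 < δ) : ∃ C : ℝ, 0 < C ∧ ∀ n : ℕ, 1 ≤ n →
    (r3 n : ℝ) ≤ C * Real.sqrt n * (n : ℝ) ^ δ := by
  obtain ⟨K, hK1, hK⟩ := MP14ee70.card_divisors_le δ hδ
  refine ⟨12 * K, by linarith, fun n hn => ?_⟩
  have hn1 : (1 : ℝ) ≤ (n : ℝ) := by exact_mod_cast hn
  have hnd : (1 : ℝ) ≤ (n : ℝ) ^ δ := Real.one_le_rpow hn1 hδ.le
  set s : ℕ := Nat.sqrt n with hs
  have hsn : (s : ℝ) ≤ Real.sqrt n := by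
    rw [hs]
    exact Real.nat_sqrt_le_real_sqrt
  have hs1 : (1 : ℝ) ≤ Real.sqrt n := by
    rw [show (1 : ℝ) = Real.sqrt 1 by simp]
    exact Real.sqrt_le_sqrt hn1
  have hfib : r3 (n : ℤ) = ∑ b ∈ Finset.Icc (-(s : ℤ)) s,
      (Finset.filter (fun v : ℤ × ℤ × ℤ => v.1 = b)
      ((Finset.Icc (-(n : ℤ)) n ×ˢ Finset.Icc (-(n : ℤ)) n ×ˢ Finset.Icc (-(n : ℤ)) n).filter
      (fun v : ℤ × ℤ × ℤ => v.1 ^ 2 + v.2.1 ^ 2 + v.2.2 ^ 2 = n))).card := by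
    unfold r3
    refine Finset.card_eq_sum_card_fiberwise ?_
    intro v hv
    have hv := Finset.mem_coe.1 hv
    rw [Finset.mem_filter] at hv
    obtain ⟨_, h1⟩ := hv
    rw [Finset.mem_coe, Finset.mem_Icc]
    have h2 : v.1 ^ 2 ≤ (n : ℤ) := by nlinarith [sq_nonneg v.2.1, sq_nonneg v.2.2]
    have h3 : v.1.natAbs ≤ s := by
      rw [hs, Nat.le_sqrt']
      have : ((v.1.natAbs ^ 2 : ℕ) : ℤ) ≤ (n : ℤ) := by
        push_cast
        rw [sq_abs]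
        exact h2
      exact_mod_cast this
    omega
  have hterm : ∀ b ∈ Finset.Icc (-(s : ℤ)) s,
      ((Finset.filter (fun v : ℤ × ℤ × ℤ => v.1 = b)
      ((Finset.Icc (-(n : ℤ)) n ×ˢ Finset.Icc (-(n : ℤ)) n ×ˢ Finset.Icc (-(n : ℤ)) n).filter
      (fun v : ℤ × ℤ × ℤ => v.1 ^ 2 + v.2.1 ^ 2 + v.2.2 ^ 2 = n))).card : ℝ) ≤ 4 * K * (n : ℝ) ^ δ := by
    intro b hb
    rw [Finset.mem_Icc] at hb
    have hb2 : b ^ 2 ≤ (n : ℤ) := by
      have h1 : b.natAbs ≤ s := by omega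
      have h2 : b.natAbs ^ 2 ≤ n := by
        rw [hs, Nat.le_sqrt'] at h1
        exact h1
      have h3 : ((b.natAbs ^ 2 : ℕ) : ℤ) ≤ (n : ℤ) := by exact_mod_cast h2
      push_cast at h3
      rwa [sq_abs] at h3
    have h1 : ((Finset.filter (fun v : ℤ × ℤ × ℤ => v.1 = b)
      ((Finset.Icc (-(n : ℤ)) n ×ˢ Finset.Icc (-(n : ℤ)) n ×ˢ Finset.Icc (-(n : ℤ)) n).filter
      (fun v : ℤ × ℤ × ℤ => v.1 ^ 2 + v.2.1 ^ 2 + v.2.2 ^ 2 = n))).card : ℝ) ≤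
        (r2 ((n : ℤ) - b ^ 2) : ℝ) := by
      exact_mod_cast A_CR3_slice n b hb2
    refine h1.trans ?_
    obtain ⟨m, hm⟩ : ∃ m : ℕ, (n : ℤ) - b ^ 2 = m := ⟨((n : ℤ) - b ^ 2).toNat, by omega⟩
    rw [hm]
    rcases Nat.eq_zero_or_pos m with h0 | h0
    · subst h0
      have : r2 ((0 : ℕ) : ℤ) = 1 := by simpa using r2_zero
      rw [this]
      have h5 : (1 : ℝ) ≤ K * (n : ℝ) ^ δ := one_le_mul_of_one_le_of_one_le hK1 hnd
      push_cast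
      linarith
    · have h2 : (r2 (m : ℤ) : ℝ) ≤ 4 * (m.divisors.card : ℝ) := by exact_mod_cast r2_le m h0
      have h3 := hK m (by omega)
      have h4 : (m : ℝ) ^ δ ≤ (n : ℝ) ^ δ := by
        refine Real.rpow_le_rpow (by positivity) ?_ hδ.le
        have : (m : ℤ) ≤ n := by
          rw [← hm]
          nlinarith [sq_nonneg b]
        exact_mod_cast this
      have h5 : K * (m : ℝ) ^ δ ≤ K * (n : ℝ) ^ δ :=
        mul_le_mul_of_nonneg_left h4 (by linarith)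
      linarith
  rw [hfib]
  push_cast
  refine (Finset.sum_le_sum hterm).trans ?_
  rw [Finset.sum_const, nsmul_eq_mul, Int.card_Icc]
  have hc : ((((s : ℤ) + 1 - (-(s : ℤ))).toNat : ℕ) : ℝ) = 2 * s + 1 := by
    have : ((s : ℤ) + 1 - (-(s : ℤ))).toNat = 2 * s + 1 := by omega
    rw [this]
    push_cast
    ring
  rw [hc]
  have h6 : (2 * (s : ℝ) + 1) ≤ 3 * Real.sqrt n := by linarith
  have h7 : 0 ≤ 4 * K * (n : ℝ) ^ δ := by positivity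
  calc (2 * (s : ℝ) + 1) * (4 * K * (n : ℝ) ^ δ) ≤ 3 * Real.sqrt n * (4 * K * (n : ℝ) ^ δ) :=
        mul_le_mul_of_nonneg_right h6 h7
    _ = 12 * K * Real.sqrt n * (n : ℝ) ^ δ := by ring

end BorelEq.GapC
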