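import Pool.Agent.Lib.MP_75103d_lc.A_LApx1

/-!
MP_75103d_lc, part (A), L2 block (helper15): the kernel is an approximate identity.
-/

set_option autoImplicit false

open MeasureTheory Set Matrix
open scoped Quaternion

namespace BorelEq.GapT

/-- (left invariance and `FL_inv`) -/
theorem FL_shift (L : ℕ) (x : UQ) : ∫ y, FL L (y⁻¹ * x) ∂muQ = ∫ y, FL L y ∂muQ := by
  have h1 : ∀ y : UQ, FL L (y⁻¹ * x) = FL L (x⁻¹ * y) := by
    intro y
    rw [← FL_inv L (x⁻¹ * y)]
    congr 1
    group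
  simp_rw [h1]
  exact (muQ_left' x⁻¹).integral_comp' (f := (Homeomorph.mulLeft x⁻¹).toMeasurableEquiv)
    (FL L)

theorem A_LApx_norm (x y : UQ) : ‖(y : ℍ[ℝ]) - x‖ = nrmQ (x⁻¹ * y) := by
  unfold nrmQ
  have h1 : (y : ℍ[ℝ]) - x = (x : ℍ[ℝ]) * (((x⁻¹ * y : UQ) : ℍ[ℝ]) - 1) := by
    rw [mul_sub, mul_one, ← Metric.unitSphere.coe_mul, mul_inv_cancel_left]
  rw [h1, norm_mul]
  simp

/-- uniform approximation of a continuous function -/
theorem apx {f : UQ → ℝ} (hf : Continuous f) {ε : ℝ} (hε : 0 < ε) :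
    ∃ L : ℕ, ∀ x, |conv L f x / (∫ g, FL L g ∂muQ) - f x| ≤ ε := by
  have := muQ_prob'
  obtain ⟨M, hM⟩ := (BM.of_cont hf).2
  have hM0 : 0 ≤ M := le_trans (abs_nonneg _) (hM 1)
  have huc : UniformContinuous f := CompactSpace.uniformContinuous_of_continuous hf
  obtain ⟨δ₀, hδ₀, hδ⟩ := Metric.uniformContinuous_iff.mp huc (ε / 2) (by positivity)
  set δ := min δ₀ 1 with hδdef
  have hδpos : 0 < δ := lt_min hδ₀ one_pos
  have hδ1 : δ ≤ 1 := min_le_right _ _
  obtain ⟨L, hL⟩ := FL_conc hδpos hδ1 (show 0 < ε / (4 * (M + 1)) by positivity)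
  refine ⟨L, fun x => ?_⟩
  set a := ∫ g, FL L g ∂muQ with ha
  have ha0 : 0 < a := FL_int_pos L
  have hcont : Continuous fun y : UQ => FL L (y⁻¹ * x) :=
    (FL_cont L).comp (continuous_inv.mul continuous_const)
  have hi1 : Integrable (fun y => f y * FL L (y⁻¹ * x)) muQ :=
    (BM.of_cont (hf.mul hcont)).integrable
  have hi2 : Integrable (fun y => f x * FL L (y⁻¹ * x)) muQ :=
    (BM.of_cont (continuous_const.mul hcont)).integrable
  have hi3 : Integrable (fun y => FL L (y⁻¹ * x)) muQ := (BM.of_cont hcont).integrable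
  have e1 : conv L f x - f x * a = ∫ y, (f y - f x) * FL L (y⁻¹ * x) ∂muQ := by
    have e2 : f x * a = ∫ y, f x * FL L (y⁻¹ * x) ∂muQ := by
      rw [integral_const_mul, FL_shift]
    rw [e2]
    unfold conv
    rw [← integral_sub hi1 hi2]
    refine integral_congr_ae (Filter.Eventually.of_forall fun y => ?_)
    show f y * FL L (y⁻¹ * x) - f x * FL L (y⁻¹ * x) = (f y - f x) * FL L (y⁻¹ * x)
    ring
  have hpt : ∀ y : UQ, |(f y - f x) * FL L (y⁻¹ * x)| ≤
      ε / 2 * FL L (y⁻¹ * x) + ε / 2 * a := by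
    intro y
    rw [abs_mul, abs_of_nonneg (FL_nonneg L _)]
    have hF := FL_nonneg L (y⁻¹ * x)
    rcases lt_or_ge (nrmQ (x⁻¹ * y)) δ with h1 | h1
    · have h2 : dist y x < δ₀ := by
        rw [Subtype.dist_eq, dist_eq_norm, A_LApx_norm]
        exact lt_of_lt_of_le h1 (min_le_left _ _)
      have h3 := hδ h2
      rw [Real.dist_eq] at h3
      have h4 : |f y - f x| * FL L (y⁻¹ * x) ≤ ε / 2 * FL L (y⁻¹ * x) :=
        mul_le_mul_of_nonneg_right h3.le hF
      have h5 : 0 ≤ ε / 2 * a := by positivity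
      linarith
    · have h2 : FL L (y⁻¹ * x) ≤ ε / (4 * (M + 1)) * a := by
        have h3 := hL (x⁻¹ * y) h1
        rw [← FL_inv] at h3
        have h4 : (x⁻¹ * y)⁻¹ = y⁻¹ * x := by group
        rwa [h4] at h3
      have h3 : |f y - f x| ≤ 2 * (M + 1) := by
        have h4 := abs_sub (f y) (f x)
        have h5 := hM y
        have h6 := hM x
        linarith
      calc |f y - f x| * FL L (y⁻¹ * x) ≤ 2 * (M + 1) * (ε / (4 * (M + 1)) * a) :=
            mul_le_mul h3 h2 hF (by positivity)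
        _ = ε / 2 * a := by field_simp; ring
        _ ≤ ε / 2 * FL L (y⁻¹ * x) + ε / 2 * a := by
            have : 0 ≤ ε / 2 * FL L (y⁻¹ * x) := by positivity
            linarith
  have hbound : |conv L f x - f x * a| ≤ ε * a := by
    rw [e1]
    calc |∫ y, (f y - f x) * FL L (y⁻¹ * x) ∂muQ| ≤
          ∫ y, |(f y - f x) * FL L (y⁻¹ * x)| ∂muQ := abs_integral_le_integral_abs
      _ ≤ ∫ y, (ε / 2 * FL L (y⁻¹ * x) + ε / 2 * a) ∂muQ := by
          refine integral_mono_of_nonneg (Filter.Eventually.of_forall fun y => abs_nonneg _)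
            ((hi3.const_mul _).add (integrable_const _)) (Filter.Eventually.of_forall hpt)
      _ = ε / 2 * a + ε / 2 * a := by
          rw [integral_add (hi3.const_mul _) (integrable_const _), integral_const_mul, FL_shift,
            ← ha, integral_const, smul_eq_mul]
          simp
      _ = ε * a := by ring
  have e3 : conv L f x / a - f x = (conv L f x - f x * a) / a := by
    field_simp
  rw [e3, abs_div, abs_of_pos ha0, div_le_iff₀ ha0]
  exact hbound

end BorelEq.GapT
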