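import Pool.Agent.Lib.MP_75103d_lc.A_LKer

/-!
MP_75103d_lc, part (A), L2 block (helper15): concentration of the kernel.
-/

set_option autoImplicit false

open MeasureTheory Set Matrix
open scoped Quaternion

namespace BorelEq.GapT

/-- `1 + Re g = 2 - |g - 1|² / 2` for a unit quaternion -/
theorem re_eq (g : UQ) : 1 + (g : ℍ[ℝ]).re = 2 - nrmQ g ^ 2 / 2 := by
  have h1 := normSq_UQ g
  rw [Quaternion.normSq_def'] at h1
  have h2 : nrmQ g ^ 2 = Quaternion.normSq ((g : ℍ[ℝ]) - 1) := by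
    rw [Quaternion.normSq_eq_norm_mul_self]
    unfold nrmQ
    ring
  rw [Quaternion.normSq_def'] at h2
  simp only [Quaternion.re_sub, Quaternion.imI_sub, Quaternion.imJ_sub, Quaternion.imK_sub,
    Quaternion.re_one, Quaternion.imI_one, Quaternion.imJ_one, Quaternion.imK_one] at h2
  rw [h2]
  linarith

theorem A_LApx1_nrm_cont : Continuous nrmQ := by
  unfold nrmQ
  exact (continuous_subtype_val.sub continuous_const).norm

theorem A_LApx1_nrm_nonneg (g : UQ) : 0 ≤ nrmQ g := norm_nonneg _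

theorem A_LApx1_nrm_le (g : UQ) : nrmQ g ^ 2 / 2 ≤ 2 := by
  have h := re_eq g
  have h1 := normSq_UQ g
  rw [Quaternion.normSq_def'] at h1
  have h2 : (g : ℍ[ℝ]).re ^ 2 ≤ 1 := by
    have e1 := sq_nonneg ((g : ℍ[ℝ]).imI)
    have e2 := sq_nonneg ((g : ℍ[ℝ]).imJ)
    have e3 := sq_nonneg ((g : ℍ[ℝ]).imK)
    linarith
  have h3 : -1 ≤ (g : ℍ[ℝ]).re := by
    by_contra hcon
    push Not at hcon
    nlinarith
  linarith

theorem A_LApx1_FL_eq (L : ℕ) (g : UQ) : FL L g = (2 - nrmQ g ^ 2 / 2) ^ L := by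
  unfold FL
  rw [re_eq]

/-- lower bound for the integral of the kernel -/
theorem A_LApx1_int_ge (L : ℕ) {δ : ℝ} (hδ : 0 < δ) (hδ1 : δ ≤ 1) :
    (2 - δ ^ 2 / 2) ^ L * (muQ {g : UQ | nrmQ g < δ}).toReal ≤ ∫ g, FL L g ∂muQ := by
  have := muQ_prob'
  have hS : MeasurableSet {g : UQ | nrmQ g < δ} :=
    (isOpen_lt A_LApx1_nrm_cont continuous_const).measurableSet
  have hint : Integrable (FL L) muQ := (BM.of_cont (FL_cont L)).integrable
  have h1 : ∫ g in {g : UQ | nrmQ g < δ}, FL L g ∂muQ ≤ ∫ g, FL L g ∂muQ :=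
    setIntegral_le_integral hint (Filter.Eventually.of_forall fun g => FL_nonneg L g)
  refine le_trans ?_ h1
  have h2 : ∫ _g in {g : UQ | nrmQ g < δ}, (2 - δ ^ 2 / 2) ^ L ∂muQ =
      (2 - δ ^ 2 / 2) ^ L * (muQ {g : UQ | nrmQ g < δ}).toReal := by
    rw [setIntegral_const, smul_eq_mul, mul_comm]
    rfl
  rw [← h2]
  refine setIntegral_mono_on (integrable_const _).integrableOn hint.integrableOn hS
    fun g hg => ?_
  rw [A_LApx1_FL_eq]
  have hg' : nrmQ g < δ := hg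
  have h3 := A_LApx1_nrm_nonneg g
  refine pow_le_pow_left₀ ?_ ?_ L
  · nlinarith
  · nlinarith

/-- (uses `muQ_ball'`) -/
theorem FL_int_pos (L : ℕ) : 0 < ∫ g, FL L g ∂muQ := by
  obtain ⟨c, hc, h⟩ := muQ_ball'
  have h1 := h 1 one_pos le_rfl
  have h2 := A_LApx1_int_ge L one_pos le_rfl
  refine lt_of_lt_of_le ?_ h2
  have h3 : 0 < (muQ {g : UQ | nrmQ g < 1}).toReal := lt_of_lt_of_le (by positivity) h1
  have h4 : (0 : ℝ) < (2 - 1 ^ 2 / 2) ^ L := by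
    apply pow_pos
    norm_num
  positivity

/-- concentration near `1`: compare `(2 - δ²/2)^L` with `(2 - δ²/8)^L * muQ (ball (δ/2))` -/
theorem FL_conc {δ ε : ℝ} (hδ : 0 < δ) (hδ1 : δ ≤ 1) (hε : 0 < ε) :
    ∃ L : ℕ, ∀ g : UQ, δ ≤ nrmQ g → FL L g ≤ ε * ∫ h, FL L h ∂muQ := by
  obtain ⟨c, hc, hball⟩ := muQ_ball'
  have hδ2 : 0 < δ / 2 := by positivity
  have hden : 0 < 2 - (δ / 2) ^ 2 / 2 := by nlinarith
  have hnum : 0 ≤ 2 - δ ^ 2 / 2 := by nlinarith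
  set q := (2 - δ ^ 2 / 2) / (2 - (δ / 2) ^ 2 / 2) with hq
  have hq0 : 0 ≤ q := div_nonneg hnum hden.le
  have hq1 : q < 1 := by
    rw [hq, div_lt_one hden]
    nlinarith
  have hpos : 0 < ε * (c * (δ / 2) ^ 3) := by positivity
  obtain ⟨L, hL⟩ := exists_pow_lt_of_lt_one hpos hq1
  refine ⟨L, fun g hg => ?_⟩
  have h1 := A_LApx1_int_ge L hδ2 (by linarith)
  have h2 := hball (δ / 2) hδ2 (by linarith)
  have h3 : FL L g ≤ (2 - δ ^ 2 / 2) ^ L := by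
    rw [A_LApx1_FL_eq]
    refine pow_le_pow_left₀ ?_ ?_ L
    · linarith [A_LApx1_nrm_le g]
    · nlinarith
  have h4 : (2 - δ ^ 2 / 2) ^ L = q ^ L * (2 - (δ / 2) ^ 2 / 2) ^ L := by
    rw [← mul_pow, hq, div_mul_cancel₀ _ hden.ne']
  have hdL : 0 < (2 - (δ / 2) ^ 2 / 2) ^ L := pow_pos hden L
  calc FL L g ≤ q ^ L * (2 - (δ / 2) ^ 2 / 2) ^ L := by rw [← h4]; exact h3
    _ ≤ (ε * (c * (δ / 2) ^ 3)) * (2 - (δ / 2) ^ 2 / 2) ^ L :=
        mul_le_mul_of_nonneg_right hL.le hdL.le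
    _ = ε * ((2 - (δ / 2) ^ 2 / 2) ^ L * (c * (δ / 2) ^ 3)) := by ring
    _ ≤ ε * ((2 - (δ / 2) ^ 2 / 2) ^ L * (muQ {g : UQ | nrmQ g < δ / 2}).toReal) :=
        mul_le_mul_of_nonneg_left (mul_le_mul_of_nonneg_left h2 hdL.le) hε.le
    _ ≤ ε * ∫ h, FL L h ∂muQ := mul_le_mul_of_nonneg_left h1 hε.le

end BorelEq.GapT
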