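import Pool.Agent.Lib.MP_75103d_lc.A_LDefs

/-!
MP_75103d_lc, part (A), L2 block (helper15): basic facts on `Tf` and `BM`.
-/

set_option autoImplicit false

open MeasureTheory Set Matrix
open scoped Quaternion

namespace BorelEq.GapT

private theorem A_LBasic_prob : IsProbabilityMeasure muQ := muQ_prob'

attribute [local instance] A_LBasic_prob

theorem BM.integrable {f : UQ → ℝ} (h : BM f) : Integrable f muQ := by
  obtain ⟨hm, C, hC⟩ := h
  exact Integrable.of_bound hm.aestronglyMeasurable C (Filter.Eventually.of_forall hC)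

theorem BM.of_cont {f : UQ → ℝ} (h : Continuous f) : BM f := by
  refine ⟨h.measurable, ?_⟩
  obtain ⟨C, hC⟩ := (isCompact_univ (X := UQ)).exists_bound_of_continuousOn h.continuousOn
  exact ⟨C, fun g => hC g (mem_univ g)⟩

theorem BM.const (c : ℝ) : BM (fun _ => c) :=
  ⟨measurable_const, |c|, fun _ => le_rfl⟩

theorem BM.add {f h : UQ → ℝ} (hf : BM f) (hh : BM h) : BM (fun g => f g + h g) := by
  obtain ⟨hm, C, hC⟩ := hf
  obtain ⟨hm', C', hC'⟩ := hh
  exact ⟨hm.add hm', C + C', fun g => (abs_add_le _ _).trans (add_le_add (hC g) (hC' g))⟩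

theorem BM.sub {f h : UQ → ℝ} (hf : BM f) (hh : BM h) : BM (fun g => f g - h g) := by
  obtain ⟨hm, C, hC⟩ := hf
  obtain ⟨hm', C', hC'⟩ := hh
  exact ⟨hm.sub hm', C + C', fun g => (abs_sub _ _).trans (add_le_add (hC g) (hC' g))⟩

theorem BM.mul {f h : UQ → ℝ} (hf : BM f) (hh : BM h) : BM (fun g => f g * h g) := by
  obtain ⟨hm, C, hC⟩ := hf
  obtain ⟨hm', C', hC'⟩ := hh
  refine ⟨hm.mul hm', C * C', fun g => ?_⟩
  rw [abs_mul]
  exact mul_le_mul (hC g) (hC' g) (abs_nonneg _) ((abs_nonneg _).trans (hC g))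

theorem BM.sq {f : UQ → ℝ} (hf : BM f) : BM (fun g => f g ^ 2) := by
  have h := hf.mul hf
  have e : (fun g => f g * f g) = fun g => f g ^ 2 := by funext g; ring
  rwa [e] at h

theorem BM.trans {f : UQ → ℝ} (hf : BM f) (u : UQ) : BM (fun g => f (u * g)) := by
  obtain ⟨hm, C, hC⟩ := hf
  exact ⟨hm.comp (muQ_left' u).measurable, C, fun g => hC _⟩

theorem BM.Tf {f : UQ → ℝ} (hf : BM f) : BM (Tf f) := by
  have h : ∀ s : Finset (Fin 6), BM (fun g => ∑ i ∈ s, f (bQ i * g)) := by
    intro s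
    classical
    induction s using Finset.induction_on with
    | empty => simpa using BM.const 0
    | insert a s ha ih =>
      have h1 := (hf.trans (bQ a)).add ih
      have e : (fun g => f (bQ a * g) + ∑ i ∈ s, f (bQ i * g)) =
          fun g => ∑ i ∈ insert a s, f (bQ i * g) := by
        funext g
        rw [Finset.sum_insert ha]
      rwa [e] at h1
  have h1 := (h Finset.univ).mul (BM.const (1 / 6))
  have e : (fun g => (∑ i, f (bQ i * g)) * (1 / 6)) = GapT.Tf f := by
    funext g
    simp only [GapT.Tf]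
    ring
  rwa [e] at h1

theorem BM.iter {f : UQ → ℝ} (hf : BM f) (k : ℕ) : BM (GapT.Tf^[k] f) := by
  induction k with
  | zero => exact hf
  | succ k ih =>
    rw [Function.iterate_succ_apply']
    exact ih.Tf

theorem Tf_sub (f h : UQ → ℝ) : GapT.Tf (fun g => f g - h g) = fun g => GapT.Tf f g - GapT.Tf h g := by
  funext g
  simp only [GapT.Tf, Finset.sum_sub_distrib]
  ring

theorem Tf_const (c : ℝ) : GapT.Tf (fun _ => c) = fun _ => c := by
  funext g
  simp only [GapT.Tf, Finset.sum_const, Finset.card_univ, Fintype.card_fin, nsmul_eq_mul]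
  push_cast
  ring

theorem integral_Tf {f : UQ → ℝ} (hf : BM f) : ∫ g, GapT.Tf f g ∂muQ = ∫ g, f g ∂muQ := by
  have h1 : ∀ i : Fin 6, ∫ g, f (bQ i * g) ∂muQ = ∫ g, f g ∂muQ := by
    intro i
    have hp := muQ_left' (bQ i)
    have h2 := MeasureTheory.integral_map (μ := muQ) (φ := fun g : UQ => bQ i * g) (f := f)
      hp.measurable.aemeasurable hf.1.aestronglyMeasurable
    rw [hp.map_eq] at h2
    exact h2.symm
  simp only [GapT.Tf]
  rw [integral_div, integral_finsetSum _ (fun i _ => (hf.trans (bQ i)).integrable)]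
  simp only [h1, Finset.sum_const, Finset.card_univ, Fintype.card_fin, nsmul_eq_mul]
  push_cast
  ring

end BorelEq.GapT
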