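import Pool.Agent.Lib.MP_75103d_lc.A_LBasic

/-!
MP_75103d_lc, part (A), L2 block (helper15): self-adjointness, contraction, triangle inequality.
-/

set_option autoImplicit false

open MeasureTheory Set Matrix
open scoped Quaternion

namespace BorelEq.GapT

private theorem A_LBasic2_tr {F : UQ → ℝ} (hF : Measurable F) (u : UQ) :
    ∫ g, F (u * g) ∂muQ = ∫ g, F g ∂muQ := by
  have h := (muQ_left' u)
  have e : ∫ y, F y ∂(Measure.map (fun g : UQ => u * g) muQ) = ∫ g, F (u * g) ∂muQ :=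
    integral_map h.measurable.aemeasurable hF.aestronglyMeasurable
  rw [h.map_eq] at e
  exact e.symm

private theorem A_LBasic2_one {f h : UQ → ℝ} (hf : BM f) (hh : BM h) (i : Fin 6) :
    ∫ g, f (bQ i * g) * h g ∂muQ = ∫ g, f g * h (bQ (bI i) * g) ∂muQ := by
  have hm : BM (fun g => f g * h (bQ (bI i) * g)) := hf.mul (hh.trans (bQ (bI i)))
  have e := A_LBasic2_tr hm.1 (bQ i)
  rw [← e]
  apply integral_congr_ae
  refine Filter.Eventually.of_forall fun g => ?_
  simp only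
  rw [bQ_inv, inv_mul_cancel_left]

/-- self-adjointness (uses `bQ_inv`, `bI_bI` and `muQ_left'`) -/
theorem Tf_selfadj {f h : UQ → ℝ} (hf : BM f) (hh : BM h) :
    ∫ g, GapT.Tf f g * h g ∂muQ = ∫ g, f g * GapT.Tf h g ∂muQ := by
  have e1 : ∀ g, GapT.Tf f g * h g = ∑ i, (f (bQ i * g) * h g) / 6 := by
    intro g
    unfold GapT.Tf
    rw [Finset.sum_div, Finset.sum_mul]
    exact Finset.sum_congr rfl fun i _ => by ring
  have e2 : ∀ g, f g * GapT.Tf h g = ∑ i, (f g * h (bQ i * g)) / 6 := by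
    intro g
    unfold GapT.Tf
    rw [Finset.sum_div, Finset.mul_sum]
    exact Finset.sum_congr rfl fun i _ => by ring
  simp_rw [e1, e2]
  rw [integral_finsetSum, integral_finsetSum]
  · simp_rw [integral_div]
    rw [← Equiv.sum_comp (Function.Involutive.toPerm bI bI_bI)
      (fun i => (∫ g, f g * h (bQ i * g) ∂muQ) / 6)]
    refine Finset.sum_congr rfl fun i _ => ?_
    rw [A_LBasic2_one hf hh i]
    rfl
  · intro i _
    exact ((hf.mul (hh.trans (bQ i))).integrable).div_const 6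
  · intro i _
    exact (((hf.trans (bQ i)).mul hh).integrable).div_const 6

/-- contraction (convexity of the square) -/
theorem Tf_contr {f : UQ → ℝ} (hf : BM f) : ∫ g, (GapT.Tf f g) ^ 2 ∂muQ ≤ ∫ g, (f g) ^ 2 ∂muQ := by
  have hpt : ∀ g, (GapT.Tf f g) ^ 2 ≤ ∑ i, (f (bQ i * g)) ^ 2 / 6 := by
    intro g
    unfold GapT.Tf
    have h := sq_sum_le_card_mul_sum_sq (s := (Finset.univ : Finset (Fin 6)))
      (f := fun i => f (bQ i * g))
    simp only [Finset.card_univ, Fintype.card_fin] at h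
    rw [← Finset.sum_div, div_pow]
    push_cast at h
    linarith
  have hint : ∀ i : Fin 6, Integrable (fun g => (f (bQ i * g)) ^ 2 / 6) muQ := fun i =>
    ((hf.trans (bQ i)).sq.integrable).div_const 6
  calc ∫ g, (GapT.Tf f g) ^ 2 ∂muQ ≤ ∫ g, ∑ i, (f (bQ i * g)) ^ 2 / 6 ∂muQ :=
        integral_mono hf.Tf.sq.integrable (integrable_finsetSum _ fun i _ => hint i) hpt
    _ = ∑ i : Fin 6, (∫ g, (f g) ^ 2 ∂muQ) / 6 := by
        rw [integral_finsetSum _ fun i _ => hint i]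
        refine Finset.sum_congr rfl fun i _ => ?_
        rw [integral_div, A_LBasic2_tr hf.sq.1 (bQ i)]
    _ = ∫ g, (f g) ^ 2 ∂muQ := by
        simp only [Finset.sum_const, Finset.card_univ, Fintype.card_fin, nsmul_eq_mul]
        push_cast
        ring

private theorem A_LBasic2_cs {f h : UQ → ℝ} (hf : BM f) (hh : BM h) :
    (∫ g, f g * h g ∂muQ) ^ 2 ≤ (∫ g, (f g) ^ 2 ∂muQ) * ∫ g, (h g) ^ 2 ∂muQ := by
  have h1 : ∀ t : ℝ, 0 ≤ (∫ g, (h g) ^ 2 ∂muQ) * (t * t) + (-2 * ∫ g, f g * h g ∂muQ) * t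
      + ∫ g, (f g) ^ 2 ∂muQ := by
    intro t
    have e : ∫ g, (f g - t * h g) ^ 2 ∂muQ = (∫ g, (h g) ^ 2 ∂muQ) * (t * t)
        + (-2 * ∫ g, f g * h g ∂muQ) * t + ∫ g, (f g) ^ 2 ∂muQ := by
      have e0 : ∀ g, (f g - t * h g) ^ 2
          = (t * t) * (h g) ^ 2 + (-2 * t) * (f g * h g) + (f g) ^ 2 := fun g => by ring
      simp_rw [e0]
      rw [integral_add, integral_add, integral_const_mul, integral_const_mul]
      · ring
      · exact hh.sq.integrable.const_mul _
      · exact (hf.mul hh).integrable.const_mul _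
      · exact (hh.sq.integrable.const_mul _).add ((hf.mul hh).integrable.const_mul _)
      · exact hf.sq.integrable
    rw [← e]
    exact integral_nonneg fun g => sq_nonneg _
  have h2 := discrim_le_zero h1
  unfold discrim at h2
  nlinarith [h2]

/-- triangle inequality in L2 in the form `‖f‖ ≤ ‖h‖ + ‖f - h‖` -/
theorem l2_tri {f h : UQ → ℝ} (hf : BM f) (hh : BM h) :
    Real.sqrt (∫ g, (f g) ^ 2 ∂muQ) ≤
      Real.sqrt (∫ g, (h g) ^ 2 ∂muQ) + Real.sqrt (∫ g, (f g - h g) ^ 2 ∂muQ) := by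
  have hd : BM (fun g => f g - h g) := hf.sub hh
  set A := ∫ g, (h g) ^ 2 ∂muQ with hA
  set C := ∫ g, (f g - h g) ^ 2 ∂muQ with hC
  have hA0 : 0 ≤ A := integral_nonneg fun g => sq_nonneg _
  have hC0 : 0 ≤ C := integral_nonneg fun g => sq_nonneg _
  have hcs := A_LBasic2_cs hh hd
  rw [← hA] at hcs
  have hcs' : (∫ g, h g * (f g - h g) ∂muQ) ^ 2 ≤ A * C := hcs
  have hB : ∫ g, h g * (f g - h g) ∂muQ ≤ Real.sqrt A * Real.sqrt C := by
    rw [← Real.sqrt_mul hA0]
    exact Real.le_sqrt_of_sq_le hcs'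
  have e : ∫ g, (f g) ^ 2 ∂muQ = A + 2 * ∫ g, h g * (f g - h g) ∂muQ + C := by
    have e0 : ∀ g, (f g) ^ 2 = (h g) ^ 2 + 2 * (h g * (f g - h g)) + (f g - h g) ^ 2 :=
      fun g => by ring
    simp_rw [e0]
    rw [integral_add, integral_add, integral_const_mul]
    · exact hh.sq.integrable
    · exact (hh.mul hd).integrable.const_mul _
    · exact hh.sq.integrable.add ((hh.mul hd).integrable.const_mul _)
    · exact hd.sq.integrable
  rw [e]
  apply Real.sqrt_le_iff.mpr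
  refine ⟨by positivity, ?_⟩
  have s1 := Real.sq_sqrt hA0
  have s2 := Real.sq_sqrt hC0
  nlinarith

/-- the mean is a contraction -/
theorem sq_mean_le {f : UQ → ℝ} (hf : BM f) : (∫ g, f g ∂muQ) ^ 2 ≤ ∫ g, (f g) ^ 2 ∂muQ := by
  haveI := muQ_prob'
  have h := A_LBasic2_cs hf (BM.const 1)
  simpa using h

end BorelEq.GapT
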