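import Pool.Agent.Lib.MP_75103d_lc.A_TDefs

/-!
MP_75103d_lc, part (A), L2 block (helper15): norm of `TN N` on the orthogonal complement of the
invariants, from the bound on the eigenvalues (spectral theorem).
-/

set_option autoImplicit false

open MeasureTheory Set Matrix
open scoped Quaternion

namespace BorelEq.GapT

/-- `v` is perpendicular to the invariant vectors -/
def Perp (N : ℕ) (v : Ix N → ℂ) : Prop :=
  ∀ z : Ix N → ℂ, (∀ g : UQ, rho N g *ᵥ z = z) → star z ⬝ᵥ v = 0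

theorem Perp.TN {N : ℕ} {v : Ix N → ℂ} (h : Perp N v) : Perp N (TN N *ᵥ v) := by
  intro z hz
  have h1 : star z ⬝ᵥ (GapT.TN N *ᵥ v) = star ((GapT.TN N)ᴴ *ᵥ z) ⬝ᵥ v := by
    rw [Matrix.star_mulVec, Matrix.conjTranspose_conjTranspose, Matrix.dotProduct_mulVec]
  rw [h1, TN_herm]
  have h2 : GapT.TN N *ᵥ z = z := by
    unfold GapT.TN
    rw [Matrix.smul_mulVec, Matrix.sum_mulVec]
    simp only [hz, Finset.sum_const, Finset.card_univ, Fintype.card_fin]
    ext x
    simp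
  rw [h2]
  exact h z hz

/-- the submodule of vectors perpendicular to the invariants -/
private noncomputable def A_LSpec_S (N : ℕ) : Submodule ℂ (EuclideanSpace ℂ (Ix N)) where
  carrier := {w | Perp N (WithLp.ofLp w)}
  add_mem' := by
    intro a b ha hb z hz
    rw [WithLp.ofLp_add, dotProduct_add, ha z hz, hb z hz, add_zero]
  zero_mem' := by
    intro z _
    rw [WithLp.ofLp_zero, dotProduct_zero]
  smul_mem' := by
    intro c a ha z hz
    rw [WithLp.ofLp_smul, dotProduct_smul, ha z hz, smul_zero]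

/-- spectral theorem for the restriction of `TN N` to the perpendicular space (a submodule of
`EuclideanSpace ℂ (Ix N)`, `LinearMap.IsSymmetric.restrict_invariant`, `eigenvectorBasis`) -/
theorem perp_step {r : ℝ} (hr0 : 0 ≤ r) {N : ℕ}
    (hr : ∀ (lam : ℝ) (v : Ix N → ℂ), IsEig N lam v → |lam| ≤ r) (v : Ix N → ℂ) (hv : Perp N v) :
    ∑ x, ‖(GapT.TN N *ᵥ v) x‖ ^ 2 ≤ r ^ 2 * ∑ x, ‖v x‖ ^ 2 := by
  have hsymm : (Matrix.toEuclideanLin (GapT.TN N)).IsSymmetric :=
    Matrix.isSymmetric_toEuclideanLin_iff.mpr (TN_herm N)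
  have hinv : ∀ w ∈ A_LSpec_S N, Matrix.toEuclideanLin (GapT.TN N) w ∈ A_LSpec_S N := by
    intro w hw
    have hw' : Perp N (WithLp.ofLp w) := hw
    exact hw'.TN
  have hs := hsymm.restrict_invariant hinv
  set T := (Matrix.toEuclideanLin (GapT.TN N)).restrict hinv with hT
  set w : A_LSpec_S N := ⟨WithLp.toLp 2 v, hv⟩ with hw
  have hb : ∀ i, |hs.eigenvalues rfl i| ≤ r := by
    intro i
    have h1 := hs.apply_eigenvectorBasis rfl i
    set b := hs.eigenvectorBasis rfl i with hbdef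
    have hbn : ‖b‖ = 1 := (hs.eigenvectorBasis rfl).norm_eq_one i
    refine hr _ (WithLp.ofLp (b : EuclideanSpace ℂ (Ix N))) ⟨?_, ?_, ?_⟩
    · intro h0
      have : b = 0 := by
        apply Subtype.ext
        exact (WithLp.ofLp_eq_zero 2).mp h0
      rw [this, norm_zero] at hbn
      exact zero_ne_one hbn
    · have h2 := congrArg (fun y : A_LSpec_S N => WithLp.ofLp (y : EuclideanSpace ℂ (Ix N))) h1
      exact h2
    · exact b.2
  have hnorm : ‖T w‖ ^ 2 ≤ r ^ 2 * ‖w‖ ^ 2 := by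
    rw [← (hs.eigenvectorBasis rfl).repr.norm_map (T w), ← (hs.eigenvectorBasis rfl).repr.norm_map w,
      EuclideanSpace.norm_sq_eq, EuclideanSpace.norm_sq_eq, Finset.mul_sum]
    refine Finset.sum_le_sum fun i _ => ?_
    rw [hs.eigenvectorBasis_apply_self_apply rfl, norm_mul, mul_pow]
    refine mul_le_mul_of_nonneg_right ?_ (by positivity)
    rw [RCLike.norm_ofReal]
    exact pow_le_pow_left₀ (abs_nonneg _) (hb i) 2
  have e1 : ‖T w‖ ^ 2 = ∑ x, ‖(GapT.TN N *ᵥ v) x‖ ^ 2 := by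
    rw [← Submodule.norm_coe, EuclideanSpace.norm_sq_eq]
    rfl
  have e2 : ‖w‖ ^ 2 = ∑ x, ‖v x‖ ^ 2 := by
    rw [← Submodule.norm_coe, EuclideanSpace.norm_sq_eq]
  rw [e1, e2] at hnorm
  exact hnorm

theorem perp_pow {r : ℝ} (hr0 : 0 ≤ r) {N : ℕ}
    (hr : ∀ (lam : ℝ) (v : Ix N → ℂ), IsEig N lam v → |lam| ≤ r) (v : Ix N → ℂ) (hv : Perp N v)
    (k : ℕ) : ∑ x, ‖((GapT.TN N) ^ k *ᵥ v) x‖ ^ 2 ≤ (r ^ 2) ^ k * ∑ x, ‖v x‖ ^ 2 := by
  have hP : ∀ k : ℕ, Perp N ((GapT.TN N) ^ k *ᵥ v) := by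
    intro k
    induction k with
    | zero => simpa using hv
    | succ k ih =>
      rw [pow_succ', ← Matrix.mulVec_mulVec]
      exact ih.TN
  induction k with
  | zero => simp
  | succ k ih =>
    rw [pow_succ', ← Matrix.mulVec_mulVec]
    calc _ ≤ r ^ 2 * ∑ x, ‖((GapT.TN N) ^ k *ᵥ v) x‖ ^ 2 := perp_step hr0 hr _ (hP k)
      _ ≤ r ^ 2 * ((r ^ 2) ^ k * ∑ x, ‖v x‖ ^ 2) := by
          exact mul_le_mul_of_nonneg_left ih (by positivity)
      _ = _ := by ring

end BorelEq.GapT
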