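import Pool.Agent.Lib.MP_75103d_lc.A_LDefs
import Pool.Agent.Lib.MP_75103d_lc.A_LSpec

/-!
MP_75103d_lc, part (A), L2 block (helper15): matrix coefficients `mc N C g = Re tr (rho N g * C)`.
-/

set_option autoImplicit false

open MeasureTheory Set Matrix
open scoped Quaternion

namespace BorelEq.GapT

theorem Tf_mc {N : ℕ} (C : Matrix (Ix N) (Ix N) ℂ) : Tf (mc N C) = mc N (C * TN N) := by
  funext g
  have h1 : ∀ i, mc N C (bQ i * g) = ((rho N g * (C * rho N (bQ i))).trace).re := by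
    intro i
    unfold mc
    rw [rho_mul, Matrix.mul_assoc, Matrix.trace_mul_comm, Matrix.mul_assoc]
  unfold Tf
  simp only [h1]
  unfold mc TN
  rw [Matrix.mul_smul, Matrix.mul_smul, Matrix.trace_smul, Matrix.mul_sum, Matrix.mul_sum,
    Matrix.trace_sum]
  rw [smul_eq_mul]
  have h2 : ((1 / 6 : ℂ) * ∑ i, (rho N g * (C * rho N (bQ i))).trace).re
      = (1 / 6 : ℝ) * (∑ i, (rho N g * (C * rho N (bQ i))).trace).re := by
    have : (1 / 6 : ℂ) = ((1 / 6 : ℝ) : ℂ) := by push_cast; rfl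
    rw [this, Complex.re_ofReal_mul]
  rw [h2, Complex.re_sum]
  ring

theorem Tf_iter_mc {N : ℕ} (C : Matrix (Ix N) (Ix N) ℂ) (k : ℕ) :
    Tf^[k] (mc N C) = mc N (C * TN N ^ k) := by
  induction k with
  | zero => simp
  | succ k ih => rw [Function.iterate_succ_apply', ih, Tf_mc, pow_succ, Matrix.mul_assoc]

theorem mc_cont {N : ℕ} (C : Matrix (Ix N) (Ix N) ℂ) : Continuous (mc N C) := by
  unfold mc
  refine Complex.continuous_re.comp ?_
  simp only [Matrix.trace, Matrix.diag_apply, Matrix.mul_apply]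
  exact continuous_finsetSum _ fun x _ => continuous_finsetSum _ fun y _ =>
    (rho_cont N x y).mul continuous_const

/-- the entries of `mQ g` are bounded by one -/
private theorem mQ_le (g : UQ) (i j : Fin 2) : ‖mQ (g : ℍ[ℝ]) i j‖ ≤ 1 := by
  have h := normSq_UQ g
  rw [Quaternion.normSq_def'] at h
  have key : ∀ a b : ℝ, a ^ 2 + b ^ 2 ≤ 1 → ‖(⟨a, b⟩ : ℂ)‖ ≤ 1 := by
    intro a b hab
    rw [Complex.norm_def, Complex.normSq_mk, Real.sqrt_le_one]
    nlinarith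
  fin_cases i <;> fin_cases j <;> simp only [mQ, Matrix.of_apply, Matrix.cons_val', Fin.zero_eta,
    Fin.mk_one, Matrix.cons_val_zero, Matrix.cons_val_one, Matrix.cons_val_fin_one] <;>
    apply key <;> nlinarith [sq_nonneg (g : ℍ[ℝ]).re, sq_nonneg (g : ℍ[ℝ]).imI,
      sq_nonneg (g : ℍ[ℝ]).imJ, sq_nonneg (g : ℍ[ℝ]).imK]

/-- the entries of `rho N g` are bounded by one -/
theorem rho_le {N : ℕ} (g : UQ) (x y : Ix N) : ‖rho N g x y‖ ≤ 1 := by
  unfold rho kp
  rw [norm_prod]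
  exact Finset.prod_le_one (fun i _ => norm_nonneg _) (fun i _ => mQ_le g _ _)

/-- decay of the iterates of a matrix coefficient whose matrix kills the invariants
(apply `perp_pow` to the conjugated rows of `C`) -/
theorem mc_decay {r : ℝ} (hr0 : 0 ≤ r) {N : ℕ}
    (hr : ∀ (lam : ℝ) (v : Ix N → ℂ), IsEig N lam v → |lam| ≤ r)
    (C : Matrix (Ix N) (Ix N) ℂ) (hC : ∀ z : Ix N → ℂ, (∀ g : UQ, rho N g *ᵥ z = z) → C *ᵥ z = 0) :
    ∃ K : ℝ, ∀ (k : ℕ) (g : UQ), |(Tf^[k] (mc N C)) g| ≤ K * r ^ k := by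
  -- bound of the entries
  have hent : ∀ (k : ℕ) (x y : Ix N), ‖(C * TN N ^ k) x y‖ ≤
      Real.sqrt (∑ z, ‖C x z‖ ^ 2) * r ^ k := by
    intro k x y
    let v : Ix N → ℂ := fun z => star (C x z)
    have hv : Perp N v := by
      intro z hz
      have h1 := congrFun (hC z hz) x
      have h2 : star z ⬝ᵥ v = star ((C *ᵥ z) x) := by
        simp only [Matrix.mulVec, dotProduct, v, star_sum, star_mul', Pi.star_apply]
        exact Finset.sum_congr rfl fun i _ => mul_comm _ _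
      rw [h2, h1]
      simp
    have h3 := perp_pow hr0 hr v hv k
    have hherm : ((TN N) ^ k)ᴴ = (TN N) ^ k := by
      rw [Matrix.conjTranspose_pow, TN_herm]
    have h4 : ‖(C * TN N ^ k) x y‖ = ‖((TN N) ^ k *ᵥ v) y‖ := by
      have h5 : ((TN N) ^ k *ᵥ v) y = star ((C * TN N ^ k) x y) := by
        have h6 : ∀ z, (TN N ^ k) y z = star ((TN N ^ k) z y) := by
          intro z
          conv_lhs => rw [← hherm]
          rfl
        simp only [Matrix.mulVec, dotProduct, Matrix.mul_apply, star_sum, star_mul', v, h6]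
        exact Finset.sum_congr rfl fun i _ => mul_comm _ _
      rw [h5, norm_star]
    rw [h4]
    have h7 : ‖((TN N) ^ k *ᵥ v) y‖ ^ 2 ≤ (r ^ 2) ^ k * ∑ z, ‖C x z‖ ^ 2 := by
      have h8 : ‖((TN N) ^ k *ᵥ v) y‖ ^ 2 ≤ ∑ x, ‖((TN N) ^ k *ᵥ v) x‖ ^ 2 :=
        Finset.single_le_sum (f := fun x => ‖((TN N) ^ k *ᵥ v) x‖ ^ 2)
          (fun i _ => sq_nonneg _) (Finset.mem_univ y)
      refine h8.trans (h3.trans (le_of_eq ?_))
      simp [v]
    have h9 : 0 ≤ ∑ z, ‖C x z‖ ^ 2 := Finset.sum_nonneg fun i _ => sq_nonneg _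
    refine (sq_le_sq₀ (norm_nonneg _) (by positivity)).mp ?_
    rw [mul_pow, Real.sq_sqrt h9]
    calc _ ≤ _ := h7
      _ = _ := by ring
  refine ⟨∑ x : Ix N, ∑ y : Ix N, Real.sqrt (∑ z, ‖C y z‖ ^ 2), fun k g => ?_⟩
  rw [Tf_iter_mc]
  unfold mc
  refine (Complex.abs_re_le_norm _).trans ?_
  simp only [Matrix.trace, Matrix.diag_apply]
  rw [Finset.sum_mul]
  refine (norm_sum_le _ _).trans (Finset.sum_le_sum fun x _ => ?_)
  rw [Matrix.mul_apply, Finset.sum_mul]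
  refine (norm_sum_le _ _).trans (Finset.sum_le_sum fun y _ => ?_)
  rw [norm_mul]
  calc ‖rho N g x y‖ * ‖(C * TN N ^ k) y x‖ ≤ 1 * (Real.sqrt (∑ z, ‖C y z‖ ^ 2) * r ^ k) :=
        mul_le_mul (rho_le g x y) (hent k y x) (norm_nonneg _) zero_le_one
    _ = _ := one_mul _

end BorelEq.GapT
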