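import Pool.Agent.Lib.MP_75103d_lc.A_LBasic2

/-!
MP_75103d_lc, part (A), L2 block (helper15): decay of the iterates implies a norm bound
(log-convexity of `k ↦ ‖T^k f‖²`, as `T` is self-adjoint).
-/

set_option autoImplicit false

open MeasureTheory Set Matrix
open scoped Quaternion

namespace BorelEq.GapT

theorem logconv (a : ℕ → ℝ) (ha : ∀ k, 0 ≤ a k) (hc : ∀ k, a (k + 1) ^ 2 ≤ a k * a (k + 2))
    (C r : ℝ) (hr : 0 ≤ r) (hb : ∀ k, a k ≤ C * (r ^ 2) ^ k) : a 1 ≤ r ^ 2 * a 0 := by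
  by_contra hcon
  push Not at hcon
  set s : ℝ := r ^ 2 with hs
  have hs0 : 0 ≤ s := by positivity
  have ha1 : 0 < a 1 := lt_of_le_of_lt (mul_nonneg hs0 (ha 0)) hcon
  have ha0 : 0 < a 0 := by
    rcases (ha 0).eq_or_lt with h | h
    · exfalso
      have h1 := hc 0
      rw [← h, zero_mul] at h1
      nlinarith
    · exact h
  set q : ℝ := a 1 / a 0 with hq
  have hqs : s < q := by
    rw [hq, lt_div_iff₀ ha0]
    exact hcon
  have hq0 : 0 < q := lt_of_le_of_lt hs0 hqs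
  have key : ∀ k, 0 < a k ∧ q * a k ≤ a (k + 1) := by
    intro k
    induction k with
    | zero =>
      refine ⟨ha0, ?_⟩
      rw [hq, div_mul_cancel₀ _ ha0.ne']
    | succ k ih =>
      obtain ⟨h1, h2⟩ := ih
      have h3 : 0 < a (k + 1) := lt_of_lt_of_le (mul_pos hq0 h1) h2
      refine ⟨h3, ?_⟩
      have h4 := hc k
      have h5 : a k * (q * a (k + 1)) ≤ a k * a (k + 1 + 1) := by
        calc a k * (q * a (k + 1)) = (q * a k) * a (k + 1) := by ring
          _ ≤ a (k + 1) * a (k + 1) := mul_le_mul_of_nonneg_right h2 h3.le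
          _ = a (k + 1) ^ 2 := by ring
          _ ≤ _ := h4
      exact le_of_mul_le_mul_left h5 h1
  have hpow : ∀ k, q ^ k * a 0 ≤ a k := by
    intro k
    induction k with
    | zero => simp
    | succ k ih =>
      calc q ^ (k + 1) * a 0 = q * (q ^ k * a 0) := by ring
        _ ≤ q * a k := mul_le_mul_of_nonneg_left ih hq0.le
        _ ≤ _ := (key k).2
  rcases hs0.eq_or_lt with h | h
  · have h1 := (hpow 1).trans (hb 1)
    rw [← h] at h1
    simp only [pow_one, mul_zero] at h1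
    nlinarith [mul_pos hq0 ha0]
  · have hqs1 : 1 < q / s := (one_lt_div h).mpr hqs
    obtain ⟨k, hk⟩ := pow_unbounded_of_one_lt (C / a 0) hqs1
    have h1 := (hpow k).trans (hb k)
    have hsk : 0 < s ^ k := by positivity
    rw [div_pow, div_lt_div_iff₀ ha0 hsk] at hk
    linarith

/-- Cauchy-Schwarz -/
theorem cs {f h : UQ → ℝ} (hf : BM f) (hh : BM h) :
    (∫ g, f g * h g ∂muQ) ^ 2 ≤ (∫ g, (f g) ^ 2 ∂muQ) * ∫ g, (h g) ^ 2 ∂muQ := by
  have h1 : Integrable (fun g => f g ^ 2) muQ := hf.sq.integrable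
  have h2 : Integrable (fun g => h g ^ 2) muQ := hh.sq.integrable
  have h3 : Integrable (fun g => f g * h g) muQ := (hf.mul hh).integrable
  have key : ∀ x : ℝ, 0 ≤ (∫ g, (f g) ^ 2 ∂muQ) * (x * x) + (2 * ∫ g, f g * h g ∂muQ) * x +
      ∫ g, (h g) ^ 2 ∂muQ := by
    intro x
    have e : (∫ g, (f g) ^ 2 ∂muQ) * (x * x) + (2 * ∫ g, f g * h g ∂muQ) * x +
        ∫ g, (h g) ^ 2 ∂muQ = ∫ g, (x * f g + h g) ^ 2 ∂muQ := by
      have : ∀ g, (x * f g + h g) ^ 2 = (x * x) * (f g) ^ 2 + (2 * x) * (f g * h g) + (h g) ^ 2 := by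
        intro g; ring
      simp only [this]
      have h4 : Integrable (fun g => x * x * f g ^ 2) muQ := h1.const_mul _
      have h5 : Integrable (fun g => 2 * x * (f g * h g)) muQ := h3.const_mul _
      have h6 : Integrable (fun g => x * x * f g ^ 2 + 2 * x * (f g * h g)) muQ := h4.add h5
      rw [integral_add h6 h2, integral_add h4 h5, integral_const_mul, integral_const_mul]
      ring
    rw [e]
    exact integral_nonneg fun g => sq_nonneg _
  have hd := discrim_le_zero key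
  unfold discrim at hd
  nlinarith

theorem gap_of_decay {f : UQ → ℝ} (hf : BM f) (K r : ℝ) (hr : 0 ≤ r)
    (h : ∀ k g, |(Tf^[k] f) g| ≤ K * r ^ k) :
    ∫ g, (Tf f g) ^ 2 ∂muQ ≤ r ^ 2 * ∫ g, (f g) ^ 2 ∂muQ := by
  haveI : IsProbabilityMeasure muQ := muQ_prob'
  have key := logconv (fun k => ∫ g, ((Tf^[k] f) g) ^ 2 ∂muQ)
    (fun k => integral_nonneg fun g => sq_nonneg _) ?_ (K ^ 2) r hr ?_
  · simpa using key
  · intro k
    have e : ∫ g, ((Tf^[k + 1] f) g) ^ 2 ∂muQ =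
        ∫ g, (Tf^[k] f) g * (Tf^[k + 2] f) g ∂muQ := by
      have h1 := Tf_selfadj (hf.iter k) (hf.iter (k + 1))
      rw [← Function.iterate_succ_apply' Tf k f, ← Function.iterate_succ_apply' Tf (k + 1) f] at h1
      rw [← h1]
      refine integral_congr_ae (Filter.Eventually.of_forall fun g => ?_)
      simp only [Nat.succ_eq_add_one]
      ring
    show (∫ g, ((Tf^[k + 1] f) g) ^ 2 ∂muQ) ^ 2 ≤ _
    rw [e]
    exact cs (hf.iter k) (hf.iter (k + 2))
  · intro k
    calc ∫ g, ((Tf^[k] f) g) ^ 2 ∂muQ ≤ ∫ _g : UQ, K ^ 2 * (r ^ 2) ^ k ∂muQ := by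
          refine integral_mono ((hf.iter k).sq.integrable) (integrable_const _) fun g => ?_
          show ((Tf^[k] f) g) ^ 2 ≤ K ^ 2 * (r ^ 2) ^ k
          have h1 := h k g
          have h2 : ((Tf^[k] f) g) ^ 2 ≤ (K * r ^ k) ^ 2 := by
            rw [← sq_abs]
            exact pow_le_pow_left₀ (abs_nonneg _) h1 2
          calc _ ≤ (K * r ^ k) ^ 2 := h2
            _ = K ^ 2 * (r ^ 2) ^ k := by rw [mul_pow, ← pow_mul, ← pow_mul, mul_comm k 2]
      _ = K ^ 2 * (r ^ 2) ^ k := by simp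

end BorelEq.GapT
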