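import Pool.Agent.Lib.MP_75103d_lc.A_MuBall

/-! MP_75103d_lc, part (A): basic facts on `muQ` (to be used in `IGap`). -/

set_option autoImplicit false

open MeasureTheory Set

namespace BorelEq.GapT

open scoped Quaternion Pointwise

theorem muQ_prob' : IsProbabilityMeasure muQ := by
  have h0 : (volume : Measure ℍ[ℝ]).toSphere univ ≠ 0 := by
    rw [Ne, Measure.measure_univ_eq_zero]
    exact Measure.toSphere_ne_zero _
  have h1 : (volume : Measure ℍ[ℝ]).toSphere univ ≠ ⊤ := measure_ne_top _ _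
  refine ⟨?_⟩
  unfold muQ
  rw [Measure.smul_apply, smul_eq_mul, ENNReal.inv_mul_cancel h0 h1]

/-- a linear isometry preserves the surface measure -/
private theorem A_Mu_mp (L : ℍ[ℝ] ≃ₗᵢ[ℝ] ℍ[ℝ]) (f : UQ → UQ) (hf : ∀ g : UQ, (f g : ℍ[ℝ]) = L g) :
    MeasurePreserving f (volume : Measure ℍ[ℝ]).toSphere (volume : Measure ℍ[ℝ]).toSphere := by
  have hc : Continuous f := by
    rw [continuous_induced_rng]
    have : (Subtype.val ∘ f) = fun g : UQ => L (g : ℍ[ℝ]) := funext hf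
    rw [this]
    exact L.continuous.comp continuous_subtype_val
  refine ⟨hc.measurable, ?_⟩
  refine Measure.ext fun s hs => ?_
  rw [Measure.map_apply hc.measurable hs, Measure.toSphere_apply' _ (hc.measurable hs),
    Measure.toSphere_apply' _ hs]
  have key : (Ioo (0 : ℝ) 1 • ((fun g : UQ => (g : ℍ[ℝ])) '' (f ⁻¹' s)) : Set ℍ[ℝ]) =
      L ⁻¹' (Ioo (0 : ℝ) 1 • ((fun g : UQ => (g : ℍ[ℝ])) '' s)) := by
    ext q
    simp only [Set.mem_smul, Set.mem_image, Set.mem_preimage]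
    constructor
    · rintro ⟨r, hr, _, ⟨g, hg, rfl⟩, rfl⟩
      refine ⟨r, hr, _, ⟨f g, hg, rfl⟩, ?_⟩
      rw [hf, map_smul]
    · rintro ⟨r, hr, _, ⟨h, hh, rfl⟩, hq⟩
      have hn : L.symm (h : ℍ[ℝ]) ∈ Metric.sphere (0 : ℍ[ℝ]) 1 := by
        rw [mem_sphere_zero_iff_norm, LinearIsometryEquiv.norm_map]
        exact mem_sphere_zero_iff_norm.mp h.2
      refine ⟨r, hr, L.symm h, ⟨⟨L.symm h, hn⟩, ?_, rfl⟩, ?_⟩
      · have : f ⟨L.symm h, hn⟩ = h := by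
          apply Subtype.ext
          rw [hf]
          simp
        rw [this]
        exact hh
      · apply L.injective
        rw [map_smul, ← hq]
        simp
  have hm := L.measurePreserving.measure_preimage_emb L.toHomeomorph.measurableEmbedding
    (Ioo (0 : ℝ) 1 • ((fun g : UQ => (g : ℍ[ℝ])) '' s))
  have hm' : volume (Ioo (0 : ℝ) 1 • ((fun g : UQ => (g : ℍ[ℝ])) '' (f ⁻¹' s)) : Set ℍ[ℝ]) =
      volume (Ioo (0 : ℝ) 1 • ((fun g : UQ => (g : ℍ[ℝ])) '' s) : Set ℍ[ℝ]) := by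
    rw [key]; exact hm
  exact congrArg _ hm'

private theorem A_Mu_inv_coe (u : UQ) : ((u⁻¹ : UQ) : ℍ[ℝ]) * (u : ℍ[ℝ]) = 1 := by
  have h : ((u⁻¹ * u : UQ) : ℍ[ℝ]) = ((1 : UQ) : ℍ[ℝ]) := by rw [inv_mul_cancel]
  exact h

private theorem A_Mu_coe_inv (u : UQ) : (u : ℍ[ℝ]) * ((u⁻¹ : UQ) : ℍ[ℝ]) = 1 := by
  have h : ((u * u⁻¹ : UQ) : ℍ[ℝ]) = ((1 : UQ) : ℍ[ℝ]) := by rw [mul_inv_cancel]
  exact h

private theorem A_Mu_norm (u : UQ) : ‖(u : ℍ[ℝ])‖ = 1 := mem_sphere_zero_iff_norm.mp u.2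

/-- left multiplication by a unit quaternion -/
private noncomputable def A_Mu_L (u : UQ) : ℍ[ℝ] ≃ₗᵢ[ℝ] ℍ[ℝ] where
  toFun q := (u : ℍ[ℝ]) * q
  invFun q := ((u⁻¹ : UQ) : ℍ[ℝ]) * q
  map_add' a b := mul_add _ _ _
  map_smul' r a := mul_smul_comm _ _ _
  left_inv q := by
    show ((u⁻¹ : UQ) : ℍ[ℝ]) * ((u : ℍ[ℝ]) * q) = q
    rw [← mul_assoc, A_Mu_inv_coe, one_mul]
  right_inv q := by
    show (u : ℍ[ℝ]) * (((u⁻¹ : UQ) : ℍ[ℝ]) * q) = q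
    rw [← mul_assoc, A_Mu_coe_inv, one_mul]
  norm_map' q := by
    show ‖(u : ℍ[ℝ]) * q‖ = ‖q‖
    rw [norm_mul, A_Mu_norm, one_mul]

/-- right multiplication by a unit quaternion -/
private noncomputable def A_Mu_R (u : UQ) : ℍ[ℝ] ≃ₗᵢ[ℝ] ℍ[ℝ] where
  toFun q := q * (u : ℍ[ℝ])
  invFun q := q * ((u⁻¹ : UQ) : ℍ[ℝ])
  map_add' a b := add_mul _ _ _
  map_smul' r a := smul_mul_assoc _ _ _
  left_inv q := by
    show q * (u : ℍ[ℝ]) * ((u⁻¹ : UQ) : ℍ[ℝ]) = q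
    rw [mul_assoc, A_Mu_coe_inv, mul_one]
  right_inv q := by
    show q * ((u⁻¹ : UQ) : ℍ[ℝ]) * (u : ℍ[ℝ]) = q
    rw [mul_assoc, A_Mu_inv_coe, mul_one]
  norm_map' q := by
    show ‖q * (u : ℍ[ℝ])‖ = ‖q‖
    rw [norm_mul, A_Mu_norm, mul_one]

theorem muQ_left' (u : UQ) : MeasurePreserving (fun g : UQ => u * g) muQ muQ :=
  (A_Mu_mp (A_Mu_L u) (fun g : UQ => u * g) (fun _ => rfl)).smul_measure _

theorem muQ_right' (u : UQ) : MeasurePreserving (fun g : UQ => g * u) muQ muQ :=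
  (A_Mu_mp (A_Mu_R u) (fun g : UQ => g * u) (fun _ => rfl)).smul_measure _

theorem muQ_ball' : ∃ c : ℝ, 0 < c ∧ ∀ δ : ℝ, 0 < δ → δ ≤ 1 →
    c * δ ^ 3 ≤ (muQ {g : UQ | nrmQ g < δ}).toReal := muQ_ball0

end BorelEq.GapT
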