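import Pool.Agent.Lib.MP_75103d_lc.A_TDefs
import Pool.Agent.Lib.MP_75103d_lc.A_Mu

/-!
MP_75103d_lc, part (A), L2 block (helper15): the averaging operator on bounded measurable
functions on the unit quaternions.
-/

set_option autoImplicit false

open MeasureTheory Set Matrix
open scoped Quaternion

namespace BorelEq.GapT

/-- averaging operator on functions -/
noncomputable def Tf (f : UQ → ℝ) (g : UQ) : ℝ := (∑ i, f (bQ i * g)) / 6

/-- bounded measurable functions -/
def BM (f : UQ → ℝ) : Prop := Measurable f ∧ ∃ C : ℝ, ∀ g, |f g| ≤ C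

/-- the kernel `(1 + Re g)^L` -/
noncomputable def FL (L : ℕ) (g : UQ) : ℝ := (1 + (g : ℍ[ℝ]).re) ^ L

/-- convolution with the kernel -/
noncomputable def conv (L : ℕ) (f : UQ → ℝ) (x : UQ) : ℝ := ∫ y, f y * FL L (y⁻¹ * x) ∂muQ

/-- matrix coefficient -/
noncomputable def mc (N : ℕ) (C : Matrix (Ix N) (Ix N) ℂ) (g : UQ) : ℝ :=
  ((rho N g * C).trace).re

/-- Fourier coefficient of `f` -/
noncomputable def Cn (N : ℕ) (f : UQ → ℝ) : Matrix (Ix N) (Ix N) ℂ :=
  fun x y => ∫ g : UQ, (f g : ℂ) * rho N g⁻¹ x y ∂muQ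

end BorelEq.GapT
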