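import Pool.Agent.Lib.MP_75103d_lc.A_LBasic2

/-!
MP_75103d_lc, part (A), L2 block (helper15): density of continuous functions.
-/

set_option autoImplicit false

open MeasureTheory Set Matrix
open scoped Quaternion

namespace BorelEq.GapT

/-- density of continuous functions (`MeasureTheory.MemLp.exists_boundedContinuous_eLpNorm_sub_le`
or `MeasureTheory.MemLp.exists_hasCompactSupport_eLpNorm_sub_le`) -/
theorem dens {f : UQ → ℝ} (hf : BM f) {ε : ℝ} (hε : 0 < ε) :
    ∃ h : UQ → ℝ, Continuous h ∧ ∫ g, (f g - h g) ^ 2 ∂muQ ≤ ε ^ 2 := by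
  have hP : IsProbabilityMeasure muQ := muQ_prob'
  obtain ⟨hm, C, hC⟩ := hf
  have hL : MemLp f (ENNReal.ofReal 2) muQ :=
    MemLp.of_bound hm.aestronglyMeasurable C (Filter.Eventually.of_forall fun g => by
      simpa [Real.norm_eq_abs] using hC g)
  obtain ⟨h, hh, -⟩ := hL.exists_boundedContinuous_integral_rpow_sub_le (by norm_num)
    (ε := ε ^ 2) (by positivity)
  refine ⟨h, h.continuous, ?_⟩
  refine le_trans (le_of_eq ?_) hh
  refine integral_congr_ae (Filter.Eventually.of_forall fun g => ?_)
  simp only [Real.norm_eq_abs, Real.rpow_two, sq_abs]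

end BorelEq.GapT
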