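import Pool.Agent.Lib.MP_75103d_lc.A_LBasic

/-!
MP_75103d_lc, part (A), L2 block (helper15): the convolution with the kernel is a sum of matrix
coefficients killing the invariants.
-/

set_option autoImplicit false

open MeasureTheory Set Matrix
open scoped Quaternion

namespace BorelEq.GapT

theorem FL_cont (L : ℕ) : Continuous (FL L) := by
  unfold FL
  exact (continuous_const.add (Quaternion.continuous_re.comp continuous_subtype_val)).pow L

theorem FL_nonneg (L : ℕ) (g : UQ) : 0 ≤ FL L g := by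
  unfold FL
  have h := normSq_UQ g
  rw [Quaternion.normSq_def'] at h
  apply pow_nonneg
  nlinarith [sq_nonneg (g : ℍ[ℝ]).imI, sq_nonneg (g : ℍ[ℝ]).imJ, sq_nonneg (g : ℍ[ℝ]).imK,
    sq_nonneg ((g : ℍ[ℝ]).re + 1)]

theorem FL_inv (L : ℕ) (g : UQ) : FL L g⁻¹ = FL L g := by
  unfold FL
  rw [coe_inv_UQ]
  simp

private theorem rho_inv_cont {N : ℕ} (x y : Ix N) : Continuous (fun g : UQ => rho N g⁻¹ x y) :=
  (rho_cont N x y).comp continuous_inv

private theorem ker_int {N : ℕ} {f : UQ → ℝ} (hf : BM f) (x y : Ix N) :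
    Integrable (fun g : UQ => (f g : ℂ) * rho N g⁻¹ x y) muQ := by
  have h1 : Integrable (fun g : UQ => (f g : ℂ)) muQ := hf.integrable.ofReal
  obtain ⟨K, hK⟩ := isCompact_univ.exists_bound_of_continuousOn
    (rho_inv_cont (N := N) x y).continuousOn
  have h2 := h1.bdd_mul (c := K) (rho_inv_cont (N := N) x y).aestronglyMeasurable
    (Filter.Eventually.of_forall fun g => hK g (Set.mem_univ g))
  refine h2.congr (Filter.Eventually.of_forall fun g => ?_)
  simp [mul_comm]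

/-- the Fourier coefficient of a function of mean zero kills the invariants -/
theorem Cn_kills {N : ℕ} {f : UQ → ℝ} (hf : BM f) (h0 : ∫ g, f g ∂muQ = 0) (z : Ix N → ℂ)
    (hz : ∀ g : UQ, rho N g *ᵥ z = z) : Cn N f *ᵥ z = 0 := by
  funext x
  simp only [Matrix.mulVec, dotProduct, Cn, Pi.zero_apply]
  have h1 : ∀ y, (∫ g : UQ, (f g : ℂ) * rho N g⁻¹ x y ∂muQ) * z y =
      ∫ g : UQ, (f g : ℂ) * rho N g⁻¹ x y * z y ∂muQ := fun y => (integral_mul_const _ _).symm
  simp only [h1]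
  rw [← integral_finsetSum _ (fun y _ => (ker_int hf x y).mul_const _)]
  have h2 : ∀ g : UQ, ∑ y, (f g : ℂ) * rho N g⁻¹ x y * z y = (f g : ℂ) * z x := by
    intro g
    have h3 := congrFun (hz g⁻¹) x
    simp only [Matrix.mulVec, dotProduct] at h3
    rw [← h3, Finset.mul_sum]
    exact Finset.sum_congr rfl fun i _ => by ring
  simp only [h2]
  rw [integral_mul_const]
  have h4 : ∫ g : UQ, (f g : ℂ) ∂muQ = ((∫ g, f g ∂muQ : ℝ) : ℂ) := integral_ofReal
  rw [h4, h0]
  simp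

/-- binomial expansion of the kernel, `(2 Re g)^n = tr (rho n g)` (`rho_trace`, `rho_mul`) -/
theorem conv_eq {f : UQ → ℝ} (hf : BM f) (L : ℕ) :
    conv L f = fun x => ∑ n ∈ Finset.range (L + 1),
      ((L.choose n : ℝ) * (1 / 2) ^ n) * mc n (Cn n f) x := by
  funext x
  have hmc : ∀ n, mc n (Cn n f) x = ∫ y, f y * (2 * ((y⁻¹ * x : UQ) : ℍ[ℝ]).re) ^ n ∂muQ := by
    intro n
    unfold mc
    have h1 : (rho n x * Cn n f).trace =
        ∫ y : UQ, (f y : ℂ) * (rho n (y⁻¹ * x)).trace ∂muQ := by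
      simp only [Matrix.trace, Matrix.diag_apply, Matrix.mul_apply, Cn]
      have h2 : ∀ a b : Ix n, rho n x a b * (∫ g : UQ, (f g : ℂ) * rho n g⁻¹ b a ∂muQ) =
          ∫ g : UQ, rho n x a b * ((f g : ℂ) * rho n g⁻¹ b a) ∂muQ :=
        fun a b => (integral_const_mul _ _).symm
      simp only [h2]
      have h3 : ∀ a : Ix n, ∑ b, ∫ g : UQ, rho n x a b * ((f g : ℂ) * rho n g⁻¹ b a) ∂muQ =
          ∫ g : UQ, ∑ b, rho n x a b * ((f g : ℂ) * rho n g⁻¹ b a) ∂muQ := fun a =>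
        (integral_finsetSum _ (fun b _ => (ker_int hf b a).const_mul _)).symm
      simp only [h3]
      have h3' : ∑ a, ∫ g : UQ, ∑ b, rho n x a b * ((f g : ℂ) * rho n g⁻¹ b a) ∂muQ =
          ∫ g : UQ, ∑ a, ∑ b, rho n x a b * ((f g : ℂ) * rho n g⁻¹ b a) ∂muQ :=
        (integral_finsetSum Finset.univ (fun a _ =>
          integrable_finsetSum Finset.univ (fun b _ => (ker_int hf b a).const_mul _))).symm
      rw [h3']
      refine integral_congr_ae (Filter.Eventually.of_forall fun y => ?_)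
      simp only [rho_mul, Matrix.mul_apply]
      rw [Finset.mul_sum, Finset.sum_comm]
      refine Finset.sum_congr rfl fun a _ => ?_
      rw [Finset.mul_sum]
      exact Finset.sum_congr rfl fun b _ => by ring
    rw [h1]
    have h4 : ∀ y : UQ, (f y : ℂ) * (rho n (y⁻¹ * x)).trace =
        ((f y * (2 * ((y⁻¹ * x : UQ) : ℍ[ℝ]).re) ^ n : ℝ) : ℂ) := by
      intro y
      rw [rho_trace]
      push_cast
      ring
    simp only [h4]
    have h5 : ∫ y : UQ, ((f y * (2 * ((y⁻¹ * x : UQ) : ℍ[ℝ]).re) ^ n : ℝ) : ℂ) ∂muQ =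
        ((∫ y, f y * (2 * ((y⁻¹ * x : UQ) : ℍ[ℝ]).re) ^ n ∂muQ : ℝ) : ℂ) := integral_ofReal
    rw [h5, Complex.ofReal_re]
  simp only [hmc]
  unfold conv FL
  have hcont : ∀ n : ℕ, Continuous (fun y : UQ => (2 * ((y⁻¹ * x : UQ) : ℍ[ℝ]).re) ^ n) := by
    intro n
    exact (continuous_const.mul (Quaternion.continuous_re.comp (continuous_subtype_val.comp
      (continuous_inv.mul continuous_const)))).pow n
  have hint : ∀ n : ℕ, Integrable (fun y : UQ => f y * (2 * ((y⁻¹ * x : UQ) : ℍ[ℝ]).re) ^ n) muQ :=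
    fun n => (hf.mul (BM.of_cont (hcont n))).integrable
  have h6 : ∀ n : ℕ, ((L.choose n : ℝ) * (1 / 2) ^ n) *
      (∫ y, f y * (2 * ((y⁻¹ * x : UQ) : ℍ[ℝ]).re) ^ n ∂muQ) =
      ∫ y, ((L.choose n : ℝ) * (1 / 2) ^ n) * (f y * (2 * ((y⁻¹ * x : UQ) : ℍ[ℝ]).re) ^ n) ∂muQ :=
    fun n => (integral_const_mul _ _).symm
  simp only [h6]
  rw [← integral_finsetSum _ (fun n _ => (hint n).const_mul _)]
  refine integral_congr_ae (Filter.Eventually.of_forall fun y => ?_)
  simp only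
  rw [add_comm, add_pow, Finset.mul_sum]
  refine Finset.sum_congr rfl fun n _ => ?_
  rw [mul_pow, one_pow]
  have h7 : ((1 / 2 : ℝ)) ^ n * 2 ^ n = 1 := by rw [← mul_pow]; norm_num
  linear_combination (-(L.choose n : ℝ) * f y * ((y⁻¹ * x : UQ) : ℍ[ℝ]).re ^ n) * h7

end BorelEq.GapT
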