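import Pool.Agent.Lib.MP_75103d_lc.A_LConv
import Pool.Agent.Lib.MP_75103d_lc.A_LCoef
import Pool.Agent.Lib.MP_75103d_lc.A_LKer

/-!
MP_75103d_lc, part (A), L2 block (helper15): gap inequality for the convolutions.
-/

set_option autoImplicit false

open MeasureTheory Set Matrix
open scoped Quaternion

namespace BorelEq.GapT

theorem Tf_iter_sum {ι : Type*} (s : Finset ι) (c : ι → ℝ) (F : ι → UQ → ℝ) (k : ℕ) :
    Tf^[k] (fun x => ∑ n ∈ s, c n * F n x) = fun x => ∑ n ∈ s, c n * (Tf^[k] (F n)) x := by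
  induction k generalizing F with
  | zero => rfl
  | succ k ih =>
    have h : Tf (fun x => ∑ n ∈ s, c n * F n x) = fun x => ∑ n ∈ s, c n * Tf (F n) x := by
      funext x
      simp only [Tf]
      rw [Finset.sum_comm, Finset.sum_div]
      refine Finset.sum_congr rfl fun n _ => ?_
      rw [← Finset.mul_sum, mul_div_assoc]
    rw [Function.iterate_succ_apply, h, ih]
    simp only [Function.iterate_succ_apply]

theorem conv_cont {f : UQ → ℝ} (hf : BM f) (L : ℕ) : Continuous (conv L f) := by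
  rw [conv_eq hf]
  exact continuous_finsetSum _ fun n _ => continuous_const.mul (mc_cont _)

theorem conv_decay {r : ℝ} (hr0 : 0 ≤ r)
    (hr : ∀ (N : ℕ) (lam : ℝ) (v : Ix N → ℂ), IsEig N lam v → |lam| ≤ r) {f : UQ → ℝ} (hf : BM f)
    (h0 : ∫ g, f g ∂muQ = 0) (L : ℕ) :
    ∃ K : ℝ, ∀ (k : ℕ) (g : UQ), |(Tf^[k] (conv L f)) g| ≤ K * r ^ k := by
  have h1 : ∀ n : ℕ, ∃ K : ℝ, ∀ (k : ℕ) (g : UQ), |(Tf^[k] (mc n (Cn n f))) g| ≤ K * r ^ k :=
    fun n => mc_decay hr0 (hr n) (Cn n f) (Cn_kills hf h0)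
  choose K hK using h1
  refine ⟨∑ n ∈ Finset.range (L + 1), |((L.choose n : ℝ) * (1 / 2) ^ n)| * K n, fun k g => ?_⟩
  rw [conv_eq hf, Tf_iter_sum, Finset.sum_mul]
  refine (Finset.abs_sum_le_sum_abs _ _).trans (Finset.sum_le_sum fun n _ => ?_)
  rw [abs_mul, mul_assoc]
  exact mul_le_mul_of_nonneg_left (hK n k g) (abs_nonneg _)

theorem conv_gap {r : ℝ} (hr0 : 0 ≤ r)
    (hr : ∀ (N : ℕ) (lam : ℝ) (v : Ix N → ℂ), IsEig N lam v → |lam| ≤ r) {f : UQ → ℝ} (hf : BM f)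
    (h0 : ∫ g, f g ∂muQ = 0) (L : ℕ) :
    ∫ g, (Tf (conv L f) g) ^ 2 ∂muQ ≤ r ^ 2 * ∫ g, (conv L f g) ^ 2 ∂muQ := by
  obtain ⟨K, hK⟩ := conv_decay hr0 hr hf h0 L
  exact gap_of_decay (BM.of_cont (conv_cont hf L)) K r hr0 hK

end BorelEq.GapT
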