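import Pool.Agent.Lib.MP_75103d_lc.A_LGapC
import Pool.Agent.Lib.MP_75103d_lc.A_LDens

/-!
MP_75103d_lc, part (A), L2 block (helper15): gap inequality for bounded measurable functions of mean zero.
-/

set_option autoImplicit false

open MeasureTheory Set Matrix
open scoped Quaternion

namespace BorelEq.GapT

private theorem A_LGap2_eps {r : ℝ} (hr0 : 0 ≤ r)
    (hr : ∀ (N : ℕ) (lam : ℝ) (v : Ix N → ℂ), IsEig N lam v → |lam| ≤ r) {f : UQ → ℝ}
    (hf : BM f) (h0 : ∫ g, f g ∂muQ = 0) {ε : ℝ} (hε : 0 < ε) :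
    Real.sqrt (∫ g, (Tf f g) ^ 2 ∂muQ) ≤
      r * Real.sqrt (∫ g, (f g) ^ 2 ∂muQ) + 2 * (r + 1) * ε := by
  haveI : IsProbabilityMeasure muQ := muQ_prob'
  obtain ⟨h, hc, hh⟩ := dens hf hε
  have hB : BM h := BM.of_cont hc
  set c : ℝ := ∫ g, h g ∂muQ with hcdef
  have hfh : BM (fun g => f g - h g) := hf.sub hB
  -- the constant is small
  have hcc : c ^ 2 ≤ ε ^ 2 := by
    have h1 : ∫ g, (f g - h g) ∂muQ = -c := by
      rw [integral_sub hf.integrable hB.integrable, h0, zero_sub]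
    have h2 := sq_mean_le hfh
    rw [h1] at h2
    have h3 : (-c) ^ 2 = c ^ 2 := by ring
    rw [h3] at h2
    exact h2.trans hh
  have hcc' : Real.sqrt (c ^ 2) ≤ ε := Real.sqrt_le_iff.2 ⟨hε.le, hcc⟩
  -- the mean-zero approximation
  have hcont0 : Continuous (fun g => h g - c) := hc.sub continuous_const
  have hB0 : BM (fun g => h g - c) := BM.of_cont hcont0
  have hmean0 : ∫ g, (h g - c) ∂muQ = 0 := by
    rw [integral_sub hB.integrable (integrable_const c), integral_const]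
    simp [← hcdef]
  have hfh0 : BM (fun g => f g - (h g - c)) := hf.sub hB0
  have hd : Real.sqrt (∫ g, (f g - (h g - c)) ^ 2 ∂muQ) ≤ 2 * ε := by
    have h1 := l2_tri hfh0 hfh
    have h2 : (fun g => ((f g - (h g - c)) - (f g - h g)) ^ 2) = fun _ : UQ => c ^ 2 := by
      funext g; ring
    have h3 : ∫ g, ((f g - (h g - c)) - (f g - h g)) ^ 2 ∂muQ = c ^ 2 := by
      rw [h2, integral_const]; simp
    have h4 : Real.sqrt (∫ g, (f g - h g) ^ 2 ∂muQ) ≤ ε := Real.sqrt_le_iff.2 ⟨hε.le, hh⟩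
    rw [h3] at h1
    linarith
  -- contraction
  have hT : Real.sqrt (∫ g, (Tf f g - Tf (fun g => h g - c) g) ^ 2 ∂muQ) ≤ 2 * ε := by
    have h1 := Tf_contr hfh0
    rw [Tf_sub] at h1
    exact (Real.sqrt_le_sqrt h1).trans hd
  have hT0 : Real.sqrt (∫ g, (Tf (fun g => h g - c) g) ^ 2 ∂muQ) ≤
      r * Real.sqrt (∫ g, (h g - c) ^ 2 ∂muQ) := by
    have h1 := gap_cont hr0 hr hcont0 hmean0
    have h2 := Real.sqrt_le_sqrt h1
    rwa [Real.sqrt_mul (sq_nonneg r), Real.sqrt_sq hr0] at h2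
  have hN0 : Real.sqrt (∫ g, (h g - c) ^ 2 ∂muQ) ≤
      Real.sqrt (∫ g, (f g) ^ 2 ∂muQ) + 2 * ε := by
    have h1 := l2_tri hB0 hf
    have h2 : (fun g => ((h g - c) - f g) ^ 2) = fun g : UQ => (f g - (h g - c)) ^ 2 := by
      funext g; ring
    rw [h2] at h1
    linarith
  have hmain := l2_tri hf.Tf hB0.Tf
  have := mul_le_mul_of_nonneg_left hN0 hr0
  nlinarith [hmain, hT, hT0, this]

theorem gap_BM {r : ℝ} (hr0 : 0 ≤ r)
    (hr : ∀ (N : ℕ) (lam : ℝ) (v : Ix N → ℂ), IsEig N lam v → |lam| ≤ r) {f : UQ → ℝ}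
    (hf : BM f) (h0 : ∫ g, f g ∂muQ = 0) :
    ∫ g, (Tf f g) ^ 2 ∂muQ ≤ r ^ 2 * ∫ g, (f g) ^ 2 ∂muQ := by
  have hI1 : 0 ≤ ∫ g, (Tf f g) ^ 2 ∂muQ := integral_nonneg fun g => sq_nonneg _
  have hI2 : 0 ≤ ∫ g, (f g) ^ 2 ∂muQ := integral_nonneg fun g => sq_nonneg _
  have key : Real.sqrt (∫ g, (Tf f g) ^ 2 ∂muQ) ≤ r * Real.sqrt (∫ g, (f g) ^ 2 ∂muQ) := by
    refine le_of_forall_pos_le_add fun δ hδ => ?_
    have hr1 : 0 < 2 * (r + 1) := by linarith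
    have := A_LGap2_eps hr0 hr hf h0 (div_pos hδ hr1)
    rwa [mul_div_cancel₀ δ hr1.ne'] at this
  have h1 := pow_le_pow_left₀ (Real.sqrt_nonneg _) key 2
  rwa [Real.sq_sqrt hI1, mul_pow, Real.sq_sqrt hI2] at h1

end BorelEq.GapT
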