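import Pool.Agent.Lib.MP_75103d_lc.A_LGap1
import Pool.Agent.Lib.MP_75103d_lc.A_LApx
import Pool.Agent.Lib.MP_75103d_lc.A_LBasic2

/-!
MP_75103d_lc, part (A), L2 block (helper15): gap inequality for continuous functions.
-/

set_option autoImplicit false

open MeasureTheory Set Matrix
open scoped Quaternion

namespace BorelEq.GapT

theorem gap_cont {r : ℝ} (hr0 : 0 ≤ r)
    (hr : ∀ (N : ℕ) (lam : ℝ) (v : Ix N → ℂ), IsEig N lam v → |lam| ≤ r) {f : UQ → ℝ}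
    (hf : Continuous f) (h0 : ∫ g, f g ∂muQ = 0) :
    ∫ g, (Tf f g) ^ 2 ∂muQ ≤ r ^ 2 * ∫ g, (f g) ^ 2 ∂muQ := by
  haveI : IsProbabilityMeasure muQ := muQ_prob'
  have hfB : BM f := BM.of_cont hf
  have main : Real.sqrt (∫ g, (Tf f g) ^ 2 ∂muQ) ≤ r * Real.sqrt (∫ g, (f g) ^ 2 ∂muQ) := by
    refine le_of_forall_pos_le_add fun δ hδ => ?_
    set ε : ℝ := δ / (r + 1) with hε
    have hr1 : 0 < r + 1 := by linarith
    have hε0 : 0 < ε := by positivity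
    have hεδ : (r + 1) * ε = δ := by rw [hε]; field_simp
    obtain ⟨L, hL⟩ := apx hf hε0
    set a : ℝ := ∫ g, FL L g ∂muQ with ha
    set h : UQ → ℝ := fun x => conv L f x / a with hh
    have hhc : Continuous h := (conv_cont hfB L).div_const a
    have hhB : BM h := BM.of_cont hhc
    have hTh : Tf h = fun g => Tf (conv L f) g / a := by
      funext g
      simp only [Tf, hh]
      rw [← Finset.sum_div]
      ring
    have g1 : ∫ g, (Tf h g) ^ 2 ∂muQ ≤ r ^ 2 * ∫ g, (h g) ^ 2 ∂muQ := by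
      have hg := conv_gap hr0 hr hfB h0 L
      rw [hTh]
      simp only [hh, div_pow]
      rw [integral_div, integral_div, ← mul_div_assoc]
      exact div_le_div_of_nonneg_right hg (sq_nonneg a)
    have g2 : Real.sqrt (∫ g, (Tf h g) ^ 2 ∂muQ) ≤ r * Real.sqrt (∫ g, (h g) ^ 2 ∂muQ) := by
      calc Real.sqrt (∫ g, (Tf h g) ^ 2 ∂muQ) ≤ Real.sqrt (r ^ 2 * ∫ g, (h g) ^ 2 ∂muQ) :=
            Real.sqrt_le_sqrt g1
        _ = r * Real.sqrt (∫ g, (h g) ^ 2 ∂muQ) := by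
            rw [Real.sqrt_mul (sq_nonneg r), Real.sqrt_sq hr0]
    have hsmall : ∀ u : UQ → ℝ, BM u → (∀ x, |u x| ≤ ε) →
        Real.sqrt (∫ g, (u g) ^ 2 ∂muQ) ≤ ε := by
      intro u hu hux
      refine Real.sqrt_le_iff.mpr ⟨hε0.le, ?_⟩
      calc ∫ g, (u g) ^ 2 ∂muQ ≤ ∫ _g : UQ, ε ^ 2 ∂muQ := by
            refine integral_mono hu.sq.integrable (integrable_const _) fun g => ?_
            show (u g) ^ 2 ≤ ε ^ 2
            rw [← sq_abs]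
            exact pow_le_pow_left₀ (abs_nonneg _) (hux g) 2
        _ = ε ^ 2 := by simp
    have g3 : Real.sqrt (∫ g, (f g - h g) ^ 2 ∂muQ) ≤ ε := by
      refine hsmall _ (hfB.sub hhB) fun x => ?_
      rw [abs_sub_comm]
      exact hL x
    have g3' : Real.sqrt (∫ g, (h g - f g) ^ 2 ∂muQ) ≤ ε :=
      hsmall _ (hhB.sub hfB) fun x => hL x
    have g4 : Real.sqrt (∫ g, (Tf f g - Tf h g) ^ 2 ∂muQ) ≤ ε := by
      have e : ∫ g, (Tf f g - Tf h g) ^ 2 ∂muQ =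
          ∫ g, (Tf (fun x => f x - h x) g) ^ 2 ∂muQ := by
        rw [Tf_sub f h]
      rw [e]
      exact (Real.sqrt_le_sqrt (Tf_contr (hfB.sub hhB))).trans g3
    have t1 := l2_tri hfB.Tf hhB.Tf
    have t2 := l2_tri hhB hfB
    calc Real.sqrt (∫ g, (Tf f g) ^ 2 ∂muQ) ≤ Real.sqrt (∫ g, (Tf h g) ^ 2 ∂muQ) +
          Real.sqrt (∫ g, (Tf f g - Tf h g) ^ 2 ∂muQ) := t1
      _ ≤ r * Real.sqrt (∫ g, (h g) ^ 2 ∂muQ) + ε := add_le_add g2 g4
      _ ≤ r * (Real.sqrt (∫ g, (f g) ^ 2 ∂muQ) + ε) + ε := by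
          have := mul_le_mul_of_nonneg_left (t2.trans (add_le_add_right g3' _)) hr0
          linarith
      _ = r * Real.sqrt (∫ g, (f g) ^ 2 ∂muQ) + (r + 1) * ε := by ring
      _ = _ := by rw [hεδ]
  have hX : 0 ≤ ∫ g, (Tf f g) ^ 2 ∂muQ := integral_nonneg fun g => sq_nonneg _
  have hY : 0 ≤ ∫ g, (f g) ^ 2 ∂muQ := integral_nonneg fun g => sq_nonneg _
  calc ∫ g, (Tf f g) ^ 2 ∂muQ = (Real.sqrt (∫ g, (Tf f g) ^ 2 ∂muQ)) ^ 2 := (Real.sq_sqrt hX).symm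
    _ ≤ (r * Real.sqrt (∫ g, (f g) ^ 2 ∂muQ)) ^ 2 := pow_le_pow_left₀ (Real.sqrt_nonneg _) main 2
    _ = r ^ 2 * ∫ g, (f g) ^ 2 ∂muQ := by rw [mul_pow, Real.sq_sqrt hY]

end BorelEq.GapT
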