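import Pool.Agent.Lib.MP_75103d_lc.A_LBasic

/-!
MP_75103d_lc, part (A), L2 block (helper15): words of length `m`.
-/

set_option autoImplicit false

open MeasureTheory Set Matrix
open scoped Quaternion

namespace BorelEq.GapT

/-- product of a word in the unit quaternions -/
noncomputable def wQ {m : ℕ} (w : Fin m → Fin 6) : UQ := (List.ofFn (fun t => bQ (w t))).prod

/-- inverse word -/
def wI {m : ℕ} (w : Fin m → Fin 6) : Fin m → Fin 6 := fun t => bI (w t.rev)

theorem wI_wI {m : ℕ} (w : Fin m → Fin 6) : wI (wI w) = w := by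
  funext t
  simp [wI, bI_bI]

private theorem ofFn_rev' {α : Type*} {m : ℕ} (f : Fin m → α) :
    List.ofFn (fun t => f t.rev) = (List.ofFn f).reverse := by
  apply List.ext_getElem
  · simp
  · intro i h1 h2
    simp only [List.length_ofFn] at h1
    rw [List.getElem_reverse, List.getElem_ofFn, List.getElem_ofFn]
    congr 1
    apply Fin.ext
    simp [Fin.rev]
    omega

theorem wQ_wI {m : ℕ} (w : Fin m → Fin 6) : wQ (wI w) = (wQ w)⁻¹ := by
  unfold wQ
  rw [List.prod_inv_reverse, List.map_ofFn, ← ofFn_rev']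
  congr 1
  apply congrArg
  funext t
  simp only [wI, Function.comp_apply]
  exact bQ_inv (w t.rev)

private theorem wQ_cons {m : ℕ} (i : Fin 6) (w : Fin m → Fin 6) :
    wQ (Fin.cons i w : Fin (m + 1) → Fin 6) = bQ i * wQ w := by
  unfold wQ
  rw [List.ofFn_succ, List.prod_cons]
  simp

/-- the average over all words of length `m` is the `m`-th iterate -/
theorem Tf_iter_words (m : ℕ) (f : UQ → ℝ) (g : UQ) :
    (Tf^[m] f) g = (∑ w : Fin m → Fin 6, f (wQ w * g)) / 6 ^ m := by
  induction m generalizing f with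
  | zero =>
    simp [wQ]
  | succ m ih =>
    rw [Function.iterate_succ_apply, ih]
    have h1 : ∑ w : Fin (m + 1) → Fin 6, f (wQ w * g) =
        ∑ w : Fin m → Fin 6, ∑ i : Fin 6, f (bQ i * (wQ w * g)) := by
      rw [← (Fin.consEquiv (fun _ : Fin (m + 1) => Fin 6)).sum_comp, Fintype.sum_prod_type,
        Finset.sum_comm]
      refine Finset.sum_congr rfl fun w _ => Finset.sum_congr rfl fun i _ => ?_
      have h2 : (Fin.consEquiv (fun _ : Fin (m + 1) => Fin 6)) (i, w) =
          (Fin.cons i w : Fin (m + 1) → Fin 6) := rfl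
      rw [h2, wQ_cons, mul_assoc]
    rw [h1]
    simp only [Tf]
    rw [← Finset.sum_div, div_div, pow_succ, mul_comm (6 : ℝ) (6 ^ m)]

end BorelEq.GapT
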