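import Mathlib

/-!
MP_75103d_lc, part (A), tensor block (helper50): binomial coefficients and the final numerics.
-/

set_option autoImplicit false

namespace BorelEq.GapT

theorem centralBinom_lower (n : ℕ) (hn : 1 ≤ n) :
    (4 : ℝ) ^ n ≤ 2 * Real.sqrt n * (n.centralBinom : ℝ) := by
  have key : ∀ m : ℕ, 1 ≤ m → (16 : ℝ) ^ m ≤ 4 * m * (m.centralBinom : ℝ) ^ 2 := by
    intro m hm
    induction m, hm using Nat.le_induction with
    | base =>
      have h1 : Nat.centralBinom 1 = 2 := by decide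
      rw [h1]
      norm_num
    | succ m hm ih =>
      have h1 : ((m : ℝ) + 1) * ((m + 1).centralBinom : ℝ) =
          2 * (2 * m + 1) * (m.centralBinom : ℝ) := by
        exact_mod_cast Nat.succ_mul_centralBinom_succ m
      have hm0 : (0 : ℝ) < (m : ℝ) + 1 := by positivity
      have h2 : ((m + 1).centralBinom : ℝ) = 2 * (2 * m + 1) * (m.centralBinom : ℝ) / (m + 1) := by
        rw [eq_div_iff hm0.ne', ← h1]
        ring
      have h3 : (16 : ℝ) ^ (m + 1) = 16 * 16 ^ m := by ring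
      have h4 : 4 * (((m + 1 : ℕ) : ℝ)) * ((m + 1).centralBinom : ℝ) ^ 2 =
          16 * ((2 * m + 1) ^ 2 * (m.centralBinom : ℝ) ^ 2) / (m + 1) := by
        rw [h2]
        push_cast
        field_simp
        ring
      rw [h3, h4, le_div_iff₀ hm0]
      have h5 : 0 ≤ (m.centralBinom : ℝ) ^ 2 := by positivity
      nlinarith
  have h1 := key n hn
  have h2 : ((4 : ℝ) ^ n) ^ 2 ≤ (2 * Real.sqrt n * (n.centralBinom : ℝ)) ^ 2 := by
    have h3 : ((4 : ℝ) ^ n) ^ 2 = 16 ^ n := by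
      rw [← pow_mul, mul_comm, pow_mul]
      norm_num
    have h4 : (2 * Real.sqrt n * (n.centralBinom : ℝ)) ^ 2 =
        4 * (Real.sqrt n) ^ 2 * (n.centralBinom : ℝ) ^ 2 := by ring
    rw [h3, h4, Real.sq_sqrt (Nat.cast_nonneg n)]
    exact h1
  exact le_of_sq_le_sq h2 (by positivity)

lemma A_TNum_prod (k : ℕ) (hk : 1 ≤ k) (j : ℕ) :
    (2 : ℝ) ^ j * (1 - (j : ℝ) * (j + 1) / (4 * k)) * ((2 * k).choose k : ℝ) ≤
      ((2 * k + j).choose k : ℝ) := by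
  have hk0 : (0 : ℝ) < k := by exact_mod_cast hk
  induction j with
  | zero => simp
  | succ j ih =>
    have h1 : ((2 * k + j).choose k : ℝ) * (2 * k + j + 1) =
        ((2 * k + (j + 1)).choose k : ℝ) * (k + j + 1) := by
      have h := Nat.choose_mul_succ_eq (2 * k + j) k
      have h' : 2 * k + j + 1 - k = k + j + 1 := by omega
      rw [h'] at h
      exact_mod_cast h
    have hden : (0 : ℝ) < (k : ℝ) + j + 1 := by positivity
    have h2 : ((2 * k + (j + 1)).choose k : ℝ) =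
        ((2 * k + j).choose k : ℝ) * ((2 * k + j + 1) / (k + j + 1)) := by
      rw [← mul_div_assoc, eq_div_iff hden.ne', h1]
    have hc0 : (0 : ℝ) ≤ ((2 * k).choose k : ℝ) := Nat.cast_nonneg _
    set a : ℝ := 1 - (j : ℝ) * (j + 1) / (4 * k) with ha
    have ha1 : a ≤ 1 := by
      rw [ha]
      have : 0 ≤ (j : ℝ) * (j + 1) / (4 * k) := by positivity
      linarith
    set y : ℝ := (j + 1) / (2 * (k + j + 1)) with hy
    have hy0 : 0 ≤ y := by positivity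
    have hyx : y ≤ (j + 1) / (2 * k) := by
      rw [hy]
      apply div_le_div_of_nonneg_left (by positivity) (by positivity)
      nlinarith
    have hρ : ((2 * k + j + 1) / (k + j + 1) : ℝ) = 2 * (1 - y) := by
      rw [hy]
      field_simp
      ring
    have hy1 : y ≤ 1 := by
      rw [hy, div_le_one (by positivity)]
      nlinarith
    have ha2 : 1 - ((j + 1 : ℕ) : ℝ) * (((j + 1 : ℕ) : ℝ) + 1) / (4 * k) =
        a - (j + 1) / (2 * k) := by
      rw [ha]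
      push_cast
      field_simp
      ring
    have h3 : a - (j + 1) / (2 * k) ≤ (1 - y) * a := by
      rcases le_total 0 a with h | h
      · nlinarith
      · nlinarith
    rw [h2, ha2, hρ]
    calc (2 : ℝ) ^ (j + 1) * (a - (j + 1) / (2 * k)) * ((2 * k).choose k : ℝ)
        ≤ (2 : ℝ) ^ (j + 1) * ((1 - y) * a) * ((2 * k).choose k : ℝ) :=
          mul_le_mul_of_nonneg_right (mul_le_mul_of_nonneg_left h3 (by positivity)) hc0
      _ = (2 : ℝ) ^ j * a * ((2 * k).choose k : ℝ) * (2 * (1 - y)) := by ring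
      _ ≤ ((2 * k + j).choose k : ℝ) * (2 * (1 - y)) :=
          mul_le_mul_of_nonneg_right ih (by linarith)

/-- `k = 2l²`, `N = l + 2k` -/
theorem choose_diff (l : ℕ) (hl : 1 ≤ l) :
    (2 : ℝ) ^ (l + 2 * (2 * l ^ 2)) / (8 * l * (l + 1)) ≤
      ((l + 2 * (2 * l ^ 2)).choose (2 * l ^ 2) : ℝ) -
        ((l + 2 * (2 * l ^ 2)).choose (2 * l ^ 2 - 1) : ℝ) := by
  have hl0 : (1 : ℝ) ≤ l := by exact_mod_cast hl
  have hlp : (0 : ℝ) < l := by linarith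
  obtain ⟨k, hk⟩ : ∃ k, k = 2 * l ^ 2 := ⟨_, rfl⟩
  have hk1 : 1 ≤ k := by
    rw [hk]
    nlinarith [Nat.one_le_iff_ne_zero.1 hl, Nat.pos_of_ne_zero (Nat.one_le_iff_ne_zero.1 hl)]
  have hkr : (k : ℝ) = 2 * l ^ 2 := by
    rw [hk]
    push_cast
    ring
  rw [← hk]
  -- lower bound for the central coefficient
  have h1 := A_TNum_prod k hk1 l
  have h2 := centralBinom_lower k hk1
  rw [Nat.centralBinom_eq_two_mul_choose] at h2
  have h3 : Real.sqrt k ≤ 3 / 2 * l := by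
    rw [Real.sqrt_le_left (by positivity), hkr]
    nlinarith
  have hc0 : (0 : ℝ) ≤ ((2 * k).choose k : ℝ) := Nat.cast_nonneg _
  have h4 : (4 : ℝ) ^ k ≤ 3 * l * ((2 * k).choose k : ℝ) := by
    refine h2.trans (mul_le_mul_of_nonneg_right ?_ hc0)
    linarith
  have h5 : (3 / 4 : ℝ) ≤ 1 - (l : ℝ) * (l + 1) / (4 * k) := by
    rw [hkr]
    have : (l : ℝ) * (l + 1) / (4 * (2 * l ^ 2)) ≤ 1 / 4 := by
      rw [div_le_iff₀ (by positivity)]
      nlinarith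
    linarith
  have h6 : (2 : ℝ) ^ (l + 2 * k) / (4 * l) ≤ ((l + 2 * k).choose k : ℝ) := by
    rw [div_le_iff₀ (by positivity)]
    have e1 : (2 : ℝ) ^ (l + 2 * k) = 2 ^ l * 4 ^ k := by
      rw [pow_add, pow_mul]
      norm_num
    have e2 : l + 2 * k = 2 * k + l := by ring
    rw [e1, e2]
    have e3 : (2 : ℝ) ^ l * (3 / 4) * ((2 * k).choose k : ℝ) ≤ ((2 * k + l).choose k : ℝ) :=
      le_trans (mul_le_mul_of_nonneg_right
        (mul_le_mul_of_nonneg_left h5 (by positivity)) hc0) h1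
    have e4 := mul_le_mul_of_nonneg_left h4 (by positivity : (0 : ℝ) ≤ 2 ^ l)
    have e5 := mul_le_mul_of_nonneg_right e3 (by positivity : (0 : ℝ) ≤ 4 * l)
    nlinarith
  -- the difference
  have h7 : ((l + 2 * k).choose k : ℝ) * k = ((l + 2 * k).choose (k - 1) : ℝ) * (l + k + 1) := by
    obtain ⟨k', rfl⟩ : ∃ k', k = k' + 1 := ⟨k - 1, by omega⟩
    have h := Nat.choose_succ_right_eq (l + 2 * (k' + 1)) k'
    have h' : l + 2 * (k' + 1) - k' = l + (k' + 1) + 1 := by omega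
    rw [h'] at h
    have h'' : k' + 1 - 1 = k' := rfl
    rw [h'']
    exact_mod_cast h
  have hden : (0 : ℝ) < (l : ℝ) + k + 1 := by positivity
  have h8 : ((l + 2 * k).choose (k - 1) : ℝ) = ((l + 2 * k).choose k : ℝ) * k / (l + k + 1) := by
    rw [eq_div_iff hden.ne', h7]
  have h9 : ((l + 2 * k).choose k : ℝ) - ((l + 2 * k).choose (k - 1) : ℝ) =
      ((l + 2 * k).choose k : ℝ) * ((l + 1) / (l + k + 1)) := by
    rw [h8]
    field_simp
    ring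
  rw [h9]
  have h10 : (2 : ℝ) ^ (l + 2 * k) / (8 * l * (l + 1)) ≤
      (2 : ℝ) ^ (l + 2 * k) / (4 * l) * ((l + 1) / (l + k + 1)) := by
    rw [div_mul_div_comm, div_le_div_iff₀ (by positivity) (by positivity), hkr]
    have e1 : (0 : ℝ) < 2 ^ (l + 2 * k) := by positivity
    have e2 : 4 * (l : ℝ) * (l + 2 * l ^ 2 + 1) ≤ (l + 1) * (8 * l * (l + 1)) := by nlinarith
    calc (2 : ℝ) ^ (l + 2 * k) * (4 * l * (l + 2 * l ^ 2 + 1))
        ≤ 2 ^ (l + 2 * k) * ((l + 1) * (8 * l * (l + 1))) :=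
          mul_le_mul_of_nonneg_left e2 e1.le
      _ = 2 ^ (l + 2 * k) * (l + 1) * (8 * l * (l + 1)) := by ring
  exact h10.trans (mul_le_mul_of_nonneg_right h6 (by positivity))

/-- final numerics -/
theorem num_final (C : ℝ) (hC : 0 < C) : ∃ l0 : ℕ, ∀ l : ℕ, l0 ≤ l → ∀ x : ℝ, 0 ≤ x →
    (∀ m : ℕ, x ^ m ≤ 8 * l * (l + 1) * C *
      ((9 / 16 : ℝ) ^ m + (11 / 10 : ℝ) ^ m / ((l + 2 * (2 * l ^ 2) : ℕ) : ℝ) ^ (3 / 2 : ℝ))) →
    x ≤ 23 / 24 := by
  obtain ⟨m0, hm0⟩ := pow_unbounded_of_one_lt (22 * C) (by norm_num : (1 : ℝ) < 23 / 22)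
  obtain ⟨l0, hl0⟩ := exists_nat_gt ((16 / 9 : ℝ) ^ m0)
  refine ⟨l0, fun l hl x hx hbound => ?_⟩
  by_contra hcon
  push Not at hcon
  have hlr : (16 / 9 : ℝ) ^ m0 < l := lt_of_lt_of_le hl0 (by exact_mod_cast hl)
  have h1le : (1 : ℝ) ≤ (16 / 9 : ℝ) ^ m0 := one_le_pow₀ (by norm_num)
  have hl1 : (1 : ℝ) ≤ l := by linarith
  have hlp : (0 : ℝ) < l := by linarith
  have hl3 : (l : ℝ) ≤ (l : ℝ) ^ 3 := by
    nlinarith [mul_self_nonneg ((l : ℝ) - 1), mul_pos hlp hlp]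
  -- choice of `m`
  have hex : ∃ m : ℕ, (l : ℝ) ^ 3 ≤ (16 / 9 : ℝ) ^ m := by
    obtain ⟨m, hm⟩ := pow_unbounded_of_one_lt ((l : ℝ) ^ 3) (by norm_num : (1 : ℝ) < 16 / 9)
    exact ⟨m, hm.le⟩
  classical
  set m := Nat.find hex with hm
  have hm1 : (l : ℝ) ^ 3 ≤ (16 / 9 : ℝ) ^ m := Nat.find_spec hex
  have hmm0 : m0 < m := by
    by_contra h
    push Not at h
    have h2 : (16 / 9 : ℝ) ^ m ≤ (16 / 9 : ℝ) ^ m0 := pow_le_pow_right₀ (by norm_num) h
    linarith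
  obtain ⟨m', hm'⟩ : ∃ m', m = m' + 1 := ⟨m - 1, by omega⟩
  have hm2 : (16 / 9 : ℝ) ^ m' < (l : ℝ) ^ 3 := by
    have h := Nat.find_min hex (m := m') (by omega)
    push Not at h
    exact h
  have hm3 : (6 / 5 : ℝ) ^ m' < l := by
    have h1 : ((6 / 5 : ℝ) ^ m') ^ 3 < (l : ℝ) ^ 3 := by
      calc ((6 / 5 : ℝ) ^ m') ^ 3 = ((6 / 5 : ℝ) ^ 3) ^ m' := by
            rw [← pow_mul, ← pow_mul, mul_comm]
        _ ≤ (16 / 9 : ℝ) ^ m' := pow_le_pow_left₀ (by positivity) (by norm_num) _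
        _ < (l : ℝ) ^ 3 := hm2
    exact lt_of_pow_lt_pow_left₀ 3 hlp.le h1
  have hb := hbound m
  -- the exponent `3/2`
  have hN : 8 * (l : ℝ) ^ 3 ≤ ((l + 2 * (2 * l ^ 2) : ℕ) : ℝ) ^ (3 / 2 : ℝ) := by
    have e1 : ((2 * (l : ℝ)) ^ 2) ^ (3 / 2 : ℝ) = 8 * (l : ℝ) ^ 3 := by
      rw [← Real.rpow_natCast (2 * (l : ℝ)) 2, ← Real.rpow_mul (by positivity)]
      norm_num
      rw [mul_pow]
      norm_num
    rw [← e1]
    apply Real.rpow_le_rpow (by positivity) _ (by norm_num)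
    push_cast
    nlinarith
  have hP1 : (1 : ℝ) ≤ (11 / 10 : ℝ) ^ m := one_le_pow₀ (by norm_num)
  have hA : (9 / 16 : ℝ) ^ m ≤ 1 / (l : ℝ) ^ 3 := by
    rw [le_div_iff₀ (by positivity)]
    calc (9 / 16 : ℝ) ^ m * (l : ℝ) ^ 3 ≤ (9 / 16 : ℝ) ^ m * (16 / 9 : ℝ) ^ m :=
          mul_le_mul_of_nonneg_left hm1 (by positivity)
      _ = 1 := by
          rw [← mul_pow]
          norm_num
  have hB : (11 / 10 : ℝ) ^ m / ((l + 2 * (2 * l ^ 2) : ℕ) : ℝ) ^ (3 / 2 : ℝ) ≤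
      (11 / 10 : ℝ) ^ m / (8 * (l : ℝ) ^ 3) :=
    div_le_div_of_nonneg_left (by positivity) (by positivity) hN
  have hl2 : 8 * (l : ℝ) * (l + 1) * C ≤ 16 * (l : ℝ) ^ 2 * C := by
    apply mul_le_mul_of_nonneg_right _ hC.le
    nlinarith
  have h1 : x ^ m ≤ 18 * C * (11 / 10 : ℝ) ^ m / l := by
    refine hb.trans ?_
    calc 8 * (l : ℝ) * (l + 1) * C *
          ((9 / 16 : ℝ) ^ m + (11 / 10 : ℝ) ^ m / ((l + 2 * (2 * l ^ 2) : ℕ) : ℝ) ^ (3 / 2 : ℝ))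
        ≤ 16 * (l : ℝ) ^ 2 * C * (1 / (l : ℝ) ^ 3 + (11 / 10 : ℝ) ^ m / (8 * (l : ℝ) ^ 3)) := by
          apply mul_le_mul hl2 (add_le_add hA hB) (by positivity) (by positivity)
      _ = 16 * C * (1 + (11 / 10 : ℝ) ^ m / 8) / l := by
          field_simp
      _ ≤ 18 * C * (11 / 10 : ℝ) ^ m / l := by
          apply div_le_div_of_nonneg_right _ hlp.le
          nlinarith
  have h2 : 18 * C * (11 / 10 : ℝ) ^ m / l ≤ 22 * C * (11 / 12 : ℝ) ^ m := by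
    rw [div_le_iff₀ hlp]
    have e1 : (11 / 10 : ℝ) ^ m = (11 / 12 : ℝ) ^ m * (6 / 5) ^ m := by
      rw [← mul_pow]
      norm_num
    have e2 : (6 / 5 : ℝ) ^ m = 6 / 5 * (6 / 5) ^ m' := by
      rw [hm', pow_succ]
      ring
    have e3 : 0 ≤ C * (11 / 12 : ℝ) ^ m := by positivity
    rw [e1, e2]
    have e4 := mul_le_mul_of_nonneg_left hm3.le e3
    nlinarith
  have h3 : (23 / 24 : ℝ) ^ m ≤ x ^ m := pow_le_pow_left₀ (by norm_num) hcon.le m
  have h4 : (23 / 22 : ℝ) ^ m * (11 / 12 : ℝ) ^ m ≤ 22 * C * (11 / 12 : ℝ) ^ m := by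
    have e1 : (23 / 22 : ℝ) ^ m * (11 / 12 : ℝ) ^ m = (23 / 24 : ℝ) ^ m := by
      rw [← mul_pow]
      norm_num
    rw [e1]
    linarith
  have h5 : (23 / 22 : ℝ) ^ m ≤ 22 * C := le_of_mul_le_mul_right h4 (by positivity)
  have h6 : (23 / 22 : ℝ) ^ m0 ≤ (23 / 22 : ℝ) ^ m := pow_le_pow_right₀ (by norm_num) hmm0.le
  linarith

end BorelEq.GapT
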