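import Pool.Agent.Lib.MP_75103d_lc.A_TDefs

/-!
MP_75103d_lc, part (A), tensor block (helper50), (M6): no eigenvalue of absolute value one.
-/

set_option autoImplicit false

open MeasureTheory Set Matrix
open scoped Quaternion

namespace BorelEq.GapT

lemma A_TStrict_dot {N : ℕ} (w : Ix N → ℂ) :
    star w ⬝ᵥ w = ((∑ x, Complex.normSq (w x) : ℝ) : ℂ) := by
  simp only [dotProduct, Pi.star_apply]
  push_cast
  refine Finset.sum_congr rfl fun x _ => ?_
  rw [Complex.normSq_eq_conj_mul_self]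
  rfl

lemma A_TStrict_norm {N : ℕ} (g : UQ) (v : Ix N → ℂ) :
    ∑ x, Complex.normSq ((rho N g *ᵥ v) x) = ∑ x, Complex.normSq (v x) := by
  have h : star (rho N g *ᵥ v) ⬝ᵥ (rho N g *ᵥ v) = star v ⬝ᵥ v := by
    rw [Matrix.star_mulVec, ← Matrix.dotProduct_mulVec, Matrix.mulVec_mulVec, rho_conj,
      ← rho_mul, inv_mul_cancel, rho_one, Matrix.one_mulVec]
  rw [A_TStrict_dot, A_TStrict_dot] at h
  exact_mod_cast h

lemma A_TStrict_all {N : ℕ} {lam : ℝ} {v : Ix N → ℂ} (h : IsEig N lam v) (h1 : 1 ≤ |lam|) :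
    (∀ i, rho N (bQ i) *ᵥ v = (lam : ℂ) • v) ∧ lam * lam = 1 := by
  have hsum : ∀ x, ∑ i, (rho N (bQ i) *ᵥ v) x = 6 * (lam * v x) := by
    intro x
    have h2 := congrFun h.eig x
    rw [TN, Matrix.smul_mulVec, Pi.smul_apply, Pi.smul_apply, Matrix.sum_mulVec,
      Finset.sum_apply, smul_eq_mul, smul_eq_mul] at h2
    rw [← h2]
    ring
  have hpt : ∀ x, ∑ i, Complex.normSq ((rho N (bQ i) *ᵥ v) x - lam * v x) =
      ∑ i, Complex.normSq ((rho N (bQ i) *ᵥ v) x) - 6 * (lam * lam * Complex.normSq (v x)) := by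
    intro x
    simp only [Complex.normSq_sub]
    rw [Finset.sum_sub_distrib, Finset.sum_add_distrib, ← Finset.mul_sum, ← Complex.re_sum,
      ← Finset.sum_mul, hsum]
    have h3 : (6 * ((lam : ℂ) * v x) * (starRingEnd ℂ) ((lam : ℂ) * v x)).re =
        6 * (lam * lam * Complex.normSq (v x)) := by
      rw [mul_assoc, Complex.mul_conj, Complex.normSq_mul, Complex.normSq_ofReal]
      norm_cast
    rw [h3]
    simp [Complex.normSq_mul, Complex.normSq_ofReal]
    ring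
  have htot : ∑ x, ∑ i, Complex.normSq ((rho N (bQ i) *ᵥ v) x - lam * v x) =
      6 * (1 - lam * lam) * ∑ x, Complex.normSq (v x) := by
    simp only [hpt]
    rw [Finset.sum_sub_distrib, Finset.sum_comm]
    simp only [A_TStrict_norm]
    rw [← Finset.mul_sum, ← Finset.mul_sum]
    simp
    ring
  have hS : 0 < ∑ x, Complex.normSq (v x) := by
    obtain ⟨x, hx⟩ := Function.ne_iff.1 h.ne
    exact Finset.sum_pos' (fun _ _ => Complex.normSq_nonneg _)
      ⟨x, Finset.mem_univ x, Complex.normSq_pos.2 hx⟩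
  have hl : 1 ≤ lam * lam := by
    rw [← abs_mul_abs_self]
    nlinarith
  have hnn : 0 ≤ ∑ x, ∑ i, Complex.normSq ((rho N (bQ i) *ᵥ v) x - lam * v x) :=
    Finset.sum_nonneg fun x _ => Finset.sum_nonneg fun i _ => Complex.normSq_nonneg _
  have hl1 : lam * lam = 1 := by
    rw [htot] at hnn
    nlinarith
  refine ⟨fun i => ?_, hl1⟩
  rw [hl1, sub_self, mul_zero, zero_mul] at htot
  have h5 := (Finset.sum_eq_zero_iff_of_nonneg fun x _ => Finset.sum_nonneg fun i _ =>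
    Complex.normSq_nonneg ((rho N (bQ i) *ᵥ v) x - lam * v x)).1 htot
  funext x
  have h6 := (Finset.sum_eq_zero_iff_of_nonneg fun i _ =>
    Complex.normSq_nonneg ((rho N (bQ i) *ᵥ v) x - lam * v x)).1 (h5 x (Finset.mem_univ x)) i
    (Finset.mem_univ i)
  rw [Complex.normSq_eq_zero] at h6
  rw [Pi.smul_apply, smul_eq_mul]
  exact sub_eq_zero.1 h6

/-- equality case of the triangle inequality -/
theorem fixed_of_norm_one {N : ℕ} {lam : ℝ} {v : Ix N → ℂ} (h : IsEig N lam v) (h1 : 1 ≤ |lam|)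
    (i : Fin 6) : rho N (bQ i * bQ i) *ᵥ v = v := by
  obtain ⟨h2, h3⟩ := A_TStrict_all h h1
  rw [rho_mul, ← Matrix.mulVec_mulVec, h2 i, Matrix.mulVec_smul, h2 i, smul_smul]
  have h4 : (lam : ℂ) * lam = 1 := by exact_mod_cast h3
  rw [h4, one_smul]

/-- `(-3+4i)^n` is not real for `n ≥ 1` -/
theorem pow_not_real (n : ℕ) (hn : 1 ≤ n) : ((⟨-3, 4⟩ : ℂ) ^ n).im ≠ 0 := by
  have key : ∀ m : ℕ, 1 ≤ m → ∃ a b : ℤ, ((⟨-3, 4⟩ : ℂ) ^ m) = ⟨a, b⟩ ∧
      (∃ c : ℤ, b = 2 * a + 5 * c) ∧ ¬ (5 : ℤ) ∣ a := by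
    intro m hm
    induction m, hm using Nat.le_induction with
    | base =>
      refine ⟨-3, 4, ?_, ⟨2, by norm_num⟩, by norm_num⟩
      rw [pow_one]
      push_cast
      rfl
    | succ m hm ih =>
      obtain ⟨a, b, h1, ⟨c, h2⟩, h3⟩ := ih
      refine ⟨-3 * a - 4 * b, 4 * a - 3 * b, ?_, ⟨2 * a + b, ?_⟩, ?_⟩
      · rw [pow_succ, h1]
        apply Complex.ext
        · simp
          ring
        · simp
          ring
      · ring
      · intro h4
        apply h3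
        omega
  obtain ⟨a, b, h1, ⟨c, h2⟩, h3⟩ := key n hn
  rw [h1]
  simp only [ne_eq, Int.cast_eq_zero]
  intro hb
  apply h3
  omega

lemma A_TStrict_prod {l : ℕ} (f : Fin 2 → ℂ) (y : Ix l) :
    ∏ i, f (y i) = f 0 ^ (l - wt y) * f 1 ^ wt y := by
  have h1 : ∀ i, f (y i) = if y i = 1 then f 1 else f 0 := by
    intro i
    by_cases h : y i = 1
    · rw [if_pos h, h]
    · have h0 : y i = 0 := by
        have := Fin.exists_fin_two.1 ⟨y i, rfl⟩
        rcases this with h' | h'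
        · exact h'
        · exact absurd h' h
      rw [if_neg h, h0]
  simp only [h1]
  rw [Finset.prod_ite, Finset.prod_const, Finset.prod_const]
  have h2 := Finset.card_filter_add_card_filter_not (s := (Finset.univ : Finset (Fin l)))
    (fun i => y i = 1)
  rw [Finset.card_univ, Fintype.card_fin] at h2
  have h3 : (Finset.univ.filter fun i => ¬ y i = 1).card = l - wt y := by
    rw [wt]
    omega
  rw [h3, wt, mul_comm]

lemma A_TStrict_coe (i : Fin 6) :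
    ((bQ i * bQ i : UQ) : ℍ[ℝ]) = (1 / 5 : ℝ) • (toR (bZ i) * toR (bZ i)) := by
  rw [Metric.unitSphere.coe_mul]
  simp only [bQ, smul_mul_smul_comm]
  congr 1
  rw [← mul_inv, Real.mul_self_sqrt (by norm_num)]
  norm_num

/-- (M6) -/
theorem lam_lt_one {l : ℕ} (hl : 1 ≤ l) {lam : ℝ} {v : Ix l → ℂ} (h : IsEig l lam v)
    (hs : ∀ x y, wt x = wt y → v x = v y) : |lam| < 1 := by
  by_contra hcon
  push Not at hcon
  -- first element
  have hM0 : mQ ((bQ 0 * bQ 0 : UQ) : ℍ[ℝ]) = !![⟨-3 / 5, 4 / 5⟩, 0; 0, ⟨-3 / 5, -(4 / 5)⟩] := by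
    rw [A_TStrict_coe]
    ext i j
    fin_cases i <;> fin_cases j <;> simp [mQ, bZ, toR, Complex.ext_iff] <;> norm_num
  have hM2 : mQ ((bQ 2 * bQ 2 : UQ) : ℍ[ℝ]) = !![((-3 / 5 : ℝ) : ℂ), ((4 / 5 : ℝ) : ℂ);
      ((-(4 / 5) : ℝ) : ℂ), ((-3 / 5 : ℝ) : ℂ)] := by
    rw [A_TStrict_coe]
    ext i j
    fin_cases i <;> fin_cases j <;> simp [mQ, bZ, toR, Complex.ext_iff] <;> norm_num
  have hzne : ∀ m : ℕ, 1 ≤ m → ((⟨-3 / 5, 4 / 5⟩ : ℂ)) ^ m ≠ 1 := by
    intro m hm h1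
    have h2 : (⟨-3, 4⟩ : ℂ) ^ m = (5 : ℂ) ^ m := by
      have h3 : (⟨-3, 4⟩ : ℂ) = 5 * ⟨-3 / 5, 4 / 5⟩ := by
        apply Complex.ext
        · simp
          norm_num
        · simp
          norm_num
      rw [h3, mul_pow, h1, mul_one]
    apply pow_not_real m hm
    rw [h2]
    have h4 : (5 : ℂ) ^ m = ((5 ^ m : ℝ) : ℂ) := by push_cast; rfl
    rw [h4, Complex.ofReal_im]
  have hzz : (⟨-3 / 5, 4 / 5⟩ : ℂ) * ⟨-3 / 5, -(4 / 5)⟩ = 1 := by
    apply Complex.ext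
    · simp
      norm_num
    · simp
      norm_num
  have hzne' : ∀ m : ℕ, 1 ≤ m → ((⟨-3 / 5, -(4 / 5)⟩ : ℂ)) ^ m ≠ 1 := by
    intro m hm h1
    apply hzne m hm
    have h2 : ((⟨-3 / 5, 4 / 5⟩ : ℂ) * ⟨-3 / 5, -(4 / 5)⟩) ^ m = 1 := by rw [hzz, one_pow]
    rw [mul_pow, h1, mul_one] at h2
    exact h2
  -- the support of `v`
  have hsupp : ∀ x, v x ≠ 0 → l = 2 * wt x := by
    intro x hx
    have h1 := congrFun (fixed_of_norm_one h hcon 0) x
    have h2 : (rho l (bQ 0 * bQ 0) *ᵥ v) x =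
        (∏ i, mQ ((bQ 0 * bQ 0 : UQ) : ℍ[ℝ]) (x i) (x i)) * v x := by
      simp only [Matrix.mulVec, dotProduct]
      rw [Finset.sum_eq_single x]
      · rfl
      · intro y _ hy
        obtain ⟨i, hi⟩ := Function.ne_iff.1 hy
        have h3 : rho l (bQ 0 * bQ 0) x y = 0 := by
          rw [rho, kp]
          refine Finset.prod_eq_zero (Finset.mem_univ i) ?_
          rw [hM0]
          have h4 : ∀ a b : Fin 2, b ≠ a →
              (!![(⟨-3 / 5, 4 / 5⟩ : ℂ), 0; 0, ⟨-3 / 5, -(4 / 5)⟩]) a b = 0 := by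
            intro a b hab
            fin_cases a <;> fin_cases b <;> simp_all
          exact h4 _ _ hi
        rw [h3, zero_mul]
      · intro hx
        exact absurd (Finset.mem_univ x) hx
    rw [h2] at h1
    have h3 : ∏ i, mQ ((bQ 0 * bQ 0 : UQ) : ℍ[ℝ]) (x i) (x i) = 1 := by
      have h4 : (∏ i, mQ ((bQ 0 * bQ 0 : UQ) : ℍ[ℝ]) (x i) (x i)) * v x = 1 * v x := by
        rw [h1, one_mul]
      exact mul_right_cancel₀ hx h4
    rw [A_TStrict_prod (fun a => mQ ((bQ 0 * bQ 0 : UQ) : ℍ[ℝ]) a a), hM0] at h3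
    simp only [Matrix.of_apply, Matrix.cons_val', Matrix.cons_val_zero, Matrix.cons_val_one,
      Matrix.cons_val_fin_one] at h3
    have hwt : wt x ≤ l := by
      rw [wt]
      exact (Finset.card_le_univ _).trans (by rw [Fintype.card_fin])
    by_contra hne
    rcases lt_or_gt_of_ne hne with hlt | hlt
    · -- l < 2 wt x
      obtain ⟨m, hm⟩ : ∃ m, wt x = (l - wt x) + m := ⟨wt x - (l - wt x), by omega⟩
      have hm1 : 1 ≤ m := by omega
      rw [hm] at h3
      have h5 : l - ((l - wt x) + m) = l - wt x := by omega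
      rw [h5, pow_add, ← mul_assoc, ← mul_pow, hzz, one_pow, one_mul] at h3
      exact hzne' m hm1 h3
    · obtain ⟨m, hm⟩ : ∃ m, l - wt x = wt x + m := ⟨l - wt x - wt x, by omega⟩
      have hm1 : 1 ≤ m := by omega
      rw [hm, pow_add, mul_comm _ ((⟨-3 / 5, 4 / 5⟩ : ℂ) ^ m), mul_assoc, ← mul_pow, hzz,
        one_pow, mul_one] at h3
      exact hzne m hm1 h3
  obtain ⟨x0, hx0⟩ := Function.ne_iff.1 h.ne
  have hx0' : v x0 ≠ 0 := hx0
  have hl2 := hsupp x0 hx0'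
  obtain ⟨k, hk⟩ : ∃ k, k = wt x0 := ⟨_, rfl⟩
  have hk1 : 1 ≤ k := by omega
  -- the value at zero
  have hwt0 : wt (0 : Ix l) = 0 := by
    rw [wt, Finset.card_eq_zero, Finset.filter_eq_empty_iff]
    intro i _
    simp
  have hv0 : v 0 = 0 := by
    by_contra hne
    have := hsupp 0 hne
    omega
  have h1 := congrFun (fixed_of_norm_one h hcon 2) 0
  rw [hv0] at h1
  have h2 : (rho l (bQ 2 * bQ 2) *ᵥ v) 0 = ((Finset.univ.filter fun y : Ix l => wt y = k).card : ℂ) *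
      ((((-3 / 5 : ℝ) : ℂ)) ^ k * (((4 / 5 : ℝ) : ℂ)) ^ k * v x0) := by
    have h3 : ∀ y, rho l (bQ 2 * bQ 2) 0 y * v y = if wt y = k then
        ((((-3 / 5 : ℝ) : ℂ)) ^ k * (((4 / 5 : ℝ) : ℂ)) ^ k * v x0) else 0 := by
      intro y
      have h4 : rho l (bQ 2 * bQ 2) 0 y = (((-3 / 5 : ℝ) : ℂ)) ^ (l - wt y) *
          (((4 / 5 : ℝ) : ℂ)) ^ wt y := by
        have h5 := A_TStrict_prod (fun a => mQ ((bQ 2 * bQ 2 : UQ) : ℍ[ℝ]) 0 a) y
        rw [hM2] at h5
        simp only [Matrix.of_apply, Matrix.cons_val', Matrix.cons_val_zero, Matrix.cons_val_one,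
          Matrix.cons_val_fin_one] at h5
        rw [rho, kp, ← h5, hM2]
        rfl
      by_cases hy : wt y = k
      · rw [if_pos hy, h4, hy, hs y x0 (by rw [hy, hk])]
        have h6 : l - k = k := by omega
        rw [h6]
      · rw [if_neg hy]
        have h7 : v y = 0 := by
          by_contra hne
          have := hsupp y hne
          omega
        rw [h7, mul_zero]
    simp only [Matrix.mulVec, dotProduct, h3]
    rw [← Finset.sum_filter, Finset.sum_const, nsmul_eq_mul]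
  rw [h2] at h1
  have hcard : ((Finset.univ.filter fun y : Ix l => wt y = k).card : ℂ) ≠ 0 := by
    rw [Nat.cast_ne_zero]
    exact Finset.card_ne_zero.2 ⟨x0, by simp [hk]⟩
  have hnz : (((-3 / 5 : ℝ) : ℂ)) ^ k * (((4 / 5 : ℝ) : ℂ)) ^ k * v x0 ≠ 0 := by
    refine mul_ne_zero (mul_ne_zero (pow_ne_zero _ ?_) (pow_ne_zero _ ?_)) hx0'
    · exact Complex.ofReal_ne_zero.2 (by norm_num)
    · exact Complex.ofReal_ne_zero.2 (by norm_num)
  exact mul_ne_zero hcard hnz h1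

end BorelEq.GapT
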