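import Pool.Agent.Lib.MP_75103d_lc.A_TDefs

/-!
MP_75103d_lc, part (A), tensor block (helper50), (M3): highest weight vectors.
-/

set_option autoImplicit false

open MeasureTheory Set Matrix
open scoped Quaternion

namespace BorelEq.GapT

/-- highest weight vectors of weight `N - 2k` -/
def hw (N k : ℕ) : Submodule ℂ (Ix N → ℂ) where
  carrier := {u | (∀ y, wt y ≠ k → u y = 0) ∧
    ∀ x : Ix N, wt x + 1 = k →
      ∑ y ∈ Finset.univ.filter (fun y : Ix N => ∀ i, x i ≤ y i), u y = 0}
  add_mem' := by
    rintro u v ⟨hu, hu'⟩ ⟨hv, hv'⟩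
    refine ⟨fun y hy => by simp [hu y hy, hv y hy], fun x hx => ?_⟩
    simp only [Pi.add_apply, Finset.sum_add_distrib, hu' x hx, hv' x hx, add_zero]
  zero_mem' := ⟨fun _ _ => rfl, fun _ _ => by simp⟩
  smul_mem' := by
    rintro c u ⟨hu, hu'⟩
    refine ⟨fun y hy => by simp [hu y hy], fun x hx => ?_⟩
    simp only [Pi.smul_apply, ← Finset.smul_sum, hu' x hx, smul_zero]

theorem wt_eq_sum {N : ℕ} (x : Ix N) : wt x = ∑ i, (x i : ℕ) := by
  unfold wt
  rw [Finset.card_filter]
  refine Finset.sum_congr rfl fun i _ => ?_
  generalize x i = a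
  fin_cases a <;> simp

theorem wt_le {N : ℕ} (x : Ix N) : wt x ≤ N := by
  unfold wt
  exact (Finset.card_le_univ _).trans (by simp)

/-- the number of indices of weight `k` -/
theorem card_wt (N k : ℕ) : Fintype.card {y : Ix N // wt y = k} = N.choose k := by
  have hc : N.choose k = (Finset.powersetCard k (Finset.univ : Finset (Fin N))).card := by
    rw [Finset.card_powersetCard, Finset.card_fin]
  rw [Fintype.card_subtype, hc]
  refine Finset.card_bij' (fun y _ => Finset.univ.filter (fun i => y i = 1))
    (fun s _ => fun i => if i ∈ s then 1 else 0) ?_ ?_ ?_ ?_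
  · intro y hy
    simp only [Finset.mem_filter, Finset.mem_univ, true_and] at hy
    simp only [Finset.mem_powersetCard, Finset.subset_univ, true_and]
    simpa [wt] using hy
  · intro s hs
    simp only [Finset.mem_powersetCard, Finset.subset_univ, true_and] at hs
    simp only [Finset.mem_filter, Finset.mem_univ, true_and, wt]
    rw [← hs]
    congr 1
    ext i
    simp
  · intro y hy
    funext i
    simp only [Finset.mem_filter, Finset.mem_univ, true_and]
    generalize y i = a
    fin_cases a <;> simp
  · intro s hs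
    ext i
    simp

/-- dimension count: the conditions are `choose N (k-1)` in number -/
theorem hw_finrank (N k : ℕ) (hk : 1 ≤ k) :
    N.choose k ≤ Module.finrank ℂ (hw N k) + N.choose (k - 1) := by
  classical
  -- the map
  let E : ({y : Ix N // wt y = k} → ℂ) →ₗ[ℂ] ({x : Ix N // wt x = k - 1} → ℂ) :=
    { toFun := fun u x => ∑ y : {y : Ix N // wt y = k}, if (∀ i, x.1 i ≤ y.1 i) then u y else 0
      map_add' := by
        intro u v; funext x
        simp only [Pi.add_apply, ← Finset.sum_add_distrib]
        refine Finset.sum_congr rfl fun y _ => ?_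
        split_ifs <;> simp
      map_smul' := by
        intro c u; funext x
        simp only [Pi.smul_apply, smul_eq_mul, RingHom.id_apply, Finset.mul_sum]
        refine Finset.sum_congr rfl fun y _ => ?_
        split_ifs <;> simp }
  have h1 := LinearMap.finrank_range_add_finrank_ker E
  have h2 : Module.finrank ℂ (LinearMap.range E) ≤ N.choose (k - 1) := by
    refine (Submodule.finrank_le _).trans ?_
    rw [Module.finrank_fintype_fun_eq_card, card_wt]
  rw [Module.finrank_fintype_fun_eq_card, card_wt] at h1
  -- extension by zero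
  let ext0 : ({y : Ix N // wt y = k} → ℂ) →ₗ[ℂ] (Ix N → ℂ) :=
    { toFun := fun u y => if h : wt y = k then u ⟨y, h⟩ else 0
      map_add' := by
        intro u v; funext y
        simp only [Pi.add_apply]
        split_ifs <;> simp
      map_smul' := by
        intro c u; funext y
        simp only [Pi.smul_apply, smul_eq_mul, RingHom.id_apply]
        split_ifs <;> simp }
  have hmem : ∀ u ∈ LinearMap.ker E, ext0 u ∈ hw N k := by
    intro u hu
    refine ⟨fun y hy => by simp [ext0, hy], fun x hx => ?_⟩
    have hE : E u ⟨x, by omega⟩ = 0 := by rw [LinearMap.mem_ker.mp hu]; rfl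
    have hE' : (∑ y : {y : Ix N // wt y = k}, if (∀ i, x i ≤ y.1 i) then u y else 0) = 0 := hE
    have h5 : (∑ y : {y : Ix N // wt y = k}, if (∀ i, x i ≤ y.1 i) then u y else 0) =
        ∑ y ∈ Finset.univ.filter (fun y : Ix N => wt y = k),
          if (∀ i, x i ≤ y i) then ext0 u y else 0 := by
      rw [Finset.sum_subtype (Finset.univ.filter (fun y : Ix N => wt y = k))
        (p := fun y : Ix N => wt y = k) (by simp)]
      refine Finset.sum_congr rfl fun y _ => ?_
      simp [ext0, y.2]
    rw [← hE', h5, Finset.sum_filter, Finset.sum_filter]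
    refine Finset.sum_congr rfl fun y _ => ?_
    by_cases hy : wt y = k
    · simp [hy]
    · simp [hy, ext0]
  let F : LinearMap.ker E →ₗ[ℂ] hw N k :=
    (ext0.comp (LinearMap.ker E).subtype).codRestrict (hw N k) (fun u => hmem u u.2)
  have hinj : Function.Injective F := by
    intro u v huv
    apply Subtype.ext
    funext y
    have h := congrArg (fun t : hw N k => (t : Ix N → ℂ) y.1) huv
    have h' : ext0 u.1 y.1 = ext0 v.1 y.1 := h
    simpa [ext0, y.2] using h'
  have h3 := LinearMap.finrank_le_finrank_of_injective hinj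
  omega

/-- the higher conditions -/
theorem hw_sum {N k : ℕ} {u : Ix N → ℂ} (hu : u ∈ hw N k) (x : Ix N) (hx : wt x < k) :
    ∑ y ∈ Finset.univ.filter (fun y : Ix N => ∀ i, x i ≤ y i), u y = 0 := by
  classical
  induction' hj : k - wt x using Nat.strong_induction_on with j ih generalizing x
  rcases Nat.lt_or_ge (wt x + 1) k with h | h
  · -- double counting
    have key : ∑ i ∈ Finset.univ.filter (fun i => x i = 0),
        ∑ y ∈ Finset.univ.filter (fun y : Ix N => ∀ j, Function.update x i 1 j ≤ y j), u y =
        ((k : ℂ) - wt x) * ∑ y ∈ Finset.univ.filter (fun y : Ix N => ∀ i, x i ≤ y i), u y := by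
      simp only [Finset.sum_filter]
      simp_rw [← Finset.sum_filter (fun i => x i = 0)]
      rw [Finset.sum_comm, Finset.mul_sum]
      refine Finset.sum_congr rfl fun y _ => ?_
      by_cases hy : wt y = k
      · by_cases hxy : ∀ i, x i ≤ y i
        · have h1 : ∀ i ∈ Finset.univ.filter (fun i => x i = 0),
              (if (∀ j, Function.update x i 1 j ≤ y j) then u y else 0) =
                if y i = 1 then u y else 0 := by
            intro i hi
            congr 1
            apply propext
            constructor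
            · intro hh
              have := hh i
              rw [Function.update_self] at this
              exact le_antisymm (Fin.le_last _) this
            · intro hh j
              by_cases hji : j = i
              · subst hji; rw [Function.update_self, hh]
              · rw [Function.update_of_ne hji]; exact hxy j
          rw [Finset.sum_congr rfl h1, if_pos hxy, ← Finset.sum_filter, Finset.sum_const,
            nsmul_eq_mul, Finset.filter_filter]
          congr 1
          have h2 : (Finset.univ.filter (fun i => x i = 0 ∧ y i = 1)).card + wt x = wt y := by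
            unfold wt
            rw [← Finset.card_union_of_disjoint]
            · congr 1
              ext i
              simp only [Finset.mem_union, Finset.mem_filter, Finset.mem_univ, true_and]
              have := hxy i
              revert this
              generalize x i = a
              generalize y i = b
              fin_cases a <;> fin_cases b <;> simp
            · rw [Finset.disjoint_filter]
              rintro i _ ⟨h3, _⟩ h4
              rw [h3] at h4
              exact absurd h4 (by decide)
          rw [hy] at h2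
          rw [← h2]
          push_cast
          ring
        · rw [if_neg hxy, mul_zero]
          refine Finset.sum_eq_zero fun i hi => ?_
          simp only [Finset.mem_filter, Finset.mem_univ, true_and] at hi
          rw [if_neg]
          intro hh
          apply hxy
          intro j
          have := hh j
          by_cases hji : j = i
          · subst hji; rw [hi]; exact Fin.zero_le _
          · rwa [Function.update_of_ne hji] at this
      · simp [hu.1 y hy]
    have hz : ∀ i ∈ Finset.univ.filter (fun i => x i = 0),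
        ∑ y ∈ Finset.univ.filter (fun y : Ix N => ∀ j, Function.update x i 1 j ≤ y j), u y = 0 := by
      intro i hi
      simp only [Finset.mem_filter, Finset.mem_univ, true_and] at hi
      have hw1 : wt (Function.update x i 1) = wt x + 1 := by
        unfold wt
        have : Finset.univ.filter (fun j => Function.update x i 1 j = 1) =
            insert i (Finset.univ.filter (fun j => x j = 1)) := by
          ext j
          by_cases hji : j = i
          · subst hji; simp
          · simp [hji]
        rw [this, Finset.card_insert_of_notMem]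
        simp [hi]
      exact ih (k - wt (Function.update x i 1)) (by omega) _ (by omega) rfl
    rw [Finset.sum_eq_zero hz] at key
    have hne : ((k : ℂ) - wt x) ≠ 0 := by
      rw [sub_ne_zero]
      exact_mod_cast (by omega : k ≠ wt x)
    exact (mul_eq_zero.mp key.symm).resolve_left hne
  · exact hu.2 x (by omega)

theorem prod_upper {N : ℕ} (c : ℂ) (x y : Ix N) :
    ∏ i, (!![1, c; 0, 1] : Matrix (Fin 2) (Fin 2) ℂ) (x i) (y i) =
      if (∀ i, x i ≤ y i) then c ^ (wt y - wt x) else 0 := by
  have h : ∀ a b : Fin 2, (!![1, c; 0, 1] : Matrix (Fin 2) (Fin 2) ℂ) a b =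
      if a ≤ b then c ^ ((b : ℕ) - (a : ℕ)) else 0 := by
    intro a b
    fin_cases a <;> fin_cases b <;> simp
  simp_rw [h]
  split_ifs with hxy
  · simp only [hxy, if_true]
    rw [Finset.prod_pow_eq_pow_sum]
    congr 1
    rw [wt_eq_sum, wt_eq_sum]
    rw [Finset.sum_tsub_distrib _ (fun i _ => by exact_mod_cast hxy i)]
  · push Not at hxy
    obtain ⟨i, hi⟩ := hxy
    exact Finset.prod_eq_zero (Finset.mem_univ i) (by simp [not_le.mpr hi])

/-- upper unipotent matrices fix highest weight vectors -/
theorem kp_upper {N k : ℕ} {u : Ix N → ℂ} (hu : u ∈ hw N k) (c : ℂ) :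
    kp N !![1, c; 0, 1] *ᵥ u = u := by
  funext x
  simp only [Matrix.mulVec, dotProduct, kp, prod_upper]
  have h1 : ∑ y, (if (∀ i, x i ≤ y i) then c ^ (wt y - wt x) else 0) * u y =
      c ^ (k - wt x) * ∑ y ∈ Finset.univ.filter (fun y : Ix N => ∀ i, x i ≤ y i), u y := by
    rw [Finset.mul_sum, Finset.sum_filter]
    refine Finset.sum_congr rfl fun y _ => ?_
    by_cases hy : wt y = k
    · split_ifs <;> simp [hy]
    · simp [hu.1 y hy]
  rw [h1]
  rcases lt_trichotomy (wt x) k with h | h | h
  · rw [hw_sum hu x h, mul_zero, hu.1 x (by omega)]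
  · have : ∑ y ∈ Finset.univ.filter (fun y : Ix N => ∀ i, x i ≤ y i), u y = u x := by
      refine Finset.sum_eq_single_of_mem x (by simp) ?_
      intro y hy hyx
      simp only [Finset.mem_filter, Finset.mem_univ, true_and] at hy
      apply hu.1
      intro hyk
      apply hyx
      have hs : ∑ i, (x i : ℕ) = ∑ i, (y i : ℕ) := by
        rw [← wt_eq_sum, ← wt_eq_sum, h, hyk]
      have hle : ∀ i ∈ Finset.univ, (x i : ℕ) ≤ (y i : ℕ) := fun i _ => by exact_mod_cast hy i
      have := (Finset.sum_eq_sum_iff_of_le hle).mp hs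
      funext i
      exact (Fin.ext (this i (Finset.mem_univ i))).symm
    rw [this, h, Nat.sub_self, pow_zero, one_mul]
  · rw [hu.1 x (by omega)]
    have : ∑ y ∈ Finset.univ.filter (fun y : Ix N => ∀ i, x i ≤ y i), u y = 0 := by
      refine Finset.sum_eq_zero fun y hy => ?_
      simp only [Finset.mem_filter, Finset.mem_univ, true_and] at hy
      apply hu.1
      have : wt x ≤ wt y := by
        rw [wt_eq_sum, wt_eq_sum]
        exact Finset.sum_le_sum fun i _ => by exact_mod_cast hy i
      omega
    rw [this, mul_zero]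

theorem kp_diagonal (N : ℕ) (d : Fin 2 → ℂ) :
    kp N (Matrix.diagonal d) = Matrix.diagonal (fun x => ∏ i, d (x i)) := by
  ext x y
  simp only [kp, Matrix.diagonal_apply]
  by_cases h : x = y
  · subst h; simp
  · rw [if_neg h]
    obtain ⟨i, hi⟩ := Function.ne_iff.mp h
    exact Finset.prod_eq_zero (Finset.mem_univ i) (by simp [hi])

theorem prod_diag {N : ℕ} (a b : ℂ) (x : Ix N) :
    ∏ i, (![a, b] : Fin 2 → ℂ) (x i) = a ^ (N - wt x) * b ^ wt x := by
  have h : ∀ c : Fin 2, (![a, b] : Fin 2 → ℂ) c = a ^ (1 - (c : ℕ)) * b ^ (c : ℕ) := by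
    intro c; fin_cases c <;> simp
  simp_rw [h]
  rw [Finset.prod_mul_distrib, Finset.prod_pow_eq_pow_sum, Finset.prod_pow_eq_pow_sum,
    ← wt_eq_sum]
  congr 2
  rw [Finset.sum_tsub_distrib _ (fun i _ => by omega), ← wt_eq_sum]
  simp

/-- diagonal matrices -/
theorem kp_diag {N k : ℕ} {u : Ix N → ℂ} (hu : u ∈ hw N k) (hk : 2 * k ≤ N) (z : ℂ) (hz : z ≠ 0) :
    kp N !![z, 0; 0, z⁻¹] *ᵥ u = z ^ (N - 2 * k) • u := by
  have h : (!![z, 0; 0, z⁻¹] : Matrix (Fin 2) (Fin 2) ℂ) = Matrix.diagonal ![z, z⁻¹] := by
    ext i j; fin_cases i <;> fin_cases j <;> simp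
  rw [h, kp_diagonal]
  funext x
  rw [Matrix.mulVec_diagonal, prod_diag, Pi.smul_apply, smul_eq_mul]
  by_cases hx : wt x = k
  · rw [hx]
    congr 1
    have : N - k = (N - 2 * k) + k := by omega
    rw [this, pow_add, mul_assoc, ← mul_pow, mul_inv_cancel₀ hz, one_pow, mul_one]
  · rw [hu.1 x hx]; simp

/-- matrix coefficient of a highest weight vector -/
theorem hw_inner {N k : ℕ} {u : Ix N → ℂ} (hu : u ∈ hw N k) (hk : 2 * k ≤ N) (g : UQ)
    (hz : mQ (g : ℍ[ℝ]) 0 0 ≠ 0) :
    star u ⬝ᵥ (rho N g *ᵥ u) = mQ (g : ℍ[ℝ]) 0 0 ^ (N - 2 * k) * (star u ⬝ᵥ u) := by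
  set z := mQ (g : ℍ[ℝ]) 0 0 with hzdef
  set w := mQ (g : ℍ[ℝ]) 0 1 with hwdef
  set w' := mQ (g : ℍ[ℝ]) 1 0 with hwdef'
  have hdet := mQ_det g
  rw [Matrix.det_fin_two, ← hzdef, ← hwdef, ← hwdef'] at hdet
  have hdec : mQ (g : ℍ[ℝ]) = !![1, 0; w' / z, 1] * (!![z, 0; 0, z⁻¹] * !![1, w / z; 0, 1]) := by
    ext i j
    fin_cases i <;> fin_cases j <;> simp [Matrix.mul_apply, Fin.sum_univ_two]
    · rfl
    · rw [mul_div_cancel₀ _ hz]
    · rw [div_mul_cancel₀ _ hz]
    · have : mQ (g : ℍ[ℝ]) 1 1 = (1 + w * w') / z := by
        rw [eq_div_iff hz]; linear_combination hdet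
      rw [this]
      field_simp
      ring
  have hlow : (kp N !![1, 0; w' / z, 1])ᴴ = kp N !![1, star (w' / z); 0, 1] := by
    rw [kp_conjTranspose]
    congr 1
    ext i j
    fin_cases i <;> fin_cases j <;> simp [Matrix.conjTranspose_apply]
  rw [rho, hdec, kp_mul, kp_mul, ← Matrix.mulVec_mulVec, ← Matrix.mulVec_mulVec, kp_upper hu,
    kp_diag hu hk z hz, Matrix.mulVec_smul, dotProduct_smul, smul_eq_mul]
  congr 1
  have h3 : star u ⬝ᵥ (kp N !![1, 0; w' / z, 1] *ᵥ u) =
      star ((kp N !![1, 0; w' / z, 1])ᴴ *ᵥ u) ⬝ᵥ u := by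
    rw [Matrix.star_mulVec, Matrix.conjTranspose_conjTranspose, Matrix.dotProduct_mulVec]
  rw [h3, hlow, kp_upper hu]

end BorelEq.GapT
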