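import Pool.Agent.Lib.MP_75103d_lc.A_TSpan
import Pool.Agent.Lib.MP_75103d_lc.A_THw
import Pool.Agent.Lib.MP_75103d_lc.A_Mu

/-!
MP_75103d_lc, part (A), tensor block (helper50), (M3): the intertwiners and the multiplicity.
-/

set_option autoImplicit false

open MeasureTheory Set Matrix
open scoped Quaternion ComplexOrder

namespace BorelEq.GapT

/-- the map `Θ` -/
noncomputable def Th {l N : ℕ} (v : Ix l → ℂ) (u : Ix N → ℂ) : Ix N → ℂ :=
  fun x => ∫ g : UQ, (star (rho l g *ᵥ e0 l) ⬝ᵥ v) * (rho N g *ᵥ u) x ∂muQ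

theorem mulVec_e0 {l : ℕ} (A : Matrix (Ix l) (Ix l) ℂ) (x : Ix l) : (A *ᵥ e0 l) x = A x 0 := by
  simp [e0]

theorem rho_unitary {l : ℕ} (h : UQ) (x y : Ix l → ℂ) :
    star (rho l h *ᵥ x) ⬝ᵥ (rho l h *ᵥ y) = star x ⬝ᵥ y := by
  rw [Matrix.star_mulVec, ← Matrix.dotProduct_mulVec, Matrix.mulVec_mulVec, rho_conj, ← rho_mul,
    inv_mul_cancel, rho_one, Matrix.one_mulVec]

theorem rho_mulVec_cont {N : ℕ} (u : Ix N → ℂ) (x : Ix N) :
    Continuous (fun g : UQ => (rho N g *ᵥ u) x) := by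
  simp only [Matrix.mulVec, dotProduct]
  exact continuous_finsetSum _ fun y _ => (rho_cont N x y).mul continuous_const

theorem coef_cont {l : ℕ} (v : Ix l → ℂ) :
    Continuous (fun g : UQ => star (rho l g *ᵥ e0 l) ⬝ᵥ v) := by
  simp only [dotProduct, Pi.star_apply]
  exact continuous_finsetSum _ fun y _ =>
    ((rho_mulVec_cont (e0 l) y).star).mul continuous_const

theorem integrable_cont {f : UQ → ℂ} (hf : Continuous f) : Integrable f muQ := by
  have := muQ_prob'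
  exact hf.integrable_of_hasCompactSupport (HasCompactSupport.of_compactSpace f)

theorem Th_integrable {l N : ℕ} (v : Ix l → ℂ) (u : Ix N → ℂ) (x : Ix N) :
    Integrable (fun g : UQ => (star (rho l g *ᵥ e0 l) ⬝ᵥ v) * (rho N g *ᵥ u) x) muQ :=
  integrable_cont ((coef_cont v).mul (rho_mulVec_cont u x))

theorem Th_add_left {l N : ℕ} (v v' : Ix l → ℂ) (u : Ix N → ℂ) :
    Th (v + v') u = Th v u + Th v' u := by
  funext x
  simp only [Th, Pi.add_apply, dotProduct_add, add_mul]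
  exact integral_add (Th_integrable v u x) (Th_integrable v' u x)

theorem Th_smul_left {l N : ℕ} (c : ℂ) (v : Ix l → ℂ) (u : Ix N → ℂ) :
    Th (c • v) u = c • Th v u := by
  funext x
  simp only [Th, Pi.smul_apply, dotProduct_smul, smul_eq_mul, mul_assoc]
  exact integral_const_mul _ _

theorem Th_add_right {l N : ℕ} (v : Ix l → ℂ) (u u' : Ix N → ℂ) :
    Th v (u + u') = Th v u + Th v u' := by
  funext x
  simp only [Th, Pi.add_apply, Matrix.mulVec_add, mul_add]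
  exact integral_add (Th_integrable v u x) (Th_integrable v u' x)

theorem Th_smul_right {l N : ℕ} (c : ℂ) (v : Ix l → ℂ) (u : Ix N → ℂ) :
    Th v (c • u) = c • Th v u := by
  funext x
  simp only [Th, Pi.smul_apply, Matrix.mulVec_smul, smul_eq_mul, mul_left_comm _ c]
  exact integral_const_mul _ _

/-- `Th` as a linear map in the first variable -/
noncomputable def ThL {N : ℕ} (l : ℕ) (u : Ix N → ℂ) : (Ix l → ℂ) →ₗ[ℂ] (Ix N → ℂ) where
  toFun v := Th v u
  map_add' v v' := Th_add_left v v' u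
  map_smul' c v := Th_smul_left c v u

/-- equivariance (left invariance of `muQ`) -/
theorem Th_rho {l N : ℕ} (h : UQ) (v : Ix l → ℂ) (u : Ix N → ℂ) :
    rho N h *ᵥ Th v u = Th (rho l h *ᵥ v) u := by
  funext x
  have h1 : (rho N h *ᵥ Th v u) x =
      ∫ g : UQ, (star (rho l g *ᵥ e0 l) ⬝ᵥ v) * (rho N (h * g) *ᵥ u) x ∂muQ := by
    have h0 : ∀ g : UQ, (rho N (h * g) *ᵥ u) x = ∑ y, rho N h x y * (rho N g *ᵥ u) y := by
      intro g
      rw [rho_mul, ← Matrix.mulVec_mulVec]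
      rfl
    have h00 : (rho N h *ᵥ Th v u) x = ∑ y, rho N h x y * Th v u y := rfl
    rw [h00]
    simp_rw [h0, Th, ← integral_const_mul]
    rw [← integral_finsetSum]
    · refine integral_congr_ae (Filter.Eventually.of_forall fun g => ?_)
      simp only [Finset.mul_sum]
      refine Finset.sum_congr rfl fun y _ => ?_
      ring
    · intro y _
      exact (Th_integrable v u y).const_mul _
  have h2 : ∀ g : UQ, (star (rho l g *ᵥ e0 l) ⬝ᵥ v) =
      star (rho l (h * g) *ᵥ e0 l) ⬝ᵥ (rho l h *ᵥ v) := by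
    intro g
    rw [rho_mul, ← Matrix.mulVec_mulVec, rho_unitary]
  rw [h1]
  simp_rw [h2]
  have h3 := (muQ_left' h).integral_comp' (f := MeasurableEquiv.mulLeft h)
    (g := fun g => (star (rho l g *ᵥ e0 l) ⬝ᵥ (rho l h *ᵥ v)) * (rho N g *ᵥ u) x)
  simpa [Th] using h3

theorem Th_TN {l N : ℕ} {lam : ℝ} {v : Ix l → ℂ} (h : IsEig l lam v) (u : Ix N → ℂ) :
    TN N *ᵥ Th v u = (lam : ℂ) • Th v u := by
  have h1 : TN N *ᵥ Th v u = Th (TN l *ᵥ v) u := by
    change _ = ThL l u (TN l *ᵥ v)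
    unfold TN
    rw [Matrix.smul_mulVec, Matrix.smul_mulVec, Matrix.sum_mulVec, Matrix.sum_mulVec, map_smul,
      map_sum]
    congr 1
    exact Finset.sum_congr rfl fun i _ => Th_rho (bQ i) v u
  rw [h1, h.eig, Th_smul_left]

theorem rho_zero_zero (l : ℕ) (g : UQ) : rho l g 0 0 = mQ (g : ℍ[ℝ]) 0 0 ^ l := by
  simp [rho, kp]

/-- pairing with the highest weight vector -/
theorem Th_pair {l k : ℕ} (hl : 1 ≤ l) {u : Ix (l + 2 * k) → ℂ} (hu : u ∈ hw (l + 2 * k) k) :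
    star u ⬝ᵥ Th (e0 l) u =
      ((∫ g : UQ, ‖mQ (g : ℍ[ℝ]) 0 0‖ ^ (2 * l) ∂muQ : ℝ) : ℂ) * (star u ⬝ᵥ u) := by
  have h1 : star u ⬝ᵥ Th (e0 l) u =
      ∫ g : UQ, (star (rho l g *ᵥ e0 l) ⬝ᵥ e0 l) * (star u ⬝ᵥ (rho (l + 2 * k) g *ᵥ u)) ∂muQ := by
    simp only [Th, dotProduct]
    simp_rw [← integral_const_mul]
    rw [← integral_finsetSum]
    · refine integral_congr_ae (Filter.Eventually.of_forall fun g => ?_)
      simp only [Finset.mul_sum]
      refine Finset.sum_congr rfl fun y _ => ?_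
      ring
    · intro y _
      exact (Th_integrable (e0 l) u y).const_mul _
  rw [h1, ← integral_complex_ofReal, ← integral_mul_const]
  refine integral_congr_ae (Filter.Eventually.of_forall fun g => ?_)
  have h2 : star (rho l g *ᵥ e0 l) ⬝ᵥ e0 l = star (mQ (g : ℍ[ℝ]) 0 0 ^ l) := by
    rw [e0, dotProduct_single_one, Pi.star_apply, ← e0, mulVec_e0, rho_zero_zero]
  simp only
  rw [h2]
  by_cases hz : mQ (g : ℍ[ℝ]) 0 0 = 0
  · rw [hz]
    have hl0 : l ≠ 0 := by omega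
    simp [hl0]
  · rw [hw_inner hu (by omega) g hz]
    have : l + 2 * k - 2 * k = l := by omega
    rw [this, ← mul_assoc]
    congr 1
    rw [star_pow, ← mul_pow, Complex.ofReal_pow, pow_mul, Complex.star_def, mul_comm,
      Complex.mul_conj, Complex.normSq_eq_norm_sq]
    push_cast
    rfl

theorem integral_pos_z (l : ℕ) : 0 < ∫ g : UQ, ‖mQ (g : ℍ[ℝ]) 0 0‖ ^ (2 * l) ∂muQ := by
  have := muQ_prob'
  have hcont : Continuous (fun g : UQ => ‖mQ (g : ℍ[ℝ]) 0 0‖ ^ (2 * l)) :=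
    (((mQ_cont 0 0).comp continuous_subtype_val).norm).pow _
  have hint : Integrable (fun g : UQ => ‖mQ (g : ℍ[ℝ]) 0 0‖ ^ (2 * l)) muQ :=
    hcont.integrable_of_hasCompactSupport (HasCompactSupport.of_compactSpace _)
  rw [integral_pos_iff_support_of_nonneg (fun g => by positivity) hint]
  obtain ⟨c, hc, hball⟩ := muQ_ball'
  have h1 := hball (1 / 2) (by norm_num) (by norm_num)
  have h2 : 0 < (muQ {g : UQ | nrmQ g < 1 / 2}).toReal := lt_of_lt_of_le (by positivity) h1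
  have h3 : 0 < muQ {g : UQ | nrmQ g < 1 / 2} := by
    rw [ENNReal.toReal_pos_iff] at h2
    exact h2.1
  refine lt_of_lt_of_le h3 (measure_mono ?_)
  intro g hg
  simp only [mem_ofPred_eq, nrmQ] at hg
  rw [Function.mem_support]
  have hz : mQ (g : ℍ[ℝ]) 0 0 ≠ 0 := by
    intro h0
    have hre : (g : ℍ[ℝ]).re = 0 := by
      have := congrArg Complex.re h0
      simpa [mQ] using this
    have h5 : (1 : ℝ) ≤ ‖(g : ℍ[ℝ]) - 1‖ := by
      have h6 : ‖(g : ℍ[ℝ]) - 1‖ * ‖(g : ℍ[ℝ]) - 1‖ = Quaternion.normSq ((g : ℍ[ℝ]) - 1) :=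
        (Quaternion.normSq_eq_norm_mul_self _).symm
      rw [Quaternion.normSq_def'] at h6
      simp [hre] at h6
      nlinarith [sq_nonneg (g : ℍ[ℝ]).imI, sq_nonneg (g : ℍ[ℝ]).imJ, sq_nonneg (g : ℍ[ℝ]).imK,
        norm_nonneg ((g : ℍ[ℝ]) - 1)]
    linarith
  exact pow_ne_zero _ (norm_ne_zero_iff.mpr hz)

theorem Th_inj {l k : ℕ} (hl : 1 ≤ l) {v : Ix l → ℂ} (hv : v ≠ 0)
    (hs : ∀ x y, wt x = wt y → v x = v y) {u : Ix (l + 2 * k) → ℂ}
    (hu : u ∈ hw (l + 2 * k) k) (h0 : Th v u = 0) : u = 0 := by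
  have h1 : ThL l u (e0 l) = 0 := by
    refine e0_span v hv hs (ThL l u) fun g => ?_
    change Th (rho l g *ᵥ v) u = 0
    rw [← Th_rho, h0, Matrix.mulVec_zero]
  have h2 := Th_pair hl hu
  have h3 : Th (e0 l) u = 0 := h1
  rw [h3, dotProduct_zero] at h2
  have h4 : ((∫ g : UQ, ‖mQ (g : ℍ[ℝ]) 0 0‖ ^ (2 * l) ∂muQ : ℝ) : ℂ) ≠ 0 := by
    exact_mod_cast (integral_pos_z l).ne'
  have h5 := (mul_eq_zero.mp h2.symm).resolve_left h4
  exact dotProduct_star_self_eq_zero.mp h5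

/-- (M3) multiplicity -/
theorem mult_bound {l k : ℕ} (hl : 1 ≤ l) (hk : 1 ≤ k) {lam : ℝ} {v : Ix l → ℂ}
    (h : IsEig l lam v) (hs : ∀ x y, wt x = wt y → v x = v y) :
    (l + 2 * k).choose k ≤
      Module.finrank ℂ (Module.End.eigenspace (Matrix.toLin' (TN (l + 2 * k))) (lam : ℂ)) +
        (l + 2 * k).choose (k - 1) := by
  let R : (Ix (l + 2 * k) → ℂ) →ₗ[ℂ] (Ix (l + 2 * k) → ℂ) :=
    { toFun := fun u => Th v u
      map_add' := Th_add_right v
      map_smul' := fun c u => Th_smul_right c v u }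
  let F : hw (l + 2 * k) k →ₗ[ℂ]
      Module.End.eigenspace (Matrix.toLin' (TN (l + 2 * k))) (lam : ℂ) :=
    (R.comp (hw (l + 2 * k) k).subtype).codRestrict _ (fun u => by
      rw [Module.End.mem_eigenspace_iff]
      exact Th_TN h u.1)
  have hinj : Function.Injective F := by
    rw [← LinearMap.ker_eq_bot, LinearMap.ker_eq_bot']
    intro u hu0
    have h1 : Th v u.1 = 0 := congrArg Subtype.val hu0
    exact Subtype.ext (Th_inj hl h.ne hs u.2 h1)
  have h2 := LinearMap.finrank_le_finrank_of_injective hinj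
  have h3 := hw_finrank (l + 2 * k) k hk
  omega

end BorelEq.GapT
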