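import Pool.Agent.Lib.MP_75103d_lc.A_TDefs

/-!
MP_75103d_lc, part (A), tensor block (helper50), (M4): trace.
-/

set_option autoImplicit false

open MeasureTheory Set Matrix
open scoped Quaternion

namespace BorelEq.GapT

theorem herm_decomp {n : Type*} [Fintype n] [DecidableEq n] (H : Matrix n n ℂ) (hH : Hᴴ = H) :
    ∃ (U : Matrix n n ℂ) (ev : n → ℝ), star U * U = 1 ∧ U * star U = 1 ∧
      H = U * Matrix.diagonal (fun i => (ev i : ℂ)) * star U := by
  have hA : H.IsHermitian := hH
  refine ⟨(hA.eigenvectorUnitary : Matrix n n ℂ), hA.eigenvalues, ?_, ?_, ?_⟩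
  · exact Unitary.coe_star_mul_self _
  · exact Unitary.coe_mul_star_self _
  · conv_lhs => rw [hA.spectral_theorem, Unitary.conjStarAlgAut_apply]
    rfl

theorem decomp_pow {n : Type*} [Fintype n] [DecidableEq n] (U D : Matrix n n ℂ)
    (h1 : star U * U = 1) (p : ℕ) (h2 : U * star U = 1) :
    (U * D * star U) ^ p = U * D ^ p * star U := by
  induction p with
  | zero => simp [h2]
  | succ p ih =>
    rw [pow_succ, ih, pow_succ]
    calc U * D ^ p * star U * (U * D * star U) = U * D ^ p * (star U * U) * D * star U := by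
          simp only [Matrix.mul_assoc]
      _ = _ := by rw [h1]; simp only [Matrix.mul_assoc, Matrix.mul_one]

/-- trace of an even power of a Hermitian matrix with an eigenvalue of high multiplicity -/
theorem trace_bound {n : Type*} [Fintype n] [DecidableEq n] (H : Matrix n n ℂ) (hH : Hᴴ = H)
    (lam : ℝ) (m : ℕ) :
    (Module.finrank ℂ (Module.End.eigenspace (Matrix.toLin' H) (lam : ℂ)) : ℝ) * lam ^ (2 * m) ≤
      ((H ^ (2 * m)).trace).re := by
  classical
  obtain ⟨U, ev, h1, h2, h3⟩ := herm_decomp H hH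
  have htr : ((H ^ (2 * m)).trace).re = ∑ i, (ev i) ^ (2 * m) := by
    rw [h3, decomp_pow U _ h1 _ h2, Matrix.trace_mul_comm, ← Matrix.mul_assoc, h1, Matrix.one_mul,
      Matrix.diagonal_pow, Matrix.trace_diagonal, Complex.re_sum]
    refine Finset.sum_congr rfl fun i _ => ?_
    rw [Pi.pow_apply, ← Complex.ofReal_pow, Complex.ofReal_re]
  have hcard : Module.finrank ℂ (Module.End.eigenspace (Matrix.toLin' H) (lam : ℂ)) ≤
      Fintype.card {i // ev i = lam} := by
    let F : Module.End.eigenspace (Matrix.toLin' H) (lam : ℂ) →ₗ[ℂ] ({i // ev i = lam} → ℂ) :=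
      { toFun := fun x i => (star U *ᵥ x.1) i.1
        map_add' := by
          intro x y; funext i
          simp [Matrix.mulVec_add]
        map_smul' := by
          intro c x; funext i
          simp [Matrix.mulVec_smul] }
    have hinj : Function.Injective F := by
      rw [← LinearMap.ker_eq_bot, LinearMap.ker_eq_bot']
      intro x hx
      have hx1 : H *ᵥ x.1 = (lam : ℂ) • x.1 := by
        have := Module.End.mem_eigenspace_iff.mp x.2
        simpa using this
      have hx2 : Matrix.diagonal (fun i => (ev i : ℂ)) *ᵥ (star U *ᵥ x.1) =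
          (lam : ℂ) • (star U *ᵥ x.1) := by
        have h4 : star U *ᵥ (H *ᵥ x.1) = (lam : ℂ) • (star U *ᵥ x.1) := by
          rw [hx1, Matrix.mulVec_smul]
        have h8 : star U * H = Matrix.diagonal (fun i => (ev i : ℂ)) * star U := by
          rw [h3, ← Matrix.mul_assoc, ← Matrix.mul_assoc, h1, Matrix.one_mul]
        rw [← h4, Matrix.mulVec_mulVec, Matrix.mulVec_mulVec, h8]
      have hx3 : star U *ᵥ x.1 = 0 := by
        funext i
        by_cases hi : ev i = lam
        · exact congrFun hx ⟨i, hi⟩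
        · have h5 := congrFun hx2 i
          rw [Matrix.mulVec_diagonal, Pi.smul_apply, smul_eq_mul] at h5
          have h6 : ((ev i : ℂ) - lam) * (star U *ᵥ x.1) i = 0 := by
            rw [sub_mul, h5, sub_self]
          refine (mul_eq_zero.mp h6).resolve_left ?_
          rw [sub_eq_zero]
          exact_mod_cast hi
      apply Subtype.ext
      have h7 : U *ᵥ (star U *ᵥ x.1) = x.1 := by
        rw [Matrix.mulVec_mulVec, h2, Matrix.one_mulVec]
      rw [← h7, hx3, Matrix.mulVec_zero]
      rfl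
    have := LinearMap.finrank_le_finrank_of_injective hinj
    rwa [Module.finrank_fintype_fun_eq_card] at this
  rw [htr]
  have hnn : ∀ y : ℝ, 0 ≤ y ^ (2 * m) := fun y => by rw [pow_mul]; positivity
  calc (Module.finrank ℂ (Module.End.eigenspace (Matrix.toLin' H) (lam : ℂ)) : ℝ) * lam ^ (2 * m)
      ≤ (Fintype.card {i // ev i = lam} : ℝ) * lam ^ (2 * m) := by
        gcongr
        · exact hnn lam
    _ = ∑ i ∈ Finset.univ.filter (fun i => ev i = lam), (ev i) ^ (2 * m) := by
        rw [Finset.sum_congr rfl (g := fun _ => lam ^ (2 * m))]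
        · rw [Finset.sum_const, nsmul_eq_mul, Fintype.card_subtype]
        · intro i hi
          rw [(Finset.mem_filter.mp hi).2]
    _ ≤ ∑ i, (ev i) ^ (2 * m) :=
        Finset.sum_le_sum_of_subset_of_nonneg (Finset.filter_subset _ _) fun i _ _ => hnn _

/-- product of a word -/
def wprod {M : ℕ} (w : Fin M → Fin 6) : ℍ[ℤ] := (List.ofFn (fun t => bZ (w t))).prod

theorem sum_pow_words {R : Type*} [Ring R] (f : Fin 6 → R) (M : ℕ) :
    (∑ i, f i) ^ M = ∑ w : Fin M → Fin 6, (List.ofFn (fun t => f (w t))).prod := by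
  induction M with
  | zero => simp
  | succ M ih =>
    rw [pow_succ', ih, Finset.sum_mul_sum]
    rw [← (Fin.consEquiv (fun _ : Fin (M + 1) => Fin 6)).sum_comp]
    rw [Fintype.sum_prod_type]
    refine Finset.sum_congr rfl fun i _ => Finset.sum_congr rfl fun w _ => ?_
    rw [List.ofFn_succ, List.prod_cons]
    simp [Fin.consEquiv]

theorem rho_list_prod (N : ℕ) (L : List UQ) : rho N L.prod = (L.map (rho N)).prod := by
  induction L with
  | nil => simp [rho_one]
  | cons a L ih => simp [rho_mul, ih]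

theorem TN_pow (N M : ℕ) : (TN N) ^ M =
    (1 / 6 : ℂ) ^ M • ∑ w : Fin M → Fin 6, rho N (List.ofFn (fun t => bQ (w t))).prod := by
  unfold TN
  rw [smul_pow, sum_pow_words]
  congr 1
  refine Finset.sum_congr rfl fun w _ => ?_
  rw [rho_list_prod, List.map_ofFn]
  rfl

theorem bQ_prod {M : ℕ} (w : Fin M → Fin 6) :
    (((List.ofFn (fun t => bQ (w t))).prod : UQ) : ℍ[ℝ]) =
      (((Real.sqrt 5)⁻¹ : ℝ) ^ M) • toR (wprod w) := by
  induction M with
  | zero => simp [wprod, toR_one]
  | succ M ih =>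
    have h := ih (fun t => w t.succ)
    rw [List.ofFn_succ, List.prod_cons, Metric.unitSphere.coe_mul, h]
    unfold wprod
    rw [List.ofFn_succ, List.prod_cons, toR_mul, pow_succ']
    simp only [bQ]
    rw [smul_mul_smul_comm]

theorem bQ_prod_re {M : ℕ} (w : Fin M → Fin 6) :
    (((List.ofFn (fun t => bQ (w t))).prod : UQ) : ℍ[ℝ]).re =
      ((wprod w).re : ℝ) / (Real.sqrt 5) ^ M := by
  rw [bQ_prod, Quaternion.re_smul]
  simp [toR, div_eq_mul_inv, mul_comm]

/-- (M4) -/
theorem trace_words (N m : ℕ) : (((TN N) ^ (2 * m)).trace).re ≤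
    2 ^ N / 36 ^ m * ∑ w : Fin (2 * m) → Fin 6, |((wprod w).re : ℝ) / 5 ^ m| ^ N := by
  rw [TN_pow, Matrix.trace_smul, Matrix.trace_sum]
  simp_rw [rho_trace, bQ_prod_re]
  have h5 : (Real.sqrt 5) ^ (2 * m) = 5 ^ m := by
    rw [pow_mul, Real.sq_sqrt (by norm_num)]
  simp_rw [h5]
  have h6 : ((1 / 6 : ℂ) ^ (2 * m)) = (((1 / 36 : ℝ) ^ m : ℝ) : ℂ) := by
    rw [pow_mul]; push_cast; norm_num
  rw [h6, smul_eq_mul, Complex.re_ofReal_mul, Complex.re_sum]
  have h7 : (2 : ℝ) ^ N / 36 ^ m * ∑ w : Fin (2 * m) → Fin 6, |((wprod w).re : ℝ) / 5 ^ m| ^ N =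
      (1 / 36 : ℝ) ^ m * ∑ w : Fin (2 * m) → Fin 6,
        2 ^ N * |((wprod w).re : ℝ) / 5 ^ m| ^ N := by
    rw [← Finset.mul_sum, one_div, inv_pow]; ring
  rw [h7]
  gcongr with w
  rw [← Complex.ofReal_pow, Complex.ofReal_re, mul_pow, ← abs_pow]
  exact mul_le_mul_of_nonneg_left (le_abs_self _) (by positivity)

end BorelEq.GapT
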