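import Pool.Agent.Lib.MP_75103d_lc.A_TSymm
import Pool.Agent.Lib.MP_75103d_lc.A_TTheta
import Pool.Agent.Lib.MP_75103d_lc.A_TTrace
import Pool.Agent.Lib.MP_75103d_lc.A_TStrict
import Pool.Agent.Lib.MP_75103d_lc.A_TNum
import Pool.Agent.Lib.MP_75103d_lc.A_CMain

/-!
MP_75103d_lc, part (A), tensor block (helper50): the uniform bound for the eigenvalues.
-/

set_option autoImplicit false

open MeasureTheory Set Matrix
open scoped Quaternion

namespace BorelEq.GapT

theorem large_l : ∃ l0 : ℕ, ∀ l : ℕ, l0 ≤ l → ∀ (lam : ℝ) (v : Ix l → ℂ), IsEig l lam v →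
    (∀ x y, wt x = wt y → v x = v y) → lam ^ 2 ≤ 23 / 24 := by
  obtain ⟨C, hC, hwords⟩ := words_bound
  obtain ⟨l0, hl0⟩ := num_final C hC
  refine ⟨max l0 1, fun l hl lam v h hs => ?_⟩
  have hl1 : 1 ≤ l := le_trans (le_max_right _ _) hl
  refine hl0 l (le_trans (le_max_left _ _) hl) (lam ^ 2) (sq_nonneg _) fun m => ?_
  set k := 2 * l ^ 2 with hk
  have hk1 : 1 ≤ k := by rw [hk]; nlinarith
  set N := l + 2 * k with hN
  have hD := mult_bound hl1 hk1 h hs
  rw [← hN] at hD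
  set D := Module.finrank ℂ (Module.End.eigenspace (Matrix.toLin' (TN N)) (lam : ℂ)) with hDdef
  have h1 := trace_bound (TN N) (TN_herm N) lam m
  have h2 := trace_words N m
  have h3 := hwords m N (by omega)
  have h4 := choose_diff l hl1
  rw [← hk, ← hN] at h4
  have hD' : (N.choose k : ℝ) - (N.choose (k - 1) : ℝ) ≤ D := by
    have : (N.choose k : ℝ) ≤ D + (N.choose (k - 1) : ℝ) := by exact_mod_cast hD
    linarith
  have hDlow : (2 : ℝ) ^ N / (8 * l * (l + 1)) ≤ D := h4.trans hD'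
  have hlpos : (0 : ℝ) < l := by exact_mod_cast hl1
  have hx : 0 ≤ lam ^ (2 * m) := by rw [pow_mul]; positivity
  have h5 : (2 : ℝ) ^ N / (8 * l * (l + 1)) * lam ^ (2 * m) ≤ 2 ^ N / 36 ^ m *
      (C * ((81 / 4 : ℝ) ^ m + 36 ^ m * (11 / 10 : ℝ) ^ m / (N : ℝ) ^ (3 / 2 : ℝ))) :=
    calc (2 : ℝ) ^ N / (8 * l * (l + 1)) * lam ^ (2 * m) ≤ D * lam ^ (2 * m) := by gcongr
      _ ≤ _ := h1
      _ ≤ _ := h2
      _ ≤ _ := by gcongr
  rw [← pow_mul]
  have h6 : (9 / 16 : ℝ) ^ m = (81 / 4 : ℝ) ^ m / 36 ^ m := by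
    rw [← div_pow]; norm_num
  have h7 : lam ^ (2 * m) = ((2 : ℝ) ^ N / (8 * l * (l + 1)) * lam ^ (2 * m)) *
      ((8 * l * (l + 1)) / 2 ^ N) := by
    field_simp
  rw [h7]
  calc ((2 : ℝ) ^ N / (8 * l * (l + 1)) * lam ^ (2 * m)) * ((8 * l * (l + 1)) / 2 ^ N)
      ≤ (2 ^ N / 36 ^ m *
      (C * ((81 / 4 : ℝ) ^ m + 36 ^ m * (11 / 10 : ℝ) ^ m / (N : ℝ) ^ (3 / 2 : ℝ)))) *
        ((8 * l * (l + 1)) / 2 ^ N) := by gcongr
    _ = _ := by
      rw [h6]
      field_simp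

/-- finitely many eigenvalues for each `l` -/
theorem small_l (l : ℕ) (hl : 1 ≤ l) : ∃ r : ℝ, 0 ≤ r ∧ r < 1 ∧ ∀ (lam : ℝ) (v : Ix l → ℂ),
    IsEig l lam v → (∀ x y, wt x = wt y → v x = v y) → |lam| ≤ r := by
  classical
  -- the set of eigenvalues is finite
  let S : Set ℝ := {lam | ∃ v : Ix l → ℂ, IsEig l lam v ∧ ∀ x y, wt x = wt y → v x = v y}
  have hfin : S.Finite := by
    have h1 : {μ : ℂ | Module.End.HasEigenvalue (Matrix.toLin' (TN l)) μ}.Finite :=
      Module.End.finite_hasEigenvalue _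
    refine (h1.preimage (f := fun x : ℝ => (x : ℂ)) (Complex.ofReal_injective.injOn)).subset ?_
    rintro lam ⟨v, hv, _⟩
    refine Module.End.hasEigenvalue_of_hasEigenvector (x := v) ?_
    rw [Module.End.hasEigenvector_iff, Module.End.mem_eigenspace_iff]
    exact ⟨by simpa using hv.eig, hv.ne⟩
  rcases S.eq_empty_or_nonempty with he | hne
  · refine ⟨0, le_refl _, one_pos, fun lam v hv hs => ?_⟩
    exact absurd (show lam ∈ S from ⟨v, hv, hs⟩) (by rw [he]; exact Set.notMem_empty _)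
  · obtain ⟨lam0, ⟨v0, hv0, hs0⟩, hmax⟩ := Set.exists_max_image S (fun x => |x|) hfin hne
    exact ⟨|lam0|, abs_nonneg _, lam_lt_one hl hv0 hs0, fun lam v hv hs => hmax lam ⟨v, hv, hs⟩⟩

/-- MAIN THEOREM of the tensor block -/
theorem eig_bound : ∃ r : ℝ, 0 ≤ r ∧ r < 1 ∧ ∀ (N : ℕ) (lam : ℝ) (v : Ix N → ℂ),
    IsEig N lam v → |lam| ≤ r := by
  classical
  obtain ⟨l0, hl0⟩ := large_l
  choose f hf0 hf1 hf using small_l
  let r := (Finset.range (l0 + 1)).sup' (by simp) (fun l => if h : 1 ≤ l then f l h else 0)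
  refine ⟨max r (Real.sqrt (23 / 24)), ?_, ?_, ?_⟩
  · exact le_trans (Real.sqrt_nonneg _) (le_max_right _ _)
  · refine max_lt ?_ ?_
    · rw [Finset.sup'_lt_iff]
      intro l _
      split_ifs with h
      · exact hf1 l h
      · norm_num
    · rw [Real.sqrt_lt' (by norm_num)]; norm_num
  · intro N lam v hv
    obtain ⟨l, w, hl, hw, hs⟩ := exists_symm hv
    rcases Nat.lt_or_ge l l0 with h | h
    · refine le_trans (hf l hl lam w hw hs) (le_trans ?_ (le_max_left _ _))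
      have h2 : (fun l => if h : 1 ≤ l then f l h else 0) l ≤ r :=
        Finset.le_sup' (s := Finset.range (l0 + 1))
          (fun l => if h : 1 ≤ l then f l h else 0) (b := l) (by simp; omega)
      simp only [hl, dif_pos] at h2
      exact h2
    · refine le_trans ?_ (le_max_right _ _)
      exact Real.abs_le_sqrt (hl0 l h lam w hw hs)

end BorelEq.GapT
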