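import Pool.Agent.Lib.MP_75103d_lc.A_LGap2
import Pool.Agent.Lib.MP_75103d_lc.A_LWords
import Pool.Agent.Lib.MP_75103d_lc.A_TMain

/-!
MP_75103d_lc, part (A), L2 block (helper15): the spectral gap.
-/

set_option autoImplicit false

open MeasureTheory Set Matrix
open scoped Quaternion

namespace BorelEq.GapT

private theorem iter_sub_const (f : UQ → ℝ) (c : ℝ) (m : ℕ) :
    (Tf^[m] (fun g => f g - c)) = fun g => (Tf^[m] f) g - c := by
  induction m generalizing f with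
  | zero => rfl
  | succ m ih =>
    rw [Function.iterate_succ_apply, Function.iterate_succ_apply, Tf_sub f (fun _ => c), Tf_const]
    exact ih (Tf f)

private theorem integral_iter {f : UQ → ℝ} (hf : BM f) (m : ℕ) :
    ∫ g, (Tf^[m] f) g ∂muQ = ∫ g, f g ∂muQ := by
  induction m generalizing f with
  | zero => rfl
  | succ m ih =>
    rw [Function.iterate_succ_apply, ih hf.Tf, integral_Tf hf]

private theorem gap_iter0 {r : ℝ} (hr0 : 0 ≤ r)
    (hr : ∀ (N : ℕ) (lam : ℝ) (v : Ix N → ℂ), IsEig N lam v → |lam| ≤ r) {f : UQ → ℝ}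
    (hf : BM f) (h0 : ∫ g, f g ∂muQ = 0) (m : ℕ) :
    ∫ g, ((Tf^[m] f) g) ^ 2 ∂muQ ≤ (r ^ m) ^ 2 * ∫ g, (f g) ^ 2 ∂muQ := by
  induction m with
  | zero => simp
  | succ m ih =>
    rw [Function.iterate_succ_apply']
    have h1 : ∫ g, (Tf^[m] f) g ∂muQ = 0 := by rw [integral_iter hf, h0]
    calc ∫ g, (Tf (Tf^[m] f) g) ^ 2 ∂muQ ≤ r ^ 2 * ∫ g, ((Tf^[m] f) g) ^ 2 ∂muQ :=
          gap_BM hr0 hr (hf.iter m) h1
      _ ≤ r ^ 2 * ((r ^ m) ^ 2 * ∫ g, (f g) ^ 2 ∂muQ) :=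
          mul_le_mul_of_nonneg_left ih (sq_nonneg r)
      _ = (r ^ (m + 1)) ^ 2 * ∫ g, (f g) ^ 2 ∂muQ := by ring

theorem gap_iter {r : ℝ} (hr0 : 0 ≤ r)
    (hr : ∀ (N : ℕ) (lam : ℝ) (v : Ix N → ℂ), IsEig N lam v → |lam| ≤ r) {f : UQ → ℝ}
    (hf : BM f) (m : ℕ) :
    ∫ g, ((Tf^[m] f) g - ∫ h, f h ∂muQ) ^ 2 ∂muQ ≤ (r ^ m) ^ 2 * ∫ g, (f g) ^ 2 ∂muQ := by
  have : IsProbabilityMeasure muQ := muQ_prob'
  set c : ℝ := ∫ h, f h ∂muQ with hc
  have hB : BM (fun g => f g - c) := hf.sub (BM.const c)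
  have hm : ∫ g, (f g - c) ∂muQ = 0 := by
    rw [integral_sub hf.integrable (integrable_const c)]
    simp [hc]
  have h1 := gap_iter0 hr0 hr hB hm m
  rw [iter_sub_const] at h1
  refine h1.trans (mul_le_mul_of_nonneg_left ?_ (sq_nonneg _))
  have h2 : ∫ g, (f g - c) ^ 2 ∂muQ = ∫ g, (f g) ^ 2 ∂muQ - c ^ 2 := by
    have h3 : (fun g => (f g - c) ^ 2) = fun g => (f g ^ 2 - (2 * c) * f g) + c ^ 2 := by
      funext g; ring
    have i1 : Integrable (fun g => f g ^ 2) muQ := hf.sq.integrable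
    have i2 : Integrable (fun g => (2 * c) * f g) muQ := hf.integrable.const_mul _
    have i3 : Integrable (fun g => f g ^ 2 - (2 * c) * f g) muQ := i1.sub i2
    rw [h3, integral_add i3 (integrable_const _), integral_sub i1 i2, integral_const_mul, ← hc]
    simp
    ring
  rw [h2]
  linarith [sq_nonneg c]

theorem spectral_gap' (ρ : ℝ) (hρ : 0 < ρ) :
    ∃ (d : ℕ) (s : Fin d → UQ) (ι : Fin d → Fin d), 0 < d ∧ (∀ i, ι (ι i) = i) ∧
      (∀ i, s (ι i) = (s i)⁻¹) ∧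
      ∀ f : UQ → ℝ, Measurable f → (∃ C, ∀ g, |f g| ≤ C) →
        ∫ g, ((∑ i, f (s i * g)) / d - ∫ h, f h ∂muQ) ^ 2 ∂muQ ≤ ρ ^ 2 * ∫ g, (f g) ^ 2 ∂muQ := by
  obtain ⟨r, hr0, hr1, hr⟩ := eig_bound
  obtain ⟨m, hm⟩ := exists_pow_lt_of_lt_one hρ hr1
  let e : (Fin m → Fin 6) ≃ Fin (6 ^ m) := finFunctionFinEquiv
  refine ⟨6 ^ m, fun i => wQ (e.symm i), fun i => e (wI (e.symm i)), by positivity, ?_, ?_, ?_⟩
  · intro i
    simp [wI_wI]
  · intro i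
    simp [wQ_wI]
  · intro f hfm hfb
    have hf : BM f := ⟨hfm, hfb⟩
    have h1 := gap_iter hr0 hr hf m
    have h2 : ∀ g, (∑ i, f (wQ (e.symm i) * g)) / ((6 ^ m : ℕ) : ℝ) = (Tf^[m] f) g := by
      intro g
      rw [Tf_iter_words]
      congr 1
      · exact Fintype.sum_equiv e.symm _ _ (fun i => rfl)
      · push_cast; rfl
    simp only [h2]
    refine h1.trans (mul_le_mul_of_nonneg_right ?_ (integral_nonneg fun g => sq_nonneg _))
    exact pow_le_pow_left₀ (pow_nonneg hr0 m) hm.le 2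

end BorelEq.GapT
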