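import Pool.Agent.Lib.MP_75103d_lc.Defs

/-! MP_75103d_lc, part (A): lower bound for the measure of small balls (helper15). -/

set_option autoImplicit false

open MeasureTheory Set
open scoped Pointwise

namespace BorelEq.GapT

/-- the box -/
private def A_MuBall_box (δ : ℝ) : Set (Quaternion ℝ) :=
  {x | (1 / 2 ≤ x.re ∧ x.re ≤ 3 / 4) ∧ |x.imI| ≤ δ / 16 ∧ |x.imJ| ≤ δ / 16 ∧ |x.imK| ≤ δ / 16}

private theorem A_MuBall_vol (δ : ℝ) (hδ : 0 < δ) :
    (volume : Measure (Quaternion ℝ)) (A_MuBall_box δ) = ENNReal.ofReal (δ ^ 3 / 2048) := by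
  have h1 : MeasurePreserving (Quaternion.linearIsometryEquivTuple) volume volume :=
    LinearIsometryEquiv.measurePreserving _
  have h2 := PiLp.volume_preserving_ofLp (Fin 4)
  have h3 := h2.comp h1
  set a : Fin 4 → ℝ := ![1 / 2, -(δ / 16), -(δ / 16), -(δ / 16)] with ha
  set b : Fin 4 → ℝ := ![3 / 4, δ / 16, δ / 16, δ / 16] with hb
  have hbox : A_MuBall_box δ =
      (WithLp.ofLp ∘ Quaternion.linearIsometryEquivTuple) ⁻¹' (Icc a b) := by
    ext x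
    simp only [A_MuBall_box, mem_ofPred_eq, mem_preimage, Function.comp, mem_Icc, Pi.le_def,
      Fin.forall_fin_succ, Quaternion.linearIsometryEquivTuple_apply, ha, hb, abs_le]
    simp
    tauto
  rw [hbox, h3.measure_preimage measurableSet_Icc.nullMeasurableSet, Real.volume_Icc_pi]
  simp only [Fin.prod_univ_four, ha, hb]
  simp only [Matrix.cons_val_zero, Matrix.cons_val_one, Matrix.cons_val]
  rw [← ENNReal.ofReal_mul (by norm_num), ← ENNReal.ofReal_mul (by norm_num; positivity),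
    ← ENNReal.ofReal_mul (by norm_num; positivity)]
  congr 1
  ring

private theorem A_MuBall_sub (δ : ℝ) (hδ : 0 < δ) (hδ1 : δ ≤ 1) :
    A_MuBall_box δ ⊆ Ioo (0 : ℝ) 1 • ((Subtype.val : UQ → Quaternion ℝ) '' {g : UQ | nrmQ g < δ}) := by
  rintro x ⟨⟨hx1, hx2⟩, hI, hJ, hK⟩
  have hn : ‖x‖ ^ 2 = x.re ^ 2 + x.imI ^ 2 + x.imJ ^ 2 + x.imK ^ 2 := by
    rw [sq, ← Quaternion.normSq_eq_norm_mul_self, Quaternion.normSq_def']
  have hI2 : x.imI ^ 2 ≤ (δ / 16) ^ 2 := sq_le_sq' (by linarith [(abs_le.mp hI).1]) (abs_le.mp hI).2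
  have hJ2 : x.imJ ^ 2 ≤ (δ / 16) ^ 2 := sq_le_sq' (by linarith [(abs_le.mp hJ).1]) (abs_le.mp hJ).2
  have hK2 : x.imK ^ 2 ≤ (δ / 16) ^ 2 := sq_le_sq' (by linarith [(abs_le.mp hK).1]) (abs_le.mp hK).2
  have hδ2 : δ ^ 2 ≤ 1 := by nlinarith
  have hn0 : 0 ≤ ‖x‖ := norm_nonneg x
  have hn1 : 1 / 2 ≤ ‖x‖ := by
    by_contra h
    push Not at h
    nlinarith [sq_nonneg x.imI, sq_nonneg x.imJ, sq_nonneg x.imK]
  have hre : x.re ≤ ‖x‖ := by
    by_contra h
    push Not at h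
    nlinarith [sq_nonneg x.imI, sq_nonneg x.imJ, sq_nonneg x.imK]
  have hn2 : ‖x‖ < 1 := by
    by_contra h
    push Not at h
    nlinarith
  have hpos : 0 < ‖x‖ := by linarith
  have hmem : (‖x‖⁻¹ • x) ∈ Metric.sphere (0 : Quaternion ℝ) 1 := by
    rw [mem_sphere_zero_iff_norm, norm_smul, norm_inv, norm_norm]
    exact inv_mul_cancel₀ hpos.ne'
  refine Set.mem_smul.mpr ⟨‖x‖, ⟨hpos, hn2⟩, ‖x‖⁻¹ • x, ⟨⟨‖x‖⁻¹ • x, hmem⟩, ?_, rfl⟩, ?_⟩
  · show ‖‖x‖⁻¹ • x - 1‖ < δ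
    have e1 : ‖‖x‖⁻¹ • x - 1‖ ^ 2 = 2 - 2 * (‖x‖⁻¹ * x.re) := by
      rw [sq, ← Quaternion.normSq_eq_norm_mul_self, Quaternion.normSq_def']
      simp only [Quaternion.re_sub, Quaternion.re_smul, Quaternion.re_one,
        Quaternion.imI_sub, Quaternion.imI_smul, Quaternion.imI_one,
        Quaternion.imJ_sub, Quaternion.imJ_smul, Quaternion.imJ_one,
        Quaternion.imK_sub, Quaternion.imK_smul, Quaternion.imK_one, smul_eq_mul]
      have e2 : ‖x‖⁻¹ ^ 2 * (x.re ^ 2 + x.imI ^ 2 + x.imJ ^ 2 + x.imK ^ 2) = 1 := by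
        rw [← hn]
        field_simp
      linear_combination e2
    have e3 : ‖x‖⁻¹ * x.re = 1 - (‖x‖ - x.re) / ‖x‖ := by
      field_simp
      ring
    -- ‖x‖ - re = (im part)^2 / (‖x‖ + re)
    have e4 : (‖x‖ - x.re) / ‖x‖ ≤ 2 * (3 * (δ / 16) ^ 2) := by
      rw [div_le_iff₀ hpos]
      have h5 : (‖x‖ - x.re) * (‖x‖ + x.re) ≤ 3 * (δ / 16) ^ 2 := by nlinarith
      nlinarith [mul_nonneg (sub_nonneg.mpr hre) (by linarith : (0 : ℝ) ≤ ‖x‖ + x.re - 1),
        mul_nonneg (sq_nonneg δ) (by linarith : (0 : ℝ) ≤ ‖x‖ - 1 / 2)]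
    have e5 : ‖‖x‖⁻¹ • x - 1‖ ^ 2 < δ ^ 2 := by
      rw [e1, e3]
      nlinarith
    exact lt_of_pow_lt_pow_left₀ 2 hδ.le e5
  · show ‖x‖ • (‖x‖⁻¹ • x) = x
    rw [smul_smul, mul_inv_cancel₀ hpos.ne', one_smul]

/-- `Measure.toSphere_apply'`: the cone over the ball contains the box of quaternions with real
part in `[1/2, 3/4]` and imaginary coordinates of absolute value at most `δ / 16` -/
theorem muQ_ball0 : ∃ c : ℝ, 0 < c ∧ ∀ δ : ℝ, 0 < δ → δ ≤ 1 →
    c * δ ^ 3 ≤ (muQ {g : UQ | nrmQ g < δ}).toReal := by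
  set T : ENNReal := (volume : Measure (Quaternion ℝ)).toSphere univ with hT
  have hT0 : T ≠ 0 := by
    rw [hT, Measure.measure_univ_ne_zero]
    exact Measure.toSphere_ne_zero _
  have hT1 : T ≠ ⊤ := measure_ne_top _ _
  have hTr : 0 < T.toReal := ENNReal.toReal_pos hT0 hT1
  refine ⟨T.toReal⁻¹ * (1 / 2048), by positivity, fun δ hδ hδ1 => ?_⟩
  have hmeas : MeasurableSet {g : UQ | nrmQ g < δ} := by
    apply measurableSet_lt _ measurable_const
    unfold nrmQ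
    exact ((continuous_subtype_val.sub continuous_const).norm).measurable
  have h1 : (muQ {g : UQ | nrmQ g < δ}).toReal =
      T.toReal⁻¹ * ((volume : Measure (Quaternion ℝ)).toSphere {g : UQ | nrmQ g < δ}).toReal := by
    rw [muQ, Measure.smul_apply, smul_eq_mul, ENNReal.toReal_mul, ENNReal.toReal_inv]
  rw [h1, mul_assoc]
  refine mul_le_mul_of_nonneg_left ?_ (by positivity)
  have h2 : ENNReal.ofReal (δ ^ 3 / 2048) ≤
      (volume : Measure (Quaternion ℝ)).toSphere {g : UQ | nrmQ g < δ} := by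
    rw [Measure.toSphere_apply' _ hmeas, Quaternion.finrank_eq_four]
    calc ENNReal.ofReal (δ ^ 3 / 2048) = volume (A_MuBall_box δ) := (A_MuBall_vol δ hδ).symm
      _ ≤ volume (Ioo (0 : ℝ) 1 • ((Subtype.val : UQ → Quaternion ℝ) '' {g : UQ | nrmQ g < δ})) :=
          measure_mono (A_MuBall_sub δ hδ hδ1)
      _ ≤ ((4 : ℕ) : ENNReal) *
          volume (Ioo (0 : ℝ) 1 • ((Subtype.val : UQ → Quaternion ℝ) '' {g : UQ | nrmQ g < δ})) :=
          le_mul_of_one_le_left zero_le (by norm_num)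
  have h3 := ENNReal.toReal_mono (measure_ne_top _ _) h2
  rw [ENNReal.toReal_ofReal (by positivity)] at h3
  linarith

end BorelEq.GapT
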