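import Pool.Agent.Lib.MP_75103d_lc.Defs

/-!
MP_75103d_lc, part (A), tensor block (helper50): definitions and basic facts.
`W_N = (Fin N → Fin 2) → ℂ` is the `N`-th tensor power of `ℂ²`.
-/

set_option autoImplicit false

open MeasureTheory Set Matrix
open scoped Quaternion

namespace BorelEq.GapT

/-- index set of the standard basis of the `N`-th tensor power -/
abbrev Ix (N : ℕ) := Fin N → Fin 2

/-- number of slots with the second basis vector -/
def wt {N : ℕ} (x : Ix N) : ℕ := (Finset.univ.filter (fun i => x i = 1)).card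

/-- Kronecker power of a `2 × 2` matrix -/
def kp (N : ℕ) (M : Matrix (Fin 2) (Fin 2) ℂ) : Matrix (Ix N) (Ix N) ℂ :=
  fun x y => ∏ i, M (x i) (y i)

/-- the `2 × 2` matrix of a quaternion -/
def mQ (q : ℍ[ℝ]) : Matrix (Fin 2) (Fin 2) ℂ :=
  !![⟨q.re, q.imI⟩, ⟨q.imJ, q.imK⟩; ⟨-q.imJ, q.imK⟩, ⟨q.re, -q.imI⟩]

/-- the representation of `UQ` on the `N`-th tensor power -/
def rho (N : ℕ) (g : UQ) : Matrix (Ix N) (Ix N) ℂ := kp N (mQ (g : ℍ[ℝ]))

theorem kp_mul (N : ℕ) (A B : Matrix (Fin 2) (Fin 2) ℂ) : kp N (A * B) = kp N A * kp N B := by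
  ext x y
  simp only [kp, Matrix.mul_apply, Finset.prod_univ_sum, Finset.prod_mul_distrib]
  refine Finset.sum_bij (fun f _ => f) ?_ ?_ ?_ ?_ <;> simp

theorem kp_one (N : ℕ) : kp N 1 = 1 := by
  ext x y
  simp only [kp, Matrix.one_apply]
  by_cases h : x = y
  · subst h; simp
  · rw [if_neg h]
    obtain ⟨i, hi⟩ := Function.ne_iff.mp h
    exact Finset.prod_eq_zero (Finset.mem_univ i) (by simp [hi])

theorem kp_conjTranspose (N : ℕ) (A : Matrix (Fin 2) (Fin 2) ℂ) : (kp N A)ᴴ = kp N Aᴴ := by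
  ext x y
  simp [kp, Matrix.conjTranspose_apply]

theorem kp_trace (N : ℕ) (A : Matrix (Fin 2) (Fin 2) ℂ) : (kp N A).trace = A.trace ^ N := by
  simp only [Matrix.trace, Matrix.diag_apply, kp]
  rw [← Fin.prod_const, Finset.prod_univ_sum]
  refine Finset.sum_bij (fun f _ => f) ?_ ?_ ?_ ?_ <;> simp

theorem mQ_mul (p q : ℍ[ℝ]) : mQ (p * q) = mQ p * mQ q := by
  ext i j
  fin_cases i <;> fin_cases j <;>
    simp [mQ, Matrix.mul_apply, Fin.sum_univ_two, Complex.ext_iff] <;> constructor <;> ring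

theorem mQ_one : mQ 1 = 1 := by
  ext i j
  fin_cases i <;> fin_cases j <;> simp [mQ, Complex.ext_iff]

theorem mQ_star (q : ℍ[ℝ]) : mQ (star q) = (mQ q)ᴴ := by
  ext i j
  fin_cases i <;> fin_cases j <;> simp [mQ, Matrix.conjTranspose_apply, Complex.ext_iff]

theorem mQ_trace (q : ℍ[ℝ]) : (mQ q).trace = ((2 * q.re : ℝ) : ℂ) := by
  simp [mQ, Matrix.trace, Fin.sum_univ_two, Complex.ext_iff]; ring

theorem normSq_UQ (g : UQ) : Quaternion.normSq (g : ℍ[ℝ]) = 1 := by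
  have h : ‖(g : ℍ[ℝ])‖ = 1 := by simp
  rw [Quaternion.normSq_eq_norm_mul_self, h]; norm_num

theorem mQ_det (g : UQ) : (mQ (g : ℍ[ℝ])).det = 1 := by
  have h := normSq_UQ g
  rw [Quaternion.normSq_def'] at h
  rw [Matrix.det_fin_two]
  simp only [mQ, Matrix.of_apply, Matrix.cons_val', Matrix.cons_val_zero, Matrix.cons_val_one,
    Complex.ext_iff, Complex.sub_re, Complex.mul_re, Complex.one_re,
    Complex.sub_im, Complex.mul_im, Complex.one_im]
  constructor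
  · simp; nlinarith [h]
  · simp; ring

theorem coe_inv_UQ (g : UQ) : ((g⁻¹ : UQ) : ℍ[ℝ]) = star (g : ℍ[ℝ]) := by
  rw [Metric.unitSphere.coe_inv, Quaternion.inv_def, normSq_UQ]
  simp

theorem rho_mul (N : ℕ) (g h : UQ) : rho N (g * h) = rho N g * rho N h := by
  simp only [rho, Metric.unitSphere.coe_mul, mQ_mul, kp_mul]

theorem rho_one (N : ℕ) : rho N 1 = 1 := by
  simp only [rho, Metric.unitSphere.coe_one, mQ_one, kp_one]

theorem rho_conj (N : ℕ) (g : UQ) : (rho N g)ᴴ = rho N g⁻¹ := by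
  simp only [rho, kp_conjTranspose, coe_inv_UQ, mQ_star]

theorem rho_trace (N : ℕ) (g : UQ) : (rho N g).trace = ((2 * (g : ℍ[ℝ]).re : ℝ) : ℂ) ^ N := by
  simp only [rho, kp_trace, mQ_trace]

theorem mQ_cont (i j : Fin 2) : Continuous (fun q : ℍ[ℝ] => mQ q i j) := by
  have hre : Continuous (fun q : ℍ[ℝ] => q.re) := Quaternion.continuous_re
  have hi : Continuous (fun q : ℍ[ℝ] => q.imI) := Quaternion.continuous_imI
  have hj : Continuous (fun q : ℍ[ℝ] => q.imJ) := Quaternion.continuous_imJ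
  have hk : Continuous (fun q : ℍ[ℝ] => q.imK) := Quaternion.continuous_imK
  have mk : ∀ {f h : ℍ[ℝ] → ℝ}, Continuous f → Continuous h →
      Continuous (fun q => (⟨f q, h q⟩ : ℂ)) := by
    intro f h hf hh
    have : (fun q => (⟨f q, h q⟩ : ℂ)) = fun q => (f q : ℂ) + (h q : ℂ) * Complex.I := by
      funext q; simp [Complex.ext_iff]
    rw [this]
    exact (Complex.continuous_ofReal.comp hf).add
      ((Complex.continuous_ofReal.comp hh).mul continuous_const)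
  fin_cases i <;> fin_cases j <;> simp only [mQ, Matrix.of_apply, Matrix.cons_val', Fin.zero_eta,
    Fin.mk_one, Matrix.cons_val_zero, Matrix.cons_val_one, Matrix.cons_val_fin_one]
  · exact mk hre hi
  · exact mk hj hk
  · exact mk hj.neg hk
  · exact mk hre hi.neg

theorem rho_cont (N : ℕ) (x y : Ix N) : Continuous (fun g : UQ => rho N g x y) := by
  unfold rho kp
  exact continuous_finsetProd _ fun i _ => (mQ_cont _ _).comp continuous_subtype_val

/-- integer quaternions `1 ± 2i, 1 ± 2j, 1 ± 2k` -/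
def bZ : Fin 6 → ℍ[ℤ] :=
  ![⟨1, 2, 0, 0⟩, ⟨1, -2, 0, 0⟩, ⟨1, 0, 2, 0⟩, ⟨1, 0, -2, 0⟩, ⟨1, 0, 0, 2⟩, ⟨1, 0, 0, -2⟩]

/-- the involution of the index set -/
def bI : Fin 6 → Fin 6 := ![1, 0, 3, 2, 5, 4]

/-- real quaternion of an integer quaternion -/
def toR (q : ℍ[ℤ]) : ℍ[ℝ] := ⟨q.re, q.imI, q.imJ, q.imK⟩

theorem toR_mul (p q : ℍ[ℤ]) : toR (p * q) = toR p * toR q := by
  ext <;> simp [toR]

theorem toR_one : toR 1 = 1 := by
  ext <;> simp [toR]

theorem bQ_mem (i : Fin 6) : ((Real.sqrt 5)⁻¹ : ℝ) • toR (bZ i) ∈ Metric.sphere (0 : ℍ[ℝ]) 1 := by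
  have h5 : Quaternion.normSq (toR (bZ i)) = 5 := by
    rw [Quaternion.normSq_def']
    fin_cases i <;> simp [bZ, toR] <;> norm_num
  have h : ‖toR (bZ i)‖ = Real.sqrt 5 := by
    rw [← h5, Quaternion.normSq_eq_norm_mul_self, Real.sqrt_mul_self (norm_nonneg _)]
  rw [mem_sphere_zero_iff_norm, norm_smul, h, Real.norm_of_nonneg (by positivity)]
  exact inv_mul_cancel₀ (by positivity)

/-- the six unit quaternions -/
noncomputable def bQ (i : Fin 6) : UQ := ⟨((Real.sqrt 5)⁻¹ : ℝ) • toR (bZ i), bQ_mem i⟩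

theorem bI_bI (i : Fin 6) : bI (bI i) = i := by
  fin_cases i <;> rfl

theorem bQ_inv (i : Fin 6) : bQ (bI i) = (bQ i)⁻¹ := by
  apply Subtype.ext
  rw [coe_inv_UQ]
  fin_cases i <;> (ext <;> simp [bQ, bI, bZ, toR])

/-- the averaging operator on the `N`-th tensor power -/
noncomputable def TN (N : ℕ) : Matrix (Ix N) (Ix N) ℂ := (1 / 6 : ℂ) • ∑ i, rho N (bQ i)

theorem TN_herm (N : ℕ) : (TN N)ᴴ = TN N := by
  have h : ∑ i, rho N (bQ i)⁻¹ = ∑ i, rho N (bQ i) := by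
    simp_rw [← bQ_inv]
    exact Fintype.sum_bijective bI (Function.Involutive.bijective bI_bI) _ _ fun i => rfl
  unfold TN
  rw [Matrix.conjTranspose_smul, Matrix.conjTranspose_sum]
  simp_rw [rho_conj]
  rw [h]
  simp

/-- `v` is an eigenvector of `TN N` with eigenvalue `lam`, perpendicular to the invariants -/
structure IsEig (N : ℕ) (lam : ℝ) (v : Ix N → ℂ) : Prop where
  ne : v ≠ 0
  eig : TN N *ᵥ v = (lam : ℂ) • v
  perp : ∀ z : Ix N → ℂ, (∀ g : UQ, rho N g *ᵥ z = z) → star z ⬝ᵥ v = 0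

/-- the vector `e₀ ⊗ ... ⊗ e₀` -/
def e0 (N : ℕ) : Ix N → ℂ := Pi.single 0 1

end BorelEq.GapT
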