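import Pool.Agent.Lib.MP_75103d_lc.A_TDefs

/-!
MP_75103d_lc, part (A), tensor block (helper50), (M2): the translates of a symmetric tensor
span `e0`.
-/

set_option autoImplicit false

open MeasureTheory Set Matrix
open scoped Quaternion

namespace BorelEq.GapT

private theorem mem_of_normSq (q : ℍ[ℝ]) (h1 : Quaternion.normSq q = 1) :
    q ∈ Metric.sphere (0 : ℍ[ℝ]) 1 := by
  rw [mem_sphere_zero_iff_norm]
  rw [Quaternion.normSq_eq_norm_mul_self] at h1
  have h2 := norm_nonneg q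
  nlinarith

private theorem fin2_cases (a : Fin 2) : a = 0 ∨ a = 1 := by
  fin_cases a <;> simp

/-- the rotation with first row `(1, t) / √(1+t²)` -/
theorem exists_row (t : ℝ) : ∃ g : UQ, mQ (g : ℍ[ℝ]) 0 0 = ((Real.sqrt (1 + t ^ 2))⁻¹ : ℝ) ∧
    mQ (g : ℍ[ℝ]) 0 1 = (t * (Real.sqrt (1 + t ^ 2))⁻¹ : ℝ) := by
  have hpos : (0 : ℝ) < 1 + t ^ 2 := by positivity
  have hs : (Real.sqrt (1 + t ^ 2))⁻¹ ^ 2 * (1 + t ^ 2) = 1 := by
    rw [inv_pow, Real.sq_sqrt hpos.le]
    exact inv_mul_cancel₀ hpos.ne'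
  set c : ℝ := (Real.sqrt (1 + t ^ 2))⁻¹ with hc
  have hmem : (⟨c, 0, t * c, 0⟩ : ℍ[ℝ]) ∈ Metric.sphere (0 : ℍ[ℝ]) 1 := by
    apply mem_of_normSq
    rw [Quaternion.normSq_def']
    simp only
    nlinarith [hs]
  refine ⟨⟨_, hmem⟩, ?_, ?_⟩
  · simp [mQ, Complex.ext_iff]
  · simp [mQ, Complex.ext_iff]

/-- a symmetric nonzero tensor has a translate with nonzero `0`-coordinate -/
theorem exists_coord {l : ℕ} (v : Ix l → ℂ) (hv : v ≠ 0)
    (hs : ∀ x y, wt x = wt y → v x = v y) : ∃ g : UQ, (rho l g *ᵥ v) 0 ≠ 0 := by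
  by_contra hcon
  push Not at hcon
  have key : ∀ t : ℝ, ∑ y : Ix l, v y * (t : ℂ) ^ wt y = 0 := by
    intro t
    obtain ⟨g, h0, h1⟩ := exists_row t
    have h := hcon g
    have hpos : (0 : ℝ) < 1 + t ^ 2 := by positivity
    set c : ℝ := (Real.sqrt (1 + t ^ 2))⁻¹ with hc
    have hc0 : (c : ℂ) ≠ 0 := by
      have : c ≠ 0 := inv_ne_zero (Real.sqrt_pos.mpr hpos).ne'
      exact_mod_cast this
    have hent : ∀ y : Ix l, rho l g 0 y = (c : ℂ) ^ l * (t : ℂ) ^ wt y := by
      intro y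
      have h2 : ∀ i, mQ (g : ℍ[ℝ]) ((0 : Ix l) i) (y i) = (c : ℂ) * (if y i = 1 then (t : ℂ) else 1) := by
        intro i
        have hy : y i = 0 ∨ y i = 1 := fin2_cases _
        rcases hy with hy | hy
        · rw [hy]; simp only [Pi.zero_apply, h0]; simp
        · rw [hy]; simp only [Pi.zero_apply, h1]; simp [mul_comm]
      unfold rho kp
      rw [Finset.prod_congr rfl fun i _ => h2 i, Finset.prod_mul_distrib, Finset.prod_const,
        Finset.card_univ, Fintype.card_fin, Finset.prod_ite, Finset.prod_const,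
        Finset.prod_const_one, mul_one]
      rfl
    rw [Matrix.mulVec, dotProduct] at h
    have h3 : ∑ y : Ix l, rho l g 0 y * v y = (c : ℂ) ^ l * ∑ y : Ix l, v y * (t : ℂ) ^ wt y := by
      rw [Finset.mul_sum]
      refine Finset.sum_congr rfl fun y _ => ?_
      rw [hent]; ring
    rw [h3] at h
    exact (mul_eq_zero.mp h).resolve_left (pow_ne_zero _ hc0)
  set P : Polynomial ℂ := ∑ y : Ix l, Polynomial.C (v y) * Polynomial.X ^ wt y with hP
  have hP0 : P = 0 := by
    apply Polynomial.eq_zero_of_infinite_isRoot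
    refine Set.infinite_of_injective_forall_mem Complex.ofReal_injective fun t => ?_
    simp only [Set.mem_ofPred_eq, Polynomial.IsRoot, hP, Polynomial.eval_finsetSum,
      Polynomial.eval_mul, Polynomial.eval_C, Polynomial.eval_pow, Polynomial.eval_X]
    exact key t
  apply hv
  funext x
  have hcoef : P.coeff (wt x) = ((Finset.univ.filter (fun y : Ix l => wt y = wt x)).card : ℂ) * v x := by
    rw [hP, Polynomial.finsetSum_coeff]
    simp only [Polynomial.coeff_C_mul, Polynomial.coeff_X_pow]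
    have : ∀ y : Ix l, (v y * if wt x = wt y then (1 : ℂ) else 0) = if wt y = wt x then v x else 0 := by
      intro y
      by_cases h : wt y = wt x
      · rw [if_pos h.symm, if_pos h, mul_one]; exact hs y x h
      · rw [if_neg (fun h' => h h'.symm), if_neg h, mul_zero]
    rw [Finset.sum_congr rfl fun y _ => this y, ← Finset.sum_filter, Finset.sum_const, nsmul_eq_mul]
  rw [hP0, Polynomial.coeff_zero] at hcoef
  have hcard : ((Finset.univ.filter (fun y : Ix l => wt y = wt x)).card : ℂ) ≠ 0 := by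
    have : 0 < (Finset.univ.filter (fun y : Ix l => wt y = wt x)).card :=
      Finset.card_pos.mpr ⟨x, by simp⟩
    exact_mod_cast this.ne'
  exact (mul_eq_zero.mp hcoef.symm).resolve_left hcard


/-- the diagonal element acts diagonally -/
theorem exists_diag' (z : ℂ) (hz : ‖z‖ = 1) : ∃ g : UQ, ∀ (N : ℕ) (v : Ix N → ℂ) (x : Ix N),
    z ^ (2 * wt x) * (rho N g *ᵥ v) x = z ^ N * v x := by
  have hzz : z.re * z.re + z.im * z.im = 1 := by
    have := Complex.normSq_eq_norm_sq z
    rw [hz, Complex.normSq_apply] at this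
    simpa using this
  have hmem : (⟨z.re, z.im, 0, 0⟩ : ℍ[ℝ]) ∈ Metric.sphere (0 : ℍ[ℝ]) 1 := by
    apply mem_of_normSq
    rw [Quaternion.normSq_def']
    simp only
    nlinarith [hzz]
  refine ⟨⟨_, hmem⟩, fun N v x => ?_⟩
  set q : ℍ[ℝ] := ⟨z.re, z.im, 0, 0⟩ with hq
  have h00 : mQ q 0 0 = z := by simp [mQ, hq]
  have h01 : mQ q 0 1 = 0 := by simp [mQ, hq, Complex.ext_iff]
  have h10 : mQ q 1 0 = 0 := by simp [mQ, hq, Complex.ext_iff]
  have h11 : mQ q 1 1 * z ^ 2 = z := by
    simp only [mQ, hq, Matrix.of_apply, Matrix.cons_val', Matrix.cons_val_one,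
      Matrix.cons_val_fin_one, Complex.ext_iff, pow_two, Complex.mul_re, Complex.mul_im]
    constructor
    · linear_combination z.re * hzz
    · linear_combination z.im * hzz
  have hoff : ∀ y : Ix N, y ≠ x → rho N ⟨q, hmem⟩ x y = 0 := by
    intro y hy
    obtain ⟨i, hi⟩ := Function.ne_iff.mp hy
    unfold rho kp
    refine Finset.prod_eq_zero (Finset.mem_univ i) ?_
    have hx2 : x i = 0 ∨ x i = 1 := fin2_cases _
    have hy2 : y i = 0 ∨ y i = 1 := fin2_cases _
    rcases hx2 with hx2 | hx2 <;> rcases hy2 with hy2 | hy2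
    · exact absurd (hy2.trans hx2.symm) hi
    · rw [hx2, hy2]; exact h01
    · rw [hx2, hy2]; exact h10
    · exact absurd (hy2.trans hx2.symm) hi
  have hmv : (rho N ⟨q, hmem⟩ *ᵥ v) x = rho N ⟨q, hmem⟩ x x * v x := by
    rw [Matrix.mulVec, dotProduct]
    exact Finset.sum_eq_single x (fun y _ hy => by rw [hoff y hy, zero_mul])
      (fun h => absurd (Finset.mem_univ x) h)
  rw [hmv, ← mul_assoc]
  congr 1
  have hw : z ^ (2 * wt x) = ∏ i : Fin N, (if x i = 1 then z ^ 2 else 1) := by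
    rw [Finset.prod_ite, Finset.prod_const, Finset.prod_const_one, mul_one, pow_mul]
    rfl
  rw [hw]
  unfold rho kp
  rw [← Finset.prod_mul_distrib]
  rw [Finset.prod_congr rfl (g := fun _ => z), Finset.prod_const, Finset.card_univ,
    Fintype.card_fin]
  intro i _
  have hx2 : x i = 0 ∨ x i = 1 := fin2_cases _
  rcases hx2 with hx2 | hx2
  · rw [hx2]; simpa using h00
  · rw [hx2, if_pos rfl, mul_comm]; exact h11

/-- (M2) -/
theorem e0_span {l : ℕ} (v : Ix l → ℂ) (hv : v ≠ 0) (hs : ∀ x y, wt x = wt y → v x = v y)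
    {V : Type*} [AddCommGroup V] [Module ℂ V] (L : (Ix l → ℂ) →ₗ[ℂ] V)
    (hL : ∀ g : UQ, L (rho l g *ᵥ v) = 0) : L (e0 l) = 0 := by
  obtain ⟨g0, hg0⟩ := exists_coord v hv hs
  set v' := rho l g0 *ᵥ v with hv'
  set n : ℕ := 2 * l + 1 with hn
  have hn0 : n ≠ 0 := by omega
  set ζ : ℂ := Complex.exp (2 * Real.pi * Complex.I / n) with hζ
  have hprim : IsPrimitiveRoot ζ n := Complex.isPrimitiveRoot_exp n hn0
  have hnorm : ∀ s : ℕ, ‖ζ ^ s‖ = 1 := by
    intro s
    rw [norm_pow, hprim.norm'_eq_one hn0, one_pow]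
  choose gd hgd using fun s : ℕ => exists_diag' (ζ ^ s) (hnorm s)
  have hζ0 : ζ ≠ 0 := hprim.ne_zero hn0
  have hsum : ∑ s ∈ Finset.range n, ((ζ ^ s) ^ l)⁻¹ • (rho l (gd s) *ᵥ v') =
      ((n : ℂ) * v' 0) • e0 l := by
    funext x
    rw [Finset.sum_apply]
    have hx : ∀ s, (((ζ ^ s) ^ l)⁻¹ • (rho l (gd s) *ᵥ v')) x = ((ζ ^ (2 * wt x))⁻¹) ^ s * v' x := by
      intro s
      have h := hgd s l v' x
      rw [Pi.smul_apply, smul_eq_mul]
      have h1 : (ζ ^ s) ^ l ≠ 0 := pow_ne_zero _ (pow_ne_zero _ hζ0)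
      have h2 : (ζ ^ (2 * wt x)) ^ s ≠ 0 := pow_ne_zero _ (pow_ne_zero _ hζ0)
      have h3 : (ζ ^ s) ^ (2 * wt x) = (ζ ^ (2 * wt x)) ^ s := by
        rw [← pow_mul, ← pow_mul, mul_comm]
      rw [h3] at h
      rw [inv_pow]
      field_simp
      linear_combination h
    rw [Finset.sum_congr rfl fun s _ => hx s, ← Finset.sum_mul]
    by_cases hx0 : x = 0
    · subst hx0
      have hw : wt (0 : Ix l) = 0 := by simp [wt]
      rw [hw]
      simp [e0]
    · have hw : wt x ≠ 0 := by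
        intro h
        apply hx0
        funext i
        unfold wt at h
        rw [Finset.card_eq_zero, Finset.filter_eq_empty_iff] at h
        have h1 := h (Finset.mem_univ i)
        rcases fin2_cases (x i) with h | h
        · exact h
        · exact absurd h h1
      have hwl : wt x ≤ l := by
        unfold wt
        exact (Finset.card_filter_le _ _).trans (by simp)
      have hne : (ζ ^ (2 * wt x))⁻¹ ≠ 1 := by
        intro h
        rw [inv_eq_one] at h
        have := (hprim.pow_eq_one_iff_dvd _).mp h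
        have := Nat.le_of_dvd (by omega) this
        omega
      have hgeo : ∑ s ∈ Finset.range n, ((ζ ^ (2 * wt x))⁻¹) ^ s = 0 := by
        have h := geom_sum_mul ((ζ ^ (2 * wt x))⁻¹) n
        have h2 : ((ζ ^ (2 * wt x))⁻¹) ^ n = 1 := by
          rw [inv_pow, ← pow_mul, mul_comm, pow_mul, hprim.pow_eq_one, one_pow, inv_one]
        rw [h2, sub_self] at h
        exact (mul_eq_zero.mp h).resolve_right (sub_ne_zero.mpr hne)
      rw [hgeo, zero_mul]
      simp [e0, hx0]
  have hL2 : L (((n : ℂ) * v' 0) • e0 l) = 0 := by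
    rw [← hsum, map_sum]
    refine Finset.sum_eq_zero fun s _ => ?_
    rw [map_smul, hv', Matrix.mulVec_mulVec, ← rho_mul, hL, smul_zero]
  rw [map_smul] at hL2
  have hne : (n : ℂ) * v' 0 ≠ 0 := mul_ne_zero (by exact_mod_cast hn0) hg0
  exact (smul_eq_zero.mp hL2).resolve_left hne

end BorelEq.GapT
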