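import Pool.Agent.Lib.MP_75103d_lc.A_TDefs

/-!
MP_75103d_lc, part (A), tensor block (helper50), (M1): an eigenvalue of some `TN N` is an
eigenvalue on symmetric tensors.
-/

set_option autoImplicit false

open MeasureTheory Set Matrix
open scoped Quaternion

namespace BorelEq.GapT

/-- permutation of the slots commutes with the representation -/
theorem rho_perm {N : ℕ} (σ : Equiv.Perm (Fin N)) (g : UQ) (v : Ix N → ℂ) :
    rho N g *ᵥ (fun x => v (fun i => x (σ i))) = fun x => (rho N g *ᵥ v) (fun i => x (σ i)) := by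
  funext x
  simp only [Matrix.mulVec, dotProduct, rho, kp]
  refine Fintype.sum_equiv (Equiv.arrowCongr σ.symm (Equiv.refl (Fin 2))) _ _ fun y => ?_
  have h : (Equiv.arrowCongr σ.symm (Equiv.refl (Fin 2))) y = fun i => y (σ i) := rfl
  rw [h]
  congr 1
  exact (Equiv.prod_comp σ (fun i => mQ (g : ℍ[ℝ]) (x i) (y i))).symm

theorem TN_mulVec (N : ℕ) (v : Ix N → ℂ) :
    TN N *ᵥ v = (1 / 6 : ℂ) • ∑ i, rho N (bQ i) *ᵥ v := by
  rw [TN, Matrix.smul_mulVec, Matrix.sum_mulVec]

theorem IsEig.perm {N : ℕ} {lam : ℝ} {v : Ix N → ℂ} (h : IsEig N lam v)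
    (σ : Equiv.Perm (Fin N)) : IsEig N lam (fun x => v (fun i => x (σ i))) := by
  refine ⟨?_, ?_, ?_⟩
  · intro h0
    apply h.ne
    funext x
    have := congrFun h0 (fun i => x (σ.symm i))
    simpa using this
  · rw [TN_mulVec]
    simp_rw [rho_perm]
    funext x
    have h1 := congrFun h.eig (fun i => x (σ i))
    rw [TN_mulVec] at h1
    simp only [Pi.smul_apply, Finset.sum_apply] at h1 ⊢
    exact h1
  · intro z hz
    have h1 := h.perp (fun x => z (fun i => x (σ.symm i))) (fun g => by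
      rw [rho_perm, hz g])
    rw [← h1]
    simp only [dotProduct]
    refine Fintype.sum_equiv (Equiv.arrowCongr σ.symm (Equiv.refl (Fin 2))) _ _ fun y => ?_
    have h : (Equiv.arrowCongr σ.symm (Equiv.refl (Fin 2))) y = fun i => y (σ i) := rfl
    rw [h]
    simp

/-- contraction of the first two slots -/
def ctr {n : ℕ} (v : Ix (n + 2) → ℂ) : Ix n → ℂ :=
  fun y => v (Fin.cons 0 (Fin.cons 1 y)) - v (Fin.cons 1 (Fin.cons 0 y))

/-- insertion of the invariant tensor in the first two slots -/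
def ins {n : ℕ} (z : Ix n → ℂ) : Ix (n + 2) → ℂ :=
  fun x => (if x 0 = 0 ∧ x 1 = 1 then 1 else if x 0 = 1 ∧ x 1 = 0 then -1 else 0) *
    z (Fin.tail (Fin.tail x))

theorem sum_Ix_succ {n : ℕ} (f : Ix (n + 1) → ℂ) :
    ∑ x, f x = ∑ a : Fin 2, ∑ y : Ix n, f (Fin.cons a y) := by
  rw [← Fintype.sum_prod_type']
  exact (Fintype.sum_equiv (Fin.consEquiv (fun _ : Fin (n + 1) => Fin 2)) _ _
    (fun _ => rfl)).symm

theorem sum_Ix_two {n : ℕ} (f : Ix (n + 2) → ℂ) :
    ∑ x, f x = ∑ y : Ix n, (f (Fin.cons 0 (Fin.cons 0 y)) + f (Fin.cons 0 (Fin.cons 1 y)) +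
      f (Fin.cons 1 (Fin.cons 0 y)) + f (Fin.cons 1 (Fin.cons 1 y))) := by
  rw [sum_Ix_succ]
  simp_rw [sum_Ix_succ]
  simp only [Fin.sum_univ_two, Finset.sum_add_distrib]
  ring

theorem rho_cons {n : ℕ} (g : UQ) (a b : Fin 2) (x y : Ix n) :
    rho (n + 1) g (Fin.cons a x) (Fin.cons b y) = mQ (g : ℍ[ℝ]) a b * rho n g x y := by
  simp only [rho, kp, Fin.prod_univ_succ, Fin.cons_zero, Fin.cons_succ]

theorem mQ_det' (g : UQ) : mQ (g : ℍ[ℝ]) 0 0 * mQ (g : ℍ[ℝ]) 1 1 -
    mQ (g : ℍ[ℝ]) 0 1 * mQ (g : ℍ[ℝ]) 1 0 = 1 := by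
  rw [← Matrix.det_fin_two]
  exact mQ_det g

theorem ctr_rho {n : ℕ} (g : UQ) (v : Ix (n + 2) → ℂ) :
    ctr (rho (n + 2) g *ᵥ v) = rho n g *ᵥ ctr v := by
  funext y
  have hd := mQ_det' g
  simp only [ctr, Matrix.mulVec, dotProduct]
  rw [sum_Ix_two, sum_Ix_two, ← Finset.sum_sub_distrib]
  refine Finset.sum_congr rfl fun z _ => ?_
  simp only [rho_cons]
  linear_combination (rho n g y z * (v (Fin.cons 0 (Fin.cons 1 z)) -
    v (Fin.cons 1 (Fin.cons 0 z)))) * hd

theorem star_ins_dot {n : ℕ} (z : Ix n → ℂ) (v : Ix (n + 2) → ℂ) :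
    star (ins z) ⬝ᵥ v = star z ⬝ᵥ ctr v := by
  simp only [dotProduct]
  rw [sum_Ix_two]
  refine Finset.sum_congr rfl fun y _ => ?_
  have h1 : ∀ a b : Fin 2, (Fin.cons a (Fin.cons b y : Ix (n + 1)) : Ix (n + 2)) 1 = b := by
    intro a b
    exact Fin.cons_succ (α := fun _ : Fin (n + 2) => Fin 2) a (Fin.cons b y : Ix (n + 1)) 0
  simp only [Pi.star_apply, ins, ctr, Fin.cons_zero, h1, Fin.tail_cons]
  simp
  ring

theorem ins_rho {n : ℕ} (g : UQ) (z : Ix n → ℂ) :
    rho (n + 2) g *ᵥ ins z = ins (rho n g *ᵥ z) := by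
  have hd := mQ_det' g
  have key : ∀ (a b : Fin 2) (y : Ix n),
      (rho (n + 2) g *ᵥ ins z) (Fin.cons a (Fin.cons b y)) =
        ins (rho n g *ᵥ z) (Fin.cons a (Fin.cons b y)) := by
    intro a b y
    have h1 : ∀ (a b : Fin 2) (y : Ix n),
        (Fin.cons a (Fin.cons b y : Ix (n + 1)) : Ix (n + 2)) 1 = b := by
      intro a b y
      exact Fin.cons_succ (α := fun _ : Fin (n + 2) => Fin 2) a (Fin.cons b y : Ix (n + 1)) 0
    simp only [Matrix.mulVec, dotProduct]
    rw [sum_Ix_two]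
    simp only [ins, Fin.cons_zero, h1, Fin.tail_cons, rho_cons, Matrix.mulVec, dotProduct]
    rw [Finset.mul_sum]
    refine Finset.sum_congr rfl fun w _ => ?_
    fin_cases a <;> fin_cases b <;> simp
    · ring
    · linear_combination (rho n g y w * z w) * hd
    · linear_combination (-(rho n g y w * z w)) * hd
    · ring
  funext x
  have hx : x = Fin.cons (x 0) (Fin.cons (x 1) (Fin.tail (Fin.tail x)) : Ix (n + 1)) := by
    have h1 : (Fin.cons (x 1) (Fin.tail (Fin.tail x)) : Ix (n + 1)) = Fin.tail x := by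
      have : x 1 = (Fin.tail x : Ix (n + 1)) 0 := rfl
      rw [this]
      exact Fin.cons_self_tail _
    rw [h1]
    exact (Fin.cons_self_tail x).symm
  rw [hx]
  exact key _ _ _

theorem IsEig.ctr {n : ℕ} {lam : ℝ} {v : Ix (n + 2) → ℂ} (h : IsEig (n + 2) lam v)
    (h0 : ctr v ≠ 0) : IsEig n lam (ctr v) := by
  refine ⟨h0, ?_, ?_⟩
  · rw [TN_mulVec]
    simp_rw [← ctr_rho]
    have h1 := h.eig
    rw [TN_mulVec] at h1
    funext y
    have h2 := congrFun h1 (Fin.cons 0 (Fin.cons 1 y))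
    have h3 := congrFun h1 (Fin.cons 1 (Fin.cons 0 y))
    simp only [Pi.smul_apply, Finset.sum_apply, smul_eq_mul] at h2 h3
    simp only [Pi.smul_apply, Finset.sum_apply, smul_eq_mul, GapT.ctr, Finset.sum_sub_distrib]
    rw [mul_sub, h2, h3]
    ring
  · intro z hz
    rw [← star_ins_dot]
    exact h.perp _ fun g => by rw [ins_rho, hz g]

theorem swap_of_ctr {N : ℕ} (v : Ix N → ℂ)
    (h : ∀ (n : ℕ) (hn : N = n + 2) (σ : Equiv.Perm (Fin N)),
      ctr (n := n) (fun x => v (fun i => (x ∘ Fin.cast hn) (σ i))) = 0)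
    (x : Ix N) (i j : Fin N) (hi : x i = 0) (hj : x j = 1) :
    v (fun k => x (Equiv.swap i j k)) = v x := by
  have hij : i ≠ j := by
    rintro rfl
    rw [hi] at hj
    exact absurd hj (by decide)
  obtain ⟨n, rfl⟩ : ∃ n, N = n + 2 := by
    have h1 := i.2
    have h2 := j.2
    have h3 : (i : ℕ) ≠ j := fun h => hij (Fin.ext h)
    exact ⟨N - 2, by omega⟩
  -- a permutation with `i ↦ 0`, `j ↦ 1`
  obtain ⟨σ, hσi, hσj⟩ : ∃ σ : Equiv.Perm (Fin (n + 2)), σ i = 0 ∧ σ j = 1 := by
    set τ := Equiv.swap i (0 : Fin (n + 2)) with hτ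
    have h1 : τ i = 0 := Equiv.swap_apply_left _ _
    have h2 : τ j ≠ 0 := by
      rw [← h1]
      exact fun h => hij (τ.injective h).symm
    refine ⟨τ.trans (Equiv.swap (τ j) 1), ?_, ?_⟩
    · rw [Equiv.trans_apply, h1, Equiv.swap_apply_of_ne_of_ne h2.symm]
      exact Fin.zero_ne_one
    · rw [Equiv.trans_apply, Equiv.swap_apply_left]
  have hc := h n rfl σ
  set x' : Ix (n + 2) := fun k => x (σ.symm k) with hx'
  have hx0 : x' 0 = 0 := by
    rw [hx']
    simp only
    rw [← hσi, Equiv.symm_apply_apply, hi]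
  have hx1 : x' 1 = 1 := by
    rw [hx']
    simp only
    rw [← hσj, Equiv.symm_apply_apply, hj]
  set y : Ix n := Fin.tail (Fin.tail x') with hy
  have hc' := congrFun hc y
  simp only [ctr, Pi.zero_apply, sub_eq_zero] at hc'
  have hsucc : ∀ (a b : Fin 2) (k : Fin n),
      (Fin.cons a (Fin.cons b y : Ix (n + 1)) : Ix (n + 2)) k.succ.succ = x' k.succ.succ := by
    intro a b k
    rfl
  have h01 : ∀ (a b : Fin 2),
      (Fin.cons a (Fin.cons b y : Ix (n + 1)) : Ix (n + 2)) 1 = b := by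
    intro a b
    exact Fin.cons_succ (α := fun _ : Fin (n + 2) => Fin 2) a (Fin.cons b y : Ix (n + 1)) 0
  have hcase : ∀ k : Fin (n + 2), k = 0 ∨ k = 1 ∨ ∃ m : Fin n, k = m.succ.succ := by
    intro k
    refine Fin.cases (Or.inl rfl) (fun k' => ?_) k
    refine Fin.cases (Or.inr (Or.inl rfl)) (fun m => Or.inr (Or.inr ⟨m, rfl⟩)) k'
  have e1 : (fun k => ((Fin.cons 0 (Fin.cons 1 y : Ix (n + 1)) : Ix (n + 2)) ∘
      Fin.cast rfl) (σ k)) = x := by
    funext k
    have hk : x k = x' (σ k) := by simp [hx']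
    rw [hk]
    show (Fin.cons 0 (Fin.cons 1 y : Ix (n + 1)) : Ix (n + 2)) (σ k) = x' (σ k)
    rcases hcase (σ k) with h | h | ⟨m, h⟩
    · rw [h, hx0]; rfl
    · rw [h, hx1, h01]
    · rw [h, hsucc]
  have e2 : (fun k => ((Fin.cons 1 (Fin.cons 0 y : Ix (n + 1)) : Ix (n + 2)) ∘
      Fin.cast rfl) (σ k)) = fun k => x (Equiv.swap i j k) := by
    funext k
    show (Fin.cons 1 (Fin.cons 0 y : Ix (n + 1)) : Ix (n + 2)) (σ k) = x (Equiv.swap i j k)
    by_cases hki : k = i
    · subst hki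
      rw [hσi, Equiv.swap_apply_left, hj]; rfl
    · by_cases hkj : k = j
      · subst hkj
        rw [hσj, Equiv.swap_apply_right, hi, h01]
      · rw [Equiv.swap_apply_of_ne_of_ne hki hkj]
        have hk : x k = x' (σ k) := by simp [hx']
        rw [hk]
        rcases hcase (σ k) with h | h | ⟨m, h⟩
        · exact absurd (σ.injective (h.trans hσi.symm)) hki
        · exact absurd (σ.injective (h.trans hσj.symm)) hkj
        · rw [h, hsucc]
  rw [← e2, ← hc', e1]

/-- if all contractions vanish then the tensor is symmetric -/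
theorem symm_of_ctr {N : ℕ} (v : Ix N → ℂ)
    (h : ∀ (n : ℕ) (hn : N = n + 2) (σ : Equiv.Perm (Fin N)),
      ctr (n := n) (fun x => v (fun i => (x ∘ Fin.cast hn) (σ i))) = 0) :
    ∀ x y : Ix N, wt x = wt y → v x = v y := by
  have hswap : ∀ (x : Ix N) (i j : Fin N), v (fun k => x (Equiv.swap i j k)) = v x := by
    intro x i j
    have h2 : ∀ a : Fin 2, a = 0 ∨ a = 1 := by decide
    rcases h2 (x i) with hi | hi <;> rcases h2 (x j) with hj | hj
    · congr 1
      funext k
      by_cases hki : k = i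
      · subst hki; rw [Equiv.swap_apply_left, hi, hj]
      · by_cases hkj : k = j
        · subst hkj; rw [Equiv.swap_apply_right, hi, hj]
        · rw [Equiv.swap_apply_of_ne_of_ne hki hkj]
    · exact swap_of_ctr v h x i j hi hj
    · rw [Equiv.swap_comm]
      exact swap_of_ctr v h x j i hj hi
    · congr 1
      funext k
      by_cases hki : k = i
      · subst hki; rw [Equiv.swap_apply_left, hi, hj]
      · by_cases hkj : k = j
        · subst hkj; rw [Equiv.swap_apply_right, hi, hj]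
        · rw [Equiv.swap_apply_of_ne_of_ne hki hkj]
  have hperm : ∀ (σ : Equiv.Perm (Fin N)) (x : Ix N), v (fun k => x (σ k)) = v x := by
    intro σ
    induction σ using Equiv.Perm.swap_induction_on with
    | one => intro x; rfl
    | swap_mul f i j _ ih =>
      intro x
      have h1 : (fun k => x ((Equiv.swap i j * f) k)) =
          fun k => (fun m => x (Equiv.swap i j m)) (f k) := by
        funext k
        rfl
      rw [h1]
      exact (ih _).trans (hswap x i j)
  intro x y hxy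
  have hcard : ∀ c : Fin 2, Fintype.card {a // x a = c} = Fintype.card {a // y a = c} := by
    have hone : Fintype.card {a // x a = 1} = Fintype.card {a // y a = 1} := by
      rw [Fintype.card_subtype, Fintype.card_subtype]
      exact hxy
    intro c
    have h2 : c = 0 ∨ c = 1 := by revert c; decide
    rcases h2 with rfl | rfl
    · have hx : Fintype.card {a // x a = 0} = N - Fintype.card {a // x a = 1} := by
        have h3 := Fintype.card_subtype_compl (fun a => x a = 1)
        rw [Fintype.card_fin] at h3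
        rw [← h3]
        refine Fintype.card_congr (Equiv.subtypeEquivRight fun a => ?_)
        have : ∀ c : Fin 2, c = 0 ↔ ¬ c = 1 := by decide
        exact this _
      have hy : Fintype.card {a // y a = 0} = N - Fintype.card {a // y a = 1} := by
        have h3 := Fintype.card_subtype_compl (fun a => y a = 1)
        rw [Fintype.card_fin] at h3
        rw [← h3]
        refine Fintype.card_congr (Equiv.subtypeEquivRight fun a => ?_)
        have : ∀ c : Fin 2, c = 0 ↔ ¬ c = 1 := by decide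
        exact this _
      rw [hx, hy, hone]
    · exact hone
  let e : ∀ c : Fin 2, {a // x a = c} ≃ {a // y a = c} := fun c => Fintype.equivOfCardEq (hcard c)
  let σ : Equiv.Perm (Fin N) := Equiv.ofFiberEquiv e
  have hσ : ∀ a, y (σ a) = x a := fun a => Equiv.ofFiberEquiv_map e a
  have h1 : (fun k => y (σ k)) = x := funext hσ
  rw [← h1, hperm]

theorem not_isEig_zero {lam : ℝ} {v : Ix 0 → ℂ} : ¬ IsEig 0 lam v := by
  intro h
  apply h.ne
  have h1 : star v ⬝ᵥ v = 0 := by
    apply h.perp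
    intro g
    funext x
    have : Unique (Ix 0) := inferInstance
    simp only [Matrix.mulVec, dotProduct, rho, kp, Finset.univ_eq_empty, Finset.prod_empty,
      one_mul]
    rw [Fintype.sum_unique]
    congr 1
    exact Subsingleton.elim _ _
  simp only [dotProduct, Pi.star_apply] at h1
  rw [Fintype.sum_unique] at h1
  funext x
  rcases mul_eq_zero.mp h1 with h3 | h3
  · rw [Subsingleton.elim x]
    exact star_eq_zero.mp h3
  · rw [Subsingleton.elim x]
    exact h3

/-- (M1) -/
theorem exists_symm {N : ℕ} {lam : ℝ} {v : Ix N → ℂ} (h : IsEig N lam v) :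
    ∃ (l : ℕ) (w : Ix l → ℂ), 1 ≤ l ∧ IsEig l lam w ∧ ∀ x y, wt x = wt y → w x = w y := by
  classical
  have hex : ∃ l, ∃ w : Ix l → ℂ, IsEig l lam w := ⟨N, v, h⟩
  obtain ⟨w, hw⟩ := Nat.find_spec hex
  refine ⟨Nat.find hex, w, ?_, hw, ?_⟩
  · rcases Nat.eq_zero_or_pos (Nat.find hex) with h0 | h0
    · exfalso
      revert w
      rw [h0]
      intro w hw
      exact not_isEig_zero hw
    · exact h0
  · apply symm_of_ctr
    have hmin : ∀ m, m < Nat.find hex → ¬ ∃ w : Ix m → ℂ, IsEig m lam w :=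
      fun m hm => Nat.find_min hex hm
    revert w
    generalize Nat.find hex = L at hmin
    intro w hw n hn σ
    subst hn
    by_contra hne
    exact hmin n (by omega) ⟨_, IsEig.ctr (hw.perm σ) hne⟩

end BorelEq.GapT
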