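import Pool.Agent.Lib.MP_75103d_lc.B_Defs

/-! (B1) basic facts on the closure. -/

set_option autoImplicit false

open MeasureTheory Set
open scoped ENNReal

namespace BorelEq

theorem degIn_mono {Z : Type*} {d : ℕ} (σ : Fin d → Z → Z) {W W' : Set Z} (h : W ⊆ W') (z : Z) :
    degIn σ W z ≤ degIn σ W' z := by
  classical
  unfold degIn
  apply Finset.card_le_card
  intro i hi
  rw [Finset.mem_filter] at hi ⊢
  exact ⟨hi.1, h hi.2⟩

theorem subset_clAt {Z : Type*} {d : ℕ} (σ : Fin d → Z → Z) (r : ℕ) (V : Set Z) {t t' : ℕ}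
    (h : t ≤ t') : clAt σ r V t ⊆ clAt σ r V t' := by
  have hm : Monotone (clAt σ r V) := monotone_nat_of_le_succ (fun n => by
    show clAt σ r V n ⊆ clAt σ r V n ∪ _
    exact subset_union_left)
  exact hm h

theorem subset_cl {Z : Type*} {d : ℕ} (σ : Fin d → Z → Z) (r : ℕ) (V : Set Z) : V ⊆ cl σ r V := by
  intro z hz
  exact mem_iUnion.2 ⟨0, hz⟩

theorem B_Cl1_clAt_mono {Z : Type*} {d : ℕ} (σ : Fin d → Z → Z) (r : ℕ) {V V' : Set Z}
    (h : V ⊆ V') (t : ℕ) : clAt σ r V t ⊆ clAt σ r V' t := by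
  induction t with
  | zero => exact h
  | succ t ih =>
    intro z hz
    rcases hz with hz | hz
    · exact Or.inl (ih hz)
    · exact Or.inr (le_trans hz (degIn_mono σ ih z))

theorem cl_mono {Z : Type*} {d : ℕ} (σ : Fin d → Z → Z) (r : ℕ) {V V' : Set Z} (h : V ⊆ V') :
    cl σ r V ⊆ cl σ r V' := by
  intro z hz
  obtain ⟨t, ht⟩ := mem_iUnion.1 hz
  exact mem_iUnion.2 ⟨t, B_Cl1_clAt_mono σ r h t ht⟩

/-- the closure is closed: finitely many neighbours appear at a finite time. -/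
theorem cl_closed {Z : Type*} {d : ℕ} (σ : Fin d → Z → Z) (r : ℕ) (V : Set Z) {z : Z}
    (h : z ∉ cl σ r V) : degIn σ (cl σ r V) z < r := by
  classical
  by_contra hlt
  rw [not_lt] at hlt
  apply h
  have h1 : ∀ i : Fin d, ∃ t, σ i z ∈ cl σ r V → σ i z ∈ clAt σ r V t := by
    intro i
    by_cases hi : σ i z ∈ cl σ r V
    · obtain ⟨t, ht⟩ := mem_iUnion.1 hi
      exact ⟨t, fun _ => ht⟩
    · exact ⟨0, fun h => absurd h hi⟩
  choose t ht using h1
  have h2 : ∀ i, σ i z ∈ cl σ r V → σ i z ∈ clAt σ r V (Finset.univ.sup t) := by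
    intro i hi
    exact subset_clAt σ r V (Finset.le_sup (Finset.mem_univ i)) (ht i hi)
  have h3 : degIn σ (cl σ r V) z ≤ degIn σ (clAt σ r V (Finset.univ.sup t)) z := by
    unfold degIn
    apply Finset.card_le_card
    intro i hi
    rw [Finset.mem_filter] at hi ⊢
    exact ⟨hi.1, h2 i hi.2⟩
  exact mem_iUnion.2 ⟨Finset.univ.sup t + 1, Or.inr (le_trans hlt h3)⟩

end BorelEq
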