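import Pool.Agent.Lib.MP_75103d_lc.B_Defs

/-! (B1) measurability and preimages of the closure. -/

set_option autoImplicit false

open MeasureTheory Set
open scoped ENNReal

namespace BorelEq

theorem degIn_preimage {Z Z' : Type*} {d : ℕ} (σ : Fin d → Z → Z) (σ' : Fin d → Z' → Z')
    (φ : Z' → Z) (hφ : ∀ i z, φ (σ' i z) = σ i (φ z)) (W : Set Z) (z : Z') :
    degIn σ' (φ ⁻¹' W) z = degIn σ W (φ z) := by
  unfold degIn
  refine congrArg Finset.card ?_
  ext i
  simp only [Finset.mem_filter, Finset.mem_univ, true_and, mem_preimage, hφ]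

theorem B_Cl2_clAt_preimage {Z Z' : Type*} {d : ℕ} (σ : Fin d → Z → Z) (σ' : Fin d → Z' → Z')
    (φ : Z' → Z) (hφ : ∀ i z, φ (σ' i z) = σ i (φ z)) (r : ℕ) (V : Set Z) (t : ℕ) :
    φ ⁻¹' (clAt σ r V t) = clAt σ' r (φ ⁻¹' V) t := by
  induction t with
  | zero => rfl
  | succ t ih =>
    simp only [clAt, clStep]
    rw [preimage_union, ih]
    congr 1
    ext z
    simp only [mem_preimage, mem_ofPred_eq]
    rw [← ih, degIn_preimage σ σ' φ hφ]

theorem cl_preimage {Z Z' : Type*} {d : ℕ} (σ : Fin d → Z → Z) (σ' : Fin d → Z' → Z')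
    (φ : Z' → Z) (hφ : ∀ i z, φ (σ' i z) = σ i (φ z)) (r : ℕ) (V : Set Z) :
    φ ⁻¹' (cl σ r V) = cl σ' r (φ ⁻¹' V) := by
  unfold cl
  rw [preimage_iUnion]
  exact iUnion_congr fun t => B_Cl2_clAt_preimage σ σ' φ hφ r V t

theorem measurableSet_degIn {Z : Type*} [MeasurableSpace Z] {d : ℕ} (σ : Fin d → Z → Z)
    (hσ : ∀ i, Measurable (σ i)) {W : Set Z} (hW : MeasurableSet W) (r : ℕ) :
    MeasurableSet {z | r ≤ degIn σ W z} := by
  classical
  have h : Measurable (fun z => degIn σ W z) := by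
    have h1 : (fun z => degIn σ W z) = fun z => ∑ i, if σ i z ∈ W then 1 else 0 := by
      funext z
      unfold degIn
      rw [Finset.card_filter]
    rw [h1]
    refine Finset.measurable_sum _ fun i _ => ?_
    exact Measurable.ite (hσ i hW) measurable_const measurable_const
  exact measurableSet_le measurable_const h

theorem measurableSet_clAt {Z : Type*} [MeasurableSpace Z] {d : ℕ} (σ : Fin d → Z → Z)
    (hσ : ∀ i, Measurable (σ i)) (r : ℕ) {V : Set Z} (hV : MeasurableSet V) (t : ℕ) :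
    MeasurableSet (clAt σ r V t) := by
  induction t with
  | zero => exact hV
  | succ t ih => exact ih.union (measurableSet_degIn σ hσ ih r)

theorem measurableSet_cl {Z : Type*} [MeasurableSpace Z] {d : ℕ} (σ : Fin d → Z → Z)
    (hσ : ∀ i, Measurable (σ i)) (r : ℕ) {V : Set Z} (hV : MeasurableSet V) :
    MeasurableSet (cl σ r V) :=
  MeasurableSet.iUnion fun t => measurableSet_clAt σ hσ r hV t

end BorelEq
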