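import Pool.Agent.Lib.MP_75103d_lc.B_Cl1
import Pool.Agent.Lib.MP_75103d_lc.B_Cl2

/-! (B2) growth of the closure in measure. -/

set_option autoImplicit false

open MeasureTheory Set
open scoped ENNReal

namespace BorelEq

theorem B_Cl3_meas {Z : Type*} [MeasurableSpace Z] {f : Z → Z} (hf : Measurable f) {W J : Set Z}
    (hW : MeasurableSet W) (hJ : MeasurableSet J) : MeasurableSet {z | z ∈ J ∧ f z ∈ W} :=
  hJ.inter (hf hW)

/-- double counting: the points with at least `r` neighbours in `W`. -/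
theorem deg_count {Z : Type*} [MeasurableSpace Z] (Q : Measure Z) [IsProbabilityMeasure Q] {d : ℕ}
    (σ : Fin d → Z → Z) (hσ : ∀ i, MeasurePreserving (σ i) Q Q) (r : ℕ) {W J : Set Z}
    (hW : MeasurableSet W) (hJ : MeasurableSet J) (h : ∀ z ∈ J, r ≤ degIn σ W z) :
    (r : ℝ) * Q.real J ≤ ∑ i, Q.real {z | z ∈ J ∧ σ i z ∈ W} := by
  classical
  have hA : ∀ i, MeasurableSet {z | z ∈ J ∧ σ i z ∈ W} := fun i =>
    B_Cl3_meas (hσ i).measurable hW hJ
  have e1 : (r : ℝ) * Q.real J = ∫ z, (r : ℝ) * J.indicator 1 z ∂Q := by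
    rw [integral_const_mul, integral_indicator_one hJ]
  have e2 : ∑ i, Q.real {z | z ∈ J ∧ σ i z ∈ W} =
      ∫ z, ∑ i, ({z | z ∈ J ∧ σ i z ∈ W} : Set Z).indicator (1 : Z → ℝ) z ∂Q := by
    have hI : ∀ i ∈ (Finset.univ : Finset (Fin d)), Integrable
        (fun z => ({z | z ∈ J ∧ σ i z ∈ W} : Set Z).indicator (1 : Z → ℝ) z) Q :=
      fun i _ => (integrable_const (1 : ℝ)).indicator (hA i)
    rw [integral_finsetSum _ hI]
    exact Finset.sum_congr rfl fun i _ => (integral_indicator_one (hA i)).symm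
  rw [e1, e2]
  refine integral_mono (((integrable_const (1 : ℝ)).indicator hJ).const_mul _)
    (integrable_finsetSum _ fun i _ => (integrable_const (1 : ℝ)).indicator (hA i)) fun z => ?_
  by_cases hz : z ∈ J
  · have h1 := h z hz
    have h2 : ∑ i, ({z | z ∈ J ∧ σ i z ∈ W} : Set Z).indicator (1 : Z → ℝ) z =
        (degIn σ W z : ℝ) := by
      unfold degIn
      rw [Finset.card_filter]
      push_cast
      refine Finset.sum_congr rfl fun i _ => ?_
      rw [indicator_apply]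
      simp only [mem_ofPred_eq, hz, true_and, Pi.one_apply]
    simp only [h2, indicator_of_mem hz, Pi.one_apply, mul_one]
    exact_mod_cast h1
  · simp only [indicator_of_notMem hz, mul_zero]
    exact Finset.sum_nonneg fun i _ => indicator_nonneg (fun _ _ => zero_le_one) _

theorem B_Cl3_new {Z : Type*} {d : ℕ} (σ : Fin d → Z → Z) (r : ℕ) {W : Set Z} :
    ∀ z ∈ clStep σ r W \ W, r ≤ degIn σ W z := by
  rintro z ⟨h1 | h1, h2⟩
  · exact absurd h1 h2
  · exact h1

theorem B_Cl3_measClStep {Z : Type*} [MeasurableSpace Z] {Q : Measure Z} {d : ℕ}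
    {σ : Fin d → Z → Z} (hσ : ∀ i, MeasurePreserving (σ i) Q Q) (r : ℕ) {W : Set Z}
    (hW : MeasurableSet W) : MeasurableSet (clStep σ r W) :=
  hW.union (measurableSet_degIn σ (fun i => (hσ i).measurable) hW r)

theorem clStep_measure {Z : Type*} [MeasurableSpace Z] (Q : Measure Z) [IsProbabilityMeasure Q] {d : ℕ}
    (σ : Fin d → Z → Z) (hσ : ∀ i, MeasurePreserving (σ i) Q Q) (r : ℕ) (hd : (d : ℝ) ≤ 4 * r) (hd0 : 0 < d)
    {W : Set Z} (hW : MeasurableSet W) : Q.real (clStep σ r W) ≤ 5 * Q.real W := by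
  have hS := B_Cl3_measClStep hσ r hW
  have hJ : MeasurableSet (clStep σ r W \ W) := hS.diff hW
  have h1 := deg_count Q σ hσ r hW hJ (B_Cl3_new σ r)
  have h2 : ∑ i, Q.real {z | z ∈ clStep σ r W \ W ∧ σ i z ∈ W} ≤ d * Q.real W := by
    have h3 : ∀ i ∈ (Finset.univ : Finset (Fin d)),
        Q.real {z | z ∈ clStep σ r W \ W ∧ σ i z ∈ W} ≤ Q.real W := by
      intro i _
      calc Q.real {z | z ∈ clStep σ r W \ W ∧ σ i z ∈ W} ≤ Q.real (σ i ⁻¹' W) :=
            measureReal_mono fun z hz => hz.2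
        _ = Q.real W := by
            unfold Measure.real
            rw [(hσ i).measure_preimage hW.nullMeasurableSet]
    calc _ ≤ ∑ _i : Fin d, Q.real W := Finset.sum_le_sum h3
      _ = d * Q.real W := by simp
  have hr : (0 : ℝ) < r := by
    have : (0 : ℝ) < d := by exact_mod_cast hd0
    linarith
  have h4 : Q.real (clStep σ r W \ W) ≤ 4 * Q.real W := by
    have h5 : (d : ℝ) * Q.real W ≤ 4 * r * Q.real W :=
      mul_le_mul_of_nonneg_right hd measureReal_nonneg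
    have h6 : (r : ℝ) * Q.real (clStep σ r W \ W) ≤ r * (4 * Q.real W) := by linarith
    exact le_of_mul_le_mul_left h6 hr
  have h7 : Q.real (clStep σ r W) ≤ Q.real W + Q.real (clStep σ r W \ W) := by
    calc Q.real (clStep σ r W) ≤ Q.real (W ∪ (clStep σ r W \ W)) :=
          measureReal_mono fun z hz => by
            by_cases h : z ∈ W
            · exact Or.inl h
            · exact Or.inr ⟨hz, h⟩
      _ ≤ _ := measureReal_union_le _ _
  linarith

/-- the number of internal edges grows by at least `2 r` per new point. -/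
theorem edges_gain {Z : Type*} [MeasurableSpace Z] (Q : Measure Z) [IsProbabilityMeasure Q] {d : ℕ}
    (σ : Fin d → Z → Z) (ι : Fin d → Fin d) (hι : ∀ i, ι (ι i) = i)
    (hinv : ∀ i z, σ (ι i) (σ i z) = z) (hσ : ∀ i, MeasurePreserving (σ i) Q Q) (r : ℕ)
    {W : Set Z} (hW : MeasurableSet W) :
    ∑ i, Q.real {z | z ∈ W ∧ σ i z ∈ W} + 2 * r * (Q.real (clStep σ r W) - Q.real W) ≤
      ∑ i, Q.real {z | z ∈ clStep σ r W ∧ σ i z ∈ clStep σ r W} := by
  have hS := B_Cl3_measClStep hσ r hW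
  have hWS : W ⊆ clStep σ r W := fun z hz => Or.inl hz
  have hJ : MeasurableSet (clStep σ r W \ W) := hS.diff hW
  have h1 := deg_count Q σ hσ r hW hJ (B_Cl3_new σ r)
  set S := clStep σ r W with hSdef
  have hJm : Q.real (S \ W) = Q.real S - Q.real W := by
    rw [measureReal_sdiff hWS hW]
  -- the edges in the other direction
  have h2 : ∀ i, Q.real {z | z ∈ W ∧ σ i z ∈ S \ W} = Q.real {z | z ∈ S \ W ∧ σ (ι i) z ∈ W} := by
    intro i
    have h3 : {z | z ∈ W ∧ σ i z ∈ S \ W} = σ i ⁻¹' {z | z ∈ S \ W ∧ σ (ι i) z ∈ W} := by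
      ext z
      simp only [mem_ofPred_eq, mem_preimage, hinv]
      exact and_comm
    rw [h3]
    unfold Measure.real
    rw [(hσ i).measure_preimage
      (B_Cl3_meas (hσ (ι i)).measurable hW hJ).nullMeasurableSet]
  have h3 : ∑ i, Q.real {z | z ∈ W ∧ σ i z ∈ S \ W} = ∑ i, Q.real {z | z ∈ S \ W ∧ σ i z ∈ W} := by
    simp only [h2]
    exact Function.Bijective.sum_comp (Function.Involutive.bijective hι)
      (fun i => Q.real {z | z ∈ S \ W ∧ σ i z ∈ W})
  have h4 : ∀ i, Q.real {z | z ∈ W ∧ σ i z ∈ W} + Q.real {z | z ∈ S \ W ∧ σ i z ∈ W} +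
      Q.real {z | z ∈ W ∧ σ i z ∈ S \ W} ≤ Q.real {z | z ∈ S ∧ σ i z ∈ S} := by
    intro i
    have m1 := B_Cl3_meas (hσ i).measurable hW hJ
    have m2 := B_Cl3_meas (hσ i).measurable hJ hW
    have d1 : Disjoint {z | z ∈ W ∧ σ i z ∈ W} {z | z ∈ S \ W ∧ σ i z ∈ W} := by
      rw [Set.disjoint_left]
      rintro z ⟨h5, -⟩ ⟨h6, -⟩
      exact h6.2 h5
    have d2 : Disjoint ({z | z ∈ W ∧ σ i z ∈ W} ∪ {z | z ∈ S \ W ∧ σ i z ∈ W})
        {z | z ∈ W ∧ σ i z ∈ S \ W} := by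
      rw [Set.disjoint_left]
      rintro z (⟨-, h5⟩ | ⟨-, h5⟩) ⟨-, h6⟩ <;> exact h6.2 h5
    rw [← measureReal_union d1 m1, ← measureReal_union d2 m2]
    refine measureReal_mono ?_
    rintro z ((⟨h5, h6⟩ | ⟨h5, h6⟩) | ⟨h5, h6⟩)
    · exact ⟨hWS h5, hWS h6⟩
    · exact ⟨h5.1, hWS h6⟩
    · exact ⟨hWS h5, h6.1⟩
  have h5 : ∑ i, (Q.real {z | z ∈ W ∧ σ i z ∈ W} + Q.real {z | z ∈ S \ W ∧ σ i z ∈ W} +
      Q.real {z | z ∈ W ∧ σ i z ∈ S \ W}) ≤ ∑ i, Q.real {z | z ∈ S ∧ σ i z ∈ S} :=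
    Finset.sum_le_sum fun i _ => h4 i
  rw [Finset.sum_add_distrib, Finset.sum_add_distrib, h3] at h5
  rw [hJm] at h1
  linarith

end BorelEq
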