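import Pool.Agent.Lib.MP_75103d_lc.B_Cl3

/-! (B2) the closure of a small set is small. -/

set_option autoImplicit false

open MeasureTheory Set
open scoped ENNReal

namespace BorelEq

theorem B_Cl4_edges {Z : Type*} [MeasurableSpace Z] (Q : Measure Z) [IsProbabilityMeasure Q] {d : ℕ}
    (σ : Fin d → Z → Z) (ι : Fin d → Fin d) (hι : ∀ i, ι (ι i) = i)
    (hinv : ∀ i z, σ (ι i) (σ i z) = z) (hσ : ∀ i, MeasurePreserving (σ i) Q Q) (r : ℕ)
    {V : Set Z} (hV : MeasurableSet V) (t : ℕ) :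
    2 * r * (Q.real (clAt σ r V t) - Q.real V) ≤
      ∑ i, Q.real {z | z ∈ clAt σ r V t ∧ σ i z ∈ clAt σ r V t} := by
  induction t with
  | zero =>
    have h : clAt σ r V 0 = V := rfl
    rw [h, sub_self, mul_zero]
    exact Finset.sum_nonneg fun i _ => measureReal_nonneg
  | succ t ih =>
    have hm := measurableSet_clAt σ (fun i => (hσ i).measurable) r hV t
    have h1 := edges_gain Q σ ι hι hinv hσ r hm
    have h2 : clAt σ r V (t + 1) = clStep σ r (clAt σ r V t) := rfl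
    rw [h2]
    linarith

/-- The induction: `μ(W_t) ≤ 4 μ(V)` for all `t`. -/
theorem clAt_small {Z : Type*} [MeasurableSpace Z] (Q : Measure Z) [IsProbabilityMeasure Q] {d : ℕ}
    (σ : Fin d → Z → Z) (ι : Fin d → Fin d) (hι : ∀ i, ι (ι i) = i)
    (hinv : ∀ i z, σ (ι i) (σ i z) = z) (hσ : ∀ i, MeasurePreserving (σ i) Q Q) (r : ℕ)
    (hd : (d : ℝ) ≤ 4 * r) (hd0 : 0 < d)
    (hgap : ∀ A : Set Z, MeasurableSet A →
      ∑ i, Q.real {z | z ∈ A ∧ σ i z ∈ A} ≤ d * (Q.real A / 4 + (Q.real A) ^ 2))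
    {V : Set Z} (hV : MeasurableSet V) (hs : Q.real V ≤ 1 / 160) (t : ℕ) :
    Q.real (clAt σ r V t) ≤ 4 * Q.real V := by
  have hr : (0 : ℝ) < r := by
    have : (0 : ℝ) < d := by exact_mod_cast hd0
    linarith
  have hm : ∀ t, MeasurableSet (clAt σ r V t) := fun t =>
    measurableSet_clAt σ (fun i => (hσ i).measurable) r hV t
  have hV0 : 0 ≤ Q.real V := measureReal_nonneg
  have key : ∀ t, Q.real (clAt σ r V t) ≤ 1 / 8 → Q.real (clAt σ r V t) ≤ 4 * Q.real V := by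
    intro t ht
    have h1 := B_Cl4_edges Q σ ι hι hinv hσ r hV t
    have h2 := hgap _ (hm t)
    set z := Q.real (clAt σ r V t) with hz
    have hz0 : 0 ≤ z := measureReal_nonneg
    have h3 : (d : ℝ) * (z / 4 + z ^ 2) ≤ 4 * r * (z / 4 + z ^ 2) :=
      mul_le_mul_of_nonneg_right hd (by positivity)
    have h4 : (2 * r : ℝ) * (z - Q.real V) ≤ 2 * r * (2 * (z / 4 + z ^ 2)) := by linarith
    have h5 : z - Q.real V ≤ 2 * (z / 4 + z ^ 2) := le_of_mul_le_mul_left h4 (by positivity)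
    nlinarith
  induction t with
  | zero =>
    have h : clAt σ r V 0 = V := rfl
    rw [h]
    linarith
  | succ t ih =>
    apply key
    have h2 : clAt σ r V (t + 1) = clStep σ r (clAt σ r V t) := rfl
    rw [h2]
    have h3 := clStep_measure Q σ hσ r hd hd0 (hm t)
    linarith

theorem cl_small {Z : Type*} [MeasurableSpace Z] (Q : Measure Z) [IsProbabilityMeasure Q] {d : ℕ}
    (σ : Fin d → Z → Z) (ι : Fin d → Fin d) (hι : ∀ i, ι (ι i) = i)
    (hinv : ∀ i z, σ (ι i) (σ i z) = z) (hσ : ∀ i, MeasurePreserving (σ i) Q Q) (r : ℕ)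
    (hd : (d : ℝ) ≤ 4 * r) (hd0 : 0 < d)
    (hgap : ∀ A : Set Z, MeasurableSet A →
      ∑ i, Q.real {z | z ∈ A ∧ σ i z ∈ A} ≤ d * (Q.real A / 4 + (Q.real A) ^ 2))
    {V : Set Z} (hV : MeasurableSet V) (hs : Q.real V ≤ 1 / 160) :
    Q.real (cl σ r V) ≤ 4 * Q.real V := by
  have hmono : Monotone (clAt σ r V) := fun t t' h => subset_clAt σ r V h
  have h1 : Filter.Tendsto (fun t => Q.real (clAt σ r V t)) Filter.atTop
      (nhds (Q.real (cl σ r V))) := by
    have h2 := tendsto_measure_iUnion_atTop (μ := Q) hmono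
    exact (ENNReal.tendsto_toReal (measure_ne_top Q _)).comp h2
  exact le_of_tendsto' h1 fun t => clAt_small Q σ ι hι hinv hσ r hd hd0 hgap hV hs t

end BorelEq
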