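import Pool.Agent.Lib.MP_75103d_lc.Defs

/-! Part B: definitions for the key theorem. -/

set_option autoImplicit false

open MeasureTheory Set

namespace BorelEq

/-- Gap inequality for sets. -/
def SetGap {G : Type*} [Group G] [MeasurableSpace G] (μ : Measure G) {d : ℕ} (s : Fin d → G) : Prop :=
  ∀ A : Set G, MeasurableSet A →
    ∑ i, μ.real {g | g ∈ A ∧ s i * g ∈ A} ≤ d * (μ.real A / 4 + (μ.real A) ^ 2)

open Classical in
/-- Number of neighbours of `z` in `W`. -/
noncomputable def degIn {Z : Type*} {d : ℕ} (σ : Fin d → Z → Z) (W : Set Z) (z : Z) : ℕ :=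
  (Finset.univ.filter (fun i => σ i z ∈ W)).card

/-- One step of the `r`-closure. -/
noncomputable def clStep {Z : Type*} {d : ℕ} (σ : Fin d → Z → Z) (r : ℕ) (W : Set Z) : Set Z :=
  W ∪ {z | r ≤ degIn σ W z}

/-- `t` steps of the `r`-closure. -/
noncomputable def clAt {Z : Type*} {d : ℕ} (σ : Fin d → Z → Z) (r : ℕ) (V : Set Z) : ℕ → Set Z
  | 0 => V
  | t + 1 => clStep σ r (clAt σ r V t)

/-- The `r`-closure. -/
noncomputable def cl {Z : Type*} {d : ℕ} (σ : Fin d → Z → Z) (r : ℕ) (V : Set Z) : Set Z :=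
  ⋃ t, clAt σ r V t

/-- The defect of the flow `g` on `F` with demand `c`. -/
noncomputable def defect {Z : Type*} {d : ℕ} (F : Set Z) (c : Z → ℝ) (g : Z → Fin d → ℝ) (z : Z) : ℝ :=
  F.indicator (fun z => max 0 (c z - ∑ i, g z i)) z

open Classical in
/-- The extremal flow for the test function `h`. -/
noncomputable def extFlow {Z : Type*} {d : ℕ} (σ : Fin d → Z → Z) (B : Set Z) (q : ℝ) (h : Z → ℝ)
    (z : Z) (i : Fin d) : ℝ :=
  if z ∈ B ∨ σ i z ∈ B then 0 else q * Real.sign (h z - h (σ i z))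

/-- The Frank–Wolfe iteration. -/
noncomputable def fw {Z : Type*} {d : ℕ} (σ : Fin d → Z → Z) (B F : Set Z) (c : Z → ℝ) (q t : ℝ) :
    ℕ → Z → Fin d → ℝ
  | 0 => fun _ _ => 0
  | n + 1 => fun z i => (1 - t) * fw σ B F c q t n z i +
      t * extFlow σ B q (defect F c (fw σ B F c q t n)) z i

/-- The diagonal action on sequences. -/
def MAct.diag {G E : Type*} [Group G] [MeasurableSpace G] [MeasurableSpace E] (α : MAct G E) :
    MAct G (ℕ → E) where
  a g y := fun j => α.a g (y j)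
  one y := by funext j; exact α.one _
  mul g h y := by funext j; exact α.mul _ _ _
  meas := by
    refine measurable_pi_lambda _ (fun j => ?_)
    exact α.meas.comp (measurable_fst.prodMk ((measurable_pi_apply j).comp measurable_snd))

/-- Truncation: keeps the coordinates `≤ k`. -/
def trunc {E : Type*} (k : ℕ) (y : ℕ → E) : ℕ → E := fun j => y (min j k)

/-- The maps of the graph on sequences. -/
def sg {G E : Type*} [Group G] [MeasurableSpace G] [MeasurableSpace E] (α : MAct G E) {d : ℕ}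
    (s : Fin d → G) : Fin d → (ℕ → E) → (ℕ → E) := fun i y => α.diag.a (s i) y

/-- The thick level sets of `f`. -/
def Qp {E : Type*} (f : E → ℝ) (j : ℕ) : Set E := {x | (1 / 2 : ℝ) ^ (j + 1) < f x ∧ f x < 4 * (1 / 2) ^ j}

/-- The level sets of `f`. -/
def Qs {E : Type*} (f : E → ℝ) (j : ℕ) : Set E := {x | (1 / 2 : ℝ) ^ j ≤ f x ∧ f x < 2 * (1 / 2) ^ j}

/-- The seeds of the first `k` stages. -/
def Vset {E : Type*} (f : E → ℝ) (k : ℕ) : Set (ℕ → E) := {y | ∃ j < k, y j ∈ Qp f j}

/-- The decided set after `k` stages. -/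
noncomputable def Dset {G E : Type*} [Group G] [MeasurableSpace G] [MeasurableSpace E] (α : MAct G E)
    {d : ℕ} (s : Fin d → G) (r : ℕ) (f : E → ℝ) (k : ℕ) : Set (ℕ → E) :=
  cl (sg α s) r (Vset f k)

open Classical in
/-- The flow after `k` stages. `nn`, `tt` are the accuracy parameters. -/
noncomputable def psi {G E : Type*} [Group G] [MeasurableSpace G] [MeasurableSpace E] (α : MAct G E)
    {d : ℕ} (s : Fin d → G) (r : ℕ) (f : E → ℝ) (nn : ℕ → ℕ) (tt : ℕ → ℝ) :
    ℕ → (ℕ → E) → Fin d → ℝ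
  | 0 => fun _ _ => 0
  | k + 1 => fun y i =>
      if y ∈ Dset α s r f k ∨ sg α s i y ∈ Dset α s r f k then psi α s r f nn tt k y i
      else fw (sg α s) (Dset α s r f k) (Dset α s r f (k + 1) \ Dset α s r f k)
        (fun z => 1 - ∑ j, if sg α s j z ∈ Dset α s r f k then psi α s r f nn tt k z j else 0)
        (6 / d) (tt k) (nn k) y i

open Classical in
/-- The demand of the new points in stage `k + 1`. -/
noncomputable def dem {G E : Type*} [Group G] [MeasurableSpace G] [MeasurableSpace E] (α : MAct G E)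
    {d : ℕ} (s : Fin d → G) (r : ℕ) (f : E → ℝ) (nn : ℕ → ℕ) (tt : ℕ → ℝ) (k : ℕ) (z : ℕ → E) : ℝ :=
  1 - ∑ j, if sg α s j z ∈ Dset α s r f k then psi α s r f nn tt k z j else 0

/-- The error sets. -/
def Err {G E : Type*} [Group G] [MeasurableSpace G] [MeasurableSpace E] (α : MAct G E)
    {d : ℕ} (s : Fin d → G) (r : ℕ) (f : E → ℝ) (nn : ℕ → ℕ) (tt : ℕ → ℝ) (k : ℕ) : Set (ℕ → E) :=
  {y | y ∈ Dset α s r f (k + 1) ∧ y ∉ Dset α s r f k ∧ ∑ i, psi α s r f nn tt (k + 1) y i < 3 / 4}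

/-- The orbit map. -/
def orbB {G E : Type*} [Group G] [MeasurableSpace G] [MeasurableSpace E] (α : MAct G E) (x : E)
    (ω : ℕ → G) : ℕ → E := fun j => α.a (ω j) x

/-- The product Haar measure. -/
noncomputable def PH {G : Type*} [MeasurableSpace G] (μ : Measure G) : Measure (ℕ → G) :=
  Measure.infinitePi (fun _ : ℕ => μ)

/-- The law of the perturbations. -/
noncomputable def PP {G : Type*} [MeasurableSpace G] (μ : Measure G) (nrm : G → ℝ) :
    Measure (ℕ → G) :=
  Measure.infinitePi (fun j : ℕ => ProbabilityTheory.cond μ {g | nrm g < (1 / 2) ^ (j + 1)})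

open Classical in
/-- The final flow on sequences. -/
noncomputable def psiInf {G E : Type*} [Group G] [MeasurableSpace G] [MeasurableSpace E] (α : MAct G E)
    {d : ℕ} (s : Fin d → G) (r : ℕ) (f : E → ℝ) (nn : ℕ → ℕ) (tt : ℕ → ℝ) (y : ℕ → E) (i : Fin d) : ℝ :=
  if h : ∃ k, y ∈ Dset α s r f k ∨ sg α s i y ∈ Dset α s r f k then
    psi α s r f nn tt (Nat.find h) y i else 0

end BorelEq
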