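import Pool.Agent.Lib.MP_75103d_lc.B_Defs

/-! (B5) level sets. -/

set_option autoImplicit false

open MeasureTheory Set
open scoped ENNReal

namespace BorelEq

theorem Qp_count {E : Type*} (f : E → ℝ) (hf1 : ∀ x, f x ≤ 1) (k : ℕ) (x : E) :
    ∑ j ∈ Finset.range k, (Qp f j).indicator (fun _ => (1 : ℝ)) x ≤
      3 * ({x | 0 < f x}).indicator (fun _ => (1 : ℝ)) x := by
  classical
  by_cases h : ∃ j, x ∈ Qp f j
  · have hm := Nat.find_spec h
    have hpos : 0 < f x := lt_trans (by positivity) hm.1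
    have h1 : ∀ j, x ∈ Qp f j → j ∈ Finset.Icc (Nat.find h) (Nat.find h + 2) := by
      intro j hj
      rw [Finset.mem_Icc]
      refine ⟨Nat.find_min' h hj, ?_⟩
      by_contra hlt
      rw [not_le] at hlt
      have h2 : (1 / 2 : ℝ) ^ (Nat.find h + 1) < 4 * (1 / 2) ^ j := lt_trans hm.1 hj.2
      have h3 : (1 / 2 : ℝ) ^ j ≤ (1 / 2) ^ (Nat.find h + 3) :=
        pow_le_pow_of_le_one (by norm_num) (by norm_num) (by omega)
      have h4 : (1 / 2 : ℝ) ^ (Nat.find h + 3) = (1 / 2) ^ (Nat.find h + 1) * (1 / 4) := by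
        rw [pow_add, pow_add]
        ring
      rw [h4] at h3
      linarith
    have h5 : ({x | 0 < f x}).indicator (fun _ => (1 : ℝ)) x = 1 :=
      indicator_of_mem (show x ∈ {x | 0 < f x} from hpos) _
    rw [h5]
    calc ∑ j ∈ Finset.range k, (Qp f j).indicator (fun _ => (1 : ℝ)) x
        = ∑ j ∈ (Finset.range k).filter (fun j => x ∈ Qp f j), (1 : ℝ) := by
          rw [Finset.sum_filter]
          apply Finset.sum_congr rfl
          intro j _
          rw [indicator_apply]
      _ = (((Finset.range k).filter (fun j => x ∈ Qp f j)).card : ℝ) := by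
          rw [Finset.sum_const, nsmul_eq_mul, mul_one]
      _ ≤ ((Finset.Icc (Nat.find h) (Nat.find h + 2)).card : ℝ) := by
          apply Nat.cast_le.2
          apply Finset.card_le_card
          intro j hj
          exact h1 j (Finset.mem_filter.1 hj).2
      _ = 3 * 1 := by
          rw [Nat.card_Icc]
          have : Nat.find h + 2 + 1 - Nat.find h = 3 := by omega
          rw [this]
          norm_num
  · push Not at h
    have h1 : ∑ j ∈ Finset.range k, (Qp f j).indicator (fun _ => (1 : ℝ)) x = 0 := by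
      apply Finset.sum_eq_zero
      intro j _
      exact indicator_of_notMem (h j) _
    rw [h1]
    apply mul_nonneg (by norm_num)
    exact indicator_nonneg (fun _ _ => zero_le_one) _

theorem Qs_cover {E : Type*} (f : E → ℝ) (hf1 : ∀ x, f x ≤ 1) (x : E) (hx : 0 < f x) :
    ∃ j, x ∈ Qs f j := by
  obtain ⟨n, h1, h2⟩ := exists_nat_pow_near_of_lt_one (y := (1 / 2 : ℝ)) hx (hf1 x)
    (by norm_num) (by norm_num)
  rcases eq_or_lt_of_le h2 with h3 | h3
  · refine ⟨n, h3.ge, ?_⟩
    rw [h3]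
    have : (0 : ℝ) < (1 / 2) ^ n := by positivity
    linarith
  · refine ⟨n + 1, h1.le, ?_⟩
    rw [pow_succ]
    linarith

theorem Qs_perturb {G E : Type*} [Group G] [MeasurableSpace G] [MeasurableSpace E] (α : MAct G E)
    (nrm : G → ℝ) (f : E → ℝ) (hfl : ∀ h x, |f (α.a h x) - f x| ≤ nrm h) {j : ℕ} {x : E}
    (hx : x ∈ Qs f j) {h : G} (hh : nrm h < (1 / 2) ^ (j + 1)) : α.a h x ∈ Qp f j := by
  have h1 := abs_le.1 (hfl h x)
  have h2 := hx.1
  have h3 := hx.2
  have h4 : (0 : ℝ) < (1 / 2) ^ j := by positivity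
  have h5 : (1 / 2 : ℝ) ^ (j + 1) = (1 / 2) ^ j * (1 / 2) := pow_succ _ _
  refine ⟨?_, ?_⟩
  · rw [h5] at hh ⊢
    linarith [h1.1]
  · rw [h5] at hh
    linarith [h1.2]

/-- The seeds have small measure in every fibre. -/
theorem seeds_small {G E : Type*} [Group G] [MeasurableSpace G] [MeasurableMul₂ G]
    [MeasurableSpace E] (μ : Measure G) [IsProbabilityMeasure μ]
    (hr : ∀ u : G, MeasurePreserving (fun g => g * u) μ μ) (α : MAct G E)
    (f : E → ℝ) (hfm : Measurable f) (hf1 : ∀ x, f x ≤ 1)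
    (hfs : ∀ x, μ.real {g | 0 < f (α.a g x)} ≤ 1 / 480) (x : E) (ω : ℕ → G) (k : ℕ) :
    μ.real {g | ∃ j < k, α.a (g * ω j) x ∈ Qp f j} ≤ 1 / 160 := by
  have hmeas : Measurable (fun g => α.a g x) :=
    α.meas.comp (measurable_id.prodMk measurable_const)
  have hQm : ∀ j, MeasurableSet {g | α.a g x ∈ Qp f j} := by
    intro j
    have h1 : MeasurableSet (Qp f j) := by
      have h2 : Qp f j = f ⁻¹' (Ioo ((1 / 2 : ℝ) ^ (j + 1)) (4 * (1 / 2) ^ j)) := rfl
      rw [h2]
      exact hfm measurableSet_Ioo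
    exact hmeas h1
  have hPm : MeasurableSet {g | 0 < f (α.a g x)} :=
    (hfm.comp hmeas) measurableSet_Ioi
  have h1 : μ.real {g | ∃ j < k, α.a (g * ω j) x ∈ Qp f j} ≤
      ∑ j ∈ Finset.range k, μ.real {g | α.a (g * ω j) x ∈ Qp f j} := by
    have h2 : {g | ∃ j < k, α.a (g * ω j) x ∈ Qp f j} =
        ⋃ j ∈ Finset.range k, {g | α.a (g * ω j) x ∈ Qp f j} := by
      ext g
      simp only [mem_setOf_eq, mem_iUnion, Finset.mem_range, exists_prop]
    rw [h2]
    exact measureReal_biUnion_finset_le _ _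
  have h3 : ∀ j, μ.real {g | α.a (g * ω j) x ∈ Qp f j} = μ.real {g | α.a g x ∈ Qp f j} := by
    intro j
    have h4 := (hr (ω j)).measure_preimage (hQm j).nullMeasurableSet
    unfold Measure.real
    rw [← h4]
    rfl
  simp only [h3] at h1
  refine le_trans h1 ?_
  have h5 : ∑ j ∈ Finset.range k, μ.real {g | α.a g x ∈ Qp f j} =
      ∫ g, ∑ j ∈ Finset.range k, (Qp f j).indicator (fun _ => (1 : ℝ)) (α.a g x) ∂μ := by
    rw [integral_finset_sum]
    · apply Finset.sum_congr rfl
      intro j _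
      rw [← integral_indicator_one (hQm j)]
      rfl
    · intro j _
      have h6 : (fun g => (Qp f j).indicator (fun _ => (1 : ℝ)) (α.a g x)) =
          ({g | α.a g x ∈ Qp f j}).indicator (fun _ => (1 : ℝ)) := rfl
      rw [h6]
      exact (integrable_const (1 : ℝ)).indicator (hQm j)
  rw [h5]
  have h7 : ∫ g, ∑ j ∈ Finset.range k, (Qp f j).indicator (fun _ => (1 : ℝ)) (α.a g x) ∂μ ≤
      ∫ g, 3 * ({g | 0 < f (α.a g x)}).indicator (fun _ => (1 : ℝ)) g ∂μ := by
    apply integral_mono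
    · apply integrable_finset_sum
      intro j _
      have h6 : (fun g => (Qp f j).indicator (fun _ => (1 : ℝ)) (α.a g x)) =
          ({g | α.a g x ∈ Qp f j}).indicator (fun _ => (1 : ℝ)) := rfl
      rw [h6]
      exact (integrable_const (1 : ℝ)).indicator (hQm j)
    · exact ((integrable_const (1 : ℝ)).indicator hPm).const_mul 3
    · intro g
      exact Qp_count f hf1 k (α.a g x)
  refine le_trans h7 ?_
  rw [integral_const_mul]
  have h8 : ∫ g, ({g | 0 < f (α.a g x)}).indicator (fun _ => (1 : ℝ)) g ∂μ =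
      μ.real {g | 0 < f (α.a g x)} := integral_indicator_one hPm
  rw [h8]
  have h9 := hfs x
  linarith

end BorelEq
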