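import Pool.Agent.Lib.MP_75103d_lc.B_Defs

/-! (B6) the law of the perturbations. -/

set_option autoImplicit false

open MeasureTheory Set
open scoped ENNReal

namespace BorelEq

theorem PP_prob {G : Type*} [MeasurableSpace G] (μ : Measure G) [IsProbabilityMeasure μ]
    (nrm : G → ℝ) (hnp : ∀ δ : ℝ, 0 < δ → μ {g | nrm g < δ} ≠ 0) : IsProbabilityMeasure (PP μ nrm) := by
  haveI : ∀ j : ℕ, IsProbabilityMeasure
      (ProbabilityTheory.cond μ {g | nrm g < (1 / 2) ^ (j + 1)}) := fun j =>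
    ProbabilityTheory.cond_isProbabilityMeasure (hnp _ (by positivity))
  unfold PP
  infer_instance

/-- conjugation invariance of the conditioned measure -/
theorem cond_conj {G : Type*} [Group G] [MeasurableSpace G] [MeasurableMul₂ G] (μ : Measure G)
    [IsProbabilityMeasure μ] (hl : ∀ u : G, MeasurePreserving (fun g => u * g) μ μ)
    (hr : ∀ u : G, MeasurePreserving (fun g => g * u) μ μ)
    (nrm : G → ℝ) (hnm : Measurable nrm) (hnc : ∀ s g : G, nrm (s * g * s⁻¹) = nrm g) (δ : ℝ) (u : G) :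
    MeasurePreserving (fun g => u⁻¹ * g * u) (ProbabilityTheory.cond μ {g | nrm g < δ})
      (ProbabilityTheory.cond μ {g | nrm g < δ}) := by
  have hS : MeasurableSet {g : G | nrm g < δ} := measurableSet_lt hnm measurable_const
  have hc : MeasurePreserving (fun g : G => u⁻¹ * g * u) μ μ := (hr u).comp (hl u⁻¹)
  have hpre : (fun g : G => u⁻¹ * g * u) ⁻¹' {g : G | nrm g < δ} = {g : G | nrm g < δ} := by
    ext g
    have h := hnc u⁻¹ g
    rw [inv_inv] at h
    simp only [Set.mem_preimage, Set.mem_setOf_eq, h]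
  have h1 := hc.restrict_preimage hS
  rw [hpre] at h1
  unfold ProbabilityTheory.cond
  exact h1.smul_measure _

theorem PP_conj {G : Type*} [Group G] [MeasurableSpace G] [MeasurableMul₂ G] (μ : Measure G)
    [IsProbabilityMeasure μ] (hl : ∀ u : G, MeasurePreserving (fun g => u * g) μ μ)
    (hr : ∀ u : G, MeasurePreserving (fun g => g * u) μ μ)
    (nrm : G → ℝ) (hnm : Measurable nrm) (hnc : ∀ s g : G, nrm (s * g * s⁻¹) = nrm g)
    (hnp : ∀ δ : ℝ, 0 < δ → μ {g | nrm g < δ} ≠ 0) (u : G) :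
    MeasurePreserving (fun (ω : ℕ → G) (j : ℕ) => u⁻¹ * ω j * u) (PP μ nrm) (PP μ nrm) := by
  haveI : ∀ j : ℕ, IsProbabilityMeasure
      (ProbabilityTheory.cond μ {g | nrm g < (1 / 2) ^ (j + 1)}) := fun j =>
    ProbabilityTheory.cond_isProbabilityMeasure (hnp _ (by positivity))
  have hm : Measurable (fun g : G => u⁻¹ * g * u) := by fun_prop
  refine ⟨?_, ?_⟩
  · exact measurable_pi_lambda _ (fun j => hm.comp (measurable_pi_apply j))
  · unfold PP
    have h := Measure.infinitePi_map_pi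
      (μ := fun j : ℕ => ProbabilityTheory.cond μ {g | nrm g < (1 / 2) ^ (j + 1)})
      (Y := fun _ => G) (f := fun _ g => u⁻¹ * g * u) (fun _ => hm)
    rw [h]
    congr 1
    funext j
    exact (cond_conj μ hl hr nrm hnm hnc _ u).map_eq

theorem PP_ae {G : Type*} [MeasurableSpace G] (μ : Measure G) [IsProbabilityMeasure μ]
    (nrm : G → ℝ) (hnm : Measurable nrm) (hnp : ∀ δ : ℝ, 0 < δ → μ {g | nrm g < δ} ≠ 0) :
    ∀ᵐ ω ∂(PP μ nrm), ∀ j, nrm (ω j) < (1 / 2) ^ (j + 1) := by
  haveI : ∀ j : ℕ, IsProbabilityMeasure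
      (ProbabilityTheory.cond μ {g | nrm g < (1 / 2) ^ (j + 1)}) := fun j =>
    ProbabilityTheory.cond_isProbabilityMeasure (hnp _ (by positivity))
  rw [ae_all_iff]
  intro j
  have hS : MeasurableSet {g : G | nrm g < (1 / 2) ^ (j + 1)} :=
    measurableSet_lt hnm measurable_const
  have hp := measurePreserving_eval_infinitePi
    (fun j : ℕ => ProbabilityTheory.cond μ {g | nrm g < (1 / 2) ^ (j + 1)}) j
  exact hp.quasiMeasurePreserving.ae (ProbabilityTheory.ae_cond_mem hS)

end BorelEq
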