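import Pool.Agent.Lib.MP_75103d_lc.B_Defs

/-! (B6) domination: for events depending on finitely many coordinates the perturbation law is dominated by product Haar measure. -/

set_option autoImplicit false

open MeasureTheory Set
open scoped ENNReal

namespace BorelEq

/-- Use `Measure.infinitePi_map_restrict` and compare the finite products
(`ProbabilityTheory.cond μ S ≤ (μ S)⁻¹ • μ`, monotonicity of finite products of measures). -/
theorem PP_dom {G : Type*} [MeasurableSpace G] (μ : Measure G) [IsProbabilityMeasure μ]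
    (nrm : G → ℝ) (hnm : Measurable nrm) (hnp : ∀ δ : ℝ, 0 < δ → μ {g | nrm g < δ} ≠ 0) (k : ℕ)
    (A : Set (ℕ → G)) (hA : MeasurableSet A) (hk : ∀ ω, trunc k ω ∈ A ↔ ω ∈ A) :
    (PP μ nrm).real A ≤ (∏ j ∈ Finset.range (k + 1), (μ.real {g | nrm g < (1 / 2) ^ (j + 1)})⁻¹) *
      (PH μ).real A := by
  obtain ⟨S, hS⟩ : ∃ S : ℕ → Set G, S = fun j => {g | nrm g < (1 / 2) ^ (j + 1)} := ⟨_, rfl⟩
  have hSm : ∀ j, MeasurableSet (S j) := fun j => by
    rw [hS]
    exact measurableSet_lt hnm measurable_const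
  have hS0 : ∀ j, μ (S j) ≠ 0 := fun j => by
    rw [hS]
    exact hnp _ (by positivity)
  have hSt : ∀ j, μ (S j) ≠ ⊤ := fun j => measure_ne_top μ _
  have : ∀ j : ℕ, IsProbabilityMeasure (ProbabilityTheory.cond μ (S j)) :=
    fun j => ProbabilityTheory.cond_isProbabilityMeasure (hS0 j)
  obtain ⟨I, hI⟩ : ∃ I : Finset ℕ, I = Finset.range (k + 1) := ⟨_, rfl⟩
  have hmem : ∀ j : ℕ, min j k ∈ I := fun j => by
    rw [hI, Finset.mem_range]
    exact Nat.lt_succ_of_le (min_le_right _ _)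
  obtain ⟨ρ, hρ⟩ : ∃ ρ : (I → G) → (ℕ → G), ρ = fun η j => η ⟨min j k, hmem j⟩ := ⟨_, rfl⟩
  have hρm : Measurable ρ := by
    rw [hρ]
    exact measurable_pi_lambda _ fun j => measurable_pi_apply _
  have hBA : A = I.restrict ⁻¹' (ρ ⁻¹' A) := by
    ext ω
    rw [← hk ω, mem_preimage, mem_preimage]
    have : trunc k ω = ρ (I.restrict ω) := by
      rw [hρ]
      rfl
    rw [this]
  have hB : MeasurableSet (ρ ⁻¹' A) := hρm hA
  have hr : Measurable (I.restrict : (ℕ → G) → (I → G)) := by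
    exact measurable_pi_lambda _ fun j => measurable_pi_apply _
  have h1 : PP μ nrm A = Measure.pi (fun i : I => ProbabilityTheory.cond μ (S i)) (ρ ⁻¹' A) := by
    rw [← Measure.infinitePi_map_restrict (μ := fun j : ℕ => ProbabilityTheory.cond μ (S j)),
      Measure.map_apply hr hB, ← hBA, hS]
    rfl
  have h2 : PH μ A = Measure.pi (fun _ : I => μ) (ρ ⁻¹' A) := by
    rw [← Measure.infinitePi_map_restrict (μ := fun _ : ℕ => μ), Measure.map_apply hr hB, ← hBA]
    rfl
  have h3 : Measure.pi (fun i : I => ProbabilityTheory.cond μ (S i)) =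
      (∏ i : I, (μ (S i))⁻¹) • (Measure.pi (fun _ : I => μ)).restrict (univ.pi fun i : I => S i) := by
    refine Measure.pi_eq fun s hs => ?_
    rw [Measure.smul_apply, Measure.restrict_apply (MeasurableSet.univ_pi hs), smul_eq_mul,
      ← Set.pi_inter_distrib, Measure.pi_pi, ← Finset.prod_mul_distrib]
    refine Finset.prod_congr rfl fun i _ => ?_
    rw [ProbabilityTheory.cond_apply (hSm i), inter_comm]
  have h4 : PP μ nrm A ≤ (∏ i : I, (μ (S i))⁻¹) * PH μ A := by
    rw [h1, h2, h3, Measure.smul_apply, smul_eq_mul]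
    exact mul_le_mul_right (Measure.restrict_apply_le _ _) _
  have h5 : (∏ i : I, (μ (S i))⁻¹) ≠ ⊤ :=
    ENNReal.prod_ne_top fun i _ => ENNReal.inv_ne_top.2 (hS0 i)
  have : IsProbabilityMeasure (PH μ) := by
    unfold PH
    infer_instance
  have h6 := ENNReal.toReal_mono (ENNReal.mul_ne_top h5 (measure_ne_top (PH μ) A)) h4
  rw [ENNReal.toReal_mul, ENNReal.toReal_prod] at h6
  refine h6.trans_eq ?_
  congr 1
  rw [← hI, ← Finset.prod_coe_sort I (fun j => (μ.real {g | nrm g < (1 / 2) ^ (j + 1)})⁻¹)]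
  refine Finset.prod_congr rfl fun i _ => ?_
  rw [ENNReal.toReal_inv, hS]
  rfl

end BorelEq
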