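import Pool.Agent.Lib.MP_75103d_lc.B_Defs

/-! (B4) variation and layer cake. -/

set_option autoImplicit false

open MeasureTheory Set
open scoped ENNReal

namespace BorelEq

open Classical in
/-- The free variation. -/
noncomputable def freeVar {Z : Type*} [MeasurableSpace Z] (Q : Measure Z) {d : ℕ} (σ : Fin d → Z → Z)
    (B : Set Z) (h : Z → ℝ) : ℝ :=
  (1 / 2) * ∑ i, ∫ z, (if z ∈ B ∨ σ i z ∈ B then 0 else |h z - h (σ i z)|) ∂Q

lemma B_Fw2_sign_meas : Measurable Real.sign := by
  have h : Real.sign = fun x : ℝ => if x < 0 then -1 else if 0 < x then 1 else 0 := by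
    funext x
    rfl
  rw [h]
  exact Measurable.ite (measurableSet_lt measurable_id measurable_const) measurable_const
    (Measurable.ite (measurableSet_lt measurable_const measurable_id) measurable_const
      measurable_const)

lemma B_Fw2_extFlow_meas {Z : Type*} [MeasurableSpace Z] {d : ℕ} {σ : Fin d → Z → Z}
    (hσ : ∀ i, Measurable (σ i)) {B : Set Z} (hB : MeasurableSet B) (q : ℝ) {h : Z → ℝ}
    (hh : Measurable h) (i : Fin d) : Measurable (fun z => extFlow σ B q h z i) := by
  unfold extFlow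
  refine Measurable.ite ?_ measurable_const ?_
  · exact hB.union (hσ i hB)
  · exact (B_Fw2_sign_meas.comp (hh.sub (hh.comp (hσ i)))).const_mul q

lemma B_Fw2_integral_comp {Z : Type*} [MeasurableSpace Z] {Q : Measure Z} {σ : Z → Z}
    (hσ : MeasurePreserving σ Q Q) {f : Z → ℝ} (hf : Measurable f) :
    ∫ z, f (σ z) ∂Q = ∫ z, f z ∂Q := by
  have h := integral_map (μ := Q) hσ.measurable.aemeasurable (f := f)
    (hf.aestronglyMeasurable)
  rw [hσ.map_eq] at h
  exact h.symm

lemma B_Fw2_int_bdd {Z : Type*} [MeasurableSpace Z] {Q : Measure Z} [IsFiniteMeasure Q]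
    {f : Z → ℝ} (hf : Measurable f) (K : ℝ) (hK : ∀ z, |f z| ≤ K) : Integrable f Q :=
  Integrable.of_bound hf.aestronglyMeasurable K (Filter.Eventually.of_forall hK)

/-- Pairing of any bounded antisymmetric flow: integration by parts. -/
theorem pairing_flow {Z : Type*} [MeasurableSpace Z] (Q : Measure Z) [IsProbabilityMeasure Q] {d : ℕ}
    (σ : Fin d → Z → Z) (ι : Fin d → Fin d) (hι : ∀ i, ι (ι i) = i)
    (hinv : ∀ i z, σ (ι i) (σ i z) = z) (hσ : ∀ i, MeasurePreserving (σ i) Q Q)
    (g : Z → Fin d → ℝ) (hg : ∀ i, Measurable (fun z => g z i)) (q : ℝ) (hgq : ∀ z i, |g z i| ≤ q)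
    (hga : ∀ z i, g (σ i z) (ι i) = - g z i)
    {h : Z → ℝ} (hh : Measurable h) (K : ℝ) (hK : ∀ z, |h z| ≤ K) :
    ∫ z, h z * ∑ i, g z i ∂Q = (1 / 2) * ∑ i, ∫ z, (h z - h (σ i z)) * g z i ∂Q := by
  have hKq : ∀ z w i, |h z * g w i| ≤ K * q := by
    intro z w i
    rw [abs_mul]
    exact mul_le_mul (hK z) (hgq w i) (abs_nonneg _) ((abs_nonneg _).trans (hK z))
  have i1 : ∀ i, Integrable (fun z => h z * g z i) Q := fun i =>
    B_Fw2_int_bdd (hh.mul (hg i)) (K * q) fun z => hKq z z i
  have i2 : ∀ i, Integrable (fun z => h (σ i z) * g z i) Q := fun i =>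
    B_Fw2_int_bdd ((hh.comp (hσ i).measurable).mul (hg i)) (K * q) fun z => hKq _ z i
  have e1 : ∫ z, h z * ∑ i, g z i ∂Q = ∑ i, ∫ z, h z * g z i ∂Q := by
    simp only [Finset.mul_sum]
    exact integral_finsetSum _ fun i _ => i1 i
  have e2 : ∀ i, ∫ z, h (σ i z) * g z i ∂Q = - ∫ z, h z * g z (ι i) ∂Q := by
    intro i
    have h1 := B_Fw2_integral_comp (hσ i) (f := fun w => h w * g w (ι i)) (hh.mul (hg (ι i)))
    rw [← h1, ← integral_neg]
    refine integral_congr_ae (Filter.Eventually.of_forall fun z => ?_)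
    simp only
    rw [hga]
    ring
  have e3 : ∑ i, ∫ z, h z * g z (ι i) ∂Q = ∑ i, ∫ z, h z * g z i ∂Q := by
    let e : Equiv.Perm (Fin d) := ⟨ι, ι, hι, hι⟩
    exact Equiv.sum_comp e fun i => ∫ z, h z * g z i ∂Q
  have e4 : ∑ i, ∫ z, (h z - h (σ i z)) * g z i ∂Q =
      ∑ i, ∫ z, h z * g z i ∂Q + ∑ i, ∫ z, h z * g z (ι i) ∂Q := by
    rw [← Finset.sum_add_distrib]
    refine Finset.sum_congr rfl fun i _ => ?_
    simp only [sub_mul]
    rw [integral_sub (i1 i) (i2 i), e2]
    ring
  rw [e1, e4, e3]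
  ring

/-- Pairing of the extremal flow with `h`. -/
theorem pairing_ext {Z : Type*} [MeasurableSpace Z] (Q : Measure Z) [IsProbabilityMeasure Q] {d : ℕ}
    (σ : Fin d → Z → Z) (ι : Fin d → Fin d) (hι : ∀ i, ι (ι i) = i)
    (hinv : ∀ i z, σ (ι i) (σ i z) = z) (hσ : ∀ i, MeasurePreserving (σ i) Q Q) {B : Set Z}
    (hB : MeasurableSet B) (q : ℝ) {h : Z → ℝ} (hh : Measurable h) (K : ℝ) (hK : ∀ z, |h z| ≤ K) :
    ∫ z, h z * ∑ i, extFlow σ B q h z i ∂Q = q * freeVar Q σ B h := by
  classical
  have hb : ∀ z i, |extFlow σ B q h z i| ≤ |q| := by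
    intro z i
    unfold extFlow
    split_ifs
    · simp
    · rcases Real.sign_apply_eq (h z - h (σ i z)) with h1 | h1 | h1
      · rw [h1, mul_neg_one, abs_neg]
      · rw [h1, mul_zero, abs_zero]
        exact abs_nonneg _
      · rw [h1, mul_one]
  have ha : ∀ z i, extFlow σ B q h (σ i z) (ι i) = - extFlow σ B q h z i := by
    intro z i
    unfold extFlow
    rw [hinv]
    by_cases hb : z ∈ B ∨ σ i z ∈ B
    · rw [if_pos hb, if_pos hb.symm, neg_zero]
    · rw [if_neg hb, if_neg (fun h' => hb h'.symm), ← mul_neg, ← Real.sign_neg, neg_sub]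
  rw [pairing_flow Q σ ι hι hinv hσ _ (B_Fw2_extFlow_meas (fun i => (hσ i).measurable) hB q hh)
    |q| hb ha hh K hK, freeVar]
  have e : ∀ i, ∫ z, (h z - h (σ i z)) * extFlow σ B q h z i ∂Q =
      q * ∫ z, (if z ∈ B ∨ σ i z ∈ B then 0 else |h z - h (σ i z)|) ∂Q := by
    intro i
    rw [← integral_const_mul]
    refine integral_congr_ae (Filter.Eventually.of_forall fun z => ?_)
    simp only
    unfold extFlow
    split_ifs
    · simp
    · have hs : (h z - h (σ i z)) * Real.sign (h z - h (σ i z)) = |h z - h (σ i z)| := by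
        rcases lt_trichotomy (h z - h (σ i z)) 0 with h1 | h1 | h1
        · rw [Real.sign_of_neg h1, abs_of_neg h1]
          ring
        · rw [h1]
          simp
        · rw [Real.sign_of_pos h1, abs_of_pos h1]
          ring
      rw [← hs]
      ring
  simp only [e]
  rw [← Finset.mul_sum]
  ring

/-- Isoperimetry for sets in `F`. -/
theorem freeVar_ind {Z : Type*} [MeasurableSpace Z] (Q : Measure Z) [IsProbabilityMeasure Q] {d : ℕ}
    (σ : Fin d → Z → Z) (ι : Fin d → Fin d) (hι : ∀ i, ι (ι i) = i)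
    (hinv : ∀ i z, σ (ι i) (σ i z) = z) (hσ : ∀ i, MeasurePreserving (σ i) Q Q) {B F : Set Z}
    (hB : MeasurableSet B) (hF : MeasurableSet F) (hBF : Disjoint B F) (r : ℕ)
    (hr : ∀ z ∈ F, degIn σ B z < r)
    (hiso : ∀ A : Set Z, MeasurableSet A → A ⊆ F →
      ∑ i, Q.real {z | z ∈ A ∧ σ i z ∈ A} ≤ d / 3 * Q.real A)
    {A : Set Z} (hA : MeasurableSet A) (hAF : A ⊆ F) :
    (2 / 3 * d - (r - 1)) * Q.real A ≤ freeVar Q σ B (A.indicator (fun _ => 1)) := by
  classical
  have hAB : ∀ z ∈ A, z ∉ B := fun z hz hz' => Set.disjoint_left.1 hBF hz' (hAF hz)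
  set a : Z → ℝ := A.indicator (fun _ => 1) with ha
  have ha_meas : Measurable a := measurable_const.indicator hA
  have ha_mem : ∀ z ∈ A, a z = 1 := fun z hz => Set.indicator_of_mem hz _
  have ha_nmem : ∀ z, z ∉ A → a z = 0 := fun z hz => Set.indicator_of_notMem hz _
  have ha01 : ∀ z, |a z| ≤ 1 := by
    intro z
    by_cases hz : z ∈ A
    · rw [ha_mem z hz, abs_one]
    · rw [ha_nmem z hz, abs_zero]
      exact zero_le_one
  -- the free part
  let fr : Fin d → Z → ℝ := fun i z => if z ∈ B ∨ σ i z ∈ B then 0 else 1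
  have hfr_meas : ∀ i, Measurable (fr i) := fun i =>
    Measurable.ite (hB.union ((hσ i).measurable hB)) measurable_const measurable_const
  have hfr01 : ∀ i z, |fr i z| ≤ 1 := by
    intro i z
    simp only [fr]
    split_ifs
    · simp
    · simp
  have hfr_inv : ∀ i z, fr (ι i) (σ i z) = fr i z := by
    intro i z
    simp only [fr]
    rw [hinv]
    by_cases hb : z ∈ B ∨ σ i z ∈ B
    · rw [if_pos hb, if_pos hb.symm]
    · rw [if_neg hb, if_neg fun h' => hb h'.symm]
  have i1 : ∀ i, Integrable (fun z => fr i z * a z) Q := fun i =>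
    B_Fw2_int_bdd ((hfr_meas i).mul ha_meas) 1 fun z => by
      rw [abs_mul]
      exact mul_le_one₀ (hfr01 i z) (abs_nonneg _) (ha01 z)
  have i2 : ∀ i, Integrable (fun z => fr i z * a (σ i z)) Q := fun i =>
    B_Fw2_int_bdd ((hfr_meas i).mul (ha_meas.comp (hσ i).measurable)) 1 fun z => by
      rw [abs_mul]
      exact mul_le_one₀ (hfr01 i z) (abs_nonneg _) (ha01 _)
  have i3m : ∀ i, Measurable (fun z => a z * a (σ i z)) := fun i =>
    ha_meas.mul (ha_meas.comp (hσ i).measurable)
  have i3 : ∀ i, Integrable (fun z => fr i z * (a z * a (σ i z))) Q := fun i =>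
    B_Fw2_int_bdd ((hfr_meas i).mul (i3m i)) 1 fun z => by
      rw [abs_mul, abs_mul]
      exact mul_le_one₀ (hfr01 i z) (by positivity)
        (mul_le_one₀ (ha01 z) (abs_nonneg _) (ha01 _))
  have i4 : ∀ i, Integrable (fun z => a z * a (σ i z)) Q := fun i =>
    B_Fw2_int_bdd (i3m i) 1 fun z => by
      rw [abs_mul]
      exact mul_le_one₀ (ha01 z) (abs_nonneg _) (ha01 _)
  have e1 : freeVar Q σ B a = (1 / 2) * ∑ i, (∫ z, fr i z * a z ∂Q + ∫ z, fr i z * a (σ i z) ∂Q -
      2 * ∫ z, fr i z * (a z * a (σ i z)) ∂Q) := by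
    rw [freeVar]
    congr 1
    refine Finset.sum_congr rfl fun i _ => ?_
    have hsum : ∫ z, (fr i z * a z + fr i z * a (σ i z) - 2 * (fr i z * (a z * a (σ i z)))) ∂Q =
        ∫ z, fr i z * a z ∂Q + ∫ z, fr i z * a (σ i z) ∂Q -
        2 * ∫ z, fr i z * (a z * a (σ i z)) ∂Q := by
      rw [integral_sub (f := fun z => fr i z * a z + fr i z * a (σ i z))
        (g := fun z => 2 * (fr i z * (a z * a (σ i z)))) ((i1 i).add (i2 i))
        ((i3 i).const_mul 2), integral_add (i1 i) (i2 i), integral_const_mul]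
    rw [← hsum]
    refine integral_congr_ae (Filter.Eventually.of_forall fun z => ?_)
    simp only [fr]
    split_ifs
    · simp
    · by_cases hz : z ∈ A
      · by_cases hz' : σ i z ∈ A
        · rw [ha_mem z hz, ha_mem _ hz']
          norm_num
        · rw [ha_mem z hz, ha_nmem _ hz']
          norm_num
      · by_cases hz' : σ i z ∈ A
        · rw [ha_nmem z hz, ha_mem _ hz']
          norm_num
        · rw [ha_nmem z hz, ha_nmem _ hz']
          norm_num
  have e2 : ∀ i, ∫ z, fr i z * a (σ i z) ∂Q = ∫ z, fr (ι i) z * a z ∂Q := by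
    intro i
    rw [← B_Fw2_integral_comp (hσ i) (f := fun z => fr (ι i) z * a z)
      ((hfr_meas (ι i)).mul ha_meas)]
    refine integral_congr_ae (Filter.Eventually.of_forall fun z => ?_)
    simp only [hfr_inv]
  have e3 : ∑ i, ∫ z, fr i z * a (σ i z) ∂Q = ∑ i, ∫ z, fr i z * a z ∂Q := by
    simp only [e2]
    let e : Equiv.Perm (Fin d) := ⟨ι, ι, hι, hι⟩
    exact Equiv.sum_comp e fun i => ∫ z, fr i z * a z ∂Q
  have e4 : freeVar Q σ B a = ∑ i, ∫ z, fr i z * a z ∂Q -
      ∑ i, ∫ z, fr i z * (a z * a (σ i z)) ∂Q := by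
    rw [e1, Finset.sum_sub_distrib, Finset.sum_add_distrib, e3, ← Finset.mul_sum]
    ring
  have e5 : ∑ i, ∫ z, fr i z * (a z * a (σ i z)) ∂Q ≤ d / 3 * Q.real A := by
    refine le_trans (Finset.sum_le_sum fun i _ => ?_) (hiso A hA hAF)
    have h1 : Q.real {z | z ∈ A ∧ σ i z ∈ A} = ∫ z, a z * a (σ i z) ∂Q := by
      have hm : MeasurableSet {z | z ∈ A ∧ σ i z ∈ A} := hA.inter ((hσ i).measurable hA)
      rw [← integral_indicator_one hm]
      refine integral_congr_ae (Filter.Eventually.of_forall fun z => ?_)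
      by_cases hz : z ∈ A
      · by_cases hz' : σ i z ∈ A
        · simp only
          rw [Set.indicator_of_mem (show z ∈ {z | z ∈ A ∧ σ i z ∈ A} from ⟨hz, hz'⟩),
            ha_mem z hz, ha_mem _ hz']
          simp
        · simp only
          rw [Set.indicator_of_notMem (fun h : z ∈ {z | z ∈ A ∧ σ i z ∈ A} => hz' h.2),
            ha_nmem _ hz', mul_zero]
      · simp only
        rw [Set.indicator_of_notMem (fun h : z ∈ {z | z ∈ A ∧ σ i z ∈ A} => hz h.1),
          ha_nmem z hz, zero_mul]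
    rw [h1]
    refine integral_mono (i3 i) (i4 i) fun z => ?_
    simp only
    have h0 : 0 ≤ a z * a (σ i z) := by
      by_cases hz : z ∈ A
      · by_cases hz' : σ i z ∈ A
        · rw [ha_mem z hz, ha_mem _ hz']; norm_num
        · rw [ha_nmem _ hz', mul_zero]
      · rw [ha_nmem z hz, zero_mul]
    have h2 : fr i z ≤ 1 := (le_abs_self _).trans (hfr01 i z)
    calc fr i z * (a z * a (σ i z)) ≤ 1 * (a z * a (σ i z)) :=
          mul_le_mul_of_nonneg_right h2 h0
      _ = a z * a (σ i z) := one_mul _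
  have e6 : (d - (r - 1)) * Q.real A ≤ ∑ i, ∫ z, fr i z * a z ∂Q := by
    rw [← integral_finsetSum _ fun i _ => i1 i]
    have h1 : (d - (r - 1)) * Q.real A = ∫ z, (d - (r - 1 : ℝ)) * a z ∂Q := by
      rw [integral_const_mul, ha, integral_indicator_const _ hA]
      simp
    rw [h1]
    refine integral_mono ((B_Fw2_int_bdd ha_meas 1 ha01).const_mul _)
      (integrable_finsetSum _ fun i _ => i1 i) fun z => ?_
    simp only
    rw [← Finset.sum_mul]
    by_cases hz : z ∈ A
    · rw [ha_mem z hz, mul_one, mul_one]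
      have h2 : ∑ i, fr i z = d - degIn σ B z := by
        have h3 : ∀ i, fr i z = 1 - if σ i z ∈ B then 1 else 0 := by
          intro i
          simp only [fr]
          by_cases hb : σ i z ∈ B
          · rw [if_pos (Or.inr hb), if_pos hb, sub_self]
          · rw [if_neg (fun h => h.elim (hAB z hz) hb), if_neg hb, sub_zero]
        simp only [h3]
        rw [Finset.sum_sub_distrib, degIn, Finset.card_filter]
        push_cast
        simp
      rw [h2]
      have h3 : (degIn σ B z : ℝ) ≤ r - 1 := by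
        have h4 := hr z (hAF hz)
        have h5 : (degIn σ B z : ℝ) + 1 ≤ r := by exact_mod_cast h4
        linarith
      linarith
    · rw [ha_nmem z hz, mul_zero, mul_zero]
  rw [e4]
  linarith

/-- One dimensional layer cake. -/
lemma B_Fw2_cake {K x : ℝ} (h0 : 0 ≤ x) (hK : x ≤ K) :
    ∫ s in Ioc 0 K, (Iio x).indicator (fun _ => (1 : ℝ)) s = x := by
  rw [integral_indicator measurableSet_Iio, Measure.restrict_restrict measurableSet_Iio]
  have h1 : Iio x ∩ Ioc 0 K = Ioo 0 x := by
    ext s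
    simp only [mem_inter_iff, mem_Iio, mem_Ioc, mem_Ioo]
    constructor
    · rintro ⟨h1, h2, h3⟩
      exact ⟨h2, h1⟩
    · rintro ⟨h1, h2⟩
      exact ⟨h2, h1, h2.le.trans hK⟩
  rw [h1]
  simp [h0]

/-- Layer cake. -/
theorem freeVar_layer {Z : Type*} [MeasurableSpace Z] (Q : Measure Z) [IsProbabilityMeasure Q] {d : ℕ}
    (σ : Fin d → Z → Z) (hσ : ∀ i, MeasurePreserving (σ i) Q Q) {B F : Set Z}
    (hB : MeasurableSet B) (κ : ℝ)
    (hind : ∀ A : Set Z, MeasurableSet A → A ⊆ F → κ * Q.real A ≤ freeVar Q σ B (A.indicator (fun _ => 1)))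
    {h : Z → ℝ} (hh : Measurable h) (h0 : ∀ z, 0 ≤ h z) (K : ℝ) (hK : ∀ z, h z ≤ K)
    (hF : ∀ z, z ∉ F → h z = 0) :
    κ * ∫ z, h z ∂Q ≤ freeVar Q σ B h := by
  classical
  set ν : Measure ℝ := volume.restrict (Ioc 0 K) with hν
  -- the layers
  let L : ℝ → Z → ℝ := fun s z => (Iio (h z)).indicator (fun _ => (1 : ℝ)) s
  have hL_eq : ∀ s z, L s z = if s < h z then 1 else 0 := by
    intro s z
    simp only [L]
    by_cases hs : s < h z
    · rw [if_pos hs, Set.indicator_of_mem (show s ∈ Iio (h z) from hs)]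
    · rw [if_neg hs, Set.indicator_of_notMem (show s ∉ Iio (h z) from hs)]
  have hL_ind : ∀ s z, L s z = ({z | s < h z} : Set Z).indicator (fun _ => (1 : ℝ)) z := by
    intro s z
    rw [hL_eq]
    by_cases hs : s < h z
    · rw [if_pos hs, Set.indicator_of_mem (show z ∈ {z | s < h z} from hs)]
    · rw [if_neg hs, Set.indicator_of_notMem (show z ∉ {z | s < h z} from hs)]
  have hLm : Measurable (fun p : ℝ × Z => L p.1 p.2) := by
    have : (fun p : ℝ × Z => L p.1 p.2) = fun p => if p.1 < h p.2 then (1 : ℝ) else 0 := by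
      funext p
      exact hL_eq _ _
    rw [this]
    exact Measurable.ite (measurableSet_lt measurable_fst (hh.comp measurable_snd))
      measurable_const measurable_const
  have hL01 : ∀ s z, |L s z| ≤ 1 := by
    intro s z
    rw [hL_eq]
    split_ifs <;> simp
  -- the free part of the layers
  let G : Fin d → ℝ → Z → ℝ := fun i s z =>
    if z ∈ B ∨ σ i z ∈ B then 0 else |L s z - L s (σ i z)|
  have hGm : ∀ i, Measurable (fun p : ℝ × Z => G i p.1 p.2) := by
    intro i
    have hσm : Measurable (fun p : ℝ × Z => (p.1, σ i p.2)) :=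
      measurable_fst.prodMk ((hσ i).measurable.comp measurable_snd)
    refine Measurable.ite ?_ measurable_const ?_
    · exact (measurable_snd hB).union ((hσ i).measurable.comp measurable_snd hB)
    · exact (hLm.sub (hLm.comp hσm)).abs
  have hG01 : ∀ i s z, |G i s z| ≤ 1 := by
    intro i s z
    simp only [G]
    split_ifs
    · simp
    · rw [abs_abs, hL_eq, hL_eq]
      split_ifs <;> simp
  have hLint : ∀ z, ∫ s, L s z ∂ν = h z := fun z => B_Fw2_cake (h0 z) (hK z)
  have hLi : ∀ z, Integrable (fun s => L s z) ν := fun z =>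
    B_Fw2_int_bdd (hLm.comp (measurable_id.prodMk measurable_const)) 1 fun s => hL01 s z
  have hGint : ∀ i z, ∫ s, G i s z ∂ν =
      if z ∈ B ∨ σ i z ∈ B then 0 else |h z - h (σ i z)| := by
    intro i z
    simp only [G]
    split_ifs with hb
    · simp
    · rcases le_total (h z) (h (σ i z)) with hle | hle
      · have e1 : ∀ s, |L s z - L s (σ i z)| = L s (σ i z) - L s z := by
          intro s
          rw [abs_sub_comm, abs_of_nonneg]
          rw [hL_eq, hL_eq]
          by_cases h1 : s < h z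
          · rw [if_pos h1, if_pos (h1.trans_le hle), sub_self]
          · rw [if_neg h1, sub_zero]
            split_ifs <;> norm_num
        simp only [e1]
        rw [integral_sub (hLi _) (hLi _), hLint, hLint, abs_sub_comm, abs_of_nonneg]
        linarith
      · have e1 : ∀ s, |L s z - L s (σ i z)| = L s z - L s (σ i z) := by
          intro s
          rw [abs_of_nonneg]
          rw [hL_eq, hL_eq]
          by_cases h1 : s < h (σ i z)
          · rw [if_pos h1, if_pos (h1.trans_le hle), sub_self]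
          · rw [if_neg h1, sub_zero]
            split_ifs <;> norm_num
        simp only [e1]
        rw [integral_sub (hLi _) (hLi _), hLint, hLint, abs_of_nonneg]
        linarith
  -- Fubini
  have f1 : ∫ z, h z ∂Q = ∫ s, ∫ z, L s z ∂Q ∂ν := by
    rw [integral_integral_swap (f := fun s z => L s z)
      (B_Fw2_int_bdd hLm 1 fun p => hL01 p.1 p.2)]
    simp only [hLint]
  have f2 : ∀ i, ∫ z, (if z ∈ B ∨ σ i z ∈ B then 0 else |h z - h (σ i z)|) ∂Q =
      ∫ s, ∫ z, G i s z ∂Q ∂ν := by
    intro i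
    rw [integral_integral_swap (f := fun s z => G i s z)
      (B_Fw2_int_bdd (hGm i) 1 fun p => hG01 i p.1 p.2)]
    simp only [hGint]
  have j1 : Integrable (fun s => ∫ z, L s z ∂Q) ν :=
    (B_Fw2_int_bdd (Q := ν.prod Q) hLm 1 fun p => hL01 p.1 p.2).integral_prod_left
  have j2 : ∀ i, Integrable (fun s => ∫ z, G i s z ∂Q) ν := fun i =>
    (B_Fw2_int_bdd (Q := ν.prod Q) (hGm i) 1 fun p => hG01 i p.1 p.2).integral_prod_left
  have f3 : freeVar Q σ B h = ∫ s, freeVar Q σ B (fun z => L s z) ∂ν := by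
    simp only [freeVar]
    rw [integral_const_mul, integral_finsetSum _ fun i _ => j2 i]
    simp only [f2, G]
  rw [f1, f3, ← integral_const_mul]
  refine integral_mono_ae (j1.const_mul κ) ?_ ?_
  · simp only [freeVar]
    exact (integrable_finsetSum _ fun i _ => j2 i).const_mul _
  · rw [hν, Filter.EventuallyLE, ae_restrict_iff' measurableSet_Ioc]
    refine Filter.Eventually.of_forall fun s hs => ?_
    have hA : MeasurableSet {z | s < h z} := measurableSet_lt measurable_const hh
    have hAF : {z | s < h z} ⊆ F := by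
      intro z hz
      by_contra hzF
      have h1 : s < h z := hz
      rw [hF z hzF] at h1
      exact absurd hs.1 (not_lt.2 h1.le)
    have key := hind _ hA hAF
    have e1 : (fun z => L s z) = ({z | s < h z} : Set Z).indicator (fun _ => (1 : ℝ)) := by
      funext z
      exact hL_ind s z
    rw [e1, integral_indicator_const _ hA]
    simpa using key

end BorelEq
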