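import Pool.Agent.Lib.MP_75103d_lc.B_Fw1
import Pool.Agent.Lib.MP_75103d_lc.B_Fw2

/-! (B4) the energy inequality. -/

set_option autoImplicit false

open MeasureTheory Set
open scoped ENNReal

namespace BorelEq

/-- pointwise inequality -/
theorem pos_part_ineq (u t v : ℝ) :
    (max 0 (u - t * v)) ^ 2 ≤ (max 0 u) ^ 2 - 2 * t * (max 0 u * v) + t ^ 2 * v ^ 2 := by
  have h1 : max 0 (u - t * v) ≤ |max 0 u - t * v| := by
    refine max_le (abs_nonneg _) ?_
    have h2 : u ≤ max 0 u := le_max_right _ _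
    calc u - t * v ≤ max 0 u - t * v := by linarith
      _ ≤ |max 0 u - t * v| := le_abs_self _
  have h0 : 0 ≤ max 0 (u - t * v) := le_max_left _ _
  calc (max 0 (u - t * v)) ^ 2 ≤ |max 0 u - t * v| ^ 2 := pow_le_pow_left₀ h0 h1 2
    _ = (max 0 u - t * v) ^ 2 := sq_abs _
    _ = (max 0 u) ^ 2 - 2 * t * (max 0 u * v) + t ^ 2 * v ^ 2 := by ring

/-- One step of the iteration. -/
theorem fw_energy {Z : Type*} [MeasurableSpace Z] (Q : Measure Z) [IsProbabilityMeasure Q] {d : ℕ}
    (hd0 : 0 < d)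
    (σ : Fin d → Z → Z) (ι : Fin d → Fin d) (hι : ∀ i, ι (ι i) = i)
    (hinv : ∀ i z, σ (ι i) (σ i z) = z) (hσ : ∀ i, MeasurePreserving (σ i) Q Q) {B F : Set Z}
    (hB : MeasurableSet B) (hF : MeasurableSet F) (hBF : Disjoint B F) (r : ℕ) (hr1 : 1 ≤ r)
    (hr4 : 4 * ((r : ℝ) - 1) ≤ d)
    (hr : ∀ z ∈ F, degIn σ B z < r)
    (hiso : ∀ A : Set Z, MeasurableSet A → A ⊆ F →
      ∑ i, Q.real {z | z ∈ A ∧ σ i z ∈ A} ≤ d / 3 * Q.real A)
    {c : Z → ℝ} (hc : Measurable c) (hc1 : ∀ z ∈ F, c z ≤ 1 + (r - 1) * (6 / d))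
    (hc0 : ∀ z ∈ F, -1 ≤ c z) (t : ℝ) (ht : 0 ≤ t) (ht1 : t ≤ 1) (n : ℕ) :
    ∫ z, (defect F c (fw σ B F c (6 / d) t (n + 1)) z) ^ 2 ∂Q ≤
      (1 - 2 * t) * ∫ z, (defect F c (fw σ B F c (6 / d) t n) z) ^ 2 ∂Q + 144 * t ^ 2 := by
  have hd : (0 : ℝ) < d := by exact_mod_cast hd0
  have hr1' : (1 : ℝ) ≤ r := by exact_mod_cast hr1
  set q : ℝ := 6 / d with hq
  have hq0 : 0 ≤ q := by positivity
  have hqd : d * q = 6 := by
    rw [hq]
    field_simp
  set g := fw σ B F c q t n with hg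
  set h := defect F c g with hh
  have hσm : ∀ i, Measurable (σ i) := fun i => (hσ i).measurable
  have hgm : ∀ i, Measurable fun z => g z i := fun i => fw_meas σ hσm hB hF hc q t n i
  have hhm : Measurable h := B_Fw1_defect_meas hF hc hgm
  have hem : ∀ i, Measurable fun z => extFlow σ B q h z i :=
    fun i => B_Fw1_extFlow_meas hσm hB q hhm i
  have hgb : ∀ z i, |g z i| ≤ q := fun z i => fw_bound σ B F c q t hq0 ht ht1 n z i
  have heb : ∀ z i, |extFlow σ B q h z i| ≤ q := fun z i => extFlow_bound σ B q hq0 h z i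
  have hsum : ∀ f : Fin d → ℝ, (∀ i, |f i| ≤ q) → |∑ i, f i| ≤ 6 := by
    intro f hf
    calc |∑ i, f i| ≤ ∑ i, |f i| := Finset.abs_sum_le_sum_abs _ _
      _ ≤ ∑ _i : Fin d, q := Finset.sum_le_sum fun i _ => hf i
      _ = 6 := by rw [Finset.sum_const, Finset.card_univ, Fintype.card_fin, nsmul_eq_mul, hqd]
  have hrq : (r - 1) * q ≤ 3 / 2 := by
    have h1 : (r - 1) * q * 4 ≤ d * q := by nlinarith
    rw [hqd] at h1
    linarith
  have hgs : ∀ z, |∑ i, g z i| ≤ 6 := fun z => hsum _ (hgb z)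
  have hes : ∀ z, |∑ i, extFlow σ B q h z i| ≤ 6 := fun z => hsum _ (heb z)
  have h0 : ∀ z, 0 ≤ h z := by
    intro z
    by_cases hz : z ∈ F
    · rw [hh, defect, Set.indicator_of_mem hz]
      exact le_max_left _ _
    · rw [hh, defect, Set.indicator_of_notMem hz]
  have hz0 : ∀ z, z ∉ F → h z = 0 := by
    intro z hz
    rw [hh, defect, Set.indicator_of_notMem hz]
  have hzF : ∀ z ∈ F, h z = max 0 (c z - ∑ i, g z i) := by
    intro z hz
    rw [hh, defect, Set.indicator_of_mem hz]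
  have hK : ∀ z, h z ≤ 10 := by
    intro z
    by_cases hz : z ∈ F
    · rw [hzF z hz]
      refine max_le (by norm_num) ?_
      have h1 := (abs_le.1 (hgs z)).1
      have h2 := hc1 z hz
      linarith
    · rw [hz0 z hz]
      norm_num
  have hKa : ∀ z, |h z| ≤ 10 := fun z => by
    rw [abs_of_nonneg (h0 z)]
    exact hK z
  -- pairing
  have p1 := pairing_ext Q σ ι hι hinv hσ hB q hhm 10 hKa
  have p2 := freeVar_layer Q σ hσ hB (2 / 3 * d - (r - 1))
    (fun A hA hAF => freeVar_ind Q σ ι hι hinv hσ hB hF hBF r hr hiso hA hAF) hhm h0 10 hK hz0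
  have hIh : 0 ≤ ∫ z, h z ∂Q := integral_nonneg h0
  have p3 : (1 + (r - 1) * q) * ∫ z, h z ∂Q ≤ ∫ z, h z * ∑ i, extFlow σ B q h z i ∂Q := by
    rw [p1]
    refine le_trans ?_ (mul_le_mul_of_nonneg_left p2 hq0)
    rw [← mul_assoc]
    refine mul_le_mul_of_nonneg_right ?_ hIh
    have h3 : q * (2 / 3 * d - (r - 1)) = 4 - (r - 1) * q := by
      linear_combination (2 / 3) * hqd
    rw [h3]
    linarith
  -- integrability
  have hsg : Measurable fun z => ∑ i, g z i := Finset.measurable_sum _ fun i _ => hgm i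
  have hse : Measurable fun z => ∑ i, extFlow σ B q h z i :=
    Finset.measurable_sum _ fun i _ => hem i
  have j1 : Integrable (fun z => h z * ∑ i, g z i) Q :=
    B_Fw2_int_bdd (hhm.mul hsg) (10 * 6) fun z => by
      rw [abs_mul]
      exact mul_le_mul (hKa z) (hgs z) (abs_nonneg _) (by norm_num)
  have j2 : Integrable (fun z => h z * ∑ i, extFlow σ B q h z i) Q :=
    B_Fw2_int_bdd (hhm.mul hse) (10 * 6) fun z => by
      rw [abs_mul]
      exact mul_le_mul (hKa z) (hes z) (abs_nonneg _) (by norm_num)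
  have j3 : Integrable (fun z => h z ^ 2) Q :=
    B_Fw2_int_bdd (hhm.pow_const 2) (10 ^ 2) fun z => by
      rw [abs_pow]
      exact pow_le_pow_left₀ (abs_nonneg _) (hKa z) 2
  have j4 : Integrable h Q := B_Fw2_int_bdd hhm 10 hKa
  -- the inequality `∫ h v ≥ ∫ h²`
  have p4 : ∫ z, h z * ∑ i, g z i ∂Q ≤ (1 + (r - 1) * q) * ∫ z, h z ∂Q - ∫ z, h z ^ 2 ∂Q := by
    rw [← integral_const_mul, ← integral_sub (j4.const_mul _) j3]
    refine integral_mono j1 ((j4.const_mul _).sub j3) fun z => ?_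
    simp only
    by_cases hz : z ∈ F
    · have h1 := hc1 z hz
      have h2 : h z * (c z - ∑ i, g z i) = h z ^ 2 := by
        rw [hzF z hz]
        rcases le_total 0 (c z - ∑ i, g z i) with h3 | h3
        · rw [max_eq_right h3]
          ring
        · rw [max_eq_left h3]
          ring
      have h3 := mul_le_mul_of_nonneg_left h1 (h0 z)
      nlinarith
    · rw [hz0 z hz]
      simp
  -- pointwise bound
  have hpt : ∀ z, (defect F c (fw σ B F c q t (n + 1)) z) ^ 2 ≤
      h z ^ 2 - 2 * t * (h z * ∑ i, extFlow σ B q h z i - h z * ∑ i, g z i) + 144 * t ^ 2 := by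
    intro z
    set v := ∑ i, extFlow σ B q h z i - ∑ i, g z i with hv
    have hv12 : v ^ 2 ≤ 144 := by
      have h1 := abs_le.1 (hgs z)
      have h2 := abs_le.1 (hes z)
      have h3 : |v| ≤ 12 := by
        rw [abs_le]
        constructor
        · rw [hv]; linarith
        · rw [hv]; linarith
      calc v ^ 2 = |v| ^ 2 := (sq_abs v).symm
        _ ≤ 12 ^ 2 := pow_le_pow_left₀ (abs_nonneg _) h3 2
        _ = 144 := by norm_num
    by_cases hz : z ∈ F
    · have e1 : defect F c (fw σ B F c q t (n + 1)) z =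
          max 0 ((c z - ∑ i, g z i) - t * v) := by
        rw [defect, Set.indicator_of_mem hz]
        congr 1
        have e2 : ∑ i, fw σ B F c q t (n + 1) z i =
            (1 - t) * ∑ i, g z i + t * ∑ i, extFlow σ B q h z i := by
          rw [Finset.mul_sum, Finset.mul_sum, ← Finset.sum_add_distrib]
          refine Finset.sum_congr rfl fun i _ => ?_
          simp only [fw, hg, hh]
        rw [e2, hv]
        ring
      rw [e1]
      refine (pos_part_ineq _ t v).trans ?_
      rw [← hzF z hz]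
      have h4 : t ^ 2 * v ^ 2 ≤ 144 * t ^ 2 := by nlinarith [sq_nonneg t]
      have h5 : h z * v = h z * ∑ i, extFlow σ B q h z i - h z * ∑ i, g z i := by
        rw [hv]
        ring
      rw [h5]
      linarith
    · have e1 : defect F c (fw σ B F c q t (n + 1)) z = 0 := by
        rw [defect, Set.indicator_of_notMem hz]
      rw [e1, hz0 z hz]
      have h4 := sq_nonneg t
      norm_num
      positivity
  have j5 : Integrable (fun z => (defect F c (fw σ B F c q t (n + 1)) z) ^ 2) Q := by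
    have hm : Measurable (defect F c (fw σ B F c q t (n + 1))) :=
      B_Fw1_defect_meas hF hc fun i => fw_meas σ hσm hB hF hc q t (n + 1) i
    refine B_Fw2_int_bdd (hm.pow_const 2) (10 ^ 2) fun z => ?_
    rw [abs_pow]
    refine pow_le_pow_left₀ (abs_nonneg _) ?_ 2
    by_cases hz : z ∈ F
    · rw [defect, Set.indicator_of_mem hz, abs_of_nonneg (le_max_left _ _)]
      refine max_le (by norm_num) ?_
      have h1 := (abs_le.1 (hsum _ fun i =>
        fw_bound σ B F c q t hq0 ht ht1 (n + 1) z i)).1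
      have h2 := hc1 z hz
      linarith
    · rw [defect, Set.indicator_of_notMem hz, abs_zero]
      norm_num
  have j6 : Integrable (fun z => h z * ∑ i, extFlow σ B q h z i - h z * ∑ i, g z i) Q := j2.sub j1
  have hfin : ∫ z, (defect F c (fw σ B F c q t (n + 1)) z) ^ 2 ∂Q ≤
      ∫ z, h z ^ 2 ∂Q - 2 * t * (∫ z, h z * ∑ i, extFlow σ B q h z i ∂Q -
        ∫ z, h z * ∑ i, g z i ∂Q) + 144 * t ^ 2 := by
    have h1 : ∫ z, (h z ^ 2 - 2 * t * (h z * ∑ i, extFlow σ B q h z i - h z * ∑ i, g z i) +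
        144 * t ^ 2) ∂Q = ∫ z, h z ^ 2 ∂Q - 2 * t * (∫ z, h z * ∑ i, extFlow σ B q h z i ∂Q -
        ∫ z, h z * ∑ i, g z i ∂Q) + 144 * t ^ 2 := by
      rw [integral_add (f := fun z => h z ^ 2 - 2 * t * (h z * ∑ i, extFlow σ B q h z i -
        h z * ∑ i, g z i)) (j3.sub (j6.const_mul _)) (integrable_const _),
        integral_sub (g := fun z => 2 * t * (h z * ∑ i, extFlow σ B q h z i -
        h z * ∑ i, g z i)) j3 (j6.const_mul _), integral_const_mul, integral_sub j2 j1]
      simp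
    rw [← h1]
    exact integral_mono j5 ((j3.sub (j6.const_mul _)).add (integrable_const _)) hpt
  refine hfin.trans ?_
  have h6 : ∫ z, h z ^ 2 ∂Q ≤ ∫ z, h z * ∑ i, extFlow σ B q h z i ∂Q -
      ∫ z, h z * ∑ i, g z i ∂Q := by linarith
  have h7 := mul_le_mul_of_nonneg_left h6 (by positivity : 0 ≤ 2 * t)
  linarith

/-- The result of the iteration. -/
theorem fw_error {Z : Type*} [MeasurableSpace Z] (Q : Measure Z) [IsProbabilityMeasure Q] {d : ℕ}
    (hd0 : 0 < d)
    (σ : Fin d → Z → Z) (ι : Fin d → Fin d) (hι : ∀ i, ι (ι i) = i)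
    (hinv : ∀ i z, σ (ι i) (σ i z) = z) (hσ : ∀ i, MeasurePreserving (σ i) Q Q) {B F : Set Z}
    (hB : MeasurableSet B) (hF : MeasurableSet F) (hBF : Disjoint B F) (r : ℕ) (hr1 : 1 ≤ r)
    (hr4 : 4 * ((r : ℝ) - 1) ≤ d)
    (hr : ∀ z ∈ F, degIn σ B z < r)
    (hiso : ∀ A : Set Z, MeasurableSet A → A ⊆ F →
      ∑ i, Q.real {z | z ∈ A ∧ σ i z ∈ A} ≤ d / 3 * Q.real A)
    {c : Z → ℝ} (hc : Measurable c) (hc1 : ∀ z ∈ F, c z ≤ 1 + (r - 1) * (6 / d))
    (hc0 : ∀ z ∈ F, -1 ≤ c z) (t : ℝ) (ht : 0 < t) (ht1 : t ≤ 1 / 2) (n : ℕ) :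
    Q.real {z | z ∈ F ∧ ∑ i, fw σ B F c (6 / d) t n z i < c z - 1 / 4} ≤
      16 * ((1 - 2 * t) ^ n * (25 / 4) + 72 * t) := by
  have hd : (0 : ℝ) < d := by exact_mod_cast hd0
  have hr1' : (1 : ℝ) ≤ r := by exact_mod_cast hr1
  have hrq : ((r : ℝ) - 1) * (6 / d) ≤ 3 / 2 := by
    rw [← mul_div_assoc, div_le_iff₀ hd]
    linarith
  have hσm : ∀ i, Measurable (σ i) := fun i => (hσ i).measurable
  have hind : ∀ m : ℕ, ∫ z, (defect F c (fw σ B F c (6 / d) t m) z) ^ 2 ∂Q ≤
      (1 - 2 * t) ^ m * (25 / 4) + 72 * t := by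
    intro m
    induction m with
    | zero =>
      have h1 : ∀ z, (defect F c (fw σ B F c (6 / d) t 0) z) ^ 2 ≤ 25 / 4 := by
        intro z
        by_cases hz : z ∈ F
        · rw [defect, Set.indicator_of_mem hz]
          have h2 : max 0 (c z - ∑ i : Fin d, fw σ B F c (6 / d) t 0 z i) ≤ 5 / 2 := by
            refine max_le (by norm_num) ?_
            simp only [fw, Finset.sum_const_zero, sub_zero]
            have := hc1 z hz
            linarith
          calc (max 0 (c z - ∑ i : Fin d, fw σ B F c (6 / d) t 0 z i)) ^ 2 ≤ (5 / 2) ^ 2 :=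
                pow_le_pow_left₀ (le_max_left _ _) h2 2
            _ = 25 / 4 := by norm_num
        · rw [defect, Set.indicator_of_notMem hz]
          norm_num
      have hm : Measurable (defect F c (fw σ B F c (6 / d) t 0)) :=
        B_Fw1_defect_meas hF hc fun i => fw_meas σ hσm hB hF hc (6 / d) t 0 i
      have h2 : ∫ z, (defect F c (fw σ B F c (6 / d) t 0) z) ^ 2 ∂Q ≤ ∫ _z, (25 / 4 : ℝ) ∂Q := by
        refine integral_mono (B_Fw2_int_bdd (hm.pow_const 2) (25 / 4) fun z => ?_)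
          (integrable_const _) h1
        rw [abs_of_nonneg (sq_nonneg _)]
        exact h1 z
      have h3 : ∫ _z, (25 / 4 : ℝ) ∂Q = 25 / 4 := by simp
      rw [h3] at h2
      rw [pow_zero, one_mul]
      linarith
    | succ m ih =>
      have h1 := fw_energy Q hd0 σ ι hι hinv hσ hB hF hBF r hr1 hr4 hr hiso hc hc1 hc0 t ht.le
        (by linarith) m
      refine h1.trans ?_
      have h2 := mul_le_mul_of_nonneg_left ih (by linarith : 0 ≤ 1 - 2 * t)
      have h3 : (1 - 2 * t) * ((1 - 2 * t) ^ m * (25 / 4) + 72 * t) + 144 * t ^ 2 =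
          (1 - 2 * t) ^ (m + 1) * (25 / 4) + 72 * t := by ring
      linarith
  have hm : Measurable (defect F c (fw σ B F c (6 / d) t n)) :=
    B_Fw1_defect_meas hF hc fun i => fw_meas σ hσm hB hF hc (6 / d) t n i
  set S : Set Z := {z | z ∈ F ∧ ∑ i, fw σ B F c (6 / d) t n z i < c z - 1 / 4} with hS
  have hSm : MeasurableSet S := by
    refine hF.inter (measurableSet_lt (Finset.measurable_sum _ fun i _ =>
      fw_meas σ hσm hB hF hc (6 / d) t n i) (hc.sub_const _))
  have hbd : ∀ z, |defect F c (fw σ B F c (6 / d) t n) z| ≤ 10 := by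
    intro z
    by_cases hz : z ∈ F
    · rw [defect, Set.indicator_of_mem hz, abs_of_nonneg (le_max_left _ _)]
      refine max_le (by norm_num) ?_
      have hb : |∑ i, fw σ B F c (6 / d) t n z i| ≤ 6 := by
        calc |∑ i, fw σ B F c (6 / d) t n z i| ≤ ∑ i, |fw σ B F c (6 / d) t n z i| :=
              Finset.abs_sum_le_sum_abs _ _
          _ ≤ ∑ _i : Fin d, (6 / d : ℝ) := Finset.sum_le_sum fun i _ =>
              fw_bound σ B F c (6 / d) t (by positivity) ht.le (by linarith) n z i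
          _ = 6 := by
              rw [Finset.sum_const, Finset.card_univ, Fintype.card_fin, nsmul_eq_mul]
              field_simp
      have h1 := (abs_le.1 hb).1
      have h2 := hc1 z hz
      linarith
    · rw [defect, Set.indicator_of_notMem hz, abs_zero]
      norm_num
  have h1 : Q.real S ≤ 16 * ∫ z, (defect F c (fw σ B F c (6 / d) t n) z) ^ 2 ∂Q := by
    rw [← integral_indicator_one hSm, ← integral_const_mul]
    refine integral_mono ((integrable_const (1 : ℝ)).indicator hSm)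
      ((B_Fw2_int_bdd (hm.pow_const 2) (10 ^ 2) fun z => ?_).const_mul _) fun z => ?_
    · rw [abs_pow]
      exact pow_le_pow_left₀ (abs_nonneg _) (hbd z) 2
    · simp only
      by_cases hz : z ∈ S
      · rw [Set.indicator_of_mem hz]
        have h2 : (1 / 4 : ℝ) ≤ defect F c (fw σ B F c (6 / d) t n) z := by
          rw [defect, Set.indicator_of_mem hz.1]
          refine le_trans ?_ (le_max_right _ _)
          have := hz.2
          linarith
        have h3 : (1 / 4 : ℝ) ^ 2 ≤ (defect F c (fw σ B F c (6 / d) t n) z) ^ 2 :=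
          pow_le_pow_left₀ (by norm_num) h2 2
        simp only [Pi.one_apply]
        linarith
      · rw [Set.indicator_of_notMem hz]
        positivity
  calc Q.real S ≤ 16 * ∫ z, (defect F c (fw σ B F c (6 / d) t n) z) ^ 2 ∂Q := h1
    _ ≤ 16 * ((1 - 2 * t) ^ n * (25 / 4) + 72 * t) :=
        mul_le_mul_of_nonneg_left (hind n) (by norm_num)

/-- choice of the accuracy parameters -/
theorem exists_params (η : ℝ) (hη : 0 < η) :
    ∃ (n : ℕ) (t : ℝ), 0 < t ∧ t ≤ 1 / 2 ∧ 16 * ((1 - 2 * t) ^ n * (25 / 4) + 72 * t) ≤ η := by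
  set t : ℝ := min (1 / 2) (η / 2304) with ht
  have ht0 : 0 < t := lt_min (by norm_num) (by positivity)
  have ht1 : t ≤ 1 / 2 := min_le_left _ _
  have ht2 : t ≤ η / 2304 := min_le_right _ _
  obtain ⟨n, hn⟩ := exists_pow_lt_of_lt_one (show (0 : ℝ) < η / 200 by positivity)
    (show 1 - 2 * t < 1 by linarith)
  refine ⟨n, t, ht0, ht1, ?_⟩
  linarith

end BorelEq
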