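import Pool.Agent.Lib.MP_75103d_lc.B_Rec2

/-! (B5) demand and error sets. -/

set_option autoImplicit false

open MeasureTheory Set
open scoped ENNReal

namespace BorelEq

open Classical in
theorem B_Rec3_sum_le {G E : Type*} [Group G] [MeasurableSpace G] [MeasurableSpace E] (α : MAct G E)
    {d : ℕ} (s : Fin d → G) (r : ℕ) (f : E → ℝ) (nn : ℕ → ℕ) (tt : ℕ → ℝ)
    (ht : ∀ k, 0 ≤ tt k ∧ tt k ≤ 1) (k : ℕ) {y : ℕ → E} (h : y ∉ Dset α s r f k) :
    |∑ j, (if sg α s j y ∈ Dset α s r f k then psi α s r f nn tt k y j else 0)| ≤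
      ((r : ℝ) - 1) * (6 / d) := by
  have h1 := Dset_closed α s r f k h
  have h2 : ((degIn (sg α s) (Dset α s r f k) y : ℕ) : ℝ) ≤ (r : ℝ) - 1 := by
    have h3 : degIn (sg α s) (Dset α s r f k) y + 1 ≤ r := h1
    have h4 : ((degIn (sg α s) (Dset α s r f k) y + 1 : ℕ) : ℝ) ≤ r := by exact_mod_cast h3
    push_cast at h4
    linarith
  have hq : (0 : ℝ) ≤ 6 / d := by positivity
  refine (Finset.abs_sum_le_sum_abs _ _).trans ?_
  calc ∑ j, |if sg α s j y ∈ Dset α s r f k then psi α s r f nn tt k y j else 0|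
      ≤ ∑ j : Fin d, if sg α s j y ∈ Dset α s r f k then (6 / d : ℝ) else 0 := by
        refine Finset.sum_le_sum fun j _ => ?_
        split_ifs
        · exact psi_bound α s r f nn tt ht k y j
        · simp
    _ = (degIn (sg α s) (Dset α s r f k) y : ℕ) * (6 / d) := by
        rw [← Finset.sum_filter, Finset.sum_const, nsmul_eq_mul]
        rfl
    _ ≤ ((r : ℝ) - 1) * (6 / d) := mul_le_mul_of_nonneg_right h2 hq

theorem dem_le {G E : Type*} [Group G] [MeasurableSpace G] [MeasurableSpace E] (α : MAct G E)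
    {d : ℕ} (s : Fin d → G) (r : ℕ) (f : E → ℝ) (nn : ℕ → ℕ) (tt : ℕ → ℝ)
    (ht : ∀ k, 0 ≤ tt k ∧ tt k ≤ 1) (k : ℕ) {y : ℕ → E} (h : y ∉ Dset α s r f k) :
    dem α s r f nn tt k y ≤ 1 + ((r : ℝ) - 1) * (6 / d) := by
  have h1 := B_Rec3_sum_le α s r f nn tt ht k h
  have h2 := neg_abs_le
    (∑ j, (@ite ℝ (sg α s j y ∈ Dset α s r f k) (Classical.propDecidable _)
      (psi α s r f nn tt k y j) 0))
  unfold dem
  linarith

theorem le_dem {G E : Type*} [Group G] [MeasurableSpace G] [MeasurableSpace E] (α : MAct G E)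
    {d : ℕ} (s : Fin d → G) (hd : 0 < d) (r : ℕ) (hr4 : 4 * ((r : ℝ) - 1) ≤ d)
    (f : E → ℝ) (nn : ℕ → ℕ) (tt : ℕ → ℝ)
    (ht : ∀ k, 0 ≤ tt k ∧ tt k ≤ 1) (k : ℕ) {y : ℕ → E} (h : y ∉ Dset α s r f k) :
    -1 ≤ dem α s r f nn tt k y := by
  have h1 := B_Rec3_sum_le α s r f nn tt ht k h
  have h2 := le_abs_self
    (∑ j, (@ite ℝ (sg α s j y ∈ Dset α s r f k) (Classical.propDecidable _)
      (psi α s r f nn tt k y j) 0))
  have hd' : (0 : ℝ) < d := by exact_mod_cast hd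
  have h3 : ((r : ℝ) - 1) * (6 / d) ≤ 3 / 2 := by
    rw [← mul_div_assoc, div_le_iff₀ hd']
    linarith
  unfold dem
  linarith

theorem dem_meas {G E : Type*} [Group G] [MeasurableSpace G] [MeasurableSpace E] (α : MAct G E)
    {d : ℕ} (s : Fin d → G) (r : ℕ) (f : E → ℝ) (hf : Measurable f) (nn : ℕ → ℕ)
    (tt : ℕ → ℝ) (k : ℕ) : Measurable (dem α s r f nn tt k) := by
  unfold dem
  refine measurable_const.sub (Finset.measurable_sum _ fun j _ => ?_)
  refine Measurable.ite ?_ (psi_meas α s r f hf nn tt k j) measurable_const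
  exact sg_meas α s j (Dset_meas α s r f hf k)

/-- On the new points the flow is the frozen part plus the Frank–Wolfe flow. -/
theorem Err_subset {G E : Type*} [Group G] [MeasurableSpace G] [MeasurableSpace E] (α : MAct G E)
    {d : ℕ} (s : Fin d → G) (r : ℕ) (f : E → ℝ) (nn : ℕ → ℕ) (tt : ℕ → ℝ) (k : ℕ) :
    Err α s r f nn tt k ⊆ {z | z ∈ Dset α s r f (k + 1) \ Dset α s r f k ∧
      ∑ i, fw (sg α s) (Dset α s r f k) (Dset α s r f (k + 1) \ Dset α s r f k)
        (dem α s r f nn tt k) (6 / d) (tt k) (nn k) z i < dem α s r f nn tt k z - 1 / 4} := by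
  intro y hy
  obtain ⟨h1, h2, h3⟩ := hy
  refine ⟨⟨h1, h2⟩, ?_⟩
  have e1 : ∀ i, psi α s r f nn tt (k + 1) y i =
      (@ite ℝ (sg α s i y ∈ Dset α s r f k) (Classical.propDecidable _)
        (psi α s r f nn tt k y i) 0) +
      fw (sg α s) (Dset α s r f k) (Dset α s r f (k + 1) \ Dset α s r f k)
        (dem α s r f nn tt k) (6 / d) (tt k) (nn k) y i := by
    intro i
    simp only [psi]
    by_cases hi : sg α s i y ∈ Dset α s r f k
    · rw [if_pos (Or.inr hi), if_pos hi, fw_supp1 (sg α s) _ _ _ _ _ _ _ _ (Or.inr hi), add_zero]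
    · rw [if_neg (fun h' => h'.elim h2 hi), if_neg hi, zero_add]
      rfl
  have e2 : ∑ i, psi α s r f nn tt (k + 1) y i = (1 - dem α s r f nn tt k y) +
      ∑ i, fw (sg α s) (Dset α s r f k) (Dset α s r f (k + 1) \ Dset α s r f k)
        (dem α s r f nn tt k) (6 / d) (tt k) (nn k) y i := by
    rw [Finset.sum_congr rfl (fun i _ => e1 i), Finset.sum_add_distrib]
    congr 1
    rw [dem, sub_sub_cancel]
  rw [e2] at h3
  linarith

theorem Err_meas {G E : Type*} [Group G] [MeasurableSpace G] [MeasurableSpace E] (α : MAct G E)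
    {d : ℕ} (s : Fin d → G) (r : ℕ) (f : E → ℝ) (hf : Measurable f) (nn : ℕ → ℕ)
    (tt : ℕ → ℝ) (k : ℕ) : MeasurableSet (Err α s r f nn tt k) := by
  have h1 := Dset_meas α s r f hf (k + 1)
  have h2 := (Dset_meas α s r f hf k).compl
  have h3 : MeasurableSet {y | ∑ i, psi α s r f nn tt (k + 1) y i < 3 / 4} :=
    measurableSet_lt (Finset.measurable_sum _ fun i _ => psi_meas α s r f hf nn tt (k + 1) i)
      measurable_const
  exact h1.inter (h2.inter h3)

theorem Err_trunc {G E : Type*} [Group G] [MeasurableSpace G] [MeasurableSpace E] (α : MAct G E)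
    {d : ℕ} (s : Fin d → G) (r : ℕ) (f : E → ℝ) (nn : ℕ → ℕ) (tt : ℕ → ℝ) (k : ℕ)
    (y : ℕ → E) : trunc k y ∈ Err α s r f nn tt k ↔ y ∈ Err α s r f nn tt k := by
  have e1 := Dset_trunc α s r f (le_refl (k + 1)) y
  have e2 := Dset_trunc α s r f (Nat.le_succ k) y
  have e3 : ∑ i, psi α s r f nn tt (k + 1) (trunc k y) i = ∑ i, psi α s r f nn tt (k + 1) y i :=
    Finset.sum_congr rfl fun i _ => psi_trunc α s r f nn tt (le_refl (k + 1)) y i
  constructor
  · rintro ⟨h1, h2, h3⟩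
    exact ⟨e1.1 h1, fun h => h2 (e2.2 h), e3 ▸ h3⟩
  · rintro ⟨h1, h2, h3⟩
    exact ⟨e1.2 h1, fun h => h2 (e2.1 h), e3.symm ▸ h3⟩

theorem div_good {G E : Type*} [Group G] [MeasurableSpace G] [MeasurableSpace E] (α : MAct G E)
    {d : ℕ} (s : Fin d → G) (r : ℕ) (hr : 1 ≤ r) (f : E → ℝ) (nn : ℕ → ℕ) (tt : ℕ → ℝ) (k : ℕ)
    (y : ℕ → E) (h : y ∈ Dset α s r f k) (hE : ∀ j < k, y ∉ Err α s r f nn tt j) :
    3 / 4 ≤ ∑ i, psi α s r f nn tt k y i := by
  classical
  have hex : ∃ k, y ∈ Dset α s r f k := ⟨k, h⟩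
  have h1 := Nat.find_spec hex
  have h2 : Nat.find hex ≤ k := Nat.find_le h
  rcases hn : Nat.find hex with _ | j
  · rw [hn, Dset_zero α s r hr f] at h1
    exact absurd h1 (notMem_empty y)
  · rw [hn] at h1 h2
    have h3 : y ∉ Dset α s r f j := Nat.find_min hex (by omega)
    have h4 := hE j (by omega)
    have h5 : 3 / 4 ≤ ∑ i, psi α s r f nn tt (j + 1) y i := by
      by_contra hlt
      exact h4 ⟨h1, h3, not_le.mp hlt⟩
    have h6 : ∑ i, psi α s r f nn tt k y i = ∑ i, psi α s r f nn tt (j + 1) y i :=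
      Finset.sum_congr rfl fun i _ => psi_stable α s r f nn tt h2 y i (Or.inl h1)
    rw [h6]
    exact h5

theorem div_lower {G E : Type*} [Group G] [MeasurableSpace G] [MeasurableSpace E] (α : MAct G E)
    {d : ℕ} (s : Fin d → G) (hd : 0 < d) (r : ℕ) (f : E → ℝ) (nn : ℕ → ℕ) (tt : ℕ → ℝ)
    (ht : ∀ k, 0 ≤ tt k ∧ tt k ≤ 1) (k : ℕ) (y : ℕ → E) :
    -6 ≤ ∑ i, psi α s r f nn tt k y i := by
  have hd' : (0 : ℝ) < d := by exact_mod_cast hd
  have h1 : ∑ _i : Fin d, (-(6 / d) : ℝ) ≤ ∑ i, psi α s r f nn tt k y i :=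
    Finset.sum_le_sum fun i _ => (abs_le.1 (psi_bound α s r f nn tt ht k y i)).1
  have h2 : ∑ _i : Fin d, (-(6 / d) : ℝ) = -6 := by
    rw [Finset.sum_const, Finset.card_univ, Fintype.card_fin, nsmul_eq_mul]
    field_simp
  linarith

end BorelEq
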