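import Pool.Agent.Lib.MP_75103d_lc.B_Prob1
import Pool.Agent.Lib.MP_75103d_lc.B_Rec3
import Pool.Agent.Lib.MP_75103d_lc.B_Fw3

/-! (B5) the error sets are small for every Q_x. -/

set_option autoImplicit false

open MeasureTheory Set
open scoped ENNReal

namespace BorelEq

theorem err_small {G E : Type*} [Group G] [MeasurableSpace G] [MeasurableMul₂ G]
    [MeasurableInv G] [MeasurableSpace E] (μ : Measure G) [IsProbabilityMeasure μ]
    (hl : ∀ u : G, MeasurePreserving (fun g => u * g) μ μ)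
    (hr : ∀ u : G, MeasurePreserving (fun g => g * u) μ μ)
    (α : MAct G E) {d : ℕ} (hd : 0 < d) (s : Fin d → G) (ι : Fin d → Fin d)
    (hι : ∀ i, ι (ι i) = i) (hs : ∀ i, s (ι i) = (s i)⁻¹) (hgap : SetGap μ s)
    (r : ℕ) (hr1 : 1 ≤ r) (hr4 : (d : ℝ) ≤ 4 * r) (hr4' : 4 * ((r : ℝ) - 1) ≤ d)
    (f : E → ℝ) (hfm : Measurable f) (hf1 : ∀ x, f x ≤ 1)
    (hfs : ∀ x, μ.real {g | 0 < f (α.a g x)} ≤ 1 / 480)
    (nn : ℕ → ℕ) (tt : ℕ → ℝ) (ht : ∀ k, 0 < tt k ∧ tt k ≤ 1 / 2) (x : E) (k : ℕ) :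
    (PH μ).real {ω | orbB α x ω ∈ Err α s r f nn tt k} ≤
      16 * ((1 - 2 * tt k) ^ (nn k) * (25 / 4) + 72 * tt k) := by
  have hQp : IsProbabilityMeasure (PH μ) := by
    unfold PH
    infer_instance
  have hQp' : IsProbabilityMeasure ((PH μ).map (orbB α x)) :=
    Measure.isProbabilityMeasure_map (orb_meas α x).aemeasurable
  have htt : ∀ k, 0 ≤ tt k ∧ tt k ≤ 1 := fun k => ⟨(ht k).1.le, by linarith [(ht k).2]⟩
  have hinv := fun g => QX_invariant μ hl α x g
  have h1 : (PH μ).real {ω | orbB α x ω ∈ Err α s r f nn tt k} =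
      ((PH μ).map (orbB α x)).real (Err α s r f nn tt k) := by
    rw [measureReal_def, measureReal_def, Measure.map_apply (orb_meas α x)
      (Err_meas α s r f hfm nn tt k)]
    rfl
  rw [h1]
  have hD := Dset_meas α s r f hfm k
  have hD1 := Dset_meas α s r f hfm (k + 1)
  refine (measureReal_mono (Err_subset α s r f nn tt k) (measure_ne_top _ _)).trans ?_
  refine fw_error ((PH μ).map (orbB α x)) hd (sg α s) ι hι (sg_inv α s ι hs)
    (fun i => hinv (s i)) hD (hD1.diff hD) disjoint_sdiff_right r hr1 hr4'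
    (fun z hz => Dset_closed α s r f k hz.2) ?_ (dem_meas α s r f hfm nn tt k)
    (fun z hz => dem_le α s r f nn tt htt k hz.2)
    (fun z hz => le_dem α s hd r hr4' f nn tt htt k hz.2) (tt k) (ht k).1 (ht k).2 (nn k)
  intro A hA hAF
  exact iso_small μ α.diag ((PH μ).map (orbB α x)) hinv s hgap hD1 hA (hAF.trans sdiff_subset)
    (fib_small_ae μ hl hr α hd s ι hι hs hgap r hr4 f hfm hf1 hfs x (k + 1))

end BorelEq
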