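import Pool.Agent.Lib.MP_75103d_lc.B_Inf
import Pool.Agent.Lib.MP_75103d_lc.B_Prob2
import Pool.Agent.Lib.MP_75103d_lc.B_PP1
import Pool.Agent.Lib.MP_75103d_lc.B_PP2
import Pool.Agent.Lib.MP_75103d_lc.B_Lev

/-! (B6) the key theorem. -/

set_option autoImplicit false

open MeasureTheory Set
open scoped ENNReal

namespace BorelEq

/-- choice of the parameters, uniformly in the point -/
theorem params_all {G : Type*} [MeasurableSpace G] (μ : Measure G) [IsProbabilityMeasure μ]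
    (nrm : G → ℝ) (hnp : ∀ δ : ℝ, 0 < δ → μ {g | nrm g < δ} ≠ 0) :
    ∃ (nn : ℕ → ℕ) (tt : ℕ → ℝ), (∀ k, 0 < tt k ∧ tt k ≤ 1 / 2) ∧ ∀ k,
      (∏ j ∈ Finset.range (k + 1), (μ.real {g | nrm g < (1 / 2) ^ (j + 1)})⁻¹) *
        (16 * ((1 - 2 * tt k) ^ (nn k) * (25 / 4) + 72 * tt k)) ≤ (1 / 2) ^ (k + 1) / 40 := by
  have hM : ∀ k, 0 < ∏ j ∈ Finset.range (k + 1), (μ.real {g | nrm g < (1 / 2 : ℝ) ^ (j + 1)})⁻¹ := by
    intro k
    refine Finset.prod_pos fun j _ => inv_pos.2 ?_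
    exact ENNReal.toReal_pos (hnp _ (by positivity)) (measure_ne_top _ _)
  have key : ∀ k : ℕ, ∃ (n : ℕ) (t : ℝ), (0 < t ∧ t ≤ 1 / 2) ∧
      (∏ j ∈ Finset.range (k + 1), (μ.real {g | nrm g < (1 / 2) ^ (j + 1)})⁻¹) *
        (16 * ((1 - 2 * t) ^ n * (25 / 4) + 72 * t)) ≤ (1 / 2) ^ (k + 1) / 40 := by
    intro k
    set M := ∏ j ∈ Finset.range (k + 1), (μ.real {g | nrm g < (1 / 2 : ℝ) ^ (j + 1)})⁻¹ with hMdef
    have hM0 : 0 < M := hM k
    set ε : ℝ := (1 / 2) ^ (k + 1) / 40 with hε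
    have hε0 : 0 < ε := by positivity
    set t : ℝ := min (1 / 4) (ε / (2304 * M)) with ht
    have ht0 : 0 < t := lt_min (by norm_num) (by positivity)
    have ht1 : t ≤ 1 / 4 := min_le_left _ _
    have ht2 : M * (16 * (72 * t)) ≤ ε / 2 := by
      have h1 : t ≤ ε / (2304 * M) := min_le_right _ _
      rw [le_div_iff₀ (by positivity)] at h1
      linarith
    obtain ⟨n, hn⟩ := exists_pow_lt_of_lt_one (show 0 < ε / (200 * M) by positivity)
      (show 1 - 2 * t < 1 by linarith)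
    refine ⟨n, t, ⟨ht0, by linarith⟩, ?_⟩
    have h2 : M * (16 * ((1 - 2 * t) ^ n * (25 / 4))) ≤ ε / 2 := by
      rw [lt_div_iff₀ (by positivity)] at hn
      linarith
    have h3 : M * (16 * ((1 - 2 * t) ^ n * (25 / 4) + 72 * t)) =
        M * (16 * ((1 - 2 * t) ^ n * (25 / 4))) + M * (16 * (72 * t)) := by ring
    rw [h3]
    linarith
  choose nn tt h1 h2 using key
  exact ⟨nn, tt, h1, h2⟩

/-- errors are improbable from every point -/
theorem err_PP {G E : Type*} [Group G] [MeasurableSpace G] [MeasurableMul₂ G]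
    [MeasurableInv G] [MeasurableSpace E] (μ : Measure G) [IsProbabilityMeasure μ]
    (hl : ∀ u : G, MeasurePreserving (fun g => u * g) μ μ)
    (hr : ∀ u : G, MeasurePreserving (fun g => g * u) μ μ)
    (nrm : G → ℝ) (hnm : Measurable nrm) (hnp : ∀ δ : ℝ, 0 < δ → μ {g | nrm g < δ} ≠ 0)
    (α : MAct G E) {d : ℕ} (hd : 0 < d) (s : Fin d → G) (ι : Fin d → Fin d)
    (hι : ∀ i, ι (ι i) = i) (hs : ∀ i, s (ι i) = (s i)⁻¹) (hgap : SetGap μ s)
    (r : ℕ) (hr1 : 1 ≤ r) (hr4 : (d : ℝ) ≤ 4 * r) (hr4' : 4 * ((r : ℝ) - 1) ≤ d)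
    (f : E → ℝ) (hfm : Measurable f) (hf1 : ∀ x, f x ≤ 1)
    (hfs : ∀ x, μ.real {g | 0 < f (α.a g x)} ≤ 1 / 480)
    (nn : ℕ → ℕ) (tt : ℕ → ℝ) (ht : ∀ k, 0 < tt k ∧ tt k ≤ 1 / 2)
    (hpar : ∀ k, (∏ j ∈ Finset.range (k + 1), (μ.real {g | nrm g < (1 / 2) ^ (j + 1)})⁻¹) *
        (16 * ((1 - 2 * tt k) ^ (nn k) * (25 / 4) + 72 * tt k)) ≤ (1 / 2) ^ (k + 1) / 40)
    (x : E) (k : ℕ) :
    (PP μ nrm).real {ω | ∃ j < k, orbB α x ω ∈ Err α s r f nn tt j} ≤ 1 / 40 := by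
  have h1 : ∀ j, (PP μ nrm).real {ω | orbB α x ω ∈ Err α s r f nn tt j} ≤ (1 / 2) ^ (j + 1) / 40 := by
    intro j
    have hA : MeasurableSet {ω : ℕ → G | orbB α x ω ∈ Err α s r f nn tt j} :=
      orb_meas α x (Err_meas α s r f hfm nn tt j)
    have h2 := PP_dom μ nrm hnm hnp j _ hA (fun ω => Err_trunc α s r f nn tt j (orbB α x ω))
    have h3 := err_small μ hl hr α hd s ι hι hs hgap r hr1 hr4 hr4' f hfm hf1 hfs nn tt ht x j
    refine h2.trans (le_trans (mul_le_mul_of_nonneg_left h3 ?_) (hpar j))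
    exact Finset.prod_nonneg fun _ _ => inv_nonneg.2 measureReal_nonneg
  have h2 : {ω : ℕ → G | ∃ j < k, orbB α x ω ∈ Err α s r f nn tt j} ⊆
      ⋃ j ∈ Finset.range k, {ω | orbB α x ω ∈ Err α s r f nn tt j} := by
    rintro ω ⟨j, hj, hω⟩
    exact mem_iUnion₂.2 ⟨j, Finset.mem_range.2 hj, hω⟩
  have := PP_prob μ nrm hnp
  refine (measureReal_mono h2 (measure_ne_top _ _)).trans ?_
  refine (measureReal_biUnion_finset_le _ _).trans ?_
  refine (Finset.sum_le_sum fun j _ => h1 j).trans ?_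
  have hgeo : ∀ n : ℕ, ∑ i ∈ Finset.range n, (1 / 2 : ℝ) ^ (i + 1) / 40 = (1 - (1 / 2) ^ n) / 40 := by
    intro n
    induction n with
    | zero => simp
    | succ n ih =>
      rw [Finset.sum_range_succ, ih]
      ring
  rw [hgeo]
  have : (0 : ℝ) ≤ (1 / 2) ^ k := by positivity
  linarith

/-- The divergence of the averaged flow. -/
theorem avg_div {G E : Type*} [Group G] [MeasurableSpace G] [MeasurableMul₂ G]
    [MeasurableInv G] [MeasurableSpace E] (μ : Measure G) [IsProbabilityMeasure μ]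
    (nrm : G → ℝ) (hnm : Measurable nrm) (hnp : ∀ δ : ℝ, 0 < δ → μ {g | nrm g < δ} ≠ 0)
    (α : MAct G E) {d : ℕ} (hd : 0 < d) (s : Fin d → G) (r : ℕ) (hr1 : 1 ≤ r)
    (f : E → ℝ) (hfm : Measurable f) (hf1 : ∀ x, f x ≤ 1)
    (hfl : ∀ h x, |f (α.a h x) - f x| ≤ nrm h)
    (nn : ℕ → ℕ) (tt : ℕ → ℝ) (ht : ∀ k, 0 < tt k ∧ tt k ≤ 1 / 2)
    (x : E) (hx : 0 < f x)
    (herr : ∀ k, (PP μ nrm).real {ω | ∃ j < k, orbB α x ω ∈ Err α s r f nn tt j} ≤ 1 / 40) :
    1 / 2 ≤ ∑ i, ∫ ω, psiInf α s r f nn tt (orbB α x ω) i ∂(PP μ nrm) := by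
  have := PP_prob μ nrm hnp
  have ht' : ∀ k, 0 ≤ tt k ∧ tt k ≤ 1 := fun k => ⟨(ht k).1.le, (ht k).2.trans (by norm_num)⟩
  have horb := orb_meas α x
  have hint : ∀ i ∈ (Finset.univ : Finset (Fin d)),
      Integrable (fun ω => psiInf α s r f nn tt (orbB α x ω) i) (PP μ nrm) := by
    intro i _
    refine Integrable.of_bound (C := 6 / d)
      ((psiInf_meas α s r f hfm nn tt i).comp horb).aestronglyMeasurable
      (Filter.Eventually.of_forall fun ω => ?_)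
    exact psiInf_bound α s r f nn tt ht' _ i
  obtain ⟨j, hj⟩ := Qs_cover f hf1 x hx
  set S : Set (ℕ → G) := {ω | ∃ m < j + 1, orbB α x ω ∈ Err α s r f nn tt m} with hS
  have hSm : MeasurableSet S := by
    have e1 : S = ⋃ m ∈ Finset.range (j + 1), {ω | orbB α x ω ∈ Err α s r f nn tt m} := by
      ext ω
      simp only [hS, mem_ofPred_eq, mem_iUnion, Finset.mem_range, exists_prop]
    rw [e1]
    exact Finset.measurableSet_biUnion _ fun m _ => horb (Err_meas α s r f hfm nn tt m)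
  rw [← integral_finsetSum _ hint]
  have hlow : (fun ω => 3 / 4 - S.indicator (fun _ => (27 / 4 : ℝ)) ω) ≤ᵐ[PP μ nrm]
      fun ω => ∑ i, psiInf α s r f nn tt (orbB α x ω) i := by
    filter_upwards [PP_ae μ nrm hnm hnp] with ω hω
    have h1 : orbB α x ω j ∈ Qp f j := Qs_perturb α nrm f hfl hj (hω j)
    have h2 : orbB α x ω ∈ Dset α s r f (j + 1) := Vset_sub_Dset α s r f (Nat.lt_succ_self j) h1
    rw [psiInf_div α s r f nn tt (j + 1) _ h2]
    by_cases hωS : ω ∈ S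
    · rw [indicator_of_mem hωS]
      have := div_lower α s hd r f nn tt ht' (j + 1) (orbB α x ω)
      linarith
    · rw [indicator_of_notMem hωS]
      have h3 : ∀ m < j + 1, orbB α x ω ∉ Err α s r f nn tt m := fun m hm hmE => hωS ⟨m, hm, hmE⟩
      have := div_good α s r hr1 f nn tt (j + 1) (orbB α x ω) h2 h3
      linarith
  have hint2 : Integrable (S.indicator (fun _ => (27 / 4 : ℝ))) (PP μ nrm) :=
    (integrable_const _).indicator hSm
  have h4 := integral_mono_ae ((integrable_const (3 / 4 : ℝ)).sub hint2)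
    (integrable_finsetSum _ hint) hlow
  refine le_trans ?_ h4
  have h5 : ∫ ω, ((3 / 4 : ℝ) - S.indicator (fun _ => (27 / 4 : ℝ)) ω) ∂(PP μ nrm) =
      3 / 4 - (PP μ nrm).real S * (27 / 4) := by
    rw [integral_sub (integrable_const _) hint2, integral_const, integral_indicator_const _ hSm]
    simp
  have h6 := herr (j + 1)
  have h7 : (1 : ℝ) / 2 ≤ 3 / 4 - (PP μ nrm).real S * (27 / 4) := by linarith
  exact h7.trans (le_of_eq h5.symm)

/-- Antisymmetry of the averaged flow. -/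
theorem avg_anti {G E : Type*} [Group G] [MeasurableSpace G] [MeasurableMul₂ G]
    [MeasurableInv G] [MeasurableSpace E] (μ : Measure G) [IsProbabilityMeasure μ]
    (hl : ∀ u : G, MeasurePreserving (fun g => u * g) μ μ)
    (hr : ∀ u : G, MeasurePreserving (fun g => g * u) μ μ)
    (nrm : G → ℝ) (hnm : Measurable nrm) (hnc : ∀ s g : G, nrm (s * g * s⁻¹) = nrm g)
    (hnp : ∀ δ : ℝ, 0 < δ → μ {g | nrm g < δ} ≠ 0)
    (α : MAct G E) {d : ℕ} (s : Fin d → G) (ι : Fin d → Fin d)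
    (hι : ∀ i, ι (ι i) = i) (hs : ∀ i, s (ι i) = (s i)⁻¹) (r : ℕ)
    (f : E → ℝ) (hfm : Measurable f) (nn : ℕ → ℕ) (tt : ℕ → ℝ) (x : E) (i : Fin d) :
    ∫ ω, psiInf α s r f nn tt (orbB α (α.a (s i) x) ω) (ι i) ∂(PP μ nrm) =
      - ∫ ω, psiInf α s r f nn tt (orbB α x ω) i ∂(PP μ nrm) := by
  have hconj := PP_conj μ hl hr nrm hnm hnc hnp (s i)
  set Φ : (ℕ → G) → ℝ := fun ω => psiInf α s r f nn tt (orbB α x ω) i with hΦ
  have hΦm : Measurable Φ := (psiInf_meas α s r f hfm nn tt i).comp (orb_meas α x)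
  have h1 : ∀ ω, psiInf α s r f nn tt (orbB α (α.a (s i) x) ω) (ι i) =
      - Φ (fun j => (s i)⁻¹ * ω j * s i) := by
    intro ω
    have h2 : orbB α (α.a (s i) x) ω = sg α s i (orbB α x (fun j => (s i)⁻¹ * ω j * s i)) := by
      funext j
      show α.a (ω j) (α.a (s i) x) = α.a (s i) (α.a ((s i)⁻¹ * ω j * s i) x)
      rw [← α.mul, ← α.mul]
      congr 1
      group
    rw [h2, psiInf_anti α s ι hι hs]
  simp only [h1]
  rw [integral_neg]
  congr 1
  have h3 := integral_map (μ := PP μ nrm) hconj.measurable.aemeasurable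
    (f := Φ) (by
      rw [hconj.map_eq]
      exact hΦm.aestronglyMeasurable)
  rw [hconj.map_eq] at h3
  exact h3.symm

theorem avg_meas {G E : Type*} [Group G] [MeasurableSpace G] [MeasurableMul₂ G]
    [MeasurableInv G] [MeasurableSpace E] (μ : Measure G) [IsProbabilityMeasure μ]
    (nrm : G → ℝ) (hnp : ∀ δ : ℝ, 0 < δ → μ {g | nrm g < δ} ≠ 0)
    (α : MAct G E) {d : ℕ} (s : Fin d → G) (r : ℕ)
    (f : E → ℝ) (hfm : Measurable f) (nn : ℕ → ℕ) (tt : ℕ → ℝ) (i : Fin d) :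
    Measurable (fun x => ∫ ω, psiInf α s r f nn tt (orbB α x ω) i ∂(PP μ nrm)) := by
  have := PP_prob μ nrm hnp
  have hjoint : Measurable (fun p : E × (ℕ → G) => orbB α p.1 p.2) := by
    refine measurable_pi_lambda _ fun j => ?_
    have h0 : Measurable (fun p : E × (ℕ → G) => ((p.2 j, p.1) : G × E)) :=
      ((measurable_pi_apply j).comp measurable_snd).prodMk measurable_fst
    exact α.meas.comp h0
  have h1 : StronglyMeasurable (Function.uncurry fun (x : E) (ω : ℕ → G) =>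
      psiInf α s r f nn tt (orbB α x ω) i) :=
    ((psiInf_meas α s r f hfm nn tt i).comp hjoint).stronglyMeasurable
  exact h1.integral_prod_right.measurable

end BorelEq
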