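import Pool.Agent.Lib.MP_75103d_lc.B_Defs

/-! (B4) algebraic properties of the Frank-Wolfe iteration. -/

set_option autoImplicit false

open MeasureTheory Set
open scoped ENNReal

namespace BorelEq

theorem extFlow_anti {Z : Type*} {d : ℕ} (σ : Fin d → Z → Z) (ι : Fin d → Fin d)
    (hinv : ∀ i z, σ (ι i) (σ i z) = z) (B : Set Z) (q : ℝ) (h : Z → ℝ) (z : Z) (i : Fin d) :
    extFlow σ B q h (σ i z) (ι i) = - extFlow σ B q h z i := by
  unfold extFlow
  rw [hinv]
  by_cases hb : z ∈ B ∨ σ i z ∈ B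
  · rw [if_pos hb, if_pos hb.symm, neg_zero]
  · rw [if_neg hb, if_neg (fun h' => hb h'.symm), ← mul_neg, ← Real.sign_neg, neg_sub]

theorem fw_anti {Z : Type*} {d : ℕ} (σ : Fin d → Z → Z) (ι : Fin d → Fin d)
    (hinv : ∀ i z, σ (ι i) (σ i z) = z) (B F : Set Z) (c : Z → ℝ) (q t : ℝ) (n : ℕ) (z : Z)
    (i : Fin d) : fw σ B F c q t n (σ i z) (ι i) = - fw σ B F c q t n z i := by
  induction n with
  | zero => simp [fw]
  | succ n ih =>
    simp only [fw]
    rw [ih, extFlow_anti σ ι hinv]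
    ring

theorem extFlow_bound {Z : Type*} {d : ℕ} (σ : Fin d → Z → Z) (B : Set Z) (q : ℝ) (hq : 0 ≤ q)
    (h : Z → ℝ) (z : Z) (i : Fin d) : |extFlow σ B q h z i| ≤ q := by
  unfold extFlow
  split_ifs
  · simpa using hq
  · rcases Real.sign_apply_eq (h z - h (σ i z)) with h1 | h1 | h1
    · rw [h1, mul_neg_one, abs_neg, abs_of_nonneg hq]
    · rw [h1, mul_zero, abs_zero]
      exact hq
    · rw [h1, mul_one, abs_of_nonneg hq]

theorem fw_bound {Z : Type*} {d : ℕ} (σ : Fin d → Z → Z) (B F : Set Z) (c : Z → ℝ) (q t : ℝ)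
    (hq : 0 ≤ q) (ht : 0 ≤ t) (ht1 : t ≤ 1) (n : ℕ) (z : Z) (i : Fin d) :
    |fw σ B F c q t n z i| ≤ q := by
  induction n with
  | zero => simpa [fw] using hq
  | succ n ih =>
    simp only [fw]
    have h2 := extFlow_bound σ B q hq (defect F c (fw σ B F c q t n)) z i
    calc |(1 - t) * fw σ B F c q t n z i +
          t * extFlow σ B q (defect F c (fw σ B F c q t n)) z i|
        ≤ |(1 - t) * fw σ B F c q t n z i| +
          |t * extFlow σ B q (defect F c (fw σ B F c q t n)) z i| := abs_add_le _ _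
      _ = (1 - t) * |fw σ B F c q t n z i| +
          t * |extFlow σ B q (defect F c (fw σ B F c q t n)) z i| := by
          rw [abs_mul, abs_mul, abs_of_nonneg ht, abs_of_nonneg (sub_nonneg.2 ht1)]
      _ ≤ (1 - t) * q + t * q :=
          add_le_add (mul_le_mul_of_nonneg_left ih (sub_nonneg.2 ht1))
            (mul_le_mul_of_nonneg_left h2 ht)
      _ = q := by ring

theorem fw_supp1 {Z : Type*} {d : ℕ} (σ : Fin d → Z → Z) (B F : Set Z) (c : Z → ℝ) (q t : ℝ)
    (n : ℕ) (z : Z) (i : Fin d) (h : z ∈ B ∨ σ i z ∈ B) : fw σ B F c q t n z i = 0 := by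
  induction n with
  | zero => simp [fw]
  | succ n ih =>
    simp only [fw]
    rw [ih, extFlow, if_pos h]
    ring

theorem fw_supp2 {Z : Type*} {d : ℕ} (σ : Fin d → Z → Z) (B F : Set Z) (c : Z → ℝ) (q t : ℝ)
    (n : ℕ) (z : Z) (i : Fin d) (h : z ∉ F) (h' : σ i z ∉ F) : fw σ B F c q t n z i = 0 := by
  induction n with
  | zero => simp [fw]
  | succ n ih =>
    simp only [fw]
    rw [ih, extFlow]
    have h1 : defect F c (fw σ B F c q t n) z = 0 := Set.indicator_of_notMem h _
    have h2 : defect F c (fw σ B F c q t n) (σ i z) = 0 := Set.indicator_of_notMem h' _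
    rw [h1, h2, sub_zero, Real.sign_zero, mul_zero, mul_zero, ite_self, mul_zero, add_zero]

lemma B_Fw1_sign_meas : Measurable Real.sign := by
  have h : Real.sign = fun x : ℝ => if x < 0 then -1 else if 0 < x then 1 else 0 := by
    funext x
    rfl
  rw [h]
  exact Measurable.ite (measurableSet_lt measurable_id measurable_const) measurable_const
    (Measurable.ite (measurableSet_lt measurable_const measurable_id) measurable_const
      measurable_const)

lemma B_Fw1_defect_meas {Z : Type*} [MeasurableSpace Z] {d : ℕ} {F : Set Z}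
    (hF : MeasurableSet F) {c : Z → ℝ} (hc : Measurable c) {g : Z → Fin d → ℝ}
    (hg : ∀ i, Measurable fun z => g z i) : Measurable (defect F c g) := by
  have h : Measurable fun z => max 0 (c z - ∑ i, g z i) :=
    measurable_const.max (hc.sub (Finset.measurable_sum _ fun i _ => hg i))
  exact h.indicator hF

lemma B_Fw1_extFlow_meas {Z : Type*} [MeasurableSpace Z] {d : ℕ} {σ : Fin d → Z → Z}
    (hσ : ∀ i, Measurable (σ i)) {B : Set Z} (hB : MeasurableSet B) (q : ℝ) {h : Z → ℝ}
    (hh : Measurable h) (i : Fin d) : Measurable (fun z => extFlow σ B q h z i) := by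
  unfold extFlow
  refine Measurable.ite ?_ measurable_const ?_
  · exact hB.union (hσ i hB)
  · exact (B_Fw1_sign_meas.comp (hh.sub (hh.comp (hσ i)))).const_mul q

theorem fw_meas {Z : Type*} [MeasurableSpace Z] {d : ℕ} (σ : Fin d → Z → Z)
    (hσ : ∀ i, Measurable (σ i)) {B F : Set Z} (hB : MeasurableSet B) (hF : MeasurableSet F)
    {c : Z → ℝ} (hc : Measurable c) (q t : ℝ) (n : ℕ) (i : Fin d) :
    Measurable (fun z => fw σ B F c q t n z i) := by
  induction n generalizing i with
  | zero => simp only [fw]; exact measurable_const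
  | succ n ih =>
    simp only [fw]
    exact ((ih i).const_mul _).add
      ((B_Fw1_extFlow_meas hσ hB q (B_Fw1_defect_meas hF hc ih) i).const_mul _)

/-- naturality -/
theorem fw_comp {Z Z' : Type*} {d : ℕ} (σ : Fin d → Z → Z) (σ' : Fin d → Z' → Z')
    (φ : Z' → Z) (hφ : ∀ i z, φ (σ' i z) = σ i (φ z)) (B F : Set Z) (c : Z → ℝ) (q t : ℝ) (n : ℕ)
    (z : Z') (i : Fin d) :
    fw σ' (φ ⁻¹' B) (φ ⁻¹' F) (c ∘ φ) q t n z i = fw σ B F c q t n (φ z) i := by
  induction n generalizing z i with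
  | zero => simp [fw]
  | succ n ih =>
    simp only [fw]
    have hdef : ∀ w, defect (φ ⁻¹' F) (c ∘ φ) (fw σ' (φ ⁻¹' B) (φ ⁻¹' F) (c ∘ φ) q t n) w =
        defect F c (fw σ B F c q t n) (φ w) := by
      intro w
      by_cases hw : φ w ∈ F
      · rw [defect, defect, Set.indicator_of_mem (show w ∈ φ ⁻¹' F from hw),
          Set.indicator_of_mem hw]
        simp only [ih, Function.comp]
      · rw [defect, defect, Set.indicator_of_notMem (show w ∉ φ ⁻¹' F from hw),
          Set.indicator_of_notMem hw]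
    have hB : (z ∈ φ ⁻¹' B ∨ σ' i z ∈ φ ⁻¹' B) ↔ (φ z ∈ B ∨ σ i (φ z) ∈ B) := by
      rw [Set.mem_preimage, Set.mem_preimage, hφ]
    rw [ih, extFlow, extFlow, hdef, hdef, hφ]
    by_cases hb : φ z ∈ B ∨ σ i (φ z) ∈ B
    · rw [if_pos (hB.2 hb), if_pos hb]
    · rw [if_neg fun h => hb (hB.1 h), if_neg hb]

end BorelEq
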