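import Pool.Agent.Lib.MP_75103d_lc.B_Defs

/-! (B3) the isoperimetric inequality from fibrewise smallness. -/

set_option autoImplicit false

open MeasureTheory Set
open scoped ENNReal

namespace BorelEq

private theorem B_Iso_meas {G Z : Type*} [Group G] [MeasurableSpace G] [MeasurableSpace Z]
    (β : MAct G Z) {A : Set Z} (hA : MeasurableSet A) :
    MeasurableSet {p : G × Z | β.a p.1 p.2 ∈ A} := β.meas hA

private theorem B_Iso_measG {G Z : Type*} [Group G] [MeasurableSpace G] [MeasurableSpace Z]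
    (β : MAct G Z) {A : Set Z} (hA : MeasurableSet A) (y : Z) :
    MeasurableSet {g : G | β.a g y ∈ A} :=
  (β.meas.comp (measurable_id.prodMk measurable_const)) hA

private theorem B_Iso_measZ {G Z : Type*} [Group G] [MeasurableSpace G] [MeasurableSpace Z]
    (β : MAct G Z) {A : Set Z} (hA : MeasurableSet A) (g : G) :
    MeasurableSet {y : Z | β.a g y ∈ A} :=
  (β.meas.comp (measurable_const.prodMk measurable_id)) hA

private theorem B_Iso_measFun {G Z : Type*} [Group G] [MeasurableSpace G] [MeasurableSpace Z]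
    (μ : Measure G) [IsProbabilityMeasure μ] (β : MAct G Z) {A : Set Z} (hA : MeasurableSet A) :
    Measurable (fun y => μ {g | β.a g y ∈ A}) :=
  measurable_measure_prodMk_right (μ := μ) (B_Iso_meas β hA)

private theorem B_Iso_measReal {G Z : Type*} [Group G] [MeasurableSpace G] [MeasurableSpace Z]
    (μ : Measure G) [IsProbabilityMeasure μ] (β : MAct G Z) {A : Set Z} (hA : MeasurableSet A) :
    Measurable (fun y => μ.real {g | β.a g y ∈ A}) :=
  (B_Iso_measFun μ β hA).ennreal_toReal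

private theorem B_Iso_int {G Z : Type*} [Group G] [MeasurableSpace G] [MeasurableSpace Z]
    (μ : Measure G) [IsProbabilityMeasure μ] (β : MAct G Z) (Q : Measure Z) [IsProbabilityMeasure Q]
    {A : Set Z} (hA : MeasurableSet A) :
    Integrable (fun y => μ.real {g | β.a g y ∈ A}) Q := by
  refine Integrable.of_bound (B_Iso_measReal μ β hA).aestronglyMeasurable 1 (ae_of_all _ fun y => ?_)
  rw [Real.norm_eq_abs, abs_of_nonneg measureReal_nonneg]
  exact measureReal_le_one

/-- averaging an invariant measure over the group -/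
theorem avg_invariant {G Z : Type*} [Group G] [MeasurableSpace G] [MeasurableMul₂ G] [MeasurableSpace Z]
    (μ : Measure G) [IsProbabilityMeasure μ] (β : MAct G Z) (Q : Measure Z) [IsProbabilityMeasure Q]
    (hQ : ∀ g, MeasurePreserving (β.a g) Q Q) {A : Set Z} (hA : MeasurableSet A) :
    Q.real A = ∫ y, μ.real {g | β.a g y ∈ A} ∂Q := by
  have h1 : (μ.prod Q) {p : G × Z | β.a p.1 p.2 ∈ A} = Q A := by
    rw [Measure.prod_apply (B_Iso_meas β hA)]
    have h2 : ∀ g : G, Q (Prod.mk g ⁻¹' {p : G × Z | β.a p.1 p.2 ∈ A}) = Q A := by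
      intro g
      exact (hQ g).measure_preimage hA.nullMeasurableSet
    simp only [h2]
    rw [lintegral_const, measure_univ, mul_one]
  have h3 : (μ.prod Q) {p : G × Z | β.a p.1 p.2 ∈ A} = ∫⁻ y, μ {g | β.a g y ∈ A} ∂Q :=
    Measure.prod_apply_symm (B_Iso_meas β hA)
  have h4 : ∫ y, μ.real {g | β.a g y ∈ A} ∂Q = (∫⁻ y, μ {g | β.a g y ∈ A} ∂Q).toReal :=
    integral_toReal (B_Iso_measFun μ β hA).aemeasurable (ae_of_all _ fun y => measure_lt_top μ _)
  rw [h4, ← h3, h1]
  rfl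

theorem iso_small {G Z : Type*} [Group G] [MeasurableSpace G] [MeasurableMul₂ G] [MeasurableSpace Z]
    (μ : Measure G) [IsProbabilityMeasure μ] (β : MAct G Z) (Q : Measure Z) [IsProbabilityMeasure Q]
    (hQ : ∀ g, MeasurePreserving (β.a g) Q Q) {d : ℕ} (s : Fin d → G) (hgap : SetGap μ s)
    {D A : Set Z} (hD : MeasurableSet D) (hA : MeasurableSet A) (hAD : A ⊆ D)
    (hsmall : ∀ᵐ y ∂Q, μ.real {g | β.a g y ∈ D} ≤ 1 / 40) :
    ∑ i, Q.real {y | y ∈ A ∧ β.a (s i) y ∈ A} ≤ d / 3 * Q.real A := by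
  have hAi : ∀ i, MeasurableSet {y | y ∈ A ∧ β.a (s i) y ∈ A} := fun i =>
    hA.inter (B_Iso_measZ β hA (s i))
  have h1 : ∀ i, Q.real {y | y ∈ A ∧ β.a (s i) y ∈ A} =
      ∫ y, μ.real {g | β.a g y ∈ {y | y ∈ A ∧ β.a (s i) y ∈ A}} ∂Q := fun i =>
    avg_invariant μ β Q hQ (hAi i)
  simp only [h1]
  rw [← integral_finsetSum _ (fun i _ => B_Iso_int μ β Q (hAi i))]
  have h2 : Q.real A = ∫ y, μ.real {g | β.a g y ∈ A} ∂Q := avg_invariant μ β Q hQ hA
  rw [h2, ← integral_const_mul]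
  refine integral_mono_ae (integrable_finsetSum _ (fun i _ => B_Iso_int μ β Q (hAi i)))
    ((B_Iso_int μ β Q hA).const_mul _) ?_
  filter_upwards [hsmall] with y hy
  have h3 := hgap {g | β.a g y ∈ A} (B_Iso_measG β hA y)
  have h4 : ∀ i, {g | g ∈ {g | β.a g y ∈ A} ∧ s i * g ∈ {g | β.a g y ∈ A}} =
      {g | β.a g y ∈ {y | y ∈ A ∧ β.a (s i) y ∈ A}} := by
    intro i
    ext g
    simp only [mem_setOf_eq, β.mul]
  simp only [h4] at h3
  refine h3.trans ?_
  have h5 : μ.real {g | β.a g y ∈ A} ≤ 1 / 40 := by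
    have hsub : {g | β.a g y ∈ A} ⊆ {g | β.a g y ∈ D} := fun g hg => hAD hg
    exact (measureReal_mono hsub (measure_ne_top μ _)).trans hy
  have h6 : 0 ≤ μ.real {g | β.a g y ∈ A} := measureReal_nonneg
  have h7 : (0 : ℝ) ≤ d := Nat.cast_nonneg d
  have h8 : μ.real {g | β.a g y ∈ A} / 4 + μ.real {g | β.a g y ∈ A} ^ 2 ≤
      1 / 3 * μ.real {g | β.a g y ∈ A} := by nlinarith
  have h9 := mul_le_mul_of_nonneg_left h8 h7
  refine h9.trans (le_of_eq ?_)
  ring

end BorelEq
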