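import Pool.Agent.Lib.MP_75103d_lc.B_Cl1
import Pool.Agent.Lib.MP_75103d_lc.B_Cl2

/-! (B5) the decided sets. -/

set_option autoImplicit false

open MeasureTheory Set
open scoped ENNReal

namespace BorelEq

theorem sg_inv {G E : Type*} [Group G] [MeasurableSpace G] [MeasurableSpace E] (α : MAct G E)
    {d : ℕ} (s : Fin d → G) (ι : Fin d → Fin d)
    (hs : ∀ i, s (ι i) = (s i)⁻¹) (i : Fin d) (y : ℕ → E) : sg α s (ι i) (sg α s i y) = y := by
  show α.diag.a (s (ι i)) (α.diag.a (s i) y) = y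
  rw [← α.diag.mul, hs i, inv_mul_cancel, α.diag.one]

theorem sg_meas {G E : Type*} [Group G] [MeasurableSpace G] [MeasurableSpace E] (α : MAct G E)
    {d : ℕ} (s : Fin d → G) (i : Fin d) : Measurable (sg α s i) :=
  α.diag.meas.comp (measurable_const.prodMk measurable_id)

theorem sg_trunc {G E : Type*} [Group G] [MeasurableSpace G] [MeasurableSpace E] (α : MAct G E)
    {d : ℕ} (s : Fin d → G) (k : ℕ) (i : Fin d) (y : ℕ → E) :
    trunc k (sg α s i y) = sg α s i (trunc k y) := rfl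

theorem B_Rec1_Vset_mono {E : Type*} (f : E → ℝ) {k m : ℕ} (h : k ≤ m) :
    Vset f k ⊆ Vset f m := by
  rintro y ⟨j, hj, hy⟩
  exact ⟨j, lt_of_lt_of_le hj h, hy⟩

theorem Dset_mono {G E : Type*} [Group G] [MeasurableSpace G] [MeasurableSpace E] (α : MAct G E)
    {d : ℕ} (s : Fin d → G) (r : ℕ) (f : E → ℝ) {k m : ℕ} (h : k ≤ m) :
    Dset α s r f k ⊆ Dset α s r f m :=
  cl_mono (sg α s) r (B_Rec1_Vset_mono f h)

theorem B_Rec1_Vset_zero {E : Type*} (f : E → ℝ) : Vset f 0 = ∅ := by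
  ext y
  constructor
  · rintro ⟨j, hj, _⟩
    exact absurd hj (Nat.not_lt_zero j)
  · intro h
    exact absurd h (notMem_empty y)

theorem B_Rec1_degIn_zero {Z : Type*} {d : ℕ} (σ : Fin d → Z → Z) (W : Set Z)
    (hW : ∀ z, z ∉ W) (z : Z) : degIn σ W z = 0 := by
  classical
  unfold degIn
  apply Finset.card_eq_zero.2
  apply Finset.eq_empty_of_forall_notMem
  intro i hi
  rw [Finset.mem_filter] at hi
  exact hW _ hi.2

theorem B_Rec1_degIn_empty {Z : Type*} {d : ℕ} (σ : Fin d → Z → Z) (z : Z) :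
    degIn σ (∅ : Set Z) z = 0 :=
  B_Rec1_degIn_zero σ ∅ (fun z => notMem_empty z) z

theorem B_Rec1_clAt_empty {Z : Type*} {d : ℕ} (σ : Fin d → Z → Z) (r : ℕ) (hr : 1 ≤ r) (t : ℕ) :
    clAt σ r (∅ : Set Z) t = ∅ := by
  induction t with
  | zero => rfl
  | succ t ih =>
    show clStep σ r (clAt σ r ∅ t) = ∅
    rw [ih]
    ext z
    constructor
    · rintro (h | h)
      · exact h
      · have h1 : r ≤ degIn σ (∅ : Set Z) z := h
        rw [B_Rec1_degIn_empty] at h1
        omega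
    · intro h
      exact absurd h (notMem_empty z)

theorem Dset_zero {G E : Type*} [Group G] [MeasurableSpace G] [MeasurableSpace E] (α : MAct G E)
    {d : ℕ} (s : Fin d → G) (r : ℕ) (hr : 1 ≤ r) (f : E → ℝ) :
    Dset α s r f 0 = ∅ := by
  unfold Dset
  rw [B_Rec1_Vset_zero]
  unfold cl
  simp only [B_Rec1_clAt_empty (sg α s) r hr, iUnion_empty]

theorem Dset_closed {G E : Type*} [Group G] [MeasurableSpace G] [MeasurableSpace E] (α : MAct G E)
    {d : ℕ} (s : Fin d → G) (r : ℕ) (f : E → ℝ) (k : ℕ) {y : ℕ → E}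
    (h : y ∉ Dset α s r f k) : degIn (sg α s) (Dset α s r f k) y < r :=
  cl_closed (sg α s) r (Vset f k) h

theorem B_Rec1_Vset_meas {E : Type*} [MeasurableSpace E] (f : E → ℝ) (hf : Measurable f) (k : ℕ) :
    MeasurableSet (Vset f k) := by
  have h1 : ∀ j, MeasurableSet (Qp f j) := fun j =>
    (measurableSet_lt measurable_const hf).inter (measurableSet_lt hf measurable_const)
  have h2 : Vset f k = ⋃ j : ℕ, ⋃ _ : j < k, (fun y : ℕ → E => y j) ⁻¹' (Qp f j) := by
    ext y
    simp only [mem_iUnion, mem_preimage, exists_prop]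
    rfl
  rw [h2]
  exact MeasurableSet.iUnion fun j => MeasurableSet.iUnion fun _ => measurable_pi_apply j (h1 j)

theorem Dset_meas {G E : Type*} [Group G] [MeasurableSpace G] [MeasurableSpace E] (α : MAct G E)
    {d : ℕ} (s : Fin d → G) (r : ℕ) (f : E → ℝ) (hf : Measurable f) (k : ℕ) :
    MeasurableSet (Dset α s r f k) :=
  measurableSet_cl (sg α s) (sg_meas α s) r (B_Rec1_Vset_meas f hf k)

/-- `Dset m` depends only on the coordinates `< m`. -/
theorem Dset_trunc {G E : Type*} [Group G] [MeasurableSpace G] [MeasurableSpace E] (α : MAct G E)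
    {d : ℕ} (s : Fin d → G) (r : ℕ) (f : E → ℝ) {k m : ℕ} (h : m ≤ k + 1)
    (y : ℕ → E) : trunc k y ∈ Dset α s r f m ↔ y ∈ Dset α s r f m := by
  have h1 : trunc k ⁻¹' (Vset f m) = Vset f m := by
    ext z
    constructor
    · rintro ⟨j, hj, hz⟩
      refine ⟨j, hj, ?_⟩
      have h2 : min j k = j := by omega
      have h3 : z (min j k) ∈ Qp f j := hz
      rwa [h2] at h3
    · rintro ⟨j, hj, hz⟩
      refine ⟨j, hj, ?_⟩
      have h2 : min j k = j := by omega
      show z (min j k) ∈ Qp f j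
      rwa [h2]
  have h4 := cl_preimage (sg α s) (sg α s) (trunc (E := E) k)
    (fun i z => sg_trunc α s k i z) r (Vset f m)
  rw [h1] at h4
  constructor
  · intro hy
    have h5 : y ∈ trunc k ⁻¹' (cl (sg α s) r (Vset f m)) := hy
    rw [h4] at h5
    exact h5
  · intro hy
    have h5 : y ∈ cl (sg α s) r (Vset f m) := hy
    rw [← h4] at h5
    exact h5

end BorelEq
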