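import Pool.Agent.Lib.MP_75103d_lc.B_Cl4
import Pool.Agent.Lib.MP_75103d_lc.B_Iso
import Pool.Agent.Lib.MP_75103d_lc.B_Rec1
import Pool.Agent.Lib.MP_75103d_lc.B_Lev

/-! (B5) the invariant measures Q_x and smallness of the decided sets. -/

set_option autoImplicit false

open MeasureTheory Set
open scoped ENNReal

namespace BorelEq

theorem PH_left {G : Type*} [Group G] [MeasurableSpace G] [MeasurableMul₂ G] (μ : Measure G)
    [IsProbabilityMeasure μ] (hl : ∀ u : G, MeasurePreserving (fun g => u * g) μ μ) (u : G) :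
    MeasurePreserving (fun (ω : ℕ → G) (j : ℕ) => u * ω j) (PH μ) (PH μ) := by
  have hm : Measurable (fun (ω : ℕ → G) (j : ℕ) => u * ω j) :=
    measurable_pi_lambda _ fun j => (measurable_const_mul u).comp (measurable_pi_apply j)
  refine ⟨hm, ?_⟩
  unfold PH
  rw [Measure.infinitePi_map_pi (fun _ : ℕ => μ) (f := fun _ g => u * g)
    (fun _ => measurable_const_mul u)]
  simp only [(hl u).map_eq]

theorem orb_meas {G E : Type*} [Group G] [MeasurableSpace G] [MeasurableSpace E] (α : MAct G E)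
    (x : E) : Measurable (orbB α x) := by
  refine measurable_pi_lambda _ fun j => ?_
  have h : Measurable fun ω : ℕ → G => (ω j, x) := (measurable_pi_apply j).prodMk measurable_const
  exact α.meas.comp h

theorem orb_diag {G E : Type*} [Group G] [MeasurableSpace G] [MeasurableSpace E] (α : MAct G E)
    (x : E) (g : G) (ω : ℕ → G) : α.diag.a g (orbB α x ω) = orbB α x (fun j => g * ω j) := by
  funext j
  exact (α.mul g (ω j) x).symm

/-- The measure `Q_x` is invariant. -/
theorem QX_invariant {G E : Type*} [Group G] [MeasurableSpace G] [MeasurableMul₂ G]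
    [MeasurableInv G] [MeasurableSpace E] (μ : Measure G) [IsProbabilityMeasure μ]
    (hl : ∀ u : G, MeasurePreserving (fun g => u * g) μ μ) (α : MAct G E) (x : E) (g : G) :
    MeasurePreserving (α.diag.a g) ((PH μ).map (orbB α x)) ((PH μ).map (orbB α x)) := by
  have hm : Measurable (α.diag.a g) :=
    α.diag.meas.comp (measurable_const.prodMk measurable_id)
  refine ⟨hm, ?_⟩
  rw [Measure.map_map hm (orb_meas α x)]
  have h1 : α.diag.a g ∘ orbB α x = orbB α x ∘ (fun (ω : ℕ → G) (j : ℕ) => g * ω j) := by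
    funext ω
    exact orb_diag α x g ω
  rw [h1, ← Measure.map_map (orb_meas α x) (PH_left μ hl g).measurable, (PH_left μ hl g).map_eq]

/-- Fibrewise smallness. -/
theorem fib_small {G E : Type*} [Group G] [MeasurableSpace G] [MeasurableMul₂ G]
    [MeasurableInv G] [MeasurableSpace E] (μ : Measure G) [IsProbabilityMeasure μ]
    (hl : ∀ u : G, MeasurePreserving (fun g => u * g) μ μ)
    (hr : ∀ u : G, MeasurePreserving (fun g => g * u) μ μ)
    (α : MAct G E) {d : ℕ} (hd : 0 < d) (s : Fin d → G) (ι : Fin d → Fin d)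
    (hι : ∀ i, ι (ι i) = i) (hs : ∀ i, s (ι i) = (s i)⁻¹) (hgap : SetGap μ s)
    (r : ℕ) (hr4 : (d : ℝ) ≤ 4 * r)
    (f : E → ℝ) (hfm : Measurable f) (hf1 : ∀ x, f x ≤ 1)
    (hfs : ∀ x, μ.real {g | 0 < f (α.a g x)} ≤ 1 / 480) (x : E) (ω : ℕ → G) (k : ℕ) :
    μ.real {g | α.diag.a g (orbB α x ω) ∈ Dset α s r f k} ≤ 1 / 40 := by
  have hφ : ∀ (i : Fin d) (g : G), α.diag.a (s i * g) (orbB α x ω) =
      sg α s i (α.diag.a g (orbB α x ω)) := fun i g => α.diag.mul _ _ _
  have h1 := cl_preimage (sg α s) (fun i g => s i * g) (fun g => α.diag.a g (orbB α x ω)) hφ r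
    (Vset f k)
  have h2 : {g | α.diag.a g (orbB α x ω) ∈ Dset α s r f k} =
      cl (fun i g => s i * g) r ((fun g => α.diag.a g (orbB α x ω)) ⁻¹' Vset f k) := h1
  have h3 : (fun g => α.diag.a g (orbB α x ω)) ⁻¹' Vset f k =
      {g | ∃ j < k, α.a (g * ω j) x ∈ Qp f j} := by
    ext g
    simp only [Vset, mem_preimage, mem_ofPred_eq, orb_diag]
    rfl
  have h4 : MeasurableSet {g | ∃ j < k, α.a (g * ω j) x ∈ Qp f j} := by
    have h5 : {g | ∃ j < k, α.a (g * ω j) x ∈ Qp f j} =
        ⋃ j ∈ Finset.range k, {g | α.a (g * ω j) x ∈ Qp f j} := by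
      ext g
      simp
    rw [h5]
    refine Finset.measurableSet_biUnion _ fun j _ => ?_
    have h6 : MeasurableSet (Qp f j) :=
      (measurableSet_lt measurable_const hfm).inter (measurableSet_lt hfm measurable_const)
    have h7 : Measurable fun g : G => α.a (g * ω j) x :=
      α.meas.comp ((measurable_mul_const (ω j)).prodMk measurable_const)
    exact h7 h6
  have h8 := seeds_small μ hr α f hfm hf1 hfs x ω k
  rw [h2, h3]
  have h9 := cl_small μ (fun i g => s i * g) ι hι
    (fun i z => by rw [hs i, inv_mul_cancel_left]) (fun i => hl (s i)) r hr4 hd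
    (fun A hA => hgap A hA) h4 h8
  linarith

theorem fib_small_ae {G E : Type*} [Group G] [MeasurableSpace G] [MeasurableMul₂ G]
    [MeasurableInv G] [MeasurableSpace E] (μ : Measure G) [IsProbabilityMeasure μ]
    (hl : ∀ u : G, MeasurePreserving (fun g => u * g) μ μ)
    (hr : ∀ u : G, MeasurePreserving (fun g => g * u) μ μ)
    (α : MAct G E) {d : ℕ} (hd : 0 < d) (s : Fin d → G) (ι : Fin d → Fin d)
    (hι : ∀ i, ι (ι i) = i) (hs : ∀ i, s (ι i) = (s i)⁻¹) (hgap : SetGap μ s)
    (r : ℕ) (hr4 : (d : ℝ) ≤ 4 * r)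
    (f : E → ℝ) (hfm : Measurable f) (hf1 : ∀ x, f x ≤ 1)
    (hfs : ∀ x, μ.real {g | 0 < f (α.a g x)} ≤ 1 / 480) (x : E) (k : ℕ) :
    ∀ᵐ y ∂((PH μ).map (orbB α x)), μ.real {g | α.diag.a g y ∈ Dset α s r f k} ≤ 1 / 40 := by
  have h1 : MeasurableSet {p : G × (ℕ → E) | α.diag.a p.1 p.2 ∈ Dset α s r f k} :=
    α.diag.meas (Dset_meas α s r f hfm k)
  have h2 : Measurable (fun y => μ.real {g | α.diag.a g y ∈ Dset α s r f k}) :=
    (measurable_measure_prodMk_right (μ := μ) h1).ennreal_toReal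
  rw [ae_map_iff (orb_meas α x).aemeasurable (measurableSet_le h2 measurable_const)]
  exact ae_of_all _ fun ω => fib_small μ hl hr α hd s ι hι hs hgap r hr4 f hfm hf1 hfs x ω k

end BorelEq
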