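import Pool.Agent.Lib.MP_75103d_lc.B_Rec3
import Pool.Agent.Lib.MP_75103d_lc.B_Prob1

/-! (B6) the limit flow on sequences. -/

set_option autoImplicit false

open MeasureTheory Set
open scoped ENNReal

namespace BorelEq

theorem psiInf_eq {G E : Type*} [Group G] [MeasurableSpace G] [MeasurableSpace E] (α : MAct G E)
    {d : ℕ} (s : Fin d → G) (r : ℕ) (f : E → ℝ) (nn : ℕ → ℕ) (tt : ℕ → ℝ)
    (k : ℕ) (y : ℕ → E) (i : Fin d) (h : y ∈ Dset α s r f k ∨ sg α s i y ∈ Dset α s r f k) :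
    psiInf α s r f nn tt y i = psi α s r f nn tt k y i := by
  classical
  have hex : ∃ k, y ∈ Dset α s r f k ∨ sg α s i y ∈ Dset α s r f k := ⟨k, h⟩
  unfold psiInf
  rw [dif_pos hex]
  exact (psi_stable α s r f nn tt (Nat.find_min' hex h) y i (Nat.find_spec hex)).symm

theorem B_Inf_none {G E : Type*} [Group G] [MeasurableSpace G] [MeasurableSpace E] (α : MAct G E)
    {d : ℕ} (s : Fin d → G) (r : ℕ) (f : E → ℝ) (nn : ℕ → ℕ) (tt : ℕ → ℝ) (y : ℕ → E) (i : Fin d)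
    (h : ¬ ∃ k, y ∈ Dset α s r f k ∨ sg α s i y ∈ Dset α s r f k) :
    psiInf α s r f nn tt y i = 0 := by
  unfold psiInf
  rw [dif_neg h]

theorem psiInf_bound {G E : Type*} [Group G] [MeasurableSpace G] [MeasurableSpace E] (α : MAct G E)
    {d : ℕ} (s : Fin d → G) (r : ℕ) (f : E → ℝ) (nn : ℕ → ℕ) (tt : ℕ → ℝ)
    (ht : ∀ k, 0 ≤ tt k ∧ tt k ≤ 1) (y : ℕ → E) (i : Fin d) :
    |psiInf α s r f nn tt y i| ≤ 6 / d := by
  classical
  by_cases hex : ∃ k, y ∈ Dset α s r f k ∨ sg α s i y ∈ Dset α s r f k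
  · obtain ⟨k, h⟩ := hex
    rw [psiInf_eq α s r f nn tt k y i h]
    exact psi_bound α s r f nn tt ht k y i
  · rw [B_Inf_none α s r f nn tt y i hex, abs_zero]
    positivity

theorem psiInf_anti {G E : Type*} [Group G] [MeasurableSpace G] [MeasurableSpace E] (α : MAct G E)
    {d : ℕ} (s : Fin d → G) (ι : Fin d → Fin d) (hι : ∀ i, ι (ι i) = i)
    (hs : ∀ i, s (ι i) = (s i)⁻¹) (r : ℕ) (f : E → ℝ) (nn : ℕ → ℕ) (tt : ℕ → ℝ)
    (y : ℕ → E) (i : Fin d) :
    psiInf α s r f nn tt (sg α s i y) (ι i) = - psiInf α s r f nn tt y i := by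
  by_cases hex : ∃ k, y ∈ Dset α s r f k ∨ sg α s i y ∈ Dset α s r f k
  · obtain ⟨k, h⟩ := hex
    have h' : sg α s i y ∈ Dset α s r f k ∨ sg α s (ι i) (sg α s i y) ∈ Dset α s r f k := by
      rw [sg_inv α s ι hs i y]
      exact h.symm
    rw [psiInf_eq α s r f nn tt k y i h, psiInf_eq α s r f nn tt k (sg α s i y) (ι i) h',
      psi_anti α s ι hs r f nn tt k y i]
  · have hex' : ¬ ∃ k, sg α s i y ∈ Dset α s r f k ∨
        sg α s (ι i) (sg α s i y) ∈ Dset α s r f k := by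
      rw [sg_inv α s ι hs i y]
      rintro ⟨k, h⟩
      exact hex ⟨k, h.symm⟩
    rw [B_Inf_none α s r f nn tt y i hex, B_Inf_none α s r f nn tt (sg α s i y) (ι i) hex',
      neg_zero]

theorem psiInf_meas {G E : Type*} [Group G] [MeasurableSpace G] [MeasurableSpace E] (α : MAct G E)
    {d : ℕ} (s : Fin d → G) (r : ℕ) (f : E → ℝ) (hf : Measurable f) (nn : ℕ → ℕ)
    (tt : ℕ → ℝ) (i : Fin d) : Measurable (fun y => psiInf α s r f nn tt y i) := by
  refine measurable_of_tendsto_metrizable (f := fun k y => psi α s r f nn tt k y i)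
    (fun k => psi_meas α s r f hf nn tt k i) ?_
  rw [tendsto_pi_nhds]
  intro y
  apply tendsto_const_nhds.congr'
  by_cases hex : ∃ k, y ∈ Dset α s r f k ∨ sg α s i y ∈ Dset α s r f k
  · obtain ⟨k, h⟩ := hex
    filter_upwards [Filter.eventually_ge_atTop k] with m hm
    show psiInf α s r f nn tt y i = psi α s r f nn tt m y i
    rw [psiInf_eq α s r f nn tt k y i h, psi_stable α s r f nn tt hm y i h]
  · refine Filter.Eventually.of_forall fun k => ?_
    have h1 : y ∉ Dset α s r f k := fun h => hex ⟨k, Or.inl h⟩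
    have h2 : sg α s i y ∉ Dset α s r f k := fun h => hex ⟨k, Or.inr h⟩
    show psiInf α s r f nn tt y i = psi α s r f nn tt k y i
    rw [B_Inf_none α s r f nn tt y i hex, psi_zero α s r f nn tt k y i h1 h2]

theorem psiInf_div {G E : Type*} [Group G] [MeasurableSpace G] [MeasurableSpace E] (α : MAct G E)
    {d : ℕ} (s : Fin d → G) (r : ℕ) (f : E → ℝ) (nn : ℕ → ℕ) (tt : ℕ → ℝ) (k : ℕ)
    (y : ℕ → E) (h : y ∈ Dset α s r f k) :
    ∑ i, psiInf α s r f nn tt y i = ∑ i, psi α s r f nn tt k y i := by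
  exact Finset.sum_congr rfl fun i _ => psiInf_eq α s r f nn tt k y i (Or.inl h)

theorem Vset_sub_Dset {G E : Type*} [Group G] [MeasurableSpace G] [MeasurableSpace E] (α : MAct G E)
    {d : ℕ} (s : Fin d → G) (r : ℕ) (f : E → ℝ) {k : ℕ} {y : ℕ → E} {j : ℕ} (hj : j < k)
    (h : y j ∈ Qp f j) : y ∈ Dset α s r f k := by
  exact subset_cl (sg α s) r (Vset f k) ⟨j, hj, h⟩

end BorelEq
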