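import Pool.Agent.Lib.MP_75103d_lc.B_Rec1
import Pool.Agent.Lib.MP_75103d_lc.B_Fw1

/-! (B5) the recursively defined flows psi. -/

set_option autoImplicit false

open MeasureTheory Set
open scoped ENNReal

namespace BorelEq

theorem psi_anti {G E : Type*} [Group G] [MeasurableSpace G] [MeasurableSpace E] (α : MAct G E)
    {d : ℕ} (s : Fin d → G) (ι : Fin d → Fin d)
    (hs : ∀ i, s (ι i) = (s i)⁻¹) (r : ℕ) (f : E → ℝ) (nn : ℕ → ℕ) (tt : ℕ → ℝ) (k : ℕ)
    (y : ℕ → E) (i : Fin d) :
    psi α s r f nn tt k (sg α s i y) (ι i) = - psi α s r f nn tt k y i := by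
  induction k with
  | zero => simp [psi]
  | succ k ih =>
    have hinv := sg_inv α s ι hs
    simp only [psi]
    rw [hinv]
    by_cases hb : y ∈ Dset α s r f k ∨ sg α s i y ∈ Dset α s r f k
    · rw [if_pos hb, if_pos hb.symm, ih]
    · rw [if_neg hb, if_neg (fun h' => hb h'.symm)]
      exact fw_anti (sg α s) ι hinv _ _ _ _ _ _ _ _

theorem psi_bound {G E : Type*} [Group G] [MeasurableSpace G] [MeasurableSpace E] (α : MAct G E)
    {d : ℕ} (s : Fin d → G) (r : ℕ) (f : E → ℝ) (nn : ℕ → ℕ) (tt : ℕ → ℝ)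
    (ht : ∀ k, 0 ≤ tt k ∧ tt k ≤ 1) (k : ℕ) (y : ℕ → E) (i : Fin d) :
    |psi α s r f nn tt k y i| ≤ 6 / d := by
  have hq : (0 : ℝ) ≤ 6 / d := by positivity
  induction k with
  | zero => simpa [psi] using hq
  | succ k ih =>
    simp only [psi]
    split_ifs
    · exact ih
    · exact fw_bound (sg α s) _ _ _ _ _ hq (ht k).1 (ht k).2 _ _ _

theorem psi_zero {G E : Type*} [Group G] [MeasurableSpace G] [MeasurableSpace E] (α : MAct G E)
    {d : ℕ} (s : Fin d → G) (r : ℕ) (f : E → ℝ) (nn : ℕ → ℕ) (tt : ℕ → ℝ)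
    (k : ℕ) (y : ℕ → E) (i : Fin d) (h1 : y ∉ Dset α s r f k) (h2 : sg α s i y ∉ Dset α s r f k) :
    psi α s r f nn tt k y i = 0 := by
  cases k with
  | zero => simp [psi]
  | succ k =>
    have hm := Dset_mono α s r f (Nat.le_succ k)
    simp only [psi]
    rw [if_neg (fun h => h.elim (fun h => h1 (hm h)) (fun h => h2 (hm h)))]
    exact fw_supp2 (sg α s) _ _ _ _ _ _ _ _ (fun h => h1 h.1) (fun h => h2 h.1)

theorem psi_stable {G E : Type*} [Group G] [MeasurableSpace G] [MeasurableSpace E] (α : MAct G E)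
    {d : ℕ} (s : Fin d → G) (r : ℕ) (f : E → ℝ) (nn : ℕ → ℕ) (tt : ℕ → ℝ)
    {k m : ℕ} (hkm : k ≤ m) (y : ℕ → E) (i : Fin d)
    (h : y ∈ Dset α s r f k ∨ sg α s i y ∈ Dset α s r f k) :
    psi α s r f nn tt m y i = psi α s r f nn tt k y i := by
  induction m, hkm using Nat.le_induction with
  | base => rfl
  | succ m hkm ih =>
    have hm := Dset_mono α s r f hkm
    rw [← ih]
    simp only [psi]
    rw [if_pos (h.imp (fun h => hm h) (fun h => hm h))]

theorem B_Rec2_dem_meas {G E : Type*} [Group G] [MeasurableSpace G] [MeasurableSpace E]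
    (α : MAct G E)
    {d : ℕ} (s : Fin d → G) (r : ℕ) (f : E → ℝ) (hf : Measurable f) (nn : ℕ → ℕ)
    (tt : ℕ → ℝ) (k : ℕ) (h : ∀ i, Measurable (fun y => psi α s r f nn tt k y i)) :
    Measurable (dem α s r f nn tt k) := by
  unfold dem
  refine measurable_const.sub (Finset.measurable_sum _ fun j _ => ?_)
  refine Measurable.ite ?_ (h j) measurable_const
  exact sg_meas α s j (Dset_meas α s r f hf k)

theorem psi_meas {G E : Type*} [Group G] [MeasurableSpace G] [MeasurableSpace E] (α : MAct G E)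
    {d : ℕ} (s : Fin d → G) (r : ℕ) (f : E → ℝ) (hf : Measurable f) (nn : ℕ → ℕ)
    (tt : ℕ → ℝ) (k : ℕ) (i : Fin d) : Measurable (fun y => psi α s r f nn tt k y i) := by
  induction k generalizing i with
  | zero => simp only [psi]; exact measurable_const
  | succ k ih =>
    simp only [psi]
    refine Measurable.ite ?_ (ih i) ?_
    · exact (Dset_meas α s r f hf k).union (sg_meas α s i (Dset_meas α s r f hf k))
    · exact fw_meas (sg α s) (sg_meas α s) (Dset_meas α s r f hf k)
        ((Dset_meas α s r f hf (k + 1)).diff (Dset_meas α s r f hf k))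
        (B_Rec2_dem_meas α s r f hf nn tt k ih) _ _ _ _

theorem psi_trunc {G E : Type*} [Group G] [MeasurableSpace G] [MeasurableSpace E] (α : MAct G E)
    {d : ℕ} (s : Fin d → G) (r : ℕ) (f : E → ℝ) (nn : ℕ → ℕ) (tt : ℕ → ℝ)
    {k m : ℕ} (h : m ≤ k + 1) (y : ℕ → E) (i : Fin d) :
    psi α s r f nn tt m (trunc k y) i = psi α s r f nn tt m y i := by
  induction m generalizing y i with
  | zero => simp [psi]
  | succ m ih =>
    have hm : m ≤ k + 1 := by omega
    have e1 : ∀ z : ℕ → E, trunc k z ∈ Dset α s r f m ↔ z ∈ Dset α s r f m :=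
      fun z => Dset_trunc α s r f hm z
    have e2 : ∀ z : ℕ → E, trunc k z ∈ Dset α s r f (m + 1) ↔ z ∈ Dset α s r f (m + 1) :=
      fun z => Dset_trunc α s r f h z
    have e3 : ∀ (j : Fin d) (z : ℕ → E),
        sg α s j (trunc k z) ∈ Dset α s r f m ↔ sg α s j z ∈ Dset α s r f m := by
      intro j z
      rw [← sg_trunc, e1]
    have e4 : dem α s r f nn tt m ∘ trunc k = dem α s r f nn tt m := by
      funext z
      simp only [Function.comp, dem]
      congr 1
      refine Finset.sum_congr rfl fun j _ => ?_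
      by_cases hj : sg α s j z ∈ Dset α s r f m
      · rw [if_pos hj, if_pos ((e3 j z).2 hj), ih hm]
      · rw [if_neg hj, if_neg (fun h' => hj ((e3 j z).1 h'))]
    have e5 : trunc k ⁻¹' (Dset α s r f m) = Dset α s r f m := by
      ext z
      exact e1 z
    have e6 : trunc k ⁻¹' (Dset α s r f (m + 1) \ Dset α s r f m)
        = Dset α s r f (m + 1) \ Dset α s r f m := by
      ext z
      simp only [mem_preimage, mem_sdiff, e1, e2]
    have e7 := fw_comp (sg α s) (sg α s) (trunc k) (fun j z => sg_trunc α s k j z)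
      (Dset α s r f m) (Dset α s r f (m + 1) \ Dset α s r f m) (dem α s r f nn tt m)
      (6 / d) (tt m) (nn m) y i
    rw [e4, e5, e6] at e7
    simp only [psi]
    by_cases hb : y ∈ Dset α s r f m ∨ sg α s i y ∈ Dset α s r f m
    · rw [if_pos hb, if_pos (hb.imp (fun h' => (e1 y).2 h') (fun h' => (e3 i y).2 h')), ih hm]
    · rw [if_neg hb, if_neg (fun h' => hb (h'.imp (fun h' => (e1 y).1 h') (fun h' => (e3 i y).1 h')))]
      exact e7.symm

end BorelEq
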