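import Pool.Agent.Lib.MP_75103d_lc.B_Defs

/-! (B7) definitions: G-Lipschitz functions and regular sets. -/

set_option autoImplicit false

open MeasureTheory Set
open scoped ENNReal

namespace BorelEq

/-- `f` is measurable with values in `[0,1]` and 1-Lipschitz along the action. -/
def GLip {G E : Type*} [Group G] [MeasurableSpace G] [MeasurableSpace E] (α : MAct G E) (nrm : G → ℝ)
    (f : E → ℝ) : Prop :=
  Measurable f ∧ (∀ x, 0 ≤ f x) ∧ (∀ x, f x ≤ 1) ∧ ∀ h x, |f (α.a h x) - f x| ≤ nrm h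

/-- Regular sets. -/
def RegSet {G E : Type*} [Group G] [MeasurableSpace G] [MeasurableSpace E] (μ : Measure G)
    (α : MAct G E) (nrm : G → ℝ) (B : Set E) : Prop :=
  ∀ ε : ℝ, 0 < ε → ∃ f1 f2 : E → ℝ, GLip α nrm f1 ∧ GLip α nrm f2 ∧ (∀ x ∈ B, 0 < f1 x) ∧
    (∀ x, x ∉ B → 0 < f2 x) ∧ ∀ x, μ.real {g | 0 < f1 (α.a g x) ∧ 0 < f2 (α.a g x)} ≤ ε

end BorelEq
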