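import Pool.Agent.Lib.MP_75103d_lc.B_Reg0

/-! (B7) measurable invariant choice of an index; complements. -/

set_option autoImplicit false

open MeasureTheory Set
open scoped ENNReal

namespace BorelEq

/-- For a decreasing sequence of sets with empty intersection there is a `G`-invariant measurable index
from which on the fibre measure is small. (`x ↦ μ {g | g x ∈ T m}` is measurable, `G`-invariant by right
invariance of `μ`, and tends to `0`.) -/
theorem inv_index {G E : Type*} [Group G] [MeasurableSpace G] [MeasurableMul₂ G] [MeasurableInv G]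
    [MeasurableSpace E] (μ : Measure G) [IsProbabilityMeasure μ]
    (hr : ∀ u : G, MeasurePreserving (fun g => g * u) μ μ)
    (nrm : G → ℝ) (hnm : Measurable nrm) (hn0 : ∀ g, 0 ≤ nrm g) (α : MAct G E)
    (T : ℕ → Set E) (hT : ∀ m, MeasurableSet (T m)) (hdec : Antitone T) (hint : ⋂ m, T m = ∅)
    (ε : ℝ) (hε : 0 < ε) :
    ∃ M : E → ℕ, Measurable M ∧ (∀ g x, M (α.a g x) = M x) ∧
      ∀ x, μ.real {g | α.a g x ∈ T (M x)} ≤ ε := by
  classical
  -- the measure function
  have hS : ∀ m, MeasurableSet {p : G × E | α.a p.1 p.2 ∈ T m} := fun m => α.meas (hT m)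
  have hSx : ∀ m x, MeasurableSet {g : G | α.a g x ∈ T m} := fun m x =>
    (measurable_id.prodMk measurable_const) (hS m)
  have hmeas : ∀ m, Measurable (fun x : E => μ.real {g | α.a g x ∈ T m}) := by
    intro m
    have h := measurable_measure_prodMk_right (μ := μ) (hS m)
    exact h.ennreal_toReal
  have hinv : ∀ m u x, μ.real {g | α.a g (α.a u x) ∈ T m} = μ.real {g | α.a g x ∈ T m} := by
    intro m u x
    have h := (hr u).measureReal_preimage (hSx m x).nullMeasurableSet
    rw [← h]
    congr 1
    ext g
    simp only [mem_ofPred_eq, mem_preimage, α.mul]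
  have hlim : ∀ x, ∃ m, μ.real {g | α.a g x ∈ T m} ≤ ε := by
    intro x
    have h := tendsto_measure_iInter_atTop (μ := μ) (s := fun m => {g : G | α.a g x ∈ T m})
      (fun m => (hSx m x).nullMeasurableSet) (fun m n hmn g hg => hdec hmn hg)
      ⟨0, measure_ne_top _ _⟩
    have h0 : (⋂ m, {g : G | α.a g x ∈ T m}) = ∅ := by
      ext g
      simp only [mem_iInter, mem_ofPred_eq, mem_empty_iff_false, iff_false]
      intro hg
      have : α.a g x ∈ ⋂ m, T m := mem_iInter.2 hg
      rw [hint] at this
      exact this
    rw [h0, measure_empty] at h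
    have h2 := (ENNReal.tendsto_toReal ENNReal.zero_ne_top).comp h
    have h3 : ∀ᶠ m in Filter.atTop, μ.real {g : G | α.a g x ∈ T m} < ε := by
      have : Filter.Tendsto (fun m => μ.real {g : G | α.a g x ∈ T m}) Filter.atTop (nhds 0) := h2
      exact this.eventually (gt_mem_nhds hε)
    obtain ⟨m, hm⟩ := h3.exists
    exact ⟨m, hm.le⟩
  refine ⟨fun x => Nat.find (hlim x), ?_, ?_, ?_⟩
  · exact measurable_find hlim (fun m => measurableSet_le (hmeas m) measurable_const)
  · intro u x
    apply le_antisymm
    · apply Nat.find_min'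
      rw [hinv]
      exact Nat.find_spec (hlim x)
    · apply Nat.find_min'
      rw [← hinv _ u x]
      exact Nat.find_spec (hlim (α.a u x))
  · intro x
    exact Nat.find_spec (hlim x)

theorem RegSet_compl {G E : Type*} [Group G] [MeasurableSpace G] [MeasurableSpace E] (μ : Measure G)
    (α : MAct G E) (nrm : G → ℝ) (B : Set E) (h : RegSet μ α nrm B) : RegSet μ α nrm Bᶜ := by
  intro ε hε
  obtain ⟨f1, f2, h1, h2, h3, h4, h5⟩ := h ε hε
  refine ⟨f2, f1, h2, h1, fun x hx => h4 x hx, fun x hx => h3 x (not_not.1 hx), fun x => ?_⟩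
  have := h5 x
  simpa only [and_comm] using this

theorem GLip_iSup {G E : Type*} [Group G] [MeasurableSpace G] [MeasurableSpace E]
    (α : MAct G E) (nrm : G → ℝ) (f : ℕ → E → ℝ) (h : ∀ i, GLip α nrm (f i)) :
    GLip α nrm (fun x => ⨆ i, f i x) := by
  have hb : ∀ x, BddAbove (range fun i => f i x) := by
    intro x
    refine ⟨1, ?_⟩
    rintro _ ⟨i, rfl⟩
    exact (h i).2.2.1 x
  refine ⟨Measurable.iSup fun i => (h i).1, fun x => Real.iSup_nonneg fun i => (h i).2.1 x,
    fun x => ciSup_le fun i => (h i).2.2.1 x, ?_⟩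
  intro g x
  rw [abs_le]
  constructor
  · have : (⨆ i, f i x) ≤ (⨆ i, f i (α.a g x)) + nrm g := by
      apply ciSup_le
      intro i
      have h1 := (abs_le.1 ((h i).2.2.2 g x)).1
      have h2 := le_ciSup (hb (α.a g x)) i
      linarith
    linarith
  · have : (⨆ i, f i (α.a g x)) ≤ (⨆ i, f i x) + nrm g := by
      apply ciSup_le
      intro i
      have h1 := (abs_le.1 ((h i).2.2.2 g x)).2
      have h2 := le_ciSup (hb x) i
      linarith
    linarith

/-- minimum of the first `M x + 1` functions, `M` invariant -/
theorem GLip_inf' {G E : Type*} [Group G] [MeasurableSpace G] [MeasurableSpace E]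
    (α : MAct G E) (nrm : G → ℝ) (f : ℕ → E → ℝ) (h : ∀ i, GLip α nrm (f i)) (M : E → ℕ)
    (hM : Measurable M) (hMi : ∀ g x, M (α.a g x) = M x) :
    GLip α nrm (fun x => (Finset.range (M x + 1)).inf' ⟨0, by simp⟩ (fun i => f i x)) := by
  refine ⟨?_, ?_, ?_, ?_⟩
  · have h1 : Measurable (fun p : ℕ × E =>
        (Finset.range (p.1 + 1)).inf' ⟨0, by simp⟩ (fun i => f i p.2)) := by
      apply measurable_from_prod_countable_right
      intro m
      have e : (fun x : E => (Finset.range (m + 1)).inf' ⟨0, by simp⟩ (fun i => f i x))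
          = (Finset.range (m + 1)).inf' ⟨0, by simp⟩ (fun i => f i) := by
        funext x
        rw [Finset.inf'_apply]
      show Measurable (fun x : E => (Finset.range (m + 1)).inf' ⟨0, by simp⟩ (fun i => f i x))
      rw [e]
      induction m with
      | zero =>
        simp only [zero_add, Finset.range_one, Finset.inf'_singleton]
        exact (h 0).1
      | succ m ih =>
        have e2 : (Finset.range (m + 1 + 1)).inf' ⟨0, by simp⟩ (fun i => f i)
            = (f (m + 1)) ⊓ (Finset.range (m + 1)).inf' ⟨0, by simp⟩ (fun i => f i) := by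
          rw [← Finset.inf'_insert]
          congr 1
          exact Finset.range_add_one
        rw [e2]
        apply Measurable.inf (h (m + 1)).1
        apply ih
        funext x
        rw [Finset.inf'_apply]
    exact h1.comp (hM.prodMk measurable_id)
  · intro x
    exact Finset.le_inf' _ _ fun i _ => (h i).2.1 x
  · intro x
    exact (Finset.inf'_le (fun i => f i x) (Finset.mem_range.2 (Nat.succ_pos (M x)))).trans
      ((h 0).2.2.1 x)
  · intro g x
    simp only [hMi]
    rw [abs_le]
    constructor
    · have : (Finset.range (M x + 1)).inf' ⟨0, by simp⟩ (fun i => f i x) - nrm g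
          ≤ (Finset.range (M x + 1)).inf' ⟨0, by simp⟩ (fun i => f i (α.a g x)) := by
        apply Finset.le_inf'
        intro i hi
        have h1 := (abs_le.1 ((h i).2.2.2 g x)).1
        have h2 := Finset.inf'_le (fun i => f i x) hi
        linarith
      linarith
    · have : (Finset.range (M x + 1)).inf' ⟨0, by simp⟩ (fun i => f i (α.a g x)) - nrm g
          ≤ (Finset.range (M x + 1)).inf' ⟨0, by simp⟩ (fun i => f i x) := by
        apply Finset.le_inf'
        intro i hi
        have h1 := (abs_le.1 ((h i).2.2.2 g x)).2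
        have h2 := Finset.inf'_le (fun i => f i (α.a g x)) hi
        linarith
      linarith

end BorelEq
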