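import Pool.Agent.Lib.MP_75103d_lc.B_Reg1

/-! (B7) open sets are regular. (Careful: infDist to the empty set is 0, so treat B = univ separately with f1 = 1, f2 = 0.) -/

set_option autoImplicit false

open MeasureTheory Set
open scoped ENNReal

namespace BorelEq

/-- `c(x)/(1+C x)` is Lipschitz along the action when `c` is Lipschitz for the metric. -/
theorem B_Reg2_lip {G E : Type*} [Group G] [MeasurableSpace G]
    [MetricSpace E] [MeasurableSpace E]
    (nrm : G → ℝ) (hn0 : ∀ g, 0 ≤ nrm g) (α : MAct G E)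
    (C : E → ℝ) (hC0 : ∀ x, 0 ≤ C x) (hCinv : ∀ g x, C (α.a g x) = C x)
    (hdist : ∀ h x, dist (α.a h x) x ≤ C x * nrm h) (u : E → ℝ)
    (hu : ∀ h x, |u (α.a h x) - u x| ≤ dist (α.a h x) x) (h : G) (x : E) :
    |u (α.a h x) / (1 + C (α.a h x)) - u x / (1 + C x)| ≤ nrm h := by
  rw [hCinv, ← sub_div, abs_div]
  have h1 : 0 < 1 + C x := by linarith [hC0 x]
  rw [abs_of_pos h1, div_le_iff₀ h1]
  have h2 := (hu h x).trans (hdist h x)
  nlinarith [hn0 h, hC0 x]

theorem B_Reg2_open {G E : Type*} [Group G] [MeasurableSpace G] [MeasurableMul₂ G] [MeasurableInv G]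
    [MetricSpace E] [MeasurableSpace E] [BorelSpace E] (μ : Measure G) [IsProbabilityMeasure μ]
    (hr : ∀ u : G, MeasurePreserving (fun g => g * u) μ μ)
    (nrm : G → ℝ) (hnm : Measurable nrm) (hn0 : ∀ g, 0 ≤ nrm g) (α : MAct G E)
    (C : E → ℝ) (hC : Measurable C) (hC0 : ∀ x, 0 ≤ C x) (hCinv : ∀ g x, C (α.a g x) = C x)
    (hdist : ∀ h x, dist (α.a h x) x ≤ C x * nrm h) (B : Set E) (hB : IsOpen B)
    (hne : Bᶜ.Nonempty) : RegSet μ α nrm B := by
  intro ε hε
  have hcl : IsClosed Bᶜ := hB.isClosed_compl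
  have hd0 : ∀ x, 0 ≤ Metric.infDist x Bᶜ := fun x => Metric.infDist_nonneg
  have hdm : Measurable (fun x => Metric.infDist x Bᶜ) :=
    (Metric.continuous_infDist_pt Bᶜ).measurable
  have hdl : ∀ x y, |Metric.infDist x Bᶜ - Metric.infDist y Bᶜ| ≤ dist x y := by
    intro x y
    rw [abs_le]
    constructor
    · have := Metric.infDist_le_infDist_add_dist (s := Bᶜ) (x := y) (y := x)
      rw [dist_comm y x] at this
      linarith
    · have := Metric.infDist_le_infDist_add_dist (s := Bᶜ) (x := x) (y := y)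
      linarith
  have hiff : ∀ x, x ∉ B → Metric.infDist x Bᶜ = 0 := by
    intro x hx
    exact Metric.infDist_zero_of_mem hx
  have hpos : ∀ x ∈ B, 0 < Metric.infDist x Bᶜ := by
    intro x hx
    exact (hcl.notMem_iff_infDist_pos hne).1 (fun h => h hx)
  obtain ⟨M, hM, hMi, hMe⟩ := inv_index μ hr nrm hnm hn0 α
    (fun m => {x | 0 < Metric.infDist x Bᶜ ∧ Metric.infDist x Bᶜ < (1 / 2 : ℝ) ^ m})
    (fun m => (measurableSet_lt measurable_const hdm).inter (measurableSet_lt hdm measurable_const))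
    (by
      intro m n hmn x hx
      refine ⟨hx.1, hx.2.trans_le ?_⟩
      exact pow_le_pow_of_le_one (by norm_num) (by norm_num) hmn)
    (by
      ext x
      simp only [mem_iInter, mem_setOf_eq, mem_empty_iff_false, iff_false, not_forall]
      by_cases hx : 0 < Metric.infDist x Bᶜ
      · obtain ⟨n, hn⟩ := exists_pow_lt_of_lt_one hx (show (1 / 2 : ℝ) < 1 by norm_num)
        exact ⟨n, fun h => (h.2.trans hn).false⟩
      · exact ⟨0, fun h => hx h.1⟩) ε hε
  have hρm : Measurable (fun x => (1 / 2 : ℝ) ^ M x) :=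
    (measurable_from_nat (f := fun m : ℕ => (1 / 2 : ℝ) ^ m)).comp hM
  refine ⟨fun x => min 1 (Metric.infDist x Bᶜ) / (1 + C x),
    fun x => max 0 (min 1 ((1 / 2 : ℝ) ^ M x - Metric.infDist x Bᶜ)) / (1 + C x),
    ⟨(measurable_const.min hdm).div (measurable_const.add hC), ?_, ?_, ?_⟩,
    ⟨(measurable_const.max (measurable_const.min (hρm.sub hdm))).div (measurable_const.add hC),
      ?_, ?_, ?_⟩, ?_, ?_, ?_⟩
  · intro x
    have h1 : 0 < 1 + C x := by linarith [hC0 x]
    exact div_nonneg (le_min zero_le_one (hd0 x)) h1.le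
  · intro x
    have h1 : 0 < 1 + C x := by linarith [hC0 x]
    show min 1 (Metric.infDist x Bᶜ) / (1 + C x) ≤ 1
    rw [div_le_one h1]
    exact (min_le_left _ _).trans (by linarith [hC0 x])
  · refine B_Reg2_lip nrm hn0 α C hC0 hCinv hdist (fun x => min 1 (Metric.infDist x Bᶜ)) ?_
    intro h x
    exact (abs_min_sub_min_le_max _ _ _ _).trans (max_le (by simp) (hdl _ _))
  · intro x
    have h1 : 0 < 1 + C x := by linarith [hC0 x]
    exact div_nonneg (le_max_left _ _) h1.le
  · intro x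
    have h1 : 0 < 1 + C x := by linarith [hC0 x]
    show max 0 (min 1 ((1 / 2 : ℝ) ^ M x - Metric.infDist x Bᶜ)) / (1 + C x) ≤ 1
    rw [div_le_one h1]
    exact (max_le zero_le_one (min_le_left _ _)).trans (by linarith [hC0 x])
  · refine B_Reg2_lip nrm hn0 α C hC0 hCinv hdist
      (fun x => max 0 (min 1 ((1 / 2 : ℝ) ^ M x - Metric.infDist x Bᶜ))) ?_
    intro h x
    simp only [hMi]
    refine (abs_max_sub_max_le_max _ _ _ _).trans (max_le (by simp) ?_)
    refine (abs_min_sub_min_le_max _ _ _ _).trans (max_le (by simp) ?_)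
    have := hdl x (α.a h x)
    rw [dist_comm] at this
    calc |(1 / 2 : ℝ) ^ M x - Metric.infDist (α.a h x) Bᶜ - ((1 / 2 : ℝ) ^ M x - Metric.infDist x Bᶜ)|
        = |Metric.infDist x Bᶜ - Metric.infDist (α.a h x) Bᶜ| := by
          congr 1
          ring
      _ ≤ dist (α.a h x) x := this
  · intro x hx
    have h1 : 0 < 1 + C x := by linarith [hC0 x]
    exact div_pos (lt_min one_pos (hpos x hx)) h1
  · intro x hx
    have h1 : 0 < 1 + C x := by linarith [hC0 x]
    refine div_pos (lt_max_of_lt_right (lt_min one_pos ?_)) h1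
    rw [hiff x hx, sub_zero]
    positivity
  · intro x
    refine (measureReal_mono ?_).trans (hMe x)
    intro g hg
    simp only [mem_setOf_eq] at hg ⊢
    have h1 : 0 < 1 + C (α.a g x) := by linarith [hC0 (α.a g x)]
    have h2 : 0 < min 1 (Metric.infDist (α.a g x) Bᶜ) := (div_pos_iff_of_pos_right h1).1 hg.1
    have h3 : 0 < max 0 (min 1 ((1 / 2 : ℝ) ^ M (α.a g x) - Metric.infDist (α.a g x) Bᶜ)) :=
      (div_pos_iff_of_pos_right h1).1 hg.2
    have h4 : 0 < min 1 ((1 / 2 : ℝ) ^ M (α.a g x) - Metric.infDist (α.a g x) Bᶜ) := by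
      rcases lt_max_iff.1 h3 with h | h
      · exact absurd h (lt_irrefl 0)
      · exact h
    have h5 := lt_of_lt_of_le h4 (min_le_right _ _)
    rw [hMi] at h5
    exact ⟨lt_of_lt_of_le h2 (min_le_right _ _), by linarith⟩

theorem RegSet_open {G E : Type*} [Group G] [MeasurableSpace G] [MeasurableMul₂ G] [MeasurableInv G]
    [MetricSpace E] [MeasurableSpace E] [BorelSpace E] (μ : Measure G) [IsProbabilityMeasure μ]
    (hr : ∀ u : G, MeasurePreserving (fun g => g * u) μ μ)
    (nrm : G → ℝ) (hnm : Measurable nrm) (hn0 : ∀ g, 0 ≤ nrm g) (α : MAct G E)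
    (hiso : ∀ g x y, dist (α.a g x) (α.a g y) = dist x y)
    (C : E → ℝ) (hC : Measurable C) (hC0 : ∀ x, 0 ≤ C x) (hCinv : ∀ g x, C (α.a g x) = C x)
    (hdist : ∀ h x, dist (α.a h x) x ≤ C x * nrm h) (B : Set E) (hB : IsOpen B) :
    RegSet μ α nrm B := by
  rcases Set.eq_empty_or_nonempty Bᶜ with h | h
  · intro ε hε
    refine ⟨fun _ => 1, fun _ => 0, ⟨measurable_const, fun _ => zero_le_one, fun _ => le_rfl, ?_⟩,
      ⟨measurable_const, fun _ => le_rfl, fun _ => zero_le_one, ?_⟩, fun _ _ => one_pos, ?_, ?_⟩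
    · intro h x
      simpa using hn0 h
    · intro h x
      simpa using hn0 h
    · intro x hx
      have : x ∈ Bᶜ := hx
      rw [h] at this
      exact absurd this (notMem_empty x)
    · intro x
      simp only [lt_irrefl, and_false, setOf_false, measureReal_empty]
      exact hε.le
  · exact B_Reg2_open μ hr nrm hnm hn0 α C hC hC0 hCinv hdist B hB h

end BorelEq
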