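import Pool.Agent.Lib.MP_75103d_lc.B_Reg1

/-! (B7) countable unions of regular sets are regular. -/

set_option autoImplicit false

open MeasureTheory Set
open scoped ENNReal

namespace BorelEq

theorem RegSet_iUnion {G E : Type*} [Group G] [MeasurableSpace G] [MeasurableMul₂ G] [MeasurableInv G]
    [MeasurableSpace E] (μ : Measure G) [IsProbabilityMeasure μ]
    (hr : ∀ u : G, MeasurePreserving (fun g => g * u) μ μ)
    (nrm : G → ℝ) (hnm : Measurable nrm) (hn0 : ∀ g, 0 ≤ nrm g) (α : MAct G E)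
    (B : ℕ → Set E) (hB : ∀ i, RegSet μ α nrm (B i)) : RegSet μ α nrm (⋃ i, B i) := by
  intro ε hε
  have hεi : ∀ i : ℕ, 0 < ε / 2 * (1 / 2) ^ (i + 1) := fun i => by positivity
  choose f1 f2 h1 h2 h3 h4 h5 using fun i => hB i (ε / 2 * (1 / 2) ^ (i + 1)) (hεi i)
  set T : ℕ → Set E := fun m => {x | (∃ i, 0 < f1 i x) ∧ ∀ i ≤ m, f1 i x ≤ 0} with hTdef
  have hTm : ∀ m, MeasurableSet (T m) := by
    intro m
    have e1 : T m = (⋃ i, {x | 0 < f1 i x}) ∩ ⋂ i ∈ Finset.range (m + 1), {x | f1 i x ≤ 0} := by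
      ext x
      simp only [hTdef, mem_ofPred_eq, mem_inter_iff, mem_iUnion, mem_iInter, Finset.mem_range,
        Nat.lt_succ_iff]
    rw [e1]
    refine MeasurableSet.inter (MeasurableSet.iUnion fun i => ?_)
      (Finset.measurableSet_biInter _ fun i _ => ?_)
    · exact measurableSet_lt measurable_const (h1 i).1
    · exact measurableSet_le (h1 i).1 measurable_const
  have hTd : Antitone T := by
    intro m n hmn x hx
    exact ⟨hx.1, fun i hi => hx.2 i (hi.trans hmn)⟩
  have hTe : ⋂ m, T m = ∅ := by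
    rw [eq_empty_iff_forall_notMem]
    intro x hx
    rw [mem_iInter] at hx
    obtain ⟨i, hi⟩ := (hx 0).1
    exact absurd ((hx i).2 i le_rfl) (not_le.2 hi)
  obtain ⟨M, hM, hMi, hMε⟩ := inv_index μ hr nrm hnm hn0 α T hTm hTd hTe (ε / 2) (by positivity)
  refine ⟨fun x => ⨆ i, f1 i x,
    fun x => (Finset.range (M x + 1)).inf' ⟨0, by simp⟩ (fun i => f2 i x),
    GLip_iSup α nrm f1 h1, GLip_inf' α nrm f2 h2 M hM hMi, ?_, ?_, ?_⟩
  · intro x hx
    obtain ⟨i, hi⟩ := mem_iUnion.1 hx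
    have hbdd : BddAbove (range fun i => f1 i x) := ⟨1, by
      rintro _ ⟨j, rfl⟩
      exact (h1 j).2.2.1 x⟩
    exact lt_of_lt_of_le (h3 i x hi) (le_ciSup hbdd i)
  · intro x hx
    refine (Finset.lt_inf'_iff (Finset.nonempty_range_iff.2 (Nat.succ_ne_zero _))).2 ?_
    intro i _
    refine h4 i x fun hxi => hx (mem_iUnion.2 ⟨i, hxi⟩)
  · intro x
    have hsub : {g | 0 < (⨆ i, f1 i (α.a g x)) ∧
        0 < (Finset.range (M (α.a g x) + 1)).inf' ⟨0, by simp⟩ (fun i => f2 i (α.a g x))} ⊆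
        (⋃ i ∈ Finset.range (M x + 1), {g | 0 < f1 i (α.a g x) ∧ 0 < f2 i (α.a g x)}) ∪
        {g | α.a g x ∈ T (M x)} := by
      rintro g ⟨hg1, hg2⟩
      have hex : ∃ i, 0 < f1 i (α.a g x) := by
        by_contra hcon
        push Not at hcon
        exact absurd (ciSup_le hcon) (not_le.2 hg1)
      have hg2 := (Finset.lt_inf'_iff (Finset.nonempty_range_iff.2 (Nat.succ_ne_zero _))).1 hg2
      by_cases hc : ∃ i, i ≤ M x ∧ 0 < f1 i (α.a g x)
      · obtain ⟨i, hi, hi2⟩ := hc
        left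
        rw [mem_iUnion₂]
        refine ⟨i, Finset.mem_range.2 (by omega), hi2, hg2 i ?_⟩
        rw [hMi, Finset.mem_range]
        omega
      · right
        push Not at hc
        exact ⟨hex, hc⟩
    have hle1 : μ.real (⋃ i ∈ Finset.range (M x + 1),
        {g | 0 < f1 i (α.a g x) ∧ 0 < f2 i (α.a g x)}) ≤ ε / 2 := by
      refine (measureReal_biUnion_finset_le _ _).trans ?_
      refine (Finset.sum_le_sum fun i _ => h5 i x).trans ?_
      rw [← Finset.mul_sum]
      have hgeo : ∀ n : ℕ, ∑ i ∈ Finset.range n, (1 / 2 : ℝ) ^ (i + 1) = 1 - (1 / 2) ^ n := by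
        intro n
        induction n with
        | zero => simp
        | succ n ih =>
          rw [Finset.sum_range_succ, ih]
          ring
      rw [hgeo]
      have : (0 : ℝ) ≤ (1 / 2) ^ (M x + 1) := by positivity
      nlinarith
    have h7 := measureReal_mono (μ := μ) hsub
    have h8 := measureReal_union_le (μ := μ)
      (⋃ i ∈ Finset.range (M x + 1), {g | 0 < f1 i (α.a g x) ∧ 0 < f2 i (α.a g x)})
      {g | α.a g x ∈ T (M x)}
    have h9 := hMε x
    linarith

end BorelEq
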