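import Pool.Agent.Lib.MP_75103d_lc.B_Reg2
import Pool.Agent.Lib.MP_75103d_lc.B_Reg3

/-! (B7) every Borel set is regular; the function f for a null set. -/

set_option autoImplicit false

open MeasureTheory Set
open scoped ENNReal

namespace BorelEq

theorem RegSet_borel {G E : Type*} [Group G] [MeasurableSpace G] [MeasurableMul₂ G] [MeasurableInv G]
    [MetricSpace E] [MeasurableSpace E] [BorelSpace E] (μ : Measure G) [IsProbabilityMeasure μ]
    (hr : ∀ u : G, MeasurePreserving (fun g => g * u) μ μ)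
    (nrm : G → ℝ) (hnm : Measurable nrm) (hn0 : ∀ g, 0 ≤ nrm g) (α : MAct G E)
    (hiso : ∀ g x y, dist (α.a g x) (α.a g y) = dist x y)
    (C : E → ℝ) (hC : Measurable C) (hC0 : ∀ x, 0 ≤ C x) (hCinv : ∀ g x, C (α.a g x) = C x)
    (hdist : ∀ h x, dist (α.a h x) x ≤ C x * nrm h) (B : Set E) (hB : MeasurableSet B) :
    RegSet μ α nrm B := by
  induction B, hB using MeasurableSet.induction_on_open with
  | isOpen U hU => exact RegSet_open μ hr nrm hnm hn0 α hiso C hC hC0 hCinv hdist U hU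
  | compl t ht ih => exact RegSet_compl μ α nrm t ih
  | iUnion f hf hfm ih => exact RegSet_iUnion μ hr nrm hnm hn0 α f ih

theorem exists_regular_aux {G E : Type*} [Group G] [MeasurableSpace G] [MeasurableMul₂ G] [MeasurableInv G]
    [MetricSpace E] [MeasurableSpace E] [BorelSpace E] (μ : Measure G) [IsProbabilityMeasure μ]
    (hr : ∀ u : G, MeasurePreserving (fun g => g * u) μ μ)
    (nrm : G → ℝ) (hnm : Measurable nrm) (hn0 : ∀ g, 0 ≤ nrm g) (α : MAct G E)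
    (hiso : ∀ g x y, dist (α.a g x) (α.a g y) = dist x y)
    (C : E → ℝ) (hC : Measurable C) (hC0 : ∀ x, 0 ≤ C x) (hCinv : ∀ g x, C (α.a g x) = C x)
    (hdist : ∀ h x, dist (α.a h x) x ≤ C x * nrm h)
    (N : Set E) (hN : MeasurableSet N) (hnull : ∀ x, μ {g | α.a g x ∈ N} = 0)
    (ε : ℝ) (hε : 0 < ε) :
    ∃ f : E → ℝ, Measurable f ∧ (∀ x, 0 ≤ f x) ∧ (∀ x, f x ≤ 1) ∧
      (∀ h x, |f (α.a h x) - f x| ≤ nrm h) ∧ (∀ x ∈ N, 0 < f x) ∧
      ∀ x, μ.real {g | 0 < f (α.a g x)} ≤ ε := by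
  obtain ⟨f1, f2, h1, h2, h3, h4, h5⟩ :=
    RegSet_borel μ hr nrm hnm hn0 α hiso C hC hC0 hCinv hdist N hN ε hε
  refine ⟨f1, h1.1, h1.2.1, h1.2.2.1, h1.2.2.2, h3, fun x => ?_⟩
  have hsub : {g | 0 < f1 (α.a g x)} ⊆
      {g | 0 < f1 (α.a g x) ∧ 0 < f2 (α.a g x)} ∪ {g | α.a g x ∈ N} := by
    intro g hg
    by_cases hgN : α.a g x ∈ N
    · exact Or.inr hgN
    · exact Or.inl ⟨hg, h4 _ hgN⟩
  have h0 : μ.real {g | α.a g x ∈ N} = 0 := by
    rw [Measure.real, hnull x, ENNReal.toReal_zero]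
  calc μ.real {g | 0 < f1 (α.a g x)}
      ≤ μ.real ({g | 0 < f1 (α.a g x) ∧ 0 < f2 (α.a g x)} ∪ {g | α.a g x ∈ N}) :=
        measureReal_mono hsub
    _ ≤ μ.real {g | 0 < f1 (α.a g x) ∧ 0 < f2 (α.a g x)} + μ.real {g | α.a g x ∈ N} :=
        measureReal_union_le _ _
    _ ≤ ε := by rw [h0, add_zero]; exact h5 x

end BorelEq
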