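import Pool.Agent.Lib.MP_75103d_lc.IGeo

/-! (C5) decomposition of a null set into sets null for one action each. -/

set_option autoImplicit false

open MeasureTheory Set
open scoped ENNReal

namespace BorelEq

theorem C_Avg_meas {n : ℕ} (L : List ((Fin 3 ↪ Fin n) × Eu n)) {F : Eu n → ℝ≥0∞}
    (hF : Measurable F) : Measurable (avgs L F) := by
  have := muQ_prob
  induction L with
  | nil => exact hF
  | cons q L ih =>
    have h0 : Measurable ((fun q' : UQ × Eu n => rotE q.1 q.2 q'.1 q'.2) ∘
        (fun z : Eu n × UQ => (z.2, z.1))) :=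
      (rotE_meas q.1 q.2).comp (measurable_snd.prodMk measurable_fst)
    have h0' : Measurable (fun z : Eu n × UQ => rotE q.1 q.2 z.2 z.1) := h0
    have h1 : Measurable (avgs L F ∘ (fun z : Eu n × UQ => rotE q.1 q.2 z.2 z.1)) :=
      ih.comp h0'
    have h2 : Measurable (fun x => ∫⁻ g, (avgs L F ∘ (fun z : Eu n × UQ => rotE q.1 q.2 z.2 z.1)) (x, g) ∂muQ) :=
      h1.lintegral_prod_right'
    exact h2

theorem C_Avg_meas_orbit {n : ℕ} (e : Fin 3 ↪ Fin n) (p x : Eu n) :
    Measurable (fun g : UQ => rotE e p g x) := by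
  have h0 : Measurable (fun g : UQ => (g, x)) := measurable_id.prodMk measurable_const
  have h : Measurable ((fun q : UQ × Eu n => rotE e p q.1 q.2) ∘ (fun g : UQ => (g, x))) :=
    (rotE_meas e p).comp h0
  exact h

theorem C_Avg_cons {n : ℕ} (q : (Fin 3 ↪ Fin n) × Eu n) (L : List ((Fin 3 ↪ Fin n) × Eu n))
    (F : Eu n → ℝ≥0∞) (x : Eu n) :
    avgs (q :: L) F x = ∫⁻ g, avgs L F (rotE q.1 q.2 g x) ∂muQ := rfl

/-- If a function has average zero then so has the indicator of its support. -/
theorem avgs_support {n : ℕ} (L : List ((Fin 3 ↪ Fin n) × Eu n)) (F : Eu n → ℝ≥0∞)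
    (hF : Measurable F) (x : Eu n) (h : avgs L F x = 0) :
    avgs L ({y | F y ≠ 0}.indicator (fun _ => 1)) x = 0 := by
  induction L generalizing x with
  | nil =>
    have h' : F x = 0 := h
    show ({y | F y ≠ 0}.indicator (fun _ => (1 : ℝ≥0∞))) x = 0
    exact indicator_of_notMem (s := {y | F y ≠ 0}) (by simpa using h') _
  | cons q L ih =>
    rw [C_Avg_cons] at h ⊢
    have hm : Measurable (fun g : UQ => avgs L F (rotE q.1 q.2 g x)) :=
      (C_Avg_meas L hF).comp (C_Avg_meas_orbit q.1 q.2 x)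
    rw [lintegral_eq_zero_iff hm] at h
    refine lintegral_eq_zero_of_ae_eq_zero ?_
    filter_upwards [h] with g hg
    exact ih _ hg

theorem avgs_mono {n : ℕ} (L : List ((Fin 3 ↪ Fin n) × Eu n)) {F F' : Eu n → ℝ≥0∞}
    (h : ∀ y, F y ≤ F' y) (x : Eu n) : avgs L F x ≤ avgs L F' x := by
  induction L generalizing x with
  | nil => exact h x
  | cons q L ih =>
    rw [C_Avg_cons, C_Avg_cons]
    exact lintegral_mono (fun g => ih _)

theorem avgs_append {n : ℕ} (L L' : List ((Fin 3 ↪ Fin n) × Eu n)) (F : Eu n → ℝ≥0∞) :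
    avgs (L ++ L') F = avgs L (avgs L' F) := by
  unfold avgs
  rw [List.foldr_append]

theorem C_Avg_null {n : ℕ} (e : Fin 3 ↪ Fin n) (p : Eu n) (N M : Set (Eu n))
    (hN : MeasurableSet N) (hM : M ⊆ N)
    (h : ∀ y ∈ M, muQ {g | rotE e p g y ∈ N} = 0) (x : Eu n) :
    muQ {g | rotE e p g x ∈ M} = 0 := by
  by_cases hx : ∃ g₀, rotE e p g₀ x ∈ M
  · obtain ⟨g₀, hg₀⟩ := hx
    refine measure_mono_null (t := {g | rotE e p g x ∈ N}) (fun g hg => hM hg) ?_
    have h1 := h _ hg₀
    have h2 : {g | rotE e p g (rotE e p g₀ x) ∈ N} =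
        (fun g : UQ => g * g₀) ⁻¹' {g | rotE e p g x ∈ N} := by
      ext g
      simp only [mem_ofPred_eq, mem_preimage, rotE_mul]
    have h3 : MeasurableSet {g | rotE e p g x ∈ N} := (C_Avg_meas_orbit e p x) hN
    rw [h2, (muQ_right g₀).measure_preimage h3.nullMeasurableSet] at h1
    exact h1
  · have : {g | rotE e p g x ∈ M} = ∅ := by
      ext g
      simp only [mem_ofPred_eq, mem_empty_iff_false, iff_false]
      exact fun hg => hx ⟨g, hg⟩
    rw [this, measure_empty]

theorem C_Avg_avg_ind {n : ℕ} (q : (Fin 3 ↪ Fin n) × Eu n) (N : Set (Eu n))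
    (hN : MeasurableSet N) (y : Eu n) :
    avgs [q] (N.indicator (fun _ => 1)) y = muQ {g | rotE q.1 q.2 g y ∈ N} := by
  rw [C_Avg_cons]
  show ∫⁻ g, N.indicator (fun _ => (1 : ℝ≥0∞)) (rotE q.1 q.2 g y) ∂muQ = _
  have h1 : (fun g : UQ => N.indicator (fun _ => (1 : ℝ≥0∞)) (rotE q.1 q.2 g y)) =
      ({g | rotE q.1 q.2 g y ∈ N}).indicator (fun _ => (1 : ℝ≥0∞)) := by
    funext g
    by_cases hg : rotE q.1 q.2 g y ∈ N
    · rw [indicator_of_mem hg, indicator_of_mem (show g ∈ {g | rotE q.1 q.2 g y ∈ N} from hg)]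
    · rw [indicator_of_notMem hg,
        indicator_of_notMem (show g ∉ {g | rotE q.1 q.2 g y ∈ N} from hg)]
  have h2 : MeasurableSet {g : UQ | rotE q.1 q.2 g y ∈ N} := (C_Avg_meas_orbit q.1 q.2 y) hN
  rw [h1]
  exact lintegral_indicator_one h2

theorem C_Avg_decomp {n : ℕ} (L : List ((Fin 3 ↪ Fin n) × Eu n)) : ∀ (N : Set (Eu n)),
    MeasurableSet N → (∀ x, avgs L (N.indicator (fun _ => 1)) x = 0) →
    ∃ f : ℕ → Set (Eu n), (∀ l, MeasurableSet (f l)) ∧
      (∀ x, x ∈ N ↔ ∃ l, l < L.length ∧ x ∈ f l) ∧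
      ∀ (l : ℕ) (hl : l < L.length) (x : Eu n),
        muQ {g | rotE (L[l]).1 (L[l]).2 g x ∈ f l} = 0 := by
  classical
  induction L using List.reverseRecOn with
  | nil =>
    intro N hN h
    refine ⟨fun _ => ∅, fun _ => MeasurableSet.empty, ?_, ?_⟩
    · intro x
      constructor
      · intro hx
        have h1 := h x
        have h2 : N.indicator (fun _ => (1 : ℝ≥0∞)) x = 0 := h1
        rw [indicator_of_mem hx] at h2
        exact absurd h2 one_ne_zero
      · rintro ⟨l, hl, _⟩
        exact absurd hl (Nat.not_lt_zero l)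
    · intro l hl
      exact absurd hl (Nat.not_lt_zero l)
  | append_singleton L q ih =>
    intro N hN h
    let F : Eu n → ℝ≥0∞ := avgs [q] (N.indicator (fun _ => 1))
    have hFm : Measurable F := C_Avg_meas [q] (measurable_const.indicator hN)
    have hF : ∀ y, F y = muQ {g | rotE q.1 q.2 g y ∈ N} := C_Avg_avg_ind q N hN
    let N₁ : Set (Eu n) := N ∩ {y | F y ≠ 0}
    have hN₁ : MeasurableSet N₁ := hN.inter (hFm (measurableSet_singleton (0 : ℝ≥0∞)).compl)
    have h1 : ∀ x, avgs L (N₁.indicator (fun _ => 1)) x = 0 := by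
      intro x
      have h2 : avgs L ({y | F y ≠ 0}.indicator (fun _ => 1)) x = 0 := by
        refine avgs_support L F hFm x ?_
        have := h x
        rw [avgs_append] at this
        exact this
      refine le_antisymm ?_ zero_le
      rw [← h2]
      exact avgs_mono L (fun y => indicator_le_indicator_of_subset inter_subset_right
        (fun _ => zero_le) y) x
    obtain ⟨f, hf, hfN, hf0⟩ := ih N₁ hN₁ h1
    refine ⟨fun l => if l < L.length then f l else N \ N₁, ?_, ?_, ?_⟩
    · intro l
      by_cases hl : l < L.length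
      · simp only [hl, if_true]; exact hf l
      · simp only [hl, if_false]; exact hN.diff hN₁
    · intro x
      constructor
      · intro hx
        by_cases hx1 : x ∈ N₁
        · obtain ⟨l, hl, hxl⟩ := (hfN x).1 hx1
          refine ⟨l, ?_, ?_⟩
          · rw [List.length_append]; exact Nat.lt_add_right _ hl
          · simp only [hl, if_true]; exact hxl
        · refine ⟨L.length, ?_, ?_⟩
          · rw [List.length_append]; simp
          · simp only [lt_irrefl, if_false]; exact ⟨hx, hx1⟩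
      · rintro ⟨l, _, hxl⟩
        by_cases hl : l < L.length
        · simp only [hl, if_true] at hxl
          exact ((hfN x).2 ⟨l, hl, hxl⟩).1
        · simp only [hl, if_false] at hxl
          exact hxl.1
    · intro l hl x
      by_cases hl' : l < L.length
      · simp only [hl', if_true]
        have : (L ++ [q])[l] = L[l] := List.getElem_append_left hl'
        rw [this]
        exact hf0 l hl' x
      · simp only [hl', if_false]
        have hl2 : l = L.length := by
          rw [List.length_append] at hl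
          simp only [List.length_singleton] at hl
          omega
        subst hl2
        have : (L ++ [q])[L.length] = q := by simp
        rw [this]
        refine C_Avg_null q.1 q.2 N (N \ N₁) hN sdiff_subset ?_ x
        intro y hy
        by_contra hy0
        rw [← hF y] at hy0
        exact hy.2 ⟨hy.1, hy0⟩

/-- Induction on the list from the right: with the last action `q` put
`N₁ = {x ∈ N | muQ {g | g x ∈ N} ≠ 0}`; `N \ N₁` is null for `q` (by right invariance), and
`avgs L (indicator N₁) = 0` for the shorter list. -/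
theorem decomp_list {n : ℕ} (L : List ((Fin 3 ↪ Fin n) × Eu n)) (N : Set (Eu n))
    (hN : MeasurableSet N) (h : ∀ x, avgs L (N.indicator (fun _ => 1)) x = 0) :
    ∃ N' : Fin L.length → Set (Eu n), (∀ l, MeasurableSet (N' l)) ∧ (⋃ l, N' l) = N ∧
      ∀ l x, muQ {g | rotE (L.get l).1 (L.get l).2 g x ∈ N' l} = 0 := by
  obtain ⟨f, hf, hfN, hf0⟩ := C_Avg_decomp L N hN h
  refine ⟨fun l => f l, fun l => hf l, ?_, fun l x => hf0 l.1 l.2 x⟩
  ext x
  rw [mem_iUnion, hfN x]
  constructor
  · rintro ⟨l, hl⟩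
    exact ⟨l.1, l.2, hl⟩
  · rintro ⟨l, hl, hx⟩
    exact ⟨⟨l, hl⟩, hx⟩

end BorelEq
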