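import Pool.Agent.Lib.MP_75103d_lc.C_Dec2

/-! (C4) CORRECTED (see dnote): covering by small cells and packing of small balls. -/

set_option autoImplicit false

open MeasureTheory Set
open scoped ENNReal

namespace BorelEq

/-- Disjoint balls in an open set. -/
theorem exists_disjoint_balls {n : ℕ} (hn : 1 ≤ n) (O : Set (Eu n)) (hO : IsOpen O)
    (hO' : O.Nonempty) (k : ℕ) : ∃ (c : Fin k → Eu n) (δ : ℝ), 0 < δ ∧
      (∀ j, Metric.ball (c j) δ ⊆ O) ∧ Pairwise (fun j j' => Disjoint (Metric.ball (c j) δ) (Metric.ball (c j') δ)) := by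
  obtain ⟨x0, hx0⟩ := hO'
  obtain ⟨ε, hε, hball⟩ := Metric.isOpen_iff.mp hO x0 hx0
  set e : Eu n := EuclideanSpace.single (⟨0, hn⟩ : Fin n) (1 : ℝ) with he
  have hen : ‖e‖ = 1 := by rw [he]; simp
  set st : ℝ := ε / (2 * (k + 1)) with hst
  have hk0 : (0 : ℝ) ≤ k := by positivity
  have hst0 : 0 < st := by positivity
  have hstk : (k + 1) * st = ε / 2 := by rw [hst]; field_simp
  refine ⟨fun j => x0 + ((j : ℝ) * st) • e, st / 2, by positivity, ?_, ?_⟩
  · intro j y hy
    apply hball
    rw [Metric.mem_ball] at hy ⊢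
    have hj : (j : ℝ) ≤ k := by exact_mod_cast j.2.le
    have h1 : dist (x0 + ((j : ℝ) * st) • e) x0 = (j : ℝ) * st := by
      rw [dist_eq_norm, add_sub_cancel_left, norm_smul, hen, mul_one, Real.norm_eq_abs,
        abs_of_nonneg (by positivity)]
    have h2 := dist_triangle y (x0 + ((j : ℝ) * st) • e) x0
    rw [h1] at h2
    have h3 : (j : ℝ) * st ≤ k * st := mul_le_mul_of_nonneg_right hj hst0.le
    linarith
  · intro j j' hjj
    apply Metric.ball_disjoint_ball
    have h1 : dist (x0 + ((j : ℝ) * st) • e) (x0 + ((j' : ℝ) * st) • e) =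
        |(j : ℝ) - j'| * st := by
      rw [dist_eq_norm]
      have : x0 + ((j : ℝ) * st) • e - (x0 + ((j' : ℝ) * st) • e) =
          (((j : ℝ) - j') * st) • e := by
        rw [add_sub_add_left_eq_sub, ← sub_smul]
        congr 1
        ring
      rw [this, norm_smul, hen, mul_one, Real.norm_eq_abs, abs_mul, abs_of_pos hst0]
    show st / 2 + st / 2 ≤ dist (x0 + ((j : ℝ) * st) • e) (x0 + ((j' : ℝ) * st) • e)
    rw [h1]
    have h2 : (1 : ℝ) ≤ |(j : ℝ) - j'| := by
      have hne : ((j : ℕ) : ℤ) - (j' : ℕ) ≠ 0 := by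
        intro h
        apply hjj
        apply Fin.ext
        omega
      have h3 := Int.one_le_abs hne
      have h4 : ((1 : ℤ) : ℝ) ≤ ((|((j : ℕ) : ℤ) - (j' : ℕ)| : ℤ) : ℝ) := by exact_mod_cast h3
      rw [Int.cast_abs] at h4
      push_cast at h4
      exact h4
    nlinarith [mul_le_mul_of_nonneg_right h2 hst0.le]

theorem C_Cells_single {n : ℕ} (A B : Set (Eu n)) (hA : MeasurableSet A) (γ : Eu n ≃ᵢ Eu n)
    (h : ∀ x ∈ A, γ x ∈ B) : Le' (ind A) (ind B) := by
  refine ⟨ind (γ '' A), ?_, 1, fun _ => A, fun _ => γ, fun _ => hA, ?_, ?_⟩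
  · intro x
    unfold ind
    by_cases hx : x ∈ γ '' A
    · obtain ⟨y, hy, rfl⟩ := hx
      rw [indicator_of_mem (h y hy)]
      exact indicator_le' (fun _ _ => le_rfl) (fun _ _ => Nat.zero_le _) _
    · rw [indicator_of_notMem hx]
      exact Nat.zero_le _
  · intro x
    simp [ind]
  · intro x
    simp [ind]

/-- Cut `X ∩ closedBall 0 R` into finitely many small cells, translate all of them into
`closedBall c δ` (the images overlap at most `k` times). -/
theorem cells_cover {n : ℕ} (R : ℝ) (c : Eu n) (δ : ℝ) (hδ : 0 < δ) :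
    ∃ (k : ℕ) (Ξ : Finset (Eu n ≃ᵢ Eu n)), ∀ X : Set (Eu n), MeasurableSet X →
      (∀ ξ ∈ Ξ, ξ '' X = X) →
      Le' (ind (X ∩ Metric.closedBall 0 R)) (fun x => k * ind (X ∩ Metric.closedBall c δ) x) := by
  classical
  obtain ⟨t, -, htfin, hcov⟩ := (isCompact_closedBall (0 : Eu n) R).finite_cover_balls hδ
  set T : Finset (Eu n) := htfin.toFinset with hT
  refine ⟨T.card, T.image (fun p => IsometryEquiv.addRight (c - p)), fun X hX hinv => ?_⟩
  have h1 : Le' (ind (X ∩ Metric.closedBall 0 R))
      (fun x => ∑ p ∈ T, ind (X ∩ Metric.closedBall p δ) x) := by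
    refine Le'_of_le (K := 1) ?_ ?_ ?_
    · exact (measurable_const.indicator (hX.inter Metric.isClosed_closedBall.measurableSet))
    · intro x
      exact indicator_le' (fun _ _ => le_rfl) (fun _ _ => Nat.zero_le _) _
    · intro x
      by_cases hx : x ∈ X ∩ Metric.closedBall 0 R
      · have hxc := hcov hx.2
        rw [mem_iUnion₂] at hxc
        obtain ⟨p, hp, hxp⟩ := hxc
        have hpT : p ∈ T := htfin.mem_toFinset.mpr hp
        have h2 : ind (X ∩ Metric.closedBall p δ) x = 1 :=
          indicator_of_mem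
            (show x ∈ X ∩ Metric.closedBall p δ from ⟨hx.1, Metric.ball_subset_closedBall hxp⟩) _
        have h3 : ind (X ∩ Metric.closedBall 0 R) x = 1 := indicator_of_mem hx _
        rw [h3, ← h2]
        exact Finset.single_le_sum (f := fun p => ind (X ∩ Metric.closedBall p δ) x)
          (fun _ _ => Nat.zero_le _) hpT
      · have h3 : ind (X ∩ Metric.closedBall 0 R) x = 0 := indicator_of_notMem hx _
        rw [h3]
        exact Nat.zero_le _
  have h2 : Le' (fun x => ∑ p ∈ T, ind (X ∩ Metric.closedBall p δ) x)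
      (fun x => ∑ p ∈ T, ind (X ∩ Metric.closedBall c δ) x) := by
    refine Le'_sum T (fun p => ind (X ∩ Metric.closedBall p δ))
      (fun _ => ind (X ∩ Metric.closedBall c δ)) fun p hp => ?_
    refine C_Cells_single _ _ (hX.inter Metric.isClosed_closedBall.measurableSet)
      (IsometryEquiv.addRight (c - p)) ?_
    intro x hx
    constructor
    · have := hinv (IsometryEquiv.addRight (c - p))
        (Finset.mem_image_of_mem (fun p => IsometryEquiv.addRight (c - p)) hp)
      rw [← this]
      exact mem_image_of_mem _ hx.1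
    · have hx2 := hx.2
      rw [Metric.mem_closedBall, dist_eq_norm] at hx2 ⊢
      have : (IsometryEquiv.addRight (c - p)) x - c = x - p := by
        rw [IsometryEquiv.addRight_apply]
        abel
      rw [this]
      exact hx2
  refine Le'_trans h1 (Le'_mono h2 fun x => ?_)
  rw [Finset.sum_const, smul_eq_mul]

/-- Translate the balls `closedBall (p j) (r j)` into the disjoint balls `ball (c j) δ`. -/
theorem pack {n k : ℕ} (c p : Fin k → Eu n) (δ : ℝ) (r : Fin k → ℝ) (hr : ∀ j, r j < δ)
    (O : Set (Eu n)) (hO : MeasurableSet O) (hball : ∀ j, Metric.ball (c j) δ ⊆ O)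
    (hdisj : Pairwise (fun j j' => Disjoint (Metric.ball (c j) δ) (Metric.ball (c j') δ)))
    (X : Set (Eu n)) (hX : MeasurableSet X) (hinv : ∀ j x, x ∈ X → x + (c j - p j) ∈ X) :
    Le' (fun x => ∑ j, ind (X ∩ Metric.closedBall (p j) (r j)) x) (ind (X ∩ O)) := by
  have h1 : Le' (fun x => ∑ j, ind (X ∩ Metric.closedBall (p j) (r j)) x)
      (fun x => ∑ j, ind (X ∩ Metric.ball (c j) δ) x) := by
    refine Le'_sum Finset.univ (fun j => ind (X ∩ Metric.closedBall (p j) (r j)))
      (fun j => ind (X ∩ Metric.ball (c j) δ)) fun j _ => ?_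
    refine C_Cells_single _ _ (hX.inter Metric.isClosed_closedBall.measurableSet)
      (IsometryEquiv.addRight (c j - p j)) ?_
    intro x hx
    rw [IsometryEquiv.addRight_apply]
    constructor
    · exact hinv j x hx.1
    · have hx2 := hx.2
      rw [Metric.mem_closedBall, dist_eq_norm] at hx2
      rw [Metric.mem_ball, dist_eq_norm]
      have : x + (c j - p j) - c j = x - p j := by abel
      rw [this]
      exact lt_of_le_of_lt hx2 (hr j)
  refine Le'_mono h1 fun x => ?_
  by_cases hx : ∃ j, x ∈ X ∩ Metric.ball (c j) δ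
  · obtain ⟨j, hj⟩ := hx
    have h2 : ind (X ∩ O) x = 1 := indicator_of_mem (show x ∈ X ∩ O from ⟨hj.1, hball j hj.2⟩) _
    have h3 : ∑ i, ind (X ∩ Metric.ball (c i) δ) x = ind (X ∩ Metric.ball (c j) δ) x := by
      refine Finset.sum_eq_single j (fun i _ hij => ?_) (fun h => absurd (Finset.mem_univ j) h)
      refine indicator_of_notMem (fun hi => ?_) _
      exact (Set.disjoint_left.mp (hdisj hij) hi.2) hj.2
    rw [h2, h3]
    exact indicator_le' (fun _ _ => le_rfl) (fun _ _ => Nat.zero_le _) _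
  · push Not at hx
    have h3 : ∑ i, ind (X ∩ Metric.ball (c i) δ) x = 0 :=
      Finset.sum_eq_zero fun i _ => indicator_of_notMem (hx i) _
    rw [h3]
    exact Nat.zero_le _

end BorelEq
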