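import Pool.Agent.Lib.MP_75103d_lc.C_Lay

/-! (C1) algebra of Dec. -/

set_option autoImplicit false

open MeasureTheory Set
open scoped ENNReal

namespace BorelEq

theorem C_Dec1_meas_image {n : ℕ} (γ : Eu n ≃ᵢ Eu n) {P : Set (Eu n)} (hP : MeasurableSet P) :
    MeasurableSet (γ '' P) :=
  γ.toHomeomorph.toMeasurableEquiv.measurableSet_image.2 hP

theorem C_Dec1_ind_image {n : ℕ} (γ : Eu n ≃ᵢ Eu n) (P : Set (Eu n)) (y : Eu n) :
    (γ '' P).indicator (fun _ => (1 : ℕ)) y = P.indicator (fun _ => (1 : ℕ)) (γ.symm y) := by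
  classical
  have : y ∈ γ '' P ↔ γ.symm y ∈ P := by
    constructor
    · rintro ⟨x, hx, rfl⟩
      simpa using hx
    · intro h
      exact ⟨γ.symm y, h, by simp⟩
  by_cases h : γ.symm y ∈ P
  · rw [indicator_of_mem (this.2 h), indicator_of_mem h]
  · rw [indicator_of_notMem (fun h' => h (this.1 h')), indicator_of_notMem h]

theorem C_Dec1_ind_image' {n : ℕ} (γ : Eu n ≃ᵢ Eu n) (P : Set (Eu n)) (x : Eu n) :
    (γ '' P).indicator (fun _ => (1 : ℕ)) (γ x) = P.indicator (fun _ => (1 : ℕ)) x := by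
  rw [C_Dec1_ind_image]; simp

/-- `Dec` from an arbitrary finite index type. -/
theorem Dec_of_fintype {n : ℕ} {J : Type} [Fintype J] {f g : Eu n → ℕ} (P : J → Set (Eu n))
    (γ : J → (Eu n ≃ᵢ Eu n)) (hP : ∀ a, MeasurableSet (P a))
    (hf : ∀ x, f x = ∑ a, (P a).indicator (fun _ => 1) x)
    (hg : ∀ x, g x = ∑ a, (γ a '' P a).indicator (fun _ => 1) x) : Dec f g := by
  classical
  let e := (Fintype.equivFin J)
  refine ⟨Fintype.card J, fun i => P (e.symm i), fun i => γ (e.symm i), fun i => hP _, ?_, ?_⟩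
  · intro x
    rw [hf x]
    exact (Equiv.sum_comp e.symm (fun a => (P a).indicator (fun _ => (1 : ℕ)) x)).symm
  · intro x
    rw [hg x]
    exact (Equiv.sum_comp e.symm (fun a => (γ a '' P a).indicator (fun _ => (1 : ℕ)) x)).symm

theorem Dec_refl {n : ℕ} {f : Eu n → ℕ} (hf : Measurable f) (K : ℕ) (hK : ∀ x, f x ≤ K) : Dec f f := by
  classical
  have key : ∀ x, f x = ∑ a : Fin K, ({y : Eu n | (a : ℕ) < f y}).indicator (fun _ => (1 : ℕ)) x := by
    intro x
    have h1 : ∀ a : Fin K, ({y : Eu n | (a : ℕ) < f y}).indicator (fun _ => (1 : ℕ)) x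
        = if (a : ℕ) < f x then 1 else 0 := fun a => by
      simp [indicator_apply]
    rw [Finset.sum_congr rfl (fun a _ => h1 a)]
    rw [Fin.sum_univ_eq_sum_range (fun a => if a < f x then 1 else 0) K]
    rw [Finset.sum_ite, Finset.sum_const_zero, add_zero, Finset.sum_const, smul_eq_mul, mul_one]
    have : (Finset.range K).filter (fun a => a < f x) = Finset.range (f x) := by
      ext a
      simp only [Finset.mem_filter, Finset.mem_range]
      exact ⟨fun h => h.2, fun h => ⟨lt_of_lt_of_le h (hK x), h⟩⟩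
    rw [this, Finset.card_range]
  refine ⟨K, fun a => {y | (a : ℕ) < f y}, fun _ => IsometryEquiv.refl _, ?_, key, ?_⟩
  · intro a
    exact hf (measurableSet_Ioi : MeasurableSet (Ioi (a : ℕ)))
  · intro x
    rw [key x]
    refine Finset.sum_congr rfl (fun a _ => ?_)
    rw [C_Dec1_ind_image]
    rfl

theorem Dec_symm {n : ℕ} {f g : Eu n → ℕ} (h : Dec f g) : Dec g f := by
  obtain ⟨m, P, γ, hP, hf, hg⟩ := h
  refine ⟨m, fun a => γ a '' P a, fun a => (γ a).symm, fun a => C_Dec1_meas_image _ (hP a), hg, ?_⟩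
  intro x
  rw [hf x]
  refine Finset.sum_congr rfl (fun a _ => ?_)
  have : (γ a).symm '' (γ a '' P a) = P a := by
    rw [← image_comp]
    have : ((γ a).symm : Eu n → Eu n) ∘ (γ a) = id := by
      funext y; simp
    rw [this, image_id]
  rw [this]

theorem Dec_add {n : ℕ} {f g f' g' : Eu n → ℕ} (h : Dec f g) (h' : Dec f' g') :
    Dec (fun x => f x + f' x) (fun x => g x + g' x) := by
  obtain ⟨m, P, γ, hP, hf, hg⟩ := h
  obtain ⟨m', P', γ', hP', hf', hg'⟩ := h'
  refine Dec_of_fintype (J := Fin m ⊕ Fin m') (Sum.elim P P') (Sum.elim γ γ') ?_ ?_ ?_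
  · rintro (a | a)
    · exact hP a
    · exact hP' a
  · intro x
    simp only [Fintype.sum_sum_type, Sum.elim_inl, Sum.elim_inr]
    rw [hf, hf']
  · intro x
    simp only [Fintype.sum_sum_type, Sum.elim_inl, Sum.elim_inr]
    rw [hg, hg']

theorem Dec_meas_left {n : ℕ} {f g : Eu n → ℕ} (h : Dec f g) : Measurable f := by
  obtain ⟨m, P, γ, hP, hf, hg⟩ := h
  have : f = fun x => ∑ a, (P a).indicator (fun _ => (1 : ℕ)) x := funext hf
  rw [this]
  exact measurable_layers P hP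

theorem Dec_bdd_left {n : ℕ} {f g : Eu n → ℕ} (h : Dec f g) : ∃ K, ∀ x, f x ≤ K := by
  classical
  obtain ⟨m, P, γ, hP, hf, hg⟩ := h
  refine ⟨m, fun x => ?_⟩
  rw [hf x]
  calc ∑ a, (P a).indicator (fun _ => (1 : ℕ)) x ≤ ∑ _a : Fin m, 1 := by
        refine Finset.sum_le_sum (fun a _ => ?_)
        rw [indicator_apply]; split_ifs <;> omega
    _ = m := by simp

theorem Dec_trans {n : ℕ} {f g h : Eu n → ℕ} (h1 : Dec f g) (h2 : Dec g h) : Dec f h := by
  obtain ⟨m, P, γ, hP, hf, hg⟩ := h1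
  obtain ⟨k, Q, δ, hQ, hg', hh⟩ := h2
  obtain ⟨R, hR, hR1, hR2⟩ := refine_layers (fun a => γ a '' P a) Q
    (fun a => C_Dec1_meas_image _ (hP a)) hQ (fun z => by rw [← hg z, hg' z])
  refine Dec_of_fintype (J := Fin m × Fin k) (fun q => (γ q.1).symm '' (R q.1 q.2))
    (fun q => (γ q.1).trans (δ q.2)) (fun q => C_Dec1_meas_image _ (hR _ _)) ?_ ?_
  · intro x
    rw [hf x, Fintype.sum_prod_type]
    refine Finset.sum_congr rfl (fun a _ => ?_)
    have h3 : ∀ b, ((γ a).symm '' (R a b)).indicator (fun _ => (1 : ℕ)) x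
        = (R a b).indicator (fun _ => (1 : ℕ)) (γ a x) := fun b => by
      rw [C_Dec1_ind_image]; rfl
    simp only [h3]
    rw [hR1 a (γ a x), C_Dec1_ind_image']
  · intro x
    rw [hh x, Fintype.sum_prod_type_right]
    refine Finset.sum_congr rfl (fun b _ => ?_)
    have h3 : ∀ a, (((γ a).trans (δ b)) '' ((γ a).symm '' (R a b))).indicator (fun _ => (1 : ℕ)) x
        = (R a b).indicator (fun _ => (1 : ℕ)) ((δ b).symm x) := fun a => by
      rw [C_Dec1_ind_image, C_Dec1_ind_image]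
      simp
    simp only [h3]
    rw [hR2 b, C_Dec1_ind_image]

theorem Dec_restrict {n : ℕ} {g h g' : Eu n → ℕ} (h1 : Dec g h) (hg' : Measurable g')
    (hle : ∀ x, g' x ≤ g x) : ∃ h' : Eu n → ℕ, (∀ x, h' x ≤ h x) ∧ Dec g' h' := by
  classical
  obtain ⟨m, P, γ, hP, hf, hg⟩ := h1
  obtain ⟨P', hP', hPP, hs⟩ := restrict_layers P hP g' hg' (fun z => by rw [← hf z]; exact hle z)
  refine ⟨fun x => ∑ a, (γ a '' P' a).indicator (fun _ => (1 : ℕ)) x, ?_, m, P', γ, hP',
    fun x => (hs x).symm, fun x => rfl⟩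
  intro x
  rw [hg x]
  refine Finset.sum_le_sum (fun a _ => ?_)
  exact indicator_le_indicator_of_subset (image_mono (hPP a)) (fun _ => Nat.zero_le _) x

end BorelEq
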