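import Pool.Agent.Lib.MP_75103d_lc.C_Dec1

/-! (C1), (C3) algebra of Le'. -/

set_option autoImplicit false

open MeasureTheory Set
open scoped ENNReal

namespace BorelEq

theorem Le'_of_le {n : ℕ} {f g : Eu n → ℕ} (hf : Measurable f) (K : ℕ) (hK : ∀ x, f x ≤ K)
    (h : ∀ x, f x ≤ g x) : Le' f g := by
  exact ⟨f, h, Dec_refl hf K hK⟩

theorem Le'_trans {n : ℕ} {f g h : Eu n → ℕ} (h1 : Le' f g) (h2 : Le' g h) : Le' f h := by
  obtain ⟨g', hg', hd⟩ := h1
  obtain ⟨h', hh', hd'⟩ := h2
  obtain ⟨h'', hle, hd''⟩ := Dec_restrict hd' (Dec_meas_left (Dec_symm hd)) hg'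
  exact ⟨h'', fun x => (hle x).trans (hh' x), Dec_trans hd hd''⟩

theorem Le'_add {n : ℕ} {f g f' g' : Eu n → ℕ} (h : Le' f g) (h' : Le' f' g') :
    Le' (fun x => f x + f' x) (fun x => g x + g' x) := by
  obtain ⟨a, ha, hd⟩ := h
  obtain ⟨b, hb, hd'⟩ := h'
  exact ⟨fun x => a x + b x, fun x => add_le_add (ha x) (hb x), Dec_add hd hd'⟩

theorem Le'_mono {n : ℕ} {f g g' : Eu n → ℕ} (h : Le' f g) (hg : ∀ x, g x ≤ g' x) : Le' f g' := by
  obtain ⟨a, ha, hd⟩ := h
  exact ⟨a, fun x => (ha x).trans (hg x), hd⟩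

theorem Le'_sum {n : ℕ} {J : Type} (S : Finset J) (f g : J → Eu n → ℕ) (h : ∀ j ∈ S, Le' (f j) (g j)) :
    Le' (fun x => ∑ j ∈ S, f j x) (fun x => ∑ j ∈ S, g j x) := by
  classical
  induction S using Finset.induction_on with
  | empty =>
    simp only [Finset.sum_empty]
    exact Le'_of_le measurable_const 0 (fun _ => le_refl _) (fun _ => le_refl _)
  | insert a S ha ih =>
    have h1 := ih (fun j hj => h j (Finset.mem_insert_of_mem hj))
    have h2 := h a (Finset.mem_insert_self a S)
    simp only [Finset.sum_insert ha]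
    exact Le'_add h2 h1

/-- (C3) -/
theorem Le'_iterate {n : ℕ} (W : Set (Eu n)) (hW : MeasurableSet W) (T : ℕ)
    (h : Le' (fun x => (T + 1) * ind W x) (fun x => T * ind W x)) (q : ℕ) :
    Le' (fun x => q * ind W x) (fun x => T * ind W x) := by
  have hm : ∀ q : ℕ, Measurable (fun x => q * ind W x) := fun q =>
    measurable_const.mul (measurable_const.indicator hW)
  have hb : ∀ q : ℕ, ∀ x, q * ind W x ≤ q := by
    intro q x
    have h1 : ind W x ≤ 1 := by
      unfold ind
      by_cases hx : x ∈ W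
      · simp [hx]
      · simp [hx]
    calc q * ind W x ≤ q * 1 := Nat.mul_le_mul_left q h1
      _ = q := Nat.mul_one q
  induction q with
  | zero => exact Le'_of_le (hm 0) 0 (hb 0) (fun x => by simp)
  | succ q ih =>
    by_cases hq : q + 1 ≤ T
    · exact Le'_of_le (hm (q + 1)) (q + 1) (hb (q + 1)) (fun x => Nat.mul_le_mul_right _ hq)
    · obtain ⟨j, hj⟩ : ∃ j, q = T + j := ⟨q - T, by omega⟩
      have h1 := Le'_add h (Le'_of_le (hm j) j (hb j) (fun x => le_refl (j * ind W x)))
      have e1 : (fun x : Eu n => (q + 1) * ind W x)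
          = fun x => (T + 1) * ind W x + j * ind W x := by
        funext x
        rw [hj]
        ring
      have e2 : (fun x : Eu n => T * ind W x + j * ind W x) = fun x => q * ind W x := by
        funext x
        rw [hj]
        ring
      rw [e2] at h1
      rw [e1]
      exact Le'_trans h1 ih

end BorelEq
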