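import Pool.Agent.Lib.MP_75103d_lc.C_Avg

/-! (C5) scaling: homotheties, decomposition of null sets at every scale. -/

set_option autoImplicit false

open MeasureTheory Set
open scoped ENNReal

namespace BorelEq

private theorem C_Hom_toQ_smul (δ : ℝ) (v : Fin 3 → ℝ) : toQ (fun i => δ * v i) = δ • toQ v := by
  unfold toQ
  ext <;> simp

private theorem C_Hom_rotV_smul (g : UQ) (δ : ℝ) (v : Fin 3 → ℝ) (i : Fin 3) :
    rotV g (fun i => δ * v i) i = δ * rotV g v i := by
  unfold rotV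
  rw [C_Hom_toQ_smul, mul_smul_comm, smul_mul_assoc]
  unfold imQ
  fin_cases i <;> simp

theorem rotE_hom {n : ℕ} (e : Fin 3 ↪ Fin n) (p c : Eu n) (δ : ℝ) (g : UQ) (y : Eu n) :
    rotE e (c + δ • p) g (c + δ • y) = c + δ • rotE e p g y := by
  unfold rotE
  ext j
  by_cases h : ∃ i, e i = j
  · have h1 : (fun i => (c + δ • y) (e i) - (c + δ • p) (e i))
        = fun i => δ * (y (e i) - p (e i)) := by
      funext i
      simp only [PiLp.add_apply, PiLp.smul_apply, smul_eq_mul]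
      ring
    simp only [PiLp.add_apply, PiLp.smul_apply, smul_eq_mul, dif_pos h]
    rw [show (fun i => c (e i) + δ * y (e i) - (c (e i) + δ * p (e i)))
        = fun i => δ * (y (e i) - p (e i)) from by funext i; ring, C_Hom_rotV_smul]
    ring
  · simp only [PiLp.add_apply, PiLp.smul_apply, smul_eq_mul, dif_neg h]

theorem null_pull {n : ℕ} (c : Eu n) (δ : ℝ) (hδ : 0 < δ) (N : Set (Eu n)) (h0 : volume N = 0) :
    volume {y : Eu n | c + δ • y ∈ N} = 0 := by
  have h1 : {y : Eu n | c + δ • y ∈ N} = (fun y : Eu n => δ • y) ⁻¹' ((fun z => c + z) ⁻¹' N) := rfl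
  rw [h1, Measure.addHaar_preimage_smul volume hδ.ne', measure_preimage_add, h0, mul_zero]

/-- Use kernel_bounds with `R = 1` for the set `{y | c + δ • y ∈ N}`, decomp_list, and scale back. -/
theorem decomp_null (n : ℕ) (hn : 3 ≤ n) : ∃ L : List ((Fin 3 ↪ Fin n) × Eu n),
    ∀ (c : Eu n) (δ : ℝ), 0 < δ → ∀ N : Set (Eu n), MeasurableSet N →
      N ⊆ Metric.closedBall c δ → volume N = 0 →
      ∃ N' : Fin L.length → Set (Eu n), (∀ l, MeasurableSet (N' l)) ∧ (⋃ l, N' l) = N ∧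
        ∀ l x, muQ {g | rotE (L.get l).1 (c + δ • (L.get l).2) g x ∈ N' l} = 0 := by
  obtain ⟨L, b, C, _, _, hL⟩ := kernel_bounds n hn 1 one_pos
  refine ⟨L, ?_⟩
  intro c δ hδ N hN hNb h0
  set M : Set (Eu n) := {y : Eu n | c + δ • y ∈ N} with hM
  have hcont : Continuous (fun y : Eu n => c + δ • y) := by fun_prop
  have hMm : MeasurableSet M := hcont.measurable hN
  have hM0 : volume M = 0 := null_pull c δ hδ N h0
  have hMb : ∀ y, 1 < ‖y‖ → M.indicator (fun _ => (1 : ℝ≥0∞)) y = 0 := by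
    intro y hy
    refine Set.indicator_of_notMem ?_ _
    intro hyM
    have h1 := hNb hyM
    rw [Metric.mem_closedBall, dist_eq_norm, add_sub_cancel_left, norm_smul, Real.norm_eq_abs,
      abs_of_pos hδ] at h1
    nlinarith
  have hav : ∀ x, avgs L (M.indicator (fun _ => 1)) x = 0 := by
    intro x
    have h1 := (hL (M.indicator (fun _ => (1 : ℝ≥0∞)))
      (measurable_const.indicator hMm) hMb).1 x
    have h2 : ∫⁻ y, M.indicator (fun _ => (1 : ℝ≥0∞)) y = 0 := by
      rw [lintegral_indicator hMm]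
      simp [hM0]
    rw [h2, mul_zero] at h1
    exact le_antisymm h1 bot_le
  obtain ⟨M', hM'm, hM'u, hM'0⟩ := decomp_list L M hMm hav
  have hcont2 : Continuous (fun z : Eu n => δ⁻¹ • (z - c)) := by fun_prop
  refine ⟨fun l => {z | δ⁻¹ • (z - c) ∈ M' l}, fun l => hcont2.measurable (hM'm l), ?_, ?_⟩
  · ext z
    have hz : c + δ • (δ⁻¹ • (z - c)) = z := by
      rw [smul_smul, mul_inv_cancel₀ hδ.ne', one_smul, add_sub_cancel]
    constructor
    · intro h
      obtain ⟨l, hl⟩ := mem_iUnion.1 h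
      have h3 : δ⁻¹ • (z - c) ∈ M := by
        rw [← hM'u]
        exact mem_iUnion.2 ⟨l, hl⟩
      have h4 : c + δ • (δ⁻¹ • (z - c)) ∈ N := h3
      rwa [hz] at h4
    · intro h
      have h3 : δ⁻¹ • (z - c) ∈ M := by
        show c + δ • (δ⁻¹ • (z - c)) ∈ N
        rwa [hz]
      rw [← hM'u] at h3
      obtain ⟨l, hl⟩ := mem_iUnion.1 h3
      exact mem_iUnion.2 ⟨l, hl⟩
  · intro l x
    have hx : x = c + δ • (δ⁻¹ • (x - c)) := by
      rw [smul_smul, mul_inv_cancel₀ hδ.ne', one_smul, add_sub_cancel]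
    have h5 := hM'0 l (δ⁻¹ • (x - c))
    rw [← h5]
    congr 1
    ext g
    have h6 : rotE (L.get l).1 (c + δ • (L.get l).2) g x
        = c + δ • rotE (L.get l).1 (L.get l).2 g (δ⁻¹ • (x - c)) := by
      conv_lhs => rw [hx]
      exact rotE_hom _ _ _ _ _ _
    show δ⁻¹ • (rotE (L.get l).1 (c + δ • (L.get l).2) g x - c) ∈ M' l ↔ _
    rw [h6, add_sub_cancel_left, smul_smul, inv_mul_cancel₀ hδ.ne', one_smul]
    rfl

end BorelEq
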