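import Pool.Agent.Lib.MP_75103d_lc.C_One
import Pool.Agent.Lib.MP_75103d_lc.C_Hom
import Pool.Agent.Lib.MP_75103d_lc.C_Cells

/-! (C5) final assembly of the absorption. L from decomp_null, T from absorb_one; M := 1 + sum of the norms of the centres; exists_disjoint_balls for k0 = L.length * T gives delta0; delta := delta0/(M+1), c := 0; cells_cover: 1_(X inter B_R) <= k 1_N0 with N0 := X inter closedBall 0 delta null; decompose N0 = union N_l; absorb_one for (e_l, delta p_l) with q = k: k 1_(N_l) <= T 1_(X inter closedBall (delta p_l) (delta M)); sum over l (Le_sum) and pack. -/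

set_option autoImplicit false

open MeasureTheory Set
open scoped ENNReal

namespace BorelEq

theorem absorb_aux (n : ℕ) (hn : 3 ≤ n) (R : ℝ) (hR : 0 < R) (O : Set (Eu n)) (hO : IsOpen O)
    (hO' : O.Nonempty) :
    ∃ Ξ : Finset (Eu n ≃ᵢ Eu n), ∀ X : Set (Eu n), MeasurableSet X → volume X = 0 →
      (∀ ξ ∈ Ξ, ξ '' X = X) → Le' (ind (X ∩ Metric.closedBall 0 R)) (ind (X ∩ O)) := by
  classical
  obtain ⟨L, hL⟩ := decomp_null n hn
  obtain ⟨T, hT⟩ := absorb_one
  set M : ℝ := 1 + ∑ l : Fin L.length, ‖(L.get l).2‖ with hM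
  have hM1 : 1 ≤ M := by
    have : 0 ≤ ∑ l : Fin L.length, ‖(L.get l).2‖ := Finset.sum_nonneg (fun _ _ => norm_nonneg _)
    linarith
  have hMl : ∀ l : Fin L.length, 1 + ‖(L.get l).2‖ ≤ M := by
    intro l
    have := Finset.single_le_sum (f := fun l : Fin L.length => ‖(L.get l).2‖)
      (fun _ _ => norm_nonneg _) (Finset.mem_univ l)
    linarith
  obtain ⟨c0, δ0, hδ0, hball, hdisj⟩ :=
    exists_disjoint_balls (by omega) O hO hO' (L.length * T)
  set δ : ℝ := δ0 / (M + 1) with hδdef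
  have hδ : 0 < δ := div_pos hδ0 (by linarith)
  have hδM : δ * M < δ0 := by
    rw [hδdef, div_mul_eq_mul_div, div_lt_iff₀ (by linarith)]
    nlinarith
  obtain ⟨k, Ξ1, hk⟩ := cells_cover (n := n) R 0 δ hδ
  choose Ξ2 hΞ2 using fun l : Fin L.length => hT n (L.get l).1 (0 + δ • (L.get l).2)
  set p : Fin (L.length * T) → Eu n :=
    fun j => 0 + δ • (L.get (finProdFinEquiv.symm j).1).2 with hp
  set Ξ3 : Finset (Eu n ≃ᵢ Eu n) :=
    Finset.univ.image (fun j : Fin (L.length * T) => IsometryEquiv.addRight (c0 j - p j)) with hΞ3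
  refine ⟨Ξ1 ∪ (Finset.univ.biUnion Ξ2) ∪ Ξ3, ?_⟩
  intro X hX hX0 hinv
  have hinv1 : ∀ ξ ∈ Ξ1, ξ '' X = X := fun ξ hξ => hinv ξ (by simp [hξ])
  have hinv2 : ∀ l, ∀ ξ ∈ Ξ2 l, ξ '' X = X := fun l ξ hξ =>
    hinv ξ (by
      rw [Finset.mem_union, Finset.mem_union]
      exact Or.inl (Or.inr (Finset.mem_biUnion.mpr ⟨l, Finset.mem_univ l, hξ⟩)))
  have hinv3 : ∀ j x, x ∈ X → x + (c0 j - p j) ∈ X := by
    intro j x hx
    have h := hinv (IsometryEquiv.addRight (c0 j - p j)) (by
      rw [Finset.mem_union]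
      exact Or.inr (Finset.mem_image.mpr ⟨j, Finset.mem_univ j, rfl⟩))
    rw [← h]
    exact ⟨x, hx, rfl⟩
  set N0 : Set (Eu n) := X ∩ Metric.closedBall 0 δ with hN0
  have hN0m : MeasurableSet N0 := hX.inter Metric.isClosed_closedBall.measurableSet
  obtain ⟨N', hN'm, hN'u, hN'0⟩ := hL 0 δ hδ N0 hN0m inter_subset_right
    (measure_mono_null inter_subset_left hX0)
  have hN'sub : ∀ l, N' l ⊆ N0 := fun l => by rw [← hN'u]; exact subset_iUnion N' l
  -- step 1
  have s1 : Le' (ind (X ∩ Metric.closedBall 0 R)) (fun x => k * ind N0 x) := hk X hX hinv1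
  -- step 2
  have s2 : Le' (fun x => k * ind N0 x) (fun x => ∑ l : Fin L.length, k * ind (N' l) x) := by
    refine Le'_of_le ?_ k ?_ ?_
    · exact (measurable_const.indicator hN0m).const_mul k
    · intro x
      unfold ind
      by_cases hx : x ∈ N0 <;> simp [hx]
    · intro x
      by_cases hx : x ∈ N0
      · have hx' := hx
        rw [← hN'u] at hx'
        obtain ⟨l, hl⟩ := mem_iUnion.mp hx'
        calc k * ind N0 x = k * ind (N' l) x := by simp [ind, hx, hl]
          _ ≤ ∑ l : Fin L.length, k * ind (N' l) x :=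
            Finset.single_le_sum (f := fun l : Fin L.length => k * ind (N' l) x)
              (fun _ _ => Nat.zero_le _) (Finset.mem_univ l)
      · simp [ind, hx]
  -- step 3
  have s3 : Le' (fun x => ∑ l : Fin L.length, k * ind (N' l) x)
      (fun x => ∑ l : Fin L.length,
        T * ind (X ∩ Metric.closedBall (0 + δ • (L.get l).2) (δ * M)) x) := by
    refine Le'_sum Finset.univ (fun l : Fin L.length => fun x => k * ind (N' l) x)
      (fun l : Fin L.length => fun x =>
        T * ind (X ∩ Metric.closedBall (0 + δ • (L.get l).2) (δ * M)) x) ?_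
    intro l _
    refine hΞ2 l X (N' l) (δ * M) hX (hN'm l) (hinv2 l)
      ((hN'sub l).trans inter_subset_left) ?_ (hN'0 l) k
    intro x hx
    have hx1 : ‖x‖ ≤ δ := by
      have := (hN'sub l hx).2
      rwa [mem_closedBall_zero_iff] at this
    calc dist x (0 + δ • (L.get l).2) = ‖x - δ • (L.get l).2‖ := by
          rw [dist_eq_norm, zero_add]
      _ ≤ ‖x‖ + ‖δ • (L.get l).2‖ := norm_sub_le _ _
      _ = ‖x‖ + δ * ‖(L.get l).2‖ := by
          rw [norm_smul, Real.norm_of_nonneg hδ.le]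
      _ ≤ δ * (1 + ‖(L.get l).2‖) := by nlinarith
      _ ≤ δ * M := mul_le_mul_of_nonneg_left (hMl l) hδ.le
  -- step 4
  have s4 := pack c0 p δ0 (fun _ => δ * M) (fun _ => hδM) O hO.measurableSet hball hdisj X hX hinv3
  have e4 : (fun x => ∑ j : Fin (L.length * T), ind (X ∩ Metric.closedBall (p j) (δ * M)) x)
      = (fun x => ∑ l : Fin L.length,
        T * ind (X ∩ Metric.closedBall (0 + δ • (L.get l).2) (δ * M)) x) := by
    funext x
    rw [← Equiv.sum_comp finProdFinEquiv, Fintype.sum_prod_type]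
    refine Finset.sum_congr rfl (fun l _ => ?_)
    simp only [hp, Equiv.symm_apply_apply]
    rw [Finset.sum_const, Finset.card_univ, Fintype.card_fin, smul_eq_mul]
  rw [e4] at s4
  exact Le'_trans s1 (Le'_trans s2 (Le'_trans s3 s4))

end BorelEq
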