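import Pool.Agent.Lib.MP_75103d_lc.C_Dec2

/-! (C2) from a bounded Borel flow with divergence at least 1/2 to a paradoxical inequality. -/

set_option autoImplicit false

open MeasureTheory Set
open scoped ENNReal

namespace BorelEq

/-- symmetric rounding -/
noncomputable def C_Flow_rd (y : ℝ) : ℤ := if 0 ≤ y then ⌊y⌋ else -⌊-y⌋

theorem C_Flow_rd_neg (y : ℝ) : C_Flow_rd (-y) = - C_Flow_rd y := by
  unfold C_Flow_rd
  rcases lt_trichotomy y 0 with h | h | h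
  · rw [if_pos (by linarith), if_neg (by linarith)]; simp
  · subst h; simp
  · rw [if_neg (by linarith), if_pos h.le]; simp

theorem C_Flow_rd_ge (y : ℝ) : y - 1 ≤ (C_Flow_rd y : ℝ) := by
  unfold C_Flow_rd
  split_ifs with h
  · linarith [Int.lt_floor_add_one y]
  · push_cast
    linarith [Int.floor_le (-y)]

theorem C_Flow_rd_abs (y : ℝ) : ((|C_Flow_rd y| : ℤ) : ℝ) ≤ |y| := by
  unfold C_Flow_rd
  split_ifs with h
  · rw [abs_of_nonneg (Int.floor_nonneg.mpr h), abs_of_nonneg h]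
    exact Int.floor_le y
  · have h' : 0 ≤ -y := by linarith
    rw [abs_neg, abs_of_nonneg (Int.floor_nonneg.mpr h'), abs_of_neg (by linarith)]
    exact Int.floor_le (-y)

theorem C_Flow_rd_meas : Measurable C_Flow_rd := by
  unfold C_Flow_rd
  refine Measurable.ite (measurableSet_le measurable_const measurable_id) Int.measurable_floor ?_
  exact (Int.measurable_floor.comp measurable_neg).neg

/-- integral flow -/
theorem integral_flow {n d : ℕ} (K : ℝ) (W : Set (Eu n)) (γ : Fin d → (Eu n ≃ᵢ Eu n))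
    (ι : Fin d → Fin d) (ψ : Eu n → Fin d → ℝ) (hψ : ∀ i, Measurable (fun x => ψ x i))
    (hK : ∀ x i, |ψ x i| ≤ K) (ha : ∀ x i, ψ (γ i x) (ι i) = - ψ x i)
    (hdiv : ∀ x ∈ W, 1 / 2 ≤ ∑ i, ψ x i) :
    ∃ φ : Eu n → Fin d → ℤ, (∀ i, Measurable (fun x => φ x i)) ∧
      (∀ x i, |φ x i| ≤ ⌈2 * (d + 1) * K⌉) ∧ (∀ x i, φ (γ i x) (ι i) = - φ x i) ∧
      ∀ x ∈ W, 1 ≤ ∑ i, φ x i := by
  have hM : (0:ℝ) ≤ 2 * (d + 1) := by positivity
  refine ⟨fun x i => C_Flow_rd (2 * (d + 1) * ψ x i), ?_, ?_, ?_, ?_⟩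
  · intro i
    exact C_Flow_rd_meas.comp ((hψ i).const_mul _)
  · intro x i
    have h1 := C_Flow_rd_abs (2 * (d + 1) * ψ x i)
    rw [abs_mul, abs_of_nonneg hM] at h1
    have h2 : 2 * ((d:ℝ) + 1) * |ψ x i| ≤ 2 * (d + 1) * K :=
      mul_le_mul_of_nonneg_left (hK x i) hM
    have h3 : ((|C_Flow_rd (2 * (d + 1) * ψ x i)| : ℤ) : ℝ) ≤ ((⌈2 * ((d:ℝ) + 1) * K⌉ : ℤ) : ℝ) :=
      le_trans (le_trans h1 h2) (Int.le_ceil _)
    exact_mod_cast h3
  · intro x i
    simp only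
    rw [ha x i, mul_neg, C_Flow_rd_neg]
  · intro x hx
    have h1 : ∑ i, (2 * ((d:ℝ) + 1) * ψ x i - 1) ≤ ∑ i, ((C_Flow_rd (2 * (d + 1) * ψ x i) : ℤ) : ℝ) :=
      Finset.sum_le_sum (fun i _ => C_Flow_rd_ge _)
    rw [Finset.sum_sub_distrib, ← Finset.mul_sum] at h1
    simp only [Finset.sum_const, Finset.card_univ, Fintype.card_fin, nsmul_eq_mul, mul_one] at h1
    have h2 := mul_le_mul_of_nonneg_left (hdiv x hx) hM
    have h3 : (1:ℝ) ≤ ∑ i, ((C_Flow_rd (2 * (d + 1) * ψ x i) : ℤ) : ℝ) := by linarith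
    have h4 : (1:ℝ) ≤ ((∑ i, C_Flow_rd (2 * (d + 1) * ψ x i) : ℤ) : ℝ) := by
      push_cast; exact h3
    exact_mod_cast h4

theorem C_Flow_count (L : ℕ) (a : ℤ) (ha : a ≤ L) :
    ∑ c : Fin L, (if ((c:ℕ):ℤ) + 1 ≤ a then 1 else 0 : ℕ) = a.toNat := by
  rw [Fin.sum_univ_eq_sum_range (fun c => if (c:ℤ) + 1 ≤ a then 1 else 0) L]
  rw [Finset.sum_boole]
  have : (Finset.range L).filter (fun c : ℕ => (c:ℤ) + 1 ≤ a) = Finset.range a.toNat := by
    ext c
    simp only [Finset.mem_filter, Finset.mem_range]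
    omega
  rw [this]; simp

/-- the pieces which are moved by `γ i` -/
def C_Flow_mv {n d : ℕ} (W : Set (Eu n)) (φ : Eu n → Fin d → ℤ) (i : Fin d) (c : ℕ) : Set (Eu n) :=
  {x | x ∈ W ∧ (c:ℤ) + 1 ≤ φ x i}

/-- the pieces which stay -/
def C_Flow_fx {n d : ℕ} (W : Set (Eu n)) (φ : Eu n → Fin d → ℤ) (T : ℕ) (c : ℕ) : Set (Eu n) :=
  {x | x ∈ W ∧ (c:ℤ) + 1 ≤ T + 1 - ∑ i, max (φ x i) 0}

theorem C_Flow_mv_meas {n d : ℕ} {W : Set (Eu n)} (hW : MeasurableSet W) {φ : Eu n → Fin d → ℤ}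
    (hφ : ∀ i, Measurable (fun x => φ x i)) (i : Fin d) (c : ℕ) :
    MeasurableSet (C_Flow_mv W φ i c) :=
  hW.inter (measurableSet_le measurable_const (hφ i))

theorem C_Flow_fx_meas {n d : ℕ} {W : Set (Eu n)} (hW : MeasurableSet W) {φ : Eu n → Fin d → ℤ}
    (hφ : ∀ i, Measurable (fun x => φ x i)) (T : ℕ) (c : ℕ) :
    MeasurableSet (C_Flow_fx W φ T c) := by
  have h1 : Measurable (fun x => ∑ i, max (φ x i) 0) :=
    Finset.measurable_fun_sum _ (fun i _ => (hφ i).max measurable_const)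
  have h2 : Measurable (fun x => (T:ℤ) + 1 - ∑ i, max (φ x i) 0) := measurable_const.sub h1
  have h3 : MeasurableSet {x | (c:ℤ) + 1 ≤ (T:ℤ) + 1 - ∑ i, max (φ x i) 0} :=
    measurableSet_le measurable_const h2
  exact hW.inter h3

theorem C_Flow_sum_mv {n d : ℕ} {W : Set (Eu n)} {φ : Eu n → Fin d → ℤ} {L : ℕ} (i : Fin d)
    {x : Eu n} (hx : x ∈ W) (hL : φ x i ≤ L) :
    ∑ c : Fin L, (C_Flow_mv W φ i c).indicator (fun _ => (1:ℕ)) x = (φ x i).toNat := by
  rw [← C_Flow_count L (φ x i) hL]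
  refine Finset.sum_congr rfl (fun c _ => ?_)
  by_cases h : ((c:ℕ):ℤ) + 1 ≤ φ x i
  · rw [if_pos h, Set.indicator_of_mem (show x ∈ C_Flow_mv W φ i c from ⟨hx, h⟩)]
  · rw [if_neg h, Set.indicator_of_notMem (fun hh => h hh.2)]

theorem C_Flow_sum_fx {n d : ℕ} {W : Set (Eu n)} {φ : Eu n → Fin d → ℤ} {T : ℕ}
    {x : Eu n} (hx : x ∈ W) (h0 : 0 ≤ ∑ i, max (φ x i) 0) :
    ∑ c : Fin (T + 1), (C_Flow_fx W φ T c).indicator (fun _ => (1:ℕ)) x =
      ((T:ℤ) + 1 - ∑ i, max (φ x i) 0).toNat := by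
  rw [← C_Flow_count (T + 1) ((T:ℤ) + 1 - ∑ i, max (φ x i) 0) (by push_cast; linarith)]
  refine Finset.sum_congr rfl (fun c _ => ?_)
  by_cases h : ((c:ℕ):ℤ) + 1 ≤ (T:ℤ) + 1 - ∑ i, max (φ x i) 0
  · rw [if_pos h, Set.indicator_of_mem (show x ∈ C_Flow_fx W φ T c from ⟨hx, h⟩)]
  · rw [if_neg h, Set.indicator_of_notMem (fun hh => h hh.2)]

/-- (C2); `T` depends only on `d` and `K`. -/
theorem flow_Le (d : ℕ) (K : ℝ) : ∃ T : ℕ, ∀ (n : ℕ) (W : Set (Eu n)) (hW : MeasurableSet W)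
    (γ : Fin d → (Eu n ≃ᵢ Eu n)) (ι : Fin d → Fin d) (hι : ∀ i, ι (ι i) = i)
    (hinv : ∀ i x, γ (ι i) (γ i x) = x) (hWi : ∀ i x, x ∈ W → γ i x ∈ W)
    (ψ : Eu n → Fin d → ℝ) (hψ : ∀ i, Measurable (fun x => ψ x i))
    (hK : ∀ x i, |ψ x i| ≤ K) (ha : ∀ x i, ψ (γ i x) (ι i) = - ψ x i)
    (hdiv : ∀ x ∈ W, 1 / 2 ≤ ∑ i, ψ x i),
    Le' (fun x => (T + 1) * ind W x) (fun x => T * ind W x) := by
  obtain ⟨L, hLdef⟩ : ∃ L : ℕ, L = (⌈2 * ((d:ℝ) + 1) * K⌉).toNat := ⟨_, rfl⟩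
  refine ⟨d * L, ?_⟩
  intro n W hW γ ι hι hinv hWi ψ hψ hK ha hdiv
  obtain ⟨φ, hφm, hφb, hφa, hφd⟩ := integral_flow K W γ ι ψ hψ hK ha hdiv
  have hL : ∀ x i, |φ x i| ≤ L := by
    intro x i
    refine le_trans (hφb x i) ?_
    rw [hLdef]
    exact Int.self_le_toNat _
  have hLu : ∀ x i, φ x i ≤ L := fun x i => le_trans (le_abs_self _) (hL x i)
  have hS0 : ∀ x, 0 ≤ ∑ i, max (φ x i) 0 := fun x =>
    Finset.sum_nonneg (fun i _ => le_max_right _ _)
  have hST : ∀ x, ∑ i, max (φ x i) 0 ≤ ((d * L : ℕ) : ℤ) := by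
    intro x
    have : ∑ i : Fin d, max (φ x i) 0 ≤ ∑ i : Fin d, (L:ℤ) :=
      Finset.sum_le_sum (fun i _ => max_le (hLu x i) (by positivity))
    refine le_trans this ?_
    simp
  have hinv' : ∀ i x, γ i (γ (ι i) x) = x := by
    intro i x
    have := hinv (ι i) x
    rwa [hι i] at this
  -- the pieces
  let P : (Fin d × Fin L) ⊕ Fin (d * L + 1) → Set (Eu n) := fun j =>
    Sum.elim (fun p : Fin d × Fin L => C_Flow_mv W φ p.1 (p.2 : ℕ))
      (fun c : Fin (d * L + 1) => C_Flow_fx W φ (d * L) (c : ℕ)) j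
  let Γ : (Fin d × Fin L) ⊕ Fin (d * L + 1) → (Eu n ≃ᵢ Eu n) := fun j =>
    Sum.elim (fun p : Fin d × Fin L => γ p.1) (fun _ : Fin (d * L + 1) => IsometryEquiv.refl _) j
  let g' : Eu n → ℕ := fun x => ∑ j, (Γ j '' P j).indicator (fun _ => 1) x
  have himg : ∀ (i : Fin d) (c : ℕ) (x : Eu n),
      (γ i '' C_Flow_mv W φ i c).indicator (fun _ => (1:ℕ)) x =
        (C_Flow_mv W φ i c).indicator (fun _ => (1:ℕ)) (γ (ι i) x) := by
    intro i c x
    have hiff : x ∈ γ i '' C_Flow_mv W φ i c ↔ γ (ι i) x ∈ C_Flow_mv W φ i c := by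
      constructor
      · rintro ⟨y, hy, rfl⟩
        rw [hinv i y]; exact hy
      · intro h
        exact ⟨_, h, hinv' i x⟩
    by_cases h : γ (ι i) x ∈ C_Flow_mv W φ i c
    · rw [Set.indicator_of_mem (hiff.mpr h), Set.indicator_of_mem h]
    · rw [Set.indicator_of_notMem (fun hh => h (hiff.mp hh)), Set.indicator_of_notMem h]
  have hrefl : ∀ (A : Set (Eu n)), (IsometryEquiv.refl (Eu n)) '' A = A := by
    intro A
    ext y
    constructor
    · rintro ⟨z, hz, rfl⟩; exact hz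
    · intro hy; exact ⟨y, hy, rfl⟩
  have hg' : ∀ x, g' x = ∑ i, ∑ c : Fin L, (C_Flow_mv W φ i c).indicator (fun _ => (1:ℕ)) (γ (ι i) x)
      + ∑ c : Fin (d * L + 1), (C_Flow_fx W φ (d * L) c).indicator (fun _ => (1:ℕ)) x := by
    intro x
    simp only [g', P, Γ, Fintype.sum_sum_type, Sum.elim_inl, Sum.elim_inr, Fintype.sum_prod_type,
      himg, hrefl]
  refine ⟨g', ?_, ?_⟩
  · intro x
    rw [hg' x]
    by_cases hx : x ∈ W
    · have hWx : ∀ i, γ (ι i) x ∈ W := fun i => hWi _ _ hx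
      have h1 : ∀ i, ∑ c : Fin L, (C_Flow_mv W φ i c).indicator (fun _ => (1:ℕ)) (γ (ι i) x) =
          (- φ x (ι i)).toNat := by
        intro i
        rw [C_Flow_sum_mv i (hWx i) (hLu _ _)]
        congr 1
        have := hφa (γ (ι i) x) i
        rw [hinv' i x] at this
        omega
      simp only [h1]
      rw [C_Flow_sum_fx hx (hS0 x)]
      have hsum : ∑ i, (- φ x (ι i)).toNat = ∑ i, (- φ x i).toNat :=
        Equiv.sum_comp (Function.Involutive.toPerm ι hι) (fun i => (- φ x i).toNat)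
      rw [hsum]
      have hind : ind W x = 1 := by simp [ind, hx]
      rw [hind]
      have h2 := hφd x hx
      have h3 : ((∑ i, (- φ x i).toNat : ℕ) : ℤ) = ∑ i, (max (φ x i) 0 - φ x i) := by
        push_cast
        refine Finset.sum_congr rfl (fun i _ => ?_)
        rcases le_total (φ x i) 0 with h | h
        · rw [max_eq_right h]; omega
        · rw [max_eq_left h]; omega
      rw [Finset.sum_sub_distrib] at h3
      have h4 := hST x
      have h5 := hS0 x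
      zify
      rw [Int.toNat_of_nonneg (by push_cast at h4 ⊢; linarith)]
      push_cast at h3 ⊢
      linarith
    · have hWx : ∀ i, γ (ι i) x ∉ W := by
        intro i h
        apply hx
        have := hWi i _ h
        rwa [hinv' i x] at this
      have h1 : ∀ i (c : Fin L), (C_Flow_mv W φ i c).indicator (fun _ => (1:ℕ)) (γ (ι i) x) = 0 :=
        fun i c => Set.indicator_of_notMem (fun hh => hWx i hh.1) _
      have h2 : ∀ (c : Fin (d * L + 1)), (C_Flow_fx W φ (d * L) c).indicator (fun _ => (1:ℕ)) x = 0 :=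
        fun c => Set.indicator_of_notMem (fun hh => hx hh.1) _
      simp [h1, h2]
  · refine Dec_of_fintype P Γ ?_ ?_ (fun x => rfl)
    · rintro (p | c)
      · exact C_Flow_mv_meas hW hφm _ _
      · exact C_Flow_fx_meas hW hφm _ _
    · intro x
      simp only [P, Fintype.sum_sum_type, Sum.elim_inl, Sum.elim_inr, Fintype.sum_prod_type]
      by_cases hx : x ∈ W
      · have hind : ind W x = 1 := by simp [ind, hx]
        rw [hind, C_Flow_sum_fx hx (hS0 x)]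
        have h1 : ∀ i, ∑ c : Fin L, (C_Flow_mv W φ i c).indicator (fun _ => (1:ℕ)) x =
            (φ x i).toNat := fun i => C_Flow_sum_mv i hx (hLu _ _)
        simp only [h1]
        have h3 : ((∑ i, (φ x i).toNat : ℕ) : ℤ) = ∑ i, max (φ x i) 0 := by
          rw [Nat.cast_sum]
          exact Finset.sum_congr rfl (fun i _ => by omega)
        have h4 := hST x
        zify
        rw [Int.toNat_of_nonneg (by push_cast at h4 ⊢; linarith)]
        push_cast at h3 ⊢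
        linarith
      · have hind : ind W x = 0 := by simp [ind, hx]
        have h1 : ∀ i (c : Fin L), (C_Flow_mv W φ i c).indicator (fun _ => (1:ℕ)) x = 0 :=
          fun i c => Set.indicator_of_notMem (fun hh => hx hh.1) _
        have h2 : ∀ (c : Fin (d * L + 1)), (C_Flow_fx W φ (d * L) c).indicator (fun _ => (1:ℕ)) x = 0 :=
          fun c => Set.indicator_of_notMem (fun hh => hx hh.1) _
        simp [h1, h2, hind]

end BorelEq
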