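import Pool.Agent.Lib.MP_75103d_lc.IGap
import Pool.Agent.Lib.MP_75103d_lc.B_Defs

/-! (C5) SetGap from the L2 gap. -/

set_option autoImplicit false

open MeasureTheory Set
open scoped ENNReal Quaternion

namespace BorelEq

theorem setgap_of_gap {d : ℕ} (hd : 0 < d) (s : Fin d → UQ)
    (h : ∀ f : UQ → ℝ, Measurable f → (∃ C, ∀ g, |f g| ≤ C) →
        ∫ g, ((∑ i, f (s i * g)) / d - ∫ h, f h ∂muQ) ^ 2 ∂muQ ≤ (1 / 4 : ℝ) ^ 2 * ∫ g, (f g) ^ 2 ∂muQ) :
    SetGap muQ s := by
  intro A hA
  have := muQ_prob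
  set f : UQ → ℝ := A.indicator (fun _ => 1) with hf
  have hd0 : (0 : ℝ) < d := by exact_mod_cast hd
  have hfm : Measurable f := measurable_const.indicator hA
  have hf01 : ∀ g, f g = 0 ∨ f g = 1 := by
    intro g
    by_cases hg : g ∈ A
    · right; simp [hf, hg]
    · left; simp [hf, hg]
  have hfb : ∀ g, |f g| ≤ 1 := by
    intro g
    rcases hf01 g with h0 | h0 <;> rw [h0] <;> norm_num
  have hfsq : ∀ g, f g ^ 2 = f g := by
    intro g
    rcases hf01 g with h0 | h0 <;> rw [h0] <;> norm_num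
  have hint : ∀ F : UQ → ℝ, Measurable F → (∀ g, |F g| ≤ 1) → Integrable F muQ := by
    intro F hF hF1
    refine Integrable.mono' (integrable_const (1 : ℝ)) hF.aestronglyMeasurable ?_
    exact Filter.Eventually.of_forall (fun g => by rw [Real.norm_eq_abs]; exact hF1 g)
  have hfi : Integrable f muQ := hint f hfm hfb
  have hm : ∫ g, f g ∂muQ = muQ.real A := by
    rw [hf, integral_indicator_const _ hA]
    simp
  have hcomp : ∀ i, Measurable (fun g => f (s i * g)) := by
    intro i
    exact hfm.comp (muQ_left (s i)).measurable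
  -- the products
  have hprod : ∀ i, ∫ g, f g * f (s i * g) ∂muQ = muQ.real {g | g ∈ A ∧ s i * g ∈ A} := by
    intro i
    have hset : MeasurableSet {g | g ∈ A ∧ s i * g ∈ A} :=
      hA.inter ((muQ_left (s i)).measurable hA)
    have h1 : (fun g => f g * f (s i * g)) = {g | g ∈ A ∧ s i * g ∈ A}.indicator (fun _ => (1 : ℝ)) := by
      funext g
      by_cases h1 : g ∈ A <;> by_cases h2 : s i * g ∈ A <;> simp [hf, h1, h2]
    rw [h1, integral_indicator_const _ hset]
    simp
  have hprodi : ∀ i, Integrable (fun g => f g * f (s i * g)) muQ := by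
    intro i
    refine hint _ (hfm.mul (hcomp i)) ?_
    intro g
    rw [abs_mul]
    exact mul_le_one₀ (hfb g) (abs_nonneg _) (hfb _)
  set m := muQ.real A with hmdef
  have hm0 : 0 ≤ m := measureReal_nonneg
  have hm1 : m ≤ 1 := by
    rw [hmdef]; exact measureReal_le_one
  set u : UQ → ℝ := fun g => (∑ i, f (s i * g)) / d - m with hu
  have hum : Measurable u := by
    refine Measurable.sub_const ?_ _
    refine Measurable.div_const ?_ _
    exact Finset.measurable_sum _ (fun i _ => hcomp i)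
  have hub : ∀ g, |u g| ≤ 1 := by
    intro g
    have h1 : 0 ≤ (∑ i, f (s i * g)) / d := by
      apply div_nonneg _ hd0.le
      refine Finset.sum_nonneg (fun i _ => ?_)
      rcases hf01 (s i * g) with h0 | h0 <;> rw [h0]
      norm_num
    have h2 : (∑ i, f (s i * g)) / d ≤ 1 := by
      rw [div_le_one hd0]
      calc ∑ i, f (s i * g) ≤ ∑ i : Fin d, (1 : ℝ) := by
            refine Finset.sum_le_sum (fun i _ => ?_)
            exact (le_abs_self _).trans (hfb _)
        _ = d := by simp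
    rw [abs_le]
    simp only [hu]
    constructor <;> linarith
  have hui : Integrable (fun g => u g ^ 2) muQ := by
    refine hint _ (hum.pow_const 2) ?_
    intro g
    rw [abs_pow]
    exact pow_le_one₀ (abs_nonneg _) (hub g)
  have hfui : Integrable (fun g => f g * u g) muQ := by
    refine hint _ (hfm.mul hum) ?_
    intro g
    rw [abs_mul]
    exact mul_le_one₀ (hfb g) (abs_nonneg _) (hub _)
  have hkey := h f hfm ⟨1, hfb⟩
  rw [hm] at hkey
  have hkey' : ∫ g, u g ^ 2 ∂muQ ≤ (1 / 4 : ℝ) ^ 2 * m := by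
    refine hkey.trans (le_of_eq ?_)
    congr 1
    rw [← hm]
    exact integral_congr_ae (Filter.Eventually.of_forall hfsq)
  -- f u ≤ f / 8 + 2 u ^ 2
  have h1 : ∫ g, f g * u g ∂muQ ≤ m / 4 := by
    have h2 : ∫ g, f g * u g ∂muQ ≤ ∫ g, ((1 / 8) * f g + 2 * u g ^ 2) ∂muQ := by
      refine integral_mono hfui ((hfi.const_mul _).add (hui.const_mul _)) ?_
      intro g
      have := hfsq g
      simp only
      nlinarith [sq_nonneg (f g - 4 * u g)]
    rw [integral_add (hfi.const_mul _) (hui.const_mul _), integral_const_mul, integral_const_mul,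
      hm] at h2
    linarith
  have h2 : ∑ i, muQ.real {g | g ∈ A ∧ s i * g ∈ A} = d * (∫ g, f g * u g ∂muQ + m ^ 2) := by
    have h3 : ∫ g, f g * u g ∂muQ = (∑ i, ∫ g, f g * f (s i * g) ∂muQ) / d - m * m := by
      have h4 : ∀ g, f g * u g = (∑ i, f g * f (s i * g)) / d - m * f g := by
        intro g
        simp only [hu]
        rw [← Finset.mul_sum]
        ring
      rw [integral_congr_ae (Filter.Eventually.of_forall h4), integral_sub, integral_div,
        integral_finsetSum _ (fun i _ => hprodi i), integral_const_mul, hm]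
      · exact (integrable_finsetSum _ (fun i _ => hprodi i)).div_const _
      · exact hfi.const_mul _
    rw [h3, Finset.sum_congr rfl (fun i _ => hprod i)]
    field_simp
    ring
  rw [h2]
  apply mul_le_mul_of_nonneg_left _ hd0.le
  linarith

theorem C_Gap_cont : Continuous nrmQ := by
  unfold nrmQ
  fun_prop

theorem nrmQ_meas : Measurable nrmQ := C_Gap_cont.measurable

theorem nrmQ_conj (s g : UQ) : nrmQ (s * g * s⁻¹) = nrmQ g := by
  unfold nrmQ
  have hs : ‖(s : ℍ[ℝ])‖ = 1 := norm_eq_of_mem_sphere s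
  have hs0 : (s : ℍ[ℝ]) ≠ 0 := by
    intro h0
    rw [h0, norm_zero] at hs
    norm_num at hs
  have h1 : ((s * g * s⁻¹ : UQ) : ℍ[ℝ]) - 1 = s * ((g : ℍ[ℝ]) - 1) * (s : ℍ[ℝ])⁻¹ := by
    have h2 : ((s * g * s⁻¹ : UQ) : ℍ[ℝ]) = s * g * (s : ℍ[ℝ])⁻¹ := rfl
    rw [h2, mul_sub, sub_mul, mul_one, mul_inv_cancel₀ hs0]
  rw [h1, norm_mul, norm_mul, norm_inv, hs]
  simp

theorem nrmQ_pos (δ : ℝ) (hδ : 0 < δ) : muQ {g | nrmQ g < δ} ≠ 0 := by
  obtain ⟨c, hc, h⟩ := muQ_ball
  have h1 := h (min δ 1) (lt_min hδ one_pos) (min_le_right _ _)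
  have h2 : 0 < c * (min δ 1) ^ 3 := by
    have : 0 < min δ 1 := lt_min hδ one_pos
    positivity
  intro h0
  have h3 : muQ {g : UQ | nrmQ g < min δ 1} = 0 := by
    refine measure_mono_null ?_ h0
    intro g hg
    have hg' : nrmQ g < min δ 1 := hg
    exact lt_of_lt_of_le hg' (min_le_left _ _)
  rw [h3] at h1
  simp only [ENNReal.toReal_zero] at h1
  linarith

theorem UQ_measurable_mul : MeasurableMul₂ UQ := by
  have h1 : ProperSpace ℍ[ℝ] := FiniteDimensional.proper_real ℍ[ℝ]
  have h2 : SecondCountableTopology ℍ[ℝ] := inferInstance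
  infer_instance

theorem UQ_measurable_inv : MeasurableInv UQ := by
  infer_instance

end BorelEq
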