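import Pool.Agent.Lib.MP_75103d_lc.Defs

/-! (C1) layers: common refinement and restriction of finite families of sets (any measurable space). -/

set_option autoImplicit false

open MeasureTheory Set
open scoped ENNReal

namespace BorelEq

open Classical in
/-- number of indices below `b` with property `q` -/
noncomputable def C_Lay_rk {k : ℕ} (q : Fin k → Prop) (b : Fin k) : ℕ :=
  ∑ b', if b' < b ∧ q b' then 1 else 0

open Classical in
/-- number of indices with property `q` -/
noncomputable def C_Lay_tot {k : ℕ} (q : Fin k → Prop) : ℕ :=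
  ∑ b, if q b then 1 else 0

theorem C_Lay_rk_castSucc {k : ℕ} (q : Fin (k + 1) → Prop) (b : Fin k) :
    C_Lay_rk q b.castSucc = C_Lay_rk (fun i => q i.castSucc) b := by
  classical
  unfold C_Lay_rk
  rw [Fin.sum_univ_castSucc]
  have h : ¬ (Fin.last k < b.castSucc) := not_lt.mpr (Fin.le_last _)
  simp only [h, false_and, if_false, add_zero, Fin.castSucc_lt_castSucc_iff]

theorem C_Lay_rk_last {k : ℕ} (q : Fin (k + 1) → Prop) :
    C_Lay_rk q (Fin.last k) = C_Lay_tot (fun i => q i.castSucc) := by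
  classical
  unfold C_Lay_rk C_Lay_tot
  rw [Fin.sum_univ_castSucc]
  simp only [lt_irrefl, false_and, if_false, add_zero, Fin.castSucc_lt_last, true_and]

theorem C_Lay_tot_succ {k : ℕ} (q : Fin (k + 1) → Prop) [Decidable (q (Fin.last k))] :
    C_Lay_tot q = C_Lay_tot (fun i => q i.castSucc) + if q (Fin.last k) then 1 else 0 := by
  classical
  unfold C_Lay_tot
  rw [Fin.sum_univ_castSucc]
  congr 1
  by_cases h : q (Fin.last k) <;> simp [h]

open Classical in
theorem C_Lay_eq {k : ℕ} (q : Fin k → Prop) (r : ℕ) :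
    ∑ b, (if q b ∧ C_Lay_rk q b = r then 1 else 0) = if r < C_Lay_tot q then 1 else 0 := by
  induction k with
  | zero => simp [C_Lay_tot]
  | succ k ih =>
    rw [Fin.sum_univ_castSucc, C_Lay_tot_succ]
    simp only [C_Lay_rk_castSucc, C_Lay_rk_last]
    rw [ih]
    by_cases h : q (Fin.last k)
    · simp only [h, true_and, if_true]
      by_cases h1 : r < C_Lay_tot (fun i => q i.castSucc)
      · rw [if_pos h1, if_neg (by omega), if_pos (by omega)]
      · by_cases h2 : C_Lay_tot (fun i => q i.castSucc) = r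
        · rw [if_neg h1, if_pos h2, if_pos (by omega)]
        · rw [if_neg h1, if_neg h2, if_neg (by omega)]
    · simp only [h, false_and, if_false, add_zero]

open Classical in
theorem C_Lay_lt {k : ℕ} (q : Fin k → Prop) (r : ℕ) :
    ∑ b, (if q b ∧ C_Lay_rk q b < r then 1 else 0) = min r (C_Lay_tot q) := by
  induction k with
  | zero => simp [C_Lay_tot]
  | succ k ih =>
    rw [Fin.sum_univ_castSucc, C_Lay_tot_succ]
    simp only [C_Lay_rk_castSucc, C_Lay_rk_last]
    rw [ih]
    by_cases h : q (Fin.last k)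
    · simp only [h, true_and, if_true]
      by_cases h1 : C_Lay_tot (fun i => q i.castSucc) < r
      · rw [if_pos h1]; omega
      · rw [if_neg h1]; omega
    · simp only [h, false_and, if_false, add_zero]

theorem C_Lay_rk_lt {k : ℕ} (q : Fin k → Prop) (b : Fin k) (hb : q b) :
    C_Lay_rk q b < C_Lay_tot q := by
  classical
  have h := C_Lay_eq q (C_Lay_rk q b)
  by_contra hc
  rw [if_neg hc, Finset.sum_eq_zero_iff] at h
  have := h b (Finset.mem_univ b)
  simp [hb] at this

theorem C_Lay_ite {p q : Prop} {_ : Decidable p} {_ : Decidable q} (h : p ↔ q) :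
    (if p then (1 : ℕ) else 0) = if q then 1 else 0 := by
  by_cases hp : p
  · rw [if_pos hp, if_pos (h.mp hp)]
  · rw [if_neg hp, if_neg (fun hq => hp (h.mpr hq))]

open Classical in
theorem C_Lay_ind {Z : Type*} (A : Set Z) (z : Z) :
    A.indicator (fun _ => (1 : ℕ)) z = if z ∈ A then 1 else 0 := by
  by_cases h : z ∈ A <;> simp [h]

theorem C_Lay_tot_eq {Z : Type*} {m : ℕ} (P : Fin m → Set Z) (z : Z) :
    ∑ a, (P a).indicator (fun _ => (1 : ℕ)) z = C_Lay_tot (fun a => z ∈ P a) := by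
  classical
  unfold C_Lay_tot
  exact Finset.sum_congr rfl fun a _ => C_Lay_ind _ _

theorem C_Lay_rk_eq {Z : Type*} {m : ℕ} (P : Fin m → Set Z) (a : Fin m) (z : Z) :
    C_Lay_rk (fun a => z ∈ P a) a =
      ∑ a' ∈ Finset.univ.filter (fun a' => a' < a), (P a').indicator (fun _ => (1 : ℕ)) z := by
  classical
  unfold C_Lay_rk
  rw [Finset.sum_filter]
  refine Finset.sum_congr rfl fun a' _ => ?_
  rw [C_Lay_ind]
  by_cases h : a' < a <;> simp [h]

theorem C_Lay_rk_meas {Z : Type*} [MeasurableSpace Z] {m : ℕ} (P : Fin m → Set Z)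
    (hP : ∀ a, MeasurableSet (P a)) (a : Fin m) :
    Measurable (fun z => C_Lay_rk (fun a => z ∈ P a) a) := by
  simp only [C_Lay_rk_eq]
  exact Finset.measurable_fun_sum _ fun a' _ => measurable_const.indicator (hP a')

/-- Common refinement of two families of measurable sets with the same sum of indicators: match ranks. -/
theorem refine_layers {Z : Type*} [MeasurableSpace Z] {m k : ℕ} (P : Fin m → Set Z) (Q : Fin k → Set Z)
    (hP : ∀ a, MeasurableSet (P a)) (hQ : ∀ b, MeasurableSet (Q b))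
    (h : ∀ z, ∑ a, (P a).indicator (fun _ => (1 : ℕ)) z = ∑ b, (Q b).indicator (fun _ => (1 : ℕ)) z) :
    ∃ R : Fin m → Fin k → Set Z, (∀ a b, MeasurableSet (R a b)) ∧
      (∀ a z, ∑ b, (R a b).indicator (fun _ => (1 : ℕ)) z = (P a).indicator (fun _ => (1 : ℕ)) z) ∧
      (∀ b z, ∑ a, (R a b).indicator (fun _ => (1 : ℕ)) z = (Q b).indicator (fun _ => (1 : ℕ)) z) := by
  classical
  have htot : ∀ z, C_Lay_tot (fun a => z ∈ P a) = C_Lay_tot (fun b => z ∈ Q b) := by
    intro z
    rw [← C_Lay_tot_eq, ← C_Lay_tot_eq, h z]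
  refine ⟨fun a b => P a ∩ Q b ∩ {z | C_Lay_rk (fun a => z ∈ P a) a = C_Lay_rk (fun b => z ∈ Q b) b},
    ?_, ?_, ?_⟩
  · intro a b
    exact ((hP a).inter (hQ b)).inter
      (measurableSet_eq_fun (C_Lay_rk_meas P hP a) (C_Lay_rk_meas Q hQ b))
  · intro a z
    simp only [C_Lay_ind]
    by_cases hz : z ∈ P a
    · have h1 := C_Lay_eq (fun b => z ∈ Q b) (C_Lay_rk (fun a => z ∈ P a) a)
      rw [if_pos (by rw [← htot]; exact C_Lay_rk_lt (fun a => z ∈ P a) a hz)] at h1
      rw [if_pos hz]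
      refine Eq.trans ?_ h1
      refine Finset.sum_congr rfl fun b _ => ?_
      refine C_Lay_ite ?_
      constructor
      · rintro ⟨⟨_, h2⟩, h3⟩
        exact ⟨h2, h3.symm⟩
      · rintro ⟨h2, h3⟩
        exact ⟨⟨hz, h2⟩, h3.symm⟩
    · rw [if_neg hz]
      refine Finset.sum_eq_zero fun b _ => if_neg ?_
      rintro ⟨⟨h2, _⟩, _⟩
      exact hz h2
  · intro b z
    simp only [C_Lay_ind]
    by_cases hz : z ∈ Q b
    · have h1 := C_Lay_eq (fun a => z ∈ P a) (C_Lay_rk (fun b => z ∈ Q b) b)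
      rw [if_pos (by rw [htot]; exact C_Lay_rk_lt (fun b => z ∈ Q b) b hz)] at h1
      rw [if_pos hz]
      refine Eq.trans ?_ h1
      refine Finset.sum_congr rfl fun a _ => ?_
      refine C_Lay_ite ?_
      constructor
      · rintro ⟨⟨h2, _⟩, h3⟩
        exact ⟨h2, h3⟩
      · rintro ⟨h2, h3⟩
        exact ⟨⟨h2, hz⟩, h3⟩
    · rw [if_neg hz]
      refine Finset.sum_eq_zero fun a _ => if_neg ?_
      rintro ⟨⟨_, h2⟩, _⟩
      exact hz h2

/-- Restriction: keep only the first `g z` sets containing `z`. -/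
theorem restrict_layers {Z : Type*} [MeasurableSpace Z] {m : ℕ} (P : Fin m → Set Z)
    (hP : ∀ a, MeasurableSet (P a)) (g : Z → ℕ) (hg : Measurable g)
    (h : ∀ z, g z ≤ ∑ a, (P a).indicator (fun _ => (1 : ℕ)) z) :
    ∃ P' : Fin m → Set Z, (∀ a, MeasurableSet (P' a)) ∧ (∀ a, P' a ⊆ P a) ∧
      ∀ z, ∑ a, (P' a).indicator (fun _ => (1 : ℕ)) z = g z := by
  classical
  refine ⟨fun a => P a ∩ {z | C_Lay_rk (fun a => z ∈ P a) a < g z}, ?_, ?_, ?_⟩
  · intro a
    exact (hP a).inter (measurableSet_lt (C_Lay_rk_meas P hP a) hg)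
  · intro a
    exact inter_subset_left
  · intro z
    have h1 := C_Lay_lt (fun a => z ∈ P a) (g z)
    rw [← C_Lay_tot_eq, min_eq_left (h z)] at h1
    simp only [C_Lay_ind]
    refine Eq.trans ?_ h1
    exact Finset.sum_congr rfl fun a _ => C_Lay_ite Iff.rfl

theorem measurable_layers {Z : Type*} [MeasurableSpace Z] {m : ℕ} (P : Fin m → Set Z)
    (hP : ∀ a, MeasurableSet (P a)) :
    Measurable (fun z => ∑ a, (P a).indicator (fun _ => (1 : ℕ)) z) :=
  Finset.measurable_fun_sum _ fun a _ => measurable_const.indicator (hP a)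

end BorelEq
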