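import Pool.Agent.Lib.MP_75103d_lc.G_RotE

/-! Part (G): isometries preserve the volume. (The other statements of the first version of this
file are in G_RotE.) -/

set_option autoImplicit false

open MeasureTheory Set
open scoped ENNReal Quaternion

namespace BorelEq

/-- isometries preserve the volume -/
theorem isom_mp {n : ℕ} (γ : Eu n ≃ᵢ Eu n) : MeasurePreserving γ volume volume := by
  have h1 : (γ : Eu n → Eu n) = (fun y => y + γ 0) ∘ γ.toRealLinearIsometryEquiv := by
    funext x
    simp
  rw [h1]
  exact (measurePreserving_add_right volume (γ 0)).comp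
    (LinearIsometryEquiv.measurePreserving γ.toRealLinearIsometryEquiv)

theorem rotE_mp {n : ℕ} (e : Fin 3 ↪ Fin n) (p : Eu n) (g : UQ) :
    MeasurePreserving (rotE e p g) volume volume := by
  obtain ⟨γ, hγ⟩ := rotE_isom e p g
  have h1 : rotE e p g = γ := funext fun x => (hγ x).symm
  rw [h1]
  exact isom_mp γ

end BorelEq
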