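import Pool.Agent.Lib.MP_75103d_lc.G_Ind
import Pool.Agent.Lib.MP_75103d_lc.G_Rot3

/-! Interface of part (G): random rotations of three coordinates.

* `toQ`, `imQ`, `rotV`, `rotE` are defined in `G_Defs`.
* `rotE_one`, `rotE_mul`, `rotE_meas`, `rotE_dist`, `rotE_center`, `rotE_lip`, `rotE_isom` are in
  `G_RotE`; `rotA`, `avg`, `avgs` in `G_Act`; `isom_mp`, `rotE_mp` in `G_Rot3`. -/

set_option autoImplicit false

open MeasureTheory Set
open scoped ENNReal Quaternion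

namespace BorelEq

/-- (G4) kernel bounds. -/
theorem kernel_bounds (n : ℕ) (hn : 3 ≤ n) (R : ℝ) (hR : 0 < R) :
    ∃ (L : List ((Fin 3 ↪ Fin n) × Eu n)) (b C : ℝ), 0 < b ∧ 0 < C ∧
      ∀ f : Eu n → ℝ≥0∞, Measurable f → (∀ x, R < ‖x‖ → f x = 0) →
        (∀ x, avgs L f x ≤ ENNReal.ofReal C * ∫⁻ y, f y) ∧
        (∀ x, ‖x‖ ≤ R → ENNReal.ofReal b * ∫⁻ y, f y ≤ avgs L f x) :=
  kernel_bounds_aux n hn R hR

end BorelEq
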