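import Pool.Agent.Lib.MP_75103d_lc.C_Gap
import Pool.Agent.Lib.MP_75103d_lc.IGeo

/-! (C5) saturation of a set under the countable group generated by the `s i`: W = {x | some word in the s i sends x into N}. -/

set_option autoImplicit false

open MeasureTheory Set
open scoped ENNReal

namespace BorelEq

theorem C_Sat_back {n d : ℕ} (e : Fin 3 ↪ Fin n) (p : Eu n) (s : Fin d → UQ) (ι : Fin d → Fin d)
    (hs : ∀ i, s (ι i) = (s i)⁻¹) (X : Set (Eu n))
    (hX : ∀ i x, x ∈ X → rotE e p (s i) x ∈ X) (w : List (Fin d)) (x : Eu n)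
    (h : rotE e p (w.map s).prod x ∈ X) : x ∈ X := by
  induction w with
  | nil =>
    rw [List.map_nil, List.prod_nil, rotE_one] at h
    exact h
  | cons i w ih =>
    apply ih
    rw [List.map_cons, List.prod_cons, rotE_mul] at h
    have h1 := hX (ι i) _ h
    rwa [← rotE_mul, hs, inv_mul_cancel, rotE_one] at h1

theorem C_Sat_meas {n : ℕ} (e : Fin 3 ↪ Fin n) (p : Eu n) (g : UQ) :
    Measurable (fun x : Eu n => rotE e p g x) := by
  have h1 : Measurable (fun x : Eu n => ((g, x) : UQ × Eu n)) := measurable_prodMk_left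
  have h2 := (rotE_meas e p).comp h1
  exact h2

theorem C_Sat_meas' {n : ℕ} (e : Fin 3 ↪ Fin n) (p : Eu n) (x : Eu n) :
    Measurable (fun g : UQ => rotE e p g x) := by
  have h1 : Measurable (fun g : UQ => ((g, x) : UQ × Eu n)) := measurable_prodMk_right
  have h2 := (rotE_meas e p).comp h1
  exact h2

theorem saturate {n d : ℕ} (e : Fin 3 ↪ Fin n) (p : Eu n) (s : Fin d → UQ) (ι : Fin d → Fin d)
    (hι : ∀ i, ι (ι i) = i) (hs : ∀ i, s (ι i) = (s i)⁻¹) (X N : Set (Eu n)) (hN : MeasurableSet N)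
    (hNX : N ⊆ X) (hX : ∀ i x, x ∈ X → rotE e p (s i) x ∈ X) (R : ℝ) (hR : ∀ x ∈ N, dist x p ≤ R)
    (hnull : ∀ x, muQ {g | rotE e p g x ∈ N} = 0) :
    ∃ W : Set (Eu n), MeasurableSet W ∧ N ⊆ W ∧ W ⊆ X ∧ (∀ x ∈ W, dist x p ≤ R) ∧
      (∀ i x, x ∈ W → rotE e p (s i) x ∈ W) ∧ ∀ x, muQ {g | rotE e p g x ∈ W} = 0 := by
  refine ⟨⋃ w : List (Fin d), {x | rotE e p (w.map s).prod x ∈ N}, ?_, ?_, ?_, ?_, ?_, ?_⟩
  · exact MeasurableSet.iUnion fun w => C_Sat_meas e p _ hN
  · intro x hx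
    refine mem_iUnion.mpr ⟨[], ?_⟩
    rw [mem_ofPred_eq, List.map_nil, List.prod_nil, rotE_one]
    exact hx
  · intro x hx
    obtain ⟨w, hw⟩ := mem_iUnion.mp hx
    exact C_Sat_back e p s ι hs X hX w x (hNX hw)
  · intro x hx
    obtain ⟨w, hw⟩ := mem_iUnion.mp hx
    have := hR _ hw
    rwa [rotE_center] at this
  · intro i x hx
    obtain ⟨w, hw⟩ := mem_iUnion.mp hx
    refine mem_iUnion.mpr ⟨w ++ [ι i], ?_⟩
    rw [mem_ofPred_eq, List.map_append, List.prod_append, List.map_singleton, List.prod_singleton,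
      hs, ← rotE_mul, inv_mul_cancel_right]
    exact hw
  · intro x
    have h1 : {g | rotE e p g x ∈ ⋃ w : List (Fin d), {x | rotE e p (w.map s).prod x ∈ N}}
        = ⋃ w : List (Fin d), (fun g : UQ => (w.map s).prod * g) ⁻¹' {g | rotE e p g x ∈ N} := by
      ext g
      simp only [mem_iUnion, mem_ofPred_eq, mem_preimage, rotE_mul]
    rw [h1, measure_iUnion_null_iff]
    intro w
    rw [(muQ_left _).measure_preimage]
    · exact hnull x
    · exact (C_Sat_meas' e p x hN).nullMeasurableSet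

end BorelEq
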