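import Pool.Agent.Lib.MP_75103d_lc.B_Final
import Pool.Agent.Lib.MP_75103d_lc.B_Reg4

/-! Interface of part (B): the key theorem. -/

set_option autoImplicit false

open MeasureTheory Set

namespace BorelEq

/-- (B) KEY THEOREM. -/
theorem key_theorem {G E : Type*} [Group G] [MeasurableSpace G] [MeasurableMul₂ G] [MeasurableInv G]
    [MeasurableSpace E] (μ : Measure G) [IsProbabilityMeasure μ]
    (hl : ∀ u : G, MeasurePreserving (fun g => u * g) μ μ)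
    (hr : ∀ u : G, MeasurePreserving (fun g => g * u) μ μ)
    (nrm : G → ℝ) (hnm : Measurable nrm) (hn0 : ∀ g, 0 ≤ nrm g)
    (hnc : ∀ s g : G, nrm (s * g * s⁻¹) = nrm g)
    (hnp : ∀ δ : ℝ, 0 < δ → μ {g | nrm g < δ} ≠ 0)
    (α : MAct G E) {d : ℕ} (hd : 0 < d) (s : Fin d → G) (ι : Fin d → Fin d)
    (hι : ∀ i, ι (ι i) = i) (hs : ∀ i, s (ι i) = (s i)⁻¹) (hgap : SetGap μ s)
    (f : E → ℝ) (hfm : Measurable f) (hf0 : ∀ x, 0 ≤ f x) (hf1 : ∀ x, f x ≤ 1)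
    (hfl : ∀ h x, |f (α.a h x) - f x| ≤ nrm h)
    (hfs : ∀ x, μ.real {g | 0 < f (α.a g x)} ≤ 1 / 480) :
    ∃ ψ : E → Fin d → ℝ, (∀ i, Measurable (fun x => ψ x i)) ∧ (∀ x i, |ψ x i| ≤ 6 / d) ∧
      (∀ x i, ψ (α.a (s i) x) (ι i) = - ψ x i) ∧ ∀ x, 0 < f x → 1 / 2 ≤ ∑ i, ψ x i := by
  obtain ⟨nn, tt, ht, hpar⟩ := params_all μ nrm hnp
  have hprob := PP_prob μ nrm hnp
  have hr1 : 1 ≤ (d + 3) / 4 := by omega
  have h4 : d ≤ 4 * ((d + 3) / 4) := by omega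
  have h4' : 4 * ((d + 3) / 4) ≤ d + 3 := by omega
  have hr4 : (d : ℝ) ≤ 4 * (((d + 3) / 4 : ℕ) : ℝ) := by exact_mod_cast h4
  have hr4' : 4 * ((((d + 3) / 4 : ℕ) : ℝ) - 1) ≤ d := by
    have h5 : (4 : ℝ) * (((d + 3) / 4 : ℕ) : ℝ) ≤ d + 3 := by exact_mod_cast h4'
    linarith
  refine ⟨fun x i => ∫ ω, psiInf α s ((d + 3) / 4) f nn tt (orbB α x ω) i ∂(PP μ nrm),
    fun i => avg_meas μ nrm hnp α s _ f hfm nn tt i, fun x i => ?_, fun x i => ?_, fun x hx => ?_⟩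
  · have h6 : ∀ ω, ‖psiInf α s ((d + 3) / 4) f nn tt (orbB α x ω) i‖ ≤ 6 / d := fun ω =>
      psiInf_bound α s _ f nn tt (fun k => ⟨(ht k).1.le, (ht k).2.trans (by norm_num)⟩) _ i
    have h7 := norm_integral_le_of_norm_le_const (μ := PP μ nrm) (Filter.Eventually.of_forall h6)
    simpa using h7
  · exact avg_anti μ hl hr nrm hnm hnc hnp α s ι hι hs _ f hfm nn tt x i
  · exact avg_div μ nrm hnm hnp α hd s _ hr1 f hfm hf1 hfl nn tt ht x hx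
      (fun k => err_PP μ hl hr nrm hnm hnp α hd s ι hι hs hgap _ hr1 hr4 hr4' f hfm hf1 hfs nn tt
        ht hpar x k)

/-- (B7) existence of the regular function. -/
theorem exists_regular {G E : Type*} [Group G] [MeasurableSpace G] [MeasurableMul₂ G] [MeasurableInv G]
    [MetricSpace E] [MeasurableSpace E] [BorelSpace E] (μ : Measure G) [IsProbabilityMeasure μ]
    (hl : ∀ u : G, MeasurePreserving (fun g => u * g) μ μ)
    (hr : ∀ u : G, MeasurePreserving (fun g => g * u) μ μ)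
    (nrm : G → ℝ) (hnm : Measurable nrm) (hn0 : ∀ g, 0 ≤ nrm g) (α : MAct G E)
    (hiso : ∀ g x y, dist (α.a g x) (α.a g y) = dist x y)
    (C : E → ℝ) (hC : Measurable C) (hC0 : ∀ x, 0 ≤ C x) (hCinv : ∀ g x, C (α.a g x) = C x)
    (hdist : ∀ h x, dist (α.a h x) x ≤ C x * nrm h)
    (N : Set E) (hN : MeasurableSet N) (hnull : ∀ x, μ {g | α.a g x ∈ N} = 0)
    (ε : ℝ) (hε : 0 < ε) :
    ∃ f : E → ℝ, Measurable f ∧ (∀ x, 0 ≤ f x) ∧ (∀ x, f x ≤ 1) ∧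
      (∀ h x, |f (α.a h x) - f x| ≤ nrm h) ∧ (∀ x ∈ N, 0 < f x) ∧
      ∀ x, μ.real {g | 0 < f (α.a g x)} ≤ ε :=
  exists_regular_aux μ hr nrm hnm hn0 α hiso C hC hC0 hCinv hdist N hN hnull ε hε

end BorelEq
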