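import Pool.Agent.Lib.MP_75103d_lc.C_Flow
import Pool.Agent.Lib.MP_75103d_lc.C_Gap
import Pool.Agent.Lib.MP_75103d_lc.C_Sat
import Pool.Agent.Lib.MP_75103d_lc.IGeo
import Pool.Agent.Lib.MP_75103d_lc.IKey

/-! (C5) CORRECTED: a set null for one action; T does not depend on the action, on X, N, R or q. Proof: spectral_gap (rho=1/4) gives d, s, iota; T from flow_Le d (6/d); Xi = the rotations of the s i (rotE_isom); W from saturate; f from exists_regular for rotA e p with nrm = nrmQ, C x = 2 * dist x p, eps = 1/480; psi from key_theorem; flow_Le; Le_iterate; q 1_N <= q 1_W <= T 1_W <= T 1_(X inter closedBall p R). -/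

set_option autoImplicit false

open MeasureTheory Set
open scoped ENNReal

namespace BorelEq

private theorem C_One_ind_mono {n : ℕ} {A B : Set (Eu n)} (h : A ⊆ B) (x : Eu n) :
    ind A x ≤ ind B x := by
  unfold ind
  by_cases hx : x ∈ A
  · rw [indicator_of_mem hx, indicator_of_mem (h hx)]
  · rw [indicator_of_notMem hx]
    exact Nat.zero_le _

private theorem C_One_ind_le {n : ℕ} (A : Set (Eu n)) (x : Eu n) : ind A x ≤ 1 := by
  unfold ind
  by_cases hx : x ∈ A
  · rw [indicator_of_mem hx]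
  · rw [indicator_of_notMem hx]
    exact Nat.zero_le _

private theorem C_One_meas {n : ℕ} {A : Set (Eu n)} (hA : MeasurableSet A) (q : ℕ) :
    Measurable (fun x => q * ind A x) := by
  have h1 : Measurable (ind A) := measurable_const.indicator hA
  exact (measurable_from_top (f := fun m : ℕ => q * m)).comp h1

theorem absorb_one : ∃ T : ℕ, ∀ (n : ℕ) (e : Fin 3 ↪ Fin n) (p : Eu n),
    ∃ Ξ : Finset (Eu n ≃ᵢ Eu n), ∀ (X N : Set (Eu n)) (R : ℝ), MeasurableSet X → MeasurableSet N →
      (∀ ξ ∈ Ξ, ξ '' X = X) → N ⊆ X → (∀ x ∈ N, dist x p ≤ R) →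
      (∀ x, muQ {g | rotE e p g x ∈ N} = 0) →
      ∀ q : ℕ, Le' (fun x => q * ind N x) (fun x => T * ind (X ∩ Metric.closedBall p R) x) := by
  classical
  obtain ⟨d, s, ι, hd, hι, hs, hgap⟩ := spectral_gap (1 / 4) (by norm_num)
  obtain ⟨T, hT⟩ := flow_Le d (6 / d)
  refine ⟨T, fun n e p => ?_⟩
  choose γ hγ using fun i => rotE_isom e p (s i)
  refine ⟨Finset.univ.image γ, ?_⟩
  intro X N R hX hN hXi hNX hR hnull q
  have := muQ_prob
  have := UQ_measurable_mul
  have := UQ_measurable_inv
  have hSG : SetGap muQ s := setgap_of_gap hd s hgap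
  have hXinv : ∀ i x, x ∈ X → rotE e p (s i) x ∈ X := by
    intro i x hx
    have h1 := hXi (γ i) (Finset.mem_image_of_mem γ (Finset.mem_univ i))
    rw [← hγ i x, ← h1]
    exact mem_image_of_mem _ hx
  obtain ⟨W, hW, hNW, hWX, hWR, hWi, hWnull⟩ :=
    saturate e p s ι hι hs X N hN hNX hXinv R hR hnull
  obtain ⟨f, hfm, hf0, hf1, hfl, hfN, hfs⟩ := exists_regular muQ muQ_left muQ_right nrmQ nrmQ_meas
    (fun g => norm_nonneg _) (rotA e p) (fun g x y => rotE_dist e p g x y)
    (fun x => 2 * dist x p) (by fun_prop) (fun x => by positivity)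
    (fun g x => by
      show 2 * dist (rotE e p g x) p = 2 * dist x p
      rw [rotE_center])
    (fun h x => rotE_lip e p h x) W hW (fun x => hWnull x) (1 / 480) (by norm_num)
  obtain ⟨ψ, hψ, hψK, hψa, hψd⟩ := key_theorem muQ muQ_left muQ_right nrmQ nrmQ_meas
    (fun g => norm_nonneg _) nrmQ_conj nrmQ_pos (rotA e p) hd s ι hι hs hSG f hfm hf0 hf1 hfl hfs
  have h1 := hT n W hW γ ι hι (fun i x => by
      rw [hγ (ι i), hγ i, ← rotE_mul, hs i, inv_mul_cancel, rotE_one])
    (fun i x hx => by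
      rw [hγ i]
      exact hWi i x hx) ψ hψ hψK (fun x i => by
      rw [hγ i]
      exact hψa x i) (fun x hx => hψd x (hfN x hx))
  have h2 := Le'_iterate W hW T h1 q
  have h3 : Le' (fun x => q * ind N x) (fun x => q * ind W x) :=
    Le'_of_le (C_One_meas hN q) q
      (fun x => (Nat.mul_le_mul_left q (C_One_ind_le N x)).trans (by simp))
      (fun x => Nat.mul_le_mul_left q (C_One_ind_mono hNW x))
  have h4 : Le' (fun x => T * ind W x) (fun x => T * ind (X ∩ Metric.closedBall p R) x) :=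
    Le'_of_le (C_One_meas hW T) T
      (fun x => (Nat.mul_le_mul_left T (C_One_ind_le W x)).trans (by simp))
      (fun x => Nat.mul_le_mul_left T (C_One_ind_mono
        (A := W) (B := X ∩ Metric.closedBall p R)
        (fun x hx => ⟨hWX hx, Metric.mem_closedBall.mpr (hWR x hx)⟩) x))
  exact Le'_trans (Le'_trans h3 h2) h4

end BorelEq
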