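import Pool.Agent.Lib.MP_75103d_lc.C_Dec1

/-! (C6) Schroeder-Bernstein. -/

set_option autoImplicit false

open MeasureTheory Set
open scoped ENNReal

namespace BorelEq

theorem C_SB_one_le {n m : ℕ} (P : Fin m → Set (Eu n)) (x : Eu n) (a : Fin m) (h : x ∈ P a) :
    1 ≤ ∑ a, (P a).indicator (fun _ => (1 : ℕ)) x := by
  calc 1 = (P a).indicator (fun _ => (1 : ℕ)) x := by rw [indicator_of_mem h]
    _ ≤ _ := Finset.single_le_sum (f := fun a => (P a).indicator (fun _ => (1 : ℕ)) x)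
        (fun i _ => Nat.zero_le _) (Finset.mem_univ a)

theorem C_SB_disj {n m : ℕ} (P : Fin m → Set (Eu n))
    (h : ∀ x, ∑ a, (P a).indicator (fun _ => (1 : ℕ)) x ≤ 1) :
    Pairwise (fun i j => Disjoint (P i) (P j)) := by
  classical
  intro i j hij
  rw [Set.disjoint_left]
  intro x hi hj
  have h2 : ∑ a ∈ ({i, j} : Finset (Fin m)), (P a).indicator (fun _ => (1 : ℕ)) x ≤
      ∑ a, (P a).indicator (fun _ => (1 : ℕ)) x :=
    Finset.sum_le_sum_of_subset (Finset.subset_univ _)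
  rw [Finset.sum_pair hij, indicator_of_mem hi, indicator_of_mem hj] at h2
  have := h x
  omega

theorem C_SB_exists {n m : ℕ} (P : Fin m → Set (Eu n)) (x : Eu n)
    (h : ∑ a, (P a).indicator (fun _ => (1 : ℕ)) x ≠ 0) : ∃ a, x ∈ P a := by
  obtain ⟨a, _, ha⟩ := Finset.exists_ne_zero_of_sum_ne_zero h
  exact ⟨a, by_contra fun h' => ha (indicator_of_notMem h' _)⟩

theorem C_SB_sum {n m : ℕ} (P : Fin m → Set (Eu n))
    (hd : Pairwise (fun i j => Disjoint (P i) (P j))) (x : Eu n) :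
    ind (⋃ i, P i) x = ∑ a, (P a).indicator (fun _ => (1 : ℕ)) x := by
  classical
  unfold ind
  by_cases h : x ∈ ⋃ i, P i
  · obtain ⟨a, ha⟩ := mem_iUnion.1 h
    rw [indicator_of_mem h, Finset.sum_eq_single a]
    · rw [indicator_of_mem ha]
    · intro b _ hb
      exact indicator_of_notMem (fun hb' => Set.disjoint_left.1 (hd hb) hb' ha) _
    · intro h'; exact absurd (Finset.mem_univ a) h'
  · rw [indicator_of_notMem h]
    symm
    refine Finset.sum_eq_zero (fun a _ => indicator_of_notMem (fun h' => h (mem_iUnion.2 ⟨a, h'⟩)) _)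

theorem C_SB_ind_le {n : ℕ} (A : Set (Eu n)) (x : Eu n) : ind A x ≤ 1 := by
  classical
  unfold ind
  rw [indicator_apply]; split_ifs <;> omega

/-- Extract disjoint pieces from `Le'` of indicators. -/
theorem Le'_pieces {n : ℕ} {A B : Set (Eu n)} (hA : MeasurableSet A) (h : Le' (ind A) (ind B)) :
    ∃ m : ℕ, ∃ P : Fin m → Set (Eu n), ∃ γ : Fin m → (Eu n ≃ᵢ Eu n),
      (∀ i, MeasurableSet (P i)) ∧ Pairwise (fun i j => Disjoint (P i) (P j)) ∧
      (⋃ i, P i) = A ∧ Pairwise (fun i j => Disjoint (γ i '' P i) (γ j '' P j)) ∧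
      (⋃ i, γ i '' P i) ⊆ B := by
  obtain ⟨g', hg', m, P, γ, hP, hf, hg⟩ := h
  refine ⟨m, P, γ, hP, ?_, ?_, ?_, ?_⟩
  · exact C_SB_disj P (fun x => by rw [← hf x]; exact C_SB_ind_le A x)
  · ext x
    rw [mem_iUnion]
    constructor
    · rintro ⟨a, ha⟩
      by_contra hx
      have h1 := C_SB_one_le P x a ha
      rw [← hf x] at h1
      unfold ind at h1
      rw [indicator_of_notMem hx] at h1
      omega
    · intro hx
      refine C_SB_exists P x ?_
      rw [← hf x]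
      unfold ind
      rw [indicator_of_mem hx]
      exact one_ne_zero
  · exact C_SB_disj (fun i => γ i '' P i)
      (fun x => by rw [← hg x]; exact (hg' x).trans (C_SB_ind_le B x))
  · intro x hx
    obtain ⟨a, ha⟩ := mem_iUnion.1 hx
    by_contra hx'
    have h1 := C_SB_one_le (fun i => γ i '' P i) x a ha
    rw [← hg x] at h1
    have h2 := hg' x
    unfold ind at h2
    rw [indicator_of_notMem hx'] at h2
    omega

theorem Dec_of_pieces {n : ℕ} {A B : Set (Eu n)} {m : ℕ} (P : Fin m → Set (Eu n))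
    (γ : Fin m → (Eu n ≃ᵢ Eu n)) (hP : ∀ i, MeasurableSet (P i))
    (hd : Pairwise (fun i j => Disjoint (P i) (P j))) (hA : (⋃ i, P i) = A)
    (hd' : Pairwise (fun i j => Disjoint (γ i '' P i) (γ j '' P j))) (hB : (⋃ i, γ i '' P i) = B) :
    Dec (ind A) (ind B) := by
  refine ⟨m, P, γ, hP, fun x => ?_, fun x => ?_⟩
  · rw [← hA]; exact C_SB_sum P hd x
  · rw [← hB]; exact C_SB_sum (fun i => γ i '' P i) hd' x

/-- The piecewise map applied to a set. -/
def C_SB_map {n m : ℕ} (P : Fin m → Set (Eu n)) (γ : Fin m → (Eu n ≃ᵢ Eu n)) (S : Set (Eu n)) :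
    Set (Eu n) := ⋃ i, γ i '' (P i ∩ S)

theorem C_SB_map_meas {n m : ℕ} (P : Fin m → Set (Eu n)) (γ : Fin m → (Eu n ≃ᵢ Eu n))
    (hP : ∀ i, MeasurableSet (P i)) {S : Set (Eu n)} (hS : MeasurableSet S) :
    MeasurableSet (C_SB_map P γ S) :=
  MeasurableSet.iUnion (fun i => C_Dec1_meas_image _ ((hP i).inter hS))

theorem C_SB_map_iUnion {n m : ℕ} (P : Fin m → Set (Eu n)) (γ : Fin m → (Eu n ≃ᵢ Eu n))
    (S : ℕ → Set (Eu n)) : C_SB_map P γ (⋃ k, S k) = ⋃ k, C_SB_map P γ (S k) := by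
  unfold C_SB_map
  ext x
  simp only [mem_iUnion, mem_image, mem_inter_iff]
  constructor
  · rintro ⟨i, y, ⟨hy, k, hk⟩, rfl⟩
    exact ⟨k, i, y, ⟨hy, hk⟩, rfl⟩
  · rintro ⟨k, i, y, ⟨hy, hk⟩, rfl⟩
    exact ⟨i, y, ⟨hy, k, hk⟩, rfl⟩

theorem C_SB_map_subset {n m : ℕ} (P : Fin m → Set (Eu n)) (γ : Fin m → (Eu n ≃ᵢ Eu n))
    (S : Set (Eu n)) : C_SB_map P γ S ⊆ ⋃ i, γ i '' P i :=
  iUnion_mono (fun i => image_mono inter_subset_left)

theorem C_SB_map_diff {n m : ℕ} (P : Fin m → Set (Eu n)) (γ : Fin m → (Eu n ≃ᵢ Eu n))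
    (hd : Pairwise (fun i j => Disjoint (P i) (P j)))
    (hd' : Pairwise (fun i j => Disjoint (γ i '' P i) (γ j '' P j))) (S T : Set (Eu n)) :
    C_SB_map P γ (S \ T) = C_SB_map P γ S \ C_SB_map P γ T := by
  unfold C_SB_map
  ext x
  simp only [mem_iUnion, mem_image, mem_inter_iff, mem_sdiff]
  constructor
  · rintro ⟨i, y, ⟨hy, hS, hT⟩, rfl⟩
    refine ⟨⟨i, y, ⟨hy, hS⟩, rfl⟩, ?_⟩
    rintro ⟨j, z, ⟨hz, hzT⟩, hzy⟩
    by_cases hij : i = j
    · subst hij
      have : z = y := (γ i).injective hzy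
      subst this
      exact hT hzT
    · exact Set.disjoint_left.1 (hd' hij) ⟨y, hy, rfl⟩ ⟨z, hz, hzy⟩
  · rintro ⟨⟨i, y, ⟨hy, hS⟩, rfl⟩, h⟩
    exact ⟨i, y, ⟨hy, hS, fun hT => h ⟨i, y, ⟨hy, hT⟩, rfl⟩⟩, rfl⟩

theorem C_SB_map_dec {n m : ℕ} (P : Fin m → Set (Eu n)) (γ : Fin m → (Eu n ≃ᵢ Eu n))
    (hP : ∀ i, MeasurableSet (P i)) (hd : Pairwise (fun i j => Disjoint (P i) (P j)))
    (hd' : Pairwise (fun i j => Disjoint (γ i '' P i) (γ j '' P j))) {S : Set (Eu n)}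
    (hS : MeasurableSet S) (hSP : S ⊆ ⋃ i, P i) : Dec (ind S) (ind (C_SB_map P γ S)) := by
  refine Dec_of_pieces (fun i => P i ∩ S) γ (fun i => (hP i).inter hS) ?_ ?_ ?_ rfl
  · intro i j hij
    exact (hd hij).mono inter_subset_left inter_subset_left
  · rw [← iUnion_inter]
    exact inter_eq_right.2 hSP
  · intro i j hij
    exact (hd' hij).mono (image_mono inter_subset_left) (image_mono inter_subset_left)

theorem C_SB_split {n : ℕ} {S T : Set (Eu n)} (hST : S ⊆ T) :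
    (fun x => ind S x + ind (T \ S) x) = ind T := by
  classical
  funext x
  unfold ind
  simp only [indicator_apply, Set.mem_sdiff]
  by_cases hS : x ∈ S
  · simp [hS, hST hS]
  · by_cases hT : x ∈ T <;> simp [hS, hT]

theorem sb_aux {n : ℕ} (A B : Set (Eu n)) (hA : MeasurableSet A) (hB : MeasurableSet B)
    (h1 : Le' (ind A) (ind B)) (h2 : Le' (ind B) (ind A)) : Dec (ind A) (ind B) := by
  classical
  obtain ⟨m, P, γ, hP, hPd, hPA, hPd', hPB⟩ := Le'_pieces hA h1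
  obtain ⟨k, Q, δ, hQ, hQd, hQB, hQd', hQA⟩ := Le'_pieces hB h2
  let Φ := C_SB_map P γ
  let Ψ := C_SB_map Q δ
  have hΨB : Ψ B ⊆ A := (C_SB_map_subset Q δ B).trans hQA
  let C : ℕ → Set (Eu n) := fun j => Nat.rec (A \ Ψ B) (fun _ S => Ψ (Φ S)) j
  have hC0 : C 0 = A \ Ψ B := rfl
  have hCs : ∀ j, C (j + 1) = Ψ (Φ (C j)) := fun j => rfl
  have hΨm : ∀ {S : Set (Eu n)}, MeasurableSet S → MeasurableSet (Ψ S) :=
    fun hS => C_SB_map_meas Q δ hQ hS
  have hΦm : ∀ {S : Set (Eu n)}, MeasurableSet S → MeasurableSet (Φ S) :=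
    fun hS => C_SB_map_meas P γ hP hS
  have hCm : ∀ j, MeasurableSet (C j) := by
    intro j
    induction j with
    | zero => rw [hC0]; exact hA.diff (hΨm hB)
    | succ j ih => rw [hCs]; exact hΨm (hΦm ih)
  have hCA : ∀ j, C j ⊆ A := by
    intro j
    cases j with
    | zero => rw [hC0]; exact sdiff_subset
    | succ j => rw [hCs]; exact (C_SB_map_subset Q δ _).trans hQA
  let D := ⋃ j, C j
  have hDm : MeasurableSet D := MeasurableSet.iUnion hCm
  have hDA : D ⊆ A := iUnion_subset hCA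
  have hD : D = (A \ Ψ B) ∪ Ψ (Φ D) := by
    have h3 : Ψ (Φ D) = ⋃ j, C (j + 1) := by
      show Ψ (C_SB_map P γ (⋃ j, C j)) = _
      rw [C_SB_map_iUnion]
      show C_SB_map Q δ (⋃ j, C_SB_map P γ (C j)) = _
      rw [C_SB_map_iUnion]
    rw [h3, ← hC0]
    ext x
    simp only [D, mem_iUnion, mem_union]
    constructor
    · rintro ⟨j, hj⟩
      cases j with
      | zero => exact Or.inl hj
      | succ j => exact Or.inr ⟨j, hj⟩
    · rintro (h | ⟨j, hj⟩)
      · exact ⟨0, h⟩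
      · exact ⟨j + 1, hj⟩
  have hAD : A \ D = Ψ (B \ Φ D) := by
    show A \ D = C_SB_map Q δ (B \ Φ D)
    rw [C_SB_map_diff Q δ hQd hQd']
    show A \ D = Ψ B \ Ψ (Φ D)
    ext x
    constructor
    · rintro ⟨hxA, hxD⟩
      rw [hD] at hxD
      simp only [mem_union, mem_sdiff, not_or, not_and, not_not] at hxD
      exact ⟨hxD.1 hxA, hxD.2⟩
    · rintro ⟨hxB, hx⟩
      refine ⟨hΨB hxB, ?_⟩
      rw [hD]
      rintro (h | h)
      · exact h.2 hxB
      · exact hx h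
  have hΦDB : Φ D ⊆ B := (C_SB_map_subset P γ D).trans hPB
  have d1 : Dec (ind D) (ind (Φ D)) :=
    C_SB_map_dec P γ hP hPd hPd' hDm (by rw [hPA]; exact hDA)
  have d2 : Dec (ind (B \ Φ D)) (ind (A \ D)) := by
    rw [hAD]
    exact C_SB_map_dec Q δ hQ hQd hQd' (hB.diff (hΦm hDm)) (by rw [hQB]; exact sdiff_subset)
  have d3 := Dec_add d1 (Dec_symm d2)
  rw [C_SB_split hDA, C_SB_split hΦDB] at d3
  exact d3

end BorelEq
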