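import Pool.Agent.Lib.MP_75103d_lc.D1_Defs

/-! Part (D1): basic properties of the averages. -/

set_option autoImplicit false

open MeasureTheory Set
open scoped ENNReal

namespace BorelEq

theorem D1_Bas_meas_pair {n : ℕ} (α : MAct UQ (Eu n)) {F : Eu n → ℝ} (h : Measurable F) :
    Measurable (fun p : UQ × Eu n => F (α.a p.1 p.2)) := h.comp α.meas

theorem D1_Bas_meas_left {n : ℕ} (α : MAct UQ (Eu n)) {F : Eu n → ℝ} (h : Measurable F)
    (x : Eu n) : Measurable (fun g : UQ => F (α.a g x)) :=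
  (D1_Bas_meas_pair α h).comp (measurable_id.prodMk measurable_const)

theorem D1_Bas_meas_right {n : ℕ} (α : MAct UQ (Eu n)) {F : Eu n → ℝ} (h : Measurable F)
    (g : UQ) : Measurable (fun x : Eu n => F (α.a g x)) :=
  (D1_Bas_meas_pair α h).comp (measurable_const.prodMk measurable_id)

theorem D1_Bas_integrable {n : ℕ} (α : MAct UQ (Eu n)) {C : ℝ} {F : Eu n → ℝ} (h : Bdd C F)
    (x : Eu n) : Integrable (fun g : UQ => F (α.a g x)) muQ :=
  Integrable.of_bound (D1_Bas_meas_left α h.1 x).aestronglyMeasurable C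
    (Filter.Eventually.of_forall (fun g => by
      rw [Real.norm_eq_abs]
      exact h.2 _))

theorem avR_bdd {n : ℕ} (α : MAct UQ (Eu n)) {C : ℝ} {F : Eu n → ℝ} (h : Bdd C F) :
    Bdd C (avR α F) := by
  refine ⟨?_, fun x => ?_⟩
  · exact ((D1_Bas_meas_pair α h.1).stronglyMeasurable.integral_prod_left' (μ := muQ)).measurable
  · have h1 := norm_integral_le_of_norm_le_const (μ := muQ) (f := fun g => F (α.a g x)) (C := C)
      (Filter.Eventually.of_forall (fun g => by
        rw [Real.norm_eq_abs]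
        exact h.2 _))
    rw [probReal_univ, mul_one, Real.norm_eq_abs] at h1
    exact h1

theorem avD_bdd {n d : ℕ} (hd : 0 < d) (s : Fin d → UQ) (α : MAct UQ (Eu n)) {C : ℝ} {F : Eu n → ℝ}
    (h : Bdd C F) : Bdd C (avD s α F) := by
  have hd' : (0 : ℝ) < d := Nat.cast_pos.2 hd
  refine ⟨?_, fun x => ?_⟩
  · unfold avD
    exact (Finset.measurable_sum _ (fun i _ => D1_Bas_meas_right α h.1 (s i))).div_const _
  · unfold avD
    rw [abs_div, abs_of_pos hd', div_le_iff₀ hd']
    calc |∑ i, F (α.a (s i) x)| ≤ ∑ i, |F (α.a (s i) x)| := Finset.abs_sum_le_sum_abs _ _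
      _ ≤ ∑ _i : Fin d, C := Finset.sum_le_sum (fun i _ => h.2 _)
      _ = C * d := by simp [mul_comm]

theorem avRs_bdd {n : ℕ} (L : List ((Fin 3 ↪ Fin n) × Eu n)) {C : ℝ} {F : Eu n → ℝ}
    (h : Bdd C F) : Bdd C (avRs L F) := by
  induction L with
  | nil => exact h
  | cons q L ih => exact avR_bdd _ ih

theorem avDs_bdd {n d : ℕ} (hd : 0 < d) (s : Fin d → UQ) (L : List ((Fin 3 ↪ Fin n) × Eu n))
    {C : ℝ} {F : Eu n → ℝ} (h : Bdd C F) : Bdd C (avDs s L F) := by
  induction L with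
  | nil => exact h
  | cons q L ih => exact avD_bdd hd s _ ih

theorem avRs_nonneg {n : ℕ} (L : List ((Fin 3 ↪ Fin n) × Eu n)) {F : Eu n → ℝ}
    (h : ∀ x, 0 ≤ F x) (x : Eu n) : 0 ≤ avRs L F x := by
  induction L generalizing x with
  | nil => exact h x
  | cons q L ih => exact integral_nonneg (fun g => ih _)

theorem avDs_nonneg {n d : ℕ} (s : Fin d → UQ) (L : List ((Fin 3 ↪ Fin n) × Eu n)) {F : Eu n → ℝ}
    (h : ∀ x, 0 ≤ F x) (x : Eu n) : 0 ≤ avDs s L F x := by
  induction L generalizing x with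
  | nil => exact h x
  | cons q L ih =>
    exact div_nonneg (Finset.sum_nonneg (fun i _ => ih _)) (Nat.cast_nonneg _)

/-- the averages with values in `[0, ∞]` are the real averages -/
theorem avgs_ofReal {n : ℕ} (L : List ((Fin 3 ↪ Fin n) × Eu n)) {C : ℝ} {F : Eu n → ℝ}
    (h : Bdd C F) (h0 : ∀ x, 0 ≤ F x) (x : Eu n) :
    avgs L (fun y => ENNReal.ofReal (F y)) x = ENNReal.ofReal (avRs L F x) := by
  induction L generalizing x with
  | nil => rfl
  | cons q L ih =>
    have h1 : avgs (q :: L) (fun y => ENNReal.ofReal (F y)) x =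
        ∫⁻ g, avgs L (fun y => ENNReal.ofReal (F y)) ((rotA q.1 q.2).a g x) ∂muQ := rfl
    have h2 : avRs (q :: L) F x = ∫ g, avRs L F ((rotA q.1 q.2).a g x) ∂muQ := rfl
    rw [h1, h2]
    simp only [ih]
    rw [ofReal_integral_eq_lintegral_ofReal
      (D1_Bas_integrable (rotA q.1 q.2) (avRs_bdd L h) x)
      (Filter.Eventually.of_forall (fun g => avRs_nonneg L h0 _))]

end BorelEq
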