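import Pool.Agent.Lib.MP_75103d_lc.D1_Bas

/-! Part (D1): contraction properties of the averages. -/

set_option autoImplicit false

open MeasureTheory Set
open scoped ENNReal

namespace BorelEq

/-- variance -/
private theorem D1_Con_jensen {f : UQ → ℝ} (hf : Measurable f) {C : ℝ} (hC : ∀ g, |f g| ≤ C) :
    (∫ g, f g ∂muQ) ^ 2 ≤ ∫ g, f g ^ 2 ∂muQ := by
  have hi : Integrable f muQ :=
    Integrable.of_bound hf.aestronglyMeasurable C (Filter.Eventually.of_forall hC)
  have hi2 : Integrable (fun g => f g ^ 2) muQ := by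
    refine Integrable.of_bound (hf.pow_const 2).aestronglyMeasurable (C ^ 2)
      (Filter.Eventually.of_forall fun g => ?_)
    rw [Real.norm_eq_abs, abs_pow]
    exact pow_le_pow_left₀ (abs_nonneg _) (hC g) 2
  set c := ∫ g, f g ∂muQ with hc
  have h1 : 0 ≤ ∫ g, (f g - c) ^ 2 ∂muQ := integral_nonneg fun g => sq_nonneg _
  have h2 : ∫ g, (f g - c) ^ 2 ∂muQ = ∫ g, f g ^ 2 ∂muQ - c ^ 2 := by
    have e : ∀ g, (f g - c) ^ 2 = f g ^ 2 - (2 * c) * f g + c ^ 2 := fun g => by ring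
    simp only [e]
    have e1 : ∫ g, (f g ^ 2 - (2 * c) * f g + c ^ 2) ∂muQ
        = ∫ g, (f g ^ 2 - (2 * c) * f g) ∂muQ + ∫ _, c ^ 2 ∂muQ :=
      integral_add (hi2.sub (hi.const_mul _)) (integrable_const _)
    have e2 : ∫ g, (f g ^ 2 - (2 * c) * f g) ∂muQ
        = ∫ g, f g ^ 2 ∂muQ - ∫ g, (2 * c) * f g ∂muQ := integral_sub hi2 (hi.const_mul _)
    have e3 : ∫ g, (2 * c) * f g ∂muQ = (2 * c) * ∫ g, f g ∂muQ := integral_const_mul _ _
    have e4 : ∫ _ : UQ, c ^ 2 ∂muQ = c ^ 2 := by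
      rw [integral_const]
      simp
    rw [e1, e2, e3, e4, ← hc]
    ring
  linarith

private theorem D1_Con_meas {n : ℕ} (α : MAct UQ (Eu n)) :
    Measurable (fun q : Eu n × UQ => α.a q.2 q.1) := α.meas.comp measurable_swap

private theorem D1_Con_meas1 {n : ℕ} (α : MAct UQ (Eu n)) (x : Eu n) :
    Measurable (fun g : UQ => α.a g x) :=
  α.meas.comp (g := fun p : UQ × Eu n => α.a p.1 p.2) (f := fun g => (g, x)) measurable_prodMk_right

private theorem D1_Con_meas2 {n : ℕ} (α : MAct UQ (Eu n)) (g : UQ) :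
    Measurable (fun x : Eu n => α.a g x) :=
  α.meas.comp (g := fun p : UQ × Eu n => α.a p.1 p.2) (f := fun x => (g, x)) measurable_prodMk_left

private theorem D1_Con_avg {d : ℕ} (hd : 0 < d) (S : ℝ≥0∞) :
    ENNReal.ofReal (1 / d) * ∑ _i : Fin d, S = S := by
  have hd0 : (0 : ℝ) < d := by exact_mod_cast hd
  have h1 : ENNReal.ofReal (1 / d) * (d : ℝ≥0∞) = 1 := by
    rw [← ENNReal.ofReal_natCast, ← ENNReal.ofReal_mul (by positivity), one_div,
      inv_mul_cancel₀ hd0.ne', ENNReal.ofReal_one]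
  rw [Finset.sum_const, Finset.card_univ, Fintype.card_fin, nsmul_eq_mul, ← mul_assoc, h1, one_mul]

private theorem D1_Con_comp {n : ℕ} (e : Fin 3 ↪ Fin n) (p : Eu n) (g : UQ) {F : Eu n → ℝ}
    (h : Measurable F) :
    ∫⁻ x, ENNReal.ofReal (F ((rotA e p).a g x) ^ 2) = sqn F :=
  (rotE_mp e p g).lintegral_comp (f := fun x => ENNReal.ofReal (F x ^ 2))
    (h.pow_const 2).ennreal_ofReal

/-- Jensen for the probability measure `muQ`, then `rotE_mp` for each `g` -/
theorem sqn_avR_le {n : ℕ} (e : Fin 3 ↪ Fin n) (p : Eu n) {C : ℝ} {F : Eu n → ℝ} (h : Bdd C F) :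
    sqn (avR (rotA e p) F) ≤ sqn F := by
  have hm : Measurable (fun q : Eu n × UQ => ENNReal.ofReal (F ((rotA e p).a q.2 q.1) ^ 2)) :=
    ((h.1.comp (D1_Con_meas (rotA e p))).pow_const 2).ennreal_ofReal
  have hx : ∀ x, Measurable (fun g => F ((rotA e p).a g x)) := fun x =>
    h.1.comp (D1_Con_meas1 (rotA e p) x)
  have h1 : ∀ x, ENNReal.ofReal (avR (rotA e p) F x ^ 2) ≤
      ∫⁻ g, ENNReal.ofReal (F ((rotA e p).a g x) ^ 2) ∂muQ := by
    intro x
    rw [← ofReal_integral_eq_lintegral_ofReal]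
    · exact ENNReal.ofReal_le_ofReal (D1_Con_jensen (hx x) (fun g => h.2 _))
    · refine Integrable.of_bound ((hx x).pow_const 2).aestronglyMeasurable (C ^ 2)
        (Filter.Eventually.of_forall fun g => ?_)
      rw [Real.norm_eq_abs, abs_pow]
      exact pow_le_pow_left₀ (abs_nonneg _) (h.2 _) 2
    · exact Filter.Eventually.of_forall fun g => sq_nonneg _
  calc sqn (avR (rotA e p) F) ≤ ∫⁻ x, ∫⁻ g, ENNReal.ofReal (F ((rotA e p).a g x) ^ 2) ∂muQ :=
        lintegral_mono h1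
    _ = ∫⁻ g, (∫⁻ x, ENNReal.ofReal (F ((rotA e p).a g x) ^ 2)) ∂muQ :=
        lintegral_lintegral_swap hm.aemeasurable
    _ = ∫⁻ _, sqn F ∂muQ := lintegral_congr fun g => D1_Con_comp e p g h.1
    _ = sqn F := by
        rw [lintegral_const, measure_univ, mul_one]

/-- Jensen for the finite average, then `rotE_mp` for each `s i` -/
theorem sqn_avD_le {n d : ℕ} (hd : 0 < d) (s : Fin d → UQ) (e : Fin 3 ↪ Fin n) (p : Eu n)
    {F : Eu n → ℝ} (h : Measurable F) : sqn (avD s (rotA e p) F) ≤ sqn F := by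
  have hd0 : (0 : ℝ) < d := by exact_mod_cast hd
  have h1 : ∀ x, ENNReal.ofReal (avD s (rotA e p) F x ^ 2) ≤
      ENNReal.ofReal (1 / d) * ∑ i, ENNReal.ofReal (F ((rotA e p).a (s i) x) ^ 2) := by
    intro x
    rw [← ENNReal.ofReal_sum_of_nonneg (fun i _ => sq_nonneg _),
      ← ENNReal.ofReal_mul (by positivity)]
    apply ENNReal.ofReal_le_ofReal
    have h2 := sq_sum_le_card_mul_sum_sq (s := (Finset.univ : Finset (Fin d)))
      (f := fun i => F ((rotA e p).a (s i) x))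
    rw [Finset.card_univ, Fintype.card_fin] at h2
    unfold avD
    rw [div_pow, div_le_iff₀ (by positivity)]
    refine h2.trans (le_of_eq ?_)
    field_simp
  calc sqn (avD s (rotA e p) F) ≤ ∫⁻ x, ENNReal.ofReal (1 / d) *
          ∑ i, ENNReal.ofReal (F ((rotA e p).a (s i) x) ^ 2) := lintegral_mono h1
    _ = ENNReal.ofReal (1 / d) * ∑ i : Fin d, sqn F := by
        rw [lintegral_const_mul' _ _ ENNReal.ofReal_ne_top, lintegral_finsetSum]
        · congr 1
          exact Finset.sum_congr rfl fun i _ => D1_Con_comp e p (s i) h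
        · intro i _
          exact ((h.comp (D1_Con_meas2 (rotA e p) (s i))).pow_const 2).ennreal_ofReal
    _ = sqn F := D1_Con_avg hd _

theorem sqn_avDs_le {n d : ℕ} (hd : 0 < d) (s : Fin d → UQ) (L : List ((Fin 3 ↪ Fin n) × Eu n))
    {C : ℝ} {F : Eu n → ℝ} (h : Bdd C F) : sqn (avDs s L F) ≤ sqn F := by
  induction L with
  | nil => exact le_rfl
  | cons q L ih => exact (sqn_avD_le hd s q.1 q.2 (avDs_bdd hd s L h).1).trans ih

end BorelEq
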