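import Pool.Agent.Lib.MP_75103d_lc.D1_Bas

/-! Part (D1): the averages preserve the integral. -/

set_option autoImplicit false

open MeasureTheory Set
open scoped ENNReal

namespace BorelEq

theorem D1_Mass_meas {n : ℕ} (α : MAct UQ (Eu n)) {f : Eu n → ℝ≥0∞} (h : Measurable f) :
    Measurable (avg α f) :=
  Measurable.lintegral_prod_left' (μ := muQ) (f := fun p : UQ × Eu n => f (α.a p.1 p.2))
    (h.comp α.meas)

theorem D1_Mass_meas_s {n : ℕ} (L : List ((Fin 3 ↪ Fin n) × Eu n)) {f : Eu n → ℝ≥0∞}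
    (h : Measurable f) : Measurable (avgs L f) := by
  induction L with
  | nil => exact h
  | cons q L ih => exact D1_Mass_meas _ ih

theorem D1_Mass_avg {n : ℕ} (e : Fin 3 ↪ Fin n) (p : Eu n) {f : Eu n → ℝ≥0∞} (h : Measurable f) :
    ∫⁻ x, avg (rotA e p) f x = ∫⁻ x, f x := by
  have hm0 : Measurable (fun q : UQ × Eu n => f ((rotA e p).a q.1 q.2)) :=
    h.comp (rotA e p).meas
  have hm : Measurable (fun q : Eu n × UQ => f ((rotA e p).a q.2 q.1)) :=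
    Measurable.comp (g := fun q : UQ × Eu n => f ((rotA e p).a q.1 q.2))
      (f := fun q : Eu n × UQ => (q.2, q.1)) hm0 (measurable_snd.prodMk measurable_fst)
  have h1 : ∫⁻ x, avg (rotA e p) f x = ∫⁻ x, ∫⁻ g, f ((rotA e p).a g x) ∂muQ := rfl
  rw [h1, lintegral_lintegral_swap hm.aemeasurable]
  have h2 : ∀ g : UQ, ∫⁻ x, f ((rotA e p).a g x) = ∫⁻ x, f x :=
    fun g => (rotE_mp e p g).lintegral_comp h
  simp only [h2, lintegral_const, measure_univ, mul_one]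

theorem lint_avgs {n : ℕ} (L : List ((Fin 3 ↪ Fin n) × Eu n)) {f : Eu n → ℝ≥0∞}
    (h : Measurable f) : ∫⁻ x, avgs L f x = ∫⁻ x, f x := by
  induction L with
  | nil => rfl
  | cons q L ih =>
    have h1 : ∫⁻ x, avgs (q :: L) f x = ∫⁻ x, avg (rotA q.1 q.2) (avgs L f) x := rfl
    rw [h1, D1_Mass_avg q.1 q.2 (D1_Mass_meas_s L h), ih]

theorem D1_Mass_avD {n d : ℕ} (hd : 0 < d) (s : Fin d → UQ) (e : Fin 3 ↪ Fin n) (p : Eu n)
    {C : ℝ} {F : Eu n → ℝ} (h : Bdd C F) (h0 : ∀ x, 0 ≤ F x) :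
    ∫⁻ x, ENNReal.ofReal (avD s (rotA e p) F x) = ∫⁻ x, ENNReal.ofReal (F x) := by
  have hd' : (0 : ℝ) < d := Nat.cast_pos.2 hd
  have h1 : ∀ x, ENNReal.ofReal (avD s (rotA e p) F x) =
      (∑ i, ENNReal.ofReal (F ((rotA e p).a (s i) x))) * (d : ℝ≥0∞)⁻¹ := by
    intro x
    unfold avD
    rw [ENNReal.ofReal_div_of_pos hd', ENNReal.ofReal_sum_of_nonneg (fun i _ => h0 _),
      ENNReal.ofReal_natCast, div_eq_mul_inv]
  have hm : ∀ i : Fin d, Measurable (fun x => ENNReal.ofReal (F ((rotA e p).a (s i) x))) :=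
    fun i => (D1_Bas_meas_right (rotA e p) h.1 (s i)).ennreal_ofReal
  simp only [h1]
  rw [lintegral_mul_const _ (Finset.measurable_sum _ (fun i _ => hm i)),
    lintegral_finsetSum _ (fun i _ => hm i)]
  have h2 : ∀ i : Fin d, ∫⁻ x, ENNReal.ofReal (F ((rotA e p).a (s i) x)) =
      ∫⁻ x, ENNReal.ofReal (F x) :=
    fun i => (rotE_mp e p (s i)).lintegral_comp h.1.ennreal_ofReal
  simp only [h2, Finset.sum_const, Finset.card_univ, Fintype.card_fin, nsmul_eq_mul]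
  rw [mul_comm, ← mul_assoc, ENNReal.inv_mul_cancel (Nat.cast_ne_zero.2 hd.ne')
    (ENNReal.natCast_ne_top d), one_mul]

theorem lint_avDs {n d : ℕ} (hd : 0 < d) (s : Fin d → UQ) (L : List ((Fin 3 ↪ Fin n) × Eu n))
    {C : ℝ} {F : Eu n → ℝ} (h : Bdd C F) (h0 : ∀ x, 0 ≤ F x) :
    ∫⁻ x, ENNReal.ofReal (avDs s L F x) = ∫⁻ x, ENNReal.ofReal (F x) := by
  induction L with
  | nil => rfl
  | cons q L ih =>
    have h1 : ∫⁻ x, ENNReal.ofReal (avDs s (q :: L) F x) =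
        ∫⁻ x, ENNReal.ofReal (avD s (rotA q.1 q.2) (avDs s L F) x) := rfl
    rw [h1, D1_Mass_avD hd s q.1 q.2 (avDs_bdd hd s L h) (fun x => avDs_nonneg s L h0 x), ih]

end BorelEq
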