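import Pool.Agent.Lib.MP_75103d_lc.D1_Defs

/-! Part (D1): supports. -/

set_option autoImplicit false

open MeasureTheory Set
open scoped ENNReal

namespace BorelEq

/-- The support of the finite average of the indicator of `Y` is covered by finitely many
preimages of `Y` under isometries which move the origin by at most `shiftL L`. -/
theorem avDs_supp {n d : ℕ} (s : Fin d → UQ) (L : List ((Fin 3 ↪ Fin n) × Eu n)) :
    ∃ (m : ℕ) (W : Fin m → (Eu n ≃ᵢ Eu n)), (∀ a x, ‖x‖ ≤ ‖W a x‖ + shiftL L) ∧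
      ∀ (Y : Set (Eu n)) (x : Eu n), avDs s L (Y.indicator (fun _ => (1 : ℝ))) x ≠ 0 →
        ∃ a, W a x ∈ Y := by
  induction L with
  | nil =>
    refine ⟨1, fun _ => IsometryEquiv.refl _, ?_, ?_⟩
    · intro a x
      have : shiftL ([] : List ((Fin 3 ↪ Fin n) × Eu n)) = 0 := by simp [shiftL]
      rw [this, add_zero]
      exact le_rfl
    · intro Y x hx
      refine ⟨0, ?_⟩
      by_contra hcon
      have hx' : Y.indicator (fun _ => (1 : ℝ)) x ≠ 0 := hx
      exact hx' (indicator_of_notMem hcon _)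
  | cons q L ih =>
    obtain ⟨m, W, hW, hY⟩ := ih
    choose γ hγ using fun i : Fin d => rotE_isom q.1 q.2 (s i)
    refine ⟨d * m, fun k => (γ (finProdFinEquiv.symm k).1).trans (W (finProdFinEquiv.symm k).2),
      ?_, ?_⟩
    · intro k x
      set i := (finProdFinEquiv.symm k).1
      set a := (finProdFinEquiv.symm k).2
      have h1 := hW a (γ i x)
      have h2 : ‖x‖ ≤ ‖γ i x‖ + 2 * ‖q.2‖ := by
        have h3 := rotE_center q.1 q.2 (s i) x
        rw [← hγ i x, dist_eq_norm, dist_eq_norm] at h3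
        have h4 : ‖x‖ ≤ ‖x - q.2‖ + ‖q.2‖ := by
          calc ‖x‖ = ‖(x - q.2) + q.2‖ := by rw [sub_add_cancel]
            _ ≤ _ := norm_add_le _ _
        have h5 : ‖γ i x - q.2‖ ≤ ‖γ i x‖ + ‖q.2‖ := norm_sub_le _ _
        linarith
      have h6 : shiftL (q :: L) = 2 * ‖q.2‖ + shiftL L := by
        simp [shiftL]
      rw [h6]
      show ‖x‖ ≤ ‖W a (γ i x)‖ + (2 * ‖q.2‖ + shiftL L)
      linarith
    · intro Y x hx
      have h1 : (∑ i, avDs s L (Y.indicator (fun _ => (1 : ℝ))) (rotE q.1 q.2 (s i) x)) / (d : ℝ)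
        ≠ 0 := hx
      have h2 : ∑ i, avDs s L (Y.indicator (fun _ => (1 : ℝ))) (rotE q.1 q.2 (s i) x) ≠ 0 := by
        intro h0
        rw [h0, zero_div] at h1
        exact h1 rfl
      obtain ⟨i, -, hi⟩ := Finset.exists_ne_zero_of_sum_ne_zero h2
      obtain ⟨a, ha⟩ := hY Y _ hi
      refine ⟨finProdFinEquiv (i, a), ?_⟩
      simp only [Equiv.symm_apply_apply]
      show W a (γ i x) ∈ Y
      rw [hγ i x]
      exact ha

/-- finitely many translations bring every point of a ball into `B` -/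
theorem cover_trans {n : ℕ} (B : Set (Eu n)) (hB : (interior B).Nonempty) (r : ℝ) :
    ∃ (N : ℕ) (τ : Fin N → Eu n), 0 < N ∧ ∀ x : Eu n, ‖x‖ ≤ r → ∃ k, x + τ k ∈ B := by
  classical
  obtain ⟨b, hb⟩ := hB
  obtain ⟨ε, hε, hball⟩ := Metric.isOpen_iff.1 isOpen_interior b hb
  obtain ⟨t, -, htf, hcov⟩ := (isCompact_closedBall (0 : Eu n) r).finite_cover_balls hε
  have htf' : (insert 0 t).Finite := htf.insert 0
  set T : Finset (Eu n) := htf'.toFinset with hT
  have hTpos : 0 < T.card := Finset.card_pos.2 ⟨0, by simp [hT]⟩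
  refine ⟨T.card, fun k => b - (T.equivFin.symm k : Eu n), hTpos, ?_⟩
  intro x hx
  have hx' : x ∈ ⋃ y ∈ t, Metric.ball y ε := hcov (by simpa using hx)
  simp only [mem_iUnion] at hx'
  obtain ⟨y, hy, hxy⟩ := hx'
  have hyT : y ∈ T := by
    rw [hT, Set.Finite.mem_toFinset]
    exact Set.mem_insert_of_mem _ hy
  refine ⟨T.equivFin ⟨y, hyT⟩, ?_⟩
  simp only [Equiv.symm_apply_apply]
  apply interior_subset
  apply hball
  rw [Metric.mem_ball, dist_eq_norm] at hxy ⊢
  have : x + (b - y) - b = x - y := by abel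
  rw [this]
  exact hxy

/-- Cauchy–Schwarz for a function supported in `S` -/
theorem cs_supp {n : ℕ} (G : Eu n → ℝ) (hG : Measurable G) (h0 : ∀ x, 0 ≤ G x) (S : Set (Eu n))
    (hS : MeasurableSet S) (hs : ∀ x, G x ≠ 0 → x ∈ S) :
    (∫⁻ x, ENNReal.ofReal (G x)) ^ 2 ≤ volume S * sqn G := by
  have h1 : ∫⁻ x, ENNReal.ofReal (G x) =
      ∫⁻ x, ((fun x => ENNReal.ofReal (G x)) * (S.indicator (fun _ => (1 : ℝ≥0∞)))) x := by
    refine lintegral_congr fun x => ?_
    by_cases hx : x ∈ S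
    · simp [hx]
    · have : G x = 0 := by
        by_contra h
        exact hx (hs x h)
      simp [this]
  have h2 := ENNReal.lintegral_mul_le_Lp_mul_Lq (volume : Measure (Eu n)) Real.HolderConjugate.two_two
    (f := fun x => ENNReal.ofReal (G x)) (g := S.indicator (fun _ => (1 : ℝ≥0∞)))
    hG.ennreal_ofReal.aemeasurable (measurable_const.indicator hS).aemeasurable
  have h3 : ∫⁻ x, (ENNReal.ofReal (G x)) ^ (2 : ℝ) = sqn G := by
    unfold sqn
    refine lintegral_congr fun x => ?_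
    rw [ENNReal.ofReal_pow (h0 x)]
    norm_cast
  have h4 : ∫⁻ x, (S.indicator (fun _ => (1 : ℝ≥0∞)) x) ^ (2 : ℝ) = volume S := by
    have h5 : ∀ x, (S.indicator (fun _ => (1 : ℝ≥0∞)) x) ^ (2 : ℝ)
        = S.indicator (fun _ => (1 : ℝ≥0∞)) x := by
      intro x
      by_cases hx : x ∈ S
      · simp [hx]
      · simp [hx]
    simp only [h5]
    rw [lintegral_indicator hS]
    simp
  rw [h3, h4, ← h1] at h2
  calc (∫⁻ x, ENNReal.ofReal (G x)) ^ 2 ≤ (sqn G ^ (1 / 2 : ℝ) * volume S ^ (1 / 2 : ℝ)) ^ 2 :=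
        pow_le_pow_left₀ (by positivity) h2 2
    _ = volume S * sqn G := by
        rw [mul_pow, ← ENNReal.rpow_natCast, ← ENNReal.rpow_natCast, ← ENNReal.rpow_mul,
          ← ENNReal.rpow_mul]
        norm_num
        rw [mul_comm]

end BorelEq
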