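import Pool.Agent.Lib.MP_75103d_lc.D1_Tel
import Pool.Agent.Lib.MP_75103d_lc.D1_Mass
import Pool.Agent.Lib.MP_75103d_lc.D1_Sup

/-! Part (D1): the two estimates. -/

set_option autoImplicit false

open MeasureTheory Set
open scoped ENNReal

namespace BorelEq

private theorem core_fin {n : ℕ} {R : ℝ} {Y : Set (Eu n)} (hYR : ∀ x ∈ Y, ‖x‖ ≤ R) :
    volume Y ≠ ⊤ := by
  have h : Y ⊆ Metric.closedBall (0 : Eu n) R := by
    intro x hx
    rw [mem_closedBall_zero_iff]
    exact hYR x hx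
  exact ((measure_mono h).trans_lt (Metric.isBounded_closedBall.measure_lt_top)).ne

private theorem core_bdd {n : ℕ} {Y : Set (Eu n)} (hY : MeasurableSet Y) :
    Bdd 1 (Y.indicator (fun _ => (1 : ℝ))) := by
  refine ⟨measurable_const.indicator hY, fun x => ?_⟩
  by_cases hx : x ∈ Y
  · simp [hx]
  · simp [hx]

private theorem core_nonneg {n : ℕ} {Y : Set (Eu n)} (x : Eu n) :
    0 ≤ Y.indicator (fun _ => (1 : ℝ)) x :=
  Set.indicator_nonneg (fun _ _ => zero_le_one) x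

private theorem core_lint {n : ℕ} {Y : Set (Eu n)} (hY : MeasurableSet Y) :
    ∫⁻ x, ENNReal.ofReal (Y.indicator (fun _ => (1 : ℝ)) x) = volume Y := by
  have h : (fun x => ENNReal.ofReal (Y.indicator (fun _ => (1 : ℝ)) x)) =
      Y.indicator (fun _ => (1 : ℝ≥0∞)) := by
    funext x
    by_cases hx : x ∈ Y
    · simp [hx]
    · simp [hx]
  rw [h, lintegral_indicator hY]
  simp

private theorem core_sqn {n : ℕ} {Y : Set (Eu n)} (hY : MeasurableSet Y) :
    sqn (Y.indicator (fun _ => (1 : ℝ))) = volume Y := by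
  rw [← core_lint hY]
  unfold sqn
  refine lintegral_congr fun x => ?_
  by_cases hx : x ∈ Y
  · simp [hx]
  · simp [hx]

private theorem core_bounds {n : ℕ} (L : List ((Fin 3 ↪ Fin n) × Eu n)) (b C R : ℝ)
    (hb : 0 < b) (hC : 0 < C)
    (hK : ∀ f : Eu n → ℝ≥0∞, Measurable f → (∀ x, R < ‖x‖ → f x = 0) →
        (∀ x, avgs L f x ≤ ENNReal.ofReal C * ∫⁻ y, f y) ∧
        (∀ x, ‖x‖ ≤ R → ENNReal.ofReal b * ∫⁻ y, f y ≤ avgs L f x))
    (Y : Set (Eu n)) (hY : MeasurableSet Y) (hYR : ∀ x ∈ Y, ‖x‖ ≤ R) :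
    (∀ x, avRs L (Y.indicator (fun _ => (1 : ℝ))) x ≤ C * volume.real Y) ∧
    (∀ x, ‖x‖ ≤ R → b * volume.real Y ≤ avRs L (Y.indicator (fun _ => (1 : ℝ))) x) := by
  have hmeas : Measurable (fun y => ENNReal.ofReal (Y.indicator (fun _ => (1 : ℝ)) y)) :=
    (measurable_const.indicator hY).ennreal_ofReal
  have hsupp : ∀ x : Eu n, R < ‖x‖ → ENNReal.ofReal (Y.indicator (fun _ => (1 : ℝ)) x) = 0 := by
    intro x hx
    have : x ∉ Y := fun h => absurd (hYR x h) (not_le.mpr hx)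
    simp [this]
  obtain ⟨h1, h2⟩ := hK _ hmeas hsupp
  have hvol : volume Y = ENNReal.ofReal (volume.real Y) :=
    (ENNReal.ofReal_toReal (core_fin hYR)).symm
  have hV : 0 ≤ volume.real Y := measureReal_nonneg
  constructor
  · intro x
    have h := h1 x
    rw [avgs_ofReal L (core_bdd hY) core_nonneg, core_lint hY, hvol,
      ← ENNReal.ofReal_mul hC.le] at h
    exact (ENNReal.ofReal_le_ofReal_iff (by positivity)).mp h
  · intro x hx
    have h := h2 x hx
    rw [avgs_ofReal L (core_bdd hY) core_nonneg, core_lint hY, hvol,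
      ← ENNReal.ofReal_mul hb.le] at h
    exact (ENNReal.ofReal_le_ofReal_iff (avRs_nonneg L core_nonneg x)).mp h

private theorem core_diff {n d : ℕ} (hd : 0 < d) (s : Fin d → UQ) (ρ : ℝ) (hgap : GapR s ρ)
    (L : List ((Fin 3 ↪ Fin n) × Eu n)) (R κ : ℝ)
    (hκ : 2 ^ (L.length + 1) * ρ ^ 2 ≤ κ)
    (Y : Set (Eu n)) (hY : MeasurableSet Y) (hYR : ∀ x ∈ Y, ‖x‖ ≤ R) :
    sqn (fun x => avDs s L (Y.indicator (fun _ => (1 : ℝ))) x -
      avRs L (Y.indicator (fun _ => (1 : ℝ))) x) ≤ ENNReal.ofReal (κ * volume.real Y) := by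
  have hκ0 : 0 ≤ κ := le_trans (by positivity) hκ
  have hvol : volume Y = ENNReal.ofReal (volume.real Y) :=
    (ENNReal.ofReal_toReal (core_fin hYR)).symm
  refine (sqn_tel hd s ρ hgap L (core_bdd hY)).trans ?_
  rw [core_sqn hY, hvol, ENNReal.ofReal_mul hκ0]
  have hreal : volume.real Y = (ENNReal.ofReal (volume.real Y)).toReal :=
    (ENNReal.toReal_ofReal measureReal_nonneg).symm
  gcongr

/-- Put `G = avDs s L 1_Y`, `H = avRs L 1_Y`.  `∫ G = |Y|` (`lint_avDs`), `∫ H = |Y|`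
(`avgs_ofReal`, `lint_avgs`), `H ≤ C |Y|`, so `sqn G ≤ 2 sqn H + 2 sqn (G - H) ≤ 2 C |Y|² + 2 κ |Y|`;
`cs_supp` gives the first estimate.  For the second one: `(b |Y|)² ≤ (G - H)²` on `S`. -/
theorem core1 {n d : ℕ} (hd : 0 < d) (s : Fin d → UQ) (ρ : ℝ) (hgap : GapR s ρ)
    (L : List ((Fin 3 ↪ Fin n) × Eu n)) (b C R κ : ℝ) (hb : 0 < b) (hC : 0 < C)
    (hκ : 2 ^ (L.length + 1) * ρ ^ 2 ≤ κ)
    (hK : ∀ f : Eu n → ℝ≥0∞, Measurable f → (∀ x, R < ‖x‖ → f x = 0) →
        (∀ x, avgs L f x ≤ ENNReal.ofReal C * ∫⁻ y, f y) ∧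
        (∀ x, ‖x‖ ≤ R → ENNReal.ofReal b * ∫⁻ y, f y ≤ avgs L f x))
    (Y : Set (Eu n)) (hY : MeasurableSet Y) (hYR : ∀ x ∈ Y, ‖x‖ ≤ R) :
    volume.real Y ^ 2 ≤
      volume.real {x | avDs s L (Y.indicator (fun _ => (1 : ℝ))) x ≠ 0} *
        (2 * C * volume.real Y ^ 2 + 2 * κ * volume.real Y) := by
  have hκ0 : 0 ≤ κ := le_trans (by positivity) hκ
  have hYfin : volume Y ≠ ⊤ := core_fin hYR
  have hvol : volume Y = ENNReal.ofReal (volume.real Y) :=
    (ENNReal.ofReal_toReal hYfin).symm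
  have hV : 0 ≤ volume.real Y := measureReal_nonneg
  obtain ⟨hup, -⟩ := core_bounds L b C R hb hC hK Y hY hYR
  have hdiff := core_diff hd s ρ hgap L R κ hκ Y hY hYR
  set F : Eu n → ℝ := Y.indicator (fun _ => (1 : ℝ)) with hF
  have hFb : Bdd 1 F := core_bdd hY
  have hF0 : ∀ x, 0 ≤ F x := core_nonneg
  set G : Eu n → ℝ := avDs s L F with hG
  set H : Eu n → ℝ := avRs L F with hH
  have hGb : Bdd 1 G := avDs_bdd hd s L hFb
  have hHb : Bdd 1 H := avRs_bdd L hFb
  have hG0 : ∀ x, 0 ≤ G x := avDs_nonneg s L hF0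
  have hH0 : ∀ x, 0 ≤ H x := avRs_nonneg L hF0
  -- the integrals
  have hintG : ∫⁻ x, ENNReal.ofReal (G x) = ENNReal.ofReal (volume.real Y) := by
    rw [hG, lint_avDs hd s L hFb hF0, hF, core_lint hY, hvol]
  have hintH : ∫⁻ x, ENNReal.ofReal (H x) = ENNReal.ofReal (volume.real Y) := by
    have h1 : (fun x => ENNReal.ofReal (H x)) =
        fun x => avgs L (fun y => ENNReal.ofReal (F y)) x := by
      funext x
      rw [avgs_ofReal L hFb hF0]
    rw [h1, lint_avgs L hFb.1.ennreal_ofReal, hF, core_lint hY, hvol]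
  -- the square of the norm of H
  have hsqH : sqn H ≤ ENNReal.ofReal (C * volume.real Y ^ 2) := by
    have h1 : sqn H ≤ ∫⁻ x, ENNReal.ofReal (C * volume.real Y) * ENNReal.ofReal (H x) := by
      unfold sqn
      refine lintegral_mono fun x => ?_
      rw [← ENNReal.ofReal_mul (by positivity)]
      refine ENNReal.ofReal_le_ofReal ?_
      rw [sq]
      exact mul_le_mul_of_nonneg_right (hup x) (hH0 x)
    rw [lintegral_const_mul _ hHb.1.ennreal_ofReal, hintH, ← ENNReal.ofReal_mul (by positivity)] at h1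
    refine h1.trans (le_of_eq ?_)
    congr 1
    ring
  have hsqG : sqn G ≤ ENNReal.ofReal (2 * C * volume.real Y ^ 2 + 2 * κ * volume.real Y) := by
    have h1 : sqn G = sqn (fun x => H x + (G x - H x)) := by
      congr 1
      funext x
      ring
    rw [h1]
    refine (sqn_add_le hHb.1).trans ?_
    calc 2 * sqn H + 2 * sqn (fun x => G x - H x)
        ≤ 2 * ENNReal.ofReal (C * volume.real Y ^ 2) + 2 * ENNReal.ofReal (κ * volume.real Y) := by
          gcongr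
      _ = ENNReal.ofReal (2 * C * volume.real Y ^ 2 + 2 * κ * volume.real Y) := by
          rw [ENNReal.ofReal_add (by positivity) (by positivity), mul_assoc 2 C, mul_assoc 2 κ,
            ENNReal.ofReal_mul (p := 2) (by norm_num), ENNReal.ofReal_mul (p := 2) (by norm_num)]
          norm_num
  -- the support has finite measure
  have hSm : MeasurableSet {x | G x ≠ 0} := (measurableSet_eq_fun hGb.1 measurable_const).compl
  have hSfin : volume {x | G x ≠ 0} ≠ ⊤ := by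
    obtain ⟨m, W, -, hW⟩ := avDs_supp s L
    have hsub : {x | G x ≠ 0} ⊆ ⋃ a, (W a) ⁻¹' Y := by
      intro x hx
      obtain ⟨a, ha⟩ := hW Y x hx
      exact mem_iUnion.mpr ⟨a, ha⟩
    refine ((measure_mono hsub).trans_lt ?_).ne
    refine (measure_iUnion_fintype_le _ _).trans_lt ?_
    refine ENNReal.sum_lt_top.mpr fun a _ => ?_
    rw [(isom_mp (W a)).measure_preimage hY.nullMeasurableSet]
    exact lt_top_iff_ne_top.mpr hYfin
  have hcs := cs_supp G hGb.1 hG0 {x | G x ≠ 0} hSm (fun x hx => hx)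
  rw [hintG] at hcs
  have h2 : ENNReal.ofReal (volume.real Y) ^ 2 ≤
      volume {x | G x ≠ 0} * ENNReal.ofReal (2 * C * volume.real Y ^ 2 + 2 * κ * volume.real Y) :=
    hcs.trans (mul_le_mul_right hsqG _)
  have h3 := ENNReal.toReal_mono (ENNReal.mul_ne_top hSfin ENNReal.ofReal_ne_top) h2
  rw [ENNReal.toReal_pow, ENNReal.toReal_mul, ENNReal.toReal_ofReal hV,
    ENNReal.toReal_ofReal (by positivity)] at h3
  exact h3

theorem core2 {n d : ℕ} (hd : 0 < d) (s : Fin d → UQ) (ρ : ℝ) (hgap : GapR s ρ)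
    (L : List ((Fin 3 ↪ Fin n) × Eu n)) (b C R κ : ℝ) (hb : 0 < b) (hC : 0 < C)
    (hκ : 2 ^ (L.length + 1) * ρ ^ 2 ≤ κ)
    (hK : ∀ f : Eu n → ℝ≥0∞, Measurable f → (∀ x, R < ‖x‖ → f x = 0) →
        (∀ x, avgs L f x ≤ ENNReal.ofReal C * ∫⁻ y, f y) ∧
        (∀ x, ‖x‖ ≤ R → ENNReal.ofReal b * ∫⁻ y, f y ≤ avgs L f x))
    (Y : Set (Eu n)) (hY : MeasurableSet Y) (hYR : ∀ x ∈ Y, ‖x‖ ≤ R)
    (S : Set (Eu n)) (hS : MeasurableSet S) (hSR : ∀ x ∈ S, ‖x‖ ≤ R)
    (hS0 : ∀ x ∈ S, avDs s L (Y.indicator (fun _ => (1 : ℝ))) x = 0) :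
    (b * volume.real Y) ^ 2 * volume.real S ≤ κ * volume.real Y := by
  have hκ0 : 0 ≤ κ := le_trans (by positivity) hκ
  have hV : 0 ≤ volume.real Y := measureReal_nonneg
  obtain ⟨-, hlow⟩ := core_bounds L b C R hb hC hK Y hY hYR
  have hdiff := core_diff hd s ρ hgap L R κ hκ Y hY hYR
  have h1 : ENNReal.ofReal ((b * volume.real Y) ^ 2) * volume S ≤
      ENNReal.ofReal (κ * volume.real Y) := by
    refine le_trans ?_ hdiff
    unfold sqn
    calc ENNReal.ofReal ((b * volume.real Y) ^ 2) * volume S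
        = ∫⁻ _ in S, ENNReal.ofReal ((b * volume.real Y) ^ 2) := by
          rw [setLIntegral_const]
      _ ≤ ∫⁻ x in S, ENNReal.ofReal ((avDs s L (Y.indicator (fun _ => (1 : ℝ))) x -
            avRs L (Y.indicator (fun _ => (1 : ℝ))) x) ^ 2) := by
          refine setLIntegral_mono' hS fun x hx => ENNReal.ofReal_le_ofReal ?_
          rw [hS0 x hx, zero_sub, neg_sq]
          exact pow_le_pow_left₀ (by positivity) (hlow x (hSR x hx)) 2
      _ ≤ _ := setLIntegral_le_lintegral _ _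
  have h3 := ENNReal.toReal_mono ENNReal.ofReal_ne_top h1
  rw [ENNReal.toReal_mul, ENNReal.toReal_ofReal (by positivity),
    ENNReal.toReal_ofReal (by positivity)] at h3
  exact h3

end BorelEq
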