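import Pool.Agent.Lib.MP_75103d_lc.IGeo

/-! Part (D1): definitions. -/

set_option autoImplicit false

open MeasureTheory Set
open scoped ENNReal

namespace BorelEq

/-- real average over the action -/
noncomputable def avR {n : ℕ} (α : MAct UQ (Eu n)) (F : Eu n → ℝ) (x : Eu n) : ℝ :=
  ∫ g, F (α.a g x) ∂muQ

/-- average over a finite family of group elements -/
noncomputable def avD {n d : ℕ} (s : Fin d → UQ) (α : MAct UQ (Eu n)) (F : Eu n → ℝ) (x : Eu n) : ℝ :=
  (∑ i, F (α.a (s i) x)) / d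

/-- composition of the real averages of a list of actions (first one applied last) -/
noncomputable def avRs {n : ℕ} (L : List ((Fin 3 ↪ Fin n) × Eu n)) (F : Eu n → ℝ) : Eu n → ℝ :=
  L.foldr (fun q H => avR (rotA q.1 q.2) H) F

/-- composition of the finite averages of a list of actions (first one applied last) -/
noncomputable def avDs {n d : ℕ} (s : Fin d → UQ) (L : List ((Fin 3 ↪ Fin n) × Eu n))
    (F : Eu n → ℝ) : Eu n → ℝ :=
  L.foldr (fun q H => avD s (rotA q.1 q.2) H) F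

/-- square of the `L²` norm -/
noncomputable def sqn {n : ℕ} (F : Eu n → ℝ) : ℝ≥0∞ := ∫⁻ x, ENNReal.ofReal (F x ^ 2)

/-- measurable and bounded by `C` -/
def Bdd {n : ℕ} (C : ℝ) (F : Eu n → ℝ) : Prop := Measurable F ∧ ∀ x, |F x| ≤ C

/-- spectral gap `ρ` of the family `s` -/
def GapR {d : ℕ} (s : Fin d → UQ) (ρ : ℝ) : Prop :=
  ∀ f : UQ → ℝ, Measurable f → (∃ C, ∀ g, |f g| ≤ C) →
    ∫ g, ((∑ i, f (s i * g)) / d - ∫ h, f h ∂muQ) ^ 2 ∂muQ ≤ ρ ^ 2 * ∫ g, (f g) ^ 2 ∂muQ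

/-- sum of the displacements of the origin -/
noncomputable def shiftL {n : ℕ} (L : List ((Fin 3 ↪ Fin n) × Eu n)) : ℝ :=
  (L.map (fun q => 2 * ‖q.2‖)).sum

end BorelEq
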