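import Pool.Agent.Lib.MP_75103d_lc.G_Rot3

/-! Part (D1): passing from the support to the images of the set. -/

set_option autoImplicit false

open MeasureTheory Set
open scoped ENNReal

namespace BorelEq

/-- The `(W a)⁻¹` and the `(W a)⁻¹` followed by the translations by the `τ k`. -/
noncomputable def D1_Fin_gam {n m N : ℕ} (W : Fin m → (Eu n ≃ᵢ Eu n)) (τ : Fin N → Eu n) :
    Fin m ⊕ (Fin m × Fin N) → (Eu n ≃ᵢ Eu n)
  | Sum.inl a => (W a).symm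
  | Sum.inr q => (W q.1).symm.trans (IsometryEquiv.addRight (τ q.2))

/-- Take the `(W a)⁻¹` and the `(W a)⁻¹` followed by the translations by the `τ k`. -/
theorem fin_cover {n m N : ℕ} (W : Fin m → (Eu n ≃ᵢ Eu n)) (τ : Fin N → Eu n) :
    ∃ (M : ℕ) (γ : Fin M → (Eu n ≃ᵢ Eu n)), ∀ B Y S : Set (Eu n), MeasurableSet B →
      MeasurableSet S → (∀ x ∈ S, ∃ a, W a x ∈ Y) → (∀ x ∈ S, ∃ k, x + τ k ∈ B) →
      volume (B ∩ S) ≤ volume (B ∩ ⋃ a, γ a '' Y) ∧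
        volume S ≤ N * volume (B ∩ ⋃ a, γ a '' Y) := by
  classical
  let E := Fintype.equivFin (Fin m ⊕ (Fin m × Fin N))
  refine ⟨Fintype.card (Fin m ⊕ (Fin m × Fin N)), fun i => D1_Fin_gam W τ (E.symm i), ?_⟩
  intro B Y S _ _ hW hτ
  have hmem : ∀ (q : Fin m ⊕ (Fin m × Fin N)) (y : Eu n), y ∈ Y →
      D1_Fin_gam W τ q y ∈ ⋃ i, (D1_Fin_gam W τ (E.symm i)) '' Y := by
    intro q y hy
    refine mem_iUnion.2 ⟨E q, y, hy, ?_⟩
    rw [Equiv.symm_apply_apply]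
  have hS : ∀ x ∈ S, x ∈ ⋃ i, (D1_Fin_gam W τ (E.symm i)) '' Y := by
    intro x hx
    obtain ⟨a, ha⟩ := hW x hx
    have h1 := hmem (Sum.inl a) (W a x) ha
    have h2 : D1_Fin_gam W τ (Sum.inl a) (W a x) = x := (W a).symm_apply_apply x
    rwa [h2] at h1
  refine ⟨measure_mono (fun x hx => ⟨hx.1, hS x hx.2⟩), ?_⟩
  have hsub : S ⊆ ⋃ k : Fin N, (fun x => x + τ k) ⁻¹'
      (B ∩ ⋃ i, (D1_Fin_gam W τ (E.symm i)) '' Y) := by
    intro x hx
    obtain ⟨k, hk⟩ := hτ x hx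
    obtain ⟨a, ha⟩ := hW x hx
    refine mem_iUnion.2 ⟨k, hk, ?_⟩
    have h1 := hmem (Sum.inr (a, k)) (W a x) ha
    have h2 : D1_Fin_gam W τ (Sum.inr (a, k)) (W a x) = x + τ k := by
      change (W a).symm (W a x) + τ k = x + τ k
      rw [(W a).symm_apply_apply x]
    rwa [h2] at h1
  calc volume S ≤ volume (⋃ k : Fin N, (fun x => x + τ k) ⁻¹'
        (B ∩ ⋃ i, (D1_Fin_gam W τ (E.symm i)) '' Y)) := measure_mono hsub
    _ ≤ ∑ k : Fin N, volume ((fun x => x + τ k) ⁻¹'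
        (B ∩ ⋃ i, (D1_Fin_gam W τ (E.symm i)) '' Y)) := measure_iUnion_fintype_le _ _
    _ = ∑ _k : Fin N, volume (B ∩ ⋃ i, (D1_Fin_gam W τ (E.symm i)) '' Y) :=
        Finset.sum_congr rfl (fun k _ => measure_preimage_add_right _ _ _)
    _ = N * volume (B ∩ ⋃ i, (D1_Fin_gam W τ (E.symm i)) '' Y) := by
        simp

end BorelEq
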