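import Pool.Agent.Lib.MP_75103d_lc.D1_Core
import Pool.Agent.Lib.MP_75103d_lc.D1_Fin

/-! Part (D1): the expansion theorem. -/

set_option autoImplicit false

open MeasureTheory Set
open scoped ENNReal

namespace BorelEq

/-- the real number part of the expansion estimate -/
theorem D1_Exp_real (b C N κ y S E vB T : ℝ) (hb : 0 < b) (hC : 0 < C) (hN : 1 ≤ N) (_hvB : 0 < vB)
    (hy : 0 ≤ y) (hS : 0 ≤ S) (hE : 0 ≤ E)
    (hκ0 : 0 ≤ κ) (hκ1 : κ * (16 * N) ≤ 1) (hκ2 : κ * (64 * C * N) ≤ b ^ 2 * vB)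
    (h1 : y ^ 2 ≤ S * (2 * C * y ^ 2 + 2 * κ * y)) (h2 : (b * y) ^ 2 * E ≤ κ * y)
    (hT1 : S ≤ N * T) (hT2 : vB - E ≤ T) : min (4 * y) (3 / 4 * vB) ≤ T := by
  have hN0 : 0 < N := by linarith
  have hT0 : 0 ≤ T := by
    by_contra h
    have h3 : N * T < 0 := mul_neg_of_pos_of_neg hN0 (not_le.mp h)
    linarith
  rcases hy.eq_or_lt with h0 | h0
  · rw [← h0]
    exact (min_le_left _ _).trans (by simpa using hT0)
  by_cases hc : 16 * C * N * y ≤ 1
  · refine (min_le_left _ _).trans ?_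
    have h3 : y ≤ S * (2 * C * y + 2 * κ) := by
      have : y * y ≤ y * (S * (2 * C * y + 2 * κ)) := by nlinarith
      exact le_of_mul_le_mul_left this h0
    have h4 : N * (4 * (2 * C * y + 2 * κ)) ≤ 1 := by nlinarith
    have h5 : 0 ≤ 2 * C * y + 2 * κ := by positivity
    have h6 : y ≤ N * T * (2 * C * y + 2 * κ) := h3.trans (mul_le_mul_of_nonneg_right hT1 h5)
    have h7 : T * (N * (4 * (2 * C * y + 2 * κ))) ≤ T * 1 := mul_le_mul_of_nonneg_left h4 hT0
    nlinarith
  · refine (min_le_right _ _).trans ?_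
    have h3 : b ^ 2 * y * E ≤ κ := by
      have : y * (b ^ 2 * y * E) ≤ y * κ := by nlinarith
      exact le_of_mul_le_mul_left this h0
    have h4 : E ≤ vB / 4 := by
      have h5 : 1 < 16 * C * N * y := not_le.mp hc
      have h6 : b ^ 2 * E ≤ b ^ 2 * (vB / 4) := by
        have h7 : b ^ 2 * E * 1 ≤ b ^ 2 * E * (16 * C * N * y) :=
          mul_le_mul_of_nonneg_left h5.le (by positivity)
        have h8 : b ^ 2 * y * E * (16 * C * N) ≤ κ * (16 * C * N) :=
          mul_le_mul_of_nonneg_right h3 (by positivity)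
        nlinarith
      exact le_of_mul_le_mul_left h6 (by positivity)
    linarith

/-- (D1) expansion: with `L, b, C` from `kernel_bounds` for a radius `R` containing `A ∪ B`, `N, τ` from
`cover_trans` for the radius `R + shiftL L`, choose `ρ` so small that `κ = 2^(len+1) ρ²` is at most
`1/(16N)` and `b² c₀ |B|/16`, `c₀ = 1/(4CN)`. -/
theorem expansion_aux (n : ℕ) (hn : 3 ≤ n) (A B : Set (Eu n)) (hA : MeasurableSet A)
    (hB : MeasurableSet B) (hAb : Bornology.IsBounded A) (hBb : Bornology.IsBounded B)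
    (hBi : (interior B).Nonempty) :
    ∃ (m : ℕ) (γ : Fin m → (Eu n ≃ᵢ Eu n)), ∀ Y : Set (Eu n), MeasurableSet Y → Y ⊆ A →
      min (4 * volume Y) (3 / 4 * volume B) ≤ volume (B ∩ ⋃ a, γ a '' Y) := by
  obtain ⟨R0, hR0⟩ := (hAb.union hBb).subset_closedBall (0 : Eu n)
  have hAR : ∀ x ∈ A, ‖x‖ ≤ max R0 1 := fun x hx => by
    have := hR0 (Or.inl hx)
    rw [mem_closedBall_zero_iff] at this
    exact this.trans (le_max_left _ _)
  have hBR : ∀ x ∈ B, ‖x‖ ≤ max R0 1 := fun x hx => by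
    have := hR0 (Or.inr hx)
    rw [mem_closedBall_zero_iff] at this
    exact this.trans (le_max_left _ _)
  set R : ℝ := max R0 1 with hR
  have hRpos : 0 < R := lt_of_lt_of_le one_pos (le_max_right _ _)
  obtain ⟨L, b, C, hb, hC, hK⟩ := kernel_bounds n hn R hRpos
  obtain ⟨N, τ, hN, hτ⟩ := cover_trans B hBi (R + shiftL L)
  have hBfin : volume B ≠ ⊤ := hBb.measure_lt_top.ne
  have hvB : 0 < volume.real B := by
    refine ENNReal.toReal_pos ?_ hBfin
    exact (Measure.measure_pos_of_nonempty_interior volume hBi).ne'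
  have hN1 : (1 : ℝ) ≤ N := by exact_mod_cast hN
  have hNpos : (0 : ℝ) < N := by linarith
  -- choice of the gap
  set P : ℝ := 2 ^ (L.length + 1) with hP
  have hPpos : 0 < P := by positivity
  set κ : ℝ := min (1 / (16 * N)) (b ^ 2 * volume.real B / (64 * C * N)) with hκ
  have hκpos : 0 < κ := by
    rw [hκ]
    refine lt_min (by positivity) (by positivity)
  obtain ⟨d, s, ι, hd, -, -, hgap⟩ := spectral_gap (Real.sqrt (κ / P)) (by positivity)
  have hκ' : 2 ^ (L.length + 1) * (Real.sqrt (κ / P)) ^ 2 ≤ κ := by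
    rw [Real.sq_sqrt (by positivity), ← hP]
    rw [mul_div_cancel₀ _ hPpos.ne']
  obtain ⟨m, W, hW, hWY⟩ := avDs_supp s L
  obtain ⟨M, γ, hγ⟩ := fin_cover W τ
  refine ⟨M, γ, fun Y hY hYA => ?_⟩
  have hYR : ∀ x ∈ Y, ‖x‖ ≤ R := fun x hx => hAR x (hYA hx)
  have hGm : Measurable (avDs s L (Y.indicator (fun _ => (1 : ℝ)))) := by
    refine (avDs_bdd hd s L (C := 1) ⟨measurable_const.indicator hY, fun x => ?_⟩).1
    by_cases hx : x ∈ Y
    · simp [hx]
    · simp [hx]
  set G : Eu n → ℝ := avDs s L (Y.indicator (fun _ => (1 : ℝ))) with hG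
  set S : Set (Eu n) := {x | G x ≠ 0} with hS
  have hSm : MeasurableSet S := (hGm (measurableSet_singleton 0)).compl
  have hSW : ∀ x ∈ S, ∃ a, W a x ∈ Y := fun x hx => hWY Y x hx
  have hSR : ∀ x ∈ S, ‖x‖ ≤ R + shiftL L := fun x hx => by
    obtain ⟨a, ha⟩ := hSW x hx
    exact (hW a x).trans (by linarith [hYR _ ha])
  have hSτ : ∀ x ∈ S, ∃ k, x + τ k ∈ B := fun x hx => hτ x (hSR x hx)
  obtain ⟨hc1, hc2⟩ := hγ B Y S hB hSm hSW hSτ
  have hSfin : volume S ≠ ⊤ := by
    refine ne_top_of_le_ne_top ?_ (measure_mono (t := Metric.closedBall (0 : Eu n) (R + shiftL L))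
      (fun x hx => by rw [mem_closedBall_zero_iff]; exact hSR x hx))
    exact measure_closedBall_lt_top.ne
  have hYfin : volume Y ≠ ⊤ := (hAb.subset hYA).measure_lt_top.ne
  set T : Set (Eu n) := B ∩ ⋃ a, γ a '' Y with hT
  have hTfin : volume T ≠ ⊤ := ne_top_of_le_ne_top hBfin (measure_mono inter_subset_left)
  have e1 := core1 hd s _ hgap L b C R κ hb hC hκ' hK Y hY hYR
  have e2 := core2 hd s _ hgap L b C R κ hb hC hκ' hK Y hY hYR (B \ S) (hB.diff hSm)
    (fun x hx => hBR x hx.1) (fun x hx => by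
      by_contra h
      exact hx.2 h)
  have f1 : volume.real S ≤ N * volume.real T := by
    have := ENNReal.toReal_mono (ENNReal.mul_ne_top (ENNReal.natCast_ne_top N) hTfin) hc2
    rwa [ENNReal.toReal_mul, ENNReal.toReal_natCast] at this
  have f2 : volume.real B - volume.real (B \ S) ≤ volume.real T := by
    have h3 : volume.real (B ∩ S) ≤ volume.real T := ENNReal.toReal_mono hTfin hc1
    have h4 : volume.real (B ∩ S) + volume.real (B \ S) = volume.real B :=
      measureReal_inter_add_sdiff (μ := volume) hSm hBfin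
    linarith
  have key := D1_Exp_real b C N κ (volume.real Y) (volume.real S) (volume.real (B \ S))
    (volume.real B) (volume.real T) hb hC hN1 hvB measureReal_nonneg measureReal_nonneg
    measureReal_nonneg hκpos.le ?_ ?_ e1 e2 f1 f2
  · have h5 : (min (4 * volume Y) (3 / 4 * volume B)).toReal ≤ (volume T).toReal := by
      have h6 : 4 * volume Y ≠ ⊤ := ENNReal.mul_ne_top (by simp) hYfin
      have h7 : 3 / 4 * volume B ≠ ⊤ := by
        refine ENNReal.mul_ne_top ?_ hBfin
        exact (ENNReal.div_lt_top (by simp) (by simp)).ne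
      rw [ENNReal.toReal_min h6 h7, ENNReal.toReal_mul, ENNReal.toReal_mul, ENNReal.toReal_div]
      simpa [measureReal_def] using key
    refine (ENNReal.toReal_le_toReal ?_ hTfin).1 h5
    exact ne_top_of_le_ne_top (ENNReal.mul_ne_top (by simp) hYfin) (min_le_left _ _)
  · have h3 : κ ≤ 1 / (16 * N) := min_le_left _ _
    calc κ * (16 * N) ≤ 1 / (16 * N) * (16 * N) := mul_le_mul_of_nonneg_right h3 (by positivity)
      _ = 1 := by field_simp
  · have h3 : κ ≤ b ^ 2 * volume.real B / (64 * C * N) := min_le_right _ _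
    calc κ * (64 * C * N) ≤ b ^ 2 * volume.real B / (64 * C * N) * (64 * C * N) :=
          mul_le_mul_of_nonneg_right h3 (by positivity)
      _ = b ^ 2 * volume.real B := by field_simp

end BorelEq
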