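import Pool.Agent.Lib.MP_75103d_lc.D1_Bas

/-! Part (D1): the spectral gap for one action. -/

set_option autoImplicit false

open MeasureTheory Set
open scoped ENNReal

namespace BorelEq

private theorem D1_Gap_meas1 {n : ℕ} (α : MAct UQ (Eu n)) {F : Eu n → ℝ} (hF : Measurable F)
    (x : Eu n) : Measurable (fun g : UQ => F (α.a g x)) :=
  hF.comp (α.meas.comp (measurable_id.prodMk measurable_const))

private theorem D1_Gap_meas2 {n : ℕ} (α : MAct UQ (Eu n)) {F : Eu n → ℝ} (hF : Measurable F)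
    (g : UQ) : Measurable (fun x : Eu n => F (α.a g x)) :=
  hF.comp (α.meas.comp (measurable_const.prodMk measurable_id))

private theorem D1_Gap_avD_meas {n d : ℕ} (s : Fin d → UQ) (α : MAct UQ (Eu n)) {F : Eu n → ℝ}
    (hF : Measurable F) : Measurable (avD s α F) := by
  unfold avD
  exact (Finset.measurable_sum _ (fun i _ => D1_Gap_meas2 α hF (s i))).div_const _

private theorem D1_Gap_ofReal {f : UQ → ℝ} (hf : Measurable f) {K : ℝ} (hK : ∀ g, |f g| ≤ K) :
    ∫⁻ g, ENNReal.ofReal (f g ^ 2) ∂muQ = ENNReal.ofReal (∫ g, f g ^ 2 ∂muQ) := by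
  rw [ofReal_integral_eq_lintegral_ofReal]
  · refine Integrable.of_bound (hf.pow_const 2).aestronglyMeasurable (K ^ 2) ?_
    filter_upwards with g
    rw [Real.norm_eq_abs, abs_pow]
    exact pow_le_pow_left₀ (abs_nonneg _) (hK g) 2
  · filter_upwards with g
    exact sq_nonneg _

private theorem D1_Gap_ex {n : ℕ} (α : MAct UQ (Eu n))
    (hmp : ∀ g, MeasurePreserving (α.a g) volume volume) (H : Eu n → ℝ) (hH : Measurable H) :
    ∫⁻ x, (∫⁻ g, ENNReal.ofReal (H (α.a g x) ^ 2) ∂muQ) = sqn H := by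
  have hmm : Measurable (fun q : Eu n × UQ => H (α.a q.2 q.1)) :=
    hH.comp (α.meas.comp (measurable_snd.prodMk measurable_fst))
  have hmm2 : Measurable (fun q : Eu n × UQ => ENNReal.ofReal (H (α.a q.2 q.1) ^ 2)) :=
    (hmm.pow_const 2).ennreal_ofReal
  have hsw : ∫⁻ x, (∫⁻ g, ENNReal.ofReal (H (α.a g x) ^ 2) ∂muQ) =
      ∫⁻ g, (∫⁻ x, ENNReal.ofReal (H (α.a g x) ^ 2)) ∂muQ :=
    lintegral_lintegral_swap (μ := volume) (ν := muQ)
      (f := fun x g => ENNReal.ofReal (H (α.a g x) ^ 2)) hmm2.aemeasurable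
  rw [hsw]
  have h4 : ∀ g, ∫⁻ x, ENNReal.ofReal (H (α.a g x) ^ 2) = sqn H := by
    intro g
    exact (hmp g).lintegral_comp ((hH.pow_const 2).ennreal_ofReal)
  simp_rw [h4]
  simp

/-- For a fixed `x` apply the gap to `g ↦ F (g x)`: `(avD F - avR F)(g x)` is the integrand on the
left (`avR F (g x) = avR F x` by `muQ_right`).  Integrate over `x`, exchange the integrals and use
`rotE_mp` for each `g`. -/
theorem sqn_gap {n d : ℕ} (s : Fin d → UQ) (ρ : ℝ) (hgap : GapR s ρ)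
    (e : Fin 3 ↪ Fin n) (p : Eu n) {C : ℝ} {F : Eu n → ℝ} (h : Bdd C F) :
    sqn (fun x => avD s (rotA e p) F x - avR (rotA e p) F x) ≤ ENNReal.ofReal (ρ ^ 2) * sqn F := by
  obtain ⟨hF, hC⟩ := h
  set α := rotA e p with hα
  have hR : Bdd C (avR α F) := avR_bdd α ⟨hF, hC⟩
  have hDm : Measurable (fun x => avD s α F x - avR α F x) :=
    (D1_Gap_avD_meas s α hF).sub hR.1
  have hDb : ∀ x, |avD s α F x - avR α F x| ≤ (∑ _i : Fin d, C) / d + C := by
    intro x
    have h1 : |avD s α F x| ≤ (∑ _i : Fin d, C) / d := by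
      unfold avD
      rw [abs_div, abs_of_nonneg (Nat.cast_nonneg d : (0 : ℝ) ≤ d)]
      apply div_le_div_of_nonneg_right _ (Nat.cast_nonneg d)
      exact (Finset.abs_sum_le_sum_abs _ _).trans (Finset.sum_le_sum (fun i _ => hC _))
    calc |avD s α F x - avR α F x| ≤ |avD s α F x| + |avR α F x| := abs_sub _ _
      _ ≤ _ := add_le_add h1 (hR.2 x)
  -- the pointwise inequality
  have hpt : ∀ x, ∫⁻ g, ENNReal.ofReal ((avD s α F (α.a g x) - avR α F (α.a g x)) ^ 2) ∂muQ ≤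
      ENNReal.ofReal (ρ ^ 2) * ∫⁻ g, ENNReal.ofReal (F (α.a g x) ^ 2) ∂muQ := by
    intro x
    have hg := hgap (fun g => F (α.a g x)) (D1_Gap_meas1 α hF x) ⟨C, fun g => hC _⟩
    have hr : ∀ g, avR α F (α.a g x) = ∫ h, F (α.a h x) ∂muQ := by
      intro g
      unfold avR
      have h2 : ∀ h, F (α.a h (α.a g x)) = (fun u => F (α.a u x)) (h * g) := by
        intro h
        show _ = F (α.a (h * g) x)
        rw [α.mul]
      simp_rw [h2]
      have h3 := (muQ_right g)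
      rw [← integral_map h3.measurable.aemeasurable
        (D1_Gap_meas1 α hF x).aestronglyMeasurable, h3.map_eq]
    have hd : ∀ g, avD s α F (α.a g x) = (∑ i, F (α.a (s i * g) x)) / d := by
      intro g
      unfold avD
      simp_rw [α.mul]
    have e1 : ∫ g, (avD s α F (α.a g x) - avR α F (α.a g x)) ^ 2 ∂muQ ≤
        ρ ^ 2 * ∫ g, (F (α.a g x)) ^ 2 ∂muQ := by
      simp_rw [hr, hd]
      exact hg
    rw [D1_Gap_ofReal (D1_Gap_meas1 α hDm x) (fun g => hDb _),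
      D1_Gap_ofReal (D1_Gap_meas1 α hF x) (fun g => hC _), ← ENNReal.ofReal_mul (sq_nonneg ρ)]
    exact ENNReal.ofReal_le_ofReal e1
  -- exchange
  have hex : ∀ H : Eu n → ℝ, Measurable H →
      ∫⁻ x, (∫⁻ g, ENNReal.ofReal (H (α.a g x) ^ 2) ∂muQ) = sqn H :=
    fun H hH => D1_Gap_ex α (fun g => rotE_mp e p g) H hH
  calc sqn (fun x => avD s α F x - avR α F x)
      = ∫⁻ x, ∫⁻ g, ENNReal.ofReal ((avD s α F (α.a g x) - avR α F (α.a g x)) ^ 2) ∂muQ :=
        (hex _ hDm).symm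
    _ ≤ ∫⁻ x, ENNReal.ofReal (ρ ^ 2) * ∫⁻ g, ENNReal.ofReal (F (α.a g x) ^ 2) ∂muQ :=
        lintegral_mono hpt
    _ = ENNReal.ofReal (ρ ^ 2) * ∫⁻ x, ∫⁻ g, ENNReal.ofReal (F (α.a g x) ^ 2) ∂muQ := by
        rw [lintegral_const_mul' _ _ ENNReal.ofReal_ne_top]
    _ = ENNReal.ofReal (ρ ^ 2) * sqn F := by rw [hex F hF]

end BorelEq
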