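import Pool.Agent.Lib.MP_75103d_lc.D1_Gap
import Pool.Agent.Lib.MP_75103d_lc.D1_Con

/-! Part (D1): finite averages against full averages. -/

set_option autoImplicit false

open MeasureTheory Set
open scoped ENNReal

namespace BorelEq

theorem sqn_add_le {n : ℕ} {F H : Eu n → ℝ} (hF : Measurable F) :
    sqn (fun x => F x + H x) ≤ 2 * sqn F + 2 * sqn H := by
  have h1 : ∀ x, ENNReal.ofReal ((F x + H x) ^ 2) ≤
      2 * ENNReal.ofReal (F x ^ 2) + 2 * ENNReal.ofReal (H x ^ 2) := by
    intro x
    have e2 : (2 : ℝ≥0∞) = ENNReal.ofReal 2 := by simp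
    rw [e2, ← ENNReal.ofReal_mul (by norm_num), ← ENNReal.ofReal_mul (by norm_num),
      ← ENNReal.ofReal_add (by positivity) (by positivity)]
    apply ENNReal.ofReal_le_ofReal
    nlinarith [sq_nonneg (F x - H x)]
  calc sqn (fun x => F x + H x)
      ≤ ∫⁻ x, (2 * ENNReal.ofReal (F x ^ 2) + 2 * ENNReal.ofReal (H x ^ 2)) := lintegral_mono h1
    _ = 2 * sqn F + 2 * sqn H := by
        rw [lintegral_add_left ((hF.pow_const 2).ennreal_ofReal.const_mul 2),
          lintegral_const_mul' _ _ (by simp), lintegral_const_mul' _ _ (by simp)]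
        rfl

private theorem D1_Tel_sub {n : ℕ} (e : Fin 3 ↪ Fin n) (p : Eu n) {C : ℝ} {G H : Eu n → ℝ}
    (hG : Bdd C G) (hH : Bdd C H) (x : Eu n) :
    avR (rotA e p) (fun y => G y - H y) x = avR (rotA e p) G x - avR (rotA e p) H x := by
  have hx : Measurable (fun g : UQ => (rotA e p).a g x) :=
    (rotA e p).meas.comp (g := fun q : UQ × Eu n => (rotA e p).a q.1 q.2) (f := fun g => (g, x))
      measurable_prodMk_right
  have h1 : ∀ {F : Eu n → ℝ}, Bdd C F → Integrable (fun g => F ((rotA e p).a g x)) muQ := by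
    intro F hF
    exact Integrable.of_bound (hF.1.comp hx).aestronglyMeasurable C
      (Filter.Eventually.of_forall fun g => hF.2 _)
  unfold avR
  exact integral_sub (h1 hG) (h1 hH)

/-- `avD G - avR H = (avD G - avR G) + avR (G - H)`, so the error `a_k` satisfies
`a_{k+1} ≤ 2 ρ² sqn F + 2 a_k`. -/
theorem sqn_tel {n d : ℕ} (hd : 0 < d) (s : Fin d → UQ) (ρ : ℝ) (hgap : GapR s ρ)
    (L : List ((Fin 3 ↪ Fin n) × Eu n)) {C : ℝ} {F : Eu n → ℝ} (h : Bdd C F) :
    sqn (fun x => avDs s L F x - avRs L F x) ≤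
      ENNReal.ofReal (2 ^ (L.length + 1) * ρ ^ 2) * sqn F := by
  have key : sqn (fun x => avDs s L F x - avRs L F x) ≤
      ENNReal.ofReal ((2 ^ (L.length + 1) - 2) * ρ ^ 2) * sqn F := by
    induction L with
    | nil =>
      have h0 : (fun x => avDs s [] F x - avRs [] F x) = fun _ => (0 : ℝ) := by
        funext x
        show F x - F x = 0
        ring
      rw [h0]
      have h1 : sqn (fun _ : Eu n => (0 : ℝ)) = 0 := by
        unfold sqn
        simp
      rw [h1]
      exact bot_le
    | cons q L ih =>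
      set G := avDs s L F with hG
      set H := avRs L F with hH
      have bG : Bdd C G := avDs_bdd hd s L h
      have bH : Bdd C H := avRs_bdd L h
      have bGH : Bdd (C + C) (fun y => G y - H y) := by
        refine ⟨bG.1.sub bH.1, fun x => ?_⟩
        exact (abs_sub _ _).trans (add_le_add (bG.2 x) (bH.2 x))
      have e1 : (fun x => avDs s (q :: L) F x - avRs (q :: L) F x) =
          fun x => (avD s (rotA q.1 q.2) G x - avR (rotA q.1 q.2) G x)
            + avR (rotA q.1 q.2) (fun y => G y - H y) x := by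
        funext x
        rw [D1_Tel_sub q.1 q.2 bG bH]
        show avD s (rotA q.1 q.2) G x - avR (rotA q.1 q.2) H x = _
        ring
      rw [e1]
      have hmeas : Measurable (fun x => avD s (rotA q.1 q.2) G x - avR (rotA q.1 q.2) G x) :=
        (avD_bdd hd s _ bG).1.sub (avR_bdd _ bG).1
      refine (sqn_add_le hmeas).trans ?_
      have h1 := sqn_gap s ρ hgap q.1 q.2 bG
      have h2 := sqn_avR_le q.1 q.2 bGH
      have h3 : sqn G ≤ sqn F := sqn_avDs_le hd s L h
      have h4 : sqn (fun x => avD s (rotA q.1 q.2) G x - avR (rotA q.1 q.2) G x) ≤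
          ENNReal.ofReal (ρ ^ 2) * sqn F := h1.trans (mul_le_mul_right h3 _)
      have h5 : sqn (avR (rotA q.1 q.2) (fun y => G y - H y)) ≤
          ENNReal.ofReal ((2 ^ (L.length + 1) - 2) * ρ ^ 2) * sqn F := h2.trans ih
      have hpow : (0 : ℝ) ≤ 2 ^ (L.length + 1) - 2 := by
        have : (1 : ℝ) ≤ 2 ^ L.length := one_le_pow₀ (by norm_num)
        rw [pow_succ]
        linarith
      calc 2 * sqn (fun x => avD s (rotA q.1 q.2) G x - avR (rotA q.1 q.2) G x)
            + 2 * sqn (fun x => avR (rotA q.1 q.2) (fun y => G y - H y) x)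
          ≤ 2 * (ENNReal.ofReal (ρ ^ 2) * sqn F)
            + 2 * (ENNReal.ofReal ((2 ^ (L.length + 1) - 2) * ρ ^ 2) * sqn F) :=
            add_le_add (mul_le_mul_right h4 2) (mul_le_mul_right h5 2)
        _ = ENNReal.ofReal ((2 ^ ((q :: L).length + 1) - 2) * ρ ^ 2) * sqn F := by
            have e2 : (2 : ℝ≥0∞) = ENNReal.ofReal 2 := by simp
            rw [e2, ← mul_assoc, ← mul_assoc, ← ENNReal.ofReal_mul (by norm_num),
              ← ENNReal.ofReal_mul (by norm_num), ← add_mul,
              ← ENNReal.ofReal_add (by positivity) (by positivity), List.length_cons]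
            congr 2
            ring
  refine key.trans (mul_le_mul_left (ENNReal.ofReal_le_ofReal ?_) _)
  nlinarith [sq_nonneg ρ]

end BorelEq
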