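import Pool.Agent.Lib.MP_75103d_lc.D2_Meas

/-! The last step of an augmentation. -/

set_option autoImplicit false

open MeasureTheory Set

namespace BorelEq

section

variable {X : Type} [MetricSpace X] [MeasurableSpace X] [BorelSpace X] {m : ℕ}

/-- the last step: `c' z = if z ∈ P then some a else c z`. -/
theorem D2_last {A B : Set X} {γ : Fin m → X ≃ᵢ X} {c : X → Option (Fin m)}
    (hc : IsMat A B γ c) (a : Fin m) {P : Set X} (hP : MeasurableSet P)
    (hPu : P ⊆ unA A c) (hs : ∀ x ∈ P, γ a x ∈ unB B γ c) :
    ∃ c' : X → Option (Fin m), IsMat A B γ c' ∧ unA A c' = unA A c \ P ∧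
      ∀ z, z ∉ P → c' z = c z := by
  classical
  have hin : ∀ z, z ∈ P → (if z ∈ P then some a else c z) = some a := fun z hz => if_pos hz
  have hout : ∀ z, z ∉ P → (if z ∈ P then some a else c z) = c z := fun z hz => if_neg hz
  have key : ∀ x y b, x ∈ P → c y = some b → γ a x ≠ γ b y := by
    intro x y b hx hy h
    apply (hs x hx).2
    refine mem_iUnion.mpr ⟨b, y, ⟨mem_univ y, hy⟩, h.symm⟩
  refine ⟨fun z => if z ∈ P then some a else c z, ⟨?_, ?_, ?_, ?_⟩, ?_, hout⟩
  · intro b
    have h1 : {x | (if x ∈ P then some a else c x) = some b} =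
        (P ∩ {_x | a = b}) ∪ (Pᶜ ∩ {x | c x = some b}) := by
      ext x
      by_cases hx : x ∈ P
      · simp [hx]
      · simp [hx]
    rw [h1]
    exact (hP.inter (MeasurableSet.const _)).union (hP.compl.inter (hc.meas b))
  · intro x b h
    by_cases hx : x ∈ P
    · exact (hPu hx).1
    · exact hc.domA x b ((hout x hx).symm.trans h)
  · intro x b h
    by_cases hx : x ∈ P
    · have hab : a = b := Option.some.inj ((hin x hx).symm.trans h)
      rw [← hab]
      exact (hs x hx).1
    · exact hc.domB x b ((hout x hx).symm.trans h)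
  · intro x y b d hxb hyd h
    by_cases hx : x ∈ P
    · have hab : a = b := Option.some.inj ((hin x hx).symm.trans hxb)
      by_cases hy : y ∈ P
      · have had : a = d := Option.some.inj ((hin y hy).symm.trans hyd)
        rw [← hab, ← had] at h
        exact (γ a).injective h
      · rw [← hab] at h
        exact absurd h (key x y d hx ((hout y hy).symm.trans hyd))
    · by_cases hy : y ∈ P
      · have had : a = d := Option.some.inj ((hin y hy).symm.trans hyd)
        rw [← had] at h
        exact absurd h.symm (key y x b hy ((hout x hx).symm.trans hxb))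
      · exact hc.inj x y b d ((hout x hx).symm.trans hxb) ((hout y hy).symm.trans hyd) h
  · ext x
    by_cases hx : x ∈ P
    · simp [unA, hx]
    · simp [unA, hx]

end

end BorelEq
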