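import Pool.Agent.Lib.MP_75103d_lc.D2_Defs

/-! Alternating paths: orbits. -/

set_option autoImplicit false

open MeasureTheory Set

namespace BorelEq

section

variable {X : Type} [MetricSpace X] {m : ℕ}

/-- distinct points of a finite list are separated. -/
theorem D2_list_sep (L : List X) (h : L.Nodup) :
    ∃ N : ℕ, L.Pairwise (fun y z => 1 / ((N : ℝ) + 1) ≤ dist y z) := by
  suffices H : ∀ᶠ N : ℕ in Filter.atTop,
      L.Pairwise (fun y z => 1 / ((N : ℝ) + 1) ≤ dist y z) from H.exists
  induction L with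
  | nil => exact Filter.Eventually.of_forall fun N => List.Pairwise.nil
  | cons a L ih =>
    rw [List.nodup_cons] at h
    have h1 : ∀ᶠ N : ℕ in Filter.atTop, ∀ z ∈ {z | z ∈ L}, 1 / ((N : ℝ) + 1) ≤ dist a z := by
      rw [Filter.eventually_all_finite L.finite_toSet]
      intro z hz
      have hne : a ≠ z := fun hc => h.1 (hc ▸ hz)
      have hpos : 0 < dist a z := dist_pos.2 hne
      have ht := tendsto_one_div_add_atTop_nhds_zero_nat (𝕜 := ℝ)
      filter_upwards [ht.eventually (gt_mem_nhds hpos)] with N hN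
      exact hN.le
    filter_upwards [h1, ih h.2] with N hN1 hN2
    exact List.pairwise_cons.2 ⟨fun z hz => hN1 z hz, hN2⟩

/-- the points of `orb γ l x`, `x ∈ P`. -/
theorem D2_orb_cons (γ : Fin m → X ≃ᵢ X) (p : Fin m × Fin m) (l : List (Fin m × Fin m))
    (P : Set X) : {z | ∃ x ∈ P, z ∈ orb γ (p :: l) x} =
      P ∪ {z | ∃ x ∈ stp γ p '' P, z ∈ orb γ l x} := by
  ext z
  constructor
  · rintro ⟨x, hx, hz⟩
    rw [orb, List.mem_cons] at hz
    rcases hz with rfl | hz
    · exact Or.inl hx
    · exact Or.inr ⟨_, ⟨x, hx, rfl⟩, hz⟩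
  · rintro (hz | ⟨_, ⟨x, hx, rfl⟩, hz⟩)
    · refine ⟨z, hz, ?_⟩
      rw [orb, List.mem_cons]
      exact Or.inl rfl
    · refine ⟨x, hx, ?_⟩
      rw [orb, List.mem_cons]
      exact Or.inr hz

private theorem D2_PathB_head (γ : Fin m → X ≃ᵢ X) (l : List (Fin m × Fin m)) (x : X) :
    x ∈ orb γ l x := by
  cases l with
  | nil => rw [orb]; exact List.mem_cons_self
  | cons p l => rw [orb]; exact List.mem_cons_self

/-- changing the colouring away from the later points does not change the paths, if the set of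
partners does not change. -/
theorem D2_path_congr {B : Set X} {γ : Fin m → X ≃ᵢ X} {c c' : X → Option (Fin m)} (a : Fin m)
    (hun : unB B γ c' = unB B γ c) (l : List (Fin m × Fin m)) (x : X)
    (h : ∀ z ∈ (orb γ l x).tail, c' z = c z) (hx : APath B γ c a l x) :
    APath B γ c' a l x := by
  induction l generalizing x with
  | nil =>
    rw [APath] at hx ⊢
    rw [hun]
    exact hx
  | cons p l ih =>
    rw [APath] at hx ⊢
    rw [orb, List.tail_cons] at h
    refine ⟨?_, ih _ (fun z hz => h z (List.mem_of_mem_tail hz)) hx.2⟩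
    rw [h _ (D2_PathB_head γ l _)]
    exact hx.1

end

end BorelEq
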