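import Pool.Agent.Lib.MP_75103d_lc.D2_FlipA
import Pool.Agent.Lib.MP_75103d_lc.D2_FlipB
import Pool.Agent.Lib.MP_75103d_lc.D2_PathB

/-! Augmentation along a path. -/

set_option autoImplicit false

open MeasureTheory Set

namespace BorelEq

section

variable {X : Type} [MetricSpace X] [MeasurableSpace X] [BorelSpace X] {m : ℕ}

private theorem AugA_orb (γ : Fin m → X ≃ᵢ X) (l : List (Fin m × Fin m)) (x : X) :
    ∃ L, orb γ l x = x :: L := by
  cases l with
  | nil => exact ⟨[], rfl⟩
  | cons p l => exact ⟨orb γ l (stp γ p x), rfl⟩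

/-- augmentation, by induction on `l` (generalizing `c` and `P`). `l = []`: `D2_last`. `p :: l`:
`D2_flip` gives `c1`; apply the induction hypothesis to `c1` and `P1 = stp γ p '' P ⊆ unA A c1`
(`stp γ p` is an isometry, `D2_stp_iso`). The paths of `c` from `stp γ p x` are paths of `c1` by
`D2_path_congr`: a later point `z ∈ (orb γ l (stp γ p x)).tail` is at distance `≥ ε` from `x` and
from `stp γ p x`, so it is not in `P` and not in `P1`. -/
theorem D2_augment {A B : Set X} {γ : Fin m → X ≃ᵢ X} (a : Fin m) (ε : ℝ)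
    (l : List (Fin m × Fin m)) (c : X → Option (Fin m)) (hc : IsMat A B γ c) (P : Set X)
    (hP : MeasurableSet P) (hPu : P ⊆ unA A c) (hpath : ∀ x ∈ P, APath B γ c a l x)
    (hsep : ∀ x ∈ P, (orb γ l x).Pairwise (fun y z => ε ≤ dist y z))
    (hdiam : ∀ x ∈ P, ∀ y ∈ P, dist x y < ε) :
    ∃ c' : X → Option (Fin m), IsMat A B γ c' ∧ unA A c' = unA A c \ P ∧
      ∀ z, (∀ x ∈ P, z ∉ orb γ l x) → c' z = c z := by
  induction l generalizing c P with
  | nil =>
    obtain ⟨c', h1, h2, h3⟩ := D2_last hc a hP hPu hpath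
    refine ⟨c', h1, h2, fun z hz => h3 z fun hzP => hz z hzP ?_⟩
    simp [orb]
  | cons p l ih =>
    obtain ⟨c1, hc1, hu1, hB1, hag⟩ := D2_flip hc p hP hPu (fun x hx => (hpath x hx).1)
    obtain ⟨e, he⟩ := D2_stp_iso γ p
    have hd : ∀ x y, dist (stp γ p x) (stp γ p y) = dist x y := by
      intro x y
      rw [← he x, ← he y]
      exact e.dist_eq x y
    have hPe : stp γ p '' P = e '' P := by
      refine image_congr fun x _ => (he x).symm
    have hP1 : MeasurableSet (stp γ p '' P) := by
      rw [hPe]
      exact D2_image_meas e hP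
    have hsep' : ∀ x ∈ P, (∀ z ∈ orb γ l (stp γ p x), ε ≤ dist x z) ∧
        (orb γ l (stp γ p x)).Pairwise (fun y z => ε ≤ dist y z) := by
      intro x hx
      have h := hsep x hx
      rw [show orb γ (p :: l) x = x :: orb γ l (stp γ p x) from rfl, List.pairwise_cons] at h
      exact h
    obtain ⟨c', hc', hu', hag'⟩ := ih c1 hc1 (stp γ p '' P) hP1
      (by rw [hu1]; exact subset_union_right)
      (by
        rintro _ ⟨x, hx, rfl⟩
        refine D2_path_congr a hB1 l _ ?_ (hpath x hx).2
        intro z hz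
        obtain ⟨L, hL⟩ := AugA_orb γ l (stp γ p x)
        have h1 := (hsep' x hx).1 z (by rw [hL]; rw [hL] at hz; exact List.mem_cons_of_mem _ hz)
        have h2 := (hsep' x hx).2
        rw [hL, List.pairwise_cons] at h2
        rw [hL] at hz
        have h3 := h2.1 z hz
        refine hag z (fun hzP => ?_) ?_
        · exact absurd (hdiam x hx z hzP) (not_lt.2 h1)
        · rintro ⟨y, hy, rfl⟩
          rw [hd] at h3
          exact absurd (hdiam x hx y hy) (not_lt.2 h3))
      (by
        rintro _ ⟨x, hx, rfl⟩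
        exact (hsep' x hx).2)
      (by
        rintro _ ⟨x, hx, rfl⟩ _ ⟨y, hy, rfl⟩
        rw [hd]
        exact hdiam x hx y hy)
    refine ⟨c', hc', ?_, ?_⟩
    · rw [hu', hu1]
      ext z
      constructor
      · rintro ⟨h1 | h1, h2⟩
        · exact h1
        · exact absurd h1 h2
      · intro h1
        refine ⟨Or.inl h1, ?_⟩
        rintro ⟨x, hx, rfl⟩
        have h2 := (hpath x hx).1
        rw [h1.1.2] at h2
        exact absurd h2 (by simp)
    · intro z hz
      have h1 : z ∉ P := by
        intro hzP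
        refine hz z hzP ?_
        rw [show orb γ (p :: l) z = z :: orb γ l (stp γ p z) from rfl]
        exact List.mem_cons_self
      have h2 : ∀ x ∈ stp γ p '' P, z ∉ orb γ l x := by
        rintro _ ⟨x, hx, rfl⟩ hcon
        refine hz x hx ?_
        rw [show orb γ (p :: l) x = x :: orb γ l (stp γ p x) from rfl]
        exact List.mem_cons_of_mem _ hcon
      have h3 : z ∉ stp γ p '' P := by
        intro hzP
        refine h2 z hzP ?_
        obtain ⟨L, hL⟩ := AugA_orb γ l z
        rw [hL]
        exact List.mem_cons_self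
      rw [hag' z h2, hag z h1 h3]

end

end BorelEq
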