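import Pool.Agent.Lib.MP_75103d_lc.D2_Iso
import Pool.Agent.Lib.MP_75103d_lc.D2_PathB

/-! The measure of the union of the paths. -/

set_option autoImplicit false

open MeasureTheory Set

namespace BorelEq

section

variable {X : Type} [MetricSpace X] [MeasurableSpace X] [BorelSpace X] {m : ℕ}

/-- the set of all points of the paths is small. -/
theorem D2_orb_measure {μ : Measure X} {γ : Fin m → X ≃ᵢ X}
    (hγ : ∀ a, MeasurePreserving (γ a) μ μ) (l : List (Fin m × Fin m)) (P : Set X) :
    μ {z | ∃ x ∈ P, z ∈ orb γ l x} ≤ ((l.length : ENNReal) + 1) * μ P := by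
  induction l generalizing P with
  | nil =>
    have h : {z | ∃ x ∈ P, z ∈ orb γ [] x} = P := by
      ext z
      simp only [orb, List.mem_singleton, mem_setOf_eq]
      constructor
      · rintro ⟨x, hx, rfl⟩
        exact hx
      · intro h
        exact ⟨z, h, rfl⟩
    rw [h]
    simp
  | cons p l ih =>
    rw [D2_orb_cons]
    calc _ ≤ μ P + μ {z | ∃ x ∈ stp γ p '' P, z ∈ orb γ l x} := measure_union_le _ _
      _ ≤ μ P + ((l.length : ENNReal) + 1) * μ (stp γ p '' P) := add_le_add le_rfl (ih _)
      _ = _ := by
        rw [D2_stp_measure γ hγ, List.length_cons]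
        push_cast
        ring

end

end BorelEq
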