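import Pool.Agent.Lib.MP_75103d_lc.Defs

/-!
Part (D2): almost everywhere matching. Definitions.

`X` is a metric space, `γ a` (`a : Fin m`) are isometries of `X`, `A` and `B` are sets.
A partial matching is given by a colouring `c : X → Option (Fin m)`: `c x = some a` means that
the point `x` of `A` is matched with the point `γ a x` of `B`.
-/

set_option autoImplicit false

open MeasureTheory Set

namespace BorelEq

section

variable {X : Type} [MetricSpace X] {m : ℕ}

/-- a partial matching. -/
structure IsMat [MeasurableSpace X] (A B : Set X) (γ : Fin m → X ≃ᵢ X)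
    (c : X → Option (Fin m)) : Prop where
  meas : ∀ a, MeasurableSet {x | c x = some a}
  domA : ∀ x a, c x = some a → x ∈ A
  domB : ∀ x a, c x = some a → γ a x ∈ B
  inj : ∀ x y a b, c x = some a → c y = some b → γ a x = γ b y → x = y

/-- the unmatched points of `A`. -/
def unA (A : Set X) (c : X → Option (Fin m)) : Set X := {x | x ∈ A ∧ c x = none}

/-- the partners of the points of `Y`. -/
def pushM (γ : Fin m → X ≃ᵢ X) (c : X → Option (Fin m)) (Y : Set X) : Set X :=
  ⋃ a, γ a '' (Y ∩ {x | c x = some a})

/-- the unmatched points of `B`. -/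
def unB (B : Set X) (γ : Fin m → X ≃ᵢ X) (c : X → Option (Fin m)) : Set X :=
  B \ pushM γ c univ

/-- the neighbours in `A` of a set `W`. -/
def nbA (A : Set X) (γ : Fin m → X ≃ᵢ X) (W : Set X) : Set X := A ∩ ⋃ a, (γ a).symm '' W

/-- the points of `B` from which an unmatched point of `B` can be reached by an alternating path
with at most `i` steps. -/
def reachB (A B : Set X) (γ : Fin m → X ≃ᵢ X) (c : X → Option (Fin m)) : ℕ → Set X
  | 0 => unB B γ c
  | i + 1 => unB B γ c ∪ pushM γ c (nbA A γ (reachB A B γ c i))

/-- one step of an alternating path. -/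
def stp (γ : Fin m → X ≃ᵢ X) (p : Fin m × Fin m) (x : X) : X := (γ p.2).symm (γ p.1 x)

/-- `l` and `a` describe an alternating path from `x` to an unmatched point of `B`. -/
def APath (B : Set X) (γ : Fin m → X ≃ᵢ X) (c : X → Option (Fin m)) (a : Fin m) :
    List (Fin m × Fin m) → X → Prop
  | [], x => γ a x ∈ unB B γ c
  | p :: l, x => c (stp γ p x) = some p.2 ∧ APath B γ c a l (stp γ p x)

/-- the points of `A` on the path. -/
def orb (γ : Fin m → X ≃ᵢ X) : List (Fin m × Fin m) → X → List X
  | [], x => [x]
  | p :: l, x => x :: orb γ l (stp γ p x)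

/-- the potential of a matching. -/
noncomputable def pot [MeasurableSpace X] (μ : Measure X) (A : Set X)
    (c : X → Option (Fin m)) : ℝ :=
  8 * Real.sqrt ((μ A).toReal) * Real.sqrt ((μ (unA A c)).toReal)

/-- `c'` is obtained from `c` by a cheap modification. -/
def Ext [MeasurableSpace X] (μ : Measure X) (A : Set X) (c c' : X → Option (Fin m)) : Prop :=
  pot μ A c' ≤ pot μ A c ∧ μ {z | c z ≠ c' z} ≤ ENNReal.ofReal (pot μ A c - pot μ A c')

end

end BorelEq
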