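import Pool.Agent.Lib.MP_75103d_lc.D2_Defs

/-! Exhaustion. -/

set_option autoImplicit false

open MeasureTheory Set

namespace BorelEq

private theorem D2_Exh_choose {S : Type} (r : S → S → Prop) (φ : S → ℝ) (hφ : ∀ s, 0 ≤ φ s)
    (hrefl : ∀ s, r s s) (s : S) (n : ℕ) :
    ∃ t, r s t ∧ ∀ t', r s t' → φ t ≤ φ t' + 1 / ((n : ℝ) + 1) := by
  have hpos : (0 : ℝ) < 1 / ((n : ℝ) + 1) := by positivity
  have hne : (φ '' {t | r s t}).Nonempty := ⟨φ s, s, hrefl s, rfl⟩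
  have hbdd : BddBelow (φ '' {t | r s t}) := ⟨0, by rintro _ ⟨t, _, rfl⟩; exact hφ t⟩
  obtain ⟨_, ⟨t, ht, rfl⟩, hlt⟩ := Real.lt_sInf_add_pos hne hpos
  refine ⟨t, ht, fun t' ht' => ?_⟩
  have h1 : sInf (φ '' {t | r s t}) ≤ φ t' := csInf_le hbdd ⟨t', ht', rfl⟩
  linarith

/-- abstract exhaustion: choose `s (n + 1)` with `r (s n) (s (n + 1))` and
`φ (s (n + 1)) ≤ inf {φ t | r (s n) t} + 1 / (n + 1)`; the limit `t` of the sequence satisfies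
`φ t = 0`, since otherwise it can be improved. -/
theorem D2_exhaust {S : Type} (r : S → S → Prop) (φ : S → ℝ) (hφ : ∀ s, 0 ≤ φ s)
    (hrefl : ∀ s, r s s) (htrans : ∀ s t w, r s t → r t w → r s w)
    (hmono : ∀ s t, r s t → φ t ≤ φ s)
    (hlim : ∀ s : ℕ → S, (∀ n, r (s n) (s (n + 1))) → ∃ t, ∀ n, r (s n) t)
    (himp : ∀ s, 0 < φ s → ∃ t, r s t ∧ φ t < φ s) (s0 : S) : ∃ t, φ t = 0 := by
  choose nx hnx1 hnx2 using D2_Exh_choose r φ hφ hrefl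
  let s : ℕ → S := fun n => Nat.rec s0 (fun k t => nx t k) n
  have hs : ∀ n, s (n + 1) = nx (s n) n := fun n => rfl
  obtain ⟨t, ht⟩ := hlim s (fun n => by rw [hs]; exact hnx1 _ _)
  refine ⟨t, ?_⟩
  by_contra hne
  have hpos : 0 < φ t := lt_of_le_of_ne (hφ t) (Ne.symm hne)
  obtain ⟨t', ht', hlt⟩ := himp t hpos
  obtain ⟨n, hn⟩ := exists_nat_one_div_lt (sub_pos.2 hlt)
  have h1 : φ t ≤ φ (s (n + 1)) := hmono _ _ (ht (n + 1))
  have h2 : φ (s (n + 1)) ≤ φ t' + 1 / ((n : ℝ) + 1) := by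
    rw [hs]
    exact hnx2 _ _ t' (htrans _ _ _ (ht n) ht')
  linarith

end BorelEq
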