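import Pool.Agent.Lib.MP_75103d_lc.D2_Meas

/-! One flip of a matching. -/

set_option autoImplicit false

open MeasureTheory Set

namespace BorelEq

section

variable {X : Type} [MetricSpace X] [MeasurableSpace X] [BorelSpace X] {m : ℕ}

/-- one flip: the points `x ∈ P` get the colour `p.1`, the points `stp γ p x` become unmatched.
`c' z = if z ∈ P then some p.1 else if z ∈ stp γ p '' P then none else c z`. Note that
`γ p.1 x = γ p.2 (stp γ p x)`. -/
theorem D2_flip {A B : Set X} {γ : Fin m → X ≃ᵢ X} {c : X → Option (Fin m)}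
    (hc : IsMat A B γ c) (p : Fin m × Fin m) {P : Set X} (hP : MeasurableSet P)
    (hPu : P ⊆ unA A c) (hs : ∀ x ∈ P, c (stp γ p x) = some p.2) :
    ∃ c' : X → Option (Fin m), IsMat A B γ c' ∧ unA A c' = (unA A c \ P) ∪ stp γ p '' P ∧
      unB B γ c' = unB B γ c ∧ ∀ z, z ∉ P → z ∉ stp γ p '' P → c' z = c z := by
  classical
  obtain ⟨e, he⟩ := D2_stp_iso γ p
  have hQe : stp γ p '' P = e '' P := by
    refine image_congr ?_
    intro x _
    exact (he x).symm
  have hQm : MeasurableSet (stp γ p '' P) := by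
    rw [hQe]
    exact D2_image_meas e hP
  have hγ : ∀ x, γ p.2 (stp γ p x) = γ p.1 x := by
    intro x
    show γ p.2 ((γ p.2).symm (γ p.1 x)) = γ p.1 x
    rw [IsometryEquiv.apply_symm_apply]
  have hQc : ∀ z ∈ stp γ p '' P, c z = some p.2 := by
    rintro z ⟨x, hx, rfl⟩
    exact hs x hx
  have hPc : ∀ z ∈ P, c z = none := fun z hz => (hPu hz).2
  have hdis : ∀ z ∈ stp γ p '' P, z ∉ P := by
    intro z hz hzP
    have h1 := hQc z hz
    rw [hPc z hzP] at h1
    exact absurd h1 (by simp)
  let c' : X → Option (Fin m) :=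
    fun z => if z ∈ P then some p.1 else if z ∈ stp γ p '' P then none else c z
  have c1 : ∀ z ∈ P, c' z = some p.1 := fun z hz => if_pos hz
  have c2 : ∀ z ∈ stp γ p '' P, c' z = none := by
    intro z hz
    show (if z ∈ P then some p.1 else if z ∈ stp γ p '' P then none else c z) = none
    rw [if_neg (hdis z hz), if_pos hz]
  have c3 : ∀ z, z ∉ P → z ∉ stp γ p '' P → c' z = c z := by
    intro z h1 h2
    show (if z ∈ P then some p.1 else if z ∈ stp γ p '' P then none else c z) = c z
    rw [if_neg h1, if_neg h2]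
  have hsome : ∀ z a, c' z = some a ↔ (z ∈ P ∧ a = p.1) ∨
      (z ∉ P ∧ z ∉ stp γ p '' P ∧ c z = some a) := by
    intro z a
    by_cases h1 : z ∈ P
    · rw [c1 z h1]
      constructor
      · intro h
        left
        exact ⟨h1, (Option.some.inj h).symm⟩
      · rintro (⟨-, rfl⟩ | ⟨h, -⟩)
        · rfl
        · exact absurd h1 h
    · by_cases h2 : z ∈ stp γ p '' P
      · rw [c2 z h2]
        constructor
        · intro h
          exact absurd h (by simp)
        · rintro (⟨h, -⟩ | ⟨-, h, -⟩)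
          · exact absurd h h1
          · exact absurd h2 h
      · rw [c3 z h1 h2]
        constructor
        · intro h
          right
          exact ⟨h1, h2, h⟩
        · rintro (⟨h, -⟩ | ⟨-, -, h⟩)
          · exact absurd h h1
          · exact h
  refine ⟨c', ⟨?_, ?_, ?_, ?_⟩, ?_, ?_, c3⟩
  · intro a
    have hset : {x | c' x = some a} =
        (P ∩ {_x | a = p.1}) ∪ (Pᶜ ∩ ((stp γ p '' P)ᶜ ∩ {x | c x = some a})) := by
      ext z
      exact hsome z a
    rw [hset]
    refine (hP.inter (MeasurableSet.const _)).union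
      (hP.compl.inter (hQm.compl.inter (hc.meas a)))
  · intro x a h
    rcases (hsome x a).1 h with ⟨h1, -⟩ | ⟨-, -, h1⟩
    · exact (hPu h1).1
    · exact hc.domA x a h1
  · intro x a h
    rcases (hsome x a).1 h with ⟨h1, rfl⟩ | ⟨-, -, h1⟩
    · rw [← hγ]
      exact hc.domB _ _ (hs x h1)
    · exact hc.domB x a h1
  · intro x y a b hx hy hxy
    rcases (hsome x a).1 hx with ⟨h1, rfl⟩ | ⟨h1, h1', h1''⟩
    · rcases (hsome y b).1 hy with ⟨h2, rfl⟩ | ⟨h2, h2', h2''⟩
      · exact (γ p.1).injective hxy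
      · exfalso
        rw [← hγ] at hxy
        have h3 := hc.inj _ _ _ _ (hs x h1) h2'' hxy
        exact h2' ⟨x, h1, h3⟩
    · rcases (hsome y b).1 hy with ⟨h2, rfl⟩ | ⟨h2, h2', h2''⟩
      · exfalso
        rw [← hγ y] at hxy
        have h3 := hc.inj _ _ _ _ h1'' (hs y h2) hxy
        exact h1' ⟨y, h2, h3.symm⟩
      · exact hc.inj _ _ _ _ h1'' h2'' hxy
  · ext z
    constructor
    · rintro ⟨hA, hn⟩
      by_cases h1 : z ∈ P
      · rw [c1 z h1] at hn
        exact absurd hn (by simp)
      · by_cases h2 : z ∈ stp γ p '' P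
        · exact Or.inr h2
        · rw [c3 z h1 h2] at hn
          exact Or.inl ⟨⟨hA, hn⟩, h1⟩
    · rintro (⟨⟨hA, hn⟩, h1⟩ | h2)
      · refine ⟨hA, ?_⟩
        have h2 : z ∉ stp γ p '' P := by
          intro h2
          rw [hQc z h2] at hn
          exact absurd hn (by simp)
        rw [c3 z h1 h2]
        exact hn
      · exact ⟨hc.domA z _ (hQc z h2), c2 z h2⟩
  · have hpush : pushM γ c' univ = pushM γ c univ := by
      ext w
      constructor
      · intro hw
        obtain ⟨a, z, ⟨-, hz⟩, rfl⟩ := mem_iUnion.1 hw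
        rcases (hsome z a).1 hz with ⟨h1, rfl⟩ | ⟨-, -, h1⟩
        · rw [← hγ]
          exact mem_iUnion.2 ⟨p.2, _, ⟨mem_univ _, hs z h1⟩, rfl⟩
        · exact mem_iUnion.2 ⟨a, z, ⟨mem_univ _, h1⟩, rfl⟩
      · intro hw
        obtain ⟨a, z, ⟨-, hz⟩, rfl⟩ := mem_iUnion.1 hw
        have hz' : c z = some a := hz
        have h1 : z ∉ P := by
          intro h1
          rw [hPc z h1] at hz'
          exact absurd hz' (by simp)
        by_cases h2 : z ∈ stp γ p '' P
        · have h3 := hQc z h2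
          rw [hz'] at h3
          have h4 : a = p.2 := Option.some.inj h3
          subst h4
          obtain ⟨x, hx, rfl⟩ := h2
          rw [hγ]
          exact mem_iUnion.2 ⟨p.1, x, ⟨mem_univ _, c1 x hx⟩, rfl⟩
        · exact mem_iUnion.2 ⟨a, z, ⟨mem_univ _, (c3 z h1 h2).trans hz'⟩, rfl⟩
    unfold unB
    rw [hpush]

end

end BorelEq
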