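import Pool.Agent.Lib.MP_75103d_lc.D2_Push

/-! The measures of the sets reachB. -/

set_option autoImplicit false

open MeasureTheory Set

namespace BorelEq

section

variable {X : Type} [MetricSpace X] [MeasurableSpace X] [BorelSpace X] {m : ℕ}

private theorem growA_push_subset {A B : Set X} {γ : Fin m → X ≃ᵢ X} {c : X → Option (Fin m)}
    (hc : IsMat A B γ c) (Y : Set X) : pushM γ c Y ⊆ B := by
  intro z hz
  obtain ⟨a, x, ⟨_, hx⟩, rfl⟩ := mem_iUnion.1 hz
  exact hc.domB x a hx

theorem D2_reach_subset {A B : Set X} {γ : Fin m → X ≃ᵢ X} {c : X → Option (Fin m)}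
    (hc : IsMat A B γ c) (i : ℕ) : reachB A B γ c i ⊆ B := by
  cases i with
  | zero => exact fun x hx => hx.1
  | succ i =>
    intro x hx
    rcases hx with hx | hx
    · exact hx.1
    · exact growA_push_subset hc _ hx

/-- `reachB (i + 1)` is the disjoint union of `unB` (of measure `μ (unA A c)`) and of
`pushM γ c (nbA A γ (reachB i))`, of measure `μ (nbA .. \ {c = none})`; and
`nbA .. ∩ {c = none} = nbA .. ∩ unA A c` is null. -/
theorem D2_step {μ : Measure X} {A B : Set X} (hA : MeasurableSet A) (hB : MeasurableSet B)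
    (hAB : μ A = μ B) (hfin : μ A ≠ ⊤) {γ : Fin m → X ≃ᵢ X}
    (hγ : ∀ a, MeasurePreserving (γ a) μ μ) {c : X → Option (Fin m)} (hc : IsMat A B γ c)
    (i : ℕ) (h0 : μ (nbA A γ (reachB A B γ c i) ∩ unA A c) = 0) :
    (μ (reachB A B γ c (i + 1))).toReal =
      (μ (unA A c)).toReal + (μ (nbA A γ (reachB A B γ c i))).toReal := by
  set N := nbA A γ (reachB A B γ c i) with hN
  have hNm : MeasurableSet N := D2_nbA_meas γ hA (D2_reach_meas γ hA hB hc.meas i)
  have hnone : MeasurableSet {x | c x = none} := D2_none_meas hc.meas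
  have hNA : N ⊆ A := fun x hx => hx.1
  have h1 : reachB A B γ c (i + 1) = unB B γ c ∪ pushM γ c N := rfl
  have hdis : Disjoint (unB B γ c) (pushM γ c N) := by
    rw [Set.disjoint_left]
    rintro x ⟨_, hx⟩ hx'
    apply hx
    obtain ⟨a, y, ⟨_, hy⟩, rfl⟩ := mem_iUnion.1 hx'
    exact mem_iUnion.2 ⟨a, y, ⟨mem_univ _, hy⟩, rfl⟩
  have h2 : μ (pushM γ c N) = μ N := by
    rw [D2_push_measure hγ hc hNm]
    have h3 : N ∩ {x | c x = none} = N ∩ unA A c := by
      ext x
      constructor
      · rintro ⟨hx, hx'⟩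
        exact ⟨hx, hNA hx, hx'⟩
      · rintro ⟨hx, hx'⟩
        exact ⟨hx, hx'.2⟩
    have h4 := measure_inter_add_diff N hnone (μ := μ)
    rw [h3, h0, zero_add] at h4
    exact h4
  rw [h1, measure_union hdis (D2_push_meas γ hc.meas hNm), D2_unB_measure hA hB hAB hfin hγ hc, h2,
    ENNReal.toReal_add]
  · exact ne_top_of_le_ne_top hfin (measure_mono fun x hx => hx.1)
  · exact ne_top_of_le_ne_top hfin (measure_mono hNA)

end

end BorelEq
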