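import Pool.Agent.Lib.MP_75103d_lc.D2_GrowA

/-! The growth inequalities of the sets reachB. -/

set_option autoImplicit false

open MeasureTheory Set

namespace BorelEq

section

variable {X : Type} [MetricSpace X] [MeasurableSpace X] [BorelSpace X] {m : ℕ}

private theorem grow_min {y a n : ENNReal} (hy : y ≠ ⊤) (ha : a ≠ ⊤) (hn : n ≠ ⊤)
    (h : min (4 * y) (3 / 4 * a) ≤ n) : min (4 * y.toReal) (3 / 4 * a.toReal) ≤ n.toReal := by
  have h1 : 4 * y ≠ ⊤ := ENNReal.mul_ne_top (by norm_num) hy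
  have h34 : (3 / 4 : ENNReal) ≠ ⊤ := ENNReal.div_ne_top (by norm_num) (by norm_num)
  have h2 : 3 / 4 * a ≠ ⊤ := ENNReal.mul_ne_top h34 ha
  have h3 := ENNReal.toReal_mono hn h
  rw [ENNReal.toReal_min h1 h2, ENNReal.toReal_mul, ENNReal.toReal_mul, ENNReal.toReal_div] at h3
  simpa using h3

/-- mirror expansion applied to `reachB`. -/
theorem D2_exp2 {μ : Measure X} {A B : Set X} (hA : MeasurableSet A) (hB : MeasurableSet B)
    (hAB : μ A = μ B) (hfin : μ A ≠ ⊤) {γ : Fin m → X ≃ᵢ X}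
    (h2 : ∀ Y : Set X, MeasurableSet Y → Y ⊆ B →
      min (4 * μ Y) (3 / 4 * μ A) ≤ μ (A ∩ ⋃ a, (γ a).symm '' Y))
    {c : X → Option (Fin m)} (hc : IsMat A B γ c) (i : ℕ) :
    min (4 * (μ (reachB A B γ c i)).toReal) (3 / 4 * (μ A).toReal) ≤
      (μ (nbA A γ (reachB A B γ c i))).toReal := by
  have hsub := D2_reach_subset hc i
  have hm := D2_reach_meas γ hA hB hc.meas i
  have h := h2 _ hm hsub
  have hfn : μ (nbA A γ (reachB A B γ c i)) ≠ ⊤ :=
    ne_top_of_le_ne_top hfin (measure_mono inter_subset_left)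
  have hfr : μ (reachB A B γ c i) ≠ ⊤ :=
    ne_top_of_le_ne_top (hAB ▸ hfin) (measure_mono hsub)
  exact grow_min hfr hfin hfn h

/-- expansion applied to `Z = A \ nbA A γ W`, `W = reachB i`: the set `B ∩ ⋃ a, γ a '' Z` is
disjoint from `W`. -/
theorem D2_exp1 {μ : Measure X} {A B : Set X} (hA : MeasurableSet A) (hB : MeasurableSet B)
    (hAB : μ A = μ B) (hfin : μ A ≠ ⊤) {γ : Fin m → X ≃ᵢ X}
    (h1 : ∀ Y : Set X, MeasurableSet Y → Y ⊆ A →
      min (4 * μ Y) (3 / 4 * μ B) ≤ μ (B ∩ ⋃ a, γ a '' Y))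
    {c : X → Option (Fin m)} (hc : IsMat A B γ c) (i : ℕ) :
    min (4 * ((μ A).toReal - (μ (nbA A γ (reachB A B γ c i))).toReal)) (3 / 4 * (μ A).toReal) ≤
      (μ A).toReal - (μ (reachB A B γ c i)).toReal := by
  have hsub := D2_reach_subset hc i
  have hm := D2_reach_meas γ hA hB hc.meas i
  have hnm := D2_nbA_meas γ hA hm
  have hnsub : nbA A γ (reachB A B γ c i) ⊆ A := inter_subset_left
  have hfB : μ B ≠ ⊤ := hAB ▸ hfin
  have h := h1 (A \ nbA A γ (reachB A B γ c i)) (hA.diff hnm) diff_subset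
  have hdis : B ∩ ⋃ a, γ a '' (A \ nbA A γ (reachB A B γ c i)) ⊆ B \ reachB A B γ c i := by
    rintro w ⟨hw, hw2⟩
    refine ⟨hw, fun hw3 => ?_⟩
    obtain ⟨a, z, hz, hzw⟩ := mem_iUnion.1 hw2
    refine hz.2 ⟨hz.1, mem_iUnion.2 ⟨a, w, hw3, ?_⟩⟩
    rw [← hzw]
    exact IsometryEquiv.symm_apply_apply _ _
  have hB1 : (μ (B \ reachB A B γ c i)).toReal = (μ A).toReal - (μ (reachB A B γ c i)).toReal := by
    have hfr : μ (reachB A B γ c i) ≠ ⊤ := ne_top_of_le_ne_top hfB (measure_mono hsub)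
    rw [measure_diff hsub hm.nullMeasurableSet hfr, ENNReal.toReal_sub_of_le (measure_mono hsub) hfB,
      hAB]
  have hA1 : (μ (A \ nbA A γ (reachB A B γ c i))).toReal =
      (μ A).toReal - (μ (nbA A γ (reachB A B γ c i))).toReal := by
    have hfr : μ (nbA A γ (reachB A B γ c i)) ≠ ⊤ := ne_top_of_le_ne_top hfin (measure_mono hnsub)
    rw [measure_diff hnsub hnm.nullMeasurableSet hfr,
      ENNReal.toReal_sub_of_le (measure_mono hnsub) hfin]
  rw [← hB1, ← hA1]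
  refine grow_min (ne_top_of_le_ne_top hfin (measure_mono diff_subset)) hfin
    (ne_top_of_le_ne_top hfB (measure_mono diff_subset)) ?_
  rw [← hAB] at h
  exact h.trans (measure_mono hdis)

end

end BorelEq
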