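import Pool.Agent.Lib.MP_75103d_lc.D2_Defs

/-! The numerical growth lemma. -/

set_option autoImplicit false

open MeasureTheory Set

namespace BorelEq

/-- the numerical growth lemma. Proof: (1) `min (4 ^ i * u) (3 / 4 * V) ≤ v i` for `i ≤ 2 * M` by
induction, so `3 / 4 * V ≤ v M`. (2) For `1 ≤ j ≤ M`: `V - v (M + j) ≤ V / 4 / 4 ^ j - u`: as long
as `V - v (M + j) ≤ V / 4` (so `v (M + j) ≥ 3 / 4 * V > V / 4`) the fourth hypothesis gives
`4 * (V - y (M + j)) ≤ V - v (M + j)` (the other case of the minimum would give `V < V`), so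
`V - v (M + j + 1) = V - y (M + j) - u ≤ (V - v (M + j)) / 4 - u`. (3) For `j = M`:
`V - v (2 * M) ≤ V / 4 / 4 ^ M - u < u / 4 - u < 0`, contradiction. (`M = 0` is impossible because
`u = v 0 ≤ V`.) -/
theorem D2_growth_num {u V : ℝ} (hu : 0 < u) (M : ℕ) (hM : V < 4 ^ M * u)
    (v y : ℕ → ℝ) (h0 : v 0 = u) (hstep : ∀ i, i < 2 * M → v (i + 1) = u + y i)
    (h2 : ∀ i, min (4 * v i) (3 / 4 * V) ≤ y i)
    (h1 : ∀ i, min (4 * (V - y i)) (3 / 4 * V) ≤ V - v i)
    (hV : ∀ i, v i ≤ V) : False := by
  have hVpos : 0 < V := lt_of_lt_of_le hu (h0 ▸ hV 0)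
  have hP : ∀ i, i ≤ 2 * M → min (4 ^ i * u) (3 / 4 * V) ≤ v i := by
    intro i
    induction i with
    | zero => intro _; rw [h0]; simp
    | succ i ih =>
      intro hi
      have h3 := ih (by omega)
      have h4 := hstep i (by omega)
      have h5 := h2 i
      rw [h4]
      rw [min_le_iff] at h3 h5 ⊢
      rw [pow_succ]
      rcases h5 with h5 | h5
      · rcases h3 with h3 | h3
        · left; linarith
        · right; linarith
      · right; linarith
  have hM0 : 1 ≤ M := by
    by_contra h
    have h1 : M = 0 := by omega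
    rw [h1] at hM
    have := hV 0
    rw [h0] at this
    linarith
  have hvM : 3 / 4 * V ≤ v M := by
    have h3 := hP M (by omega)
    rw [min_le_iff] at h3
    rcases h3 with h3 | h3
    · linarith
    · exact h3
  have hQ : ∀ j, j ≤ M → V - v (M + j) ≤ V / 4 / 4 ^ j ∧
      (1 ≤ j → V - v (M + j) ≤ V / 4 / 4 ^ j - u) := by
    intro j
    induction j with
    | zero => intro _; exact ⟨by simp; linarith, fun h => absurd h (by norm_num)⟩
    | succ j ih =>
      intro hj
      obtain ⟨h3, -⟩ := ih (by omega)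
      have h4 := hstep (M + j) (by omega)
      have h5 := h1 (M + j)
      have hle : V / 4 / 4 ^ j ≤ V / 4 := by
        apply div_le_self (by positivity)
        exact one_le_pow₀ (by norm_num)
      have h6 : 4 * (V - y (M + j)) ≤ V - v (M + j) := by
        rw [min_le_iff] at h5
        rcases h5 with h5 | h5
        · exact h5
        · linarith
      have h7 : V - v (M + (j + 1)) ≤ V / 4 / 4 ^ (j + 1) - u := by
        have h8 : M + (j + 1) = M + j + 1 := by ring
        have h9 : V / 4 / 4 ^ (j + 1) = (V / 4 / 4 ^ j) / 4 := by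
          rw [pow_succ]
          field_simp
        rw [h8, h4, h9]
        linarith
      exact ⟨by linarith, fun _ => h7⟩
  have h3 := (hQ M le_rfl).2 hM0
  have h4 : V / 4 / 4 ^ M < u / 4 := by
    rw [div_div, div_lt_iff₀ (by positivity)]
    nlinarith [pow_pos (show (0 : ℝ) < 4 by norm_num) M]
  have h5 := hV (M + M)
  linarith

end BorelEq
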