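import Pool.Agent.Lib.MP_75103d_lc.D2_Defs

/-! Two numerical lemmas. -/

set_option autoImplicit false

open MeasureTheory Set

namespace BorelEq

/-- choice of `M`: the least `M` with `V < 4 ^ M * u`; then `4 ^ (M - 1) * u ≤ V` and
`2 * M ≤ 4 * 2 ^ (M - 1)`. -/
theorem D2_choose_M {u V : ℝ} (hu : 0 < u) (huV : u ≤ V) :
    ∃ M : ℕ, V < 4 ^ M * u ∧ (2 * M : ℝ) ≤ 4 * Real.sqrt (V / u) := by
  classical
  have hex : ∃ M : ℕ, V < 4 ^ M * u := by
    obtain ⟨n, hn⟩ := pow_unbounded_of_one_lt (V / u) (by norm_num : (1 : ℝ) < 4)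
    exact ⟨n, by rwa [div_lt_iff₀ hu] at hn⟩
  set M := Nat.find hex with hM
  have h1 : V < 4 ^ M * u := Nat.find_spec hex
  have hM0 : M ≠ 0 := by
    intro h0
    rw [h0] at h1
    simp only [pow_zero, one_mul] at h1
    linarith
  obtain ⟨k, hk⟩ : ∃ k, M = k + 1 := Nat.exists_eq_succ_of_ne_zero hM0
  have h2 : ¬ V < 4 ^ k * u := Nat.find_min hex (by omega)
  push Not at h2
  refine ⟨M, h1, ?_⟩
  have h3 : (2 : ℝ) ^ k ≤ Real.sqrt (V / u) := by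
    apply Real.le_sqrt_of_sq_le
    rw [le_div_iff₀ hu]
    calc ((2 : ℝ) ^ k) ^ 2 * u = 4 ^ k * u := by
          rw [← pow_mul, mul_comm k 2, pow_mul]
          norm_num
      _ ≤ V := h2
  have h4 : (M : ℝ) ≤ 2 ^ (k + 1) := by
    rw [hk]
    exact_mod_cast (Nat.lt_two_pow_self).le
  calc (2 * M : ℝ) ≤ 2 * 2 ^ (k + 1) := by linarith
    _ = 4 * 2 ^ k := by ring
    _ ≤ 4 * Real.sqrt (V / u) := by linarith

/-- `4 √(V/u) (u - u') ≤ 8 √V (√u - √u')`, since `u - u' = (√u - √u') (√u + √u')`. -/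
theorem D2_pot_num {u u' V : ℝ} (hV : 0 ≤ V) (hu : 0 < u) (hu' : 0 ≤ u') (h : u' ≤ u) :
    4 * Real.sqrt (V / u) * (u - u') ≤
      8 * Real.sqrt V * Real.sqrt u - 8 * Real.sqrt V * Real.sqrt u' := by
  have ha : 0 < Real.sqrt u := Real.sqrt_pos.2 hu
  have hb : 0 ≤ Real.sqrt u' := Real.sqrt_nonneg _
  have hc : 0 ≤ Real.sqrt V := Real.sqrt_nonneg _
  have hba : Real.sqrt u' ≤ Real.sqrt u := Real.sqrt_le_sqrt h
  have e1 : Real.sqrt u ^ 2 = u := Real.sq_sqrt hu.le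
  have e2 : Real.sqrt u' ^ 2 = u' := Real.sq_sqrt hu'
  rw [Real.sqrt_div hV]
  set a := Real.sqrt u
  set b := Real.sqrt u'
  set c := Real.sqrt V
  rw [← e1, ← e2]
  have h1 : 4 * (c / a) * (a ^ 2 - b ^ 2) = 4 * c * (a - b) * ((a + b) / a) := by
    field_simp
    ring
  rw [h1]
  have h2 : (a + b) / a ≤ 2 := by
    rw [div_le_iff₀ ha]
    linarith
  have h3 : 0 ≤ 4 * c * (a - b) := mul_nonneg (by linarith) (by linarith)
  have h4 := mul_le_mul_of_nonneg_left h2 h3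
  linarith

end BorelEq
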