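import Pool.Agent.Lib.MP_75103d_lc.D2_GrowB
import Pool.Agent.Lib.MP_75103d_lc.D2_NumA
import Pool.Agent.Lib.MP_75103d_lc.D2_NumB

/-! Short augmenting paths exist. -/

set_option autoImplicit false

open MeasureTheory Set

namespace BorelEq

section

variable {X : Type} [MetricSpace X] [MeasurableSpace X] [BorelSpace X] {m : ℕ}

/-- combine `D2_growth_num`, `D2_choose_M`, `D2_unB_measure`, `D2_step`, `D2_exp1`, `D2_exp2`
with `v i = (μ (reachB A B γ c i)).toReal`, `y i = (μ (nbA A γ (reachB A B γ c i))).toReal`. -/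
theorem D2_exists_reach {μ : Measure X} {A B : Set X} (hA : MeasurableSet A)
    (hB : MeasurableSet B) (hAB : μ A = μ B) (hfin : μ A ≠ ⊤) {γ : Fin m → X ≃ᵢ X}
    (hγ : ∀ a, MeasurePreserving (γ a) μ μ)
    (h1 : ∀ Y : Set X, MeasurableSet Y → Y ⊆ A →
      min (4 * μ Y) (3 / 4 * μ B) ≤ μ (B ∩ ⋃ a, γ a '' Y))
    (h2 : ∀ Y : Set X, MeasurableSet Y → Y ⊆ B →
      min (4 * μ Y) (3 / 4 * μ A) ≤ μ (A ∩ ⋃ a, (γ a).symm '' Y))
    {c : X → Option (Fin m)} (hc : IsMat A B γ c) (hu : μ (unA A c) ≠ 0) :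
    ∃ i : ℕ, (i : ℝ) + 1 ≤ 4 * Real.sqrt ((μ A).toReal / (μ (unA A c)).toReal) ∧
      μ (nbA A γ (reachB A B γ c i) ∩ unA A c) ≠ 0 := by
  by_contra hcon
  push Not at hcon
  have hunA : unA A c ⊆ A := fun x hx => hx.1
  have hBfin : μ B ≠ ⊤ := hAB ▸ hfin
  have hufin : μ (unA A c) ≠ ⊤ := ne_top_of_le_ne_top hfin (measure_mono hunA)
  have hu0 : 0 < (μ (unA A c)).toReal := ENNReal.toReal_pos hu hufin
  have huV : (μ (unA A c)).toReal ≤ (μ A).toReal :=
    ENNReal.toReal_mono hfin (measure_mono hunA)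
  obtain ⟨M, hM1, hM2⟩ := D2_choose_M hu0 huV
  refine D2_growth_num (u := (μ (unA A c)).toReal) (V := (μ A).toReal) hu0 M hM1
    (fun i => (μ (reachB A B γ c i)).toReal)
    (fun i => (μ (nbA A γ (reachB A B γ c i))).toReal) ?_ ?_ ?_ ?_ ?_
  · show (μ (unB B γ c)).toReal = (μ (unA A c)).toReal
    rw [D2_unB_measure hA hB hAB hfin hγ hc]
  · intro i hi
    refine D2_step hA hB hAB hfin hγ hc i (hcon i ?_)
    have h3 : ((i : ℝ) + 1) ≤ 2 * M := by exact_mod_cast (by omega : i + 1 ≤ 2 * M)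
    linarith
  · intro i
    exact D2_exp2 hA hB hAB hfin h2 hc i
  · intro i
    exact D2_exp1 hA hB hAB hfin h1 hc i
  · intro i
    show (μ (reachB A B γ c i)).toReal ≤ (μ A).toReal
    rw [hAB]
    exact ENNReal.toReal_mono hBfin (measure_mono (D2_reach_subset hc i))

end

end BorelEq
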