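import Pool.Agent.Lib.MP_75103d_lc.D2_Meas

/-! Separated sets and small pieces. -/

set_option autoImplicit false

open MeasureTheory Set

namespace BorelEq

section

variable {X : Type} [MetricSpace X] [SecondCountableTopology X] [MeasurableSpace X]
  [BorelSpace X] {m : ℕ}

private theorem D2_SepB_stp (γ : Fin m → X ≃ᵢ X) (p : Fin m × Fin m) :
    Continuous (stp γ p) :=
  (γ p.2).symm.continuous.comp (γ p.1).continuous

private theorem D2_SepB_aux (γ : Fin m → X ≃ᵢ X) (l : List (Fin m × Fin m)) (ε : ℝ) :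
    ∀ (f g : X → X), Continuous f → Continuous g →
      IsClosed {x | ∀ z ∈ orb γ l (f x), ε ≤ dist (g x) z} := by
  induction l with
  | nil =>
    intro f g hf hg
    have : {x | ∀ z ∈ orb γ [] (f x), ε ≤ dist (g x) z} = {x | ε ≤ dist (g x) (f x)} := by
      ext x
      simp [orb]
    rw [this]
    exact isClosed_le continuous_const (hg.dist hf)
  | cons p l ih =>
    intro f g hf hg
    have : {x | ∀ z ∈ orb γ (p :: l) (f x), ε ≤ dist (g x) z} =
        {x | ε ≤ dist (g x) (f x)} ∩ {x | ∀ z ∈ orb γ l (stp γ p (f x)), ε ≤ dist (g x) z} := by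
      ext x
      simp [orb]
    rw [this]
    exact (isClosed_le continuous_const (hg.dist hf)).inter
      (ih (fun x => stp γ p (f x)) g ((D2_SepB_stp γ p).comp hf) hg)

private theorem D2_SepB_closed (γ : Fin m → X ≃ᵢ X) (l : List (Fin m × Fin m)) (ε : ℝ) :
    ∀ (f : X → X), Continuous f →
      IsClosed {x | (orb γ l (f x)).Pairwise (fun y z => ε ≤ dist y z)} := by
  induction l with
  | nil =>
    intro f hf
    have : {x | (orb γ [] (f x)).Pairwise (fun y z => ε ≤ dist y z)} = univ := by
      ext x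
      simp [orb]
    rw [this]
    exact isClosed_univ
  | cons p l ih =>
    intro f hf
    have : {x | (orb γ (p :: l) (f x)).Pairwise (fun y z => ε ≤ dist y z)} =
        {x | ∀ z ∈ orb γ l (stp γ p (f x)), ε ≤ dist (f x) z} ∩
          {x | (orb γ l (stp γ p (f x))).Pairwise (fun y z => ε ≤ dist y z)} := by
      ext x
      simp [orb, List.pairwise_cons]
    rw [this]
    have hc : Continuous (fun x => stp γ p (f x)) := (D2_SepB_stp γ p).comp hf
    exact (D2_SepB_aux γ l ε _ f hc hf).inter (ih _ hc)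

/-- closed condition: measurability of the separated set. -/
theorem D2_sep_meas (γ : Fin m → X ≃ᵢ X) (l : List (Fin m × Fin m)) (ε : ℝ) :
    MeasurableSet {x | (orb γ l x).Pairwise (fun y z => ε ≤ dist y z)} :=
  (D2_SepB_closed γ l ε id continuous_id).measurableSet

/-- a set of positive measure contains a piece of positive measure of diameter `< ε`. -/
theorem D2_small_piece {μ : Measure X} {S : Set X} (hS : MeasurableSet S) (h0 : μ S ≠ 0) {ε : ℝ}
    (hε : 0 < ε) : ∃ P : Set X, MeasurableSet P ∧ P ⊆ S ∧ μ P ≠ 0 ∧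
      ∀ x ∈ P, ∀ y ∈ P, dist x y < ε := by
  obtain ⟨D, hDc, hDd⟩ := TopologicalSpace.exists_countable_dense X
  have hcov : S ⊆ ⋃ d ∈ D, (S ∩ Metric.ball d (ε / 2)) := by
    intro x hx
    obtain ⟨d, hd, hdx⟩ := hDd.exists_dist_lt x (half_pos hε)
    exact mem_iUnion₂.2 ⟨d, hd, hx, hdx⟩
  by_contra hcon
  apply h0
  refine measure_mono_null hcov ((measure_biUnion_null_iff hDc).2 (fun d _ => ?_))
  by_contra hne
  refine hcon ⟨S ∩ Metric.ball d (ε / 2), hS.inter measurableSet_ball, inter_subset_left, hne, ?_⟩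
  rintro x ⟨_, hx⟩ y ⟨_, hy⟩
  have h1 : dist x d < ε / 2 := hx
  have h2 : dist y d < ε / 2 := hy
  calc dist x y ≤ dist x d + dist d y := dist_triangle _ _ _
    _ = dist x d + dist y d := by rw [dist_comm d y]
    _ < ε / 2 + ε / 2 := by linarith
    _ = ε := by ring

end

end BorelEq
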