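import Pool.Agent.Lib.MP_75103d_lc.D2_SepA
import Pool.Agent.Lib.MP_75103d_lc.D2_SepB
import Pool.Agent.Lib.MP_75103d_lc.D2_PathB

/-! Choice of the set of starting points. -/

set_option autoImplicit false

open MeasureTheory Set

namespace BorelEq

section

variable {X : Type} [MetricSpace X] [SecondCountableTopology X] [MeasurableSpace X]
  [BorelSpace X] {m : ℕ}

/-- the starting set. -/
theorem D2_exists_P {μ : Measure X} {A B : Set X} (hA : MeasurableSet A) (hB : MeasurableSet B)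
    {γ : Fin m → X ≃ᵢ X} {c : X → Option (Fin m)} (hc : IsMat A B γ c) (i : ℕ)
    (hi : μ (nbA A γ (reachB A B γ c i) ∩ unA A c) ≠ 0) :
    ∃ (a : Fin m) (l : List (Fin m × Fin m)) (P : Set X) (ε : ℝ), l.length ≤ i ∧ 0 < ε ∧
      MeasurableSet P ∧ P ⊆ unA A c ∧ μ P ≠ 0 ∧ (∀ x ∈ P, APath B γ c a l x) ∧
      (∀ x ∈ P, (orb γ l x).Pairwise (fun y z => ε ≤ dist y z)) ∧
      ∀ x ∈ P, ∀ y ∈ P, dist x y < ε := by
  obtain ⟨a, l, hl, h0⟩ := D2_min_path i hi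
  have hex : ∃ N : ℕ, μ ((unA A c ∩ {x | APath B γ c a l x}) ∩
      {x | (orb γ l x).Pairwise (fun y z => 1 / ((N : ℝ) + 1) ≤ dist y z)}) ≠ 0 := by
    by_contra hcon
    push Not at hcon
    apply h0
    refine measure_mono_null ?_ (measure_iUnion_null hcon)
    rintro x ⟨hx1, hx2, hx3⟩
    obtain ⟨N, hN⟩ := D2_list_sep _ hx3
    exact mem_iUnion.2 ⟨N, ⟨hx1, hx2⟩, hN⟩
  obtain ⟨N, hN⟩ := hex
  have hε : (0 : ℝ) < 1 / ((N : ℝ) + 1) := by positivity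
  obtain ⟨P, hP1, hP2, hP3, hP4⟩ := D2_small_piece
    (((D2_unA_meas hA hc.meas).inter (D2_path_meas γ hB hc.meas a l)).inter
      (D2_sep_meas γ l (1 / ((N : ℝ) + 1)))) hN hε
  exact ⟨a, l, P, 1 / ((N : ℝ) + 1), hl, hε, hP1, fun x hx => (hP2 hx).1.1, hP3,
    fun x hx => (hP2 hx).1.2, fun x hx => (hP2 hx).2, hP4⟩

end

end BorelEq
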