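import Pool.Agent.Lib.MP_75103d_lc.D2_AugA
import Pool.Agent.Lib.MP_75103d_lc.D2_AugB
import Pool.Agent.Lib.MP_75103d_lc.D2_SepC
import Pool.Agent.Lib.MP_75103d_lc.D2_Reach

/-! Improvement of a matching. -/

set_option autoImplicit false

open MeasureTheory Set

namespace BorelEq

section

variable {X : Type} [MetricSpace X] [SecondCountableTopology X] [MeasurableSpace X]
  [BorelSpace X] {m : ℕ}

/-- combine `D2_exists_reach`, `D2_exists_P`, `D2_augment`, `D2_orb_measure`, `D2_pot_num`. -/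
theorem D2_improve {μ : Measure X} {A B : Set X} (hA : MeasurableSet A)
    (hB : MeasurableSet B) (hAB : μ A = μ B) (hfin : μ A ≠ ⊤) {γ : Fin m → X ≃ᵢ X}
    (hγ : ∀ a, MeasurePreserving (γ a) μ μ)
    (h1 : ∀ Y : Set X, MeasurableSet Y → Y ⊆ A →
      min (4 * μ Y) (3 / 4 * μ B) ≤ μ (B ∩ ⋃ a, γ a '' Y))
    (h2 : ∀ Y : Set X, MeasurableSet Y → Y ⊆ B →
      min (4 * μ Y) (3 / 4 * μ A) ≤ μ (A ∩ ⋃ a, (γ a).symm '' Y))
    {c : X → Option (Fin m)} (hc : IsMat A B γ c) (hu : μ (unA A c) ≠ 0) :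
    ∃ c' : X → Option (Fin m), IsMat A B γ c' ∧ Ext μ A c c' ∧ pot μ A c' < pot μ A c := by
  obtain ⟨i, hi1, hi2⟩ := D2_exists_reach hA hB hAB hfin hγ h1 h2 hc hu
  obtain ⟨a, l, P, ε, hl, _, hPm, hPu, hP0, hpath, hsep, hdiam⟩ := D2_exists_P hA hB hc i hi2
  obtain ⟨c', hc', hun, hcong⟩ := D2_augment a ε l c hc P hPm hPu hpath hsep hdiam
  have hPA : P ⊆ A := fun x hx => (hPu hx).1
  have hPfin : μ P ≠ ⊤ := ne_top_of_le_ne_top hfin (measure_mono hPA)
  have hufin : μ (unA A c) ≠ ⊤ := ne_top_of_le_ne_top hfin (measure_mono (fun x hx => hx.1))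
  have hPpos : 0 < (μ P).toReal := ENNReal.toReal_pos hP0 hPfin
  have hupos : 0 < (μ (unA A c)).toReal := ENNReal.toReal_pos hu hufin
  have hdiff : μ (unA A c') = μ (unA A c) - μ P := by
    rw [hun]
    exact measure_sdiff hPu hPm.nullMeasurableSet hPfin
  have hPle : μ P ≤ μ (unA A c) := measure_mono hPu
  have hu' : (μ (unA A c')).toReal = (μ (unA A c)).toReal - (μ P).toReal := by
    rw [hdiff, ENNReal.toReal_sub_of_le hPle hufin]
  have hkey := D2_pot_num (V := (μ A).toReal) (u := (μ (unA A c)).toReal)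
    (u' := (μ (unA A c')).toReal) ENNReal.toReal_nonneg hupos ENNReal.toReal_nonneg
    (by rw [hu']; linarith)
  have hsub : (μ (unA A c)).toReal - (μ (unA A c')).toReal = (μ P).toReal := by
    rw [hu']; ring
  rw [hsub] at hkey
  have hll : (l.length : ℝ) + 1 ≤ 4 * Real.sqrt ((μ A).toReal / (μ (unA A c)).toReal) := by
    have : (l.length : ℝ) ≤ i := by exact_mod_cast hl
    linarith
  have hmain : ((l.length : ℝ) + 1) * (μ P).toReal ≤ pot μ A c - pot μ A c' := by
    unfold pot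
    exact (mul_le_mul_of_nonneg_right hll hPpos.le).trans hkey
  have hpos : 0 < ((l.length : ℝ) + 1) * (μ P).toReal := by positivity
  have hlt : pot μ A c' < pot μ A c := by linarith
  refine ⟨c', hc', ⟨hlt.le, ?_⟩, hlt⟩
  have hsubset : {z | c z ≠ c' z} ⊆ {z | ∃ x ∈ P, z ∈ orb γ l x} := by
    intro z hz
    by_contra hcon
    apply hz
    refine (hcong z ?_).symm
    intro x hx hzx
    exact hcon ⟨x, hx, hzx⟩
  calc μ {z | c z ≠ c' z} ≤ μ {z | ∃ x ∈ P, z ∈ orb γ l x} := measure_mono hsubset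
    _ ≤ ((l.length : ENNReal) + 1) * μ P := D2_orb_measure hγ l P
    _ = ENNReal.ofReal (((l.length : ℝ) + 1) * (μ P).toReal) := by
        rw [ENNReal.ofReal_mul (by positivity), ENNReal.ofReal_toReal hPfin,
          ENNReal.ofReal_add (by positivity) zero_le_one, ENNReal.ofReal_natCast,
          ENNReal.ofReal_one]
    _ ≤ ENNReal.ofReal (pot μ A c - pot μ A c') := ENNReal.ofReal_le_ofReal hmain

end

end BorelEq
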