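import Pool.Agent.Lib.MP_75103d_lc.D2_Defs

/-! Isometries and measurability. -/

set_option autoImplicit false

open MeasureTheory Set

namespace BorelEq

section

variable {X : Type} [MetricSpace X] [MeasurableSpace X] [BorelSpace X] {m : ℕ}

/-- images under isometries are measurable. -/
theorem D2_image_meas (e : X ≃ᵢ X) {S : Set X} (hS : MeasurableSet S) :
    MeasurableSet (e '' S) := by
  rw [← IsometryEquiv.preimage_symm]
  exact e.symm.continuous.measurable hS

/-- `μ (e '' S) = μ S` for every set. -/
theorem D2_image_measure {μ : Measure X} (e : X ≃ᵢ X) (he : MeasurePreserving e μ μ) (S : Set X) :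
    μ (e '' S) = μ S := by
  have hemb : MeasurableEmbedding (e : X → X) := e.toHomeomorph.measurableEmbedding
  have h := he.measure_preimage_emb hemb (e '' S)
  rw [preimage_image_eq S e.injective] at h
  exact h.symm

theorem D2_symm_mp {μ : Measure X} (e : X ≃ᵢ X) (he : MeasurePreserving e μ μ) :
    MeasurePreserving e.symm μ μ := by
  refine ⟨e.symm.continuous.measurable, ?_⟩
  refine Measure.ext fun S hS => ?_
  rw [Measure.map_apply e.symm.continuous.measurable hS, IsometryEquiv.preimage_symm]
  exact D2_image_measure e he S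

theorem D2_stp_meas (γ : Fin m → X ≃ᵢ X) (p : Fin m × Fin m) : Measurable (stp γ p) := by
  unfold stp
  exact ((γ p.2).symm.continuous.comp (γ p.1).continuous).measurable

/-- `stp` as an isometry. -/
theorem D2_stp_iso (γ : Fin m → X ≃ᵢ X) (p : Fin m × Fin m) :
    ∃ e : X ≃ᵢ X, ∀ x, e x = stp γ p x :=
  ⟨(γ p.1).trans (γ p.2).symm, fun _ => rfl⟩

theorem D2_stp_measure {μ : Measure X} (γ : Fin m → X ≃ᵢ X)
    (hγ : ∀ a, MeasurePreserving (γ a) μ μ) (p : Fin m × Fin m) (S : Set X) :
    μ (stp γ p '' S) = μ S := by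
  have h1 : stp γ p '' S = (γ p.2).symm '' ((γ p.1) '' S) := by
    rw [← image_comp]
    rfl
  rw [h1, D2_image_measure _ (D2_symm_mp _ (hγ p.2)), D2_image_measure _ (hγ p.1)]

end

end BorelEq
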