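import Pool.Agent.Lib.MP_75103d_lc.D2_Meas

/-! Limits of matchings. -/

set_option autoImplicit false

open MeasureTheory Set

namespace BorelEq

section

variable {X : Type} [MetricSpace X] [MeasurableSpace X] [BorelSpace X] {m : ℕ}

theorem D2_Ext_refl {μ : Measure X} {A : Set X} (c : X → Option (Fin m)) : Ext μ A c c := by
  refine ⟨le_rfl, ?_⟩
  have : {z | c z ≠ c z} = ∅ := by
    ext z
    simp
  rw [this, measure_empty]
  exact bot_le

theorem D2_Ext_trans {μ : Measure X} {A : Set X} {c c' c'' : X → Option (Fin m)}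
    (h : Ext μ A c c') (h' : Ext μ A c' c'') : Ext μ A c c'' := by
  refine ⟨h'.1.trans h.1, ?_⟩
  have hsub : {z | c z ≠ c'' z} ⊆ {z | c z ≠ c' z} ∪ {z | c' z ≠ c'' z} := by
    intro z hz
    by_cases h1 : c z = c' z
    · right
      intro h2
      exact hz (h1.trans h2)
    · left
      exact h1
  calc μ {z | c z ≠ c'' z} ≤ μ ({z | c z ≠ c' z} ∪ {z | c' z ≠ c'' z}) := measure_mono hsub
    _ ≤ μ {z | c z ≠ c' z} + μ {z | c' z ≠ c'' z} := measure_union_le _ _
    _ ≤ ENNReal.ofReal (pot μ A c - pot μ A c') + ENNReal.ofReal (pot μ A c' - pot μ A c'') :=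
        add_le_add h.2 h'.2
    _ = ENNReal.ofReal (pot μ A c - pot μ A c'') := by
        rw [← ENNReal.ofReal_add (sub_nonneg.mpr h.1) (sub_nonneg.mpr h'.1)]
        congr 1
        ring

/-- the limit: `c' x = some a` iff `c n x = some a` for all large `n`. -/
theorem D2_lim_mat {A B : Set X} {γ : Fin m → X ≃ᵢ X} (c : ℕ → X → Option (Fin m))
    (hc : ∀ n, IsMat A B γ (c n)) :
    ∃ c' : X → Option (Fin m), IsMat A B γ c' ∧
      ∀ k x, (∀ n, k ≤ n → c (n + 1) x = c n x) → c' x = c k x := by
  classical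
  let P : X → Fin m → Prop := fun x a => ∃ k, ∀ n, k ≤ n → c n x = some a
  have huniq : ∀ x a b, P x a → P x b → a = b := by
    rintro x a b ⟨k, hk⟩ ⟨l, hl⟩
    have h1 := hk (max k l) (le_max_left _ _)
    have h2 := hl (max k l) (le_max_right _ _)
    rw [h1] at h2
    exact Option.some.inj h2
  let c' : X → Option (Fin m) := fun x => if h : ∃ a, P x a then some h.choose else none
  have hc' : ∀ x a, c' x = some a ↔ P x a := by
    intro x a
    constructor
    · intro h
      by_cases hx : ∃ a, P x a
      · have : c' x = some hx.choose := dif_pos hx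
        rw [this] at h
        rw [← Option.some.inj h]
        exact hx.choose_spec
      · have : c' x = none := dif_neg hx
        rw [this] at h
        exact absurd h (by simp)
    · intro h
      have hx : ∃ a, P x a := ⟨a, h⟩
      have h1 : c' x = some hx.choose := dif_pos hx
      rw [h1, huniq x _ _ hx.choose_spec h]
  have hnone : ∀ x, (∀ a, ¬ P x a) → c' x = none := by
    intro x h
    exact dif_neg (fun ⟨a, ha⟩ => h a ha)
  refine ⟨c', ⟨?_, ?_, ?_, ?_⟩, ?_⟩
  · intro a
    have : {x | c' x = some a} = ⋃ k : ℕ, ⋂ n : ℕ, ⋂ _ : k ≤ n, {x | c n x = some a} := by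
      ext x
      simp only [Set.mem_ofPred_eq, Set.mem_iUnion, Set.mem_iInter]
      exact hc' x a
    rw [this]
    exact MeasurableSet.iUnion fun k => MeasurableSet.iInter fun n => MeasurableSet.iInter
      fun _ => (hc n).meas a
  · intro x a h
    obtain ⟨k, hk⟩ := (hc' x a).mp h
    exact (hc k).domA x a (hk k le_rfl)
  · intro x a h
    obtain ⟨k, hk⟩ := (hc' x a).mp h
    exact (hc k).domB x a (hk k le_rfl)
  · intro x y a b hx hy hxy
    obtain ⟨k, hk⟩ := (hc' x a).mp hx
    obtain ⟨l, hl⟩ := (hc' y b).mp hy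
    exact (hc (max k l)).inj x y a b (hk _ (le_max_left _ _)) (hl _ (le_max_right _ _)) hxy
  · intro k x h
    have hconst : ∀ n, k ≤ n → c n x = c k x := by
      intro n hn
      induction n, hn using Nat.le_induction with
      | base => rfl
      | succ n hn ih => rw [h n hn, ih]
    rcases hk : c k x with _ | a
    · apply hnone
      rintro a ⟨l, hl⟩
      have h1 := hl (max k l) (le_max_right _ _)
      rw [hconst _ (le_max_left _ _), hk] at h1
      exact absurd h1 (by simp)
    · rw [hc']
      exact ⟨k, fun n hn => by rw [hconst n hn, hk]⟩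

/-- `|u(c) - u(c')| ≤ μ {c ≠ c'}`. -/
theorem D2_un_le {μ : Measure X} {A : Set X} (c c' : X → Option (Fin m)) :
    μ (unA A c') ≤ μ (unA A c) + μ {z | c z ≠ c' z} := by
  refine (measure_mono ?_).trans (measure_union_le _ _)
  rintro x ⟨hxA, hx⟩
  by_cases h : c x = none
  · left
    exact ⟨hxA, h⟩
  · right
    intro h'
    exact h (h'.trans hx)

end

end BorelEq
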