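import Pool.Agent.Lib.MP_75103d_lc.D2_LimA

/-! Continuity of the potential. -/

set_option autoImplicit false

open MeasureTheory Set

namespace BorelEq

section

variable {X : Type} [MetricSpace X] [MeasurableSpace X] [BorelSpace X] {m : ℕ}

/-- the potential is continuous along the sequence. -/
theorem D2_pot_tendsto {μ : Measure X} {A : Set X} (hfin : μ A ≠ ⊤)
    (c : ℕ → X → Option (Fin m)) (c' : X → Option (Fin m))
    (h : Filter.Tendsto (fun n => μ {z | c n z ≠ c' z}) Filter.atTop (nhds 0)) :
    Filter.Tendsto (fun n => pot μ A (c n)) Filter.atTop (nhds (pot μ A c')) := by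
  have hle : ∀ d : X → Option (Fin m), μ (unA A d) ≤ μ A := fun d =>
    measure_mono (fun x hx => hx.1)
  have hne : ∀ d : X → Option (Fin m), μ (unA A d) ≠ ⊤ := fun d =>
    ne_top_of_le_ne_top hfin (hle d)
  have hsymm : ∀ n, μ {z | c' z ≠ c n z} = μ {z | c n z ≠ c' z} := by
    intro n
    congr 1
    ext z
    exact ne_comm
  have hup : Filter.Tendsto (fun n => μ (unA A c') + μ {z | c n z ≠ c' z}) Filter.atTop
      (nhds (μ (unA A c'))) := by
    have := (tendsto_const_nhds (x := μ (unA A c'))).add h
    rwa [add_zero] at this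
  have hlow : Filter.Tendsto (fun n => μ (unA A c') - μ {z | c n z ≠ c' z}) Filter.atTop
      (nhds (μ (unA A c'))) := by
    have := ENNReal.Tendsto.sub (tendsto_const_nhds (x := μ (unA A c'))) h (Or.inl (hne c'))
    rwa [tsub_zero] at this
  have hlim : Filter.Tendsto (fun n => μ (unA A (c n))) Filter.atTop (nhds (μ (unA A c'))) := by
    refine tendsto_of_tendsto_of_tendsto_of_le_of_le hlow hup ?_ ?_
    · intro n
      exact tsub_le_iff_right.mpr (D2_un_le (c n) c')
    · intro n
      have := D2_un_le (μ := μ) (A := A) c' (c n)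
      rw [hsymm] at this
      exact this
  have hreal : Filter.Tendsto (fun n => (μ (unA A (c n))).toReal) Filter.atTop
      (nhds ((μ (unA A c')).toReal)) :=
    (ENNReal.tendsto_toReal (hne c')).comp hlim
  unfold pot
  exact tendsto_const_nhds.mul ((Real.continuous_sqrt.tendsto _).comp hreal)

end

end BorelEq
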