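import Pool.Agent.Lib.MP_75103d_lc.D2_LimB

/-! The limit matching. -/

set_option autoImplicit false

open MeasureTheory Set

namespace BorelEq

section

variable {X : Type} [MetricSpace X] [MeasurableSpace X] [BorelSpace X] {m : ℕ}

/-- the limit is a cheap modification of all terms. The sets `S n = {c n ≠ c (n + 1)}` satisfy
`∑_{k ≤ n < K} μ (S n) ≤ ENNReal.ofReal (pot (c k) - pot (c K))` (`D2_Ext_trans`-like telescoping),
`pot (c n)` is antitone and nonnegative, so it converges, and
`{c k ≠ c'} ⊆ ⋃ n ≥ k, S n`. -/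
theorem D2_limit {μ : Measure X} {A B : Set X} (hfin : μ A ≠ ⊤)
    {γ : Fin m → X ≃ᵢ X} (c : ℕ → X → Option (Fin m))
    (hc : ∀ n, IsMat A B γ (c n)) (hE : ∀ n, Ext μ A (c n) (c (n + 1))) :
    ∃ c' : X → Option (Fin m), IsMat A B γ c' ∧ ∀ n, Ext μ A (c n) c' := by
  obtain ⟨c', hc', hlim⟩ := D2_lim_mat c hc
  have hanti : Antitone fun n => pot μ A (c n) := antitone_nat_of_succ_le fun n => (hE n).1
  have hpos : ∀ n, 0 ≤ pot μ A (c n) := fun n => by
    unfold pot
    positivity
  have hbdd : BddBelow (range fun n => pot μ A (c n)) := ⟨0, by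
    rintro _ ⟨n, rfl⟩
    exact hpos n⟩
  have hL := tendsto_atTop_ciInf hanti hbdd
  set L := ⨅ n, pot μ A (c n) with hLdef
  have hLle : ∀ n, L ≤ pot μ A (c n) := fun n => ciInf_le hbdd n
  -- telescoping
  have htel : ∀ k N : ℕ, ∑ n ∈ Finset.range N, μ {z | c (k + n) z ≠ c (k + n + 1) z} ≤
      ENNReal.ofReal (pot μ A (c k) - pot μ A (c (k + N))) := by
    intro k N
    induction N with
    | zero => simp
    | succ N ih =>
      rw [Finset.sum_range_succ]
      refine (add_le_add ih (hE (k + N)).2).trans ?_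
      rw [← ENNReal.ofReal_add]
      · refine ENNReal.ofReal_le_ofReal ?_
        have : k + (N + 1) = k + N + 1 := rfl
        rw [this]
        linarith
      · exact sub_nonneg.2 (hanti (Nat.le_add_right k N))
      · exact sub_nonneg.2 (hE (k + N)).1
  have hsub : ∀ k, {z | c k z ≠ c' z} ⊆ ⋃ n, {z | c (k + n) z ≠ c (k + n + 1) z} := by
    intro k z hz
    by_contra hcon
    rw [mem_iUnion, not_exists] at hcon
    refine hz (hlim k z fun n hn => ?_).symm
    obtain ⟨j, rfl⟩ := Nat.exists_eq_add_of_le hn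
    have h1 := hcon j
    rw [mem_setOf_eq, not_not] at h1
    exact h1.symm
  have hmeas : ∀ k, μ {z | c k z ≠ c' z} ≤ ENNReal.ofReal (pot μ A (c k) - L) := by
    intro k
    refine (measure_mono (hsub k)).trans ((measure_iUnion_le _).trans ?_)
    rw [ENNReal.tsum_eq_iSup_nat]
    refine iSup_le fun N => (htel k N).trans (ENNReal.ofReal_le_ofReal ?_)
    linarith [hLle (k + N)]
  have htend : Filter.Tendsto (fun n => μ {z | c n z ≠ c' z}) Filter.atTop (nhds 0) := by
    have h1 : Filter.Tendsto (fun n => ENNReal.ofReal (pot μ A (c n) - L)) Filter.atTop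
        (nhds 0) := by
      have h2 := ENNReal.tendsto_ofReal (hL.sub_const L)
      rwa [sub_self, ENNReal.ofReal_zero] at h2
    exact tendsto_of_tendsto_of_tendsto_of_le_of_le tendsto_const_nhds h1 (fun _ => zero_le)
      hmeas
  have hpot := D2_pot_tendsto hfin c c' htend
  have hLeq : pot μ A c' = L := tendsto_nhds_unique hpot hL
  refine ⟨c', hc', fun n => ⟨?_, ?_⟩⟩
  · rw [hLeq]
    exact hLle n
  · rw [hLeq]
    exact hmeas n

end

end BorelEq
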