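import Pool.Agent.Lib.MP_75103d_lc.D2_Impr
import Pool.Agent.Lib.MP_75103d_lc.D2_LimC
import Pool.Agent.Lib.MP_75103d_lc.D2_Exh

/-! The matching theorem. -/

set_option autoImplicit false

open MeasureTheory Set

namespace BorelEq

section

variable {X : Type} [MetricSpace X] [SecondCountableTopology X] [MeasurableSpace X]
  [BorelSpace X] {m : ℕ}

/-- `D2_exhaust` for `S = {c // IsMat A B γ c}`, `r = Ext μ A`, `φ = pot μ A`, starting with the
empty matching. `φ c = 0` gives `μ (unA A c) = 0` (because `μ (unA A c) ≤ μ A`). -/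
theorem D2_exists_full {μ : Measure X} {A B : Set X} (hA : MeasurableSet A)
    (hB : MeasurableSet B) (hAB : μ A = μ B) (hfin : μ A ≠ ⊤) {γ : Fin m → X ≃ᵢ X}
    (hγ : ∀ a, MeasurePreserving (γ a) μ μ)
    (h1 : ∀ Y : Set X, MeasurableSet Y → Y ⊆ A →
      min (4 * μ Y) (3 / 4 * μ B) ≤ μ (B ∩ ⋃ a, γ a '' Y))
    (h2 : ∀ Y : Set X, MeasurableSet Y → Y ⊆ B →
      min (4 * μ Y) (3 / 4 * μ A) ≤ μ (A ∩ ⋃ a, (γ a).symm '' Y)) :
    ∃ c : X → Option (Fin m), IsMat A B γ c ∧ μ (unA A c) = 0 := by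
  have hsub : ∀ c : X → Option (Fin m), unA A c ⊆ A := fun c x hx => hx.1
  have hpos : ∀ c : X → Option (Fin m), 0 < pot μ A c → μ (unA A c) ≠ 0 := by
    intro c hc h0
    unfold pot at hc
    rw [h0] at hc
    simp at hc
  obtain ⟨t, ht⟩ := D2_exhaust (S := {c : X → Option (Fin m) // IsMat A B γ c})
    (fun s t => Ext μ A s.1 t.1) (fun s => pot μ A s.1)
    (fun s => by
      show 0 ≤ pot μ A s.1
      unfold pot
      positivity)
    (fun s => D2_Ext_refl s.1)
    (fun s t w hst htw => D2_Ext_trans hst htw)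
    (fun s t hst => hst.1)
    (fun s hs => by
      obtain ⟨c', hc', hE⟩ := D2_limit hfin (fun n => (s n).1) (fun n => (s n).2) hs
      exact ⟨⟨c', hc'⟩, hE⟩)
    (fun s hs => by
      obtain ⟨c', hc', hE, hlt⟩ := D2_improve hA hB hAB hfin hγ h1 h2 s.2 (hpos s.1 hs)
      exact ⟨⟨c', hc'⟩, hE, hlt⟩)
    ⟨fun _ => none, by
      constructor
      · intro a
        simp
      · intro x a h
        simp at h
      · intro x a h
        simp at h
      · intro x y a b h
        simp at h⟩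
  refine ⟨t.1, t.2, ?_⟩
  have ht' : 8 * Real.sqrt ((μ A).toReal) * Real.sqrt ((μ (unA A t.1)).toReal) = 0 := ht
  have hle : μ (unA A t.1) ≤ μ A := measure_mono (hsub t.1)
  have hfin' : μ (unA A t.1) ≠ ⊤ := ne_top_of_le_ne_top hfin hle
  rcases mul_eq_zero.1 ht' with h | h
  · have h3 : Real.sqrt ((μ A).toReal) = 0 := by
      rcases mul_eq_zero.1 h with h4 | h4
      · norm_num at h4
      · exact h4
    have h5 : (μ A).toReal = 0 := by
      have := (Real.sqrt_eq_zero ENNReal.toReal_nonneg).1 h3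
      exact this
    have h6 : μ A = 0 := by
      rcases (ENNReal.toReal_eq_zero_iff _).1 h5 with h7 | h7
      · exact h7
      · exact absurd h7 hfin
    exact le_antisymm (h6 ▸ hle) bot_le
  · have h5 : (μ (unA A t.1)).toReal = 0 := (Real.sqrt_eq_zero ENNReal.toReal_nonneg).1 h
    rcases (ENNReal.toReal_eq_zero_iff _).1 h5 with h7 | h7
    · exact h7
    · exact absurd h7 hfin'

/-- the matching theorem in the form of the interface. -/
theorem D2_matching {μ : Measure X} {A B : Set X} (hA : MeasurableSet A)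
    (hB : MeasurableSet B) (hAB : μ A = μ B) (hfin : μ A ≠ ⊤) {γ : Fin m → X ≃ᵢ X}
    (hγ : ∀ a, MeasurePreserving (γ a) μ μ)
    (h1 : ∀ Y : Set X, MeasurableSet Y → Y ⊆ A →
      min (4 * μ Y) (3 / 4 * μ B) ≤ μ (B ∩ ⋃ a, γ a '' Y))
    (h2 : ∀ Y : Set X, MeasurableSet Y → Y ⊆ B →
      min (4 * μ Y) (3 / 4 * μ A) ≤ μ (A ∩ ⋃ a, (γ a).symm '' Y)) :
    ∃ P : Fin m → Set X, (∀ a, MeasurableSet (P a)) ∧ (∀ a, P a ⊆ A) ∧
      (∀ a, γ a '' P a ⊆ B) ∧ Pairwise (fun a b => Disjoint (P a) (P b)) ∧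
      Pairwise (fun a b => Disjoint (γ a '' P a) (γ b '' P b)) ∧
      μ (A \ ⋃ a, P a) = 0 ∧ μ (B \ ⋃ a, γ a '' P a) = 0 := by
  obtain ⟨c, hc, h0⟩ := D2_exists_full hA hB hAB hfin hγ h1 h2
  refine ⟨fun a => {x | c x = some a}, hc.meas, fun a x hx => hc.domA x a hx, ?_, ?_, ?_, ?_, ?_⟩
  · rintro a _ ⟨x, hx, rfl⟩
    exact hc.domB x a hx
  · intro a b hab
    rw [Set.disjoint_left]
    intro x hx hx'
    have h3 : c x = some a := hx
    have h4 : c x = some b := hx'
    rw [h3] at h4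
    exact hab (Option.some.inj h4)
  · intro a b hab
    rw [Set.disjoint_left]
    rintro _ ⟨x, hx, rfl⟩ ⟨y, hy, hyx⟩
    have h5 : x = y := hc.inj x y a b hx hy hyx.symm
    subst h5
    have h3 : c x = some a := hx
    have h4 : c x = some b := hy
    rw [h3] at h4
    exact hab (Option.some.inj h4)
  · have h3 : (A \ ⋃ a, {x | c x = some a}) ⊆ unA A c := by
      rintro x ⟨hx, hx'⟩
      refine ⟨hx, ?_⟩
      rcases h4 : c x with _ | a
      · rfl
      · exact absurd (Set.mem_iUnion.2 ⟨a, h4⟩) hx'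
    exact measure_mono_null h3 h0
  · have h3 : (B \ ⋃ a, γ a '' {x | c x = some a}) = unB B γ c := by
      unfold unB pushM
      simp
    rw [h3, D2_unB_measure hA hB hAB hfin hγ hc, h0]

end

end BorelEq
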