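import Pool.Agent.Lib.MP_75103d_lc.D2_Iso

/-! Measurability of the sets. -/

set_option autoImplicit false

open MeasureTheory Set

namespace BorelEq

section

variable {X : Type} [MetricSpace X] [MeasurableSpace X] [BorelSpace X] {m : ℕ}

theorem D2_none_meas {c : X → Option (Fin m)} (hc : ∀ a, MeasurableSet {x | c x = some a}) :
    MeasurableSet {x | c x = none} := by
  have h : {x | c x = none} = (⋃ a, {x | c x = some a})ᶜ := by
    ext x
    simp only [mem_setOf_eq, mem_compl_iff, mem_iUnion, not_exists]
    constructor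
    · intro h a ha
      rw [h] at ha
      exact absurd ha (by simp)
    · intro h
      cases hx : c x with
      | none => rfl
      | some a => exact absurd hx (h a)
  rw [h]
  exact (MeasurableSet.iUnion hc).compl

theorem D2_unA_meas {A : Set X} (hA : MeasurableSet A) {c : X → Option (Fin m)}
    (hc : ∀ a, MeasurableSet {x | c x = some a}) : MeasurableSet (unA A c) :=
  hA.inter (D2_none_meas hc)

theorem D2_push_meas (γ : Fin m → X ≃ᵢ X) {c : X → Option (Fin m)}
    (hc : ∀ a, MeasurableSet {x | c x = some a}) {Y : Set X} (hY : MeasurableSet Y) :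
    MeasurableSet (pushM γ c Y) :=
  MeasurableSet.iUnion fun a => D2_image_meas (γ a) (hY.inter (hc a))

theorem D2_unB_meas (γ : Fin m → X ≃ᵢ X) {B : Set X} (hB : MeasurableSet B)
    {c : X → Option (Fin m)} (hc : ∀ a, MeasurableSet {x | c x = some a}) :
    MeasurableSet (unB B γ c) :=
  hB.diff (D2_push_meas γ hc MeasurableSet.univ)

theorem D2_nbA_meas (γ : Fin m → X ≃ᵢ X) {A : Set X} (hA : MeasurableSet A) {W : Set X}
    (hW : MeasurableSet W) : MeasurableSet (nbA A γ W) :=
  hA.inter (MeasurableSet.iUnion fun a => D2_image_meas (γ a).symm hW)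

theorem D2_reach_meas (γ : Fin m → X ≃ᵢ X) {A B : Set X} (hA : MeasurableSet A)
    (hB : MeasurableSet B) {c : X → Option (Fin m)}
    (hc : ∀ a, MeasurableSet {x | c x = some a}) (i : ℕ) :
    MeasurableSet (reachB A B γ c i) := by
  induction i with
  | zero => exact D2_unB_meas γ hB hc
  | succ i ih =>
    exact (D2_unB_meas γ hB hc).union (D2_push_meas γ hc (D2_nbA_meas γ hA ih))

private theorem stp_meas (γ : Fin m → X ≃ᵢ X) (p : Fin m × Fin m) : Measurable (stp γ p) :=
  ((γ p.2).symm.continuous.comp (γ p.1).continuous).measurable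

theorem D2_path_meas (γ : Fin m → X ≃ᵢ X) {B : Set X} (hB : MeasurableSet B)
    {c : X → Option (Fin m)} (hc : ∀ a, MeasurableSet {x | c x = some a}) (a : Fin m)
    (l : List (Fin m × Fin m)) : MeasurableSet {x | APath B γ c a l x} := by
  induction l with
  | nil => exact (γ a).continuous.measurable (D2_unB_meas γ hB hc)
  | cons p l ih => exact (stp_meas γ p (hc p.2)).inter (stp_meas γ p ih)

end

end BorelEq
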