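import Pool.Agent.Lib.MP_75103d_lc.D2_Defs

/-! Alternating paths. -/

set_option autoImplicit false

open MeasureTheory Set

namespace BorelEq

section

variable {X : Type} [MetricSpace X] {m : ℕ}

/-- induction on `i`. -/
theorem D2_path_of_reach {A B : Set X} {γ : Fin m → X ≃ᵢ X} {c : X → Option (Fin m)} (i : ℕ)
    (y : X) (hy : y ∈ nbA A γ (reachB A B γ c i)) :
    ∃ (a : Fin m) (l : List (Fin m × Fin m)), l.length ≤ i ∧ APath B γ c a l y := by
  induction i generalizing y with
  | zero =>
    obtain ⟨-, hy⟩ := hy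
    obtain ⟨a, w, hw, hwy⟩ := mem_iUnion.1 hy
    refine ⟨a, [], le_rfl, ?_⟩
    show γ a y ∈ unB B γ c
    rw [← hwy, IsometryEquiv.apply_symm_apply]
    exact hw
  | succ i ih =>
    obtain ⟨-, hy⟩ := hy
    obtain ⟨a, w, hw, hwy⟩ := mem_iUnion.1 hy
    have hay : γ a y = w := by
      rw [← hwy, IsometryEquiv.apply_symm_apply]
    rcases hw with hw | hw
    · refine ⟨a, [], Nat.zero_le _, ?_⟩
      show γ a y ∈ unB B γ c
      rw [hay]
      exact hw
    · obtain ⟨b, z, ⟨hz1, hz2⟩, hz3⟩ := mem_iUnion.1 hw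
      obtain ⟨a', l, hl, hp⟩ := ih z hz1
      have hst : stp γ (a, b) y = z := by
        show (γ b).symm (γ a y) = z
        rw [hay, ← hz3, IsometryEquiv.symm_apply_apply]
      refine ⟨a', (a, b) :: l, by simpa using hl, ?_⟩
      show c (stp γ (a, b) y) = some b ∧ APath B γ c a' l (stp γ (a, b) y)
      rw [hst]
      exact ⟨hz2, hp⟩

/-- every point of a path starts a path which is not longer. -/
theorem D2_path_suffix {B : Set X} {γ : Fin m → X ≃ᵢ X} {c : X → Option (Fin m)} (a : Fin m)
    (l : List (Fin m × Fin m)) (x : X) (h : APath B γ c a l x) (z : X) (hz : z ∈ orb γ l x) :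
    ∃ l' : List (Fin m × Fin m), l'.length ≤ l.length ∧ APath B γ c a l' z := by
  induction l generalizing x with
  | nil =>
    have hzx : z = x := by
      rw [orb] at hz
      exact List.mem_singleton.1 hz
    subst hzx
    exact ⟨[], le_rfl, h⟩
  | cons p l ih =>
    rw [orb] at hz
    rcases List.mem_cons.1 hz with hzx | hz'
    · subst hzx
      exact ⟨p :: l, le_rfl, h⟩
    · obtain ⟨l', hl', hp'⟩ := ih (stp γ p x) h.2 hz'
      exact ⟨l', hl'.trans (by simp), hp'⟩

/-- cutting a loop: induction on `l` with `D2_path_suffix`. -/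
theorem D2_cut {B : Set X} {γ : Fin m → X ≃ᵢ X} {c : X → Option (Fin m)} (a : Fin m)
    (l : List (Fin m × Fin m)) (x : X) (h : APath B γ c a l x) (hn : ¬ (orb γ l x).Nodup) :
    ∃ l' : List (Fin m × Fin m), l'.length < l.length ∧ APath B γ c a l' x := by
  induction l generalizing x with
  | nil =>
    exfalso
    apply hn
    rw [orb]
    exact List.nodup_singleton x
  | cons p l ih =>
    rw [orb, List.nodup_cons, not_and_or, not_not] at hn
    rcases hn with hn | hn
    · obtain ⟨l', hl', hp'⟩ := D2_path_suffix a l (stp γ p x) h.2 x hn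
      exact ⟨l', lt_of_le_of_lt hl' (by simp), hp'⟩
    · obtain ⟨l', hl', hp'⟩ := ih (stp γ p x) h.2 hn
      exact ⟨p :: l', by simpa using hl', h.1, hp'⟩

end

end BorelEq
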