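import Pool.Agent.Lib.MP_75103d_lc.D2_Meas

/-! Measures of the sets of partners. -/

set_option autoImplicit false

open MeasureTheory Set

namespace BorelEq

section

variable {X : Type} [MetricSpace X] [MeasurableSpace X] [BorelSpace X] {m : ℕ}

private theorem push_piece {μ : Measure X} {γ : Fin m → X ≃ᵢ X}
    (hγ : ∀ a, MeasurePreserving (γ a) μ μ) (a : Fin m) {T : Set X} (hT : MeasurableSet T) :
    MeasurableSet (γ a '' T) ∧ μ (γ a '' T) = μ T := by
  have h1 : MeasurableSet (γ a '' T) := by
    have h2 : γ a '' T = (γ a).symm ⁻¹' T := by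
      ext x
      constructor
      · rintro ⟨y, hy, rfl⟩
        show (γ a).symm (γ a y) ∈ T
        rwa [IsometryEquiv.symm_apply_apply]
      · intro hx
        exact ⟨(γ a).symm x, hx, IsometryEquiv.apply_symm_apply _ _⟩
    rw [h2]
    exact (γ a).symm.continuous.measurable hT
  refine ⟨h1, ?_⟩
  rw [← (hγ a).measure_preimage h1.nullMeasurableSet, Set.preimage_image_eq _ (γ a).injective]

private theorem push_meas {μ : Measure X} {A B : Set X} {γ : Fin m → X ≃ᵢ X}
    (hγ : ∀ a, MeasurePreserving (γ a) μ μ) {c : X → Option (Fin m)} (hc : IsMat A B γ c)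
    {Y : Set X} (hY : MeasurableSet Y) : MeasurableSet (pushM γ c Y) :=
  MeasurableSet.iUnion fun a => (push_piece hγ a (hY.inter (hc.meas a))).1

/-- the pieces `γ a '' (Y ∩ {c = some a})` are disjoint and have the measures of
`Y ∩ {c = some a}`. -/
theorem D2_push_measure {μ : Measure X} {A B : Set X} {γ : Fin m → X ≃ᵢ X}
    (hγ : ∀ a, MeasurePreserving (γ a) μ μ) {c : X → Option (Fin m)} (hc : IsMat A B γ c)
    {Y : Set X} (hY : MeasurableSet Y) : μ (pushM γ c Y) = μ (Y \ {x | c x = none}) := by
  have h1 : Y \ {x | c x = none} = ⋃ a, Y ∩ {x | c x = some a} := by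
    ext x
    simp only [mem_diff, mem_iUnion, mem_inter_iff]
    constructor
    · rintro ⟨hx, hx2⟩
      cases h : c x with
      | none => exact absurd h hx2
      | some a => exact ⟨a, hx, h⟩
    · rintro ⟨a, hx, ha⟩
      refine ⟨hx, fun h => ?_⟩
      have ha' : c x = some a := ha
      have h' : c x = none := h
      rw [ha'] at h'
      cases h'
  have hdisj1 : Pairwise (Function.onFun Disjoint fun a => Y ∩ {x | c x = some a}) := by
    intro a b hab
    rw [Function.onFun, Set.disjoint_left]
    rintro x ⟨_, hx⟩ ⟨_, hx'⟩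
    have h2 : c x = some a := hx
    have h3 : c x = some b := hx'
    rw [h2] at h3
    exact hab (Option.some.inj h3)
  have hdisj2 : Pairwise (Function.onFun Disjoint fun a => γ a '' (Y ∩ {x | c x = some a})) := by
    intro a b hab
    rw [Function.onFun, Set.disjoint_left]
    rintro z ⟨x, ⟨_, hx⟩, rfl⟩ ⟨y, ⟨_, hy⟩, hxy⟩
    have h2 : c x = some a := hx
    have h3 : c y = some b := hy
    have h4 := hc.inj y x b a h3 h2 hxy
    rw [h4, h2] at h3
    exact hab (Option.some.inj h3)
  unfold pushM
  rw [h1, measure_iUnion hdisj2 (fun a => (push_piece hγ a (hY.inter (hc.meas a))).1),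
    measure_iUnion hdisj1 (fun a => hY.inter (hc.meas a))]
  exact tsum_congr fun a => (push_piece hγ a (hY.inter (hc.meas a))).2

/-- the unmatched parts of `A` and `B` have the same measure: `pushM γ c univ ⊆ B` has the measure
of `univ \ {c = none} = A \ unA A c`. -/
theorem D2_unB_measure {μ : Measure X} {A B : Set X} (hA : MeasurableSet A)
    (hB : MeasurableSet B) (hAB : μ A = μ B) (hfin : μ A ≠ ⊤) {γ : Fin m → X ≃ᵢ X}
    (hγ : ∀ a, MeasurePreserving (γ a) μ μ) {c : X → Option (Fin m)} (hc : IsMat A B γ c) :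
    μ (unB B γ c) = μ (unA A c) := by
  have hsub : pushM γ c univ ⊆ B := by
    intro z hz
    obtain ⟨a, x, ⟨_, hx⟩, rfl⟩ := mem_iUnion.1 hz
    exact hc.domB x a hx
  have hnone : MeasurableSet {x | c x = none} := by
    have h1 : {x | c x = none} = (⋃ a, {x | c x = some a})ᶜ := by
      ext x
      rw [mem_compl_iff, mem_iUnion]
      constructor
      · rintro h ⟨a, ha⟩
        have h' : c x = none := h
        have ha' : c x = some a := ha
        rw [h'] at ha'
        cases ha'
      · intro h
        cases h2 : c x with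
        | none => exact h2
        | some a => exact absurd ⟨a, h2⟩ h
    rw [h1]
    exact (MeasurableSet.iUnion hc.meas).compl
  have h2 : (univ : Set X) \ {x | c x = none} = A \ unA A c := by
    ext x
    constructor
    · rintro ⟨_, hx⟩
      have hx' : c x ≠ none := hx
      obtain ⟨a, ha⟩ := Option.ne_none_iff_exists'.1 hx'
      exact ⟨hc.domA x a ha, fun h => hx h.2⟩
    · rintro ⟨hx, hx2⟩
      exact ⟨mem_univ _, fun h => hx2 ⟨hx, h⟩⟩
  have hun : MeasurableSet (unA A c) := hA.inter hnone
  have hunsub : unA A c ⊆ A := fun x hx => hx.1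
  have h3 := D2_push_measure hγ hc (MeasurableSet.univ)
  have hfin2 : μ (pushM γ c univ) ≠ ⊤ := ne_top_of_le_ne_top (hAB ▸ hfin) (measure_mono hsub)
  have hfin3 : μ (A \ unA A c) ≠ ⊤ := ne_top_of_le_ne_top hfin (measure_mono diff_subset)
  unfold unB
  rw [measure_diff hsub (push_meas hγ hc MeasurableSet.univ).nullMeasurableSet hfin2, h3, h2, ← hAB]
  have h4 : μ (unA A c) + μ (A \ unA A c) = μ A := by
    have := measure_inter_add_diff A hun (μ := μ)
    rwa [inter_eq_self_of_subset_right hunsub] at this
  rw [← h4]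
  exact ENNReal.add_sub_cancel_right hfin3

end

end BorelEq
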