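import Pool.Agent.Lib.MP_75103d_lc.D2_Meas
import Pool.Agent.Lib.MP_75103d_lc.D2_PathA

/-! A path without repetitions. -/

set_option autoImplicit false

open MeasureTheory Set

namespace BorelEq

section

variable {X : Type} [MetricSpace X] [SecondCountableTopology X] [MeasurableSpace X]
  [BorelSpace X] {m : ℕ}

/-- minimality: among all `(a, l)` with `μ {x ∈ unA A c | APath B γ c a l x} ≠ 0` (there is one with
`l.length ≤ i` by `D2_path_of_reach` and countability of the set of lists) take one with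
`l.length` minimal; by `D2_cut` the points with a repetition are in a countable union of null
sets. -/
theorem D2_min_path {μ : Measure X} {A B : Set X} {γ : Fin m → X ≃ᵢ X}
    {c : X → Option (Fin m)} (i : ℕ)
    (hi : μ (nbA A γ (reachB A B γ c i) ∩ unA A c) ≠ 0) :
    ∃ (a : Fin m) (l : List (Fin m × Fin m)), l.length ≤ i ∧
      μ {x | x ∈ unA A c ∧ APath B γ c a l x ∧ (orb γ l x).Nodup} ≠ 0 := by
  classical
  let Q : ℕ → Prop := fun k => ∃ (a : Fin m) (l : List (Fin m × Fin m)), l.length = k ∧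
    μ {x | x ∈ unA A c ∧ APath B γ c a l x} ≠ 0
  have hQ : ∃ k, k ≤ i ∧ Q k := by
    by_contra hcon
    apply hi
    have hsub : nbA A γ (reachB A B γ c i) ∩ unA A c ⊆
        ⋃ p : Fin m × List (Fin m × Fin m),
          {x | p.2.length ≤ i ∧ x ∈ unA A c ∧ APath B γ c p.1 p.2 x} := by
      rintro x ⟨hx1, hx2⟩
      obtain ⟨a, l, hl, hp⟩ := D2_path_of_reach i x hx1
      exact mem_iUnion.2 ⟨(a, l), hl, hx2, hp⟩
    refine measure_mono_null hsub (measure_iUnion_null ?_)
    rintro ⟨a, l⟩
    by_cases hl : l.length ≤ i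
    · by_contra hne
      refine hcon ⟨l.length, hl, a, l, rfl, ?_⟩
      intro h0
      apply hne
      refine measure_mono_null ?_ h0
      rintro x ⟨_, h2, h3⟩
      exact ⟨h2, h3⟩
    · have : {x | (a, l).2.length ≤ i ∧ x ∈ unA A c ∧ APath B γ c (a, l).1 (a, l).2 x} = ∅ := by
        ext x
        simp only [mem_empty_iff_false, iff_false]
        rintro ⟨h, _⟩
        exact hl h
      rw [this, measure_empty]
  have hex : ∃ k, Q k := ⟨hQ.choose, hQ.choose_spec.2⟩
  have hk : Q (Nat.find hex) := Nat.find_spec hex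
  have hmin : Nat.find hex ≤ i := (Nat.find_min' hex hQ.choose_spec.2).trans hQ.choose_spec.1
  obtain ⟨a, l, hl, h0⟩ := hk
  refine ⟨a, l, by rw [hl]; exact hmin, ?_⟩
  intro hzero
  apply h0
  have hsub : {x | x ∈ unA A c ∧ APath B γ c a l x} ⊆
      {x | x ∈ unA A c ∧ APath B γ c a l x ∧ (orb γ l x).Nodup} ∪
        ⋃ l' : List (Fin m × Fin m),
          {x | l'.length < l.length ∧ x ∈ unA A c ∧ APath B γ c a l' x} := by
    rintro x ⟨hx1, hx2⟩
    by_cases hn : (orb γ l x).Nodup
    · exact Or.inl ⟨hx1, hx2, hn⟩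
    · obtain ⟨l', hl', hp'⟩ := D2_cut a l x hx2 hn
      exact Or.inr (mem_iUnion.2 ⟨l', hl', hx1, hp'⟩)
  refine measure_mono_null hsub (measure_union_null hzero (measure_iUnion_null ?_))
  intro l'
  by_cases hl' : l'.length < l.length
  · have hnot : ¬ Q l'.length := Nat.find_min hex (by rw [← hl]; exact hl')
    by_contra hne
    refine hnot ⟨a, l', rfl, ?_⟩
    intro h0'
    apply hne
    refine measure_mono_null ?_ h0'
    rintro x ⟨_, h2, h3⟩
    exact ⟨h2, h3⟩
  · have : {x | l'.length < l.length ∧ x ∈ unA A c ∧ APath B γ c a l' x} = ∅ := by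
      ext x
      simp only [mem_empty_iff_false, iff_false]
      rintro ⟨h, _⟩
      exact hl' h
    rw [this, measure_empty]

end

end BorelEq
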