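import Pool.Agent.Lib.MP_75103d_lc.D2_Defs

/-! Isometries preserve the volume. -/

set_option autoImplicit false

open MeasureTheory Set

namespace BorelEq

theorem D2_vol (n : ℕ) (e : Eu n ≃ᵢ Eu n) : MeasurePreserving e volume volume := by
  have h1 : ∀ x, e x = (e.toRealLinearIsometryEquiv x) + e 0 := by
    intro x
    simp
  have h2 : (e : Eu n → Eu n) = (fun x => x + e 0) ∘ e.toRealLinearIsometryEquiv := by
    funext x
    exact h1 x
  rw [h2]
  exact (measurePreserving_add_right volume (e 0)).comp
    (LinearIsometryEquiv.measurePreserving _)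

end BorelEq
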