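import Mathlib

/-!
MP_75103d_lc (frozen S14907), helper32.  Basic definitions and interface.
-/

set_option autoImplicit false

open MeasureTheory Set
open scoped Quaternion ENNReal

namespace BorelEq

/-- Euclidean space. -/
abbrev Eu (n : ℕ) := EuclideanSpace ℝ (Fin n)

/-! ### The group of unit quaternions -/

noncomputable instance instMeasurableSpaceQuat : MeasurableSpace ℍ[ℝ] := borel _

instance instBorelSpaceQuat : BorelSpace ℍ[ℝ] := ⟨rfl⟩

/-- The group of unit quaternions, a compact topological group. -/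
abbrev UQ := Metric.sphere (0 : ℍ[ℝ]) 1

/-- Haar probability on the unit quaternions: normalised surface measure. -/
noncomputable def muQ : Measure UQ :=
  ((volume : Measure ℍ[ℝ]).toSphere univ)⁻¹ • (volume : Measure ℍ[ℝ]).toSphere

/-- Conjugation invariant distance to the identity. -/
noncomputable def nrmQ (g : UQ) : ℝ := ‖(g : ℍ[ℝ]) - 1‖

/-! ### Actions -/

/-- A measurable action. -/
structure MAct (G E : Type*) [Group G] [MeasurableSpace G] [MeasurableSpace E] where
  /-- the action -/
  a : G → E → E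
  one : ∀ x, a 1 x = x
  mul : ∀ g h x, a (g * h) x = a g (a h x)
  meas : Measurable (fun p : G × E => a p.1 p.2)

/-! ### Type semigroup -/

/-- `f` and `g` are Borel equidecomposable (multiplicities allowed). -/
def Dec {n : ℕ} (f g : Eu n → ℕ) : Prop :=
  ∃ (m : ℕ) (P : Fin m → Set (Eu n)) (γ : Fin m → (Eu n ≃ᵢ Eu n)),
    (∀ a, MeasurableSet (P a)) ∧
    (∀ x, f x = ∑ a, (P a).indicator (fun _ => 1) x) ∧
    (∀ x, g x = ∑ a, (γ a '' P a).indicator (fun _ => 1) x)

/-- `f` is Borel equidecomposable to a subfunction of `g`. -/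
def Le' {n : ℕ} (f g : Eu n → ℕ) : Prop :=
  ∃ g' : Eu n → ℕ, (∀ x, g' x ≤ g x) ∧ Dec f g'

/-- Indicator with values in `ℕ`. -/
noncomputable def ind {n : ℕ} (A : Set (Eu n)) : Eu n → ℕ := A.indicator (fun _ => 1)

end BorelEq
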