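import Pool.Agent.Lib.MP_75103d_lc.C_SB

/-! (E) auxiliary lemmas for the assembly. -/

set_option autoImplicit false

open MeasureTheory Set
open scoped ENNReal

namespace BorelEq

/-- From `Dec` of indicators to the pieces of the frozen statement. -/
theorem Dec_pieces {n : ℕ} {A B : Set (Eu n)} (h : Dec (ind A) (ind B)) :
    ∃ m : ℕ, ∃ P : Fin m → Set (Eu n), ∃ γ : Fin m → (Eu n ≃ᵢ Eu n),
      (∀ i, MeasurableSet (P i)) ∧ Pairwise (fun i j => Disjoint (P i) (P j)) ∧
      (⋃ i, P i) = A ∧ Pairwise (fun i j => Disjoint (γ i '' P i) (γ j '' P j)) ∧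
      (⋃ i, γ i '' P i) = B := by
  obtain ⟨m, P, γ, hP, hf, hg⟩ := h
  have key : ∀ (S : Set (Eu n)) (Q : Fin m → Set (Eu n)),
      (∀ x, ind S x = ∑ a, (Q a).indicator (fun _ => (1 : ℕ)) x) → (⋃ i, Q i) = S := by
    intro S Q hQ
    ext x
    rw [mem_iUnion]
    constructor
    · rintro ⟨a, ha⟩
      by_contra hx
      have h1 := C_SB_one_le Q x a ha
      rw [← hQ x] at h1
      unfold ind at h1
      rw [indicator_of_notMem hx] at h1
      omega
    · intro hx
      refine C_SB_exists Q x ?_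
      rw [← hQ x]
      unfold ind
      rw [indicator_of_mem hx]
      exact one_ne_zero
  refine ⟨m, P, γ, hP, ?_, key A P hf, ?_, key B (fun i => γ i '' P i) hg⟩
  · exact C_SB_disj P (fun x => by rw [← hf x]; exact C_SB_ind_le A x)
  · exact C_SB_disj (fun i => γ i '' P i) (fun x => by rw [← hg x]; exact C_SB_ind_le B x)

theorem E_Aux_null {n : ℕ} (γ : Eu n ≃ᵢ Eu n) {N : Set (Eu n)} (h0 : volume N = 0) :
    volume (γ '' N) = 0 := by
  refine addHaar_image_eq_zero_of_differentiableOn_of_addHaar_eq_zero volume ?_ h0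
  have h1 : (γ : Eu n → Eu n) = fun x => γ.toRealLinearIsometryEquiv x + γ 0 := by
    funext x
    rw [IsometryEquiv.toRealLinearIsometryEquiv_apply]
    simp
  rw [h1]
  refine Differentiable.differentiableOn ?_
  exact (γ.toRealLinearIsometryEquiv.toContinuousLinearEquiv.differentiable).add_const _

/-- A null set is contained in a null set invariant under finitely many isometries. -/
theorem exists_saturation {n : ℕ} (Ξ : Finset (Eu n ≃ᵢ Eu n)) (N : Set (Eu n))
    (hN : MeasurableSet N) (h0 : volume N = 0) :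
    ∃ X : Set (Eu n), MeasurableSet X ∧ volume X = 0 ∧ N ⊆ X ∧ ∀ ξ ∈ Ξ, ξ '' X = X := by
  classical
  let F : Set (Eu n) → Set (Eu n) := fun S => S ∪ ⋃ ξ ∈ Ξ, (ξ '' S ∪ ξ.symm '' S)
  let Y : ℕ → Set (Eu n) := fun k => Nat.rec N (fun _ S => F S) k
  have hY0 : Y 0 = N := rfl
  have hYs : ∀ k, Y (k + 1) = F (Y k) := fun k => rfl
  have hYm : ∀ k, MeasurableSet (Y k) := by
    intro k
    induction k with
    | zero => exact hN
    | succ k ih =>
      rw [hYs]
      exact ih.union (Finset.measurableSet_biUnion _ (fun ξ _ =>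
        (C_Dec1_meas_image ξ ih).union (C_Dec1_meas_image ξ.symm ih)))
  have hYn : ∀ k, volume (Y k) = 0 := by
    intro k
    induction k with
    | zero => exact h0
    | succ k ih =>
      rw [hYs]
      refine measure_union_null ih ?_
      refine (measure_biUnion_null_iff Ξ.countable_toSet).2 (fun ξ _ => ?_)
      exact measure_union_null (E_Aux_null ξ ih) (E_Aux_null ξ.symm ih)
  have hsub : ∀ ξ ∈ Ξ, ξ '' (⋃ k, Y k) ⊆ ⋃ k, Y k := by
    intro ξ hξ
    rw [image_iUnion]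
    refine iUnion_subset (fun k => ?_)
    refine Subset.trans ?_ (subset_iUnion Y (k + 1))
    rw [hYs]
    intro y hy
    exact Or.inr (mem_iUnion₂.2 ⟨ξ, hξ, Or.inl hy⟩)
  have hsub' : ∀ ξ ∈ Ξ, ξ.symm '' (⋃ k, Y k) ⊆ ⋃ k, Y k := by
    intro ξ hξ
    rw [image_iUnion]
    refine iUnion_subset (fun k => ?_)
    refine Subset.trans ?_ (subset_iUnion Y (k + 1))
    rw [hYs]
    intro y hy
    exact Or.inr (mem_iUnion₂.2 ⟨ξ, hξ, Or.inr hy⟩)
  refine ⟨⋃ k, Y k, MeasurableSet.iUnion hYm, measure_iUnion_null hYn, ?_, ?_⟩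
  · exact subset_iUnion Y 0
  · intro ξ hξ
    refine Subset.antisymm (hsub ξ hξ) ?_
    intro y hy
    exact ⟨ξ.symm y, hsub' ξ hξ ⟨y, hy, rfl⟩, by simp⟩

/-- The a.e. equidecomposition restricted to the complement of an invariant null set. -/
theorem Dec_diff {n : ℕ} {A B X : Set (Eu n)} {m : ℕ} {P : Fin m → Set (Eu n)}
    {γ : Fin m → (Eu n ≃ᵢ Eu n)} (hX : MeasurableSet X) (hP : ∀ a, MeasurableSet (P a))
    (hPA : ∀ a, P a ⊆ A) (hPB : ∀ a, γ a '' P a ⊆ B)
    (hd : Pairwise (fun a b => Disjoint (P a) (P b)))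
    (hd' : Pairwise (fun a b => Disjoint (γ a '' P a) (γ b '' P b)))
    (hA : A \ (⋃ a, P a) ⊆ X) (hB : B \ (⋃ a, γ a '' P a) ⊆ X) (hγ : ∀ a, γ a '' X = X) :
    Dec (ind (A \ X)) (ind (B \ X)) := by
  have him : ∀ a, γ a '' (P a \ X) = (γ a '' P a) \ X := by
    intro a
    rw [image_sdiff (γ a).injective, hγ a]
  refine Dec_of_pieces (fun a => P a \ X) γ (fun a => (hP a).diff hX) ?_ ?_ ?_ ?_
  · intro a b hab
    exact (hd hab).mono sdiff_subset sdiff_subset
  · ext x
    simp only [mem_iUnion, mem_sdiff]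
    constructor
    · rintro ⟨a, ha, hx⟩
      exact ⟨hPA a ha, hx⟩
    · rintro ⟨hxA, hx⟩
      by_contra hcon
      refine hx (hA ⟨hxA, ?_⟩)
      rw [mem_iUnion]
      rintro ⟨a, ha⟩
      exact hcon ⟨a, ha, hx⟩
  · intro a b hab
    show Disjoint (γ a '' (P a \ X)) (γ b '' (P b \ X))
    rw [him, him]
    exact (hd' hab).mono sdiff_subset sdiff_subset
  · have : (⋃ a, γ a '' (P a \ X)) = ⋃ a, ((γ a '' P a) \ X) := iUnion_congr him
    rw [this]
    ext x
    simp only [mem_iUnion, mem_sdiff]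
    constructor
    · rintro ⟨a, ha, hx⟩
      exact ⟨hPB a ha, hx⟩
    · rintro ⟨hxB, hx⟩
      by_contra hcon
      refine hx (hB ⟨hxB, ?_⟩)
      rw [mem_iUnion]
      rintro ⟨a, ha⟩
      exact hcon ⟨a, ha, hx⟩

end BorelEq
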