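import Pool.Agent.Lib.MP_75103d_lc.G_RotE

/-! Part (G): the action and its averages (definitions). -/

set_option autoImplicit false

open MeasureTheory Set
open scoped ENNReal Quaternion

namespace BorelEq

/-- The action. -/
noncomputable def rotA {n : ℕ} (e : Fin 3 ↪ Fin n) (p : Eu n) : MAct UQ (Eu n) where
  a := rotE e p
  one := rotE_one e p
  mul := rotE_mul e p
  meas := rotE_meas e p

/-- Average of `f` over the action. -/
noncomputable def avg {n : ℕ} (α : MAct UQ (Eu n)) (f : Eu n → ℝ≥0∞) (x : Eu n) : ℝ≥0∞ :=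
  ∫⁻ g, f (α.a g x) ∂muQ

/-- Composition of the averages of a list of actions; the first of the list is applied last. -/
noncomputable def avgs {n : ℕ} (L : List ((Fin 3 ↪ Fin n) × Eu n)) (f : Eu n → ℝ≥0∞) : Eu n → ℝ≥0∞ :=
  L.foldr (fun q F => avg (rotA q.1 q.2) F) f

end BorelEq
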