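import Pool.Agent.Lib.MP_75103d_lc.G_Rad2

/-! Part (G): cylindrical computation: ∫_{|y|≤1} h(y_2/|y|) dy = κ ∫_{-1}^1 h. Fubini R^3 = R^2 x R (MeasurableEquiv.piFinSuccAbove / volume_preserving_piFinSuccAbove), radial2 on R^2, shift β = α + z^2, Tonelli in (z, β), substitution z = √β s. -/

set_option autoImplicit false

open MeasureTheory Set
open scoped ENNReal Quaternion

namespace BorelEq

theorem G_Cyl_scale (a : ℝ) (ha : 0 < a) (G : ℝ → ℝ≥0∞) (hG : Measurable G) :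
    ∫⁻ z, G (z / a) = ENNReal.ofReal a * ∫⁻ s, G s := by
  have h1 : Measure.map (fun z : ℝ => z * a⁻¹) volume = ENNReal.ofReal |(a⁻¹)⁻¹| • volume :=
    Real.map_volume_mul_right (inv_ne_zero ha.ne')
  have h2 : ∫⁻ z, G (z / a) = ∫⁻ s, G s ∂(Measure.map (fun z : ℝ => z * a⁻¹) volume) := by
    rw [lintegral_map hG (by fun_prop : Measurable (fun z : ℝ => z * a⁻¹))]
    simp [div_eq_mul_inv]
  rw [h2, h1, lintegral_smul_measure, inv_inv, abs_of_pos ha]
  rfl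

theorem G_Cyl_meas (h : ℝ → ℝ≥0∞) (hh : Measurable h) :
    Measurable (fun p : ℝ × ℝ => if p.1 ^ 2 < p.2 ∧ p.2 ≤ 1 then h (p.1 / √p.2) else 0) := by
  refine Measurable.ite ?_ (hh.comp (measurable_fst.div measurable_snd.sqrt)) measurable_const
  exact (measurableSet_lt (measurable_fst.pow_const 2) measurable_snd).inter
    (measurableSet_le measurable_snd measurable_const)

theorem G_Cyl_inner (h : ℝ → ℝ≥0∞) (hh : Measurable h) (β : ℝ) :
    ∫⁻ z : ℝ, (if z ^ 2 < β ∧ β ≤ 1 then h (z / √β) else 0) =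
      (Ioc (0 : ℝ) 1).indicator (fun β => ENNReal.ofReal (√β) * ∫⁻ s in Icc (-1 : ℝ) 1, h s) β := by
  by_cases hβ : β ∈ Ioc (0 : ℝ) 1
  · rw [indicator_of_mem hβ]
    obtain ⟨hβ0, hβ1⟩ := hβ
    have hs : 0 < √β := Real.sqrt_pos.2 hβ0
    have h1 : ∀ z : ℝ, (if z ^ 2 < β ∧ β ≤ 1 then h (z / √β) else 0) =
        (Ioo (-1 : ℝ) 1).indicator h (z / √β) := by
      intro z
      have h2 : z / √β ∈ Ioo (-1 : ℝ) 1 ↔ z ^ 2 < β := by
        rw [mem_Ioo, ← abs_lt, abs_div, abs_of_pos hs, div_lt_one hs, ← Real.sqrt_sq_eq_abs,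
          Real.sqrt_lt_sqrt_iff (sq_nonneg z)]
      by_cases h3 : z ^ 2 < β
      · rw [if_pos ⟨h3, hβ1⟩, indicator_of_mem (h2.2 h3)]
      · rw [if_neg (fun h => h3 h.1), indicator_of_notMem (fun h => h3 (h2.1 h))]
    simp_rw [h1]
    rw [G_Cyl_scale (√β) hs _ (hh.indicator measurableSet_Ioo), lintegral_indicator measurableSet_Ioo,
      setLIntegral_congr Ioo_ae_eq_Icc]
  · rw [indicator_of_notMem hβ]
    refine (lintegral_congr (fun z => ?_)).trans lintegral_zero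
    refine if_neg (fun h => hβ ⟨?_, h.2⟩)
    exact lt_of_le_of_lt (sq_nonneg z) h.1

theorem cyl : ∃ κ : ℝ≥0∞, κ ≠ 0 ∧ κ ≠ ⊤ ∧ ∀ h : ℝ → ℝ≥0∞, Measurable h →
    ∫⁻ y : Fin 3 → ℝ in {y | ∑ i, (y i) ^ 2 ≤ 1}, h (y 2 / √(∑ i, (y i) ^ 2)) =
      κ * ∫⁻ s in Icc (-1 : ℝ) 1, h s := by
  obtain ⟨κ, hκ0, hκt, hκ⟩ := radial2
  refine ⟨κ * ∫⁻ β in Ioc (0:ℝ) 1, ENNReal.ofReal (√β), ?_, ?_, ?_⟩
  · refine mul_ne_zero hκ0 ?_
    have hm : Measurable (fun β : ℝ => ENNReal.ofReal (√β)) := by fun_prop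
    rw [Ne, lintegral_eq_zero_iff hm]
    intro h0
    have h1 : ∀ᵐ β ∂(volume.restrict (Ioc (0 : ℝ) 1)), β ∈ Ioc (0 : ℝ) 1 :=
      ae_restrict_mem measurableSet_Ioc
    have h2 : ∀ᵐ β ∂(volume.restrict (Ioc (0 : ℝ) 1)), False := by
      filter_upwards [h0, h1] with β hb hm
      have : 0 < √β := Real.sqrt_pos.2 hm.1
      simp only [Pi.zero_apply, ENNReal.ofReal_eq_zero] at hb
      linarith
    rw [Filter.eventually_false_iff_eq_bot, ae_eq_bot, Measure.restrict_eq_zero] at h2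
    simp at h2
  · refine ENNReal.mul_ne_top hκt (ne_of_lt ?_)
    calc ∫⁻ β in Ioc (0:ℝ) 1, ENNReal.ofReal (√β) ≤ ∫⁻ β in Ioc (0:ℝ) 1, 1 := by
          refine setLIntegral_mono measurable_const (fun β hβ => ?_)
          rw [← ENNReal.ofReal_one]
          exact ENNReal.ofReal_le_ofReal (Real.sqrt_le_one.2 hβ.2)
      _ < ⊤ := by simp
  intro h hh
  have hSm : Measurable (fun y : Fin 3 → ℝ => ∑ i, (y i) ^ 2) := by fun_prop
  have hS : MeasurableSet {y : Fin 3 → ℝ | ∑ i, (y i) ^ 2 ≤ 1} :=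
    measurableSet_le hSm measurable_const
  have hFm : Measurable ({y : Fin 3 → ℝ | ∑ i, (y i) ^ 2 ≤ 1}.indicator
      (fun y => h (y 2 / √(∑ i, (y i) ^ 2)))) := by
    refine Measurable.indicator (hh.comp ?_) hS
    exact (measurable_pi_apply 2).div hSm.sqrt
  rw [← lintegral_indicator hS]
  have hvp := volume_preserving_piFinSuccAbove (fun _ : Fin 3 => ℝ) 2
  rw [← hvp.symm.lintegral_comp_emb (MeasurableEquiv.measurableEmbedding _)]
  have hFm2 : Measurable (fun p : ℝ × (Fin 2 → ℝ) => ({y : Fin 3 → ℝ | ∑ i, (y i) ^ 2 ≤ 1}.indicator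
      (fun y => h (y 2 / √(∑ i, (y i) ^ 2))))
        ((MeasurableEquiv.piFinSuccAbove (fun _ : Fin 3 => ℝ) 2).symm p)) :=
    hFm.comp (MeasurableEquiv.measurable _)
  rw [Measure.volume_eq_prod, lintegral_prod _ hFm2.aemeasurable]
  have h1 : ∀ z : ℝ, ∫⁻ w : Fin 2 → ℝ, ({y : Fin 3 → ℝ | ∑ i, (y i) ^ 2 ≤ 1}.indicator
      (fun y => h (y 2 / √(∑ i, (y i) ^ 2))))
        ((MeasurableEquiv.piFinSuccAbove (fun _ : Fin 3 => ℝ) 2).symm (z, w)) =
      κ * ∫⁻ β : ℝ, (if z ^ 2 < β ∧ β ≤ 1 then h (z / √β) else 0) := by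
    intro z
    have h2 : ∀ w : Fin 2 → ℝ, ({y : Fin 3 → ℝ | ∑ i, (y i) ^ 2 ≤ 1}.indicator
      (fun y => h (y 2 / √(∑ i, (y i) ^ 2))))
        ((MeasurableEquiv.piFinSuccAbove (fun _ : Fin 3 => ℝ) 2).symm (z, w)) =
        (fun α : ℝ => if z ^ 2 + α ≤ 1 then h (z / √(z ^ 2 + α)) else 0) (∑ i, (w i) ^ 2) := by
      intro w
      have e1 : ((MeasurableEquiv.piFinSuccAbove (fun _ : Fin 3 => ℝ) 2).symm (z, w)) =
          ![w 0, w 1, z] := by
        ext i
        fin_cases i <;> rfl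
      have e2 : ∑ i, ((![w 0, w 1, z] : Fin 3 → ℝ) i) ^ 2 = z ^ 2 + ∑ i, (w i) ^ 2 := by
        simp [Fin.sum_univ_three, Fin.sum_univ_two]
        ring
      rw [e1]
      simp only [indicator, mem_ofPred_eq, e2]
      rfl
    have hKm : Measurable (fun α : ℝ => if z ^ 2 + α ≤ 1 then h (z / √(z ^ 2 + α)) else 0) := by
      refine Measurable.ite ?_ (hh.comp ?_) measurable_const
      · exact measurableSet_le (measurable_const.add measurable_id) measurable_const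
      · exact measurable_const.div (measurable_const.add measurable_id).sqrt
    rw [lintegral_congr h2, hκ _ hKm]
    · congr 1
      rw [← lintegral_indicator measurableSet_Ioi]
      rw [← lintegral_add_left_eq_self (fun β : ℝ => if z ^ 2 < β ∧ β ≤ 1 then h (z / √β) else 0) (z ^ 2)]
      refine lintegral_congr (fun α => ?_)
      simp only [indicator, mem_Ioi]
      by_cases h3 : 0 < α
      · simp [h3]
      · simp [h3]
  simp_rw [h1]
  have hJ := G_Cyl_meas h hh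
  rw [lintegral_const_mul _ hJ.lintegral_prod_right']
  rw [lintegral_lintegral_swap hJ.aemeasurable]
  simp_rw [G_Cyl_inner h hh]
  rw [lintegral_indicator measurableSet_Ioc, lintegral_mul_const _ (by fun_prop), mul_assoc]

end BorelEq
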