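import Pool.Agent.Lib.MP_75103d_lc.G_Inv
import Pool.Agent.Lib.MP_75103d_lc.G_Cyl

/-! Part (G): Archimedes. rot_avg for F y = 1_{|y|≤1} h(y_2/|y|): the inner average is 1_{|y|≤1} A(h) with A(h) = ∫ h((rotV g v0) 2) dmu, v0 = ![0,0,1] (orbit_avg, rotV_smul); so A(h) vol(ball) = κ ∫ h, constant from h = 1; general v, w by transitivity and left and right invariance (rotV_inner). -/

set_option autoImplicit false

open MeasureTheory Set
open scoped ENNReal Quaternion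

namespace BorelEq

theorem G_Arch_sq (g : UQ) (y : Fin 3 → ℝ) : ∑ i, (rotV g y i) ^ 2 = ∑ i, (y i) ^ 2 := by
  have h := rotV_inner g y y
  simpa only [pow_two] using h

theorem G_Arch_third (h : ℝ → ℝ≥0∞) (hh : Measurable h) (y : Fin 3 → ℝ) (hy : y ≠ 0) :
    ∫⁻ g, h (rotV g y 2 / √(∑ i, (y i) ^ 2)) ∂muQ = ∫⁻ g, h (rotV g ![0, 0, 1] 2) ∂muQ := by
  have hr0 : 0 < ∑ i, (y i) ^ 2 := by
    by_contra hn
    apply hy
    ext i
    have h1 : ∑ i, (y i) ^ 2 = 0 :=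
      le_antisymm (not_lt.1 hn) (Finset.sum_nonneg (fun i _ => sq_nonneg _))
    have h2 := (Finset.sum_eq_zero_iff_of_nonneg (fun i _ => sq_nonneg (y i))).1 h1 i
      (Finset.mem_univ i)
    exact pow_eq_zero_iff (two_ne_zero) |>.1 h2
  have hr : 0 < √(∑ i, (y i) ^ 2) := Real.sqrt_pos.2 hr0
  set r := √(∑ i, (y i) ^ 2) with hrdef
  have h1 : ∀ g : UQ, rotV g y 2 / r = rotV g (r⁻¹ • y) 2 := by
    intro g
    rw [rotV_smul]
    simp [div_eq_inv_mul]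
  simp_rw [h1]
  have h2 : Measurable (fun z : Fin 3 → ℝ => h (z 2)) := hh.comp (measurable_pi_apply 2)
  have h3 : ∑ i, ((r⁻¹ • y) i) ^ 2 = ∑ i, ((![0, 0, 1] : Fin 3 → ℝ) i) ^ 2 := by
    have h4 : ∑ i, ((r⁻¹ • y) i) ^ 2 = (r⁻¹) ^ 2 * ∑ i, (y i) ^ 2 := by
      rw [Finset.mul_sum]
      refine Finset.sum_congr rfl (fun i _ => ?_)
      simp [mul_pow]
    have h5 : r ^ 2 = ∑ i, (y i) ^ 2 := Real.sq_sqrt hr0.le
    rw [h4, ← h5]
    have : (r⁻¹) ^ 2 * r ^ 2 = 1 := by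
      field_simp
    rw [this]
    simp [Fin.sum_univ_three]
  exact orbit_avg (fun z : Fin 3 → ℝ => h (z 2)) h2 _ _ h3

theorem G_Arch_avg (h : ℝ → ℝ≥0∞) (hh : Measurable h) :
    ∫⁻ y : Fin 3 → ℝ in {y | ∑ i, (y i) ^ 2 ≤ 1}, h (y 2 / √(∑ i, (y i) ^ 2)) =
      (∫⁻ g, h (rotV g ![0, 0, 1] 2) ∂muQ) * volume {y : Fin 3 → ℝ | ∑ i, (y i) ^ 2 ≤ 1} := by
  have hSm : Measurable (fun y : Fin 3 → ℝ => ∑ i, (y i) ^ 2) := by fun_prop
  have hS : MeasurableSet {y : Fin 3 → ℝ | ∑ i, (y i) ^ 2 ≤ 1} :=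
    measurableSet_le hSm measurable_const
  have hFm : Measurable ({y : Fin 3 → ℝ | ∑ i, (y i) ^ 2 ≤ 1}.indicator
      (fun y => h (y 2 / √(∑ i, (y i) ^ 2)))) := by
    refine Measurable.indicator (hh.comp ?_) hS
    exact (measurable_pi_apply 2).div hSm.sqrt
  rw [← lintegral_indicator hS, rot_avg _ hFm]
  rw [← lintegral_indicator_const hS]
  refine lintegral_congr_ae ?_
  have hne : ∀ᵐ y : Fin 3 → ℝ, y ≠ 0 := by
    rw [ae_iff]
    simp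
  filter_upwards [hne] with y hy
  by_cases hy1 : ∑ i, (y i) ^ 2 ≤ 1
  · rw [indicator_of_mem (s := {y : Fin 3 → ℝ | ∑ i, (y i) ^ 2 ≤ 1}) (a := y) hy1]
    rw [← G_Arch_third h hh y hy]
    refine lintegral_congr (fun g => ?_)
    have h1 : rotV g y ∈ {y : Fin 3 → ℝ | ∑ i, (y i) ^ 2 ≤ 1} := by
      show ∑ i, (rotV g y i) ^ 2 ≤ 1
      rw [G_Arch_sq]
      exact hy1
    rw [indicator_of_mem h1, G_Arch_sq]
  · rw [indicator_of_notMem (s := {y : Fin 3 → ℝ | ∑ i, (y i) ^ 2 ≤ 1}) (a := y) hy1]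
    refine (lintegral_congr (fun g => ?_)).trans lintegral_zero
    have h1 : rotV g y ∉ {y : Fin 3 → ℝ | ∑ i, (y i) ^ 2 ≤ 1} := by
      show ¬ ∑ i, (rotV g y i) ^ 2 ≤ 1
      rw [G_Arch_sq]
      exact hy1
    exact indicator_of_notMem h1 _

theorem archimedes (v w : Fin 3 → ℝ) (hv : ∑ i, (v i) ^ 2 = 1) (hw : ∑ i, (w i) ^ 2 = 1)
    (h : ℝ → ℝ≥0∞) (hh : Measurable h) :
    ∫⁻ g, h (∑ i, rotV g v i * w i) ∂muQ = ENNReal.ofReal (1 / 2) * ∫⁻ s in Icc (-1 : ℝ) 1, h s := by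
  have hP : IsProbabilityMeasure muQ := muQ_prob
  have hv0 : ∑ i, ((![0, 0, 1] : Fin 3 → ℝ) i) ^ 2 = 1 := by simp [Fin.sum_univ_three]
  obtain ⟨g0, hg0⟩ := rotV_trans w ![0, 0, 1] (hw.trans hv0.symm)
  have h1 : ∀ g : UQ, ∑ i, rotV g v i * w i = rotV (g0 * g) v 2 := by
    intro g
    have h0 := rotV_inner g0 (rotV g v) w
    rw [hg0, ← rotV_mul] at h0
    rw [← h0]
    simp [Fin.sum_univ_three]
  simp_rw [h1]
  have h2 : ∫⁻ g, h (rotV (g0 * g) v 2) ∂muQ = ∫⁻ g, h (rotV g v 2) ∂muQ := by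
    have hm : Measurable (fun g : UQ => h (rotV g v 2)) := by
      have h3 : Measurable (fun g : UQ => (g, v)) := measurable_id.prodMk measurable_const
      have h4 : Measurable ((fun q : UQ × (Fin 3 → ℝ) => rotV q.1 q.2) ∘ (fun g : UQ => (g, v))) :=
        rotV_meas.comp h3
      have h5 : Measurable ((fun z : Fin 3 → ℝ => z 2) ∘
          ((fun q : UQ × (Fin 3 → ℝ) => rotV q.1 q.2) ∘ (fun g : UQ => (g, v)))) :=
        (measurable_pi_apply 2).comp h4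
      have h6 := hh.comp h5
      exact h6
    exact (muQ_left g0).lintegral_comp hm
  rw [h2]
  have h3 : ∫⁻ g, h (rotV g v 2) ∂muQ = ∫⁻ g, h (rotV g ![0, 0, 1] 2) ∂muQ :=
    orbit_avg (fun z : Fin 3 → ℝ => h (z 2)) (hh.comp (measurable_pi_apply 2)) _ _
      (hv.trans hv0.symm)
  rw [h3]
  obtain ⟨κ, hκ0, hκt, hκ⟩ := cyl
  have e1 := hκ h hh
  rw [G_Arch_avg h hh] at e1
  have e2 := hκ (fun _ => 1) measurable_const
  rw [G_Arch_avg (fun _ => 1) measurable_const] at e2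
  simp only [lintegral_const, measure_univ, one_mul, Measure.restrict_apply MeasurableSet.univ,
    univ_inter, Real.volume_Icc, mul_one] at e2
  have e3 : ENNReal.ofReal (1 - -1) = 2 := by
    norm_num
  rw [e3] at e2
  rw [e2] at e1
  have e4 : (∫⁻ g, h (rotV g ![0, 0, 1] 2) ∂muQ) * 2 = ∫⁻ s in Icc (-1 : ℝ) 1, h s := by
    have e5 : κ * ((∫⁻ g, h (rotV g ![0, 0, 1] 2) ∂muQ) * 2) = κ * ∫⁻ s in Icc (-1 : ℝ) 1, h s := by
      rw [← e1]
      ring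
    exact (ENNReal.mul_right_inj hκ0 hκt).1 e5
  rw [← e4]
  have e6 : ENNReal.ofReal (1 / 2) * 2 = 1 := by
    have : (2 : ℝ≥0∞) = ENNReal.ofReal 2 := by norm_num
    rw [this, ← ENNReal.ofReal_mul (by norm_num)]
    norm_num
  rw [mul_comm (∫⁻ g, h (rotV g ![0, 0, 1] 2) ∂muQ) 2, ← mul_assoc, e6, one_mul]

end BorelEq
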