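import Pool.Agent.Lib.MP_75103d_lc.G_Sub

/-! Part (G): the square of the modulus of the first complex coordinate is uniform on the unit
sphere of the quaternions. -/

set_option autoImplicit false

open MeasureTheory Set
open scoped ENNReal Quaternion

namespace BorelEq

theorem G_Arch1_cons {n : ℕ} (f : (Fin (n + 1) → ℝ) → ℝ≥0∞) (hf : Measurable f) :
    ∫⁻ x, f x = ∫⁻ a : ℝ, ∫⁻ y : Fin n → ℝ, f (Fin.cons a y) := by
  have h1 := (volume_preserving_piFinSuccAbove (fun _ : Fin (n + 1) => ℝ) 0).symm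
  have h2 := h1.lintegral_comp hf
  rw [← h2]
  have h3 : Measurable (fun p : ℝ × (Fin n → ℝ) =>
      f ((MeasurableEquiv.piFinSuccAbove (fun _ : Fin (n + 1) => ℝ) 0).symm p)) :=
    hf.comp (MeasurableEquiv.measurable _)
  rw [Measure.volume_eq_prod, lintegral_prod _ h3.aemeasurable]
  refine lintegral_congr fun a => lintegral_congr fun y => ?_
  congr 1
  simp [MeasurableEquiv.piFinSuccAbove]
  rfl

theorem G_Arch1_two (f : ℝ × ℝ → ℝ≥0∞) (hf : Measurable f) :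
    ∫⁻ y : Fin 2 → ℝ, f (y 0, y 1) = ∫⁻ w, f w :=
  (volume_preserving_finTwoArrow ℝ).lintegral_comp hf

/-- volume on the quaternions in the two pairs of coordinates -/
theorem quat_fubini (H : ℝ × ℝ → ℝ × ℝ → ℝ≥0∞) (hH : Measurable (Function.uncurry H)) :
    ∫⁻ q : ℍ[ℝ], H (q.re, q.imI) (q.imJ, q.imK) = ∫⁻ z, ∫⁻ w, H z w := by
  set f : (Fin 4 → ℝ) → ℝ≥0∞ := fun x => H (x 0, x 1) (x 2, x 3) with hf
  have hfm : Measurable f := by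
    have h0 : Measurable (fun x : Fin 4 → ℝ => (((x 0, x 1), (x 2, x 3)) : (ℝ × ℝ) × (ℝ × ℝ))) :=
      ((measurable_pi_apply 0).prodMk (measurable_pi_apply 1)).prodMk
        ((measurable_pi_apply 2).prodMk (measurable_pi_apply 3))
    exact hH.comp h0
  have h1 : MeasurePreserving (fun q : ℍ[ℝ] => (WithLp.ofLp
      (Quaternion.linearIsometryEquivTuple q) : Fin 4 → ℝ)) volume volume :=
    (PiLp.volume_preserving_ofLp (Fin 4)).comp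
      (Quaternion.linearIsometryEquivTuple.measurePreserving)
  have h2 := h1.lintegral_comp hfm
  have h3 : ∫⁻ q : ℍ[ℝ], H (q.re, q.imI) (q.imJ, q.imK) = ∫⁻ x, f x := by
    rw [← h2]
    rfl
  rw [h3, G_Arch1_cons f hfm]
  have h4 : ∀ a : ℝ, ∫⁻ y : Fin 3 → ℝ, f (Fin.cons a y) =
      ∫⁻ b : ℝ, ∫⁻ w : ℝ × ℝ, H (a, b) w := by
    intro a
    have hm : Measurable (fun y : Fin 3 → ℝ => f (Fin.cons a y)) := by
      have h0 : Measurable (fun y : Fin 3 → ℝ =>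
          (((a, y 0), (y 1, y 2)) : (ℝ × ℝ) × (ℝ × ℝ))) :=
        (measurable_const.prodMk (measurable_pi_apply 0)).prodMk
          ((measurable_pi_apply 1).prodMk (measurable_pi_apply 2))
      exact hH.comp h0
    rw [G_Arch1_cons _ hm]
    refine lintegral_congr fun b => ?_
    rw [← G_Arch1_two (fun w => H (a, b) w) (hH.comp measurable_prodMk_left)]
    rfl
  simp_rw [h4]
  have h5 : Measurable (fun z : ℝ × ℝ => ∫⁻ w : ℝ × ℝ, H z w) := hH.lintegral_prod_right'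
  exact (lintegral_prod (fun z : ℝ × ℝ => ∫⁻ w : ℝ × ℝ, H z w) h5.aemeasurable).symm

/-- law of the pair of squared moduli -/
theorem quat_planes : ∃ K : ℝ≥0∞, K ≠ 0 ∧ K ≠ ⊤ ∧ ∀ Φ : ℝ → ℝ → ℝ≥0∞,
    Measurable (Function.uncurry Φ) →
    ∫⁻ q : ℍ[ℝ], Φ (q.re ^ 2 + q.imI ^ 2) (q.imJ ^ 2 + q.imK ^ 2) =
      K * ∫⁻ u in Ioi (0 : ℝ), ∫⁻ v in Ioi (0 : ℝ), Φ u v := by
  obtain ⟨K, hK0, hK1, hK⟩ := rad2
  refine ⟨K * K, mul_ne_zero hK0 hK0, ENNReal.mul_ne_top hK1 hK1, fun Φ hΦ => ?_⟩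
  have hsq : Measurable (fun z : ℝ × ℝ => z.1 ^ 2 + z.2 ^ 2) :=
    (measurable_fst.pow_const 2).add (measurable_snd.pow_const 2)
  have hm : Measurable (Function.uncurry (fun z w : ℝ × ℝ =>
      Φ (z.1 ^ 2 + z.2 ^ 2) (w.1 ^ 2 + w.2 ^ 2))) :=
    hΦ.comp ((hsq.comp measurable_fst).prodMk (hsq.comp measurable_snd))
  have h1 := quat_fubini (fun z w => Φ (z.1 ^ 2 + z.2 ^ 2) (w.1 ^ 2 + w.2 ^ 2)) hm
  have hG : Measurable (fun u : ℝ => ∫⁻ v in Ioi (0 : ℝ), Φ u v) := hΦ.lintegral_prod_right'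
  rw [h1]
  have h2 : ∀ z : ℝ × ℝ, ∫⁻ w : ℝ × ℝ, Φ (z.1 ^ 2 + z.2 ^ 2) (w.1 ^ 2 + w.2 ^ 2) =
      K * ∫⁻ v in Ioi (0 : ℝ), Φ (z.1 ^ 2 + z.2 ^ 2) v := fun z =>
    hK (fun v => Φ (z.1 ^ 2 + z.2 ^ 2) v) (hΦ.comp measurable_prodMk_left)
  simp_rw [h2]
  have h3 : Measurable (fun z : ℝ × ℝ => ∫⁻ v in Ioi (0 : ℝ), Φ (z.1 ^ 2 + z.2 ^ 2) v) :=
    hG.comp hsq
  have h4 : ∫⁻ z : ℝ × ℝ, ∫⁻ v in Ioi (0 : ℝ), Φ (z.1 ^ 2 + z.2 ^ 2) v =
      K * ∫⁻ u in Ioi (0 : ℝ), ∫⁻ v in Ioi (0 : ℝ), Φ u v := hK _ hG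
  rw [lintegral_const_mul K h3, h4, mul_assoc]

end BorelEq
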