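import Pool.Agent.Lib.MP_75103d_lc.G_Arch1

/-! Part (G): the square of the modulus of the first complex coordinate is uniform on the unit
sphere of the quaternions. -/

set_option autoImplicit false

open MeasureTheory Set
open scoped ENNReal Quaternion

namespace BorelEq

private theorem G_Arch2_scale (F : ℝ → ℝ≥0∞) {r : ℝ} (hr : 0 < r) :
    ∫⁻ u in Ioo (0 : ℝ) r, F (u / r) = ENNReal.ofReal r * ∫⁻ s in Ioo (0 : ℝ) 1, F s := by
  have h := lintegral_image_eq_lintegral_abs_deriv_mul (s := Ioo (0 : ℝ) 1) measurableSet_Ioo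
    (f := fun t : ℝ => r * t) (f' := fun _ => r)
    (fun t _ => by simpa using ((hasDerivAt_id t).const_mul r).hasDerivWithinAt)
    (fun a _ b _ hab => mul_left_cancel₀ hr.ne' hab) (fun u => F (u / r))
  have himg : (fun t : ℝ => r * t) '' Ioo (0 : ℝ) 1 = Ioo 0 r := by
    ext u
    constructor
    · rintro ⟨t, ⟨h1, h2⟩, rfl⟩
      exact ⟨mul_pos hr h1, by nlinarith⟩
    · rintro ⟨h1, h2⟩
      exact ⟨u / r, ⟨div_pos h1 hr, (div_lt_one hr).2 h2⟩, mul_div_cancel₀ u hr.ne'⟩
  rw [himg] at h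
  rw [h, abs_of_pos hr]
  simp only [mul_div_cancel_left₀ _ hr.ne']
  exact lintegral_const_mul' _ _ ENNReal.ofReal_ne_top

private theorem G_Arch2_half : ∫⁻ r in Ioo (0 : ℝ) 1, ENNReal.ofReal r = 2⁻¹ := by
  have h1 : IntegrableOn (fun r : ℝ => r) (Ioo 0 1) :=
    (continuous_id.integrableOn_Icc).mono_set Ioo_subset_Icc_self
  rw [← ofReal_integral_eq_lintegral_ofReal h1
    ((ae_restrict_iff' measurableSet_Ioo).2 (Filter.Eventually.of_forall fun r hr => hr.1.le))]
  rw [← integral_Ioc_eq_integral_Ioo, ← intervalIntegral.integral_of_le zero_le_one, integral_id]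
  norm_num
  rw [ENNReal.ofReal_div_of_pos (by norm_num)]
  simp

/-- `∫_u ∫_v F(u/(u+v)) 1{u+v<1} = ∫_{0<r<1} ∫_{0<u<r} F(u/r) = (∫_{0<r<1} r) ∫_0^1 F` -/
theorem simplex_int (F : ℝ → ℝ≥0∞) (hF : Measurable F) :
    ∫⁻ u in Ioi (0 : ℝ), ∫⁻ v in Ioi (0 : ℝ), (if u + v < 1 then F (u / (u + v)) else 0) =
      2⁻¹ * ∫⁻ s in Ioo (0 : ℝ) 1, F s := by
  have hset : MeasurableSet {p : ℝ × ℝ | 0 < p.1 ∧ p.1 < p.2 ∧ p.2 < 1} := by
    apply MeasurableSet.inter (measurableSet_lt measurable_const measurable_fst)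
    exact (measurableSet_lt measurable_fst measurable_snd).inter
      (measurableSet_lt measurable_snd measurable_const)
  set L : ℝ → ℝ → ℝ≥0∞ := fun u r => if 0 < u ∧ u < r ∧ r < 1 then F (u / r) else 0 with hL
  have hLm : Measurable (Function.uncurry L) :=
    Measurable.ite hset (hF.comp (measurable_fst.div measurable_snd)) measurable_const
  have h1 : ∫⁻ u in Ioi (0 : ℝ), ∫⁻ v in Ioi (0 : ℝ), (if u + v < 1 then F (u / (u + v)) else 0)
      = ∫⁻ u, ∫⁻ r, L u r := by
    rw [← lintegral_indicator measurableSet_Ioi]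
    refine lintegral_congr fun u => ?_
    by_cases hu : 0 < u
    · rw [indicator_of_mem (mem_Ioi.2 hu), ← lintegral_indicator measurableSet_Ioi]
      rw [← lintegral_add_left_eq_self (fun r => L u r) u]
      refine lintegral_congr fun v => ?_
      simp only [hL]
      by_cases hv : 0 < v
      · rw [indicator_of_mem (mem_Ioi.2 hv)]
        by_cases huv : u + v < 1
        · rw [if_pos huv, if_pos ⟨hu, by linarith, huv⟩]
        · rw [if_neg huv, if_neg (fun h => huv h.2.2)]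
      · rw [indicator_of_notMem (by simpa using hv), if_neg]
        rintro ⟨-, h, -⟩
        exact hv (by linarith)
    · rw [indicator_of_notMem (by simpa using hu)]
      symm
      rw [lintegral_eq_zero_iff' (by fun_prop)]
      exact Filter.Eventually.of_forall fun r => if_neg (fun h => hu h.1)
  rw [h1, lintegral_lintegral_swap hLm.aemeasurable]
  have h2 : ∀ r : ℝ, ∫⁻ u, L u r
      = (Ioo (0 : ℝ) 1).indicator (fun r => ENNReal.ofReal r * ∫⁻ s in Ioo (0 : ℝ) 1, F s) r := by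
    intro r
    by_cases hr : r ∈ Ioo (0 : ℝ) 1
    · rw [indicator_of_mem hr, ← G_Arch2_scale F hr.1, ← lintegral_indicator measurableSet_Ioo]
      refine lintegral_congr fun u => ?_
      simp only [hL]
      by_cases hu : u ∈ Ioo 0 r
      · rw [indicator_of_mem hu, if_pos ⟨hu.1, hu.2, hr.2⟩]
      · rw [indicator_of_notMem hu, if_neg (fun h => hu ⟨h.1, h.2.1⟩)]
    · rw [indicator_of_notMem hr]
      have : (fun u => L u r) = fun _ => 0 := by
        funext u
        exact if_neg (fun h => hr ⟨h.1.trans h.2.1, h.2.2⟩)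
      rw [this, lintegral_zero]
  simp only [h2]
  rw [lintegral_indicator measurableSet_Ioo, lintegral_mul_const _ ENNReal.measurable_ofReal, G_Arch2_half]

/-- combine `polar_dir`, `quat_planes`, `simplex_int`; the constants agree by the case `F = 1` -/
theorem arch_law (F : ℝ → ℝ≥0∞) (hF : Measurable F) :
    ∫⁻ g : UQ, F ((g : ℍ[ℝ]).re ^ 2 + (g : ℍ[ℝ]).imI ^ 2) ∂muQ = ∫⁻ s in Ioo (0 : ℝ) 1, F s := by
  obtain ⟨K, hK0, hKt, hK⟩ := polar_dir
  obtain ⟨K2, hK20, hK2t, hK2⟩ := quat_planes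
  have key : ∀ F : ℝ → ℝ≥0∞, Measurable F →
      K * ∫⁻ g : UQ, F ((g : ℍ[ℝ]).re ^ 2 + (g : ℍ[ℝ]).imI ^ 2) ∂muQ
        = K2 * (2⁻¹ * ∫⁻ s in Ioo (0 : ℝ) 1, F s) := by
    intro F hF
    set H : ℍ[ℝ] → ℝ≥0∞ := fun q => F ((q.re ^ 2 + q.imI ^ 2) /
      ((q.re ^ 2 + q.imI ^ 2) + (q.imJ ^ 2 + q.imK ^ 2))) with hH
    have hre : Measurable (fun q : ℍ[ℝ] => q.re) := Quaternion.continuous_re.measurable
    have hI : Measurable (fun q : ℍ[ℝ] => q.imI) := Quaternion.continuous_imI.measurable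
    have hJ : Measurable (fun q : ℍ[ℝ] => q.imJ) := Quaternion.continuous_imJ.measurable
    have hKk : Measurable (fun q : ℍ[ℝ] => q.imK) := Quaternion.continuous_imK.measurable
    have hHm : Measurable H :=
      hF.comp (((hre.pow_const 2).add (hI.pow_const 2)).div
        (((hre.pow_const 2).add (hI.pow_const 2)).add ((hJ.pow_const 2).add (hKk.pow_const 2))))
    have hHr : ∀ (r : ℝ) (q : ℍ[ℝ]), 0 < r → H (r • q) = H q := by
      intro r q hr
      simp only [hH, Quaternion.re_smul, Quaternion.imI_smul, Quaternion.imJ_smul,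
        Quaternion.imK_smul, smul_eq_mul]
      congr 1
      have e1 : (r * q.re) ^ 2 + (r * q.imI) ^ 2 = r ^ 2 * (q.re ^ 2 + q.imI ^ 2) := by ring
      have e2 : (r * q.imJ) ^ 2 + (r * q.imK) ^ 2 = r ^ 2 * (q.imJ ^ 2 + q.imK ^ 2) := by ring
      rw [e1, e2, ← mul_add, mul_div_mul_left _ _ (pow_ne_zero 2 hr.ne')]
    have h1 := hK H hHm hHr
    have h2 : ∫⁻ g : UQ, H (g : ℍ[ℝ]) ∂muQ
        = ∫⁻ g : UQ, F ((g : ℍ[ℝ]).re ^ 2 + (g : ℍ[ℝ]).imI ^ 2) ∂muQ := by
      refine lintegral_congr fun g => ?_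
      simp only [hH]
      congr 1
      have hg : ‖(g : ℍ[ℝ])‖ = 1 := by
        have := g.2
        rwa [mem_sphere_zero_iff_norm] at this
      have e : (g : ℍ[ℝ]).re ^ 2 + (g : ℍ[ℝ]).imI ^ 2
          + ((g : ℍ[ℝ]).imJ ^ 2 + (g : ℍ[ℝ]).imK ^ 2) = 1 := by
        have h3 := Quaternion.normSq_eq_norm_mul_self (g : ℍ[ℝ])
        rw [hg, Quaternion.normSq_def'] at h3
        linarith
      rw [e, div_one]
    rw [h2] at h1
    rw [← h1]
    set Φ : ℝ → ℝ → ℝ≥0∞ := fun u v => if u + v < 1 then F (u / (u + v)) else 0 with hΦ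
    have hΦm : Measurable (Function.uncurry Φ) :=
      Measurable.ite (measurableSet_lt (measurable_fst.add measurable_snd) measurable_const)
        (hF.comp (measurable_fst.div (measurable_fst.add measurable_snd))) measurable_const
    have h3 := hK2 Φ hΦm
    rw [← simplex_int F hF, ← h3, ← lintegral_indicator measurableSet_ball]
    refine lintegral_congr fun q => ?_
    have hq : q ∈ Metric.ball (0 : ℍ[ℝ]) 1 ↔
        (q.re ^ 2 + q.imI ^ 2) + (q.imJ ^ 2 + q.imK ^ 2) < 1 := by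
      rw [mem_ball_zero_iff]
      have h4 := Quaternion.normSq_eq_norm_mul_self q
      rw [Quaternion.normSq_def'] at h4
      have h5 : (q.re ^ 2 + q.imI ^ 2) + (q.imJ ^ 2 + q.imK ^ 2) = ‖q‖ * ‖q‖ := by linarith
      rw [h5]
      have h6 := norm_nonneg q
      constructor
      · intro h; nlinarith
      · intro h; nlinarith
    simp only [hΦ]
    by_cases hqb : q ∈ Metric.ball (0 : ℍ[ℝ]) 1
    · rw [indicator_of_mem hqb, if_pos (hq.1 hqb)]
    · rw [indicator_of_notMem hqb, if_neg (fun h => hqb (hq.2 h))]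
  have h1 := key (fun _ => 1) measurable_const
  simp only [lintegral_const, measure_univ, mul_one, Measure.restrict_apply, MeasurableSet.univ,
    univ_inter, Real.volume_Ioo, sub_zero, ENNReal.ofReal_one] at h1
  have h2 := key F hF
  rw [← mul_assoc, ← h1] at h2
  exact (ENNReal.mul_right_inj hK0 hKt).1 h2

end BorelEq
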