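import Pool.Agent.Lib.MP_75103d_lc.G_Rot1

/-! Part (G): more on the rotation `rotV`. -/

set_option autoImplicit false

open MeasureTheory Set
open scoped ENNReal Quaternion

namespace BorelEq

private theorem G_Rot1b_normsq (q : ℍ[ℝ]) :
    ‖q‖ ^ 2 = q.re ^ 2 + q.imI ^ 2 + q.imJ ^ 2 + q.imK ^ 2 := by
  rw [sq, ← Quaternion.normSq_eq_norm_mul_self, Quaternion.normSq_def']

private theorem G_Rot1b_norm (g : UQ) : ‖(g : ℍ[ℝ])‖ = 1 :=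
  mem_sphere_zero_iff_norm.mp g.2

private theorem G_Rot1b_unit (g : UQ) :
    (g : ℍ[ℝ]).re ^ 2 + (g : ℍ[ℝ]).imI ^ 2 + (g : ℍ[ℝ]).imJ ^ 2 + (g : ℍ[ℝ]).imK ^ 2 = 1 := by
  rw [← G_Rot1b_normsq, G_Rot1b_norm]; norm_num

private theorem G_Rot1b_mul_star (g : UQ) : (g : ℍ[ℝ]) * star (g : ℍ[ℝ]) = 1 := by
  rw [Quaternion.self_mul_star, Quaternion.normSq_eq_norm_mul_self, G_Rot1b_norm]
  simp

private theorem G_Rot1b_t0 (v : Fin 3 → ℝ) : (toQ v).re = 0 := rfl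
private theorem G_Rot1b_t1 (v : Fin 3 → ℝ) : (toQ v).imI = v 0 := rfl
private theorem G_Rot1b_t2 (v : Fin 3 → ℝ) : (toQ v).imJ = v 1 := rfl
private theorem G_Rot1b_t3 (v : Fin 3 → ℝ) : (toQ v).imK = v 2 := rfl

private theorem G_Rot1b_nsq (v : Fin 3 → ℝ) : nsq v = ‖toQ v‖ ^ 2 := by
  rw [G_Rot1b_normsq]
  simp only [nsq, toQ, Fin.sum_univ_three]
  ring

private theorem G_Rot1b_toQ_sub (v w : Fin 3 → ℝ) : toQ (v - w) = toQ v - toQ w := by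
  ext
  · rw [Quaternion.re_sub, G_Rot1b_t0, G_Rot1b_t0, G_Rot1b_t0, sub_zero]
  · rw [Quaternion.imI_sub, G_Rot1b_t1, G_Rot1b_t1, G_Rot1b_t1, Pi.sub_apply]
  · rw [Quaternion.imJ_sub, G_Rot1b_t2, G_Rot1b_t2, G_Rot1b_t2, Pi.sub_apply]
  · rw [Quaternion.imK_sub, G_Rot1b_t3, G_Rot1b_t3, G_Rot1b_t3, Pi.sub_apply]

/-- `g v ḡ - v = ((g-1) v - v (g-1)) ḡ`, so its norm is at most `2 ‖g-1‖ ‖v‖` -/
theorem rotV_lip (g : UQ) (v : Fin 3 → ℝ) :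
    nsq (rotV g v - v) ≤ (2 * nrmQ g) ^ 2 * nsq v := by
  rw [G_Rot1b_nsq, G_Rot1b_nsq v, G_Rot1b_toQ_sub, toQ_rotV, ← mul_pow]
  apply pow_le_pow_left₀ (norm_nonneg _)
  have h1 : (g : ℍ[ℝ]) * toQ v * star (g : ℍ[ℝ]) - toQ v =
      (((g : ℍ[ℝ]) - 1) * toQ v - toQ v * ((g : ℍ[ℝ]) - 1)) * star (g : ℍ[ℝ]) := by
    have h2 := G_Rot1b_mul_star g
    have h3 : toQ v = toQ v * ((g : ℍ[ℝ]) * star (g : ℍ[ℝ])) := by rw [h2, mul_one]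
    calc (g : ℍ[ℝ]) * toQ v * star (g : ℍ[ℝ]) - toQ v =
        (g : ℍ[ℝ]) * toQ v * star (g : ℍ[ℝ]) - toQ v * ((g : ℍ[ℝ]) * star (g : ℍ[ℝ])) := by
          rw [← h3]
      _ = _ := by noncomm_ring
  rw [h1, norm_mul, norm_star, G_Rot1b_norm, mul_one]
  calc ‖((g : ℍ[ℝ]) - 1) * toQ v - toQ v * ((g : ℍ[ℝ]) - 1)‖ ≤
      ‖((g : ℍ[ℝ]) - 1) * toQ v‖ + ‖toQ v * ((g : ℍ[ℝ]) - 1)‖ := norm_sub_le _ _
    _ = 2 * nrmQ g * ‖toQ v‖ := by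
        rw [norm_mul, norm_mul, nrmQ]; ring

private theorem G_Rot1b_e1 (g : UQ) (r : ℝ) : rotV g ![r, 0, 0] =
    ![r * ((g : ℍ[ℝ]).re ^ 2 + (g : ℍ[ℝ]).imI ^ 2 - (g : ℍ[ℝ]).imJ ^ 2 - (g : ℍ[ℝ]).imK ^ 2),
      r * (2 * ((g : ℍ[ℝ]).imI * (g : ℍ[ℝ]).imJ + (g : ℍ[ℝ]).re * (g : ℍ[ℝ]).imK)),
      r * (2 * ((g : ℍ[ℝ]).imI * (g : ℍ[ℝ]).imK - (g : ℍ[ℝ]).re * (g : ℍ[ℝ]).imJ))] := by
  have hI : ((g : ℍ[ℝ]) * toQ ![r, 0, 0] * star (g : ℍ[ℝ])).imI = r * ((g : ℍ[ℝ]).re ^ 2 +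
      (g : ℍ[ℝ]).imI ^ 2 - (g : ℍ[ℝ]).imJ ^ 2 - (g : ℍ[ℝ]).imK ^ 2) := by
    simp only [Quaternion.re_mul, Quaternion.imI_mul, Quaternion.imJ_mul, Quaternion.imK_mul,
      Quaternion.re_star, Quaternion.imI_star, Quaternion.imJ_star, Quaternion.imK_star,
      G_Rot1b_t0, G_Rot1b_t1, G_Rot1b_t2, G_Rot1b_t3, Matrix.cons_val_zero, Matrix.cons_val_one,
      Matrix.cons_val]
    ring
  have hJ : ((g : ℍ[ℝ]) * toQ ![r, 0, 0] * star (g : ℍ[ℝ])).imJ = r * (2 * ((g : ℍ[ℝ]).imI *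
      (g : ℍ[ℝ]).imJ + (g : ℍ[ℝ]).re * (g : ℍ[ℝ]).imK)) := by
    simp only [Quaternion.re_mul, Quaternion.imI_mul, Quaternion.imJ_mul, Quaternion.imK_mul,
      Quaternion.re_star, Quaternion.imI_star, Quaternion.imJ_star, Quaternion.imK_star,
      G_Rot1b_t0, G_Rot1b_t1, G_Rot1b_t2, G_Rot1b_t3, Matrix.cons_val_zero, Matrix.cons_val_one,
      Matrix.cons_val]
    ring
  have hK : ((g : ℍ[ℝ]) * toQ ![r, 0, 0] * star (g : ℍ[ℝ])).imK = r * (2 * ((g : ℍ[ℝ]).imI *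
      (g : ℍ[ℝ]).imK - (g : ℍ[ℝ]).re * (g : ℍ[ℝ]).imJ)) := by
    simp only [Quaternion.re_mul, Quaternion.imI_mul, Quaternion.imJ_mul, Quaternion.imK_mul,
      Quaternion.re_star, Quaternion.imI_star, Quaternion.imJ_star, Quaternion.imK_star,
      G_Rot1b_t0, G_Rot1b_t1, G_Rot1b_t2, G_Rot1b_t3, Matrix.cons_val_zero, Matrix.cons_val_one,
      Matrix.cons_val]
    ring
  unfold rotV imQ
  rw [hI, hJ, hK]

private theorem G_Rot1b_mk (q : ℍ[ℝ])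
    (h : q.re ^ 2 + q.imI ^ 2 + q.imJ ^ 2 + q.imK ^ 2 = 1) : ∃ g : UQ, (g : ℍ[ℝ]) = q := by
  rw [← G_Rot1b_normsq] at h
  have h1 : ‖q‖ = 1 := by
    have h0 := norm_nonneg q
    nlinarith
  exact ⟨⟨q, mem_sphere_zero_iff_norm.mpr h1⟩, rfl⟩

/-- transitivity on spheres: for a unit pure quaternion `w ≠ -i` take `h = (1 - w i) / ‖1 - w i‖`
(then `h i = w h`), for `w = -i` take `h = j`. -/
theorem rotV_trans (v : Fin 3 → ℝ) : ∃ h : UQ, rotV h ![Real.sqrt (nsq v), 0, 0] = v := by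
  obtain ⟨r, hr⟩ : ∃ r, r = Real.sqrt (nsq v) := ⟨_, rfl⟩
  have hn0 : 0 ≤ nsq v := Finset.sum_nonneg fun i _ => sq_nonneg _
  have hr0 : 0 ≤ r := by rw [hr]; exact Real.sqrt_nonneg _
  have hr2 : r ^ 2 = v 0 ^ 2 + v 1 ^ 2 + v 2 ^ 2 := by
    rw [hr, Real.sq_sqrt hn0]
    simp only [nsq, Fin.sum_univ_three]
  rw [← hr]
  have hext : ∀ w : Fin 3 → ℝ, w 0 = v 0 → w 1 = v 1 → w 2 = v 2 → w = v := by
    intro w h0 h1 h2
    funext i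
    fin_cases i
    · exact h0
    · exact h1
    · exact h2
  by_cases h : v 0 = -r
  · -- `h = j`
    have h12 : v 1 ^ 2 + v 2 ^ 2 = 0 := by
      rw [h] at hr2; linarith
    have h1 : v 1 = 0 := by nlinarith [sq_nonneg (v 1), sq_nonneg (v 2)]
    have h2 : v 2 = 0 := by nlinarith [sq_nonneg (v 1), sq_nonneg (v 2)]
    obtain ⟨g, hg⟩ := G_Rot1b_mk ⟨0, 0, 1, 0⟩ (by norm_num)
    refine ⟨g, hext _ ?_ ?_ ?_⟩ <;> rw [G_Rot1b_e1, hg]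
    · simp [h]
    · simp [h1]
    · simp [h2]
  · have hpos : 0 < r + v 0 := by
      have h1 : -r ≤ v 0 := by
        have : v 0 ^ 2 ≤ r ^ 2 := by nlinarith [sq_nonneg (v 1), sq_nonneg (v 2)]
        exact (abs_le_of_sq_le_sq' this hr0).1
      have h2 : v 0 ≠ -r := h
      rcases lt_or_eq_of_le h1 with h3 | h3
      · linarith
      · exact absurd h3.symm h2
    have hrp : 0 < r := by
      rcases lt_or_eq_of_le hr0 with h1 | h1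
      · exact h1
      · exfalso
        rw [← h1] at hr2 hpos
        have : v 0 = 0 := by nlinarith [sq_nonneg (v 0), sq_nonneg (v 1), sq_nonneg (v 2)]
        linarith
    obtain ⟨D, hD⟩ : ∃ D, D = 2 * r * (r + v 0) := ⟨_, rfl⟩
    have hDp : 0 < D := by rw [hD]; positivity
    obtain ⟨s, hs⟩ : ∃ s, s = Real.sqrt D := ⟨_, rfl⟩
    have hsp : 0 < s := by rw [hs]; exact Real.sqrt_pos.mpr hDp
    have hs2 : s ^ 2 = D := by rw [hs, Real.sq_sqrt hDp.le]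
    obtain ⟨g, hg⟩ := G_Rot1b_mk ⟨(r + v 0) / s, 0, -(v 2) / s, v 1 / s⟩ (by
      simp only [div_pow, hs2]
      field_simp
      rw [hD]
      nlinarith)
    have hcomp : ∀ x y : ℝ, x / s * (y / s) = x * y / D := by
      intro x y
      rw [div_mul_div_comm, ← sq, hs2]
    refine ⟨g, hext _ ?_ ?_ ?_⟩ <;> rw [G_Rot1b_e1, hg]
    · show r * (((r + v 0) / s) ^ 2 + 0 ^ 2 - (-(v 2) / s) ^ 2 - (v 1 / s) ^ 2) = v 0
      rw [div_pow, div_pow, div_pow, hs2]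
      field_simp
      rw [hD]
      nlinarith
    · show r * (2 * (0 * (-(v 2) / s) + (r + v 0) / s * (v 1 / s))) = v 1
      rw [zero_mul, zero_add, hcomp]
      field_simp
      rw [hD]; ring
    · show r * (2 * (0 * (v 1 / s) - (r + v 0) / s * (-(v 2) / s))) = v 2
      rw [zero_mul, zero_sub, hcomp]
      field_simp
      rw [hD]; ring

/-- the first coordinate of `g (r i) ḡ` is `r (a² + b² - c² - d²) = r (2 (a² + b²) - 1)` -/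
theorem rotV_first (g : UQ) (r : ℝ) :
    rotV g ![r, 0, 0] 0 = r * (2 * ((g : ℍ[ℝ]).re ^ 2 + (g : ℍ[ℝ]).imI ^ 2) - 1) := by
  rw [G_Rot1b_e1]
  show r * ((g : ℍ[ℝ]).re ^ 2 + (g : ℍ[ℝ]).imI ^ 2 - (g : ℍ[ℝ]).imJ ^ 2 - (g : ℍ[ℝ]).imK ^ 2) = _
  have h := G_Rot1b_unit g
  have h2 : (g : ℍ[ℝ]).imJ ^ 2 = 1 - (g : ℍ[ℝ]).re ^ 2 - (g : ℍ[ℝ]).imI ^ 2 -
      (g : ℍ[ℝ]).imK ^ 2 := by linarith
  rw [h2]
  ring

end BorelEq
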