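import Pool.Agent.Lib.MP_75103d_lc.G_Arch2
import Pool.Agent.Lib.MP_75103d_lc.G_Rot1b

/-! Part (G): Archimedes. -/

set_option autoImplicit false

open MeasureTheory Set
open scoped ENNReal Quaternion

namespace BorelEq

/-- Archimedes: choose `h, k` with `rotV h (|v|,0,0) = v`, `rotV k (|w|,0,0) = w`; then
`dt (rotV g v) w = |w| * rotV (k⁻¹ g h) (|v|,0,0) 0`, and `k⁻¹ g h` has law `muQ`. -/
theorem arch (v w : Fin 3 → ℝ) (F : ℝ → ℝ≥0∞) (hF : Measurable F) :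
    ∫⁻ g, F (dt (rotV g v) w) ∂muQ =
      ∫⁻ s in Ioo (0 : ℝ) 1, F (Real.sqrt (nsq v) * Real.sqrt (nsq w) * (2 * s - 1)) := by
  sorry

/-- averages of functions of the distance to another centre -/
theorem av3_radial (c c' x : Fin 3 → ℝ) (Φ : ℝ → ℝ≥0∞) (hΦ : Measurable Φ) :
    av3 c (fun y => Φ (nsq (y - c'))) x = ∫⁻ s in Ioo (0 : ℝ) 1,
      Φ (nsq (x - c) + nsq (c - c') +
        2 * (Real.sqrt (nsq (x - c)) * Real.sqrt (nsq (c - c'))) * (2 * s - 1)) := by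
  sorry

end BorelEq
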