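import Pool.Agent.Lib.MP_75103d_lc.G_Inv
import Pool.Agent.Lib.MP_75103d_lc.G_Rad3

/-! Part (G): polar integration about a centre c. Translate by c, rot_avg, the inner average depends only on |y|^2 (orbit_avg), radial3. -/

set_option autoImplicit false

open MeasureTheory Set
open scoped ENNReal Quaternion

namespace BorelEq

theorem polar3 : ∃ κ : ℝ≥0∞, κ ≠ 0 ∧ κ ≠ ⊤ ∧ ∀ F : (Fin 3 → ℝ) → ℝ≥0∞, Measurable F →
    ∀ c : Fin 3 → ℝ, ∫⁻ y, F y =
      κ * ∫⁻ τ in Ioi (0 : ℝ), ENNReal.ofReal (√τ) * A3 c F (c + √τ • ![0, 0, 1]) := by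
  obtain ⟨κ, h0, hT, hκ⟩ := radial3
  refine ⟨κ, h0, hT, fun F hF c => ?_⟩
  have hG : Measurable (fun y : Fin 3 → ℝ => F (c + y)) := hF.comp (measurable_const.add measurable_id)
  have hmap : Measurable (fun τ : ℝ => c + √τ • (![0, 0, 1] : Fin 3 → ℝ)) := by
    refine measurable_const.add ?_
    exact (Real.continuous_sqrt.measurable).smul_const _
  have hH : Measurable (fun τ : ℝ => A3 c F (c + √τ • ![0, 0, 1])) := (A3_meas c F hF).comp hmap
  have h1 : ∫⁻ y, F y = ∫⁻ y : Fin 3 → ℝ, F (c + y) := (lintegral_add_left_eq_self F c).symm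
  rw [h1, rot_avg _ hG, ← hκ _ hH]
  refine lintegral_congr fun y => ?_
  have h2 : ∑ i, (y i) ^ 2 = ∑ i, ((√(∑ j, (y j) ^ 2) • (![0, 0, 1] : Fin 3 → ℝ)) i) ^ 2 := by
    have h3 : (0 : ℝ) ≤ ∑ j, (y j) ^ 2 := Finset.sum_nonneg fun j _ => sq_nonneg _
    have h4 : ∑ i, ((√(∑ j, (y j) ^ 2) • (![0, 0, 1] : Fin 3 → ℝ)) i) ^ 2 =
        √(∑ j, (y j) ^ 2) ^ 2 := by
      rw [Fin.sum_univ_three]
      simp
    rw [h4, Real.sq_sqrt h3]
  rw [orbit_avg _ hG y _ h2]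
  unfold A3
  refine lintegral_congr fun g => ?_
  rw [add_sub_cancel_left]

end BorelEq
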