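import Pool.Agent.Lib.MP_75103d_lc.G_Two
import Pool.Agent.Lib.MP_75103d_lc.G_Pol

/-! Part (G3): the bounds. Λ = 4R, c1 = (Λ,0,0), c2 = (0,0,Λ), δ = 4√2 R. Upper: A3 c2 F (c2 + √τ v0) vanishes unless 3R ≤ √τ ≤ 5R, and then √τ ≥ 3R; two_step is nonzero only if ρ ≥ (4√2-5)R > R/2; polar3. If ρ = 0 then A3 c1 (A3 c2 F) x = A3 c2 F c1 = 0. Lower: for |x| ≤ R: 3R ≤ ρ ≤ 5R and Icc ((ρ-δ)²) ((ρ+δ)²) contains [9R²,25R²]; polar3 for the restriction of F to the ball. Third: third_step with r = |y - c2|; zero unless r ≥ 3R, so A3 c2 (..) ≤ (1/(6R)) ∫ u everywhere. -/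

set_option autoImplicit false

open MeasureTheory Set
open scoped ENNReal Quaternion

namespace BorelEq

theorem G_Bd_zero {R : ℝ} (hR : 0 < R) {F : (Fin 3 → ℝ) → ℝ≥0∞}
    (hF0 : ∀ y, R ^ 2 < ∑ i, (y i) ^ 2 → F y = 0) (y : Fin 3 → ℝ) (r : ℝ) (hr : 0 ≤ r)
    (h : ∑ i, (y i - (![0, 0, 4 * R] : Fin 3 → ℝ) i) ^ 2 = r ^ 2)
    (hr' : r < 3 * R ∨ 5 * R < r) : A3 ![0, 0, 4 * R] F y = 0 := by
  have h0 : ∀ g : UQ, F (![0, 0, 4 * R] + rotV g (y - ![0, 0, 4 * R])) = 0 := by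
    intro g
    apply hF0
    have h1 := rotV_inner g (y - ![0, 0, 4 * R]) (y - ![0, 0, 4 * R])
    set w := rotV g (y - ![0, 0, 4 * R]) with hw
    rw [Fin.sum_univ_three, Fin.sum_univ_three] at h1
    rw [Fin.sum_univ_three] at h
    rw [Fin.sum_univ_three]
    simp only [Pi.sub_apply, Pi.add_apply, Matrix.cons_val_zero, Matrix.cons_val_one,
      Matrix.cons_val] at h h1 ⊢
    have h2 : w 0 ^ 2 + w 1 ^ 2 + w 2 ^ 2 = r ^ 2 := by linarith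
    have h3 : -r ≤ w 2 := by
      by_contra hcon
      push Not at hcon
      nlinarith [sq_nonneg (w 0), sq_nonneg (w 1)]
    have h4 : R ^ 2 < (r - 4 * R) ^ 2 := by
      rcases hr' with h5 | h5
      · nlinarith
      · nlinarith
    nlinarith
  unfold A3
  simp_rw [h0]
  exact lintegral_zero

theorem G_Bd_dist (R τ : ℝ) (hτ : 0 ≤ τ) :
    ∑ i, ((![0, 0, 4 * R] + √τ • ![0, 0, 1] : Fin 3 → ℝ) i -
      (![0, 0, 4 * R] : Fin 3 → ℝ) i) ^ 2 = (√τ) ^ 2 := by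
  rw [Fin.sum_univ_three]
  simp

/-- the average over a sphere vanishes unless the radius is in `[3R, 5R]` -/
theorem G_Bd_G_zero {R : ℝ} (hR : 0 < R) {F : (Fin 3 → ℝ) → ℝ≥0∞}
    (hF0 : ∀ y, R ^ 2 < ∑ i, (y i) ^ 2 → F y = 0) {τ : ℝ} (hτ : 0 ≤ τ)
    (h : √τ < 3 * R ∨ 5 * R < √τ) :
    A3 ![0, 0, 4 * R] F (![0, 0, 4 * R] + √τ • ![0, 0, 1]) = 0 :=
  G_Bd_zero hR hF0 _ (√τ) (Real.sqrt_nonneg τ) (G_Bd_dist R τ hτ) h

theorem G_Bd_sqrt2 : (1.41 : ℝ) < √2 ∧ √2 < 1.42 := by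
  constructor
  · exact Real.lt_sqrt_of_sq_lt (by norm_num)
  · rw [Real.sqrt_lt' (by norm_num)]
    norm_num

theorem G_Bd_delta (R : ℝ) : ∑ i, ((![4 * R, 0, 0] : Fin 3 → ℝ) i -
    (![0, 0, 4 * R] : Fin 3 → ℝ) i) ^ 2 = (4 * √2 * R) ^ 2 := by
  rw [Fin.sum_univ_three]
  simp only [Matrix.cons_val_zero, Matrix.cons_val_one, Matrix.cons_val]
  have : √2 ^ 2 = (2 : ℝ) := Real.sq_sqrt (by norm_num)
  nlinarith

theorem G_Bd_rotV_zero (g : UQ) : rotV g 0 = 0 := by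
  have h := rotV_smul g 0 0
  simpa using h

theorem G_Bd_A3_center (c : Fin 3 → ℝ) (F : (Fin 3 → ℝ) → ℝ≥0∞) : A3 c F c = F c := by
  have := muQ_prob
  unfold A3
  simp only [sub_self, G_Bd_rotV_zero, add_zero]
  rw [lintegral_const, measure_univ, mul_one]

theorem G_Bd_A3_mono (c : Fin 3 → ℝ) {F G : (Fin 3 → ℝ) → ℝ≥0∞} (h : ∀ y, F y ≤ G y)
    (x : Fin 3 → ℝ) : A3 c F x ≤ A3 c G x :=
  lintegral_mono fun _ => h _

theorem G_Bd_A3_le (c : Fin 3 → ℝ) {F : (Fin 3 → ℝ) → ℝ≥0∞} {K : ℝ≥0∞} (h : ∀ y, F y ≤ K)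
    (x : Fin 3 → ℝ) : A3 c F x ≤ K := by
  have := muQ_prob
  refine le_trans (lintegral_mono fun g => h _) ?_
  rw [lintegral_const, measure_univ, mul_one]

theorem G_Bd_Ioi (H : ℝ → ℝ≥0∞) : ∫⁻ τ in Ici (0 : ℝ), H τ = ∫⁻ τ in Ioi (0 : ℝ), H τ :=
  setLIntegral_congr Ioi_ae_eq_Ici.symm

theorem bd_upper (R : ℝ) (hR : 0 < R) : ∃ C : ℝ, 0 < C ∧ ∀ F : (Fin 3 → ℝ) → ℝ≥0∞, Measurable F →
    (∀ y, R ^ 2 < ∑ i, (y i) ^ 2 → F y = 0) → ∀ x,
      A3 ![4 * R, 0, 0] (A3 ![0, 0, 4 * R] F) x ≤ ENNReal.ofReal C * ∫⁻ y, F y := by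
  obtain ⟨κ, hκ0, hκ1, hpol⟩ := polar3
  obtain ⟨hs1, hs2⟩ := G_Bd_sqrt2
  have hk : 0 < κ.toReal := ENNReal.toReal_pos hκ0 hκ1
  refine ⟨1 / (8 * R ^ 2) * (1 / (3 * R)) * κ.toReal⁻¹, by positivity, ?_⟩
  intro F hF hF0 x
  have hκinv : κ⁻¹ = ENNReal.ofReal (κ.toReal⁻¹) := by
    rw [ENNReal.ofReal_inv_of_pos hk, ENNReal.ofReal_toReal hκ1]
  set G : ℝ → ℝ≥0∞ := fun τ => A3 ![0, 0, 4 * R] F (![0, 0, 4 * R] + √τ • ![0, 0, 1]) with hG
  -- the integral of `G`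
  have hint : ∀ a b : ℝ, 0 ≤ a → ∫⁻ τ in Icc a b, G τ ≤
      ENNReal.ofReal (1 / (3 * R)) * (κ⁻¹ * ∫⁻ y, F y) := by
    intro a b ha
    have h1 : κ⁻¹ * ∫⁻ y, F y = ∫⁻ τ in Ioi (0 : ℝ), ENNReal.ofReal (√τ) * G τ := by
      rw [hpol F hF ![0, 0, 4 * R], ← mul_assoc, ENNReal.inv_mul_cancel hκ0 hκ1, one_mul]
    rw [h1, ← G_Bd_Ioi, ← lintegral_const_mul' _ _ ENNReal.ofReal_ne_top]
    refine le_trans (lintegral_mono_set (t := Ici (0 : ℝ)) fun τ hτ => le_trans ha hτ.1) ?_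
    refine setLIntegral_mono' measurableSet_Ici fun τ hτ => ?_
    have hτ0 : 0 ≤ τ := hτ
    by_cases h2 : √τ < 3 * R ∨ 5 * R < √τ
    · have h3 : G τ = 0 := G_Bd_G_zero hR hF0 hτ0 h2
      rw [h3]
      exact zero_le
    · push Not at h2
      rw [← mul_assoc, ← ENNReal.ofReal_mul (by positivity)]
      have h3 : (1 : ℝ≥0∞) ≤ ENNReal.ofReal (1 / (3 * R) * √τ) := by
        rw [ENNReal.one_le_ofReal, div_mul_eq_mul_div, one_mul, le_div_iff₀ (by positivity)]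
        linarith [h2.1]
      calc G τ = 1 * G τ := (one_mul _).symm
        _ ≤ _ := mul_le_mul_left h3 _
  set ρ := √(∑ i, (x i - (![4 * R, 0, 0] : Fin 3 → ℝ) i) ^ 2) with hρ
  have hρ0 : 0 ≤ ρ := Real.sqrt_nonneg _
  have hρ2 : ∑ i, (x i - (![4 * R, 0, 0] : Fin 3 → ℝ) i) ^ 2 = ρ ^ 2 :=
    (Real.sq_sqrt (Finset.sum_nonneg fun i _ => sq_nonneg _)).symm
  have hδ : 0 < 4 * √2 * R := by positivity
  rcases hρ0.eq_or_lt with hρz | hρpos
  · -- the centre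
    rw [← hρz] at hρ2
    have hx : x = ![4 * R, 0, 0] := by
      rw [Fin.sum_univ_three] at hρ2
      have e0 := sq_nonneg (x 0 - (![4 * R, 0, 0] : Fin 3 → ℝ) 0)
      have e1 := sq_nonneg (x 1 - (![4 * R, 0, 0] : Fin 3 → ℝ) 1)
      have e2 := sq_nonneg (x 2 - (![4 * R, 0, 0] : Fin 3 → ℝ) 2)
      funext i
      fin_cases i
      · exact sub_eq_zero.mp (pow_eq_zero_iff (n := 2) (by norm_num) |>.mp (by
          show (x 0 - (![4 * R, 0, 0] : Fin 3 → ℝ) 0) ^ 2 = 0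
          linarith))
      · exact sub_eq_zero.mp (pow_eq_zero_iff (n := 2) (by norm_num) |>.mp (by
          show (x 1 - (![4 * R, 0, 0] : Fin 3 → ℝ) 1) ^ 2 = 0
          linarith))
      · exact sub_eq_zero.mp (pow_eq_zero_iff (n := 2) (by norm_num) |>.mp (by
          show (x 2 - (![4 * R, 0, 0] : Fin 3 → ℝ) 2) ^ 2 = 0
          linarith))
    rw [hx, G_Bd_A3_center, G_Bd_zero hR hF0 _ (4 * √2 * R) hδ.le (G_Bd_delta R)
      (Or.inr (by nlinarith))]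
    exact zero_le
  · rw [two_step ![4 * R, 0, 0] ![0, 0, 4 * R] F hF x ρ (4 * √2 * R) hρpos hδ hρ2 (G_Bd_delta R)]
    by_cases hsm : ρ < R / 2
    · -- the interval does not meet `[9R², 25R²]`
      have h0 : ∫⁻ τ in Icc ((ρ - 4 * √2 * R) ^ 2) ((ρ + 4 * √2 * R) ^ 2),
          A3 ![0, 0, 4 * R] F (![0, 0, 4 * R] + √τ • ![0, 0, 1]) = 0 := by
        rw [← lintegral_zero (μ := volume.restrict
          (Icc ((ρ - 4 * √2 * R) ^ 2) ((ρ + 4 * √2 * R) ^ 2)))]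
        refine setLIntegral_congr_fun measurableSet_Icc fun τ hτ => ?_
        have hτ0 : 0 ≤ τ := le_trans (sq_nonneg _) hτ.1
        refine G_Bd_G_zero hR hF0 hτ0 (Or.inr ?_)
        refine Real.lt_sqrt_of_sq_lt ?_
        refine lt_of_lt_of_le ?_ hτ.1
        have h1 : 5 * R < 4 * √2 * R - ρ := by nlinarith
        nlinarith
      rw [h0, mul_zero]
      exact zero_le
    · push Not at hsm
      have h1 := hint ((ρ - 4 * √2 * R) ^ 2) ((ρ + 4 * √2 * R) ^ 2) (sq_nonneg _)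
      have h2 : ENNReal.ofReal (1 / (4 * ρ * (4 * √2 * R))) ≤ ENNReal.ofReal (1 / (8 * R ^ 2)) := by
        refine ENNReal.ofReal_le_ofReal ?_
        refine one_div_le_one_div_of_le (by positivity) ?_
        have h3 : R / 2 * (5 * R) ≤ ρ * (4 * √2 * R) :=
          mul_le_mul hsm (by nlinarith) (by positivity) hρ0
        nlinarith
      calc _ ≤ ENNReal.ofReal (1 / (8 * R ^ 2)) *
            (ENNReal.ofReal (1 / (3 * R)) * (κ⁻¹ * ∫⁻ y, F y)) := mul_le_mul' h2 h1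
        _ = ENNReal.ofReal (1 / (8 * R ^ 2) * (1 / (3 * R)) * κ.toReal⁻¹) * ∫⁻ y, F y := by
            rw [hκinv, ENNReal.ofReal_mul (by positivity), ENNReal.ofReal_mul (by positivity)]
            ring

theorem bd_lower (R : ℝ) (hR : 0 < R) : ∃ b : ℝ, 0 < b ∧ ∀ F : (Fin 3 → ℝ) → ℝ≥0∞, Measurable F →
    ∀ x, ∑ i, (x i) ^ 2 ≤ R ^ 2 →
      ENNReal.ofReal b * ∫⁻ y in {y | ∑ i, (y i) ^ 2 ≤ R ^ 2}, F y ≤
        A3 ![4 * R, 0, 0] (A3 ![0, 0, 4 * R] F) x := by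
  obtain ⟨κ, hκ0, hκ1, hpol⟩ := polar3
  obtain ⟨hs1, hs2⟩ := G_Bd_sqrt2
  have hk : 0 < κ.toReal := ENNReal.toReal_pos hκ0 hκ1
  refine ⟨1 / (120 * R ^ 2) * (1 / (κ.toReal * (5 * R))), by positivity, ?_⟩
  intro F hF x hx
  have hB : MeasurableSet {y : Fin 3 → ℝ | ∑ i, (y i) ^ 2 ≤ R ^ 2} :=
    (isClosed_le (by fun_prop) continuous_const).measurableSet
  set F' : (Fin 3 → ℝ) → ℝ≥0∞ := indicator {y | ∑ i, (y i) ^ 2 ≤ R ^ 2} F with hF'
  have hF'm : Measurable F' := hF.indicator hB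
  have hF'0 : ∀ y, R ^ 2 < ∑ i, (y i) ^ 2 → F' y = 0 := by
    intro y hy
    exact indicator_of_notMem (by simpa using hy) F
  have hF'le : ∀ y, F' y ≤ F y := fun y => indicator_le_self _ _ y
  have hmono : A3 ![4 * R, 0, 0] (A3 ![0, 0, 4 * R] F') x ≤
      A3 ![4 * R, 0, 0] (A3 ![0, 0, 4 * R] F) x :=
    G_Bd_A3_mono _ (fun y => G_Bd_A3_mono _ hF'le y) x
  refine le_trans ?_ hmono
  have hintF : ∫⁻ y in {y | ∑ i, (y i) ^ 2 ≤ R ^ 2}, F y = ∫⁻ y, F' y :=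
    (lintegral_indicator hB F).symm
  set G : ℝ → ℝ≥0∞ := fun τ => A3 ![0, 0, 4 * R] F' (![0, 0, 4 * R] + √τ • ![0, 0, 1]) with hG
  set ρ := √(∑ i, (x i - (![4 * R, 0, 0] : Fin 3 → ℝ) i) ^ 2) with hρ
  have hρ0 : 0 ≤ ρ := Real.sqrt_nonneg _
  have hρ2 : ∑ i, (x i - (![4 * R, 0, 0] : Fin 3 → ℝ) i) ^ 2 = ρ ^ 2 :=
    (Real.sq_sqrt (Finset.sum_nonneg fun i _ => sq_nonneg _)).symm
  have hδ : 0 < 4 * √2 * R := by positivity
  have hρb : 3 * R ≤ ρ ∧ ρ ≤ 5 * R := by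
    have h1 := hρ2
    rw [Fin.sum_univ_three] at h1 hx
    simp only [Matrix.cons_val_zero, Matrix.cons_val_one, Matrix.cons_val, sub_zero] at h1
    have hx0 : x 0 ^ 2 ≤ R ^ 2 := by nlinarith [sq_nonneg (x 1), sq_nonneg (x 2)]
    have hx1 : -R ≤ x 0 ∧ x 0 ≤ R := abs_le.mp (abs_le_of_sq_le_sq hx0 hR.le)
    constructor
    · by_contra hcon
      push Not at hcon
      nlinarith [sq_nonneg (x 1), sq_nonneg (x 2)]
    · by_contra hcon
      push Not at hcon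
      nlinarith
  have hρpos : 0 < ρ := by linarith [hρb.1]
  rw [two_step ![4 * R, 0, 0] ![0, 0, 4 * R] F' hF'm x ρ (4 * √2 * R) hρpos hδ hρ2 (G_Bd_delta R)]
  set I := ∫⁻ τ in Icc ((ρ - 4 * √2 * R) ^ 2) ((ρ + 4 * √2 * R) ^ 2), G τ with hI
  have hsub : Icc (9 * R ^ 2) (25 * R ^ 2) ⊆
      Icc ((ρ - 4 * √2 * R) ^ 2) ((ρ + 4 * √2 * R) ^ 2) := by
    refine Icc_subset_Icc ?_ ?_
    · have h1 : -(3 * R) ≤ ρ - 4 * √2 * R := by nlinarith [hρb.1]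
      have h2 : ρ - 4 * √2 * R ≤ 3 * R := by nlinarith [hρb.2]
      nlinarith
    · have h1 : 5 * R ≤ ρ + 4 * √2 * R := by nlinarith [hρb.1]
      nlinarith
  have hup : ∫⁻ y, F' y ≤ κ * (ENNReal.ofReal (5 * R) * I) := by
    rw [hpol F' hF'm ![0, 0, 4 * R]]
    refine mul_le_mul_right ?_ _
    refine le_trans ?_ (mul_le_mul_right (lintegral_mono_set hsub) _)
    rw [← lintegral_const_mul' _ _ ENNReal.ofReal_ne_top]
    rw [← lintegral_indicator measurableSet_Ioi, ← lintegral_indicator measurableSet_Icc]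
    refine lintegral_mono fun τ => ?_
    by_cases hτ : τ ∈ Ioi (0 : ℝ)
    · rw [indicator_of_mem hτ]
      have hτ0 : 0 ≤ τ := le_of_lt hτ
      by_cases h2 : √τ < 3 * R ∨ 5 * R < √τ
      · have h3 : G τ = 0 := G_Bd_G_zero hR hF'0 hτ0 h2
        show ENNReal.ofReal √τ * G τ ≤ _
        rw [h3, mul_zero]
        exact zero_le
      · push Not at h2
        have h4 : √τ ^ 2 = τ := Real.sq_sqrt hτ0
        have h3 : τ ∈ Icc (9 * R ^ 2) (25 * R ^ 2) := by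
          constructor
          · nlinarith [h2.1]
          · nlinarith [h2.2, Real.sqrt_nonneg τ]
        rw [indicator_of_mem h3]
        exact mul_le_mul_left (ENNReal.ofReal_le_ofReal h2.2) _
    · rw [indicator_of_notMem hτ]
      exact zero_le
  rw [hintF]
  have hκ : κ = ENNReal.ofReal κ.toReal := (ENNReal.ofReal_toReal hκ1).symm
  have hb : ENNReal.ofReal (1 / (120 * R ^ 2) * (1 / (κ.toReal * (5 * R)))) *
      (κ * ENNReal.ofReal (5 * R)) = ENNReal.ofReal (1 / (120 * R ^ 2)) := by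
    have e1 : κ * ENNReal.ofReal (5 * R) = ENNReal.ofReal (κ.toReal * (5 * R)) := by
      rw [ENNReal.ofReal_mul hk.le, ← hκ]
    rw [e1, ← ENNReal.ofReal_mul (by positivity)]
    congr 1
    field_simp
  calc ENNReal.ofReal (1 / (120 * R ^ 2) * (1 / (κ.toReal * (5 * R)))) * ∫⁻ y, F' y ≤
        ENNReal.ofReal (1 / (120 * R ^ 2) * (1 / (κ.toReal * (5 * R)))) *
          (κ * (ENNReal.ofReal (5 * R) * I)) := mul_le_mul_right hup _
    _ = (ENNReal.ofReal (1 / (120 * R ^ 2) * (1 / (κ.toReal * (5 * R)))) *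
          (κ * ENNReal.ofReal (5 * R))) * I := by ring
    _ = ENNReal.ofReal (1 / (120 * R ^ 2)) * I := by rw [hb]
    _ ≤ ENNReal.ofReal (1 / (4 * ρ * (4 * √2 * R))) * I := by
        refine mul_le_mul_left (ENNReal.ofReal_le_ofReal ?_) _
        refine one_div_le_one_div_of_le (by positivity) ?_
        have h3 : ρ * (4 * √2 * R) ≤ 5 * R * (6 * R) :=
          mul_le_mul hρb.2 (by nlinarith) (by positivity) (by positivity)
        nlinarith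

theorem bd_third (R : ℝ) (hR : 0 < R) : ∃ C : ℝ, 0 < C ∧ ∀ u : ℝ → ℝ≥0∞, Measurable u →
    (∀ t, R < |t| → u t = 0) → ∀ x,
      A3 ![4 * R, 0, 0] (A3 ![0, 0, 4 * R] (fun y => u (y 2))) x ≤ ENNReal.ofReal C * ∫⁻ t, u t := by
  refine ⟨1 / (6 * R), by positivity, ?_⟩
  intro u hu hu0 x
  refine G_Bd_A3_le _ (fun y => ?_) x
  set r := √(∑ i, (y i - (![0, 0, 4 * R] : Fin 3 → ℝ) i) ^ 2) with hr
  have hr0 : 0 ≤ r := Real.sqrt_nonneg _
  have hr2 : ∑ i, (y i - (![0, 0, 4 * R] : Fin 3 → ℝ) i) ^ 2 = r ^ 2 :=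
    (Real.sq_sqrt (Finset.sum_nonneg fun i _ => sq_nonneg _)).symm
  rcases hr0.eq_or_lt with hrz | hrpos
  · rw [← hrz] at hr2
    have hy : y = ![0, 0, 4 * R] := by
      rw [Fin.sum_univ_three] at hr2
      have e0 := sq_nonneg (y 0 - (![0, 0, 4 * R] : Fin 3 → ℝ) 0)
      have e1 := sq_nonneg (y 1 - (![0, 0, 4 * R] : Fin 3 → ℝ) 1)
      have e2 := sq_nonneg (y 2 - (![0, 0, 4 * R] : Fin 3 → ℝ) 2)
      funext i
      fin_cases i
      · exact sub_eq_zero.mp (pow_eq_zero_iff (n := 2) (by norm_num) |>.mp (by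
          show (y 0 - (![0, 0, 4 * R] : Fin 3 → ℝ) 0) ^ 2 = 0
          linarith))
      · exact sub_eq_zero.mp (pow_eq_zero_iff (n := 2) (by norm_num) |>.mp (by
          show (y 1 - (![0, 0, 4 * R] : Fin 3 → ℝ) 1) ^ 2 = 0
          linarith))
      · exact sub_eq_zero.mp (pow_eq_zero_iff (n := 2) (by norm_num) |>.mp (by
          show (y 2 - (![0, 0, 4 * R] : Fin 3 → ℝ) 2) ^ 2 = 0
          linarith))
    rw [hy, G_Bd_A3_center]
    have : u ((![0, 0, 4 * R] : Fin 3 → ℝ) 2) = 0 := by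
      apply hu0
      simp only [Matrix.cons_val]
      rw [abs_of_pos (by positivity)]
      linarith
    rw [this]
    exact zero_le
  · rw [third_step ![0, 0, 4 * R] y r hrpos hr2 u hu]
    by_cases h3 : r < 3 * R
    · have h0 : ∫⁻ t in Icc ((![0, 0, 4 * R] : Fin 3 → ℝ) 2 - r)
          ((![0, 0, 4 * R] : Fin 3 → ℝ) 2 + r), u t = 0 := by
        rw [← lintegral_zero (μ := volume.restrict (Icc ((![0, 0, 4 * R] : Fin 3 → ℝ) 2 - r)
          ((![0, 0, 4 * R] : Fin 3 → ℝ) 2 + r)))]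
        refine setLIntegral_congr_fun measurableSet_Icc fun t ht => ?_
        apply hu0
        have h4 := ht.1
        simp only [Matrix.cons_val] at h4
        rw [abs_of_pos (by linarith)]
        linarith
      rw [h0, mul_zero]
      exact zero_le
    · push Not at h3
      refine mul_le_mul' (ENNReal.ofReal_le_ofReal ?_) (setLIntegral_le_lintegral _ _)
      refine one_div_le_one_div_of_le (by positivity) ?_
      linarith

end BorelEq
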