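import Pool.Agent.Lib.MP_75103d_lc.G_Bd

/-! Part (G3): lower bound for functions of the third coordinate, from bd_lower (the cube of half side R/2 is in the ball of radius R) and Tonelli on the cube. -/

set_option autoImplicit false

open MeasureTheory Set
open scoped ENNReal Quaternion

namespace BorelEq

private theorem G_Bd2_pi (R : ℝ) : {y : Fin 3 → ℝ | ∀ i, |y i| ≤ R} = Set.pi univ fun _ => Icc (-R) R := by
  ext y
  simp only [mem_setOf_eq, mem_pi, mem_univ, true_implies, mem_Icc, abs_le]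

private theorem G_Bd2_meas (R : ℝ) : MeasurableSet {y : Fin 3 → ℝ | ∀ i, |y i| ≤ R} := by
  rw [G_Bd2_pi]
  exact MeasurableSet.univ_pi fun _ => measurableSet_Icc

private theorem G_Bd2_sub (R : ℝ) (hR : 0 < R) :
    {y : Fin 3 → ℝ | ∀ i, |y i| ≤ R} ⊆ {y : Fin 3 → ℝ | ∑ i, (y i) ^ 2 ≤ (2 * R) ^ 2} := by
  intro y hy
  simp only [mem_setOf_eq] at hy ⊢
  have h : ∀ i, (y i) ^ 2 ≤ R ^ 2 := fun i => sq_le_sq' (abs_le.mp (hy i)).1 (abs_le.mp (hy i)).2
  rw [Fin.sum_univ_three]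
  nlinarith [h 0, h 1, h 2]

theorem cube_third (R : ℝ) (hR : 0 < R) (u : ℝ → ℝ≥0∞) (hu : Measurable u) :
    ∫⁻ y : Fin 3 → ℝ in {y | ∀ i, |y i| ≤ R}, u (y 2) =
      ENNReal.ofReal (4 * R ^ 2) * ∫⁻ t in Icc (-R) R, u t := by
  have hf : Measurable ((Icc (-R) R).indicator u) := hu.indicator measurableSet_Icc
  have hs : MeasurableSet (Set.pi univ fun _ : Fin 2 => Icc (-R) R) :=
    MeasurableSet.univ_pi fun _ => measurableSet_Icc
  have hg : Measurable ((Set.pi univ fun _ : Fin 2 => Icc (-R) R).indicator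
      (fun _ => (1 : ℝ≥0∞))) := measurable_const.indicator hs
  have hF : Measurable (fun p : ℝ × (Fin 2 → ℝ) => (Icc (-R) R).indicator u p.1 *
      (Set.pi univ fun _ : Fin 2 => Icc (-R) R).indicator (fun _ => (1 : ℝ≥0∞)) p.2) :=
    (hf.comp measurable_fst).mul (hg.comp measurable_snd)
  have h1 := (volume_preserving_piFinSuccAbove (fun _ : Fin 3 => ℝ) 2).lintegral_comp hF
  have h2 : ∀ y : Fin 3 → ℝ, {y : Fin 3 → ℝ | ∀ i, |y i| ≤ R}.indicator (fun y => u (y 2)) y =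
      (fun p : ℝ × (Fin 2 → ℝ) => (Icc (-R) R).indicator u p.1 *
      (Set.pi univ fun _ : Fin 2 => Icc (-R) R).indicator (fun _ => (1 : ℝ≥0∞)) p.2)
      (MeasurableEquiv.piFinSuccAbove (fun _ : Fin 3 => ℝ) 2 y) := by
    intro y
    have e1 : (MeasurableEquiv.piFinSuccAbove (fun _ : Fin 3 => ℝ) 2 y).1 = y 2 := rfl
    have e2 : (MeasurableEquiv.piFinSuccAbove (fun _ : Fin 3 => ℝ) 2 y).2 = ![y 0, y 1] := by
      funext j
      fin_cases j <;> rfl
    show _ = (Icc (-R) R).indicator u (MeasurableEquiv.piFinSuccAbove (fun _ : Fin 3 => ℝ) 2 y).1 *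
      (Set.pi univ fun _ : Fin 2 => Icc (-R) R).indicator (fun _ => (1 : ℝ≥0∞))
        (MeasurableEquiv.piFinSuccAbove (fun _ : Fin 3 => ℝ) 2 y).2
    rw [e1, e2]
    by_cases hy : ∀ i, |y i| ≤ R
    · have m1 : y ∈ {y : Fin 3 → ℝ | ∀ i, |y i| ≤ R} := hy
      have m2 : y 2 ∈ Icc (-R) R := abs_le.mp (hy 2)
      have m3 : (![y 0, y 1] : Fin 2 → ℝ) ∈ Set.pi univ fun _ : Fin 2 => Icc (-R) R := by
        intro j _
        fin_cases j
        · exact abs_le.mp (hy 0)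
        · exact abs_le.mp (hy 1)
      rw [indicator_of_mem m1, indicator_of_mem m2, indicator_of_mem m3, mul_one]
    · have m1 : y ∉ {y : Fin 3 → ℝ | ∀ i, |y i| ≤ R} := hy
      rw [indicator_of_notMem m1]
      symm
      by_cases m2 : y 2 ∈ Icc (-R) R
      · have m3 : (![y 0, y 1] : Fin 2 → ℝ) ∉ Set.pi univ fun _ : Fin 2 => Icc (-R) R := by
          intro hc
          apply hy
          intro i
          fin_cases i
          · exact abs_le.mpr (hc 0 (mem_univ _))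
          · exact abs_le.mpr (hc 1 (mem_univ _))
          · exact abs_le.mpr m2
        rw [indicator_of_notMem m3, mul_zero]
      · rw [indicator_of_notMem m2, zero_mul]
  rw [← lintegral_indicator (G_Bd2_meas R), lintegral_congr h2, h1]
  show ∫⁻ p, (Icc (-R) R).indicator u p.1 *
      (Set.pi univ fun _ : Fin 2 => Icc (-R) R).indicator (fun _ => (1 : ℝ≥0∞)) p.2
      ∂(volume.prod volume) = _
  rw [lintegral_prod_mul hf.aemeasurable hg.aemeasurable, lintegral_indicator measurableSet_Icc,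
    lintegral_indicator hs, mul_comm]
  congr 1
  rw [setLIntegral_const, one_mul, volume_pi_pi]
  simp only [Real.volume_Icc, Finset.prod_const, Finset.card_univ, Fintype.card_fin]
  rw [← ENNReal.ofReal_pow (by linarith)]
  congr 1
  ring

theorem bd_third_lower (R : ℝ) (hR : 0 < R) : ∃ b : ℝ, 0 < b ∧ ∀ u : ℝ → ℝ≥0∞, Measurable u →
    ∀ x : Fin 3 → ℝ, (∀ i, |x i| ≤ R) →
      ENNReal.ofReal b * ∫⁻ t in Icc (-R) R, u t ≤
        A3 ![8 * R, 0, 0] (A3 ![0, 0, 8 * R]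
          ({y : Fin 3 → ℝ | ∀ i, |y i| ≤ R}.indicator (fun y => u (y 2)))) x := by
  obtain ⟨b, hb, h⟩ := bd_lower (2 * R) (by linarith)
  refine ⟨b * (4 * R ^ 2), by positivity, fun u hu x hx => ?_⟩
  have hF : Measurable ({y : Fin 3 → ℝ | ∀ i, |y i| ≤ R}.indicator (fun y => u (y 2))) :=
    (hu.comp (measurable_pi_apply 2)).indicator (G_Bd2_meas R)
  have h1 := h _ hF x (G_Bd2_sub R hR hx)
  have e : (4 : ℝ) * (2 * R) = 8 * R := by ring
  rw [e] at h1
  refine le_trans ?_ h1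
  rw [ENNReal.ofReal_mul hb.le, mul_assoc, ← cube_third R hR u hu]
  refine mul_le_mul_right ?_ _
  rw [lintegral_indicator (G_Bd2_meas R), Measure.restrict_restrict (G_Bd2_meas R),
    inter_eq_left.mpr (G_Bd2_sub R hR)]

theorem bd_cube_lower (R : ℝ) (hR : 0 < R) : ∃ b : ℝ, 0 < b ∧
    ∀ F : (Fin 3 → ℝ) → ℝ≥0∞, Measurable F → ∀ x : Fin 3 → ℝ, (∀ i, |x i| ≤ R) →
      ENNReal.ofReal b * ∫⁻ y in {y | ∀ i, |y i| ≤ R}, F y ≤
        A3 ![8 * R, 0, 0] (A3 ![0, 0, 8 * R] F) x := by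
  obtain ⟨b, hb, h⟩ := bd_lower (2 * R) (by linarith)
  refine ⟨b, hb, fun F hF x hx => ?_⟩
  have h1 := h F hF x (G_Bd2_sub R hR hx)
  have e : (4 : ℝ) * (2 * R) = 8 * R := by ring
  rw [e] at h1
  refine le_trans ?_ h1
  exact mul_le_mul_right (lintegral_mono_set (G_Bd2_sub R hR)) _

theorem bd_cube_upper (R : ℝ) (hR : 0 < R) : ∃ C : ℝ, 0 < C ∧
    ∀ F : (Fin 3 → ℝ) → ℝ≥0∞, Measurable F → (∀ y, (∃ i, R < |y i|) → F y = 0) → ∀ x,
      A3 ![8 * R, 0, 0] (A3 ![0, 0, 8 * R] F) x ≤ ENNReal.ofReal C * ∫⁻ y, F y := by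
  obtain ⟨C, hC, h⟩ := bd_upper (2 * R) (by linarith)
  refine ⟨C, hC, fun F hF hF0 x => ?_⟩
  have h1 := h F hF (fun y hy => by
    apply hF0
    by_contra hc
    push Not at hc
    exact absurd (G_Bd2_sub R hR hc) (not_le.mpr hy)) x
  have e : (4 : ℝ) * (2 * R) = 8 * R := by ring
  rw [e] at h1
  exact h1

theorem bd_cube_third (R : ℝ) (hR : 0 < R) : ∃ C : ℝ, 0 < C ∧ ∀ u : ℝ → ℝ≥0∞, Measurable u →
    (∀ t, R < |t| → u t = 0) → ∀ x,
      A3 ![8 * R, 0, 0] (A3 ![0, 0, 8 * R] (fun y => u (y 2))) x ≤ ENNReal.ofReal C * ∫⁻ t, u t := by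
  obtain ⟨C, hC, h⟩ := bd_third (2 * R) (by linarith)
  refine ⟨C, hC, fun u hu hu0 x => ?_⟩
  have h1 := h u hu (fun t ht => hu0 t (by linarith)) x
  have e : (4 : ℝ) * (2 * R) = 8 * R := by ring
  rw [e] at h1
  exact h1

end BorelEq
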