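import Pool.Agent.Lib.MP_75103d_lc.IGap

/-! Part (G): definitions. -/

set_option autoImplicit false

open MeasureTheory Set
open scoped ENNReal Quaternion

namespace BorelEq

instance instProbMuQ : IsProbabilityMeasure muQ := muQ_prob

/-- The pure quaternion of a vector of `ℝ³`. -/
noncomputable def toQ (v : Fin 3 → ℝ) : ℍ[ℝ] := ⟨0, v 0, v 1, v 2⟩

/-- The imaginary part of a quaternion. -/
noncomputable def imQ (q : ℍ[ℝ]) : Fin 3 → ℝ := ![q.imI, q.imJ, q.imK]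

/-- Rotation of the vector `v` by the unit quaternion `g`. -/
noncomputable def rotV (g : UQ) (v : Fin 3 → ℝ) : Fin 3 → ℝ :=
  imQ ((g : ℍ[ℝ]) * toQ v * star (g : ℍ[ℝ]))

/-- `g` rotates the coordinates `e 0, e 1, e 2` of `x` about the centre `p`. -/
noncomputable def rotE {n : ℕ} (e : Fin 3 ↪ Fin n) (p : Eu n) (g : UQ) (x : Eu n) : Eu n :=
  WithLp.toLp 2 (fun j => if h : ∃ i, e i = j then
    p j + rotV g (fun i => x (e i) - p (e i)) h.choose else x j)

/-- squared Euclidean norm of a vector of `ℝ³` -/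
noncomputable def nsq (v : Fin 3 → ℝ) : ℝ := ∑ i, v i ^ 2

/-- scalar product in `ℝ³` -/
noncomputable def dt (v w : Fin 3 → ℝ) : ℝ := ∑ i, v i * w i

/-- average of `f` over the sphere about `c` through `x` -/
noncomputable def av3 (c : Fin 3 → ℝ) (f : (Fin 3 → ℝ) → ℝ≥0∞) (x : Fin 3 → ℝ) : ℝ≥0∞ :=
  ∫⁻ g, f (c + rotV g (x - c)) ∂muQ

/-- Average over the rotations about `c` in `ℝ³`. -/
noncomputable def A3 (c : Fin 3 → ℝ) (F : (Fin 3 → ℝ) → ℝ≥0∞) (y : Fin 3 → ℝ) : ℝ≥0∞ :=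
  ∫⁻ g, F (c + rotV g (y - c)) ∂muQ

/-- Replace the coordinates `e 0, e 1, e 2` of `x` by `y`. -/
noncomputable def put {n : ℕ} (e : Fin 3 ↪ Fin n) (x : Fin n → ℝ) (y : Fin 3 → ℝ) : Fin n → ℝ :=
  fun j => if h : ∃ i, e i = j then y h.choose else x j

end BorelEq
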