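import Pool.Agent.Lib.MP_75103d_lc.G_Put

/-! Part (G): marginals (Mathlib lmarginal). -/

set_option autoImplicit false

open MeasureTheory Set
open scoped ENNReal Quaternion

namespace BorelEq

/-- The equivalence between `Fin 3` and the image of the embedding. -/
noncomputable def G_Lm_equiv {n : ℕ} (e : Fin 3 ↪ Fin n) :
    Fin 3 ≃ {j : Fin n // j ∈ Finset.univ.image e} :=
  Equiv.ofBijective (fun i => ⟨e i, Finset.mem_image_of_mem e (Finset.mem_univ i)⟩) (by
    constructor
    · intro a b h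
      exact e.injective (congrArg Subtype.val h)
    · rintro ⟨j, hj⟩
      obtain ⟨i, -, hi⟩ := Finset.mem_image.1 hj
      exact ⟨i, Subtype.ext hi⟩)

theorem G_Lm_put {n : ℕ} (e : Fin 3 ↪ Fin n) (x : Fin n → ℝ) (y : Fin 3 → ℝ) :
    put e x y = Function.updateFinset x (Finset.univ.image e)
      (MeasurableEquiv.piCongrLeft (fun _ => ℝ) (G_Lm_equiv e) y) := by
  funext j
  by_cases h : ∃ i, e i = j
  · obtain ⟨i, rfl⟩ := h
    have hm : e i ∈ Finset.univ.image e := Finset.mem_image_of_mem e (Finset.mem_univ i)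
    rw [put_same, Function.updateFinset, dif_pos hm]
    have h1 : (⟨e i, hm⟩ : {j : Fin n // j ∈ Finset.univ.image e}) = G_Lm_equiv e i := rfl
    rw [h1, MeasurableEquiv.coe_piCongrLeft, Equiv.piCongrLeft_apply_apply]
  · have hm : j ∉ Finset.univ.image e := by
      intro hj
      obtain ⟨i, -, hi⟩ := Finset.mem_image.1 hj
      exact h ⟨i, hi⟩
    rw [put_other e x y j (fun i hi => h ⟨i, hi⟩), Function.updateFinset, dif_neg hm]

theorem put_lmarginal {n : ℕ} (e : Fin 3 ↪ Fin n) (F : (Fin n → ℝ) → ℝ≥0∞) (hF : Measurable F)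
    (x : Fin n → ℝ) :
    ∫⁻ y : Fin 3 → ℝ, F (put e x y) =
      lmarginal (fun _ => volume) (Finset.univ.image e) F x := by
  have hmp := volume_measurePreserving_piCongrLeft
    (fun _ : {j : Fin n // j ∈ Finset.univ.image e} => ℝ) (G_Lm_equiv e)
  rw [lmarginal]
  simp only [G_Lm_put]
  exact hmp.lintegral_comp_emb (MeasurableEquiv.measurableEmbedding _)
    (fun z => F (Function.updateFinset x (Finset.univ.image e) z))

theorem lintegral_Eu {n : ℕ} (f : Eu n → ℝ≥0∞) (hf : Measurable f) (x : Fin n → ℝ) :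
    ∫⁻ y, f y = lmarginal (fun _ => volume) Finset.univ (fun z => f (WithLp.toLp 2 z)) x := by
  rw [← lintegral_eq_lmarginal_univ]
  exact ((PiLp.volume_preserving_toLp (Fin n)).lintegral_comp hf).symm

/-- A marginal only depends on the other coordinates. -/
theorem lmarginal_indep {n : ℕ} (S : Finset (Fin n)) (F : (Fin n → ℝ) → ℝ≥0∞)
    (x z : Fin n → ℝ) (h : ∀ j, j ∉ S → x j = z j) :
    lmarginal (fun _ => volume) S F x = lmarginal (fun _ => volume) S F z :=
  lmarginal_congr _ _ h

end BorelEq
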