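import Pool.Agent.Lib.MP_75103d_lc.G_Bd2
import Pool.Agent.Lib.MP_75103d_lc.G_Lm

/-! Part (G4): induction over the dimension. Base: k = 2, e = (0,1,2), centres 8R e_0 and 8R e_2, bd_cube_upper / bd_cube_lower with F = fun y => f (toLp (put e x y)), put_lmarginal. Step k -> k+1: L' = (e, 8R e_0) :: (e, 8R e_{k+1}) :: L with e = (0,1,k+1); avgs L f ≤ C M_k, and M_k (put e x y) = u (y 2) with u t = M_k (update x (k+1) t) (lmarginal_indep), zero for |t| > R; bd_cube_third; lmarginal_insert gives ∫ u = M_{k+1} x. Lower bound: for x in the cube, avgs L f (put e x y) ≥ b u(y 2) on the cube; bd_third_lower. -/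

set_option autoImplicit false

open MeasureTheory Set
open scoped ENNReal Quaternion

namespace BorelEq

/-- indices up to `k` -/
def upTo (n k : ℕ) : Finset (Fin n) := Finset.univ.filter (fun i => i.val ≤ k)

/-- the embedding with the three given values -/
def G_Ind_emb {n : ℕ} (a b c : Fin n) (hab : a ≠ b) (hac : a ≠ c) (hbc : b ≠ c) : Fin 3 ↪ Fin n where
  toFun := ![a, b, c]
  inj' := by
    intro i j hij
    fin_cases i <;> fin_cases j <;> simp_all

theorem G_Ind_meas_toLp (n : ℕ) : Measurable (fun z : Fin n → ℝ => (WithLp.toLp 2 z : Eu n)) := by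
  fun_prop

theorem G_Ind_A3_mono (c : Fin 3 → ℝ) {F G : (Fin 3 → ℝ) → ℝ≥0∞} (h : ∀ y, F y ≤ G y)
    (y : Fin 3 → ℝ) : A3 c F y ≤ A3 c G y := by
  unfold A3
  exact lintegral_mono fun g => h _

theorem G_Ind_Fmeas {n : ℕ} (e : Fin 3 ↪ Fin n) (f : Eu n → ℝ≥0∞) (hf : Measurable f)
    (x : Fin n → ℝ) : Measurable (fun y : Fin 3 → ℝ => f (WithLp.toLp 2 (put e x y))) := by
  have h1 : Measurable (fun y : Fin 3 → ℝ => put e x y) :=
    (put_meas e).comp (measurable_const.prodMk measurable_id)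
  exact hf.comp ((G_Ind_meas_toLp n).comp h1)

theorem G_Ind_two {n : ℕ} (R : ℝ) (a b c : Fin n) (hab : a ≠ b) (hac : a ≠ c) (hbc : b ≠ c)
    (L : List ((Fin 3 ↪ Fin n) × Eu n)) (f : Eu n → ℝ≥0∞) (x : Fin n → ℝ) :
    avgs ((G_Ind_emb a b c hab hac hbc, WithLp.toLp 2 (Pi.single a (8 * R))) ::
      (G_Ind_emb a b c hab hac hbc, WithLp.toLp 2 (Pi.single c (8 * R))) :: L) f (WithLp.toLp 2 x) =
    A3 ![8 * R, 0, 0] (A3 ![0, 0, 8 * R]
      (fun y => avgs L f (WithLp.toLp 2 (put (G_Ind_emb a b c hab hac hbc) x y))))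
      (fun i => x (G_Ind_emb a b c hab hac hbc i)) := by
  have h := avg_avg_put (G_Ind_emb a b c hab hac hbc) (Pi.single a (8 * R)) (Pi.single c (8 * R)) x
    (avgs L f)
  have h1 : (fun i => (Pi.single a (8 * R) : Fin n → ℝ) (G_Ind_emb a b c hab hac hbc i)) =
      ![8 * R, 0, 0] := by
    funext i
    fin_cases i
    · show (Pi.single a (8 * R) : Fin n → ℝ) a = 8 * R
      rw [Pi.single_eq_same]
    · show (Pi.single a (8 * R) : Fin n → ℝ) b = 0
      rw [Pi.single_eq_of_ne hab.symm]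
    · show (Pi.single a (8 * R) : Fin n → ℝ) c = 0
      rw [Pi.single_eq_of_ne hac.symm]
  have h2 : (fun i => (Pi.single c (8 * R) : Fin n → ℝ) (G_Ind_emb a b c hab hac hbc i)) =
      ![0, 0, 8 * R] := by
    funext i
    fin_cases i
    · show (Pi.single c (8 * R) : Fin n → ℝ) a = 0
      rw [Pi.single_eq_of_ne hac]
    · show (Pi.single c (8 * R) : Fin n → ℝ) b = 0
      rw [Pi.single_eq_of_ne hbc]
    · show (Pi.single c (8 * R) : Fin n → ℝ) c = 8 * R
      rw [Pi.single_eq_same]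
  rw [h1, h2] at h
  exact h

theorem G_Ind_set (R : ℝ) (F : (Fin 3 → ℝ) → ℝ≥0∞) (h : ∀ y, (∃ i, R < |y i|) → F y = 0) :
    ∫⁻ y in {y | ∀ i, |y i| ≤ R}, F y = ∫⁻ y, F y := by
  have hm : MeasurableSet {y : Fin 3 → ℝ | ∀ i, |y i| ≤ R} := by
    have : {y : Fin 3 → ℝ | ∀ i, |y i| ≤ R} = ⋂ i, {y | |y i| ≤ R} := by
      ext y; simp
    rw [this]
    exact MeasurableSet.iInter fun i => measurableSet_le (measurable_pi_apply i).abs measurable_const
  rw [← lintegral_indicator hm]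
  congr 1
  funext y
  by_cases hy : y ∈ {y : Fin 3 → ℝ | ∀ i, |y i| ≤ R}
  · rw [indicator_of_mem hy]
  · rw [indicator_of_notMem hy]
    simp only [Set.mem_ofPred_eq, not_forall, not_le] at hy
    exact (h y hy).symm

theorem G_Ind_set1 (R : ℝ) (u : ℝ → ℝ≥0∞) (h : ∀ t, R < |t| → u t = 0) :
    ∫⁻ t in Icc (-R) R, u t = ∫⁻ t, u t := by
  rw [← lintegral_indicator measurableSet_Icc]
  congr 1
  funext t
  by_cases ht : t ∈ Icc (-R) R
  · rw [indicator_of_mem ht]
  · rw [indicator_of_notMem ht]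
    symm
    apply h
    by_contra hcon
    exact ht (abs_le.mp (not_lt.mp hcon))

theorem ind_base (n : ℕ) (R : ℝ) (hR : 0 < R) (hn : 2 < n) :
    ∃ (L : List ((Fin 3 ↪ Fin n) × Eu n)) (b C : ℝ), 0 < b ∧ 0 < C ∧
      ∀ f : Eu n → ℝ≥0∞, Measurable f → (∀ x, (∃ i, R < |x i|) → f x = 0) →
        (∀ x : Fin n → ℝ, avgs L f (WithLp.toLp 2 x) ≤ ENNReal.ofReal C *
          lmarginal (fun _ => volume) (upTo n 2) (fun z => f (WithLp.toLp 2 z)) x) ∧
        (∀ x : Fin n → ℝ, (∀ i, |x i| ≤ R) → ENNReal.ofReal b *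
          lmarginal (fun _ => volume) (upTo n 2) (fun z => f (WithLp.toLp 2 z)) x ≤
            avgs L f (WithLp.toLp 2 x)) := by
  obtain ⟨C, hC, hCu⟩ := bd_cube_upper R hR
  obtain ⟨b, hb, hbl⟩ := bd_cube_lower R hR
  have hab : (⟨0, by omega⟩ : Fin n) ≠ ⟨1, by omega⟩ := by simp
  have hac : (⟨0, by omega⟩ : Fin n) ≠ ⟨2, by omega⟩ := by simp
  have hbc : (⟨1, by omega⟩ : Fin n) ≠ ⟨2, by omega⟩ := by simp
  set e : Fin 3 ↪ Fin n := G_Ind_emb _ _ _ hab hac hbc with he
  refine ⟨[(e, WithLp.toLp 2 (Pi.single ⟨0, by omega⟩ (8 * R))),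
    (e, WithLp.toLp 2 (Pi.single ⟨2, by omega⟩ (8 * R)))], b, C, hb, hC, ?_⟩
  intro f hf hf0
  have himg : Finset.univ.image e = upTo n 2 := by
    ext j
    simp only [upTo, Finset.mem_image, Finset.mem_univ, true_and, Finset.mem_filter]
    constructor
    · rintro ⟨i, rfl⟩
      fin_cases i
      · show (0 : ℕ) ≤ 2
        omega
      · show (1 : ℕ) ≤ 2
        omega
      · show (2 : ℕ) ≤ 2
        omega
    · intro hj
      have : j.val = 0 ∨ j.val = 1 ∨ j.val = 2 := by omega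
      rcases this with h | h | h
      · exact ⟨0, by apply Fin.ext; rw [h]; rfl⟩
      · exact ⟨1, by apply Fin.ext; rw [h]; rfl⟩
      · exact ⟨2, by apply Fin.ext; rw [h]; rfl⟩
  have hFmeas : Measurable (fun z : Fin n → ℝ => f (WithLp.toLp 2 z)) :=
    hf.comp (G_Ind_meas_toLp n)
  have hint : ∀ x : Fin n → ℝ, ∫⁻ y : Fin 3 → ℝ, f (WithLp.toLp 2 (put e x y)) =
      lmarginal (fun _ => volume) (upTo n 2) (fun z => f (WithLp.toLp 2 z)) x := by
    intro x
    rw [← himg]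
    exact put_lmarginal e (fun z => f (WithLp.toLp 2 z)) hFmeas x
  have hzero : ∀ x : Fin n → ℝ, ∀ y : Fin 3 → ℝ, (∃ i, R < |y i|) →
      f (WithLp.toLp 2 (put e x y)) = 0 := by
    rintro x y ⟨i, hi⟩
    apply hf0
    refine ⟨e i, ?_⟩
    show R < |put e x y (e i)|
    rw [put_same]
    exact hi
  have hav : ∀ x : Fin n → ℝ, avgs [(e, WithLp.toLp 2 (Pi.single ⟨0, by omega⟩ (8 * R))),
    (e, WithLp.toLp 2 (Pi.single ⟨2, by omega⟩ (8 * R)))] f (WithLp.toLp 2 x) =
      A3 ![8 * R, 0, 0] (A3 ![0, 0, 8 * R]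
      (fun y => f (WithLp.toLp 2 (put e x y)))) (fun i => x (e i)) := by
    intro x
    exact G_Ind_two R _ _ _ hab hac hbc [] f x
  constructor
  · intro x
    rw [hav x, ← hint x]
    exact hCu _ (G_Ind_Fmeas e f hf x) (hzero x) _
  · intro x hx
    rw [hav x, ← hint x]
    have h := hbl _ (G_Ind_Fmeas e f hf x) (fun i => x (e i)) (fun i => hx _)
    rw [G_Ind_set R _ (hzero x)] at h
    exact h

theorem ind_step (n : ℕ) (R : ℝ) (hR : 0 < R) (k : ℕ) (hk2 : 2 ≤ k) (hk : k + 1 < n)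
    (ih : ∃ (L : List ((Fin 3 ↪ Fin n) × Eu n)) (b C : ℝ), 0 < b ∧ 0 < C ∧
      ∀ f : Eu n → ℝ≥0∞, Measurable f → (∀ x, (∃ i, R < |x i|) → f x = 0) →
        (∀ x : Fin n → ℝ, avgs L f (WithLp.toLp 2 x) ≤ ENNReal.ofReal C *
          lmarginal (fun _ => volume) (upTo n k) (fun z => f (WithLp.toLp 2 z)) x) ∧
        (∀ x : Fin n → ℝ, (∀ i, |x i| ≤ R) → ENNReal.ofReal b *
          lmarginal (fun _ => volume) (upTo n k) (fun z => f (WithLp.toLp 2 z)) x ≤
            avgs L f (WithLp.toLp 2 x))) :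
    ∃ (L : List ((Fin 3 ↪ Fin n) × Eu n)) (b C : ℝ), 0 < b ∧ 0 < C ∧
      ∀ f : Eu n → ℝ≥0∞, Measurable f → (∀ x, (∃ i, R < |x i|) → f x = 0) →
        (∀ x : Fin n → ℝ, avgs L f (WithLp.toLp 2 x) ≤ ENNReal.ofReal C *
          lmarginal (fun _ => volume) (upTo n (k + 1)) (fun z => f (WithLp.toLp 2 z)) x) ∧
        (∀ x : Fin n → ℝ, (∀ i, |x i| ≤ R) → ENNReal.ofReal b *
          lmarginal (fun _ => volume) (upTo n (k + 1)) (fun z => f (WithLp.toLp 2 z)) x ≤
            avgs L f (WithLp.toLp 2 x)) := by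
  obtain ⟨L, b0, C0, hb0, hC0, ih⟩ := ih
  obtain ⟨C, hC, hCu⟩ := bd_cube_third R hR
  obtain ⟨b, hb, hbl⟩ := bd_third_lower R hR
  have hab : (⟨0, by omega⟩ : Fin n) ≠ ⟨1, by omega⟩ := by simp
  have hac : (⟨0, by omega⟩ : Fin n) ≠ ⟨k + 1, hk⟩ := by simp
  have hbc : (⟨1, by omega⟩ : Fin n) ≠ ⟨k + 1, hk⟩ := by
    intro h
    have := congrArg Fin.val h
    simp at this
    omega
  set e : Fin 3 ↪ Fin n := G_Ind_emb _ _ _ hab hac hbc with he
  refine ⟨(e, WithLp.toLp 2 (Pi.single ⟨0, by omega⟩ (8 * R))) ::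
    (e, WithLp.toLp 2 (Pi.single ⟨k + 1, hk⟩ (8 * R))) :: L, b * b0, C * C0,
    mul_pos hb hb0, mul_pos hC hC0, ?_⟩
  intro f hf hf0
  obtain ⟨ih1, ih2⟩ := ih f hf hf0
  have hFmeas : Measurable (fun z : Fin n → ℝ => f (WithLp.toLp 2 z)) :=
    hf.comp (G_Ind_meas_toLp n)
  set Mk : (Fin n → ℝ) → ℝ≥0∞ :=
    lmarginal (fun _ => volume) (upTo n k) (fun z => f (WithLp.toLp 2 z)) with hMk
  have hMkm : Measurable Mk := Measurable.lmarginal _ hFmeas
  have hins : upTo n (k + 1) = insert ⟨k + 1, hk⟩ (upTo n k) := by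
    ext j
    simp only [upTo, Finset.mem_filter, Finset.mem_univ, true_and, Finset.mem_insert]
    constructor
    · intro h
      by_cases hj : j.val ≤ k
      · exact Or.inr hj
      · left
        apply Fin.ext
        show j.val = k + 1
        omega
    · rintro (h | h)
      · rw [h]
      · omega
  have hnot : (⟨k + 1, hk⟩ : Fin n) ∉ upTo n k := by
    simp [upTo]
  have hMk1 : ∀ x : Fin n → ℝ, lmarginal (fun _ => volume) (upTo n (k + 1))
      (fun z => f (WithLp.toLp 2 z)) x =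
      ∫⁻ t : ℝ, Mk (Function.update x ⟨k + 1, hk⟩ t) := by
    intro x
    rw [hins]
    exact lmarginal_insert _ hFmeas hnot x
  have hu : ∀ (x : Fin n → ℝ) (y : Fin 3 → ℝ), Mk (put e x y) =
      Mk (Function.update x ⟨k + 1, hk⟩ (y 2)) := by
    intro x y
    apply lmarginal_indep
    intro j hj
    have hj' : k < j.val := by
      simp only [upTo, Finset.mem_filter, Finset.mem_univ, true_and, not_le] at hj
      exact hj
    by_cases hjk : j = ⟨k + 1, hk⟩
    · subst hjk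
      rw [Function.update_self]
      have : put e x y (e 2) = y 2 := put_same e x y 2
      exact this
    · rw [Function.update_of_ne hjk]
      apply put_other
      intro i
      fin_cases i
      · show (⟨0, _⟩ : Fin n) ≠ j
        intro h
        rw [← h] at hj'
        simp at hj'
      · show (⟨1, _⟩ : Fin n) ≠ j
        intro h
        rw [← h] at hj'
        simp at hj'
        omega
      · exact fun h => hjk h.symm
  have humeas : ∀ x : Fin n → ℝ, Measurable (fun t : ℝ => Mk (Function.update x ⟨k + 1, hk⟩ t)) := by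
    intro x
    exact hMkm.comp (measurable_update x)
  have huzero : ∀ (x : Fin n → ℝ) (t : ℝ), R < |t| → Mk (Function.update x ⟨k + 1, hk⟩ t) = 0 := by
    intro x t ht
    rw [hMk]
    unfold lmarginal
    rw [lintegral_eq_zero_iff']
    · filter_upwards with z
      apply hf0
      refine ⟨⟨k + 1, hk⟩, ?_⟩
      show R < |Function.updateFinset (Function.update x ⟨k + 1, hk⟩ t) (upTo n k) z ⟨k + 1, hk⟩|
      simp only [Function.updateFinset, hnot, dif_neg, not_false_eq_true, Function.update_self]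
      exact ht
    · exact (hFmeas.comp measurable_updateFinset).aemeasurable
  have hav : ∀ x : Fin n → ℝ, avgs ((e, WithLp.toLp 2 (Pi.single ⟨0, by omega⟩ (8 * R))) ::
    (e, WithLp.toLp 2 (Pi.single ⟨k + 1, hk⟩ (8 * R))) :: L) f (WithLp.toLp 2 x) =
      A3 ![8 * R, 0, 0] (A3 ![0, 0, 8 * R]
      (fun y => avgs L f (WithLp.toLp 2 (put e x y)))) (fun i => x (e i)) := by
    intro x
    exact G_Ind_two R _ _ _ hab hac hbc L f x
  constructor
  · intro x
    rw [hav x, hMk1 x, ENNReal.ofReal_mul hC.le, mul_assoc,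
      ← lintegral_const_mul _ (humeas x)]
    refine le_trans (G_Ind_A3_mono _ (fun y => G_Ind_A3_mono _ (fun z => ?_) y) _)
      (hCu (fun t => ENNReal.ofReal C0 * Mk (Function.update x ⟨k + 1, hk⟩ t))
        ((humeas x).const_mul _) (fun t ht => by rw [huzero x t ht, mul_zero]) _)
    show avgs L f (WithLp.toLp 2 (put e x z)) ≤
      ENNReal.ofReal C0 * Mk (Function.update x ⟨k + 1, hk⟩ (z 2))
    rw [← hu x z]
    exact ih1 _
  · intro x hx
    rw [hav x, hMk1 x, ENNReal.ofReal_mul hb.le, mul_assoc,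
      ← lintegral_const_mul _ (humeas x)]
    have h := hbl (fun t => ENNReal.ofReal b0 * Mk (Function.update x ⟨k + 1, hk⟩ t))
        ((humeas x).const_mul _) (fun i => x (e i)) (fun i => hx _)
    rw [G_Ind_set1 R _ (fun t ht => by rw [huzero x t ht, mul_zero])] at h
    refine le_trans h (G_Ind_A3_mono _ (fun y => G_Ind_A3_mono _ (fun z => ?_) y) _)
    by_cases hz : z ∈ {y : Fin 3 → ℝ | ∀ i, |y i| ≤ R}
    · rw [indicator_of_mem hz]
      show ENNReal.ofReal b0 * Mk (Function.update x ⟨k + 1, hk⟩ (z 2)) ≤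
        avgs L f (WithLp.toLp 2 (put e x z))
      rw [← hu x z]
      apply ih2
      intro j
      by_cases hj : ∃ i, e i = j
      · obtain ⟨i, rfl⟩ := hj
        rw [put_same]
        exact hz i
      · push Not at hj
        rw [put_other e x z j hj]
        exact hx j
    · rw [indicator_of_notMem hz]
      exact bot_le

/-- (G4) kernel bounds. -/
theorem kernel_bounds_aux (n : ℕ) (hn : 3 ≤ n) (R : ℝ) (hR : 0 < R) :
    ∃ (L : List ((Fin 3 ↪ Fin n) × Eu n)) (b C : ℝ), 0 < b ∧ 0 < C ∧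
      ∀ f : Eu n → ℝ≥0∞, Measurable f → (∀ x, R < ‖x‖ → f x = 0) →
        (∀ x, avgs L f x ≤ ENNReal.ofReal C * ∫⁻ y, f y) ∧
        (∀ x, ‖x‖ ≤ R → ENNReal.ofReal b * ∫⁻ y, f y ≤ avgs L f x) := by
  have key : ∀ k, 2 ≤ k → k < n → ∃ (L : List ((Fin 3 ↪ Fin n) × Eu n)) (b C : ℝ), 0 < b ∧ 0 < C ∧
      ∀ f : Eu n → ℝ≥0∞, Measurable f → (∀ x, (∃ i, R < |x i|) → f x = 0) →
        (∀ x : Fin n → ℝ, avgs L f (WithLp.toLp 2 x) ≤ ENNReal.ofReal C *
          lmarginal (fun _ => volume) (upTo n k) (fun z => f (WithLp.toLp 2 z)) x) ∧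
        (∀ x : Fin n → ℝ, (∀ i, |x i| ≤ R) → ENNReal.ofReal b *
          lmarginal (fun _ => volume) (upTo n k) (fun z => f (WithLp.toLp 2 z)) x ≤
            avgs L f (WithLp.toLp 2 x)) := by
    intro k hk2
    induction k, hk2 using Nat.le_induction with
    | base => intro h; exact ind_base n R hR h
    | succ k hk2 ih => intro h; exact ind_step n R hR k hk2 h (ih (by omega))
  obtain ⟨L, b, C, hb, hC, h⟩ := key (n - 1) (by omega) (by omega)
  have huniv : upTo n (n - 1) = Finset.univ := by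
    ext j
    simp only [upTo, Finset.mem_filter, Finset.mem_univ, true_and, iff_true]
    omega
  rw [huniv] at h
  refine ⟨L, b, C, hb, hC, ?_⟩
  intro f hf hf0
  have hcoord : ∀ (x : Eu n) (i : Fin n), |x i| ≤ ‖x‖ := by
    intro x i
    have h2 : (x i) ^ 2 ≤ ‖x‖ ^ 2 := by
      rw [EuclideanSpace.norm_sq_eq]
      have := Finset.single_le_sum (f := fun i => ‖x i‖ ^ 2) (fun j _ => by positivity)
        (Finset.mem_univ i)
      simpa using this
    exact abs_le_of_sq_le_sq h2 (norm_nonneg _)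
  obtain ⟨h1, h2⟩ := h f hf (by
    rintro x ⟨i, hi⟩
    exact hf0 x (lt_of_lt_of_le hi (hcoord x i)))
  constructor
  · intro x
    rw [lintegral_Eu f hf x.ofLp]
    exact h1 x.ofLp
  · intro x hx
    rw [lintegral_Eu f hf x.ofLp]
    exact h2 x.ofLp (fun i => (hcoord x i).trans hx)

end BorelEq
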