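import Pool.Agent.Lib.MP_75103d_lc.G_Vec

/-! Part (G): invariance of Lebesgue measure under rotV, orbits, averages. rot_avg: ∫ F = ∫ F∘rotV g for every g, integrate over g, Tonelli. -/

set_option autoImplicit false

open MeasureTheory Set
open scoped ENNReal Quaternion

namespace BorelEq



/-- the linear map -/
noncomputable def G_Inv_lin (g : UQ) : (Fin 3 → ℝ) →ₗ[ℝ] (Fin 3 → ℝ) where
  toFun := rotV g
  map_add' := rotV_add g
  map_smul' := rotV_smul g

theorem G_Inv_det (g : UQ) : (LinearMap.det (G_Inv_lin g)) ^ 2 = 1 := by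
  have hA : (LinearMap.toMatrix' (G_Inv_lin g)).transpose * LinearMap.toMatrix' (G_Inv_lin g) = 1 := by
    ext j k
    rw [Matrix.mul_apply]
    simp only [Matrix.transpose_apply, LinearMap.toMatrix'_apply]
    have h := rotV_inner g (Pi.single j 1) (Pi.single k 1)
    have h2 : ∑ i, (G_Inv_lin g) (Pi.single j 1) i * (G_Inv_lin g) (Pi.single k 1) i =
        ∑ i, rotV g (Pi.single j 1) i * rotV g (Pi.single k 1) i := rfl
    rw [h2, h]
    simp only [Matrix.one_apply, Pi.single_apply, ite_mul, one_mul, zero_mul,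
      Finset.sum_ite_eq', Finset.mem_univ, if_true]
  have h3 := congrArg Matrix.det hA
  rw [Matrix.det_mul, Matrix.det_transpose, Matrix.det_one] at h3
  rw [← LinearMap.det_toMatrix', sq]
  exact h3

theorem G_Inv_m1 (g : UQ) : Measurable (rotV g) := by
  have h0 : Measurable (fun v : Fin 3 → ℝ => ((g, v) : UQ × (Fin 3 → ℝ))) :=
    measurable_const.prodMk measurable_id
  have h1 : Measurable ((fun p : UQ × (Fin 3 → ℝ) => rotV p.1 p.2) ∘
      (fun v : Fin 3 → ℝ => ((g, v) : UQ × (Fin 3 → ℝ)))) := rotV_meas.comp h0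
  have h2 : rotV g = ((fun p : UQ × (Fin 3 → ℝ) => rotV p.1 p.2) ∘
      (fun v : Fin 3 → ℝ => ((g, v) : UQ × (Fin 3 → ℝ)))) := by
    funext v
    rw [Function.comp_apply]
  rw [h2]
  exact h1

theorem G_Inv_m2 (v : Fin 3 → ℝ) : Measurable (fun g : UQ => rotV g v) := by
  have h0 : Measurable (fun g : UQ => ((g, v) : UQ × (Fin 3 → ℝ))) :=
    measurable_id.prodMk measurable_const
  have h1 : Measurable ((fun p : UQ × (Fin 3 → ℝ) => rotV p.1 p.2) ∘
      (fun g : UQ => ((g, v) : UQ × (Fin 3 → ℝ)))) := rotV_meas.comp h0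
  have h2 : (fun g : UQ => rotV g v) = ((fun p : UQ × (Fin 3 → ℝ) => rotV p.1 p.2) ∘
      (fun g : UQ => ((g, v) : UQ × (Fin 3 → ℝ)))) := by
    funext g
    rw [Function.comp_apply]
  rw [h2]
  exact h1

theorem G_Inv_m3 (c : Fin 3 → ℝ) :
    Measurable (fun p : (Fin 3 → ℝ) × UQ => rotV p.2 (p.1 - c)) := by
  have h0 : Measurable (fun p : (Fin 3 → ℝ) × UQ => ((p.2, p.1 - c) : UQ × (Fin 3 → ℝ))) :=
    measurable_snd.prodMk (measurable_fst.sub measurable_const)
  have h1 : Measurable ((fun p : UQ × (Fin 3 → ℝ) => rotV p.1 p.2) ∘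
      (fun p : (Fin 3 → ℝ) × UQ => ((p.2, p.1 - c) : UQ × (Fin 3 → ℝ)))) := rotV_meas.comp h0
  have h2 : (fun p : (Fin 3 → ℝ) × UQ => rotV p.2 (p.1 - c)) =
      ((fun p : UQ × (Fin 3 → ℝ) => rotV p.1 p.2) ∘
        (fun p : (Fin 3 → ℝ) × UQ => ((p.2, p.1 - c) : UQ × (Fin 3 → ℝ)))) := by
    funext p
    rw [Function.comp_apply]
  rw [h2]
  exact h1

theorem G_Inv_mp (g : UQ) : MeasurePreserving (rotV g) volume volume := by
  refine ⟨G_Inv_m1 g, ?_⟩
  have hdet := G_Inv_det g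
  have hne : LinearMap.det (G_Inv_lin g) ≠ 0 := by
    intro h
    rw [h] at hdet
    norm_num at hdet
  have h := Measure.map_linearMap_addHaar_eq_smul_addHaar (volume : Measure (Fin 3 → ℝ)) hne
  have habs : |(LinearMap.det (G_Inv_lin g))⁻¹| = 1 := by
    have h1 : |LinearMap.det (G_Inv_lin g)| = 1 := by
      rw [← sq_abs] at hdet
      nlinarith [abs_nonneg (LinearMap.det (G_Inv_lin g))]
    rw [abs_inv, h1, inv_one]
  rw [habs, ENNReal.ofReal_one, one_smul] at h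
  exact h

theorem vol_rotV (g : UQ) (F : (Fin 3 → ℝ) → ℝ≥0∞) (hF : Measurable F) :
    ∫⁻ y, F (rotV g y) = ∫⁻ y, F y :=
  (G_Inv_mp g).lintegral_comp hF

/-- transitivity and right invariance -/
theorem orbit_avg (F : (Fin 3 → ℝ) → ℝ≥0∞) (hF : Measurable F) (v w : Fin 3 → ℝ)
    (h : ∑ i, (v i) ^ 2 = ∑ i, (w i) ^ 2) :
    ∫⁻ g, F (rotV g v) ∂muQ = ∫⁻ g, F (rotV g w) ∂muQ := by
  obtain ⟨u, hu⟩ := rotV_trans v w h
  have hm : Measurable fun g : UQ => F (rotV g v) := hF.comp (G_Inv_m2 v)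
  have h2 : ∫⁻ g, F (rotV (g * u) v) ∂muQ = ∫⁻ g, F (rotV g v) ∂muQ :=
    (muQ_right u).lintegral_comp hm
  rw [← h2]
  refine lintegral_congr fun g => ?_
  rw [rotV_mul, hu]

theorem rot_avg (F : (Fin 3 → ℝ) → ℝ≥0∞) (hF : Measurable F) :
    ∫⁻ y, F y = ∫⁻ y, (∫⁻ g, F (rotV g y) ∂muQ) := by
  have : IsProbabilityMeasure muQ := muQ_prob
  have hm : Measurable (Function.uncurry fun (y : Fin 3 → ℝ) (g : UQ) => F (rotV g y)) := by
    have h0 := hF.comp (G_Inv_m3 0)
    have e : (Function.uncurry fun (y : Fin 3 → ℝ) (g : UQ) => F (rotV g y)) =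
        F ∘ fun p : (Fin 3 → ℝ) × UQ => rotV p.2 (p.1 - 0) := by
      funext p
      rw [Function.comp_apply, sub_zero]
      rfl
    rw [e]
    exact h0
  rw [lintegral_lintegral_swap hm.aemeasurable]
  simp only [vol_rotV _ F hF, lintegral_const, measure_univ, mul_one]

theorem A3_meas (c : Fin 3 → ℝ) (F : (Fin 3 → ℝ) → ℝ≥0∞) (hF : Measurable F) :
    Measurable (A3 c F) := by
  have : IsProbabilityMeasure muQ := muQ_prob
  have h2 : Measurable fun p : (Fin 3 → ℝ) × UQ => F (c + rotV p.2 (p.1 - c)) :=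
    hF.comp ((G_Inv_m3 c).const_add c)
  exact h2.lintegral_prod_right'

theorem A3_radial (c : Fin 3 → ℝ) (F : (Fin 3 → ℝ) → ℝ≥0∞) (hF : Measurable F) (y z : Fin 3 → ℝ)
    (h : ∑ i, (y i - c i) ^ 2 = ∑ i, (z i - c i) ^ 2) : A3 c F y = A3 c F z :=
  orbit_avg (fun v => F (c + v)) (hF.comp (measurable_const.add measurable_id)) (y - c) (z - c) h

end BorelEq
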