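import Pool.Agent.Lib.MP_75103d_lc.G_Rad

/-! Part (G): kernel bounds in dimension 3. -/

set_option autoImplicit false

open MeasureTheory Set
open scoped ENNReal Quaternion

namespace BorelEq

private theorem nsq_three (v : Fin 3 → ℝ) : nsq v = v 0 ^ 2 + v 1 ^ 2 + v 2 ^ 2 := by
  rw [nsq, Fin.sum_univ_three]

private theorem phi_zero (R : ℝ) (hR : 0 < R) (f : (Fin 3 → ℝ) → ℝ≥0∞)
    (hs : ∀ v, f v ≠ 0 → ∀ i, |v i| ≤ R) (σ : ℝ) (hσ : ¬ (49 * R ^ 2 ≤ σ ∧ σ ≤ 83 * R ^ 2)) :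
    av3 ![0, 0, 8 * R] f (![0, 0, 8 * R] + ![Real.sqrt σ, 0, 0]) = 0 := by
  rw [av3, lintegral_eq_zero_of_ae_eq_zero]
  refine Filter.Eventually.of_forall fun g => ?_
  by_contra hne
  simp only [add_sub_cancel_left, Pi.zero_apply] at hne
  set y := ![0, 0, 8 * R] + rotV g ![Real.sqrt σ, 0, 0] with hy
  have h1 := hs y hne
  have h2 : nsq (y - ![0, 0, 8 * R]) = Real.sqrt σ ^ 2 := by
    rw [hy, add_sub_cancel_left, nsq_rotV, nsq_three]
    simp
  rw [nsq_three] at h2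
  simp only [Pi.sub_apply, Matrix.cons_val_zero, Matrix.cons_val_one, Matrix.cons_val, sub_zero]
    at h2
  have a0 := abs_le.1 (h1 0)
  have a1 := abs_le.1 (h1 1)
  have a2 := abs_le.1 (h1 2)
  have b0 : y 0 ^ 2 ≤ R ^ 2 := by nlinarith
  have b1 : y 1 ^ 2 ≤ R ^ 2 := by nlinarith
  have b2 : (y 2 - 8 * R) ^ 2 ≤ 81 * R ^ 2 := by nlinarith
  have b3 : 49 * R ^ 2 ≤ (y 2 - 8 * R) ^ 2 := by nlinarith
  have h3 : 0 < Real.sqrt σ ^ 2 := by
    have : 0 < R ^ 2 := by positivity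
    nlinarith [sq_nonneg (y 0), sq_nonneg (y 1)]
  have h4 : 0 < σ := by
    by_contra h5
    rw [Real.sqrt_eq_zero_of_nonpos (not_lt.1 h5)] at h3
    norm_num at h3
  rw [Real.sq_sqrt h4.le] at h2
  apply hσ
  constructor <;> nlinarith [sq_nonneg (y 0), sq_nonneg (y 1)]

/-- Kernel bounds in dimension 3.  Take `L = 8 R`, `c₁ = (L,0,0)`, `c₂ = (0,0,L)`, `δ = √2 L`.  With
`Φ σ = av3 c₂ f (c₂ + (√σ,0,0))` one has `av3 c₂ f y = Φ (nsq (y - c₂))` (`av3_dep`), `Φ σ = 0` unless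
`(3L/4)² ≤ σ ≤ (5L/4)²`, and with `ρ = |v - c₁|`
`av3 c₁ (av3 c₂ f) v = 1/(4ρδ) ∫_{(ρ-δ)²}^{(ρ+δ)²} Φ` (`av3_radial`, `affine_sub`);
it is 0 if `ρ ≤ 3L/20`; if `|v i| ≤ R` then `3L/4 ≤ ρ ≤ 5L/4` and the interval contains the support. -/
theorem kernel3 (R : ℝ) (hR : 0 < R) : ∃ (c₁ c₂ : Fin 3 → ℝ) (b C R' : ℝ),
    0 < b ∧ 0 < C ∧ R ≤ R' ∧
    ∀ f : (Fin 3 → ℝ) → ℝ≥0∞, Measurable f → (∀ v, f v ≠ 0 → ∀ i, |v i| ≤ R) →
      (∀ v, av3 c₁ (av3 c₂ f) v ≤ ENNReal.ofReal C * ∫⁻ y, f y) ∧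
      (∀ v, av3 c₁ (av3 c₂ f) v ≠ 0 → ∀ i, |v i| ≤ R') ∧
      (∀ v, (∀ i, |v i| ≤ R) → ENNReal.ofReal b * ∫⁻ y, f y ≤ av3 c₁ (av3 c₂ f) v) := by
  obtain ⟨K, hK0, hKt, hK⟩ := lint_av3
  have hKr : 0 < K.toReal := ENNReal.toReal_pos hK0 hKt
  have hKK : ENNReal.ofReal K.toReal = K := ENNReal.ofReal_toReal hKt
  set c₁ : Fin 3 → ℝ := ![8 * R, 0, 0] with hc1
  set c₂ : Fin 3 → ℝ := ![0, 0, 8 * R] with hc2
  set δ : ℝ := Real.sqrt (nsq (c₁ - c₂)) with hδ
  have hδ2 : δ ^ 2 = 128 * R ^ 2 := by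
    have h1 : nsq (c₁ - c₂) = 128 * R ^ 2 := by
      rw [nsq_three, hc1, hc2]
      simp only [Pi.sub_apply, Matrix.cons_val_zero, Matrix.cons_val_one, Matrix.cons_val]
      ring
    rw [hδ, h1, Real.sq_sqrt (by positivity)]
  have hδ0 : 0 ≤ δ := Real.sqrt_nonneg _
  have hδa : 113 / 10 * R < δ := by
    by_contra h
    have h1 := not_lt.1 h
    have h2 : δ ^ 2 ≤ (113 / 10 * R) ^ 2 := by gcongr
    have : 0 < R ^ 2 := by positivity
    nlinarith
  have hδb : δ < 12 * R := by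
    by_contra h
    have h1 := not_lt.1 h
    have h2 : (12 * R) ^ 2 ≤ δ ^ 2 := by gcongr
    have : 0 < R ^ 2 := by positivity
    nlinarith
  have hR2 : 0 < R ^ 2 := by positivity
  refine ⟨c₁, c₂, 1 / (4800 * R ^ 3 * K.toReal), 1 / (616 * R ^ 3 * K.toReal), 30 * R,
    by positivity, by positivity, by linarith, ?_⟩
  intro f hf hs
  set Φ : ℝ → ℝ≥0∞ := fun σ => av3 c₂ f (c₂ + ![Real.sqrt σ, 0, 0]) with hΦ
  have hΦm : Measurable Φ := by
    refine (av3_meas c₂ f hf).comp ?_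
    refine measurable_pi_iff.2 fun i => ?_
    fin_cases i
    · exact measurable_const.add Real.continuous_sqrt.measurable
    · exact (measurable_const : Measurable fun _ : ℝ => c₂ 1 + 0)
    · exact (measurable_const : Measurable fun _ : ℝ => c₂ 2 + 0)
  have hΦ0 : ∀ σ, ¬ (49 * R ^ 2 ≤ σ ∧ σ ≤ 83 * R ^ 2) → Φ σ = 0 :=
    fun σ h => phi_zero R hR f hs σ h
  have hrad : av3 c₂ f = fun y => Φ (nsq (y - c₂)) := by
    funext y
    exact av3_dep c₂ f hf y
  have hform : ∀ v, av3 c₁ (av3 c₂ f) v = ∫⁻ s in Ioo (0 : ℝ) 1,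
      Φ (nsq (v - c₁) + nsq (c₁ - c₂) + 2 * (Real.sqrt (nsq (v - c₁)) * δ) * (2 * s - 1)) := by
    intro v
    rw [hrad, av3_radial c₁ c₂ v Φ hΦm]
  have hnn : ∀ v : Fin 3 → ℝ, 0 ≤ nsq v := fun v => by rw [nsq_three]; positivity
  have hform2 : ∀ v, av3 c₁ (av3 c₂ f) v = ∫⁻ s in Ioo (0 : ℝ) 1,
      Φ (Real.sqrt (nsq (v - c₁)) ^ 2 + δ ^ 2 +
        2 * (Real.sqrt (nsq (v - c₁)) * δ) * (2 * s - 1)) := by
    intro v
    rw [hform v, Real.sq_sqrt (hnn _), hδ, Real.sq_sqrt (hnn _)]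
  -- the total integral of Φ
  set I : ℝ≥0∞ := ∫⁻ σ in Ioi (0 : ℝ), Φ σ with hI
  have hlow : K * ENNReal.ofReal (7 * R) * I ≤ ∫⁻ y, f y := by
    rw [hK c₂ f hf, mul_assoc, hI, ← lintegral_const_mul _ hΦm]
    refine mul_le_mul_right (lintegral_mono fun σ => ?_) _
    by_cases h : 49 * R ^ 2 ≤ σ ∧ σ ≤ 83 * R ^ 2
    · refine mul_le_mul_left (ENNReal.ofReal_le_ofReal ?_) _
      rw [Real.le_sqrt' (by positivity)]
      nlinarith [h.1]
    · rw [hΦ0 σ h, mul_zero]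
      exact zero_le
  have hup : ∫⁻ y, f y ≤ K * ENNReal.ofReal (10 * R) * I := by
    rw [hK c₂ f hf, mul_assoc, hI, ← lintegral_const_mul _ hΦm]
    refine mul_le_mul_right (lintegral_mono fun σ => ?_) _
    by_cases h : 49 * R ^ 2 ≤ σ ∧ σ ≤ 83 * R ^ 2
    · refine mul_le_mul_left (ENNReal.ofReal_le_ofReal ?_) _
      rw [Real.sqrt_le_left (by positivity)]
      nlinarith [h.2]
    · have : Φ σ = 0 := hΦ0 σ h
      show ENNReal.ofReal (Real.sqrt σ) * Φ σ ≤ _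
      rw [this, mul_zero]
      exact zero_le
  -- vanishing when ρ is small or large
  have hvan : ∀ v, (Real.sqrt (nsq (v - c₁)) ≤ 2 * R ∨ 22 * R < Real.sqrt (nsq (v - c₁))) →
      av3 c₁ (av3 c₂ f) v = 0 := by
    intro v hv
    rw [hform2 v]
    set ρ := Real.sqrt (nsq (v - c₁)) with hρ
    have hρ0 : 0 ≤ ρ := Real.sqrt_nonneg _
    rw [setLIntegral_congr_fun (g := fun _ => 0) measurableSet_Ioo, lintegral_zero]
    intro s hs
    apply hΦ0
    rintro ⟨-, h2⟩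
    have h3 : 0 ≤ ρ * δ * s := mul_nonneg (mul_nonneg hρ0 hδ0) hs.1.le
    have h4 : (ρ - δ) ^ 2 ≤ 83 * R ^ 2 := by nlinarith
    rcases hv with hv | hv
    · have h5 : 93 / 10 * R ≤ δ - ρ := by linarith
      have h6 : (93 / 10 * R) ^ 2 ≤ (δ - ρ) ^ 2 := by gcongr
      nlinarith
    · have h5 : 10 * R ≤ ρ - δ := by linarith
      have h6 : (10 * R) ^ 2 ≤ (ρ - δ) ^ 2 := by gcongr
      nlinarith
  refine ⟨?_, ?_, ?_⟩
  · intro v
    by_cases hv : Real.sqrt (nsq (v - c₁)) ≤ 2 * R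
    · rw [hvan v (Or.inl hv)]
      exact zero_le
    · have hv' := not_le.1 hv
      rw [hform2 v, affine_sub _ _ (by linarith) (by linarith) Φ hΦm]
      set ρ := Real.sqrt (nsq (v - c₁)) with hρ
      have h1 : ∫⁻ σ in Ioo ((ρ - δ) ^ 2) ((ρ + δ) ^ 2), Φ σ ≤ I := by
        refine lintegral_mono_set ?_
        intro σ hσ
        exact lt_of_le_of_lt (sq_nonneg _) hσ.1
      have h2 : 1 / (4 * ρ * δ) ≤ 1 / (88 * R ^ 2) := by
        apply one_div_le_one_div_of_le (by positivity)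
        nlinarith [mul_pos (sub_pos.2 hv') (sub_pos.2 hδa)]
      have h3 : (1 : ℝ) / (88 * R ^ 2) = 1 / (616 * R ^ 3 * K.toReal) * (K.toReal * (7 * R)) := by
        field_simp
        norm_num
      calc ENNReal.ofReal (1 / (4 * ρ * δ)) * ∫⁻ σ in Ioo ((ρ - δ) ^ 2) ((ρ + δ) ^ 2), Φ σ
          ≤ ENNReal.ofReal (1 / (88 * R ^ 2)) * I := by gcongr
        _ = ENNReal.ofReal (1 / (616 * R ^ 3 * K.toReal)) * (K * ENNReal.ofReal (7 * R) * I) := by
            have h5 : ENNReal.ofReal (K.toReal * (7 * R)) = K * ENNReal.ofReal (7 * R) := by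
              rw [ENNReal.ofReal_mul hKr.le, hKK]
            have h6 : ENNReal.ofReal (1 / (616 * R ^ 3 * K.toReal) * (K.toReal * (7 * R))) =
                ENNReal.ofReal (1 / (616 * R ^ 3 * K.toReal)) * (K * ENNReal.ofReal (7 * R)) := by
              rw [ENNReal.ofReal_mul (by positivity), h5]
            rw [h3, h6]
            ring
        _ ≤ _ := by gcongr
  · intro v hv i
    have h1 : Real.sqrt (nsq (v - c₁)) ≤ 22 * R := by
      by_contra h
      exact hv (hvan v (Or.inr (not_le.1 h)))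
    have h2 : nsq (v - c₁) ≤ (22 * R) ^ 2 := by
      rw [← Real.sq_sqrt (hnn (v - c₁))]
      gcongr
    rw [nsq_three] at h2
    have h3 : ∀ i, (v i - c₁ i) ^ 2 ≤ (22 * R) ^ 2 := by
      intro i
      fin_cases i
      · have := sq_nonneg ((v - c₁) 1)
        have := sq_nonneg ((v - c₁) 2)
        show (v - c₁) 0 ^ 2 ≤ _
        linarith
      · have := sq_nonneg ((v - c₁) 0)
        have := sq_nonneg ((v - c₁) 2)
        show (v - c₁) 1 ^ 2 ≤ _
        linarith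
      · have := sq_nonneg ((v - c₁) 0)
        have := sq_nonneg ((v - c₁) 1)
        show (v - c₁) 2 ^ 2 ≤ _
        linarith
    have h4 : |v i - c₁ i| ≤ 22 * R := abs_le_of_sq_le_sq (h3 i) (by positivity)
    have h5 : |c₁ i| ≤ 8 * R := by
      have h8 : |8 * R| = 8 * R := abs_of_pos (by positivity)
      fin_cases i
      · exact h8.le
      · show |(0 : ℝ)| ≤ 8 * R
        rw [abs_zero]; positivity
      · show |(0 : ℝ)| ≤ 8 * R
        rw [abs_zero]; positivity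
    calc |v i| = |(v i - c₁ i) + c₁ i| := by rw [sub_add_cancel]
      _ ≤ |v i - c₁ i| + |c₁ i| := abs_add_le _ _
      _ ≤ 30 * R := by linarith
  · intro v hv
    have a0 := abs_le.1 (hv 0)
    have a1 := abs_le.1 (hv 1)
    have a2 := abs_le.1 (hv 2)
    have hval : nsq (v - c₁) = (v 0 - 8 * R) ^ 2 + v 1 ^ 2 + v 2 ^ 2 := by
      rw [nsq_three, hc1]
      simp only [Pi.sub_apply, Matrix.cons_val_zero, Matrix.cons_val_one, Matrix.cons_val,
        sub_zero]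
    have b1 : v 1 ^ 2 ≤ R ^ 2 := by nlinarith
    have b2 : v 2 ^ 2 ≤ R ^ 2 := by nlinarith
    have b0 : (v 0 - 8 * R) ^ 2 ≤ 81 * R ^ 2 := by nlinarith
    have b3 : 49 * R ^ 2 ≤ (v 0 - 8 * R) ^ 2 := by nlinarith
    have hlo : 7 * R ≤ Real.sqrt (nsq (v - c₁)) := by
      rw [Real.le_sqrt' (by positivity), hval]
      nlinarith [sq_nonneg (v 1), sq_nonneg (v 2)]
    have hhi : Real.sqrt (nsq (v - c₁)) ≤ 92 / 10 * R := by
      rw [Real.sqrt_le_left (by positivity), hval]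
      nlinarith
    rw [hform2 v, affine_sub _ _ (by linarith) (by linarith) Φ hΦm]
    set ρ := Real.sqrt (nsq (v - c₁)) with hρ
    have h1 : I ≤ ∫⁻ σ in Ioo ((ρ - δ) ^ 2) ((ρ + δ) ^ 2), Φ σ := by
      rw [hI, ← lintegral_indicator measurableSet_Ioi, ← lintegral_indicator measurableSet_Ioo]
      refine lintegral_mono fun σ => ?_
      by_cases h : 49 * R ^ 2 ≤ σ ∧ σ ≤ 83 * R ^ 2
      · have h2 : σ ∈ Ioo ((ρ - δ) ^ 2) ((ρ + δ) ^ 2) := by
          constructor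
          · have h3 : (δ - ρ) ^ 2 ≤ (5 * R) ^ 2 := by
              have : 0 ≤ δ - ρ := by linarith
              gcongr
              linarith
            nlinarith [h.1]
          · have h3 : (18 * R) ^ 2 ≤ (ρ + δ) ^ 2 := by
              gcongr
              linarith
            nlinarith [h.2]
        rw [indicator_of_mem h2]
        exact indicator_le_self _ _ _
      · have h2 := hΦ0 σ h
        have h3 : (Ioi (0 : ℝ)).indicator (fun σ => Φ σ) σ = 0 := by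
          by_cases h4 : σ ∈ Ioi (0 : ℝ)
          · rw [indicator_of_mem h4]; exact h2
          · rw [indicator_of_notMem h4]
        rw [h3]
        exact zero_le
    have h2 : 1 / (480 * R ^ 2) ≤ 1 / (4 * ρ * δ) := by
      apply one_div_le_one_div_of_le (by nlinarith [mul_pos (sub_pos.2 hδa) hR])
      nlinarith [mul_nonneg (sub_nonneg.2 hhi) hδ0]
    have h3 : (1 : ℝ) / (480 * R ^ 2) = 1 / (4800 * R ^ 3 * K.toReal) * (K.toReal * (10 * R)) := by
      field_simp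
      norm_num
    calc ENNReal.ofReal (1 / (4800 * R ^ 3 * K.toReal)) * ∫⁻ y, f y
        ≤ ENNReal.ofReal (1 / (4800 * R ^ 3 * K.toReal)) * (K * ENNReal.ofReal (10 * R) * I) := by
          gcongr
      _ = ENNReal.ofReal (1 / (480 * R ^ 2)) * I := by
          have h5 : ENNReal.ofReal (K.toReal * (10 * R)) = K * ENNReal.ofReal (10 * R) := by
            rw [ENNReal.ofReal_mul hKr.le, hKK]
          have h6 : ENNReal.ofReal (1 / (4800 * R ^ 3 * K.toReal) * (K.toReal * (10 * R))) =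
              ENNReal.ofReal (1 / (4800 * R ^ 3 * K.toReal)) * (K * ENNReal.ofReal (10 * R)) := by
            rw [ENNReal.ofReal_mul (by positivity), h5]
          rw [h3, h6]
          ring
      _ ≤ _ := by gcongr

end BorelEq
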