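import Pool.Agent.Lib.MP_75103d_lc.G_Rot2

/-! Part (G): slices of the space in the directions of three coordinates. -/

set_option autoImplicit false

open MeasureTheory Set
open scoped ENNReal Quaternion

namespace BorelEq

/-- replace the coordinates `e 0, e 1, e 2` of `x` by `v` -/
noncomputable def slc {n : ℕ} (e : Fin 3 ↪ Fin n) (x : Eu n) (v : Fin 3 → ℝ) : Eu n :=
  WithLp.toLp 2 (fun j => if h : ∃ i, e i = j then v h.choose else x j)

theorem slc_apply {n : ℕ} (e : Fin 3 ↪ Fin n) (x : Eu n) (v : Fin 3 → ℝ) (i : Fin 3) :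
    slc e x v (e i) = v i := by
  have h : ∃ k, e k = e i := ⟨i, rfl⟩
  have hc : h.choose = i := e.injective h.choose_spec
  show (if h : ∃ k, e k = e i then v h.choose else x (e i)) = v i
  rw [dif_pos h, hc]

theorem slc_apply_ne {n : ℕ} (e : Fin 3 ↪ Fin n) (x : Eu n) (v : Fin 3 → ℝ) (j : Fin n)
    (hj : ∀ i, e i ≠ j) : slc e x v j = x j := by
  have h : ¬ ∃ k, e k = j := fun ⟨i, hi⟩ => hj i hi
  show (if h : ∃ k, e k = j then v h.choose else x j) = x j
  rw [dif_neg h]

theorem slc_meas {n : ℕ} (e : Fin 3 ↪ Fin n) (x : Eu n) : Measurable (slc e x) := by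
  unfold slc
  refine (PiLp.continuous_toLp 2 (fun _ : Fin n => ℝ)).measurable.comp ?_
  refine measurable_pi_iff.mpr fun j => ?_
  by_cases h : ∃ i, e i = j
  · simp only [dif_pos h]
    exact measurable_pi_apply _
  · simp only [dif_neg h]
    exact measurable_const

theorem avg_meas' {n : ℕ} (α : MAct UQ (Eu n)) (f : Eu n → ℝ≥0∞) (hf : Measurable f) :
    Measurable (avg α f) := by
  unfold avg
  exact Measurable.lintegral_prod_left' (f := fun p : UQ × Eu n => f (α.a p.1 p.2))
    (hf.comp α.meas)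

theorem avgs_meas {n : ℕ} (L : List ((Fin 3 ↪ Fin n) × Eu n)) (f : Eu n → ℝ≥0∞)
    (hf : Measurable f) : Measurable (avgs L f) := by
  induction L with
  | nil => exact hf
  | cons q L ih => exact avg_meas' (rotA q.1 q.2) (avgs L f) ih

theorem avg_slc {n : ℕ} (e : Fin 3 ↪ Fin n) (p : Eu n) (f : Eu n → ℝ≥0∞) (x : Eu n) :
    avg (rotA e p) f x = av3 (fun i => p (e i)) (fun v => f (slc e x v)) (fun i => x (e i)) := by
  unfold avg av3
  refine lintegral_congr fun g => ?_
  congr 1
  show rotE e p g x = slc e x _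
  unfold rotE slc
  congr 1
  funext j
  by_cases h : ∃ i, e i = j
  · rw [dif_pos h, dif_pos h]
    have h2 : p (e h.choose) = p j := by rw [h.choose_spec]
    show p j + _ = p (e h.choose) + _
    rw [h2]
    rfl
  · rw [dif_neg h, dif_neg h]

theorem G_Lift_slc_slc {n : ℕ} (e : Fin 3 ↪ Fin n) (x : Eu n) (v w : Fin 3 → ℝ) :
    slc e (slc e x v) w = slc e x w := by
  unfold slc
  congr 1
  funext j
  by_cases h : ∃ i, e i = j
  · rw [dif_pos h, dif_pos h]
  · rw [dif_neg h, dif_neg h]
    show (if h : ∃ k, e k = j then v h.choose else x j) = x j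
    rw [dif_neg h]

theorem avg2_slc {n : ℕ} (e : Fin 3 ↪ Fin n) (p q : Eu n) (f : Eu n → ℝ≥0∞) (x : Eu n) :
    avg (rotA e p) (avg (rotA e q) f) x =
      av3 (fun i => p (e i)) (av3 (fun i => q (e i)) (fun v => f (slc e x v)))
        (fun i => x (e i)) := by
  rw [avg_slc]
  congr 1
  funext v
  rw [avg_slc]
  have h1 : (fun i => (slc e x v) (e i)) = v := by
    funext i
    exact slc_apply e x v i
  rw [h1]
  congr 1
  funext w
  rw [G_Lift_slc_slc]

end BorelEq
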