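import Pool.Agent.Lib.MP_75103d_lc.G_Lift

/-! Part (G): integrals over the first coordinates. -/

set_option autoImplicit false

open MeasureTheory Set
open scoped ENNReal Quaternion

namespace BorelEq

/-- integral over the coordinates `0, …, m` -/
noncomputable def Jm {n : ℕ} (m : ℕ) (f : Eu n → ℝ≥0∞) (x : Eu n) : ℝ≥0∞ :=
  lmarginal (fun _ : Fin n => (volume : Measure ℝ)) (Finset.univ.filter (fun j : Fin n => j.val ≤ m))
    (fun y : Fin n → ℝ => f (WithLp.toLp 2 y)) (WithLp.ofLp x)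

/-- the embedding `(0, 1, c)` -/
def emb01 {n : ℕ} (c : Fin n) (hc : 2 ≤ c.val) : Fin 3 ↪ Fin n where
  toFun := ![⟨0, by omega⟩, ⟨1, by omega⟩, c]
  inj' := by
    intro i j h
    fin_cases i <;> fin_cases j <;> simp_all [Fin.ext_iff] <;> omega

private theorem lint_fin3 (g : (Fin 3 → ℝ) → ℝ≥0∞) (hg : Measurable g) :
    ∫⁻ v : Fin 3 → ℝ, g v = ∫⁻ a : ℝ, ∫⁻ b : ℝ, ∫⁻ c : ℝ, g ![a, b, c] := by
  have h1 : ∫⁻ v : Fin 3 → ℝ, g v =
      (lmarginal (fun _ : Fin 3 => (volume : Measure ℝ)) Finset.univ g) 0 :=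
    lintegral_eq_lmarginal_univ (μ := fun _ : Fin 3 => (volume : Measure ℝ)) 0
  have h2 : (Finset.univ : Finset (Fin 3)) = insert 0 (insert 1 {2}) := by decide
  rw [h1, h2, lmarginal_insert _ hg (by decide)]
  refine lintegral_congr fun a => ?_
  rw [lmarginal_insert _ hg (by decide)]
  refine lintegral_congr fun b => ?_
  rw [lmarginal_singleton]
  refine lintegral_congr fun c => ?_
  congr 1
  ext i
  fin_cases i <;> simp [Function.update]

private theorem lint_if (a : ℝ) (ha : 0 < a) (K : ℝ≥0∞) :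
    ∫⁻ t : ℝ, (if |t| ≤ a then K else 0) = ENNReal.ofReal (2 * a) * K := by
  have h1 : (fun t : ℝ => if |t| ≤ a then K else 0) = (Icc (-a) a).indicator (fun _ => K) := by
    funext t
    by_cases h : |t| ≤ a
    · have h2 : t ∈ Icc (-a) a := abs_le.1 h
      rw [if_pos h, indicator_of_mem h2]
    · have h2 : t ∉ Icc (-a) a := fun h' => h (abs_le.2 h')
      rw [if_neg h, indicator_of_notMem h2]
  rw [h1, lintegral_indicator measurableSet_Icc, setLIntegral_const, Real.volume_Icc, mul_comm]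
  congr 2
  ring

/-- `∫_{ℝ³} 1{|v₀| ≤ a} 1{|v₁| ≤ a} u(v₂) = (2a)² ∫ u` -/
theorem int3 (a : ℝ) (ha : 0 < a) (u : ℝ → ℝ≥0∞) (hu : Measurable u) :
    ∫⁻ v : Fin 3 → ℝ, (if |v 0| ≤ a ∧ |v 1| ≤ a then u (v 2) else 0) =
      ENNReal.ofReal ((2 * a) ^ 2) * ∫⁻ t, u t := by
  have hm : Measurable (fun v : Fin 3 → ℝ => (if |v 0| ≤ a ∧ |v 1| ≤ a then u (v 2) else 0)) := by
    refine Measurable.ite ?_ (hu.comp (measurable_pi_apply 2)) measurable_const
    have e0 : Measurable fun v : Fin 3 → ℝ => |v 0| := (measurable_pi_apply 0).abs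
    have e1 : Measurable fun v : Fin 3 → ℝ => |v 1| := (measurable_pi_apply 1).abs
    exact (measurableSet_le e0 measurable_const).inter (measurableSet_le e1 measurable_const)
  rw [lint_fin3 _ hm]
  have h1 : ∀ x y : ℝ, ∫⁻ c : ℝ, (fun v : Fin 3 → ℝ =>
      (if |v 0| ≤ a ∧ |v 1| ≤ a then u (v 2) else 0)) ![x, y, c] =
      if |y| ≤ a then (if |x| ≤ a then ∫⁻ t, u t else 0) else 0 := by
    intro x y
    by_cases hx : |x| ≤ a <;> by_cases hy : |y| ≤ a <;> simp [hx, hy]
  simp_rw [h1, lint_if a ha]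
  have h2 : ∀ x : ℝ, ENNReal.ofReal (2 * a) * (if |x| ≤ a then ∫⁻ t, u t else 0) =
      if |x| ≤ a then ENNReal.ofReal (2 * a) * ∫⁻ t, u t else 0 := by
    intro x
    by_cases hx : |x| ≤ a <;> simp [hx]
  simp_rw [h2, lint_if a ha]
  have h4 : (0 : ℝ) ≤ 2 * a := by positivity
  rw [← mul_assoc, pow_two, ENNReal.ofReal_mul h4]

theorem Jm_two {n : ℕ} (hn : 2 < n) (f : Eu n → ℝ≥0∞) (hf : Measurable f) (x : Eu n) :
    Jm 2 f x = ∫⁻ v : Fin 3 → ℝ, f (slc (emb01 ⟨2, hn⟩ le_rfl) x v) := by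
  have hg : Measurable (fun y : Fin n → ℝ => f (WithLp.toLp 2 y)) :=
    hf.comp (MeasurableEquiv.toLp 2 (Fin n → ℝ)).measurable
  have h0 : 0 < n := by omega
  have h1 : 1 < n := by omega
  have hs : (Finset.univ.filter (fun j : Fin n => j.val ≤ 2)) =
      insert ⟨0, h0⟩ (insert ⟨1, h1⟩ {⟨2, hn⟩}) := by
    ext j
    simp only [Finset.mem_filter, Finset.mem_univ, true_and, Finset.mem_insert,
      Finset.mem_singleton, Fin.ext_iff]
    omega
  rw [lint_fin3 (fun v => f (slc (emb01 ⟨2, hn⟩ le_rfl) x v)) (hf.comp (slc_meas _ x)), Jm, hs,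
    lmarginal_insert _ hg (by simp [Fin.ext_iff])]
  refine lintegral_congr fun a => ?_
  rw [lmarginal_insert _ hg (by simp [Fin.ext_iff])]
  refine lintegral_congr fun b => ?_
  rw [lmarginal_singleton]
  refine lintegral_congr fun c => ?_
  congr 1
  set e := emb01 (⟨2, hn⟩ : Fin n) le_rfl with he
  have e0 : e 0 = ⟨0, h0⟩ := rfl
  have e1 : e 1 = ⟨1, h1⟩ := rfl
  have e2 : e 2 = ⟨2, hn⟩ := rfl
  ext j
  by_cases hj2 : j = ⟨2, hn⟩
  · subst hj2
    have := slc_apply e x ![a, b, c] 2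
    rw [e2] at this
    rw [this]
    simp
  · by_cases hj1 : j = ⟨1, h1⟩
    · subst hj1
      have := slc_apply e x ![a, b, c] 1
      rw [e1] at this
      rw [this]
      simp [Function.update_of_ne hj2]
    · by_cases hj0 : j = ⟨0, h0⟩
      · subst hj0
        have := slc_apply e x ![a, b, c] 0
        rw [e0] at this
        rw [this]
        simp [Function.update_of_ne hj2, Function.update_of_ne hj1]
      · rw [slc_apply_ne e x _ j]
        · simp [Function.update_of_ne hj2, Function.update_of_ne hj1, Function.update_of_ne hj0]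
        · intro i
          fin_cases i
          · exact fun h => hj0 (h.symm.trans e0)
          · exact fun h => hj1 (h.symm.trans e1)
          · exact fun h => hj2 (h.symm.trans e2)

theorem Jm_succ {n : ℕ} (m : ℕ) (hm : m + 1 < n) (f : Eu n → ℝ≥0∞) (hf : Measurable f) (x : Eu n) :
    Jm (m + 1) f x =
      ∫⁻ t, Jm m f (WithLp.toLp 2 (Function.update (WithLp.ofLp x) ⟨m + 1, hm⟩ t)) := by
  have hg : Measurable (fun y : Fin n → ℝ => f (WithLp.toLp 2 y)) :=
    hf.comp (MeasurableEquiv.toLp 2 (Fin n → ℝ)).measurable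
  have hs : (Finset.univ.filter (fun j : Fin n => j.val ≤ m + 1)) =
      insert ⟨m + 1, hm⟩ (Finset.univ.filter (fun j : Fin n => j.val ≤ m)) := by
    ext j
    simp only [Finset.mem_filter, Finset.mem_univ, true_and, Finset.mem_insert, Fin.ext_iff]
    omega
  rw [Jm, hs, lmarginal_insert _ hg (by simp)]
  rfl

/-- `Jm m f` does not depend on the coordinates `0, …, m` -/
theorem Jm_congr {n : ℕ} (m : ℕ) (f : Eu n → ℝ≥0∞) (x y : Eu n)
    (h : ∀ j : Fin n, m < j.val → x j = y j) : Jm m f x = Jm m f y := by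
  refine lmarginal_congr _ _ ?_
  intro i hi
  refine h i ?_
  simpa using hi

theorem Jm_meas {n : ℕ} (m : ℕ) (f : Eu n → ℝ≥0∞) (hf : Measurable f) : Measurable (Jm m f) := by
  have hg : Measurable (fun y : Fin n → ℝ => f (WithLp.toLp 2 y)) :=
    hf.comp (MeasurableEquiv.toLp 2 (Fin n → ℝ)).measurable
  exact (Measurable.lmarginal _ hg).comp (MeasurableEquiv.toLp 2 (Fin n → ℝ)).symm.measurable

theorem Jm_last {n : ℕ} (hn : 0 < n) (f : Eu n → ℝ≥0∞) (x : Eu n) :
    Jm (n - 1) f x = ∫⁻ y, f y := by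
  have hs : (Finset.univ.filter (fun j : Fin n => j.val ≤ n - 1)) = Finset.univ := by
    ext j
    simp only [Finset.mem_filter, Finset.mem_univ, true_and, iff_true]
    omega
  rw [Jm, hs, lmarginal_univ]
  exact (PiLp.volume_preserving_toLp (Fin n)).lintegral_comp_emb
    (MeasurableEquiv.toLp 2 (Fin n → ℝ)).measurableEmbedding f

end BorelEq
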