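import Pool.Agent.Lib.MP_75103d_lc.G_Defs

/-! Part (G): polar coordinates. -/

set_option autoImplicit false

open MeasureTheory Set
open scoped ENNReal Quaternion

namespace BorelEq

/-- polar coordinates -/
theorem G_Polar_gen (E : Type*) [NormedAddCommGroup E] [NormedSpace ℝ E] [FiniteDimensional ℝ E]
    [MeasurableSpace E] [BorelSpace E] [Nontrivial E] (μ : Measure E) [μ.IsAddHaarMeasure]
    (F : E → ℝ≥0∞) (hF : Measurable F) :
    ∫⁻ x, F x ∂μ = ∫⁻ u : Metric.sphere (0 : E) 1, (∫⁻ r in Ioi (0 : ℝ),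
      ENNReal.ofReal (r ^ (Module.finrank ℝ E - 1)) * F (r • (u : E))) ∂μ.toSphere := by
  have hcont : Continuous (fun p : Metric.sphere (0 : E) 1 × Ioi (0 : ℝ) =>
      (p.2 : ℝ) • (p.1 : E)) :=
    (continuous_subtype_val.comp continuous_snd).smul (continuous_subtype_val.comp continuous_fst)
  have hg : Measurable (fun p : Metric.sphere (0 : E) 1 × Ioi (0 : ℝ) =>
      F ((p.2 : ℝ) • (p.1 : E))) := hF.comp hcont.measurable
  have h1 : ∫⁻ x, F x ∂μ = ∫⁻ x : ({0}ᶜ : Set E), F x ∂(μ.comap (↑)) := by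
    rw [lintegral_subtype_comap (measurableSet_singleton _).compl, restrict_compl_singleton]
  have h2 := μ.measurePreserving_homeomorphUnitSphereProd.lintegral_comp hg
  have h3 : ∀ x : ({0}ᶜ : Set E), F ((((homeomorphUnitSphereProd E) x).2 : ℝ) •
      (((homeomorphUnitSphereProd E) x).1 : E)) = F x := by
    intro x
    congr 1
    have h4 : ‖(x : E)‖ ≠ 0 := by
      rw [norm_ne_zero_iff]
      exact x.2
    rw [homeomorphUnitSphereProd_apply_snd_coe, homeomorphUnitSphereProd_apply_fst_coe, smul_smul,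
      mul_inv_cancel₀ h4, one_smul]
  simp only [h3] at h2
  rw [h1, h2, lintegral_prod _ hg.aemeasurable]
  apply lintegral_congr
  intro u
  have hm1 : Measurable (fun r : Ioi (0 : ℝ) =>
      ENNReal.ofReal ((r : ℝ) ^ (Module.finrank ℝ E - 1))) :=
    (measurable_subtype_coe.pow_const _).ennreal_ofReal
  have hm2 : Measurable (fun r : Ioi (0 : ℝ) => F ((r : ℝ) • (u : E))) :=
    hg.comp (measurable_const.prodMk measurable_id)
  unfold Measure.volumeIoiPow
  rw [lintegral_withDensity_eq_lintegral_mul _ hm1 hm2]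
  exact lintegral_subtype_comap measurableSet_Ioi
    (fun r : ℝ => ENNReal.ofReal (r ^ (Module.finrank ℝ E - 1)) * F (r • (u : E)))

/-- polar coordinates for functions of the norm
(`Measure.measurePreserving_homeomorphUnitSphereProd`) -/
theorem polar_norm (E : Type*) [NormedAddCommGroup E] [NormedSpace ℝ E] [FiniteDimensional ℝ E]
    [MeasurableSpace E] [BorelSpace E] [Nontrivial E] (μ : Measure E) [μ.IsAddHaarMeasure]
    (Φ : ℝ → ℝ≥0∞) (hΦ : Measurable Φ) :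
    ∫⁻ x, Φ ‖x‖ ∂μ = μ.toSphere univ *
      ∫⁻ r in Ioi (0 : ℝ), ENNReal.ofReal (r ^ (Module.finrank ℝ E - 1)) * Φ r := by
  rw [G_Polar_gen E μ (fun x => Φ ‖x‖) (hΦ.comp measurable_norm)]
  have h1 : ∀ u : Metric.sphere (0 : E) 1, ∫⁻ r in Ioi (0 : ℝ),
      ENNReal.ofReal (r ^ (Module.finrank ℝ E - 1)) * Φ ‖r • (u : E)‖ =
      ∫⁻ r in Ioi (0 : ℝ), ENNReal.ofReal (r ^ (Module.finrank ℝ E - 1)) * Φ r := by
    intro u
    apply setLIntegral_congr_fun measurableSet_Ioi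
    intro r hr
    have h2 : ‖(u : E)‖ = 1 := mem_sphere_zero_iff_norm.mp u.2
    show _ * Φ ‖r • (u : E)‖ = _ * Φ r
    rw [norm_smul, h2, mul_one, Real.norm_of_nonneg (le_of_lt hr)]
  simp only [h1]
  rw [lintegral_const, mul_comm]

/-- polar coordinates for functions of the direction -/
theorem polar_dir : ∃ K : ℝ≥0∞, K ≠ 0 ∧ K ≠ ⊤ ∧ ∀ H : ℍ[ℝ] → ℝ≥0∞, Measurable H →
    (∀ (r : ℝ) (q : ℍ[ℝ]), 0 < r → H (r • q) = H q) →
    ∫⁻ q in Metric.ball (0 : ℍ[ℝ]) 1, H q = K * ∫⁻ g : UQ, H (g : ℍ[ℝ]) ∂muQ := by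
  have hS0 : (volume : Measure ℍ[ℝ]).toSphere univ ≠ 0 := by
    rw [Ne, Measure.measure_univ_eq_zero]
    exact Measure.toSphere_ne_zero _
  have hS1 : (volume : Measure ℍ[ℝ]).toSphere univ ≠ ⊤ := measure_ne_top _ _
  obtain ⟨c, hc⟩ : ∃ c : ℝ≥0∞, c = ∫⁻ r in Ioi (0 : ℝ),
      ENNReal.ofReal (r ^ (Module.finrank ℝ ℍ[ℝ] - 1)) * (Iio (1 : ℝ)).indicator 1 r := ⟨_, rfl⟩
  have key : ∀ H : ℍ[ℝ] → ℝ≥0∞, Measurable H →
      (∀ (r : ℝ) (q : ℍ[ℝ]), 0 < r → H (r • q) = H q) →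
      ∫⁻ q in Metric.ball (0 : ℍ[ℝ]) 1, H q =
        c * ∫⁻ g : UQ, H (g : ℍ[ℝ]) ∂(volume : Measure ℍ[ℝ]).toSphere := by
    intro H hH hr
    rw [← lintegral_indicator Metric.isOpen_ball.measurableSet,
      G_Polar_gen ℍ[ℝ] volume _ (hH.indicator Metric.isOpen_ball.measurableSet)]
    have h1 : ∀ u : UQ, ∫⁻ r in Ioi (0 : ℝ),
        ENNReal.ofReal (r ^ (Module.finrank ℝ ℍ[ℝ] - 1)) *
          (Metric.ball (0 : ℍ[ℝ]) 1).indicator H (r • (u : ℍ[ℝ])) = c * H (u : ℍ[ℝ]) := by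
      intro u
      have hm : Measurable (fun r : ℝ => ENNReal.ofReal (r ^ (Module.finrank ℝ ℍ[ℝ] - 1)) *
          (Iio (1 : ℝ)).indicator (1 : ℝ → ℝ≥0∞) r) :=
        (measurable_id.pow_const _).ennreal_ofReal.mul (measurable_one.indicator measurableSet_Iio)
      rw [hc, ← lintegral_mul_const _ hm]
      apply setLIntegral_congr_fun measurableSet_Ioi
      intro r hr0
      have h2 : ‖(u : ℍ[ℝ])‖ = 1 := mem_sphere_zero_iff_norm.mp u.2
      have h3 : ‖r • (u : ℍ[ℝ])‖ = r := by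
        rw [norm_smul, h2, mul_one, Real.norm_of_nonneg (le_of_lt hr0)]
      show _ * (Metric.ball (0 : ℍ[ℝ]) 1).indicator H (r • (u : ℍ[ℝ])) =
        _ * (Iio (1 : ℝ)).indicator (1 : ℝ → ℝ≥0∞) r * H (u : ℍ[ℝ])
      by_cases h4 : r < 1
      · have h5 : r • (u : ℍ[ℝ]) ∈ Metric.ball (0 : ℍ[ℝ]) 1 := by
          rw [mem_ball_zero_iff, h3]
          exact h4
        rw [indicator_of_mem h5, indicator_of_mem (show r ∈ Iio (1 : ℝ) from h4), hr r _ hr0,
          Pi.one_apply, mul_one]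
      · have h5 : r • (u : ℍ[ℝ]) ∉ Metric.ball (0 : ℍ[ℝ]) 1 := by
          rw [mem_ball_zero_iff, h3]
          exact h4
        rw [indicator_of_notMem h5, indicator_of_notMem (show r ∉ Iio (1 : ℝ) from h4)]
        simp
    simp only [h1]
    exact lintegral_const_mul (μ := (volume : Measure ℍ[ℝ]).toSphere) c
      (f := fun u : UQ => H (u : ℍ[ℝ])) (hH.comp measurable_subtype_coe)
  have hK : volume (Metric.ball (0 : ℍ[ℝ]) 1) = c * (volume : Measure ℍ[ℝ]).toSphere univ := by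
    have h1 := key (fun _ => 1) measurable_const (fun _ _ _ => rfl)
    simpa using h1
  refine ⟨volume (Metric.ball (0 : ℍ[ℝ]) 1), ?_, measure_ball_lt_top.ne, ?_⟩
  · exact (Metric.measure_ball_pos _ _ one_pos).ne'
  · intro H hH hr
    rw [key H hH hr, hK]
    unfold muQ
    rw [lintegral_smul_measure, smul_eq_mul, mul_assoc, ← mul_assoc _ _⁻¹,
      ENNReal.mul_inv_cancel hS0 hS1, one_mul]

end BorelEq
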