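import Pool.Agent.Lib.MP_75103d_lc.G_Act
import Pool.Agent.Lib.MP_75103d_lc.G_Inv

/-! Part (G): from R^n to three coordinates. -/

set_option autoImplicit false

open MeasureTheory Set
open scoped ENNReal Quaternion

namespace BorelEq

theorem put_same {n : ℕ} (e : Fin 3 ↪ Fin n) (x : Fin n → ℝ) (y : Fin 3 → ℝ) (i : Fin 3) :
    put e x y (e i) = y i := by
  have h : ∃ k, e k = e i := ⟨i, rfl⟩
  unfold put
  rw [dif_pos h]
  congr 1
  exact e.injective h.choose_spec

theorem put_other {n : ℕ} (e : Fin 3 ↪ Fin n) (x : Fin n → ℝ) (y : Fin 3 → ℝ) (j : Fin n)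
    (h : ∀ i, e i ≠ j) : put e x y j = x j := by
  have h' : ¬ ∃ i, e i = j := fun ⟨i, hi⟩ => h i hi
  unfold put
  rw [dif_neg h']

theorem put_put {n : ℕ} (e : Fin 3 ↪ Fin n) (x : Fin n → ℝ) (y z : Fin 3 → ℝ) :
    put e (put e x y) z = put e x z := by
  funext j
  by_cases h : ∃ i, e i = j
  · obtain ⟨i, rfl⟩ := h
    rw [put_same, put_same]
  · push Not at h
    rw [put_other e _ z j h, put_other e x z j h, put_other e x y j h]

theorem put_meas {n : ℕ} (e : Fin 3 ↪ Fin n) :
    Measurable (fun p : (Fin n → ℝ) × (Fin 3 → ℝ) => put e p.1 p.2) := by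
  rw [measurable_pi_iff]
  intro j
  by_cases h : ∃ i, e i = j
  · obtain ⟨i, rfl⟩ := h
    simp only [put_same]
    exact (measurable_pi_apply i).comp measurable_snd
  · push Not at h
    simp only [fun (p : (Fin n → ℝ) × (Fin 3 → ℝ)) => put_other e p.1 p.2 j h]
    exact (measurable_pi_apply j).comp measurable_fst

theorem avg_meas' {n : ℕ} (α : MAct UQ (Eu n)) (f : Eu n → ℝ≥0∞) (hf : Measurable f) :
    Measurable (avg α f) := by
  have := muQ_prob
  have h : Measurable fun q : Eu n × UQ => f (α.a q.2 q.1) :=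
    hf.comp (α.meas.comp measurable_swap)
  exact h.lintegral_prod_right'

theorem avgs_meas {n : ℕ} (L : List ((Fin 3 ↪ Fin n) × Eu n)) (f : Eu n → ℝ≥0∞)
    (hf : Measurable f) : Measurable (avgs L f) := by
  induction L with
  | nil => exact hf
  | cons q L ih =>
    show Measurable (avg (rotA q.1 q.2) (avgs L f))
    exact avg_meas' _ _ ih

/-- the rotation in coordinates -/
theorem G_Put_rot {n : ℕ} (e : Fin 3 ↪ Fin n) (p x : Fin n → ℝ) (g : UQ) :
    rotE e (WithLp.toLp 2 p) g (WithLp.toLp 2 x) = WithLp.toLp 2 (put e x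
      ((fun i => p (e i)) + rotV g ((fun i => x (e i)) - (fun i => p (e i))))) := by
  unfold rotE
  congr 1
  funext j
  by_cases h : ∃ i, e i = j
  · rw [dif_pos h]
    unfold put
    rw [dif_pos h]
    have h1 := h.choose_spec
    rw [Pi.add_apply]
    congr 1
    show p j = p (e h.choose)
    rw [h1]
  · rw [dif_neg h]
    unfold put
    rw [dif_neg h]

theorem avg_put {n : ℕ} (e : Fin 3 ↪ Fin n) (p x : Fin n → ℝ) (f : Eu n → ℝ≥0∞) :
    avg (rotA e (WithLp.toLp 2 p)) f (WithLp.toLp 2 x) =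
      A3 (fun i => p (e i)) (fun y => f (WithLp.toLp 2 (put e x y))) (fun i => x (e i)) := by
  unfold avg A3
  refine lintegral_congr fun g => ?_
  show f (rotE e (WithLp.toLp 2 p) g (WithLp.toLp 2 x)) = _
  rw [G_Put_rot]

theorem avg_avg_put {n : ℕ} (e : Fin 3 ↪ Fin n) (p1 p2 x : Fin n → ℝ) (f : Eu n → ℝ≥0∞) :
    avg (rotA e (WithLp.toLp 2 p1)) (avg (rotA e (WithLp.toLp 2 p2)) f) (WithLp.toLp 2 x) =
      A3 (fun i => p1 (e i)) (A3 (fun i => p2 (e i)) (fun y => f (WithLp.toLp 2 (put e x y))))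
        (fun i => x (e i)) := by
  rw [avg_put]
  congr 1
  funext y
  rw [avg_put]
  have h1 : (fun i => put e x y (e i)) = y := by
    funext i
    exact put_same e x y i
  rw [h1]
  congr 1
  funext z
  rw [put_put]

end BorelEq
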