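import Pool.Agent.Lib.MP_75103d_lc.G_Arch3

/-! Part (G): averages over spheres. -/

set_option autoImplicit false

open MeasureTheory Set
open scoped ENNReal Quaternion

namespace BorelEq

/-- affine substitution `σ = ρ² + δ² + 2ρδ(2s-1)` -/
theorem affine_sub (ρ δ : ℝ) (hρ : 0 < ρ) (hδ : 0 < δ) (Φ : ℝ → ℝ≥0∞) (hΦ : Measurable Φ) :
    ∫⁻ s in Ioo (0 : ℝ) 1, Φ (ρ ^ 2 + δ ^ 2 + 2 * (ρ * δ) * (2 * s - 1)) =
      ENNReal.ofReal (1 / (4 * ρ * δ)) * ∫⁻ σ in Ioo ((ρ - δ) ^ 2) ((ρ + δ) ^ 2), Φ σ := by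
  have hpos : 0 < 4 * ρ * δ := by positivity
  have himg : (fun s : ℝ => ρ ^ 2 + δ ^ 2 + 2 * (ρ * δ) * (2 * s - 1)) '' Ioo (0 : ℝ) 1 =
      Ioo ((ρ - δ) ^ 2) ((ρ + δ) ^ 2) := by
    ext σ
    constructor
    · rintro ⟨s, ⟨h0, h1⟩, rfl⟩
      constructor
      · simp only
        nlinarith [mul_pos hpos h0]
      · simp only
        nlinarith [mul_pos hpos (sub_pos.2 h1)]
    · rintro ⟨h0, h1⟩
      refine ⟨(σ - (ρ - δ) ^ 2) / (4 * ρ * δ), ⟨?_, ?_⟩, ?_⟩
      · exact div_pos (sub_pos.2 h0) hpos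
      · rw [div_lt_one hpos]
        nlinarith
      · field_simp
        ring
  have h := lintegral_image_eq_lintegral_abs_deriv_mul (s := Ioo (0 : ℝ) 1) measurableSet_Ioo
    (f := fun s : ℝ => ρ ^ 2 + δ ^ 2 + 2 * (ρ * δ) * (2 * s - 1)) (f' := fun _ => 4 * ρ * δ)
    (fun s _ => by
      have h1 : HasDerivAt (fun s : ℝ => ρ ^ 2 + δ ^ 2 + 2 * (ρ * δ) * (2 * s - 1))
          (2 * (ρ * δ) * (2 * 1)) s :=
        ((((hasDerivAt_id s).const_mul 2).sub_const 1).const_mul (2 * (ρ * δ))).const_add _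
      have h2 : 2 * (ρ * δ) * (2 * 1) = 4 * ρ * δ := by ring
      rw [h2] at h1
      exact h1.hasDerivWithinAt)
    (fun a _ b _ hab => by
      simp only at hab
      have h3 : (4 * ρ * δ) * a = (4 * ρ * δ) * b := by linarith
      exact mul_left_cancel₀ hpos.ne' h3) Φ
  rw [himg] at h
  rw [h, abs_of_pos hpos, lintegral_const_mul' _ _ ENNReal.ofReal_ne_top,
    ← mul_assoc (ENNReal.ofReal (1 / (4 * ρ * δ))), ← ENNReal.ofReal_mul (by positivity), one_div,
    inv_mul_cancel₀ hpos.ne', ENNReal.ofReal_one, one_mul]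

private theorem G_Rad_cont (c : Fin 3 → ℝ) :
    Continuous (fun p : (Fin 3 → ℝ) × UQ => c + rotV p.2 (p.1 - c)) := by
  have h := continuous_rotV.comp
    (show Continuous (fun p : (Fin 3 → ℝ) × UQ => (p.2, p.1 - c)) by fun_prop)
  exact continuous_const.add h

private theorem G_Rad_meas (c : Fin 3 → ℝ) (f : (Fin 3 → ℝ) → ℝ≥0∞) (hf : Measurable f) :
    Measurable (fun p : (Fin 3 → ℝ) × UQ => f (c + rotV p.2 (p.1 - c))) :=
  hf.comp (G_Rad_cont c).measurable

/-- the average over the sphere depends only on the distance to the centre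
(`rotV_trans` and right invariance) -/
theorem av3_dep (c : Fin 3 → ℝ) (f : (Fin 3 → ℝ) → ℝ≥0∞) (hf : Measurable f) (x : Fin 3 → ℝ) :
    av3 c f x = av3 c f (c + ![Real.sqrt (nsq (x - c)), 0, 0]) := by
  obtain ⟨h, hh⟩ := rotV_trans (x - c)
  unfold av3
  rw [add_sub_cancel_left]
  have h1 : ∀ g : UQ, f (c + rotV g (x - c)) =
      (fun g : UQ => f (c + rotV g ![Real.sqrt (nsq (x - c)), 0, 0])) (g * h) := by
    intro g
    simp only
    rw [rotV_mul, hh]
  rw [lintegral_congr h1]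
  refine (muQ_right h).lintegral_comp
    (f := fun g : UQ => f (c + rotV g ![Real.sqrt (nsq (x - c)), 0, 0])) ?_
  have h2 := (G_Rad_meas c f hf).comp
    (measurable_prodMk_left (x := c + ![Real.sqrt (nsq (x - c)), 0, 0]) (β := UQ))
  have h3 : (fun g : UQ => f (c + rotV g ![Real.sqrt (nsq (x - c)), 0, 0])) =
      (fun p : (Fin 3 → ℝ) × UQ => f (c + rotV p.2 (p.1 - c))) ∘
        Prod.mk (c + ![Real.sqrt (nsq (x - c)), 0, 0]) := by
    funext g
    simp only [Function.comp_apply, add_sub_cancel_left]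
  rw [h3]
  exact h2

theorem av3_meas (c : Fin 3 → ℝ) (f : (Fin 3 → ℝ) → ℝ≥0∞) (hf : Measurable f) :
    Measurable (av3 c f) :=
  (G_Rad_meas c f hf).lintegral_prod_right'

private theorem G_Rad_zero (g : UQ) : rotV g 0 = 0 := by
  have h := rotV_sub g 0 0
  simpa using h

private theorem G_Rad_norm (v : Fin 3 → ℝ) :
    ‖(WithLp.toLp 2 v : EuclideanSpace ℝ (Fin 3))‖ = Real.sqrt (nsq v) := by
  rw [EuclideanSpace.norm_eq]
  congr 1
  unfold nsq
  refine Finset.sum_congr rfl fun i _ => ?_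
  simp [sq_abs]

/-- the rotation as an isometry of the Euclidean space -/
private noncomputable def G_Rad_iso (g : UQ) :
    EuclideanSpace ℝ (Fin 3) ≃ᵢ EuclideanSpace ℝ (Fin 3) where
  toFun x := WithLp.toLp 2 (rotV g (WithLp.ofLp x))
  invFun x := WithLp.toLp 2 (rotV g⁻¹ (WithLp.ofLp x))
  left_inv x := by
    simp only
    rw [← rotV_mul, inv_mul_cancel, rotV_one]
  right_inv x := by
    simp only
    rw [← rotV_mul, mul_inv_cancel, rotV_one]
  isometry_toFun := by
    refine Isometry.of_dist_eq fun x y => ?_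
    rw [dist_eq_norm, dist_eq_norm, ← WithLp.toLp_sub, ← rotV_sub, G_Rad_norm, nsq_rotV,
      ← G_Rad_norm]
    rfl

private theorem G_Rad_rot (g : UQ) : MeasurePreserving (rotV g) volume volume := by
  have h0 : G_Rad_iso g 0 = 0 := by
    change WithLp.toLp 2 (rotV g (WithLp.ofLp (0 : EuclideanSpace ℝ (Fin 3)))) = 0
    have : WithLp.ofLp (0 : EuclideanSpace ℝ (Fin 3)) = 0 := rfl
    rw [this, G_Rad_zero]
    rfl
  have h1 := ((G_Rad_iso g).toRealLinearIsometryEquivOfMapZero h0).measurePreserving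
  have h2 := ((PiLp.volume_preserving_ofLp (Fin 3)).comp h1).comp
    (PiLp.volume_preserving_toLp (Fin 3))
  exact h2

/-- for each `g` the map `x ↦ c + g (x - c)` preserves the volume of `ℝ³` -/
theorem rotV_mp (c : Fin 3 → ℝ) (g : UQ) :
    MeasurePreserving (fun x : Fin 3 → ℝ => c + rotV g (x - c)) volume volume :=
  (measurePreserving_add_left volume c).comp
    ((G_Rad_rot g).comp (measurePreserving_sub_right volume c))

/-- integral of `f` by means of its averages over the spheres about `c` -/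
theorem lint_av3 : ∃ K : ℝ≥0∞, K ≠ 0 ∧ K ≠ ⊤ ∧ ∀ (c : Fin 3 → ℝ) (f : (Fin 3 → ℝ) → ℝ≥0∞),
    Measurable f → ∫⁻ y, f y =
      K * ∫⁻ σ in Ioi (0 : ℝ), ENNReal.ofReal (Real.sqrt σ) * av3 c f (c + ![Real.sqrt σ, 0, 0]) := by
  obtain ⟨K, hK0, hK1, hK⟩ := rad3
  refine ⟨K, hK0, hK1, fun c f hf => ?_⟩
  have h1 : ∫⁻ y, f y = ∫⁻ g, (∫⁻ y, f (c + rotV g (y - c))) ∂muQ := by
    have h2 : ∀ g : UQ, ∫⁻ y, f (c + rotV g (y - c)) = ∫⁻ y, f y := fun g =>
      (rotV_mp c g).lintegral_comp hf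
    rw [lintegral_congr h2, lintegral_const, measure_univ, mul_one]
  have h3 : ∫⁻ g, (∫⁻ y, f (c + rotV g (y - c))) ∂muQ = ∫⁻ y, av3 c f y := by
    rw [lintegral_lintegral_swap]
    · rfl
    · exact ((G_Rad_meas c f hf).comp measurable_swap).aemeasurable
  have hΨ : Measurable (fun σ : ℝ => av3 c f (c + ![Real.sqrt σ, 0, 0])) := by
    refine (av3_meas c f hf).comp ?_
    refine measurable_const.add ?_
    refine measurable_pi_iff.2 fun i => ?_
    fin_cases i
    · exact Real.continuous_sqrt.measurable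
    · exact measurable_const
    · exact measurable_const
  rw [h1, h3, ← hK _ hΨ]
  have h4 := (measurePreserving_add_left (volume : Measure (Fin 3 → ℝ)) c).lintegral_comp
    (av3_meas c f hf)
  rw [← h4]
  refine lintegral_congr fun y => ?_
  rw [av3_dep c f hf (c + y), add_sub_cancel_left]

end BorelEq
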