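import Pool.Agent.Lib.MP_75103d_lc.Defs

/-! Part (G): radial integrals in dimension 2: the law of |y|^2 under Lebesgue measure is κ dτ. (From lintegral_comp_polarCoord_symm, or from the volumes of balls.) -/

set_option autoImplicit false

open MeasureTheory Set
open scoped ENNReal Quaternion

namespace BorelEq

private theorem G_Rad2_norm {E : Type} [NormedAddCommGroup E] [NormedSpace ℝ E] [Nontrivial E]
    [FiniteDimensional ℝ E] [MeasurableSpace E] [BorelSpace E] (μ : Measure E)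
    [μ.IsAddHaarMeasure] (F : ℝ → ℝ≥0∞) (hF : Measurable F) :
    ∫⁻ x, F ‖x‖ ∂μ = μ.toSphere univ *
      ∫⁻ t in Ioi (0 : ℝ), ENNReal.ofReal (t ^ (Module.finrank ℝ E - 1)) * F t := by
  have h1 := μ.measurePreserving_homeomorphUnitSphereProd.lintegral_comp_emb
    (Homeomorph.measurableEmbedding _) (F ∘ (↑) ∘ Prod.snd)
  simp only [Function.comp_def, homeomorphUnitSphereProd_apply_snd_coe] at h1
  have h2 : ∫⁻ x, F ‖x‖ ∂μ = ∫⁻ x : ({(0 : E)}ᶜ : Set E), F ‖x.1‖ ∂(μ.comap (↑)) := by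
    rw [lintegral_subtype_comap (measurableSet_singleton _).compl fun x ↦ F (‖x‖),
      restrict_compl_singleton]
  rw [h2, h1]
  have hFs : Measurable (fun t : Ioi (0 : ℝ) => F t) := hF.comp measurable_subtype_coe
  have h3 := lintegral_prod_mul (μ := μ.toSphere)
    (ν := Measure.volumeIoiPow (Module.finrank ℝ E - 1)) (f := fun _ => 1)
    (g := fun t : Ioi (0 : ℝ) => F t) aemeasurable_const hFs.aemeasurable
  simp only [one_mul, lintegral_const] at h3
  rw [h3]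
  congr 1
  have hm : Measurable (fun r : Ioi (0 : ℝ) =>
      ENNReal.ofReal (r.1 ^ (Module.finrank ℝ E - 1))) :=
    (measurable_subtype_coe.pow_const _).ennreal_ofReal
  rw [Measure.volumeIoiPow, lintegral_withDensity_eq_lintegral_mul _ hm hFs]
  exact lintegral_subtype_comap measurableSet_Ioi
    fun t : ℝ => ENNReal.ofReal (t ^ (Module.finrank ℝ E - 1)) * F t

private theorem G_Rad2_image : (fun t : ℝ => t ^ 2) '' Ioi (0 : ℝ) = Ioi 0 := by
  ext τ
  constructor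
  · rintro ⟨t, ht, rfl⟩
    exact pow_pos (mem_Ioi.1 ht) 2
  · intro h
    exact ⟨√τ, Real.sqrt_pos.2 h, Real.sq_sqrt (le_of_lt h)⟩

private theorem G_Rad2_subst (G : ℝ → ℝ≥0∞) :
    ∫⁻ τ in Ioi (0 : ℝ), G τ = ∫⁻ t in Ioi (0 : ℝ), ENNReal.ofReal (2 * t) * G (t ^ 2) := by
  have h := lintegral_image_eq_lintegral_abs_deriv_mul (s := Ioi (0 : ℝ)) measurableSet_Ioi
    (f := fun t : ℝ => t ^ 2) (f' := fun t => 2 * t)
    (fun t _ => by simpa using (hasDerivAt_pow 2 t).hasDerivWithinAt)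
    (fun a ha b hb hab => by
      have := (sq_eq_sq₀ (le_of_lt (mem_Ioi.1 ha)) (le_of_lt (mem_Ioi.1 hb))).1 hab
      exact this) G
  rw [G_Rad2_image] at h
  rw [h]
  refine setLIntegral_congr_fun measurableSet_Ioi ?_
  intro t ht
  simp only
  rw [abs_of_pos (mul_pos two_pos (mem_Ioi.1 ht))]

theorem radial2 : ∃ κ : ℝ≥0∞, κ ≠ 0 ∧ κ ≠ ⊤ ∧ ∀ H : ℝ → ℝ≥0∞, Measurable H →
    ∫⁻ y : Fin 2 → ℝ, H (∑ i, (y i) ^ 2) = κ * ∫⁻ τ in Ioi (0 : ℝ), H τ := by
  let μ : Measure (EuclideanSpace ℝ (Fin 2)) := volume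
  have hne : μ.toSphere univ ≠ 0 := by
    rw [Measure.measure_univ_ne_zero]
    exact μ.toSphere_ne_zero
  refine ⟨μ.toSphere univ * ENNReal.ofReal (1 / 2), ?_, ?_, ?_⟩
  · refine mul_ne_zero hne ?_
    simp
  · exact ENNReal.mul_ne_top (measure_ne_top _ _) ENNReal.ofReal_ne_top
  · intro H hH
    have h1 := (PiLp.volume_preserving_toLp (Fin 2)).lintegral_comp
      (f := fun x : EuclideanSpace ℝ (Fin 2) => H (‖x‖ ^ 2)) (hH.comp (measurable_norm.pow_const 2))
    have h2 : ∀ y : Fin 2 → ℝ, ‖(WithLp.toLp 2 y : EuclideanSpace ℝ (Fin 2))‖ ^ 2 =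
        ∑ i, (y i) ^ 2 := by
      intro y
      rw [EuclideanSpace.real_norm_sq_eq]
    have h3 : ∫⁻ y : Fin 2 → ℝ, H (∑ i, (y i) ^ 2) =
        ∫⁻ x : EuclideanSpace ℝ (Fin 2), H (‖x‖ ^ 2) ∂μ := by
      rw [← h1]
      refine lintegral_congr fun y => ?_
      rw [h2]
    rw [h3, G_Rad2_norm μ (fun t => H (t ^ 2)) (hH.comp (measurable_id.pow_const 2)),
      finrank_euclideanSpace_fin, G_Rad2_subst H, mul_assoc]
    congr 1
    rw [← lintegral_const_mul' _ _ ENNReal.ofReal_ne_top]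
    refine setLIntegral_congr_fun measurableSet_Ioi ?_
    intro t ht
    simp only
    rw [← mul_assoc, ← ENNReal.ofReal_mul (by norm_num)]
    congr 2
    ring

end BorelEq
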