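import Pool.Agent.Lib.MP_75103d_lc.G_Defs

/-! Part (G): algebra of the rotation `rotV`. -/

set_option autoImplicit false

open MeasureTheory Set
open scoped ENNReal Quaternion

namespace BorelEq

private theorem G_Rot1_re (v : Fin 3 → ℝ) : (toQ v).re = 0 := rfl
private theorem G_Rot1_imI (v : Fin 3 → ℝ) : (toQ v).imI = v 0 := rfl
private theorem G_Rot1_imJ (v : Fin 3 → ℝ) : (toQ v).imJ = v 1 := rfl
private theorem G_Rot1_imK (v : Fin 3 → ℝ) : (toQ v).imK = v 2 := rfl

private theorem G_Rot1_toQ_imQ {q : ℍ[ℝ]} (hq : q.re = 0) : toQ (imQ q) = q := by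
  ext <;> simp [toQ, imQ, hq]

private theorem G_Rot1_imQ_toQ (v : Fin 3 → ℝ) : imQ (toQ v) = v := by
  funext i
  fin_cases i <;> simp [toQ, imQ]

/-- the conjugate of a pure quaternion is pure -/
theorem toQ_rotV (g : UQ) (v : Fin 3 → ℝ) :
    toQ (rotV g v) = (g : ℍ[ℝ]) * toQ v * star (g : ℍ[ℝ]) := by
  apply G_Rot1_toQ_imQ
  simp only [Quaternion.re_mul, Quaternion.imI_mul, Quaternion.imJ_mul, Quaternion.imK_mul,
    Quaternion.re_star, Quaternion.imI_star, Quaternion.imJ_star, Quaternion.imK_star,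
    G_Rot1_re, G_Rot1_imI, G_Rot1_imJ, G_Rot1_imK]
  ring

theorem rotV_one (v : Fin 3 → ℝ) : rotV 1 v = v := by
  unfold rotV
  rw [Metric.unitSphere.coe_one, one_mul, star_one, mul_one, G_Rot1_imQ_toQ]

theorem rotV_mul (g h : UQ) (v : Fin 3 → ℝ) : rotV (g * h) v = rotV g (rotV h v) := by
  have h1 : rotV g (rotV h v) = imQ ((g : ℍ[ℝ]) * toQ (rotV h v) * star (g : ℍ[ℝ])) := rfl
  rw [h1, toQ_rotV]
  unfold rotV
  rw [Metric.unitSphere.coe_mul, star_mul]
  simp only [mul_assoc]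

theorem rotV_sub (g : UQ) (v w : Fin 3 → ℝ) : rotV g (v - w) = rotV g v - rotV g w := by
  have h1 : toQ (v - w) = toQ v - toQ w := by
    ext <;> simp [G_Rot1_re, G_Rot1_imI, G_Rot1_imJ, G_Rot1_imK]
  unfold rotV
  rw [h1, mul_sub, sub_mul]
  funext i
  fin_cases i <;> simp [imQ]

private theorem G_Rot1_nsq (v : Fin 3 → ℝ) : nsq v = Quaternion.normSq (toQ v) := by
  rw [Quaternion.normSq_def']
  simp [nsq, toQ, Fin.sum_univ_three]

theorem nsq_rotV (g : UQ) (v : Fin 3 → ℝ) : nsq (rotV g v) = nsq v := by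
  have hg : Quaternion.normSq (g : ℍ[ℝ]) = 1 := by
    have h : ‖(g : ℍ[ℝ])‖ = 1 := mem_sphere_zero_iff_norm.mp g.2
    rw [Quaternion.normSq_eq_norm_mul_self, h, one_mul]
  rw [G_Rot1_nsq, G_Rot1_nsq, toQ_rotV, map_mul, map_mul, Quaternion.normSq_star, hg, one_mul,
    mul_one]

private theorem G_Rot1_polar (v w : Fin 3 → ℝ) : dt v w = (nsq v + nsq w - nsq (v - w)) / 2 := by
  simp only [dt, nsq, Fin.sum_univ_three, Pi.sub_apply]
  ring

theorem dt_rotV (g : UQ) (v w : Fin 3 → ℝ) : dt (rotV g v) (rotV g w) = dt v w := by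
  rw [G_Rot1_polar, G_Rot1_polar, ← rotV_sub, nsq_rotV, nsq_rotV, nsq_rotV]

private theorem G_Rot1_toQ_cont : Continuous toQ := by
  have h : toQ = fun v : Fin 3 → ℝ => (v 0) • (toQ ![1, 0, 0]) + (v 1) • (toQ ![0, 1, 0])
      + (v 2) • (toQ ![0, 0, 1]) := by
    funext v
    ext <;> simp [G_Rot1_re, G_Rot1_imI, G_Rot1_imJ, G_Rot1_imK]
  rw [h]
  exact (((continuous_apply 0).smul continuous_const).add
    ((continuous_apply 1).smul continuous_const)).add ((continuous_apply 2).smul continuous_const)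

private theorem G_Rot1_imQ_cont : Continuous imQ := by
  refine continuous_pi fun i => ?_
  fin_cases i
  · exact Quaternion.continuous_imI
  · exact Quaternion.continuous_imJ
  · exact Quaternion.continuous_imK

theorem continuous_rotV : Continuous (fun p : UQ × (Fin 3 → ℝ) => rotV p.1 p.2) := by
  have h1 : Continuous (fun p : UQ × (Fin 3 → ℝ) => ((p.1 : UQ) : ℍ[ℝ])) :=
    continuous_subtype_val.comp continuous_fst
  have h2 : Continuous (fun p : UQ × (Fin 3 → ℝ) => toQ p.2) := G_Rot1_toQ_cont.comp continuous_snd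
  exact G_Rot1_imQ_cont.comp ((h1.mul h2).mul h1.star)

end BorelEq
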