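import Pool.Agent.Lib.MP_75103d_lc.G_Rot1

/-! Part (G): the action `rotE`. -/

set_option autoImplicit false

open MeasureTheory Set
open scoped ENNReal Quaternion

namespace BorelEq

theorem rotE_apply {n : ℕ} (e : Fin 3 ↪ Fin n) (p : Eu n) (g : UQ) (x : Eu n) (i : Fin 3) :
    rotE e p g x (e i) = p (e i) + rotV g (fun i => x (e i) - p (e i)) i := by
  have hex : ∃ k, e k = e i := ⟨i, rfl⟩
  have hc : hex.choose = i := e.injective hex.choose_spec
  unfold rotE
  change (if h : ∃ k, e k = e i then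
    p (e i) + rotV g (fun i => x (e i) - p (e i)) h.choose else x (e i)) = _
  rw [dif_pos hex, hc]

theorem rotE_apply_ne {n : ℕ} (e : Fin 3 ↪ Fin n) (p : Eu n) (g : UQ) (x : Eu n) (j : Fin n)
    (hj : ∀ i, e i ≠ j) : rotE e p g x j = x j := by
  unfold rotE
  change (if h : ∃ k, e k = j then
    p j + rotV g (fun i => x (e i) - p (e i)) h.choose else x j) = _
  rw [dif_neg]
  rintro ⟨k, hk⟩
  exact hj k hk

theorem rotE_one {n : ℕ} (e : Fin 3 ↪ Fin n) (p : Eu n) (x : Eu n) : rotE e p 1 x = x := by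
  ext j
  by_cases hj : ∃ i, e i = j
  · obtain ⟨i, rfl⟩ := hj
    rw [rotE_apply, rotV_one]
    ring
  · push Not at hj
    rw [rotE_apply_ne e p 1 x j hj]

theorem rotE_mul {n : ℕ} (e : Fin 3 ↪ Fin n) (p : Eu n) (g h : UQ) (x : Eu n) :
    rotE e p (g * h) x = rotE e p g (rotE e p h x) := by
  ext j
  by_cases hj : ∃ i, e i = j
  · obtain ⟨i, rfl⟩ := hj
    rw [rotE_apply, rotE_apply, rotV_mul]
    congr 3
    funext k
    rw [rotE_apply]
    ring
  · push Not at hj
    rw [rotE_apply_ne e p _ _ j hj, rotE_apply_ne e p _ _ j hj, rotE_apply_ne e p _ _ j hj]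

theorem rotE_cont {n : ℕ} (e : Fin 3 ↪ Fin n) (p : Eu n) :
    Continuous (fun q : UQ × Eu n => rotE e p q.1 q.2) := by
  unfold rotE
  refine (PiLp.continuous_toLp 2 _).comp ?_
  refine continuous_pi fun j => ?_
  by_cases hj : ∃ i, e i = j
  · simp only [dif_pos hj]
    have h1 : Continuous (fun q : UQ × Eu n =>
        ((q.1, fun i => q.2 (e i) - p (e i)) : UQ × (Fin 3 → ℝ))) := by
      refine continuous_fst.prodMk (continuous_pi fun i => ?_)
      exact ((EuclideanSpace.proj (𝕜 := ℝ) (e i)).continuous.comp continuous_snd).sub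
        continuous_const
    have h2 := continuous_rotV.comp h1
    exact continuous_const.add ((continuous_apply hj.choose).comp h2)
  · simp only [dif_neg hj]
    exact (EuclideanSpace.proj (𝕜 := ℝ) j).continuous.comp continuous_snd

theorem rotE_meas {n : ℕ} (e : Fin 3 ↪ Fin n) (p : Eu n) :
    Measurable (fun q : UQ × Eu n => rotE e p q.1 q.2) := by
  exact (rotE_cont e p).measurable

/-- The action. -/
noncomputable def rotA {n : ℕ} (e : Fin 3 ↪ Fin n) (p : Eu n) : MAct UQ (Eu n) where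
  a := rotE e p
  one := rotE_one e p
  mul := rotE_mul e p
  meas := rotE_meas e p

/-- Average of `f` over the action. -/
noncomputable def avg {n : ℕ} (α : MAct UQ (Eu n)) (f : Eu n → ℝ≥0∞) (x : Eu n) : ℝ≥0∞ :=
  ∫⁻ g, f (α.a g x) ∂muQ

/-- Composition of the averages of a list of actions; the first of the list is applied last. -/
noncomputable def avgs {n : ℕ} (L : List ((Fin 3 ↪ Fin n) × Eu n)) (f : Eu n → ℝ≥0∞) : Eu n → ℝ≥0∞ :=
  L.foldr (fun q F => avg (rotA q.1 q.2) F) f

end BorelEq
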