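import Pool.Agent.Lib.MP_75103d_lc.G_Vec

/-! Part (G): basic facts on rotE. -/

set_option autoImplicit false

open MeasureTheory Set
open scoped ENNReal Quaternion

namespace BorelEq

theorem G_RotE_mem {n : ℕ} (e : Fin 3 ↪ Fin n) (p : Eu n) (g : UQ) (x : Eu n) (i : Fin 3) :
    rotE e p g x (e i) = p (e i) + rotV g (fun i => x (e i) - p (e i)) i := by
  have h : ∃ k, e k = e i := ⟨i, rfl⟩
  have h2 : h.choose = i := e.injective h.choose_spec
  show (if h : ∃ k, e k = e i then
    p (e i) + rotV g (fun i => x (e i) - p (e i)) h.choose else x (e i)) = _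
  rw [dif_pos h, h2]

theorem G_RotE_not {n : ℕ} (e : Fin 3 ↪ Fin n) (p : Eu n) (g : UQ) (x : Eu n) (j : Fin n)
    (hj : ¬ ∃ i, e i = j) : rotE e p g x j = x j := by
  show (if h : ∃ k, e k = j then
    p j + rotV g (fun i => x (e i) - p (e i)) h.choose else x j) = _
  rw [dif_neg hj]

theorem G_RotE_ext {n : ℕ} (e : Fin 3 ↪ Fin n) {x y : Eu n} (h1 : ∀ i, x (e i) = y (e i))
    (h2 : ∀ j, (¬ ∃ i, e i = j) → x j = y j) : x = y := by
  ext j
  by_cases hj : ∃ i, e i = j
  · obtain ⟨i, rfl⟩ := hj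
    exact h1 i
  · exact h2 j hj

theorem G_RotE_sum {n : ℕ} (e : Fin 3 ↪ Fin n) (F : Fin n → ℝ) :
    ∑ j, F j = ∑ i, F (e i) + ∑ j ∈ (Finset.univ.map e)ᶜ, F j := by
  rw [← Finset.sum_map Finset.univ e F, Finset.sum_add_sum_compl]

theorem G_RotE_notMem {n : ℕ} (e : Fin 3 ↪ Fin n) {j : Fin n}
    (hj : j ∈ (Finset.univ.map e)ᶜ) : ¬ ∃ i, e i = j := by
  rw [Finset.mem_compl, Finset.mem_map] at hj
  rintro ⟨i, hi⟩
  exact hj ⟨i, Finset.mem_univ i, hi⟩

theorem G_RotE_distsq {n : ℕ} (x y : Eu n) : dist x y ^ 2 = ∑ j, (x j - y j) ^ 2 := by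
  rw [EuclideanSpace.dist_eq, Real.sq_sqrt (Finset.sum_nonneg fun _ _ => sq_nonneg _)]
  refine Finset.sum_congr rfl fun j _ => ?_
  rw [Real.dist_eq, sq_abs]

theorem rotE_one {n : ℕ} (e : Fin 3 ↪ Fin n) (p : Eu n) (x : Eu n) : rotE e p 1 x = x := by
  refine G_RotE_ext e (fun i => ?_) (fun j hj => G_RotE_not e p 1 x j hj)
  rw [G_RotE_mem, rotV_one]
  ring

theorem rotE_mul {n : ℕ} (e : Fin 3 ↪ Fin n) (p : Eu n) (g h : UQ) (x : Eu n) :
    rotE e p (g * h) x = rotE e p g (rotE e p h x) := by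
  refine G_RotE_ext e (fun i => ?_) (fun j hj => ?_)
  · rw [G_RotE_mem, G_RotE_mem, rotV_mul]
    have : (fun i => rotE e p h x (e i) - p (e i)) = rotV h (fun i => x (e i) - p (e i)) := by
      funext k
      rw [G_RotE_mem]
      ring
    rw [this]
  · rw [G_RotE_not e p _ _ j hj, G_RotE_not e p _ _ j hj, G_RotE_not e p _ _ j hj]

theorem rotE_meas {n : ℕ} (e : Fin 3 ↪ Fin n) (p : Eu n) :
    Measurable (fun q : UQ × Eu n => rotE e p q.1 q.2) := by
  have hc : ∀ j : Fin n, Measurable (fun x : Eu n => x j) := fun j =>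
    (measurable_pi_apply j).comp (WithLp.measurable_ofLp 2 (Fin n → ℝ))
  have h : Measurable (fun q : UQ × Eu n => (fun j => rotE e p q.1 q.2 j)) := by
    rw [measurable_pi_iff]
    intro j
    by_cases hj : ∃ i, e i = j
    · obtain ⟨i, rfl⟩ := hj
      have h1 : (fun q : UQ × Eu n => rotE e p q.1 q.2 (e i))
          = fun q => p (e i) + rotV q.1 (fun i => q.2 (e i) - p (e i)) i := by
        funext q
        exact G_RotE_mem e p q.1 q.2 i
      rw [h1]
      refine measurable_const.add ?_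
      have h3 : Measurable (fun q : UQ × Eu n => (fun i => q.2 (e i) - p (e i) : Fin 3 → ℝ)) := by
        rw [measurable_pi_iff]
        intro k
        exact ((hc (e k)).comp measurable_snd).sub measurable_const
      have h4 : Measurable (fun q : UQ × Eu n =>
          (q.1, (fun i => q.2 (e i) - p (e i) : Fin 3 → ℝ))) := measurable_fst.prodMk h3
      have h2 : Measurable (fun q : UQ × Eu n =>
          rotV q.1 (fun i => q.2 (e i) - p (e i))) :=
        Measurable.comp (g := fun p : UQ × (Fin 3 → ℝ) => rotV p.1 p.2)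
          (f := fun q : UQ × Eu n => (q.1, (fun i => q.2 (e i) - p (e i) : Fin 3 → ℝ)))
          rotV_meas h4
      exact (measurable_pi_apply i).comp h2
    · have h1 : (fun q : UQ × Eu n => rotE e p q.1 q.2 j) = fun q => q.2 j := by
        funext q
        exact G_RotE_not e p q.1 q.2 j hj
      rw [h1]
      exact (hc j).comp measurable_snd
  exact (WithLp.measurable_toLp 2 _).comp h

theorem rotE_dist {n : ℕ} (e : Fin 3 ↪ Fin n) (p : Eu n) (g : UQ) (x y : Eu n) :
    dist (rotE e p g x) (rotE e p g y) = dist x y := by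
  have h : dist (rotE e p g x) (rotE e p g y) ^ 2 = dist x y ^ 2 := by
    rw [G_RotE_distsq, G_RotE_distsq, G_RotE_sum e, G_RotE_sum e (fun j => (x j - y j) ^ 2)]
    congr 1
    · have h1 : ∀ i, rotE e p g x (e i) - rotE e p g y (e i)
          = rotV g (fun i => x (e i) - y (e i)) i := by
        intro i
        rw [G_RotE_mem, G_RotE_mem]
        have h2 : (fun i => x (e i) - p (e i))
            = (fun i => x (e i) - y (e i)) + (fun i => y (e i) - p (e i)) := by
          funext k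
          simp
        rw [h2, rotV_add]
        simp
      have h3 := rotV_inner g (fun i => x (e i) - y (e i)) (fun i => x (e i) - y (e i))
      rw [Finset.sum_congr rfl fun i _ => by rw [h1 i, pow_two], h3]
      exact Finset.sum_congr rfl fun i _ => (pow_two _).symm
    · refine Finset.sum_congr rfl fun j hj => ?_
      have hj' := G_RotE_notMem e hj
      rw [G_RotE_not e p _ _ j hj', G_RotE_not e p _ _ j hj']
  exact (pow_left_inj₀ dist_nonneg dist_nonneg two_ne_zero).1 h

theorem G_RotE_self {n : ℕ} (e : Fin 3 ↪ Fin n) (p : Eu n) (g : UQ) : rotE e p g p = p := by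
  refine G_RotE_ext e (fun i => ?_) (fun j hj => G_RotE_not e p g p j hj)
  rw [G_RotE_mem]
  have h : (fun i => p (e i) - p (e i)) = (0 : ℝ) • (0 : Fin 3 → ℝ) := by
    funext k
    simp
  rw [h, rotV_smul, zero_smul]
  simp

theorem rotE_center {n : ℕ} (e : Fin 3 ↪ Fin n) (p : Eu n) (g : UQ) (x : Eu n) :
    dist (rotE e p g x) p = dist x p := by
  have h := rotE_dist e p g x p
  rw [G_RotE_self] at h
  exact h

theorem rotE_lip {n : ℕ} (e : Fin 3 ↪ Fin n) (p : Eu n) (g : UQ) (x : Eu n) :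
    dist (rotE e p g x) x ≤ 2 * dist x p * nrmQ g := by
  have hn : 0 ≤ nrmQ g := norm_nonneg _
  have h : dist (rotE e p g x) x ^ 2 ≤ (2 * dist x p * nrmQ g) ^ 2 := by
    rw [G_RotE_distsq, G_RotE_sum e]
    have h0 : ∑ j ∈ (Finset.univ.map e)ᶜ, (rotE e p g x j - x j) ^ 2 = 0 := by
      refine Finset.sum_eq_zero fun j hj => ?_
      rw [G_RotE_not e p _ _ j (G_RotE_notMem e hj)]
      ring
    rw [h0, add_zero]
    have h1 := rotV_lip g (fun i => x (e i) - p (e i))
    have h2 : ∑ i, (rotE e p g x (e i) - x (e i)) ^ 2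
        = ∑ i, (rotV g (fun i => x (e i) - p (e i)) i - (x (e i) - p (e i))) ^ 2 := by
      refine Finset.sum_congr rfl fun i _ => ?_
      rw [G_RotE_mem]
      ring
    rw [h2]
    refine h1.trans ?_
    have h3 : ∑ i, (x (e i) - p (e i)) ^ 2 ≤ dist x p ^ 2 := by
      rw [G_RotE_distsq, G_RotE_sum e (fun j => (x j - p j) ^ 2)]
      have : 0 ≤ ∑ j ∈ (Finset.univ.map e)ᶜ, (x j - p j) ^ 2 :=
        Finset.sum_nonneg fun _ _ => sq_nonneg _
      linarith
    calc (2 * nrmQ g) ^ 2 * ∑ i, (x (e i) - p (e i)) ^ 2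
        ≤ (2 * nrmQ g) ^ 2 * dist x p ^ 2 := mul_le_mul_of_nonneg_left h3 (sq_nonneg _)
      _ = (2 * dist x p * nrmQ g) ^ 2 := by ring
  exact (pow_le_pow_iff_left₀ dist_nonneg (by positivity) two_ne_zero).1 h

/-- The rotation as an isometry of the whole space. -/
theorem rotE_isom {n : ℕ} (e : Fin 3 ↪ Fin n) (p : Eu n) (g : UQ) :
    ∃ γ : Eu n ≃ᵢ Eu n, ∀ x, γ x = rotE e p g x := by
  refine ⟨IsometryEquiv.mk' (rotE e p g) (rotE e p g⁻¹) ?_ ?_, fun x => rfl⟩
  · intro x
    rw [← rotE_mul, mul_inv_cancel, rotE_one]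
  · exact Isometry.of_dist_eq fun x y => rotE_dist e p g x y

end BorelEq
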