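import Pool.Agent.Lib.MP_75103d_lc.G_Marg
import Pool.Agent.Lib.MP_75103d_lc.G_K3

/-! Part (G): induction step. -/

set_option autoImplicit false

open MeasureTheory Set
open scoped ENNReal Quaternion

namespace BorelEq

/-- kernel bounds for the first `m + 1` coordinates -/
def KB (n m : ℕ) : Prop :=
  ∀ R : ℝ, 0 < R → ∃ (L : List ((Fin 3 ↪ Fin n) × Eu n)) (b C R' : ℝ),
    0 < b ∧ 0 < C ∧ R ≤ R' ∧
    ∀ f : Eu n → ℝ≥0∞, Measurable f → (∀ x, f x ≠ 0 → ∀ j, |x j| ≤ R) →
      (∀ x, avgs L f x ≤ ENNReal.ofReal C * Jm m f x) ∧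
      (∀ x, avgs L f x ≠ 0 → ∀ j, |x j| ≤ R') ∧
      (∀ x, (∀ j, |x j| ≤ R) → ENNReal.ofReal b * Jm m f x ≤ avgs L f x)

theorem G_Step_slc_center {n : ℕ} (e : Fin 3 ↪ Fin n) (c : Fin 3 → ℝ) :
    (fun i => (slc e (0 : Eu n) c) (e i)) = c := by
  funext i
  exact slc_apply e 0 c i

theorem G_Step_av3_zero (c₁ c₂ : Fin 3 → ℝ) (v : Fin 3 → ℝ) :
    av3 c₁ (av3 c₂ (fun _ => 0)) v = 0 := by
  simp [av3]

/-- support of the double average in the directions not moved -/
theorem G_Step_supp {n : ℕ} (e : Fin 3 ↪ Fin n) (c₁ c₂ : Fin 3 → ℝ) (F : Eu n → ℝ≥0∞) (a R' : ℝ)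
    (haR : a ≤ R')
    (hF : ∀ x, F x ≠ 0 → ∀ j, |x j| ≤ a) (x : Eu n)
    (h3 : ∀ v, av3 c₁ (av3 c₂ (fun v => F (slc e x v))) v ≠ 0 → ∀ i, |v i| ≤ R')
    (hx : av3 c₁ (av3 c₂ (fun v => F (slc e x v))) (fun i => x (e i)) ≠ 0) (j : Fin n) :
    |x j| ≤ R' := by
  by_cases hj : ∃ i, e i = j
  · obtain ⟨i, rfl⟩ := hj
    exact h3 _ hx i
  · by_contra hcon
    apply hx
    have h0 : (fun v => F (slc e x v)) = fun _ => 0 := by
      funext v
      by_contra hne
      have h1 := hF _ hne j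
      rw [slc_apply_ne e x v j (fun i hi => hj ⟨i, hi⟩)] at h1
      exact hcon (h1.trans haR)
    rw [h0]
    exact G_Step_av3_zero c₁ c₂ _

theorem G_Step_Jm_zero {n : ℕ} (m : ℕ) (f : Eu n → ℝ≥0∞) (x : Eu n)
    (h : ∀ y : Eu n, (∀ j : Fin n, m < j.val → y j = x j) → f y = 0) : Jm m f x = 0 := by
  unfold Jm lmarginal
  have h0 : ∀ y : (i : {j // j ∈ Finset.univ.filter (fun j : Fin n => j.val ≤ m)}) → ℝ,
      f (WithLp.toLp 2 (Function.updateFinset (WithLp.ofLp x)
        (Finset.univ.filter (fun j : Fin n => j.val ≤ m)) y)) = 0 := by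
    intro y
    apply h
    intro j hj
    show Function.updateFinset (WithLp.ofLp x) _ y j = x j
    unfold Function.updateFinset
    rw [dif_neg]
    simp only [Finset.mem_filter, Finset.mem_univ, true_and, not_le]
    exact hj
  simp only [h0]
  exact lintegral_zero

/-- base case: `kernel3`, `avg2_slc`, `Jm_two` -/
theorem KB_two (n : ℕ) (hn : 2 < n) : KB n 2 := by
  intro R hR
  obtain ⟨c₁, c₂, b, C, R', hb, hC, hRR', hk⟩ := kernel3 R hR
  set e : Fin 3 ↪ Fin n := emb01 ⟨2, hn⟩ le_rfl with he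
  refine ⟨[(e, slc e 0 c₁), (e, slc e 0 c₂)], b, C, R', hb, hC, hRR', ?_⟩
  intro f hf hs
  have hav : ∀ x, avgs [(e, slc e 0 c₁), (e, slc e 0 c₂)] f x =
      av3 c₁ (av3 c₂ (fun v => f (slc e x v))) (fun i => x (e i)) := by
    intro x
    have h1 := avg2_slc e (slc e 0 c₁) (slc e 0 c₂) f x
    rw [G_Step_slc_center, G_Step_slc_center] at h1
    exact h1
  have hkx : ∀ x : Eu n, _ := fun x => hk (fun v => f (slc e x v)) (hf.comp (slc_meas e x))
    (by
      intro v hv i
      have := hs _ hv (e i)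
      rwa [slc_apply] at this)
  refine ⟨?_, ?_, ?_⟩
  · intro x
    rw [hav, Jm_two hn f hf x]
    exact (hkx x).1 _
  · intro x hx j
    rw [hav] at hx
    exact G_Step_supp e c₁ c₂ f R R' hRR' hs x (hkx x).2.1 hx j
  · intro x hx
    rw [hav, Jm_two hn f hf x]
    exact (hkx x).2.2 _ (fun i => hx (e i))

/-- induction step -/
theorem KB_step (n m : ℕ) (h2 : 2 ≤ m) (hm : m + 1 < n) (h : KB n m) : KB n (m + 1) := by
  intro R hR
  obtain ⟨L, b, C, R₁, hb, hC, hRR₁, hL⟩ := h R hR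
  have hR₁ : 0 < R₁ := lt_of_lt_of_le hR hRR₁
  obtain ⟨c₁, c₂, b', C', R', hb', hC', hRR', hk⟩ := kernel3 R₁ hR₁
  set c : Fin n := ⟨m + 1, hm⟩ with hc
  have hc2 : 2 ≤ c.val := by show 2 ≤ m + 1; omega
  set e : Fin 3 ↪ Fin n := emb01 c hc2 with he
  have he0 : (e 0).val = 0 := rfl
  have he1 : (e 1).val = 1 := rfl
  have he2 : e 2 = c := rfl
  refine ⟨(e, slc e 0 c₁) :: (e, slc e 0 c₂) :: L, b' * ((2 * R) ^ 2 * b),
    C' * ((2 * R₁) ^ 2 * C), R', by positivity, by positivity, hRR₁.trans hRR', ?_⟩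
  intro f hf hs
  obtain ⟨hL1, hL2, hL3⟩ := hL f hf hs
  set F := avgs L f with hF
  have hFm : Measurable F := avgs_meas L f hf
  have hav : ∀ x, avgs ((e, slc e 0 c₁) :: (e, slc e 0 c₂) :: L) f x =
      av3 c₁ (av3 c₂ (fun v => F (slc e x v))) (fun i => x (e i)) := by
    intro x
    have h1 := avg2_slc e (slc e 0 c₁) (slc e 0 c₂) F x
    rw [G_Step_slc_center, G_Step_slc_center] at h1
    exact h1
  have hkx : ∀ x : Eu n, _ := fun x => hk (fun v => F (slc e x v)) (hFm.comp (slc_meas e x))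
    (by
      intro v hv i
      have := hL2 _ hv (e i)
      rwa [slc_apply] at this)
  -- the dependence of `Jm m f (slc e x v)` on `v`
  have hJ : ∀ (x : Eu n) (v : Fin 3 → ℝ), Jm m f (slc e x v) =
      Jm m f (WithLp.toLp 2 (Function.update (WithLp.ofLp x) c (v 2))) := by
    intro x v
    apply Jm_congr
    intro j hj
    show slc e x v j = Function.update (WithLp.ofLp x) c (v 2) j
    by_cases hjc : j = c
    · subst hjc
      rw [Function.update_self, ← he2, slc_apply]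
    · rw [Function.update_of_ne hjc]
      apply slc_apply_ne
      intro i hi
      fin_cases i
      · have : (e 0).val = j.val := congrArg Fin.val hi
        omega
      · have : (e 1).val = j.val := congrArg Fin.val hi
        omega
      · exact hjc (hi.symm.trans he2)
  have hum : ∀ x : Eu n, Measurable (fun t : ℝ =>
      Jm m f (WithLp.toLp 2 (Function.update (WithLp.ofLp x) c t))) := by
    intro x
    refine (Jm_meas m f hf).comp ?_
    exact (PiLp.continuous_toLp 2 (fun _ : Fin n => ℝ)).measurable.comp (measurable_update _)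
  have hint : ∀ (x : Eu n) (a k : ℝ), 0 < a → 0 < k →
      ∫⁻ v : Fin 3 → ℝ, (if |v 0| ≤ a ∧ |v 1| ≤ a then
        ENNReal.ofReal k * Jm m f (WithLp.toLp 2 (Function.update (WithLp.ofLp x) c (v 2))) else 0)
      = ENNReal.ofReal ((2 * a) ^ 2 * k) * Jm (m + 1) f x := by
    intro x a k ha hk0
    rw [int3 a ha (fun t => ENNReal.ofReal k *
      Jm m f (WithLp.toLp 2 (Function.update (WithLp.ofLp x) c t)))
      ((hum x).const_mul _), lintegral_const_mul _ (hum x), ← Jm_succ m hm f hf x, ← mul_assoc,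
      ← ENNReal.ofReal_mul (by positivity)]
  refine ⟨?_, ?_, ?_⟩
  · intro x
    rw [hav]
    refine ((hkx x).1 _).trans ?_
    rw [ENNReal.ofReal_mul hC'.le, mul_assoc, ← hint x R₁ C hR₁ hC]
    gcongr with v
    split_ifs with hv
    · rw [← hJ]
      exact hL1 _
    · by_contra hcon
      have hne : F (slc e x v) ≠ 0 := fun h0 => hcon (le_of_eq h0)
      apply hv
      have h0 := hL2 _ hne (e 0)
      have h1 := hL2 _ hne (e 1)
      rw [slc_apply] at h0 h1
      exact ⟨h0, h1⟩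
  · intro x hx j
    rw [hav] at hx
    exact G_Step_supp e c₁ c₂ F R₁ R' hRR' hL2 x (hkx x).2.1 hx j
  · intro x hx
    rw [hav]
    refine le_trans ?_ ((hkx x).2.2 _ (fun i => (hx (e i)).trans hRR₁))
    rw [ENNReal.ofReal_mul hb'.le, mul_assoc, ← hint x R b hR hb]
    gcongr with v
    split_ifs with hv
    · rw [← hJ]
      by_cases hv2 : |v 2| ≤ R
      · apply hL3
        intro j
        by_cases hj : ∃ i, e i = j
        · obtain ⟨i, rfl⟩ := hj
          rw [slc_apply]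
          fin_cases i
          · exact hv.1
          · exact hv.2
          · exact hv2
        · rw [slc_apply_ne e x v j (fun i hi => hj ⟨i, hi⟩)]
          exact hx j
      · rw [G_Step_Jm_zero m f (slc e x v)]
        · simp
        · intro y hy
          by_contra hne
          have h1 := hs y hne c
          rw [hy c (by show m < m + 1; omega), ← he2, slc_apply] at h1
          exact hv2 h1
    · exact zero_le

theorem G_Step_KB (n : ℕ) (m : ℕ) (hm : 2 ≤ m) : m < n → KB n m := by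
  induction m, hm using Nat.le_induction with
  | base => exact KB_two n
  | succ k hk ih =>
    intro hkn
    exact KB_step n k hk hkn (ih (by omega))

/-- (G4) kernel bounds. -/
theorem kernel_bounds (n : ℕ) (hn : 3 ≤ n) (R : ℝ) (hR : 0 < R) :
    ∃ (L : List ((Fin 3 ↪ Fin n) × Eu n)) (b C : ℝ), 0 < b ∧ 0 < C ∧
      ∀ f : Eu n → ℝ≥0∞, Measurable f → (∀ x, R < ‖x‖ → f x = 0) →
        (∀ x, avgs L f x ≤ ENNReal.ofReal C * ∫⁻ y, f y) ∧
        (∀ x, ‖x‖ ≤ R → ENNReal.ofReal b * ∫⁻ y, f y ≤ avgs L f x) := by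
  obtain ⟨L, b, C, R', hb, hC, _, hL⟩ := G_Step_KB n (n - 1) (by omega) (by omega) R hR
  refine ⟨L, b, C, hb, hC, ?_⟩
  intro f hf hs
  have hcoord : ∀ (x : Eu n) (j : Fin n), |x j| ≤ ‖x‖ := by
    intro x j
    have := PiLp.norm_apply_le x j
    rwa [Real.norm_eq_abs] at this
  have hs' : ∀ x, f x ≠ 0 → ∀ j, |x j| ≤ R := by
    intro x hx j
    by_contra hcon
    exact hx (hs x (lt_of_lt_of_le (not_le.mp hcon) (hcoord x j)))
  obtain ⟨h1, _, h3⟩ := hL f hf hs'
  have hJl : ∀ x, Jm (n - 1) f x = ∫⁻ y, f y := fun x => Jm_last (by omega) f x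
  refine ⟨fun x => ?_, fun x hx => ?_⟩
  · have := h1 x
    rwa [hJl] at this
  · have := h3 x (fun j => (hcoord x j).trans hx)
    rwa [hJl] at this

end BorelEq
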