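import Pool.Agent.Lib.MP_75103d_lc.G_Polar

/-! Part (G): the law of the squared norm in dimensions 2 and 3. -/

set_option autoImplicit false

open MeasureTheory Set
open scoped ENNReal Quaternion

namespace BorelEq

/-- substitution `σ = r²` -/
theorem sub_sq (Ψ : ℝ → ℝ≥0∞) (hΨ : Measurable Ψ) :
    ∫⁻ r in Ioi (0 : ℝ), ENNReal.ofReal r * Ψ (r ^ 2) = 2⁻¹ * ∫⁻ σ in Ioi (0 : ℝ), Ψ σ := by
  have him : (fun r : ℝ => r ^ 2) '' Ioi (0 : ℝ) = Ioi 0 := by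
    ext y
    simp only [mem_image, mem_Ioi]
    constructor
    · rintro ⟨r, hr, rfl⟩
      positivity
    · intro hy
      exact ⟨Real.sqrt y, Real.sqrt_pos.2 hy, Real.sq_sqrt hy.le⟩
  have hinj : InjOn (fun r : ℝ => r ^ 2) (Ioi (0 : ℝ)) := by
    intro a ha b hb h
    exact (pow_left_inj₀ (le_of_lt ha) (le_of_lt hb) two_ne_zero).1 h
  have h := lintegral_image_eq_lintegral_abs_deriv_mul (s := Ioi (0 : ℝ))
    (f := fun r : ℝ => r ^ 2) (f' := fun r : ℝ => 2 * r) measurableSet_Ioi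
    (fun x _ => by simpa using (hasDerivAt_pow 2 x).hasDerivWithinAt) hinj Ψ
  rw [him] at h
  have h2 : ∫⁻ x in Ioi (0 : ℝ), ENNReal.ofReal |2 * x| * Ψ (x ^ 2) =
      ∫⁻ x in Ioi (0 : ℝ), 2 * (ENNReal.ofReal x * Ψ (x ^ 2)) := by
    refine setLIntegral_congr_fun measurableSet_Ioi ?_
    intro x hx
    have hx0 : (0 : ℝ) < x := hx
    show ENNReal.ofReal |2 * x| * Ψ (x ^ 2) = 2 * (ENNReal.ofReal x * Ψ (x ^ 2))
    rw [abs_of_pos (by positivity), ENNReal.ofReal_mul (by norm_num), ENNReal.ofReal_ofNat,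
      mul_assoc]
  have hm : Measurable fun x : ℝ => ENNReal.ofReal x * Ψ (x ^ 2) :=
    ENNReal.measurable_ofReal.mul (hΨ.comp (measurable_id.pow_const 2))
  rw [h, h2, lintegral_const_mul _ hm, ← mul_assoc,
    ENNReal.inv_mul_cancel (by norm_num) (by norm_num), one_mul]

theorem rad2 : ∃ K : ℝ≥0∞, K ≠ 0 ∧ K ≠ ⊤ ∧ ∀ Ψ : ℝ → ℝ≥0∞, Measurable Ψ →
    ∫⁻ z : ℝ × ℝ, Ψ (z.1 ^ 2 + z.2 ^ 2) = K * ∫⁻ σ in Ioi (0 : ℝ), Ψ σ := by
  have hfr : Module.finrank ℝ (WithLp 2 (ℝ × ℝ)) = 2 := by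
    rw [LinearEquiv.finrank_eq (WithLp.linearEquiv 2 ℝ (ℝ × ℝ))]
    simp
  have hnt : Nontrivial (WithLp 2 (ℝ × ℝ)) :=
    Module.nontrivial_of_finrank_pos (R := ℝ) (by rw [hfr]; norm_num)
  refine ⟨(volume : Measure (WithLp 2 (ℝ × ℝ))).toSphere univ * 2⁻¹, ?_, ?_, ?_⟩
  · exact mul_ne_zero (Measure.measure_univ_ne_zero.2 (Measure.toSphere_ne_zero _)) (by simp)
  · exact ENNReal.mul_ne_top (measure_ne_top _ _) (by simp)
  · intro Ψ hΨ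
    have hΦ : Measurable fun r : ℝ => Ψ (r ^ 2) := hΨ.comp (measurable_id.pow_const 2)
    have h1 := polar_norm (WithLp 2 (ℝ × ℝ)) volume (fun r => Ψ (r ^ 2)) hΦ
    have h2 : ∫⁻ z : ℝ × ℝ, Ψ (z.1 ^ 2 + z.2 ^ 2) =
        ∫⁻ x : WithLp 2 (ℝ × ℝ), Ψ (‖x‖ ^ 2) := by
      rw [← (WithLp.volume_preserving_toLp ℝ ℝ).lintegral_comp
        (f := fun x : WithLp 2 (ℝ × ℝ) => Ψ (‖x‖ ^ 2)) (hΦ.comp measurable_norm)]
      refine lintegral_congr fun z => ?_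
      rw [WithLp.prod_norm_sq_eq_of_L2]
      simp [Real.norm_eq_abs, sq_abs]
    have h3 : ∫⁻ r in Ioi (0 : ℝ), ENNReal.ofReal (r ^ (2 - 1)) * Ψ (r ^ 2) =
        2⁻¹ * ∫⁻ σ in Ioi (0 : ℝ), Ψ σ := by
      rw [← sub_sq Ψ hΨ]
      simp
    rw [h2, h1, hfr, h3, mul_assoc]

theorem rad3 : ∃ K : ℝ≥0∞, K ≠ 0 ∧ K ≠ ⊤ ∧ ∀ Ψ : ℝ → ℝ≥0∞, Measurable Ψ →
    ∫⁻ y : Fin 3 → ℝ, Ψ (nsq y) = K * ∫⁻ σ in Ioi (0 : ℝ), ENNReal.ofReal (Real.sqrt σ) * Ψ σ := by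
  have hfr : Module.finrank ℝ (EuclideanSpace ℝ (Fin 3)) = 3 := by simp
  refine ⟨(volume : Measure (EuclideanSpace ℝ (Fin 3))).toSphere univ * 2⁻¹, ?_, ?_, ?_⟩
  · exact mul_ne_zero (Measure.measure_univ_ne_zero.2 (Measure.toSphere_ne_zero _)) (by simp)
  · exact ENNReal.mul_ne_top (measure_ne_top _ _) (by simp)
  · intro Ψ hΨ
    have hΦ : Measurable fun r : ℝ => Ψ (r ^ 2) := hΨ.comp (measurable_id.pow_const 2)
    have h1 := polar_norm (EuclideanSpace ℝ (Fin 3)) volume (fun r => Ψ (r ^ 2)) hΦ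
    have h2 : ∫⁻ y : Fin 3 → ℝ, Ψ (nsq y) =
        ∫⁻ x : EuclideanSpace ℝ (Fin 3), Ψ (‖x‖ ^ 2) := by
      rw [← (PiLp.volume_preserving_toLp (Fin 3)).lintegral_comp
        (f := fun x : EuclideanSpace ℝ (Fin 3) => Ψ (‖x‖ ^ 2)) (hΦ.comp measurable_norm)]
      refine lintegral_congr fun y => ?_
      rw [EuclideanSpace.norm_sq_eq]
      simp [nsq, Real.norm_eq_abs, sq_abs]
    have hΨ' : Measurable fun σ : ℝ => ENNReal.ofReal (Real.sqrt σ) * Ψ σ :=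
      (ENNReal.measurable_ofReal.comp Real.continuous_sqrt.measurable).mul hΨ
    have h3 : ∫⁻ r in Ioi (0 : ℝ), ENNReal.ofReal (r ^ (3 - 1)) * Ψ (r ^ 2) =
        2⁻¹ * ∫⁻ σ in Ioi (0 : ℝ), ENNReal.ofReal (Real.sqrt σ) * Ψ σ := by
      rw [← sub_sq _ hΨ']
      refine setLIntegral_congr_fun measurableSet_Ioi ?_
      intro r hr
      have hr0 : (0 : ℝ) < r := hr
      show ENNReal.ofReal (r ^ (3 - 1)) * Ψ (r ^ 2) =
        ENNReal.ofReal r * (ENNReal.ofReal (Real.sqrt (r ^ 2)) * Ψ (r ^ 2))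
      rw [Real.sqrt_sq hr0.le, ← mul_assoc, ← ENNReal.ofReal_mul hr0.le]
      congr 2
      ring
    rw [h2, h1, hfr, h3, mul_assoc]

end BorelEq
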