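import Pool.Agent.Lib.MP_75103d_lc.G_Arch

/-! Part (G): the composition of two averages. A3 c2 F is a function G of |y - c2|^2 (A3_radial); |c1 + rotV g (x - c1) - c2|^2 = ρ² + δ² + 2ρδ s, s uniform on [-1,1] by archimedes; affine substitution τ = ρ² + δ² + 2ρδ s. -/

set_option autoImplicit false

open MeasureTheory Set
open scoped ENNReal Quaternion

namespace BorelEq

theorem G_Two_affine (a b p q : ℝ) (ha : 0 < a) (H : ℝ → ℝ≥0∞) (hH : Measurable H) :
    ∫⁻ s in Icc p q, H (a * s + b) =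
      ENNReal.ofReal (1 / a) * ∫⁻ τ in Icc (a * p + b) (a * q + b), H τ := by
  have hK : Measurable ((Icc (a * p + b) (a * q + b)).indicator H) :=
    hH.indicator measurableSet_Icc
  have e1 : ∀ s : ℝ, (Icc p q).indicator (fun s => H (a * s + b)) s =
      (fun t => (Icc (a * p + b) (a * q + b)).indicator H (t + b)) (a * s) := by
    intro s
    by_cases hs : s ∈ Icc p q
    · have h2 : a * s + b ∈ Icc (a * p + b) (a * q + b) := by
        constructor
        · have := mul_le_mul_of_nonneg_left hs.1 ha.le; linarith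
        · have := mul_le_mul_of_nonneg_left hs.2 ha.le; linarith
      simp only [indicator_of_mem hs, indicator_of_mem h2]
    · have h2 : a * s + b ∉ Icc (a * p + b) (a * q + b) := by
        intro h2
        apply hs
        constructor
        · have : a * p ≤ a * s := by linarith [h2.1]
          exact le_of_mul_le_mul_left this ha
        · have : a * s ≤ a * q := by linarith [h2.2]
          exact le_of_mul_le_mul_left this ha
      simp only [indicator_of_notMem hs, indicator_of_notMem h2]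
  rw [← lintegral_indicator measurableSet_Icc, ← lintegral_indicator measurableSet_Icc]
  rw [lintegral_congr e1]
  have hK2 : Measurable (fun t : ℝ => (Icc (a * p + b) (a * q + b)).indicator H (t + b)) :=
    hK.comp (measurable_id.add_const b)
  have h3 := lintegral_map (μ := (volume : Measure ℝ)) hK2 (measurable_const_mul a)
  rw [Real.map_volume_mul_left ha.ne', lintegral_smul_measure] at h3
  rw [← h3, lintegral_add_right_eq_self
    (fun t : ℝ => (Icc (a * p + b) (a * q + b)).indicator H t) b, smul_eq_mul,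
    abs_of_pos (inv_pos.2 ha), one_div]

theorem two_step (c1 c2 : Fin 3 → ℝ) (F : (Fin 3 → ℝ) → ℝ≥0∞) (hF : Measurable F)
    (x : Fin 3 → ℝ) (ρ δ : ℝ) (hρ : 0 < ρ) (hδ : 0 < δ) (h1 : ∑ i, (x i - c1 i) ^ 2 = ρ ^ 2)
    (h2 : ∑ i, (c1 i - c2 i) ^ 2 = δ ^ 2) :
    A3 c1 (A3 c2 F) x = ENNReal.ofReal (1 / (4 * ρ * δ)) *
      ∫⁻ τ in Icc ((ρ - δ) ^ 2) ((ρ + δ) ^ 2), A3 c2 F (c2 + √τ • ![0, 0, 1]) := by
  have hm : Measurable (fun τ : ℝ => A3 c2 F (c2 + √τ • ![0, 0, 1])) := by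
    apply (A3_meas c2 F hF).comp
    apply Measurable.const_add
    apply Continuous.measurable
    exact (Real.continuous_sqrt).smul continuous_const
  have hv : ∑ i, ((ρ⁻¹ • (x - c1)) i) ^ 2 = 1 := by
    have : ∀ i, ((ρ⁻¹ • (x - c1)) i) ^ 2 = (ρ⁻¹) ^ 2 * (x i - c1 i) ^ 2 := by
      intro i
      simp only [Pi.smul_apply, Pi.sub_apply, smul_eq_mul]
      ring
    rw [Finset.sum_congr rfl (fun i _ => this i), ← Finset.mul_sum, h1]
    field_simp
  have hw : ∑ i, ((δ⁻¹ • (c1 - c2)) i) ^ 2 = 1 := by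
    have : ∀ i, ((δ⁻¹ • (c1 - c2)) i) ^ 2 = (δ⁻¹) ^ 2 * (c1 i - c2 i) ^ 2 := by
      intro i
      simp only [Pi.smul_apply, Pi.sub_apply, smul_eq_mul]
      ring
    rw [Finset.sum_congr rfl (fun i _ => this i), ← Finset.mul_sum, h2]
    field_simp
  have harch := archimedes (ρ⁻¹ • (x - c1)) (δ⁻¹ • (c1 - c2)) hv hw
    (fun s => A3 c2 F (c2 + √(2 * ρ * δ * s + (ρ ^ 2 + δ ^ 2)) • ![0, 0, 1]))
    (hm.comp (by fun_prop : Measurable (fun s : ℝ => 2 * ρ * δ * s + (ρ ^ 2 + δ ^ 2))))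
  have e1 : A3 c1 (A3 c2 F) x = ∫⁻ g, (fun s => A3 c2 F
      (c2 + √(2 * ρ * δ * s + (ρ ^ 2 + δ ^ 2)) • ![0, 0, 1]))
      (∑ i, rotV g (ρ⁻¹ • (x - c1)) i * (δ⁻¹ • (c1 - c2)) i) ∂muQ := by
    unfold A3
    apply lintegral_congr
    intro g
    show A3 c2 F (c1 + rotV g (x - c1)) = _
    apply A3_radial c2 F hF
    have hs : 2 * ρ * δ * (∑ i, rotV g (ρ⁻¹ • (x - c1)) i * (δ⁻¹ • (c1 - c2)) i) =
        2 * ∑ i, rotV g (x - c1) i * (c1 i - c2 i) := by
      rw [rotV_smul, Finset.mul_sum, Finset.mul_sum]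
      apply Finset.sum_congr rfl
      intro i _
      simp only [Pi.smul_apply, Pi.sub_apply, smul_eq_mul]
      field_simp
    have hn : ∑ i, rotV g (x - c1) i * rotV g (x - c1) i = ρ ^ 2 := by
      rw [rotV_inner, ← h1]
      apply Finset.sum_congr rfl
      intro i _
      simp only [Pi.sub_apply]
      ring
    have hL : ∑ i, ((c1 + rotV g (x - c1)) i - c2 i) ^ 2 =
        2 * ρ * δ * (∑ i, rotV g (ρ⁻¹ • (x - c1)) i * (δ⁻¹ • (c1 - c2)) i) + (ρ ^ 2 + δ ^ 2) := by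
      rw [hs, ← hn, ← h2, Finset.mul_sum, ← Finset.sum_add_distrib, ← Finset.sum_add_distrib]
      apply Finset.sum_congr rfl
      intro i _
      simp only [Pi.add_apply]
      ring
    have hpos : 0 ≤ 2 * ρ * δ * (∑ i, rotV g (ρ⁻¹ • (x - c1)) i * (δ⁻¹ • (c1 - c2)) i) +
        (ρ ^ 2 + δ ^ 2) := by
      rw [← hL]
      exact Finset.sum_nonneg (fun i _ => sq_nonneg _)
    rw [hL]
    have hz : ∀ S : ℝ, 0 ≤ S → S = ∑ i, ((c2 + √S • (![0, 0, 1] : Fin 3 → ℝ)) i - c2 i) ^ 2 := by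
      intro S hS
      rw [Fin.sum_univ_three]
      simp [Real.sq_sqrt hS]
    exact hz _ hpos
  rw [e1, harch]
  have haff := G_Two_affine (2 * ρ * δ) (ρ ^ 2 + δ ^ 2) (-1) 1 (by positivity)
    (fun τ : ℝ => A3 c2 F (c2 + √τ • ![0, 0, 1])) hm
  rw [haff, ← mul_assoc, ← ENNReal.ofReal_mul (by norm_num)]
  have e2 : (1 : ℝ) / 2 * (1 / (2 * ρ * δ)) = 1 / (4 * ρ * δ) := by
    field_simp
    norm_num
  have e3 : 2 * ρ * δ * -1 + (ρ ^ 2 + δ ^ 2) = (ρ - δ) ^ 2 := by ring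
  have e4 : 2 * ρ * δ * 1 + (ρ ^ 2 + δ ^ 2) = (ρ + δ) ^ 2 := by ring
  rw [e2, e3, e4]

theorem third_step (c y : Fin 3 → ℝ) (r : ℝ) (hr : 0 < r) (h : ∑ i, (y i - c i) ^ 2 = r ^ 2)
    (u : ℝ → ℝ≥0∞) (hu : Measurable u) :
    A3 c (fun z => u (z 2)) y = ENNReal.ofReal (1 / (2 * r)) * ∫⁻ t in Icc (c 2 - r) (c 2 + r), u t := by
  have hv : ∑ i, ((r⁻¹ • (y - c)) i) ^ 2 = 1 := by
    have : ∀ i, ((r⁻¹ • (y - c)) i) ^ 2 = (r⁻¹) ^ 2 * (y i - c i) ^ 2 := by
      intro i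
      simp only [Pi.smul_apply, Pi.sub_apply, smul_eq_mul]
      ring
    rw [Finset.sum_congr rfl (fun i _ => this i), ← Finset.mul_sum, h]
    field_simp
  have hw : ∑ i, ((![0, 0, 1] : Fin 3 → ℝ) i) ^ 2 = 1 := by
    rw [Fin.sum_univ_three]
    simp
  have harch := archimedes (r⁻¹ • (y - c)) ![0, 0, 1] hv hw (fun s => u (r * s + c 2))
    (hu.comp (by fun_prop : Measurable (fun s : ℝ => r * s + c 2)))
  have e1 : A3 c (fun z => u (z 2)) y = ∫⁻ g, (fun s => u (r * s + c 2))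
      (∑ i, rotV g (r⁻¹ • (y - c)) i * (![0, 0, 1] : Fin 3 → ℝ) i) ∂muQ := by
    unfold A3
    apply lintegral_congr
    intro g
    show u ((c + rotV g (y - c)) 2) = u _
    congr 1
    rw [rotV_smul, Fin.sum_univ_three]
    simp only [Pi.add_apply, Pi.smul_apply, smul_eq_mul]
    have h0 : (![0, 0, 1] : Fin 3 → ℝ) 0 = 0 := rfl
    have h1 : (![0, 0, 1] : Fin 3 → ℝ) 1 = 0 := rfl
    have h2 : (![0, 0, 1] : Fin 3 → ℝ) 2 = 1 := rfl
    rw [h0, h1, h2]
    field_simp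
    ring
  rw [e1, harch]
  have haff := G_Two_affine r (c 2) (-1) 1 hr u hu
  rw [haff, ← mul_assoc, ← ENNReal.ofReal_mul (by norm_num)]
  have e2 : (1 : ℝ) / 2 * (1 / r) = 1 / (2 * r) := by
    field_simp
  have e3 : r * -1 + c 2 = c 2 - r := by ring
  have e4 : r * 1 + c 2 = c 2 + r := by ring
  rw [e2, e3, e4]

end BorelEq
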