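import Pool.Agent.Lib.MP_75103d_lc.G_Defs

/-! Part (G): algebra of rotV. Direct computations with quaternions (norm (g) = 1). rotV_trans: for unit v, w with w != -v use g = (1 - w v)/|1 - w v|; for w = -v use a unit u orthogonal to v. -/

set_option autoImplicit false

open MeasureTheory Set
open scoped ENNReal Quaternion

namespace BorelEq

theorem G_Vec_re (v : Fin 3 → ℝ) : (toQ v).re = 0 := rfl

theorem G_Vec_imI (v : Fin 3 → ℝ) : (toQ v).imI = v 0 := rfl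

theorem G_Vec_imJ (v : Fin 3 → ℝ) : (toQ v).imJ = v 1 := rfl

theorem G_Vec_imK (v : Fin 3 → ℝ) : (toQ v).imK = v 2 := rfl

/-- sum of the squares of the coordinates of a unit quaternion -/
theorem G_Vec_unit (g : UQ) : (g : ℍ[ℝ]).re ^ 2 + (g : ℍ[ℝ]).imI ^ 2 + (g : ℍ[ℝ]).imJ ^ 2 +
    (g : ℍ[ℝ]).imK ^ 2 = 1 := by
  rw [← Quaternion.normSq_def', Quaternion.normSq_eq_norm_mul_self]
  have h : ‖(g : ℍ[ℝ])‖ = 1 := by
    have := g.2
    rwa [mem_sphere_zero_iff_norm] at this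
  rw [h, one_mul]

theorem G_Vec_star (g : UQ) : (g : ℍ[ℝ]) * star (g : ℍ[ℝ]) = 1 := by
  rw [Quaternion.self_mul_star, Quaternion.normSq_def', G_Vec_unit]
  rfl

theorem G_Vec_norm (g : UQ) : ‖(g : ℍ[ℝ])‖ = 1 := by
  have := g.2
  rwa [mem_sphere_zero_iff_norm] at this

/-- the first coordinate of a rotated vector -/
theorem G_Vec_0 (g : UQ) (v : Fin 3 → ℝ) : rotV g v 0 =
    ((g : ℍ[ℝ]).re ^ 2 + (g : ℍ[ℝ]).imI ^ 2 - (g : ℍ[ℝ]).imJ ^ 2 - (g : ℍ[ℝ]).imK ^ 2) * v 0 +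
      2 * ((g : ℍ[ℝ]).imI * (g : ℍ[ℝ]).imJ - (g : ℍ[ℝ]).re * (g : ℍ[ℝ]).imK) * v 1 +
      2 * ((g : ℍ[ℝ]).imI * (g : ℍ[ℝ]).imK + (g : ℍ[ℝ]).re * (g : ℍ[ℝ]).imJ) * v 2 := by
  change ((g : ℍ[ℝ]) * toQ v * star (g : ℍ[ℝ])).imI = _
  simp only [Quaternion.re_mul, Quaternion.imI_mul, Quaternion.imJ_mul, Quaternion.imK_mul,
    Quaternion.re_star, Quaternion.imI_star, Quaternion.imJ_star, Quaternion.imK_star, G_Vec_re,
    G_Vec_imI, G_Vec_imJ, G_Vec_imK]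
  ring

theorem G_Vec_1 (g : UQ) (v : Fin 3 → ℝ) : rotV g v 1 =
    2 * ((g : ℍ[ℝ]).imI * (g : ℍ[ℝ]).imJ + (g : ℍ[ℝ]).re * (g : ℍ[ℝ]).imK) * v 0 +
      ((g : ℍ[ℝ]).re ^ 2 - (g : ℍ[ℝ]).imI ^ 2 + (g : ℍ[ℝ]).imJ ^ 2 - (g : ℍ[ℝ]).imK ^ 2) * v 1 +
      2 * ((g : ℍ[ℝ]).imJ * (g : ℍ[ℝ]).imK - (g : ℍ[ℝ]).re * (g : ℍ[ℝ]).imI) * v 2 := by
  change ((g : ℍ[ℝ]) * toQ v * star (g : ℍ[ℝ])).imJ = _
  simp only [Quaternion.re_mul, Quaternion.imI_mul, Quaternion.imJ_mul, Quaternion.imK_mul,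
    Quaternion.re_star, Quaternion.imI_star, Quaternion.imJ_star, Quaternion.imK_star, G_Vec_re,
    G_Vec_imI, G_Vec_imJ, G_Vec_imK]
  ring

theorem G_Vec_2 (g : UQ) (v : Fin 3 → ℝ) : rotV g v 2 =
    2 * ((g : ℍ[ℝ]).imI * (g : ℍ[ℝ]).imK - (g : ℍ[ℝ]).re * (g : ℍ[ℝ]).imJ) * v 0 +
      2 * ((g : ℍ[ℝ]).imJ * (g : ℍ[ℝ]).imK + (g : ℍ[ℝ]).re * (g : ℍ[ℝ]).imI) * v 1 +
      ((g : ℍ[ℝ]).re ^ 2 - (g : ℍ[ℝ]).imI ^ 2 - (g : ℍ[ℝ]).imJ ^ 2 + (g : ℍ[ℝ]).imK ^ 2) * v 2 := by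
  change ((g : ℍ[ℝ]) * toQ v * star (g : ℍ[ℝ])).imK = _
  simp only [Quaternion.re_mul, Quaternion.imI_mul, Quaternion.imJ_mul, Quaternion.imK_mul,
    Quaternion.re_star, Quaternion.imI_star, Quaternion.imJ_star, Quaternion.imK_star, G_Vec_re,
    G_Vec_imI, G_Vec_imJ, G_Vec_imK]
  ring

/-- conjugation of a pure quaternion is pure -/
theorem G_Vec_toQ (g : UQ) (v : Fin 3 → ℝ) :
    toQ (rotV g v) = (g : ℍ[ℝ]) * toQ v * star (g : ℍ[ℝ]) := by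
  have hr : ((g : ℍ[ℝ]) * toQ v * star (g : ℍ[ℝ])).re = 0 := by
    simp only [Quaternion.re_mul, Quaternion.imI_mul, Quaternion.imJ_mul, Quaternion.imK_mul,
      Quaternion.re_star, Quaternion.imI_star, Quaternion.imJ_star, Quaternion.imK_star, G_Vec_re,
      G_Vec_imI, G_Vec_imJ, G_Vec_imK]
    ring
  apply Quaternion.ext
  · rw [hr]
    rfl
  · rfl
  · rfl
  · rfl

theorem G_Vec_inj {v w : Fin 3 → ℝ} (h : toQ v = toQ w) : v = w := by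
  funext i
  fin_cases i
  · exact congrArg QuaternionAlgebra.imI h
  · exact congrArg QuaternionAlgebra.imJ h
  · exact congrArg QuaternionAlgebra.imK h

theorem G_Vec_nsq (v : Fin 3 → ℝ) : ‖toQ v‖ ^ 2 = ∑ i, (v i) ^ 2 := by
  rw [sq, ← Quaternion.normSq_eq_norm_mul_self, Quaternion.normSq_def', G_Vec_re, G_Vec_imI,
    G_Vec_imJ, G_Vec_imK, Fin.sum_univ_three]
  ring

theorem rotV_one (v : Fin 3 → ℝ) : rotV 1 v = v := by
  apply G_Vec_inj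
  rw [G_Vec_toQ]
  change (1 : ℍ[ℝ]) * toQ v * star (1 : ℍ[ℝ]) = toQ v
  rw [star_one, one_mul, mul_one]

theorem rotV_mul (g h : UQ) (v : Fin 3 → ℝ) : rotV (g * h) v = rotV g (rotV h v) := by
  apply G_Vec_inj
  rw [G_Vec_toQ, G_Vec_toQ, G_Vec_toQ]
  change ((g : ℍ[ℝ]) * (h : ℍ[ℝ])) * toQ v * star ((g : ℍ[ℝ]) * (h : ℍ[ℝ])) = _
  rw [star_mul]
  simp only [mul_assoc]

theorem rotV_add (g : UQ) (v w : Fin 3 → ℝ) : rotV g (v + w) = rotV g v + rotV g w := by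
  funext i
  fin_cases i
  · simp only [Fin.zero_eta, Pi.add_apply, G_Vec_0]
    ring
  · simp only [Fin.mk_one, Pi.add_apply, G_Vec_1]
    ring
  · simp only [Fin.reduceFinMk, Pi.add_apply, G_Vec_2]
    ring

theorem rotV_smul (g : UQ) (a : ℝ) (v : Fin 3 → ℝ) : rotV g (a • v) = a • rotV g v := by
  funext i
  fin_cases i
  · simp only [Fin.zero_eta, Pi.smul_apply, smul_eq_mul, G_Vec_0]
    ring
  · simp only [Fin.mk_one, Pi.smul_apply, smul_eq_mul, G_Vec_1]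
    ring
  · simp only [Fin.reduceFinMk, Pi.smul_apply, smul_eq_mul, G_Vec_2]
    ring

theorem rotV_cont : Continuous (fun p : UQ × (Fin 3 → ℝ) => rotV p.1 p.2) := by
  have h0 : Continuous fun p : UQ × (Fin 3 → ℝ) => ((p.1 : ℍ[ℝ])).re :=
    Quaternion.continuous_re.comp (continuous_subtype_val.comp continuous_fst)
  have h1 : Continuous fun p : UQ × (Fin 3 → ℝ) => ((p.1 : ℍ[ℝ])).imI :=
    Quaternion.continuous_imI.comp (continuous_subtype_val.comp continuous_fst)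
  have h2 : Continuous fun p : UQ × (Fin 3 → ℝ) => ((p.1 : ℍ[ℝ])).imJ :=
    Quaternion.continuous_imJ.comp (continuous_subtype_val.comp continuous_fst)
  have h3 : Continuous fun p : UQ × (Fin 3 → ℝ) => ((p.1 : ℍ[ℝ])).imK :=
    Quaternion.continuous_imK.comp (continuous_subtype_val.comp continuous_fst)
  have k : ∀ i : Fin 3, Continuous fun p : UQ × (Fin 3 → ℝ) => p.2 i := fun i =>
    (continuous_apply i).comp continuous_snd
  refine continuous_pi fun i => ?_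
  fin_cases i
  · simp only [Fin.zero_eta, G_Vec_0]
    exact (((((h0.pow 2).add (h1.pow 2)).sub (h2.pow 2)).sub (h3.pow 2)).mul (k 0)).add
      ((continuous_const.mul ((h1.mul h2).sub (h0.mul h3))).mul (k 1)) |>.add
      ((continuous_const.mul ((h1.mul h3).add (h0.mul h2))).mul (k 2))
  · simp only [Fin.mk_one, G_Vec_1]
    exact ((continuous_const.mul ((h1.mul h2).add (h0.mul h3))).mul (k 0)).add
      (((((h0.pow 2).sub (h1.pow 2)).add (h2.pow 2)).sub (h3.pow 2)).mul (k 1)) |>.add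
      ((continuous_const.mul ((h2.mul h3).sub (h0.mul h1))).mul (k 2))
  · simp only [Fin.reduceFinMk, G_Vec_2]
    exact ((continuous_const.mul ((h1.mul h3).sub (h0.mul h2))).mul (k 0)).add
      ((continuous_const.mul ((h2.mul h3).add (h0.mul h1))).mul (k 1)) |>.add
      (((((h0.pow 2).sub (h1.pow 2)).sub (h2.pow 2)).add (h3.pow 2)).mul (k 2))

theorem rotV_meas : Measurable (fun p : UQ × (Fin 3 → ℝ) => rotV p.1 p.2) :=
  rotV_cont.measurable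

theorem rotV_inner (g : UQ) (v w : Fin 3 → ℝ) :
    ∑ i, rotV g v i * rotV g w i = ∑ i, v i * w i := by
  have h := G_Vec_unit g
  rw [Fin.sum_univ_three, Fin.sum_univ_three, G_Vec_0, G_Vec_1, G_Vec_2, G_Vec_0, G_Vec_1,
    G_Vec_2]
  linear_combination (((g : ℍ[ℝ]).re ^ 2 + (g : ℍ[ℝ]).imI ^ 2 + (g : ℍ[ℝ]).imJ ^ 2 +
    (g : ℍ[ℝ]).imK ^ 2 + 1) * (v 0 * w 0 + v 1 * w 1 + v 2 * w 2)) * h

theorem rotV_lip (g : UQ) (v : Fin 3 → ℝ) :
    ∑ i, (rotV g v i - v i) ^ 2 ≤ (2 * nrmQ g) ^ 2 * ∑ i, (v i) ^ 2 := by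
  have h1 : ∑ i, (rotV g v i - v i) ^ 2 = ‖toQ (rotV g v) - toQ v‖ ^ 2 := by
    rw [← G_Vec_nsq (fun i => rotV g v i - v i)]
    have h0 : (toQ fun i => rotV g v i - v i) = toQ (rotV g v) - toQ v := by
      apply Quaternion.ext
      · change (0 : ℝ) = 0 - 0
        ring
      · rfl
      · rfl
      · rfl
    rw [h0]
  have h2 : toQ (rotV g v) - toQ v =
      (((g : ℍ[ℝ]) - 1) * toQ v - toQ v * ((g : ℍ[ℝ]) - 1)) * star (g : ℍ[ℝ]) := by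
    rw [G_Vec_toQ]
    have h3 : toQ v * (g : ℍ[ℝ]) * star (g : ℍ[ℝ]) = toQ v := by
      rw [mul_assoc, G_Vec_star, mul_one]
    have h4 : ((g : ℍ[ℝ]) - 1) * toQ v - toQ v * ((g : ℍ[ℝ]) - 1) =
        (g : ℍ[ℝ]) * toQ v - toQ v * (g : ℍ[ℝ]) := by noncomm_ring
    rw [h4, sub_mul, h3]
  have h5 : ‖toQ (rotV g v) - toQ v‖ ≤ 2 * nrmQ g * ‖toQ v‖ := by
    rw [h2, norm_mul, norm_star, G_Vec_norm, mul_one]
    refine (norm_sub_le _ _).trans ?_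
    rw [norm_mul, norm_mul]
    unfold nrmQ
    linarith [mul_comm ‖toQ v‖ ‖(g : ℍ[ℝ]) - 1‖]
  rw [h1, ← G_Vec_nsq, ← mul_pow]
  exact pow_le_pow_left₀ (norm_nonneg _) h5 2

theorem G_Vec_of {v w : Fin 3 → ℝ} (q : ℍ[ℝ]) (hq : q ≠ 0) (h : q * toQ v = toQ w * q) :
    ∃ g, rotV g v = w := by
  have hn : ‖q‖ ≠ 0 := norm_ne_zero_iff.2 hq
  have hm : (‖q‖⁻¹ • q) ∈ Metric.sphere (0 : ℍ[ℝ]) 1 := by
    rw [mem_sphere_zero_iff_norm, norm_smul, norm_inv, norm_norm, inv_mul_cancel₀ hn]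
  obtain ⟨g, hg⟩ : ∃ g : UQ, (g : ℍ[ℝ]) = ‖q‖⁻¹ • q := ⟨⟨_, hm⟩, rfl⟩
  refine ⟨g, ?_⟩
  apply G_Vec_inj
  rw [G_Vec_toQ]
  have h1 : (g : ℍ[ℝ]) * toQ v = toQ w * (g : ℍ[ℝ]) := by
    rw [hg, smul_mul_assoc, h, mul_smul_comm]
  rw [h1, mul_assoc, G_Vec_star, mul_one]

theorem rotV_trans (v w : Fin 3 → ℝ) (h : ∑ i, (v i) ^ 2 = ∑ i, (w i) ^ 2) : ∃ g, rotV g v = w := by
  rw [Fin.sum_univ_three, Fin.sum_univ_three] at h
  obtain ⟨q, hq⟩ : ∃ q : ℍ[ℝ], q = ⟨v 0 ^ 2 + v 1 ^ 2 + v 2 ^ 2 + (w 0 * v 0 + w 1 * v 1 + w 2 * v 2),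
      -(w 1 * v 2 - w 2 * v 1), -(w 2 * v 0 - w 0 * v 2), -(w 0 * v 1 - w 1 * v 0)⟩ := ⟨_, rfl⟩
  have q0 : q.re = v 0 ^ 2 + v 1 ^ 2 + v 2 ^ 2 + (w 0 * v 0 + w 1 * v 1 + w 2 * v 2) := by rw [hq]
  have q1 : q.imI = -(w 1 * v 2 - w 2 * v 1) := by rw [hq]
  have q2 : q.imJ = -(w 2 * v 0 - w 0 * v 2) := by rw [hq]
  have q3 : q.imK = -(w 0 * v 1 - w 1 * v 0) := by rw [hq]
  by_cases hz : q = 0
  · -- then `w = - v`
    have hw : ∀ i, w i = - v i := by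
      have e0 : v 0 ^ 2 + v 1 ^ 2 + v 2 ^ 2 + (w 0 * v 0 + w 1 * v 1 + w 2 * v 2) = 0 := by
        rw [← q0, hz]
        rfl
      have e1 : (w 0 + v 0) ^ 2 + (w 1 + v 1) ^ 2 + (w 2 + v 2) ^ 2 = 0 := by
        linear_combination 2 * e0 - h
      have g0 : w 0 + v 0 = 0 := by nlinarith [sq_nonneg (w 0 + v 0), sq_nonneg (w 1 + v 1), sq_nonneg (w 2 + v 2)]
      have g1 : w 1 + v 1 = 0 := by nlinarith [sq_nonneg (w 0 + v 0), sq_nonneg (w 1 + v 1), sq_nonneg (w 2 + v 2)]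
      have g2 : w 2 + v 2 = 0 := by nlinarith [sq_nonneg (w 0 + v 0), sq_nonneg (w 1 + v 1), sq_nonneg (w 2 + v 2)]
      intro i
      fin_cases i
      · exact eq_neg_of_add_eq_zero_left g0
      · exact eq_neg_of_add_eq_zero_left g1
      · exact eq_neg_of_add_eq_zero_left g2
    by_cases hv : v 0 = 0 ∧ v 1 = 0
    · refine G_Vec_of (v := v) (w := w) (⟨0, 1, 0, 0⟩ : ℍ[ℝ]) ?_ ?_
      · intro hc
        have := congrArg QuaternionAlgebra.imI hc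
        exact one_ne_zero this
      · obtain ⟨u, hu⟩ : ∃ u : ℍ[ℝ], u = ⟨0, 1, 0, 0⟩ := ⟨_, rfl⟩
        have u0 : u.re = 0 := by rw [hu]
        have u1 : u.imI = 1 := by rw [hu]
        have u2 : u.imJ = 0 := by rw [hu]
        have u3 : u.imK = 0 := by rw [hu]
        rw [← hu]
        apply Quaternion.ext <;>
          simp only [Quaternion.re_mul, Quaternion.imI_mul, Quaternion.imJ_mul,
            Quaternion.imK_mul, G_Vec_re, G_Vec_imI, G_Vec_imJ, G_Vec_imK, u0, u1, u2, u3, hw,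
            hv.1, hv.2] <;> ring
    · obtain ⟨u, hu⟩ : ∃ u : ℍ[ℝ], u = ⟨0, v 1, - v 0, 0⟩ := ⟨_, rfl⟩
      have u0 : u.re = 0 := by rw [hu]
      have u1 : u.imI = v 1 := by rw [hu]
      have u2 : u.imJ = - v 0 := by rw [hu]
      have u3 : u.imK = 0 := by rw [hu]
      refine G_Vec_of (v := v) (w := w) u ?_ ?_
      · intro hc
        refine hv ⟨?_, ?_⟩
        · have := u2
          rw [hc] at this
          have h2 : (0 : ℝ) = - v 0 := this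
          linarith
        · have := u1
          rw [hc] at this
          have h2 : (0 : ℝ) = v 1 := this
          linarith
      · apply Quaternion.ext <;>
          simp only [Quaternion.re_mul, Quaternion.imI_mul, Quaternion.imJ_mul,
            Quaternion.imK_mul, G_Vec_re, G_Vec_imI, G_Vec_imJ, G_Vec_imK, u0, u1, u2, u3, hw] <;>
          ring
  · refine G_Vec_of (v := v) (w := w) q hz ?_
    apply Quaternion.ext
    · simp only [Quaternion.re_mul, G_Vec_re, G_Vec_imI, G_Vec_imJ, G_Vec_imK, q0, q1, q2, q3]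
      ring
    · simp only [Quaternion.imI_mul, G_Vec_re, G_Vec_imI, G_Vec_imJ, G_Vec_imK, q0, q1, q2, q3]
      linear_combination (v 0) * h
    · simp only [Quaternion.imJ_mul, G_Vec_re, G_Vec_imI, G_Vec_imJ, G_Vec_imK, q0, q1, q2, q3]
      linear_combination (v 1) * h
    · simp only [Quaternion.imK_mul, G_Vec_re, G_Vec_imI, G_Vec_imJ, G_Vec_imK, q0, q1, q2, q3]
      linear_combination (v 2) * h

end BorelEq
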