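import Pool.Agent.Lib.MP_75103d_lc.C_Fin
import Pool.Agent.Lib.MP_75103d_lc.C_SB

/-! Interface of part (C). -/

set_option autoImplicit false

open MeasureTheory Set

namespace BorelEq

/-- (C5) absorption. -/
theorem absorb (n : ℕ) (hn : 3 ≤ n) (R : ℝ) (hR : 0 < R) (O : Set (Eu n)) (hO : IsOpen O)
    (hO' : O.Nonempty) :
    ∃ Ξ : Finset (Eu n ≃ᵢ Eu n), ∀ X : Set (Eu n), MeasurableSet X → volume X = 0 →
      (∀ ξ ∈ Ξ, ξ '' X = X) → Le' (ind (X ∩ Metric.closedBall 0 R)) (ind (X ∩ O)) :=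
  absorb_aux n hn R hR O hO hO'

/-- (C6) Schroeder–Bernstein. -/
theorem schroeder_bernstein {n : ℕ} (A B : Set (Eu n)) (hA : MeasurableSet A) (hB : MeasurableSet B)
    (h1 : Le' (ind A) (ind B)) (h2 : Le' (ind B) (ind A)) : Dec (ind A) (ind B) :=
  sb_aux A B hA hB h1 h2

end BorelEq
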