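import Pool.Agent.Lib.MP_75103d_lc.D1_Exp

/-! Interface of part (D1): expansion (uses spectral_gap and kernel_bounds). -/

set_option autoImplicit false

open MeasureTheory Set

namespace BorelEq

/-- (D1) expansion. -/
theorem expansion (n : ℕ) (hn : 3 ≤ n) (A B : Set (Eu n)) (hA : MeasurableSet A)
    (hB : MeasurableSet B) (hAb : Bornology.IsBounded A) (hBb : Bornology.IsBounded B)
    (_hAi : (interior A).Nonempty) (hBi : (interior B).Nonempty) :
    ∃ (m : ℕ) (γ : Fin m → (Eu n ≃ᵢ Eu n)), ∀ Y : Set (Eu n), MeasurableSet Y → Y ⊆ A →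
      min (4 * volume Y) (3 / 4 * volume B) ≤ volume (B ∩ ⋃ a, γ a '' Y) :=
  expansion_aux n hn A B hA hB hAb hBb hBi

end BorelEq
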