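import Pool.Agent.Lib.MP_75103d_lc.Defs
import Pool.Agent.Lib.MP_75103d_lc.A_Mu
import Pool.Agent.Lib.MP_75103d_lc.A_LMain

/-! Interface of part (A): spectral gap. -/

set_option autoImplicit false

open MeasureTheory Set

namespace BorelEq

/-- Basic facts on `muQ`. -/
theorem muQ_prob : IsProbabilityMeasure muQ := GapT.muQ_prob'

theorem muQ_left (u : UQ) : MeasurePreserving (fun g : UQ => u * g) muQ muQ :=
  GapT.muQ_left' u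

theorem muQ_right (u : UQ) : MeasurePreserving (fun g : UQ => g * u) muQ muQ :=
  GapT.muQ_right' u

/-- (A4) -/
theorem muQ_ball : ∃ c : ℝ, 0 < c ∧ ∀ δ : ℝ, 0 < δ → δ ≤ 1 →
    c * δ ^ 3 ≤ (muQ {g : UQ | nrmQ g < δ}).toReal :=
  GapT.muQ_ball'

/-- (A) the spectral gap, arbitrarily small. -/
theorem spectral_gap (ρ : ℝ) (hρ : 0 < ρ) :
    ∃ (d : ℕ) (s : Fin d → UQ) (ι : Fin d → Fin d), 0 < d ∧ (∀ i, ι (ι i) = i) ∧
      (∀ i, s (ι i) = (s i)⁻¹) ∧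
      ∀ f : UQ → ℝ, Measurable f → (∃ C, ∀ g, |f g| ≤ C) →
        ∫ g, ((∑ i, f (s i * g)) / d - ∫ h, f h ∂muQ) ^ 2 ∂muQ ≤ ρ ^ 2 * ∫ g, (f g) ^ 2 ∂muQ :=
  GapT.spectral_gap' ρ hρ

end BorelEq
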