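import Pool.Agent.Lib.MP_75103d_lc.D2_Main
import Pool.Agent.Lib.MP_75103d_lc.D2_Vol

/-! Interface of part (D2): matching. -/

set_option autoImplicit false

open MeasureTheory Set

namespace BorelEq

/-- (D2) matching. -/
theorem matching (n : ℕ) (A B : Set (Eu n)) (hA : MeasurableSet A)
    (hB : MeasurableSet B) (hAB : volume A = volume B) (hfin : volume A ≠ ⊤)
    (m : ℕ) (γ : Fin m → (Eu n ≃ᵢ Eu n))
    (h1 : ∀ Y : Set (Eu n), MeasurableSet Y → Y ⊆ A →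
      min (4 * volume Y) (3 / 4 * volume B) ≤ volume (B ∩ ⋃ a, γ a '' Y))
    (h2 : ∀ Y : Set (Eu n), MeasurableSet Y → Y ⊆ B →
      min (4 * volume Y) (3 / 4 * volume A) ≤ volume (A ∩ ⋃ a, (γ a).symm '' Y)) :
    ∃ P : Fin m → Set (Eu n), (∀ a, MeasurableSet (P a)) ∧ (∀ a, P a ⊆ A) ∧
      (∀ a, γ a '' P a ⊆ B) ∧ Pairwise (fun a b => Disjoint (P a) (P b)) ∧
      Pairwise (fun a b => Disjoint (γ a '' P a) (γ b '' P b)) ∧
      volume (A \ ⋃ a, P a) = 0 ∧ volume (B \ ⋃ a, γ a '' P a) = 0 :=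
  D2_matching hA hB hAB hfin (fun a => D2_vol n (γ a)) h1 h2

end BorelEq
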