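import Pool.Agent.Lib.MP_75103d_lc.IAbs
import Pool.Agent.Lib.MP_75103d_lc.IExp
import Pool.Agent.Lib.MP_75103d_lc.IMatch
import Pool.Agent.Lib.MP_75103d_lc.E_Aux
import Pool.Agent.Lib.MP_75103d_lc.C_Dec2

/-! Assembly, part (E). -/

set_option autoImplicit false

open MeasureTheory Set

namespace BorelEq

theorem Main_ind_meas {n : ℕ} {A : Set (Eu n)} (hA : MeasurableSet A) : Measurable (ind A) := by
  unfold ind
  exact measurable_const.indicator hA

theorem Main_ind_le {n : ℕ} {A B : Set (Eu n)} (h : A ⊆ B) (x : Eu n) : ind A x ≤ ind B x := by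
  unfold ind
  exact indicator_le_indicator_of_subset h (fun _ => Nat.zero_le _) x

theorem Main_ind_one {n : ℕ} (A : Set (Eu n)) (x : Eu n) : ind A x ≤ 1 := by
  unfold ind
  by_cases h : x ∈ A
  · simp [h]
  · simp [h]

/-- absorption from one set to the other -/
theorem Main_absorb {n : ℕ} {A B X : Set (Eu n)} {R : ℝ} (hA : MeasurableSet A)
    (hX : MeasurableSet X) (hAR : A ⊆ Metric.closedBall 0 R)
    (h : Le' (ind (X ∩ Metric.closedBall 0 R)) (ind (X ∩ interior B))) :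
    Le' (ind (A ∩ X)) (ind (B ∩ X)) := by
  have h1 : Le' (ind (A ∩ X)) (ind (X ∩ Metric.closedBall 0 R)) :=
    Le'_of_le (Main_ind_meas (hA.inter hX)) 1 (Main_ind_one _)
      (Main_ind_le (fun x hx => ⟨hx.2, hAR hx.1⟩))
  exact Le'_mono (Le'_trans h1 h) (Main_ind_le (fun x hx => ⟨interior_subset hx.2, hx.1⟩))

theorem Main_split {n : ℕ} (A X : Set (Eu n)) :
    (fun x => ind (A \ X) x + ind (A ∩ X) x) = ind A := by
  funext x
  unfold ind
  by_cases h : x ∈ A <;> by_cases h' : x ∈ X <;> simp [h, h']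

theorem main_theorem :
    ∀ n : ℕ, 3 ≤ n →
      ∀ A B : Set (EuclideanSpace ℝ (Fin n)),
        MeasurableSet A → MeasurableSet B →
        Bornology.IsBounded A → Bornology.IsBounded B →
        (interior A).Nonempty → (interior B).Nonempty →
        MeasureTheory.volume A = MeasureTheory.volume B →
        ∃ m : ℕ, ∃ P : Fin m → Set (EuclideanSpace ℝ (Fin n)),
          ∃ γ : Fin m → (EuclideanSpace ℝ (Fin n) ≃ᵢ EuclideanSpace ℝ (Fin n)),
            (∀ i, MeasurableSet (P i)) ∧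
            Pairwise (fun i j => Disjoint (P i) (P j)) ∧
            (⋃ i, P i) = A ∧
            Pairwise (fun i j => Disjoint (γ i '' P i) (γ j '' P j)) ∧
            (⋃ i, γ i '' P i) = B := by
  classical
  intro n hn A B hA hB hAb hBb hAi hBi hvol
  obtain ⟨m1, γ1, h1⟩ := expansion n hn A B hA hB hAb hBb hAi hBi
  obtain ⟨m2, γ2, h2⟩ := expansion n hn B A hB hA hBb hAb hBi hAi
  have hfin : volume A ≠ ⊤ := hAb.measure_lt_top.ne
  -- the combined family
  set γ : Fin (m1 + m2) → (Eu n ≃ᵢ Eu n) := Fin.append γ1 (fun a => (γ2 a).symm) with hγ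
  have hγl : ∀ a, γ (Fin.castAdd m2 a) = γ1 a := fun a => by simp [hγ]
  have hγr : ∀ a, γ (Fin.natAdd m1 a) = (γ2 a).symm := fun a => by simp [hγ]
  have h1' : ∀ Y : Set (Eu n), MeasurableSet Y → Y ⊆ A →
      min (4 * volume Y) (3 / 4 * volume B) ≤ volume (B ∩ ⋃ a, γ a '' Y) := by
    intro Y hY hYA
    refine (h1 Y hY hYA).trans (measure_mono (inter_subset_inter_right _ ?_))
    refine iUnion_subset fun a => ?_
    rw [← hγl a]
    exact subset_iUnion (fun a => γ a '' Y) (Fin.castAdd m2 a)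
  have h2' : ∀ Y : Set (Eu n), MeasurableSet Y → Y ⊆ B →
      min (4 * volume Y) (3 / 4 * volume A) ≤ volume (A ∩ ⋃ a, (γ a).symm '' Y) := by
    intro Y hY hYB
    refine (h2 Y hY hYB).trans (measure_mono (inter_subset_inter_right _ ?_))
    refine iUnion_subset fun a => ?_
    have h3 : γ2 a '' Y = (γ (Fin.natAdd m1 a)).symm '' Y := by
      rw [hγr a]
      rfl
    rw [h3]
    exact subset_iUnion (fun a => (γ a).symm '' Y) (Fin.natAdd m1 a)
  obtain ⟨P, hP, hPA, hPB, hd, hd', h0A, h0B⟩ :=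
    matching n A B hA hB hvol hfin (m1 + m2) γ h1' h2'
  -- the radius
  obtain ⟨R1, hR1⟩ := hAb.subset_closedBall 0
  obtain ⟨R2, hR2⟩ := hBb.subset_closedBall 0
  set R : ℝ := max 1 (max R1 R2) with hRdef
  have hR : 0 < R := lt_of_lt_of_le one_pos (le_max_left _ _)
  have hAR : A ⊆ Metric.closedBall 0 R :=
    hR1.trans (Metric.closedBall_subset_closedBall ((le_max_left _ _).trans (le_max_right _ _)))
  have hBR : B ⊆ Metric.closedBall 0 R :=
    hR2.trans (Metric.closedBall_subset_closedBall ((le_max_right _ _).trans (le_max_right _ _)))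
  obtain ⟨Ξ1, hΞ1⟩ := absorb n hn R hR (interior B) isOpen_interior hBi
  obtain ⟨Ξ2, hΞ2⟩ := absorb n hn R hR (interior A) isOpen_interior hAi
  -- the exceptional set
  have hUA : MeasurableSet (⋃ a, P a) := MeasurableSet.iUnion hP
  have hUB : MeasurableSet (⋃ a, γ a '' P a) :=
    MeasurableSet.iUnion fun a => (γ a).toHomeomorph.measurableEmbedding.measurableSet_image.2 (hP a)
  have hNm : MeasurableSet ((A \ ⋃ a, P a) ∪ (B \ ⋃ a, γ a '' P a)) :=
    (hA.diff hUA).union (hB.diff hUB)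
  have hN0 : volume ((A \ ⋃ a, P a) ∪ (B \ ⋃ a, γ a '' P a)) = 0 :=
    measure_union_null h0A h0B
  obtain ⟨X, hX, hX0, hNX, hXinv⟩ :=
    exists_saturation (Ξ1 ∪ Ξ2 ∪ Finset.univ.image γ) _ hNm hN0
  have hXγ : ∀ a, γ a '' X = X := fun a => hXinv _ (by simp)
  have hXl : ∀ ξ ∈ Ξ1, ξ '' X = X := fun ξ hξ => hXinv _ (by simp [hξ])
  have hXr : ∀ ξ ∈ Ξ2, ξ '' X = X := fun ξ hξ => hXinv _ (by simp [hξ])
  have hdiff : Dec (ind (A \ X)) (ind (B \ X)) :=
    Dec_diff hX hP hPA hPB hd hd' (subset_union_left.trans hNX) (subset_union_right.trans hNX) hXγ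
  have hle1 : Le' (ind (A ∩ X)) (ind (B ∩ X)) := Main_absorb hA hX hAR (hΞ1 X hX hX0 hXl)
  have hle2 : Le' (ind (B ∩ X)) (ind (A ∩ X)) := Main_absorb hB hX hBR (hΞ2 X hX hX0 hXr)
  have hinter : Dec (ind (A ∩ X)) (ind (B ∩ X)) :=
    schroeder_bernstein _ _ (hA.inter hX) (hB.inter hX) hle1 hle2
  have hall := Dec_add hdiff hinter
  rw [Main_split, Main_split] at hall
  exact Dec_pieces hall

end BorelEq
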